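import Pool.Agent.Helper24.TG.G09

/- Helper24.TT.H99.FS.Min -/
section
/-!
# Project FS (MP_120218_co), P3: the extremal choice of two residue classes
-/

set_option autoImplicit false

open Finset

namespace Pool.Agent.Helper99.FS

open Pool.Agent.Helper15.BP Pool.Agent.Helper84.TR Pool.Agent.Helper88.RT

/-- transport of entropy along an injection -/
theorem Ent_emb {Ω Ω' : Type} {α : Type*} [Fintype Ω] [Fintype Ω'] {w : Ω → ℝ} {w' : Ω' → ℝ}
    (e : Ω → Ω') (he : Function.Injective e) (h1 : ∀ o, w' (e o) = w o)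
    (h0 : ∀ o', o' ∉ Set.range e → w' o' = 0) (f : Ω' → α) :
    Ent w' f = Ent w (fun o => f (e o)) := by
  classical
  have hpr : ∀ a, pr w (fun o => f (e o)) a = pr w' f a := by
    intro a
    unfold pr
    apply Fintype.sum_of_injective e he
    · intro o' ho'
      rw [h0 o' ho']
      split_ifs <;> rfl
    · intro o
      rw [h1]
  unfold Ent
  symm
  apply Fintype.sum_of_injective e he
  · intro o' ho'
    rw [h0 o' ho', zero_mul]
  · intro o
    rw [h1, hpr]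

/-- the entropy of the sum of two independent uniform variables -/
noncomputable def HS (A B : Finset ℤ) : ℝ :=
  Ent (prodW (uw A) (uw B)) (fun q => (q.1 : ℤ) + (q.2 : ℤ))

/-- the functional -/
noncomputable def FF (β : ℝ) (A B : Finset ℤ) : ℝ :=
  β * HS A B - (β + 1) / 2 * (Real.log A.card + Real.log B.card)

/-- the class of `r` modulo `n` -/
def cls (A : Finset ℤ) (n : ℕ) (r : ℤ) : Finset ℤ := A.filter (fun a => (n : ℤ) ∣ a - r)

theorem mem_cls {A : Finset ℤ} {n : ℕ} {r a : ℤ} : a ∈ cls A n r ↔ a ∈ A ∧ (n : ℤ) ∣ a - r := by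
  unfold cls
  rw [mem_filter]

theorem zmod_eq {n : ℕ} {a r : ℤ} : ((a : ℤ) : ZMod n) = ((r : ℤ) : ZMod n) ↔ (n : ℤ) ∣ a - r := by
  rw [eq_comm, ZMod.intCast_eq_intCast_iff_dvd_sub]

theorem uw_apply {A : Finset ℤ} (x : {x // x ∈ A}) : uw A x = 1 / (A.card : ℝ) := rfl

theorem pr_uw {A : Finset ℤ} (n : ℕ) (r : ℤ) :
    pr (uw A) (fun x => ((x : ℤ) : ZMod n)) ((r : ℤ) : ZMod n) =
      ((cls A n r).card : ℝ) / A.card := by
  classical
  have h1 : pr (uw A) (fun x => ((x : ℤ) : ZMod n)) ((r : ℤ) : ZMod n) =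
      ∑ x : {x // x ∈ A}, if (n : ℤ) ∣ (x : ℤ) - r then 1 / (A.card : ℝ) else 0 := by
    unfold pr
    apply sum_congr rfl
    intro x _
    by_cases h : (n : ℤ) ∣ (x : ℤ) - r
    · rw [if_pos h, if_pos (zmod_eq.2 h), uw_apply]
    · rw [if_neg h, if_neg (fun h' => h (zmod_eq.1 h'))]
  rw [h1]
  have h2 : ∑ x : {x // x ∈ A}, (if (n : ℤ) ∣ (x : ℤ) - r then 1 / (A.card : ℝ) else 0) =
      ∑ x ∈ A, if (n : ℤ) ∣ x - r then 1 / (A.card : ℝ) else 0 :=
    Finset.sum_coe_sort A (fun x : ℤ => if (n : ℤ) ∣ x - r then 1 / (A.card : ℝ) else 0)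
  rw [h2, ← sum_filter, sum_const, nsmul_eq_mul, mul_one_div]
  rfl

theorem cw_uw {A : Finset ℤ} (hA : A.Nonempty) (n : ℕ) (r : ℤ) (hr : (cls A n r).Nonempty)
    (x : {x // x ∈ cls A n r}) :
    cw (uw A) (fun x => ((x : ℤ) : ZMod n)) ((r : ℤ) : ZMod n)
      ⟨x.1, (mem_cls.1 x.2).1⟩ = uw (cls A n r) x := by
  classical
  have h0 : (0 : ℝ) < A.card := by exact_mod_cast hA.card_pos
  have h1 : (0 : ℝ) < (cls A n r).card := by exact_mod_cast hr.card_pos
  unfold cw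
  rw [if_pos (zmod_eq.2 (mem_cls.1 x.2).2), pr_uw, uw_apply, uw_apply]
  (clear * - hA hr; field_simp)

theorem cw_uw_zero {A : Finset ℤ} (n : ℕ) (r : ℤ) (x : {x // x ∈ A})
    (hx : x ∉ Set.range (fun y : {x // x ∈ cls A n r} =>
      (⟨y.1, (mem_cls.1 y.2).1⟩ : {x // x ∈ A}))) :
    cw (uw A) (fun x => ((x : ℤ) : ZMod n)) ((r : ℤ) : ZMod n) x = 0 := by
  classical
  unfold cw
  rw [if_neg]
  intro h
  apply hx
  exact ⟨⟨x.1, mem_cls.2 ⟨x.2, zmod_eq.1 h⟩⟩, rfl⟩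

/-- the conditional entropies of the sum -/
theorem Ent_cw {A B : Finset ℤ} (hA : A.Nonempty) (hB : B.Nonempty) (n : ℕ) (r s : ℤ)
    (hr : (cls A n r).Nonempty) (hs : (cls B n s).Nonempty) :
    Ent (prodW (cw (uw A) (fun x => ((x : ℤ) : ZMod n)) ((r : ℤ) : ZMod n))
      (cw (uw B) (fun x => ((x : ℤ) : ZMod n)) ((s : ℤ) : ZMod n)))
      (fun q => (q.1 : ℤ) + (q.2 : ℤ)) = HS (cls A n r) (cls B n s) := by
  unfold HS
  refine Ent_emb (fun q : {x // x ∈ cls A n r} × {x // x ∈ cls B n s} =>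
    ((⟨q.1.1, (mem_cls.1 q.1.2).1⟩ : {x // x ∈ A}),
      (⟨q.2.1, (mem_cls.1 q.2.2).1⟩ : {x // x ∈ B}))) ?_ ?_ ?_
      (fun q : {x // x ∈ A} × {x // x ∈ B} => (q.1 : ℤ) + (q.2 : ℤ))
  · rintro ⟨⟨x, hx⟩, ⟨y, hy⟩⟩ ⟨⟨x', hx'⟩, ⟨y', hy'⟩⟩ h
    simp only [Prod.mk.injEq, Subtype.mk.injEq] at h ⊢
    exact h
  · intro q
    unfold prodW
    rw [cw_uw hA n r hr q.1, cw_uw hB n s hs q.2]
  · intro q hq
    unfold prodW
    by_cases h1 : q.1 ∈ Set.range (fun y : {x // x ∈ cls A n r} =>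
      (⟨y.1, (mem_cls.1 y.2).1⟩ : {x // x ∈ A}))
    · by_cases h2 : q.2 ∈ Set.range (fun y : {x // x ∈ cls B n s} =>
        (⟨y.1, (mem_cls.1 y.2).1⟩ : {x // x ∈ B}))
      · exfalso
        obtain ⟨y, hy⟩ := h1
        obtain ⟨z, hz⟩ := h2
        exact hq ⟨(y, z), Prod.ext hy hz⟩
      · rw [cw_uw_zero n s q.2 h2, mul_zero]
    · rw [cw_uw_zero n r q.1 h1, zero_mul]

/-- **Fibring**: a pair with minimal functional satisfies `(*)` -/
theorem star_of_min {β : ℝ} (hβ : 0 < β) {A B : Finset ℤ} (hA : A.Nonempty) (hB : B.Nonempty)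
    (n : ℕ) (hmin : ∀ r s : ℤ, (cls A n r).Nonempty → (cls B n s).Nonempty →
      FF β A B ≤ FF β (cls A n r) (cls B n s)) : Star (1 / β) A B n := by
  classical
  have hu := uw_isPr hA
  have hv := uw_isPr hB
  have hp := hu.prod hv
  set J : {x // x ∈ A} → ZMod n := fun x => ((x : ℤ) : ZMod n) with hJ
  set K : {x // x ∈ B} → ZMod n := fun x => ((x : ℤ) : ZMod n) with hK
  set S : {x // x ∈ A} × {x // x ∈ B} → ℤ := fun q => (q.1 : ℤ) + (q.2 : ℤ) with hS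
  have hA0 : (0 : ℝ) < A.card := by exact_mod_cast hA.card_pos
  have hB0 : (0 : ℝ) < B.card := by exact_mod_cast hB.card_pos
  -- step 1
  have h1 : Ent (prodW (uw A) (uw B)) S = Ent (prodW (uw A) (uw B)) (fun q => ((S q : ℤ) : ZMod n)) +
      CE (prodW (uw A) (uw B)) S (fun q => ((S q : ℤ) : ZMod n)) := by
    unfold CE
    rw [Ent_congr (f := fun o => (S o, ((S o : ℤ) : ZMod n))) (g := S) (fun o o' => by
      simp only [Prod.mk.injEq]
      exact ⟨fun h => h.1, fun h => ⟨h, by rw [h]⟩⟩)]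
    ring
  have h2 : CE (prodW (uw A) (uw B)) S (fun q => (J q.1, K q.2)) ≤
      CE (prodW (uw A) (uw B)) S (fun q => ((S q : ℤ) : ZMod n)) := by
    apply CE_anti hp
    intro o o' h
    simp only [Prod.mk.injEq] at h
    have e1 : ((o.1 : ℤ) : ZMod n) = ((o'.1 : ℤ) : ZMod n) := h.1
    have e2 : ((o.2 : ℤ) : ZMod n) = ((o'.2 : ℤ) : ZMod n) := h.2
    show ((((o.1 : ℤ) + (o.2 : ℤ) : ℤ)) : ZMod n) = ((((o'.1 : ℤ) + (o'.2 : ℤ) : ℤ)) : ZMod n)
    push_cast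
    rw [e1, e2]
  -- step 2
  have h3 : CE (prodW (uw A) (uw B)) S (fun q => (J q.1, K q.2)) =
      ∑ q, prodW (uw A) (uw B) q *
        Ent (cw (prodW (uw A) (uw B)) (fun q => (J q.1, K q.2)) (J q.1, K q.2)) S := by
    rw [Ent_fib hp, sum_w_comp (prodW (uw A) (uw B)) (fun q => (J q.1, K q.2))
      (fun a => Ent (cw (prodW (uw A) (uw B)) (fun q => (J q.1, K q.2)) a) S)]
  have h4 : ∀ q : {x // x ∈ A} × {x // x ∈ B},
      HS A B - (β + 1) / (2 * β) * (-Real.log (pr (uw A) J (J q.1)) +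
        -Real.log (pr (uw B) K (K q.2))) ≤
      Ent (cw (prodW (uw A) (uw B)) (fun q => (J q.1, K q.2)) (J q.1, K q.2)) S := by
    intro q
    have hr : (cls A n q.1).Nonempty := ⟨q.1, mem_cls.2 ⟨q.1.2, by simp⟩⟩
    have hs : (cls B n q.2).Nonempty := ⟨q.2, mem_cls.2 ⟨q.2.2, by simp⟩⟩
    have hr0 : (0 : ℝ) < (cls A n q.1).card := by exact_mod_cast hr.card_pos
    have hs0 : (0 : ℝ) < (cls B n q.2).card := by exact_mod_cast hs.card_pos
    rw [cw_prod]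
    have e1 : Ent (prodW (cw (uw A) J (J q.1)) (cw (uw B) K (K q.2))) S =
        HS (cls A n q.1) (cls B n q.2) := Ent_cw hA hB n q.1 q.2 hr hs
    rw [e1]
    have e2 : pr (uw A) J (J q.1) = ((cls A n q.1).card : ℝ) / A.card := pr_uw n (q.1 : ℤ)
    have e3 : pr (uw B) K (K q.2) = ((cls B n q.2).card : ℝ) / B.card := pr_uw n (q.2 : ℤ)
    rw [e2, e3, Real.log_div hr0.ne' hA0.ne', Real.log_div hs0.ne' hB0.ne']
    have e4 := hmin q.1 q.2 hr hs
    unfold FF at e4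
    have e5 : (β + 1) / (2 * β) * (-(Real.log ((cls A n q.1).card) - Real.log A.card) +
        -(Real.log ((cls B n q.2).card) - Real.log B.card)) =
        ((β + 1) / 2 * (Real.log A.card + Real.log B.card) -
          (β + 1) / 2 * (Real.log ((cls A n q.1).card) + Real.log ((cls B n q.2).card))) / β := by
      field_simp
      ring
    rw [e5, sub_le_iff_le_add, ← sub_le_iff_le_add', le_div_iff₀ hβ]
    linarith only [e4]
  have h5 : HS A B - (β + 1) / (2 * β) * (Ent (uw A) J + Ent (uw B) K) ≤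
      CE (prodW (uw A) (uw B)) S (fun q => (J q.1, K q.2)) := by
    rw [h3]
    have e1 : HS A B - (β + 1) / (2 * β) * (Ent (uw A) J + Ent (uw B) K) =
        ∑ q, prodW (uw A) (uw B) q * (HS A B - (β + 1) / (2 * β) *
          (-Real.log (pr (uw A) J (J q.1)) + -Real.log (pr (uw B) K (K q.2)))) := by
      have e2 : ∀ q : {x // x ∈ A} × {x // x ∈ B},
          prodW (uw A) (uw B) q * (HS A B - (β + 1) / (2 * β) *
            (-Real.log (pr (uw A) J (J q.1)) + -Real.log (pr (uw B) K (K q.2)))) =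
          prodW (uw A) (uw B) q * HS A B - (β + 1) / (2 * β) *
            (prodW (uw A) (uw B) q * (-Real.log (pr (uw A) J (J q.1))) +
              prodW (uw A) (uw B) q * (-Real.log (pr (uw B) K (K q.2)))) := by
        intro q
        ring
      rw [sum_congr rfl fun q _ => e2 q, sum_sub_distrib, ← sum_mul, hp.sum_one, ← mul_sum,
        sum_add_distrib,
        sum_prodW_fst (w := uw A) (w' := uw B) hv (fun x => -Real.log (pr (uw A) J (J x))),
        sum_prodW_snd (w := uw A) (w' := uw B) hu (fun x => -Real.log (pr (uw B) K (K x))), one_mul]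
      rfl
    rw [e1]
    exact sum_le_sum fun q _ => mul_le_mul_of_nonneg_left (h4 q) (hp.nonneg q)
  have h6 : HS A B = Ent (prodW (uw A) (uw B)) S := rfl
  unfold Star
  have h7 : (β + 1) / (2 * β) = (1 + 1 / β) / 2 := by
    field_simp
  rw [h7] at h5
  have h8 : Ent (prodW (uw A) (uw B)) (fun q => (((q.1 : ℤ) + (q.2 : ℤ) : ℤ) : ZMod n)) =
      Ent (prodW (uw A) (uw B)) (fun q => ((S q : ℤ) : ZMod n)) := rfl
  rw [h8]
  linarith only [h1, h2, h5, h6]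

/-- bounds for the entropy of the sum -/
theorem HS_ge {A B : Finset ℤ} (hA : A.Nonempty) (hB : B.Nonempty) :
    (Real.log A.card + Real.log B.card) / 2 ≤ HS A B := by
  have hu := uw_isPr hA
  have hv := uw_isPr hB
  have hp := hu.prod hv
  have h0 : Ent (prodW (uw A) (uw B)) (fun q => ((q.1 : ℤ), (q.2 : ℤ))) =
      Real.log A.card + Real.log B.card := by
    rw [← Ent_uw hA, ← Ent_uw hB]
    exact Ent_prod hu hv (fun x => (x : ℤ)) (fun x => (x : ℤ))
  have h1 : Real.log A.card ≤ HS A B := by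
    have e1 : CE (prodW (uw A) (uw B)) (fun q => (q.1 : ℤ) + (q.2 : ℤ)) (fun q => (q.2 : ℤ)) ≤
        HS A B := CE_le_Ent hp _ _
    have e2 : CE (prodW (uw A) (uw B)) (fun q => (q.1 : ℤ) + (q.2 : ℤ)) (fun q => (q.2 : ℤ)) =
        CE (prodW (uw A) (uw B)) (fun q => (q.1 : ℤ)) (fun q => (q.2 : ℤ)) := by
      apply CE_congr
      · intro o o'; exact Iff.rfl
      · intro o o' h
        rw [h]
        exact add_left_inj _
    rw [e2] at e1
    unfold CE at e1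
    rw [h0, Ent_snd hu (fun x : {x // x ∈ B} => (x : ℤ)), Ent_uw hB] at e1
    (clear * - e1; linarith only [e1])
  have h2 : Real.log B.card ≤ HS A B := by
    have e1 : CE (prodW (uw A) (uw B)) (fun q => (q.1 : ℤ) + (q.2 : ℤ)) (fun q => (q.1 : ℤ)) ≤
        HS A B := CE_le_Ent hp _ _
    have e2 : CE (prodW (uw A) (uw B)) (fun q => (q.1 : ℤ) + (q.2 : ℤ)) (fun q => (q.1 : ℤ)) =
        CE (prodW (uw A) (uw B)) (fun q => (q.2 : ℤ)) (fun q => (q.1 : ℤ)) := by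
      apply CE_congr
      · intro o o'; exact Iff.rfl
      · intro o o' h
        rw [h]
        exact add_right_inj _
    rw [e2] at e1
    unfold CE at e1
    have e3 : Ent (prodW (uw A) (uw B)) (fun q => ((q.2 : ℤ), (q.1 : ℤ))) =
        Real.log A.card + Real.log B.card := by
      rw [← h0]
      apply Ent_congr
      intro o o'
      simp only [Prod.mk.injEq]
      tauto
    rw [e3, Ent_fst hv (fun x : {x // x ∈ A} => (x : ℤ)), Ent_uw hA] at e1
    (clear * - e1; linarith only [e1])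
  linarith

theorem HS_le {A B : Finset ℤ} (hA : A.Nonempty) (hB : B.Nonempty) :
    HS A B ≤ Real.log ((image₂ (fun a b => a + b) A B).card) := by
  classical
  have hp := (uw_isPr hA).prod (uw_isPr hB)
  have e2 : HS A B ≤ CE (prodW (uw A) (uw B)) (fun q => (q.1 : ℤ) + (q.2 : ℤ))
      (fun _ => (0 : ℤ)) := by
    unfold CE HS
    rw [Ent_const hp, sub_zero]
    exact Ent_mono hp fun o o' e => congrArg Prod.fst e
  refine e2.trans (CE_le_log hp _ _ _ ?_)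
  intro o
  rw [← Set.ncard_coe_finset]
  refine Set.ncard_le_ncard ?_ (Finset.finite_toSet _)
  rintro a ⟨o', -, rfl⟩
  rw [mem_coe, mem_image₂]
  exact ⟨_, o'.1.2, _, o'.2.2, rfl⟩

/-- **The extremal choice.** -/
theorem exists_extremal {β : ℝ} (hβ : 0 < β) {A₀ : Finset ℤ} (hA₀ : A₀.Nonempty)
    (hneg : FF β A₀ A₀ < 0) :
    ∃ (A B : Finset ℤ) (m : ℕ), A ⊆ A₀ ∧ B ⊆ A₀ ∧ A.Nonempty ∧ B.Nonempty ∧ 0 < m ∧
      FF β A B ≤ FF β A₀ A₀ ∧
      (∀ a ∈ A, ∀ a' ∈ A, (m : ℤ) ∣ a - a') ∧ (∀ b ∈ B, ∀ b' ∈ B, (m : ℤ) ∣ b - b') ∧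
      (∀ n : ℕ, 0 < n → m ∣ n → Star (1 / β) A B n) ∧
      (∀ p : ℕ, p.Prime → ¬ ((∀ a ∈ A, ∀ a' ∈ A, ((m * p : ℕ) : ℤ) ∣ a - a') ∧
        (∀ b ∈ B, ∀ b' ∈ B, ((m * p : ℕ) : ℤ) ∣ b - b'))) := by
  classical
  set P : Finset (Finset ℤ × Finset ℤ) := (A₀.powerset ×ˢ A₀.powerset).filter
    (fun q => q.1.Nonempty ∧ q.2.Nonempty ∧ ∃ m : ℕ, 0 < m ∧ (∃ r, q.1 = cls A₀ m r) ∧
      (∃ s, q.2 = cls A₀ m s)) with hP
  have h0 : cls A₀ 1 0 = A₀ := by
    ext a
    rw [mem_cls]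
    exact ⟨fun h => h.1, fun h => ⟨h, by simp⟩⟩
  have hPne : (A₀, A₀) ∈ P := by
    rw [hP, mem_filter, mem_product, mem_powerset]
    exact ⟨⟨Subset.rfl, Subset.rfl⟩, hA₀, hA₀, 1, one_pos, ⟨0, h0.symm⟩, ⟨0, h0.symm⟩⟩
  obtain ⟨⟨A, B⟩, hAB, hmin⟩ := exists_min_image P (fun q => FF β q.1 q.2) ⟨_, hPne⟩
  rw [hP, mem_filter, mem_product, mem_powerset, mem_powerset] at hAB
  obtain ⟨⟨hAA, hBA⟩, hAne, hBne, m₀, hm₀, ⟨r, hr⟩, ⟨s, hs⟩⟩ := hAB
  simp only at hAA hBA hAne hBne hr hs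
  have hle : FF β A B ≤ FF β A₀ A₀ := hmin _ hPne
  -- the greatest common divisor of the differences
  set m : ℕ := Nat.gcd ((A ×ˢ A).gcd (fun q : ℤ × ℤ => (q.1 - q.2).natAbs))
    ((B ×ˢ B).gcd (fun q : ℤ × ℤ => (q.1 - q.2).natAbs)) with hm
  have hdvd : ∀ n : ℕ, n ∣ m ↔ (∀ a ∈ A, ∀ a' ∈ A, (n : ℤ) ∣ a - a') ∧
      (∀ b ∈ B, ∀ b' ∈ B, (n : ℤ) ∣ b - b') := by
    intro n
    rw [hm, Nat.dvd_gcd_iff, Finset.dvd_gcd_iff, Finset.dvd_gcd_iff]
    constructor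
    · rintro ⟨h1, h2⟩
      exact ⟨fun a ha a' ha' => Int.natCast_dvd.2 (h1 (a, a') (mem_product.2 ⟨ha, ha'⟩)),
        fun b hb b' hb' => Int.natCast_dvd.2 (h2 (b, b') (mem_product.2 ⟨hb, hb'⟩))⟩
    · rintro ⟨h1, h2⟩
      refine ⟨fun q hq => ?_, fun q hq => ?_⟩
      · rw [mem_product] at hq
        exact Int.natCast_dvd.1 (h1 _ hq.1 _ hq.2)
      · rw [mem_product] at hq
        exact Int.natCast_dvd.1 (h2 _ hq.1 _ hq.2)
  have hm0 : m ≠ 0 := by
    intro hz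
    have h1 := (hdvd 0).1 (by rw [hz])
    have hc : ∀ S : Finset ℤ, S.Nonempty → (∀ a ∈ S, ∀ a' ∈ S, ((0 : ℕ) : ℤ) ∣ a - a') →
        S.card = 1 := by
      intro S hS h
      apply le_antisymm _ hS.card_pos
      rw [card_le_one]
      intro a ha b hb
      have := h a ha b hb
      rw [Nat.cast_zero, zero_dvd_iff] at this
      linarith only [this]
    have hA1 := hc A hAne h1.1
    have hB1 := hc B hBne h1.2
    have h2 := HS_ge hAne hBne
    have h3 : 0 ≤ FF β A B := by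
      unfold FF
      rw [hA1, hB1] at h2 ⊢
      simp only [Nat.cast_one, Real.log_one, add_zero, mul_zero, sub_zero, zero_div] at h2 ⊢
      exact mul_nonneg hβ.le h2
    linarith only [hneg, hle, h3]
  have hmm₀ : m₀ ∣ m := by
    rw [hdvd]
    constructor
    · intro a ha a' ha'
      rw [hr] at ha ha'
      have h1 := dvd_sub (mem_cls.1 ha).2 (mem_cls.1 ha').2
      have h2 : a - r - (a' - r) = a - a' := by ring
      rwa [h2] at h1
    · intro a ha a' ha'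
      rw [hs] at ha ha'
      have h1 := dvd_sub (mem_cls.1 ha).2 (mem_cls.1 ha').2
      have h2 : a - s - (a' - s) = a - a' := by ring
      rwa [h2] at h1
  have hcls : ∀ (S : Finset ℤ) (r : ℤ), S = cls A₀ m₀ r → ∀ n : ℕ, m ∣ n → ∀ r' : ℤ,
      (cls S n r').Nonempty → ∃ r'' : ℤ, cls S n r' = cls A₀ n r'' := by
    intro S r hS n hn r' hne
    obtain ⟨x, hx⟩ := hne
    have hx1 := (mem_cls.1 hx).1
    have hx2 := (mem_cls.1 hx).2
    refine ⟨r', ?_⟩
    ext a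
    rw [mem_cls, mem_cls]
    constructor
    · rintro ⟨h1, h2⟩
      rw [hS] at h1
      exact ⟨(mem_cls.1 h1).1, h2⟩
    · rintro ⟨h1, h2⟩
      refine ⟨?_, h2⟩
      rw [hS] at hx1 ⊢
      refine mem_cls.2 ⟨h1, ?_⟩
      have hm₀n : (m₀ : ℤ) ∣ (n : ℤ) := by exact_mod_cast hmm₀.trans hn
      have h3 := dvd_add (hm₀n.trans (dvd_sub h2 hx2)) (mem_cls.1 hx1).2
      have h4 : a - r' - (x - r') + (x - r) = a - r := by ring
      rwa [h4] at h3
  refine ⟨A, B, m, hAA, hBA, hAne, hBne, Nat.pos_of_ne_zero hm0, hle,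
    ((hdvd m).1 dvd_rfl).1, ((hdvd m).1 dvd_rfl).2, ?_, ?_⟩
  · intro n hn hmn
    apply star_of_min hβ hAne hBne
    intro r' s' hr' hs'
    apply hmin (cls A n r', cls B n s')
    rw [hP, mem_filter, mem_product, mem_powerset, mem_powerset]
    refine ⟨⟨?_, ?_⟩, hr', hs', n, hn, ?_, ?_⟩
    · exact fun a ha => hAA (mem_cls.1 ha).1
    · exact fun a ha => hBA (mem_cls.1 ha).1
    · obtain ⟨r'', h⟩ := hcls A r hr n hmn r' hr'
      exact ⟨r'', h⟩
    · obtain ⟨r'', h⟩ := hcls B s hs n hmn s' hs'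
      exact ⟨r'', h⟩
  · intro p hp h
    have h1 := (hdvd (m * p)).2 h
    have h2 := Nat.le_of_dvd (Nat.pos_of_ne_zero hm0) h1
    have h3 := hp.two_le
    have h4 := Nat.pos_of_ne_zero hm0
    nlinarith only [h2, h3, h4]

/-- the size of the extremal pair -/
theorem extremal_card {β δ L : ℝ} (hβ : 0 < β) {A₀ A B : Finset ℤ} (hA₀ : A₀.Nonempty)
    (hA : A.Nonempty) (hB : B.Nonempty) (hBA : B ⊆ A₀) (hF : FF β A B ≤ FF β A₀ A₀)
    (hL : Real.log A₀.card = L)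
    (hS : Real.log ((image₂ (fun a b => a + b) A₀ A₀).card) ≤ (1 + δ) * L) :
    (1 - 2 * (β * δ)) * L ≤ Real.log A.card := by
  have h1 := HS_ge hA hB
  have h2 := HS_le hA₀ hA₀
  unfold FF at hF
  rw [hL] at hF
  have h3 : Real.log B.card ≤ L := by
    rw [← hL]
    apply Real.log_le_log
    · exact_mod_cast hB.card_pos
    · exact_mod_cast card_le_card hBA
  have h4 : β * ((Real.log A.card + Real.log B.card) / 2) ≤ β * HS A B :=
    mul_le_mul_of_nonneg_left h1 hβ.le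
  have h5 : β * HS A₀ A₀ ≤ β * ((1 + δ) * L) :=
    mul_le_mul_of_nonneg_left (h2.trans hS) hβ.le
  linarith only [hF, h3, h4, h5]

end Pool.Agent.Helper99.FS
end
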