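import Pool.Agent.Helper24.TG.G07

/- Helper24.TT.H99.FS.Defs -/
section
/-!
# Project FS (MP_120218_co): sets with few sums.  Definitions and interface statements.
-/

set_option autoImplicit false

open Finset

namespace Pool.Agent.Helper99.FS

open Pool.Agent.Helper15.BP Pool.Agent.Helper84.TR Pool.Agent.Helper88.RT

/-- P1 (entropy lemma in a general abelian group): if `X`, `Y` are independent,
`H(X + Y) ≤ (1 + τ) / 2 (H(X) + H(Y))` and `X` has a value `x₀` of mass at least `κ`, then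
`X - x₀` has order at most `M`, except on a set of mass at most `σ`. -/
def AtomLemma : Prop :=
  ∀ κ σ : ℝ, 0 < κ → κ ≤ 1 → 0 < σ → ∃ (τ : ℝ) (M : ℕ), 0 < τ ∧ τ ≤ 1 / 2 ∧ 1 ≤ M ∧
    ∀ (Ω Ω' G : Type) [Fintype Ω] [Fintype Ω'] [AddCommGroup G] (w : Ω → ℝ) (w' : Ω' → ℝ)
      (X : Ω → G) (Y : Ω' → G) (x₀ : G), IsPr w → IsPr w' →
      Ent (prodW w w') (fun p => X p.1 + Y p.2) ≤ (1 + τ) / 2 * (Ent w X + Ent w' Y) →
      κ ≤ pr w X x₀ →
      mass w (fun o => ¬ ∃ j : ℕ, 1 ≤ j ∧ j ≤ M ∧ j • (X o - x₀) = 0) ≤ σ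

/-- the inequality `(*)` modulo `n` for uniform variables on `A` and `B` -/
def Star (τ : ℝ) (A B : Finset ℤ) (n : ℕ) : Prop :=
  Ent (prodW (uw A) (uw B)) (fun q => (((q.1 : ℤ) + (q.2 : ℤ) : ℤ) : ZMod n)) ≤
    (1 + τ) / 2 * (Ent (uw A) (fun x => ((x : ℤ) : ZMod n)) +
      Ent (uw B) (fun x => ((x : ℤ) : ZMod n)))

open Classical in
/-- P2 (no popular classes beyond `m`): if `A` and `B` lie in classes modulo `m` and satisfy `(*)`
modulo every multiple of `m`, and a class modulo `m p ^ l`, `p ^ l > M`, contains `κ |A|` elements of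
`A`, then `A` and `B` lie in classes modulo `m p`. -/
def AtomsZ : Prop :=
  ∀ κ : ℝ, 0 < κ → κ ≤ 1 → ∃ (τ : ℝ) (M : ℕ), 0 < τ ∧ τ ≤ 1 / 2 ∧ 1 ≤ M ∧
    ∀ (A B : Finset ℤ) (m p l : ℕ) (r : ℤ), A.Nonempty → B.Nonempty → 0 < m → p.Prime →
      M < p ^ l → (∀ a ∈ A, ∀ a' ∈ A, (m : ℤ) ∣ a - a') → (∀ b ∈ B, ∀ b' ∈ B, (m : ℤ) ∣ b - b') →
      (∀ n : ℕ, 0 < n → m ∣ n → Star τ A B n) →
      κ * (A.card : ℝ) ≤ ((A.filter (fun a => ((m * p ^ l : ℕ) : ℤ) ∣ a - r)).card : ℝ) →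
      (∀ a ∈ A, ∀ a' ∈ A, ((m * p : ℕ) : ℤ) ∣ a - a') ∧
        (∀ b ∈ B, ∀ b' ∈ B, ((m * p : ℕ) : ℤ) ∣ b - b')

end Pool.Agent.Helper99.FS
end

/- Helper24.TT.H78.FS.AtomsZ -/
section
/-!
# Project FS (MP_120218_co), P2: no popular classes beyond `m`
-/

set_option autoImplicit false

open Finset

namespace Pool.Agent.Helper78.FS

open Pool.Agent.Helper15.BP Pool.Agent.Helper84.TR Pool.Agent.Helper88.RT Pool.Agent.Helper99.FS

/-- a function of entropy zero is constant when all weights are positive -/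
theorem const_of_ent {Ω α : Type} [Fintype Ω] {w : Ω → ℝ} (hw : IsPr w) (hpos : ∀ o, 0 < w o)
    (f : Ω → α) (h : Ent w f ≤ 0) (o o' : Ω) : f o = f o' := by
  classical
  by_contra hne
  have hterm : ∀ x, 0 ≤ w x * (-Real.log (pr w f (f x))) := fun x =>
    mul_nonneg (hw.nonneg x) (neg_nonneg.2 (Real.log_nonpos (pr_nonneg hw f _) (pr_le_one hw f _)))
  have h1 : w o * (-Real.log (pr w f (f o))) ≤ 0 := by
    refine le_trans ?_ h
    unfold Ent
    exact Finset.single_le_sum (f := fun x => w x * (-Real.log (pr w f (f x))))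
      (fun x _ => hterm x) (Finset.mem_univ o)
  have h2 : pr w f (f o) < 1 := by
    have h3 : pr w f (f o) + w o' ≤ ∑ x, w x := by
      unfold pr
      rw [← Finset.sum_erase_add _ _ (Finset.mem_univ o'),
        ← Finset.sum_erase_add (s := Finset.univ) (f := w) (a := o') (Finset.mem_univ o'),
        if_neg (fun h4 => hne h4.symm)]
      have h4 : ∑ x ∈ Finset.univ.erase o', (if f x = f o then w x else 0) ≤
          ∑ x ∈ Finset.univ.erase o', w x := by
        apply Finset.sum_le_sum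
        intro x _
        split_ifs
        · exact le_rfl
        · exact hw.nonneg x
      (clear * - h4; linarith)
    rw [hw.sum_one] at h3
    have := hpos o'
    (clear * - h3 this; linarith)
  have h5 := Real.log_neg (pr_pos hw f (hpos o)) h2
  have h6 := mul_pos (hpos o) (neg_pos.2 h5)
  linarith

theorem uw_pos {A : Finset ℤ} (hA : A.Nonempty) (o : {x // x ∈ A}) : 0 < uw A o := by
  have h0 : (0 : ℝ) < A.card := by exact_mod_cast hA.card_pos
  unfold uw
  (clear * - hA; positivity)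

open Classical in
theorem pr_uw {A : Finset ℤ} {α : Type} (f : ℤ → α) (c : α) :
    pr (uw A) (fun x => f (x : ℤ)) c = ((A.filter (fun a => f a = c)).card : ℝ) / A.card := by
  unfold pr uw
  rw [← Finset.sum_filter, Finset.sum_const, nsmul_eq_mul, mul_one_div]
  congr 2
  refine Finset.card_bij (fun x _ => (x : ℤ)) ?_ ?_ ?_
  · intro x hx
    rw [mem_filter] at hx ⊢
    exact ⟨x.2, hx.2⟩
  · intro x _ y _ hxy
    exact Subtype.ext hxy
  · intro b hb
    rw [mem_filter] at hb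
    exact ⟨⟨b, hb.1⟩, by rw [mem_filter]; exact ⟨mem_univ _, hb.2⟩, rfl⟩

/-- **P2** -/
theorem atomsZ (h : AtomLemma) : AtomsZ := by
  classical
  intro κ hκ hκ1
  obtain ⟨σ, hσ, hσ', hcol⟩ := group_column (1 / 8) (by norm_num)
  obtain ⟨τ, M, hτ, hτ', hM, hat⟩ := h κ σ hκ hκ1 hσ
  refine ⟨τ, M, hτ, hτ', hM, ?_⟩
  intro A B m p l r hA hB hm hp hMl hAm hBm hstar hpop
  have hpl : 0 < p ^ l := pow_pos hp.pos l
  have hcA : (0 : ℝ) < A.card := by exact_mod_cast hA.card_pos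
  -- a member of the popular class
  obtain ⟨a₀, ha₀, hr₀⟩ : ∃ a₀ ∈ A, ((m * p ^ l : ℕ) : ℤ) ∣ a₀ - r := by
    have h1 : (0 : ℝ) < ((A.filter (fun a => ((m * p ^ l : ℕ) : ℤ) ∣ a - r)).card : ℝ) :=
      lt_of_lt_of_le (by (clear * - hκ hA; positivity)) hpop
    have h2 : 0 < (A.filter (fun a => ((m * p ^ l : ℕ) : ℤ) ∣ a - r)).card := by
      exact_mod_cast h1
    obtain ⟨a, ha⟩ := Finset.card_pos.1 h2
    rw [mem_filter] at ha
    exact ⟨a, ha.1, ha.2⟩
  have hmr : ∀ a ∈ A, (m : ℤ) ∣ a - r := by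
    intro a ha
    have h1 : (m : ℤ) ∣ a₀ - r := by
      refine dvd_trans ?_ hr₀
      push_cast
      exact dvd_mul_right _ _
    have h2 := hAm a ha a₀ ha₀
    have h3 := dvd_add h2 h1
    have h4 : a - a₀ + (a₀ - r) = a - r := by ring
    rwa [h4] at h3
  -- the atom lemma modulo `m p ^ l`
  have hone := hat {x // x ∈ A} {x // x ∈ B} (ZMod (m * p ^ l)) (uw A) (uw B)
    (fun x => ((x : ℤ) : ZMod (m * p ^ l))) (fun x => ((x : ℤ) : ZMod (m * p ^ l)))
    ((r : ℤ) : ZMod (m * p ^ l)) (uw_isPr hA) (uw_isPr hB) (by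
      have h1 := hstar (m * p ^ l) (Nat.mul_pos hm hpl) (dvd_mul_right _ _)
      unfold Pool.Agent.Helper99.FS.Star at h1
      have h2 : (fun q : {x // x ∈ A} × {x // x ∈ B} =>
          (((q.1 : ℤ) + (q.2 : ℤ) : ℤ) : ZMod (m * p ^ l))) =
          fun p' => ((p'.1 : ℤ) : ZMod (m * p ^ l)) + ((p'.2 : ℤ) : ZMod (m * p ^ l)) := by
        funext q
        push_cast
        rfl
      rw [h2] at h1
      exact h1) (by
      rw [pr_uw (A := A) (fun a : ℤ => ((a : ℤ) : ZMod (m * p ^ l))), le_div_iff₀ hcA]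
      refine hpop.trans (le_of_eq ?_)
      congr 2
      ext a
      simp only [Finset.mem_filter]
      constructor
      · rintro ⟨h1, h2⟩
        exact ⟨h1, ((ZMod.intCast_eq_intCast_iff_dvd_sub _ _ _).2 (by
          rw [← dvd_neg, neg_sub]; exact h2))⟩
      · rintro ⟨h1, h2⟩
        refine ⟨h1, ?_⟩
        have h3 := (ZMod.intCast_eq_intCast_iff_dvd_sub _ _ _).1 h2
        rw [← dvd_neg, neg_sub] at h3
        exact h3)
  -- the values near `r` are congruent to `r` modulo `m p`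
  have hloc : ∀ a ∈ A, (∃ j : ℕ, 1 ≤ j ∧ j ≤ M ∧
      j • (((a : ℤ) : ZMod (m * p ^ l)) - ((r : ℤ) : ZMod (m * p ^ l))) = 0) →
      ((m * p : ℕ) : ℤ) ∣ a - r := by
    rintro a ha ⟨j, hj1, hjM, hj⟩
    obtain ⟨t, ht⟩ := hmr a ha
    have h1 : ((m * p ^ l : ℕ) : ℤ) ∣ (j : ℤ) * (a - r) := by
      have h2 : (((j : ℤ) * (a - r) : ℤ) : ZMod (m * p ^ l)) = ((0 : ℤ) : ZMod (m * p ^ l)) := by
        push_cast
        rw [nsmul_eq_mul] at hj
        exact hj
      have h3 := (ZMod.intCast_eq_intCast_iff_dvd_sub _ _ _).1 h2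
      rw [zero_sub, dvd_neg] at h3
      exact h3
    rw [ht] at h1 ⊢
    have h4 : ((p ^ l : ℕ) : ℤ) ∣ (j : ℤ) * t := by
      have h5 : (m : ℤ) * ((p ^ l : ℕ) : ℤ) ∣ (m : ℤ) * ((j : ℤ) * t) := by
        have h6 : (m : ℤ) * ((j : ℤ) * t) = (j : ℤ) * ((m : ℤ) * t) := by ring
        rw [h6]
        push_cast at h1 ⊢
        exact h1
      exact Int.dvd_of_mul_dvd_mul_left (by positivity) h5
    have h7 : (p : ℤ) ∣ t := by
      by_contra hpt
      have hpp : Prime (p : ℤ) := Nat.prime_iff_prime_int.1 hp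
      have h8 : IsCoprime (((p ^ l : ℕ) : ℤ)) t := by
        push_cast
        exact IsCoprime.pow_left ((Prime.coprime_iff_not_dvd hpp).2 hpt)
      have h9 : ((p ^ l : ℕ) : ℤ) ∣ (j : ℤ) := h8.dvd_of_dvd_mul_right h4
      have h10 : p ^ l ∣ j := by exact_mod_cast h9
      have h11 := Nat.le_of_dvd (by omega) h10
      omega
    push_cast
    exact mul_dvd_mul_left _ h7
  -- the column lemma modulo `m p`
  have hmass : mass (uw A) (fun x => (((x : ℤ) : ZMod (m * p)) - ((r : ℤ) : ZMod (m * p))) ≠ 0) ≤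
      σ := by
    refine le_trans (mass_mono (uw_isPr hA) ?_) hone
    intro x hx hj
    apply hx
    have h1 := hloc x x.2 hj
    rw [sub_eq_zero]
    apply (ZMod.intCast_eq_intCast_iff_dvd_sub _ _ _).2
    rw [← dvd_neg, neg_sub]
    exact h1
  have hcc := hcol {x // x ∈ B} {x // x ∈ A} (ZMod (m * p)) (uw B) (uw A)
    (fun x => ((x : ℤ) : ZMod (m * p)))
    (fun x => ((x : ℤ) : ZMod (m * p)) - ((r : ℤ) : ZMod (m * p))) (uw_isPr hB) (uw_isPr hA) hmass
  have hEA : Ent (uw A) (fun x => ((x : ℤ) : ZMod (m * p)) - ((r : ℤ) : ZMod (m * p))) =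
      Ent (uw A) (fun x => ((x : ℤ) : ZMod (m * p))) :=
    Ent_congr fun o o' => by rw [sub_left_inj]
  have hES : Ent (prodW (uw B) (uw A)) (fun q => ((q.1 : ℤ) : ZMod (m * p)) +
      (((q.2 : ℤ) : ZMod (m * p)) - ((r : ℤ) : ZMod (m * p)))) =
      Ent (prodW (uw A) (uw B)) (fun q => (((q.1 : ℤ) + (q.2 : ℤ) : ℤ) : ZMod (m * p))) := by
    rw [← Ent_equiv (Equiv.prodComm {x // x ∈ B} {x // x ∈ A}) (w := prodW (uw B) (uw A))
      (w' := prodW (uw A) (uw B)) (fun o => by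
        unfold prodW
        exact mul_comm _ _)]
    apply Ent_congr
    intro o o'
    simp only [Equiv.prodComm_apply, Prod.fst_swap, Prod.snd_swap]
    push_cast
    constructor
    · intro h1
      linear_combination h1
    · intro h1
      linear_combination h1
  have hEP : Ent (prodW (uw B) (uw A)) (fun q => (((q.1 : ℤ) : ZMod (m * p)),
      ((q.1 : ℤ) : ZMod (m * p)) + (((q.2 : ℤ) : ZMod (m * p)) - ((r : ℤ) : ZMod (m * p))))) =
      Ent (uw B) (fun x => ((x : ℤ) : ZMod (m * p))) +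
        Ent (uw A) (fun x => ((x : ℤ) : ZMod (m * p)) - ((r : ℤ) : ZMod (m * p))) := by
    rw [← Ent_prod (uw_isPr hB) (uw_isPr hA)]
    apply Ent_congr
    intro o o'
    simp only [Prod.mk.injEq]
    constructor
    · rintro ⟨h1, h2⟩
      refine ⟨h1, ?_⟩
      rw [h1] at h2
      exact add_left_cancel h2
    · rintro ⟨h1, h2⟩
      exact ⟨h1, by rw [h1, h2]⟩
  have hst := hstar (m * p) (Nat.mul_pos hm hp.pos) (dvd_mul_right _ _)
  unfold Pool.Agent.Helper99.FS.Star at hst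
  unfold CE at hcc
  rw [hEP, hES, hEA] at hcc
  have hA0 := Ent_nonneg (uw_isPr hA) (fun x => ((x : ℤ) : ZMod (m * p)))
  have hB0 := Ent_nonneg (uw_isPr hB) (fun x => ((x : ℤ) : ZMod (m * p)))
  set HA := Ent (uw A) (fun x => ((x : ℤ) : ZMod (m * p))) with hHA
  set HB := Ent (uw B) (fun x => ((x : ℤ) : ZMod (m * p))) with hHB
  have hkey : HA + HB ≤ 0 := by
    have h1 : (1 - τ) / 2 * (HA + HB) ≤ 1 / 8 * (HA + HB) := by linarith only [hcc, hst]
    nlinarith only [hτ', h1]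
  have final : ∀ (S : Finset ℤ), S.Nonempty →
      Ent (uw S) (fun x => ((x : ℤ) : ZMod (m * p))) ≤ 0 →
      ∀ a ∈ S, ∀ a' ∈ S, ((m * p : ℕ) : ℤ) ∣ a - a' := by
    intro S hS hE a ha a' ha'
    have h1 := const_of_ent (uw_isPr hS) (uw_pos hS) (fun x => ((x : ℤ) : ZMod (m * p))) hE
      ⟨a', ha'⟩ ⟨a, ha⟩
    exact (ZMod.intCast_eq_intCast_iff_dvd_sub _ _ _).1 h1
  exact ⟨final A hA (by linarith only [hB0, hkey]), final B hB (by linarith only [hA0, hkey])⟩

end Pool.Agent.Helper78.FS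
end
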