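import Mathlib
import Pool.Agent.Helper24.TG.G01

/- Helper24.TT.H88.NZ.Transl -/
section
set_option autoImplicit false

/-!
MP_120218_co, project NZ: popular valuations of several translates of one set of integers.
-/

open Finset

namespace Pool.Agent.Helper88.NZ

theorem sum_val_le (F : Finset ℕ) (hF : ∀ q ∈ F, q.Prime) {z : ℤ} (hz : z ≠ 0) :
    ∑ q ∈ F, (padicValInt q z : ℝ) * Real.log q ≤ Real.log z.natAbs := by
  classical
  have hn : z.natAbs ≠ 0 := Int.natAbs_ne_zero.2 hz
  have h0 : ∀ q ∈ F, (padicValInt q z : ℝ) = (z.natAbs.factorization q : ℝ) := by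
    intro q hq
    rw [Nat.factorization_def _ (hF q hq)]
    rfl
  rw [sum_congr rfl fun q hq => by rw [h0 q hq]]
  rw [Real.log_nat_eq_sum_factorization z.natAbs, Finsupp.sum]
  have h1 : ∑ q ∈ F, (z.natAbs.factorization q : ℝ) * Real.log q ≤
      ∑ q ∈ F ∪ z.natAbs.factorization.support, (z.natAbs.factorization q : ℝ) * Real.log q := by
    apply sum_le_sum_of_subset_of_nonneg subset_union_left
    intro q _ _
    exact mul_nonneg (Nat.cast_nonneg _) (Real.log_natCast_nonneg q)
  refine h1.trans (le_of_eq ?_)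
  symm
  apply sum_subset subset_union_right
  intro q _ hq
  rw [Finsupp.notMem_support_iff.1 hq, Nat.cast_zero, zero_mul]

/-- the largest valuation of a difference of two elements of `J` -/
def sep (J : Finset ℤ) (q : ℕ) : ℕ := J.offDiag.sup (fun z => padicValInt q (z.1 - z.2))

theorem le_sep {J : Finset ℤ} {q : ℕ} {x y : ℤ} (hx : x ∈ J) (hy : y ∈ J) (hxy : x ≠ y) :
    padicValInt q (x - y) ≤ sep J q :=
  le_sup (f := fun z : ℤ × ℤ => padicValInt q (z.1 - z.2)) (b := (x, y))
    (mem_offDiag.2 ⟨hx, hy, hxy⟩)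

theorem sum_sep_le (J : Finset ℤ) (F : Finset ℕ) (hF : ∀ q ∈ F, q.Prime) {S : ℝ}
    (hS : ∀ x ∈ J, ∀ y ∈ J, x ≠ y → Real.log (x - y).natAbs ≤ S) (hS0 : 0 ≤ S) :
    ∑ q ∈ F, (sep J q : ℝ) * Real.log q ≤ (J.card : ℝ) ^ 2 * S := by
  classical
  have h1 : ∀ q ∈ F, (sep J q : ℝ) * Real.log q ≤
      ∑ z ∈ J.offDiag, (padicValInt q (z.1 - z.2) : ℝ) * Real.log q := by
    intro q _
    rw [← sum_mul]
    apply mul_le_mul_of_nonneg_right _ (Real.log_natCast_nonneg q)
    have : sep J q ≤ ∑ z ∈ J.offDiag, padicValInt q (z.1 - z.2) := by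
      apply Finset.sup_le
      intro z hz
      exact single_le_sum (f := fun z : ℤ × ℤ => padicValInt q (z.1 - z.2))
        (fun _ _ => Nat.zero_le _) hz
    exact_mod_cast this
  calc ∑ q ∈ F, (sep J q : ℝ) * Real.log q
      ≤ ∑ q ∈ F, ∑ z ∈ J.offDiag, (padicValInt q (z.1 - z.2) : ℝ) * Real.log q := sum_le_sum h1
    _ = ∑ z ∈ J.offDiag, ∑ q ∈ F, (padicValInt q (z.1 - z.2) : ℝ) * Real.log q := sum_comm
    _ ≤ ∑ _z ∈ J.offDiag, S := by
        apply sum_le_sum
        intro z hz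
        rw [mem_offDiag] at hz
        exact (sum_val_le F hF (sub_ne_zero.2 hz.2.2)).trans (hS _ hz.1 _ hz.2.1 hz.2.2)
    _ = (J.offDiag.card : ℝ) * S := by rw [sum_const, nsmul_eq_mul]
    _ ≤ (J.card : ℝ) ^ 2 * S := by
        apply mul_le_mul_of_nonneg_right _ hS0
        have : J.offDiag.card ≤ J.card * J.card := by
          rw [offDiag_card]
          exact Nat.sub_le _ _
        rw [sq]
        exact_mod_cast this

/-- at most `1 / κ` of the classes `-y` modulo `q ^ l` are popular -/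
theorem card_pop_le {A J : Finset ℤ} (hA : A.Nonempty) {κ : ℝ} {q l : ℕ} (hq : q.Prime)
    (hl : sep J q < l) (Y : Finset ℤ) (hY : Y ⊆ J)
    (hpop : ∀ y ∈ Y, κ * A.card ≤ ((A.filter (fun a => (q : ℤ) ^ l ∣ a + y)).card : ℝ)) :
    κ * Y.card ≤ 1 := by
  classical
  have hAp : (0 : ℝ) < A.card := by exact_mod_cast card_pos.2 hA
  have hdis : (Y : Set ℤ).PairwiseDisjoint (fun y => A.filter (fun a => (q : ℤ) ^ l ∣ a + y)) := by
    intro x hx y hy hxy
    rw [Function.onFun, disjoint_left]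
    intro a ha ha'
    rw [mem_filter] at ha ha'
    have h1 : (q : ℤ) ^ l ∣ x - y := by
      have := dvd_sub ha.2 ha'.2
      rwa [show a + x - (a + y) = x - y by ring] at this
    have := Fact.mk hq
    have h2 := (padicValInt_dvd_iff (p := q) l (x - y)).1 h1
    rcases h2 with h2 | h2
    · exact hxy (sub_eq_zero.1 h2)
    · have h3 := le_sep (q := q) (hY (mem_coe.1 hx)) (hY (mem_coe.1 hy)) hxy
      omega
  have h1 : ∑ y ∈ Y, (A.filter (fun a => (q : ℤ) ^ l ∣ a + y)).card ≤ A.card := by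
    rw [← card_biUnion (fun x hx y hy hxy => hdis hx hy hxy)]
    apply card_le_card
    intro a ha
    obtain ⟨y, _, hy⟩ := mem_biUnion.1 ha
    exact (mem_filter.1 hy).1
  have h2 : ∑ _y ∈ Y, κ * (A.card : ℝ) ≤ A.card := by
    refine (sum_le_sum hpop).trans ?_
    exact_mod_cast h1
  rw [sum_const, nsmul_eq_mul] at h2
  have h3 : (κ * Y.card) * A.card ≤ 1 * A.card := by (clear * - h2; linarith only [h2])
  exact le_of_mul_le_mul_right h3 hAp

theorem transl_core {A J : Finset ℤ} (hA : A.Nonempty) {κ : ℝ} (hκ0 : 0 < κ)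
    (F : Finset ℕ) (hF : ∀ q ∈ F, q.Prime) (lam : ℤ → ℕ → ℕ)
    (hlam : ∀ x ∈ J, ∀ q ∈ F, ∀ l ≤ lam x q,
      κ * A.card ≤ ((A.filter (fun a => (q : ℤ) ^ l ∣ a + x)).card : ℝ))
    {C : ℝ} (hC0 : 0 ≤ C)
    (hNZ : ∀ x ∈ J, ∀ mu : ℕ → ℕ, (∀ q ∈ F, mu q ≠ 0 → ∃ b : ℤ, b ≠ 0 ∧
      κ * A.card ≤ ((A.filter (fun a => (q : ℤ) ^ (padicValInt q b + mu q) ∣ (a + x) - b)).card : ℝ)) →
      ∑ q ∈ F, (mu q : ℝ) * Real.log q ≤ C * ∑ q ∈ F, (lam x q : ℝ) * Real.log q)
    {S : ℝ} (hS : ∀ x ∈ J, ∀ y ∈ J, x ≠ y → Real.log (x - y).natAbs ≤ S) (hS0 : 0 ≤ S)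
    (hW : ∀ x ∈ J, 2 * ((J.card : ℝ) ^ 2 * S) ≤ ∑ q ∈ F, (lam x q : ℝ) * Real.log q)
    (hW0 : ∀ x ∈ J, 0 < ∑ q ∈ F, (lam x q : ℝ) * Real.log q) :
    (J.card : ℝ) ≤ 1 + 2 * C / κ := by
  classical
  rcases J.eq_empty_or_nonempty with hJ | hJ
  · rw [hJ, card_empty, Nat.cast_zero]
    (clear * - hC0 hκ0; positivity)
  obtain ⟨x, hx, hmin⟩ := exists_min_image J (fun x => ∑ q ∈ F, (lam x q : ℝ) * Real.log q) hJ
  set W : ℤ → ℝ := fun x => ∑ q ∈ F, (lam x q : ℝ) * Real.log q with hWdef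
  set mu : ℕ → ℕ := fun q => (J.erase x).sup (fun y => lam y q - sep J q) with hmu
  have hq0 : ∀ q : ℕ, 0 ≤ Real.log q := fun q => Real.log_natCast_nonneg q
  have hmuW : ∑ q ∈ F, (mu q : ℝ) * Real.log q ≤ C * W x := by
    apply hNZ x hx mu
    intro q hq hne
    have hEne : (J.erase x).Nonempty := by
      rw [nonempty_iff_ne_empty]
      intro h0
      apply hne
      rw [hmu]
      simp only
      rw [h0, sup_empty]
      rfl
    obtain ⟨y, hy, hye⟩ := exists_mem_eq_sup (J.erase x) hEne (fun y => lam y q - sep J q)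
    have hyJ := mem_of_mem_erase hy
    have hyx := ne_of_mem_erase hy
    have hmuq : mu q = lam y q - sep J q := hye
    have hlt : sep J q < lam y q := by omega
    have hle : padicValInt q (x - y) + mu q ≤ lam y q := by
      have := le_sep (q := q) hx hyJ (Ne.symm hyx)
      omega
    refine ⟨x - y, sub_ne_zero.2 (Ne.symm hyx), (hlam y hyJ q hq (lam y q) le_rfl).trans ?_⟩
    apply Nat.cast_le.2
    apply card_le_card
    intro a ha
    rw [mem_filter] at ha ⊢
    refine ⟨ha.1, (pow_dvd_pow _ hle).trans ?_⟩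
    rw [show a + x - (x - y) = a + y by ring]
    exact ha.2
  have hone : ∀ q ∈ F, κ * ∑ y ∈ J.erase x, ((lam y q - sep J q : ℕ) : ℝ) ≤ mu q := by
    intro q hq
    have h1 : ∀ y ∈ J.erase x, ((lam y q - sep J q : ℕ) : ℝ) =
        ∑ l ∈ Ioc (sep J q) (sep J q + mu q), if l ≤ lam y q then (1 : ℝ) else 0 := by
      intro y hy
      rw [← sum_filter, sum_const, nsmul_one]
      congr 1
      have h2 : lam y q - sep J q ≤ mu q :=
        le_sup (f := fun y => lam y q - sep J q) hy
      have h3 : (Ioc (sep J q) (sep J q + mu q)).filter (fun l => l ≤ lam y q) =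
          Ioc (sep J q) (lam y q) := by
        ext l
        simp only [mem_filter, mem_Ioc]
        omega
      rw [h3, Nat.card_Ioc]
    rw [sum_congr rfl h1, sum_comm, mul_sum]
    have h4 : ∀ l ∈ Ioc (sep J q) (sep J q + mu q),
        κ * ∑ y ∈ J.erase x, (if l ≤ lam y q then (1 : ℝ) else 0) ≤ 1 := by
      intro l hl
      rw [← sum_filter, sum_const, nsmul_one]
      apply card_pop_le hA (hF q hq) (mem_Ioc.1 hl).1
      · exact (filter_subset _ _).trans (erase_subset _ _)
      · intro y hy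
        rw [mem_filter] at hy
        exact hlam y (mem_of_mem_erase hy.1) q hq l hy.2
    refine (sum_le_sum h4).trans ?_
    rw [sum_const, Nat.card_Ioc, nsmul_one]
    apply le_of_eq
    congr 1
    omega
  have hall : κ * ∑ y ∈ J.erase x, ∑ q ∈ F, ((lam y q - sep J q : ℕ) : ℝ) * Real.log q ≤ C * W x := by
    rw [sum_comm, mul_sum]
    refine le_trans (sum_le_sum fun q hq => ?_) hmuW
    rw [← sum_mul, ← mul_assoc]
    exact mul_le_mul_of_nonneg_right (hone q hq) (hq0 q)
  have hsep := sum_sep_le J F hF hS hS0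
  have hlow : ∀ y ∈ J.erase x, W x / 2 ≤ ∑ q ∈ F, ((lam y q - sep J q : ℕ) : ℝ) * Real.log q := by
    intro y hy
    have hyJ := mem_of_mem_erase hy
    have h1 : W y - ∑ q ∈ F, (sep J q : ℝ) * Real.log q ≤
        ∑ q ∈ F, ((lam y q - sep J q : ℕ) : ℝ) * Real.log q := by
      rw [hWdef]
      simp only
      rw [← sum_sub_distrib]
      apply sum_le_sum
      intro q _
      rw [← sub_mul]
      apply mul_le_mul_of_nonneg_right _ (hq0 q)
      have h2 : lam y q ≤ (lam y q - sep J q) + sep J q := by omega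
      have h3 : (lam y q : ℝ) ≤ ((lam y q - sep J q : ℕ) : ℝ) + sep J q := by exact_mod_cast h2
      linarith only [h3]
    have h2 := hmin y hyJ
    have h3 := hW x hx
    have h4 : W x ≤ W y := h2
    have h5 : 2 * ((J.card : ℝ) ^ 2 * S) ≤ W x := h3
    linarith only [hsep, h1, h2, h5]
  have h6 : κ * (((J.card : ℝ) - 1) * (W x / 2)) ≤ C * W x := by
    refine le_trans ?_ hall
    apply mul_le_mul_of_nonneg_left _ hκ0.le
    have h7 := sum_le_sum hlow
    rw [sum_const, nsmul_eq_mul, card_erase_of_mem hx] at h7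
    refine le_trans (le_of_eq ?_) h7
    congr 1
    have h8 : 1 ≤ J.card := card_pos.2 hJ
    rw [Nat.cast_sub h8, Nat.cast_one]
  have hWx : 0 < W x := hW0 x hx
  have h7 : (κ * ((J.card : ℝ) - 1)) * (W x / 2) ≤ (2 * C) * (W x / 2) := by
    refine (le_of_eq ?_).trans (h6.trans (le_of_eq ?_)) <;> ring
  have h8 := le_of_mul_le_mul_right h7 (by (clear * - hWx; positivity))
  have h9 : (J.card : ℝ) - 1 ≤ 2 * C / κ := by
    rw [le_div_iff₀ hκ0]
    linarith only [h8]
  linarith only [h9]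

end Pool.Agent.Helper88.NZ
end

/- Helper24.TT.H88.NZ.TR -/
section
set_option autoImplicit false

/-!
MP_120218_co, project TR: the statement about translates from the structure theorem for one set.
-/

open Finset

namespace Pool.Agent.Helper88.NZ

open Pool.Agent.Helper26.TR

/-- the translate of a set -/
def sh (A : Finset ℤ) (x : ℤ) : Finset ℤ := A.image (fun a => a + x)

theorem card_sh (A : Finset ℤ) (x : ℤ) : (sh A x).card = A.card :=
  card_image_of_injective _ (fun a b h => by simpa using h)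

theorem card_filter_sh (A : Finset ℤ) (x : ℤ) (P : ℤ → Prop) [DecidablePred P] :
    ((sh A x).filter P).card = (A.filter (fun a => P (a + x))).card := by
  classical
  unfold sh
  rw [filter_image, card_image_of_injective _ (fun a b h => by simpa using h)]

theorem dvd_lev {κ : ℝ} (hκ1 : κ ≤ 1) (B : Finset ℤ) (p : ℕ) {l : ℕ} (hl : l ≤ lev κ B p) :
    κ * (B.card : ℝ) ≤ ((B.filter (fun a => (p : ℤ) ^ l ∣ a)).card : ℝ) := by
  classical
  have h0 : κ * (B.card : ℝ) ≤ (cdiv B ((p : ℤ) ^ 0) : ℝ) := by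
    have : cdiv B ((p : ℤ) ^ 0) = B.card := by
      unfold cdiv
      rw [pow_zero, filter_true_of_mem]
      intro a _
      exact one_dvd a
    rw [this]
    have : (0 : ℝ) ≤ B.card := Nat.cast_nonneg _
    nlinarith only [hκ1]
  have h1 : κ * (B.card : ℝ) ≤ (cdiv B ((p : ℤ) ^ (lev κ B p)) : ℝ) :=
    Nat.findGreatest_spec (P := fun l => κ * (B.card : ℝ) ≤ (cdiv B ((p : ℤ) ^ l) : ℝ))
      (Nat.zero_le _) h0
  refine h1.trans ?_
  unfold cdiv
  apply Nat.cast_le.2
  apply card_le_card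
  intro a ha
  rw [mem_filter] at ha ⊢
  exact ⟨ha.1, (pow_dvd_pow _ hl).trans ha.2⟩

theorem lev_eq_zero {κ : ℝ} (B : Finset ℤ) (hB : (0 : ℤ) ∉ B) {p : ℕ} (hp : p.Prime)
    (h : p ∉ prs B) : lev κ B p = 0 := by
  classical
  have h1 : mval B p = 0 := by
    unfold mval
    rw [← Nat.bot_eq_zero, Finset.sup_eq_bot_iff]
    intro a ha
    rw [Nat.bot_eq_zero]
    by_contra hne
    apply h
    unfold prs
    rw [mem_biUnion]
    refine ⟨a, ha, ?_⟩
    rw [Nat.mem_primeFactors]
    have ha0 : a ≠ 0 := fun h0 => hB (h0 ▸ ha)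
    refine ⟨hp, ?_, Int.natAbs_ne_zero.2 ha0⟩
    exact dvd_of_one_le_padicValNat (Nat.one_le_iff_ne_zero.2 hne)
  unfold lev
  rw [h1]
  exact Nat.findGreatest_zero

theorem W0_eq {κ : ℝ} (B : Finset ℤ) (hB : (0 : ℤ) ∉ B) (F : Finset ℕ)
    (hF : ∀ p ∈ F, p.Prime) (h : prs B ⊆ F) :
    W0 κ B = ∑ p ∈ F, (lev κ B p : ℝ) * Real.log p := by
  unfold W0
  apply sum_subset h
  intro p hp hpB
  rw [lev_eq_zero B hB (hF p hp) hpB, Nat.cast_zero, zero_mul]

/-- the combinatorial core for translates, in terms of `W0` and `Pop` -/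
theorem core_lev {A J : Finset ℤ} (hA : A.Nonempty) (h0 : ∀ x ∈ J, (0 : ℤ) ∉ sh A x) {κ : ℝ}
    (hκ0 : 0 < κ) (hκ1 : κ ≤ 1) {C : ℝ} (hC0 : 0 ≤ C)
    (hNZ : ∀ x ∈ J, ∀ (T : Finset ℕ) (e : ℕ → ℕ) (β : ℕ → ℤ), Pop κ (sh A x) T e β →
      W1 T e β ≤ C * (W0 κ (sh A x) + 1))
    {S : ℝ} (hS : ∀ x ∈ J, ∀ y ∈ J, x ≠ y → Real.log (x - y).natAbs ≤ S) (hS0 : 0 ≤ S)
    (hW : ∀ x ∈ J, 2 * ((J.card : ℝ) ^ 2 * S) ≤ W0 κ (sh A x))
    (hW1 : ∀ x ∈ J, 1 ≤ W0 κ (sh A x)) :
    (J.card : ℝ) ≤ 1 + 4 * C / κ := by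
  classical
  set F : Finset ℕ := J.biUnion (fun x => prs (sh A x)) with hFdef
  have hF : ∀ p ∈ F, p.Prime := by
    intro p hp
    rw [hFdef, mem_biUnion] at hp
    obtain ⟨x, _, hx⟩ := hp
    unfold prs at hx
    rw [mem_biUnion] at hx
    obtain ⟨a, _, ha⟩ := hx
    exact Nat.prime_of_mem_primeFactors ha
  have hWF : ∀ x ∈ J, W0 κ (sh A x) = ∑ q ∈ F, (lev κ (sh A x) q : ℝ) * Real.log q := by
    intro x hx
    exact W0_eq _ (h0 x hx) F hF (subset_biUnion_of_mem (fun x => prs (sh A x)) hx)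
  have key := transl_core (A := A) (J := J) hA hκ0 F hF (fun x q => lev κ (sh A x) q)
    (fun x hx q _ l hl => by
      have h1 := dvd_lev hκ1 (sh A x) q hl
      rw [card_sh, card_filter_sh] at h1
      exact h1)
    (C := 2 * C) (by (clear * - hC0; positivity))
    (fun x hx mu hmu => by
      have hmu' : ∀ q : ℕ, ∃ b : ℤ, q ∈ F → mu q ≠ 0 → b ≠ 0 ∧ κ * A.card ≤
          ((A.filter (fun a => (q : ℤ) ^ (padicValInt q b + mu q) ∣ (a + x) - b)).card : ℝ) := by
        intro q
        by_cases hq : q ∈ F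
        · by_cases hm : mu q = 0
          · exact ⟨0, fun _ h => absurd hm h⟩
          · obtain ⟨b, hb⟩ := hmu q hq hm
            exact ⟨b, fun _ _ => hb⟩
        · exact ⟨0, fun h => absurd h hq⟩
      choose b hb using hmu'
      have hpop : Pop κ (sh A x) (F.filter (fun q => mu q ≠ 0))
          (fun q => padicValInt q (b q) + mu q) b := by
        refine ⟨fun p hp => hF p (mem_filter.1 hp).1, ?_, ?_⟩
        · intro p hp hdvd
          obtain ⟨hpF, hpm⟩ := mem_filter.1 hp
          have := Fact.mk (hF p hpF)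
          rcases (padicValInt_dvd_iff (p := p) _ _).1 hdvd with h | h
          · exact (hb p hpF hpm).1 h
          · have h' : padicValInt p (b p) + mu p ≤ padicValInt p (b p) := h
            omega
        · intro p hp
          obtain ⟨hpF, hpm⟩ := mem_filter.1 hp
          rw [card_sh, card_filter_sh]
          exact (hb p hpF hpm).2
      have h1 := hNZ x hx _ _ _ hpop
      have h2 : W1 (F.filter (fun q => mu q ≠ 0)) (fun q => padicValInt q (b q) + mu q) b =
          ∑ q ∈ F, (mu q : ℝ) * Real.log q := by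
        unfold W1
        rw [sum_filter]
        apply sum_congr rfl
        intro q _
        by_cases hm : mu q = 0
        · simp [hm]
        · rw [if_pos hm, Nat.add_sub_cancel_left]
      rw [h2] at h1
      refine h1.trans ?_
      rw [← hWF x hx]
      have := hW1 x hx
      nlinarith only [hC0, this])
    hS hS0 (fun x hx => by rw [← hWF x hx]; exact hW x hx)
    (fun x hx => by rw [← hWF x hx]; (clear * - hW1 hx; linarith [hW1 x hx]))
  refine key.trans (le_of_eq ?_)
  ring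

/-- `log log` of half of a large number -/
theorem half_log {N : ℝ} (hN : Real.exp 16 ≤ N) {M : ℝ} (hM : N / 2 ≤ M) :
    1 / 4 * (Real.log N * Real.log (Real.log N)) ≤ Real.log M * Real.log (Real.log M) ∧
      1 ≤ Real.log (Real.log N) ∧ 16 ≤ Real.log N := by
  have hNpos : 0 < N := lt_of_lt_of_le (Real.exp_pos _) hN
  have hL : 16 ≤ Real.log N := by rwa [Real.le_log_iff_exp_le hNpos]
  have h2 : Real.log 2 < 0.6931471808 := Real.log_two_lt_d9
  have h2' : 0.6931471803 < Real.log 2 := Real.log_two_gt_d9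
  have hMpos : 0 < M := lt_of_lt_of_le (by (clear * - hNpos; positivity)) hM
  have h3 : Real.log N - Real.log 2 ≤ Real.log M := by
    rw [← Real.log_div hNpos.ne' (by norm_num)]
    exact Real.log_le_log (by positivity) hM
  have h4 : Real.log N / 2 ≤ Real.log M := by linarith only [hL, h2, h3]
  have h16 : Real.log 16 = 4 * Real.log 2 := by
    rw [show (16 : ℝ) = 2 ^ 4 by norm_num, Real.log_pow]
    norm_num
  have hLL : 4 * Real.log 2 ≤ Real.log (Real.log N) := by
    rw [← h16]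
    exact Real.log_le_log (by norm_num) hL
  have h5 : Real.log (Real.log N) - Real.log 2 ≤ Real.log (Real.log M) := by
    rw [← Real.log_div (by positivity) (by norm_num)]
    exact Real.log_le_log (by positivity) h4
  have h6 : Real.log (Real.log N) / 2 ≤ Real.log (Real.log M) := by (clear * - h2' hLL h5; linarith only [h2', hLL, h5])
  refine ⟨?_, by linarith only [h2', hLL], hL⟩
  have h7 : (Real.log N / 2) * (Real.log (Real.log N) / 2) ≤
      Real.log M * Real.log (Real.log M) := by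
    apply mul_le_mul h4 h6 <;> linarith only [h2', hLL, hL, h4]
  linarith only [h7]

theorem prodSet_nonempty {k : ℕ} {A : Finset ℤ} (hA : A.Nonempty) : (prodSet k A).Nonempty := by
  classical
  obtain ⟨a, ha⟩ := hA
  unfold prodSet
  exact ⟨_, mem_image_of_mem _ (Fintype.mem_piFinset.2 (fun _ => ha) :
      (fun _ : Fin k => a) ∈ Fintype.piFinset (fun _ : Fin k => A))⟩

theorem prodSet_mono {k : ℕ} {A B : Finset ℤ} (h : A ⊆ B) : prodSet k A ⊆ prodSet k B := by
  classical
  unfold prodSet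
  exact image_subset_image (Fintype.piFinset_subset _ _ fun _ => h)

/-- **From the structure theorem to the theorem on translates.** -/
theorem translates (hNZ : NZStatement) (hWL : WeightLower) : TRStatement := by
  classical
  intro k hk ε hε
  set ε' : ℝ := min ε 1 with hε'
  have hε'0 : 0 < ε' := lt_min hε one_pos
  have hε'1 : ε' ≤ 1 := min_le_right _ _
  have hk1 : (1 : ℝ) ≤ k := by exact_mod_cast hk
  obtain ⟨κ₀, c₂, hκ₀, hc₂, hwl⟩ := hWL k hk ε' hε'0
  obtain ⟨S, C, c₁, hS, hC, hc₁, hnz⟩ := hNZ k hk ε' hε'0 (min κ₀ 1) (lt_min hκ₀ one_pos)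
  -- the number of exceptions
  obtain ⟨m, hm⟩ := exists_nat_ge (∑ κ ∈ S, (1 + 4 * C / κ))
  -- the threshold
  set L₀ : ℝ := max 16 (16 / c₂ + 2 * Real.log (2 * (m + 1))) with hL₀
  set c : ℝ := min (min (c₁ / 2 ^ k) (c₂ / 2 ^ k))
    (min (c₂ / (8 * ((m : ℝ) + 1) ^ 2)) (Real.exp (-(k * L₀)))) with hc
  have hc0 : 0 < c := by
    rw [hc]
    apply lt_min (lt_min _ _) (lt_min _ _) <;> (clear * - hc₁ hc₂; positivity)
  have hcc₁ : c ≤ c₁ / 2 ^ k := (min_le_left _ _).trans (min_le_left _ _)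
  have hcc₂ : c ≤ c₂ / 2 ^ k := (min_le_left _ _).trans (min_le_right _ _)
  have hcm : c ≤ c₂ / (8 * ((m : ℝ) + 1) ^ 2) := (min_le_right _ _).trans (min_le_left _ _)
  have hce : c ≤ Real.exp (-(k * L₀)) := (min_le_right _ _).trans (min_le_right _ _)
  clear_value c
  refine ⟨m, c, hc0, ?_⟩
  intro A hA X hX hXsep
  have hN1 : (1 : ℝ) ≤ A.card := by exact_mod_cast card_pos.2 hA
  have hNpos : (0 : ℝ) < A.card := by linarith only [hN1]
  set N : ℝ := (A.card : ℝ) with hN
  have hXne : X.Nonempty := card_pos.1 (by omega)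
  by_contra hcon
  push Not at hcon
  -- small `N`
  have hL0 : L₀ < Real.log N := by
    by_contra hle
    push Not at hle
    obtain ⟨x, hx⟩ := hXne
    have h1 := hcon x hx
    have h2 : (1 : ℝ) ≤ ((prodSet k (A.image (fun a => a + x))).card : ℝ) := by
      exact_mod_cast card_pos.2 (prodSet_nonempty (hA.image _))
    have h3 : c * N ^ ((k : ℝ) - ε) ≤ 1 := by
      have hL0' : 0 ≤ Real.log N := Real.log_nonneg hN1
      calc c * N ^ ((k : ℝ) - ε) ≤ Real.exp (-(k * L₀)) * N ^ (k : ℝ) := by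
            apply mul_le_mul hce _ (by (clear * - hA hc hc0 hcc₁ hcc₂ hcm hce hXsep hcon h1; positivity)) (Real.exp_pos _).le
            exact Real.rpow_le_rpow_of_exponent_le hN1 (by linarith only [hε])
        _ = Real.exp (k * (Real.log N - L₀)) := by
            rw [Real.rpow_def_of_pos hNpos, ← Real.exp_add]
            congr 1
            ring
        _ ≤ Real.exp 0 := by
            apply Real.exp_le_exp.2
            have : Real.log N - L₀ ≤ 0 := by linarith only [hle]
            (clear * - this; nlinarith only [this])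
        _ = 1 := Real.exp_zero
    linarith only [h1, h2, h3]
  have hL16 : 16 ≤ Real.log N := (le_max_left _ _).trans hL0.le
  have hL2 : 16 / c₂ + 2 * Real.log (2 * (m + 1)) ≤ Real.log N := (le_max_right _ _).trans hL0.le
  have hNexp : Real.exp 16 ≤ N := by rwa [← Real.le_log_iff_exp_le hNpos]
  have hlogm : 0 ≤ Real.log (2 * ((m : ℝ) + 1)) := by
    apply Real.log_nonneg
    have : (0 : ℝ) ≤ m := Nat.cast_nonneg m
    linarith only []
  have hNm : 2 * ((m : ℝ) + 1) ≤ N := by
    rw [← Real.log_le_log_iff (by (clear * -; positivity)) hNpos]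
    have : 0 < 16 / c₂ := by positivity
    linarith only [hL2, hlogm, this]
  -- choose `m + 1` translates
  obtain ⟨X', hX'X, hX'c⟩ := exists_subset_card_eq (s := X) (n := m + 1) (by omega)
  set A₀ : Finset ℤ := A.filter (fun a => ∀ x ∈ X', a + x ≠ 0) with hA₀
  have hA₀A : A₀ ⊆ A := filter_subset _ _
  have hA₀c : N / 2 ≤ (A₀.card : ℝ) := by
    have h1 : A ⊆ A₀ ∪ X'.image (fun x => -x) := by
      intro a ha
      rw [mem_union]
      by_cases h : ∀ x ∈ X', a + x ≠ 0
      · left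
        rw [hA₀, mem_filter]
        exact ⟨ha, h⟩
      · right
        push Not at h
        obtain ⟨x, hx, hax⟩ := h
        rw [mem_image]
        exact ⟨x, hx, by omega⟩
    have h2 : A.card ≤ A₀.card + (m + 1) := by
      refine (card_le_card h1).trans ((card_union_le _ _).trans ?_)
      have := card_image_le (s := X') (f := fun x => -x)
      omega
    have h3 : N ≤ (A₀.card : ℝ) + (m + 1) := by
      rw [hN]
      exact_mod_cast h2
    (clear * - hNm h3; linarith only [hNm, h3])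
  have hA₀pos : (0 : ℝ) < A₀.card := lt_of_lt_of_le (by (clear * - hA hc hc0 hcc₁ hcc₂ hcm hce hXsep hcon; positivity)) hA₀c
  have hA₀ne : A₀.Nonempty := card_pos.1 (by exact_mod_cast hA₀pos)
  have hA₀1 : (1 : ℝ) ≤ A₀.card := by exact_mod_cast card_pos.2 hA₀ne
  have h0 : ∀ x ∈ X', (0 : ℤ) ∉ sh A₀ x := by
    intro x hx h
    unfold sh at h
    obtain ⟨a, ha, hax⟩ := mem_image.1 h
    rw [hA₀, mem_filter] at ha
    exact ha.2 x hx hax
  have hNA₀ : N ^ ((k : ℝ) - ε) ≤ 2 ^ k * (A₀.card : ℝ) ^ ((k : ℝ) - ε') := by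
    have hke : 0 ≤ (k : ℝ) - ε' := by linarith only [hε'1, hk1]
    calc N ^ ((k : ℝ) - ε) ≤ N ^ ((k : ℝ) - ε') := by
          apply Real.rpow_le_rpow_of_exponent_le hN1
          have : ε' ≤ ε := min_le_left _ _
          linarith only [this]
      _ ≤ (2 * (A₀.card : ℝ)) ^ ((k : ℝ) - ε') :=
          Real.rpow_le_rpow hNpos.le (by linarith only [hA₀c]) hke
      _ = 2 ^ ((k : ℝ) - ε') * (A₀.card : ℝ) ^ ((k : ℝ) - ε') :=
          Real.mul_rpow (by norm_num) hA₀pos.le
      _ ≤ 2 ^ k * (A₀.card : ℝ) ^ ((k : ℝ) - ε') := by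
          apply mul_le_mul_of_nonneg_right _ (by (clear * - hA₀ne hc hc0 hcc₁ hcc₂ hcm hce hXsep hcon; positivity))
          rw [← Real.rpow_natCast 2 k]
          exact Real.rpow_le_rpow_of_exponent_le (by norm_num) (by linarith only [hε'0])
  have hsmall : ∀ c' : ℝ, 0 < c' → c ≤ c' / 2 ^ k → ∀ x ∈ X',
      ((prodSet k (sh A₀ x)).card : ℝ) < c' * ((sh A₀ x).card : ℝ) ^ ((k : ℝ) - ε') := by
    intro c' hc' hcc' x hx
    rw [card_sh]
    have h1 : ((prodSet k (sh A₀ x)).card : ℝ) ≤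
        ((prodSet k (A.image (fun a => a + x))).card : ℝ) := by
      apply Nat.cast_le.2
      apply card_le_card
      apply prodSet_mono
      unfold sh
      exact image_subset_image hA₀A
    refine h1.trans_lt ((hcon x (hX'X hx)).trans_le ?_)
    calc c * N ^ ((k : ℝ) - ε) ≤ c' / 2 ^ k * (2 ^ k * (A₀.card : ℝ) ^ ((k : ℝ) - ε')) := by
          apply mul_le_mul hcc' hNA₀ (by (clear * - hA hc hc0 hcc₁ hcc₂ hcm hce hXsep hcon hcc'; positivity)) (by (clear * - hc'; positivity))
      _ = c' * (A₀.card : ℝ) ^ ((k : ℝ) - ε') := by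
          (clear * - hA₀ne hc hc0 hcc₁ hcc₂ hcm hce hXsep hcon hcc' hc'; field_simp)
  obtain ⟨hhalf, hLL1, _⟩ := half_log hNexp hA₀c
  -- the lower bound for the weights
  have hWlow : ∀ x ∈ X', ∀ κ : ℝ, 0 < κ → κ ≤ κ₀ →
      c₂ / 4 * (Real.log N * Real.log (Real.log N)) ≤ W0 κ (sh A₀ x) := by
    intro x hx κ hκ0 hκ
    have h1 := hwl (sh A₀ x) (by unfold sh; exact hA₀ne.image _) (h0 x hx)
      (hsmall c₂ hc₂ hcc₂ x hx) κ hκ0 hκ
    rw [card_sh] at h1
    refine le_trans ?_ h1
    have h2 := mul_le_mul_of_nonneg_left hhalf hc₂.le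
    linarith only [h2]
  have hLLL : 16 ≤ Real.log N * Real.log (Real.log N) := by (clear * - hL16 hLL1; nlinarith only [hL16, hLL1])
  have hLLc : 16 / c₂ ≤ Real.log N * Real.log (Real.log N) := by
    have h1 : 16 / c₂ ≤ Real.log N := by linarith only [hL2, hlogm]
    nlinarith only [hLL1, hLLL, h1]
  -- the popular level of a translate
  have hr : ∀ x : ℤ, ∃ κ : ℝ, x ∈ X' → κ ∈ S ∧ ∀ (T : Finset ℕ) (e : ℕ → ℕ) (β : ℕ → ℤ),
      Pop κ (sh A₀ x) T e β → W1 T e β ≤ C * (W0 κ (sh A₀ x) + 1) := by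
    intro x
    by_cases hx : x ∈ X'
    · obtain ⟨κ, hκ, h⟩ := hnz (sh A₀ x) (by unfold sh; exact hA₀ne.image _) (h0 x hx)
        (hsmall c₁ hc₁ hcc₁ x hx)
      exact ⟨κ, fun _ => ⟨hκ, h⟩⟩
    · exact ⟨0, fun h => absurd h hx⟩
  choose r hr using hr
  -- logarithms of the differences
  set Sep : ℝ := c * (Real.log N * Real.log (Real.log N)) with hSep
  have hSep0 : 0 ≤ Sep := by (clear * - hc0 hL16 hLL1; positivity)
  have hdiff : ∀ x ∈ X', ∀ y ∈ X', x ≠ y → Real.log (x - y).natAbs ≤ Sep := by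
    intro x hx y hy hxy
    have h1 := hXsep x (hX'X hx) y (hX'X hy)
    have h2 : ((x - y).natAbs : ℝ) = |(x : ℝ) - y| := by
      rw [Nat.cast_natAbs]
      push_cast
      rfl
    have h3 : (0 : ℝ) < (x - y).natAbs := by
      exact_mod_cast Int.natAbs_pos.2 (sub_ne_zero.2 hxy)
    rw [← h2] at h1
    refine (Real.log_le_log h3 h1).trans (le_of_eq ?_)
    rw [Real.log_rpow hNpos, hSep]
    ring
  -- conclusion
  have hJ : ∀ κ ∈ S, ((X'.filter (fun x => r x = κ)).card : ℝ) ≤ 1 + 4 * C / κ := by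
    intro κ hκ
    obtain ⟨hκ0, hκ1⟩ := hS κ hκ
    have hsub : X'.filter (fun x => r x = κ) ⊆ X' := filter_subset _ _
    have hJc : ((X'.filter (fun x => r x = κ)).card : ℝ) ≤ (m : ℝ) + 1 := by
      have := card_le_card hsub
      rw [hX'c] at this
      exact_mod_cast this
    have hWJ : ∀ x ∈ X'.filter (fun x => r x = κ),
        c₂ / 4 * (Real.log N * Real.log (Real.log N)) ≤ W0 κ (sh A₀ x) := fun x hx =>
      hWlow x (hsub hx) κ hκ0 (hκ1.trans (min_le_left _ _))
    apply core_lev hA₀ne (fun x hx => h0 x (hsub hx)) hκ0 (hκ1.trans (min_le_right _ _)) hC.le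
      (fun x hx T e β hP => by
        obtain ⟨hxX, hxr⟩ := mem_filter.1 hx
        have h1 := (hr x hxX).2 T e β
        rw [hxr] at h1
        exact h1 hP)
      (S := Sep) (fun x hx y hy hxy => hdiff x (hsub hx) y (hsub hy) hxy) hSep0
    · intro x hx
      refine le_trans ?_ (hWJ x hx)
      calc 2 * (((X'.filter (fun x => r x = κ)).card : ℝ) ^ 2 * Sep)
          ≤ 2 * (((m : ℝ) + 1) ^ 2 * Sep) := by
            apply mul_le_mul_of_nonneg_left _ (by norm_num)
            apply mul_le_mul_of_nonneg_right _ hSep0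
            exact pow_le_pow_left₀ (Nat.cast_nonneg _) hJc 2
        _ = (2 * ((m : ℝ) + 1) ^ 2 * c) * (Real.log N * Real.log (Real.log N)) := by
            rw [hSep]; ring
        _ ≤ c₂ / 4 * (Real.log N * Real.log (Real.log N)) := by
            apply mul_le_mul_of_nonneg_right _ (by linarith only [hLLL])
            rw [le_div_iff₀ (by (clear * -; positivity))] at hcm
            linarith only [hcm]
    · intro x hx
      refine le_trans ?_ (hWJ x hx)
      rw [div_le_iff₀ hc₂] at hLLc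
      linarith only [hLLc]
  have hsum : (X'.card : ℝ) = ∑ κ ∈ S, ((X'.filter (fun x => r x = κ)).card : ℝ) := by
    exact_mod_cast card_eq_sum_card_fiberwise (f := r) (s := X') (t := S)
      (fun x hx => (hr x (mem_coe.1 hx)).1)
  have hfin : (X'.card : ℝ) ≤ m := by
    rw [hsum]
    exact (sum_le_sum hJ).trans hm
  rw [hX'c] at hfin
  push_cast at hfin
  linarith only [hfin]

end Pool.Agent.Helper88.NZ
end

/- Helper24.TT.H88.NZ.Mix -/
section
set_option autoImplicit false

/-!
MP_120218_co, project TR: the statement about translates (mixed form) from the structure theorem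
for `k` sets.
-/

open Finset

namespace Pool.Agent.Helper88.NZ

open Pool.Agent.Helper26.TR

theorem mix_core {A J : Finset ℤ} (f : ℤ → ℤ) (hA : A.Nonempty) {κ : ℝ} (hκ0 : 0 < κ)
    (F : Finset ℕ) (hF : ∀ q ∈ F, q.Prime) (lam : ℤ → ℕ → ℕ)
    (hlam : ∀ y ∈ J, ∀ q ∈ F, ∀ l ≤ lam y q,
      κ * A.card ≤ ((A.filter (fun a => (q : ℤ) ^ l ∣ a + y)).card : ℝ))
    {C : ℝ} (hC0 : 0 ≤ C)
    (hNZ : ∀ y ∈ J, ∀ mu : ℕ → ℕ, (∀ q ∈ F, mu q ≠ 0 → ∃ b : ℤ, b ≠ 0 ∧ κ * A.card ≤
      ((A.filter (fun a => (q : ℤ) ^ (padicValInt q b + mu q) ∣ (a + f y) - b)).card : ℝ)) →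
      ∑ q ∈ F, (mu q : ℝ) * Real.log q ≤ C * ∑ q ∈ F, (lam y q : ℝ) * Real.log q)
    {S : ℝ} (hS : ∀ x ∈ J ∪ J.image f, ∀ y ∈ J ∪ J.image f, x ≠ y →
      Real.log (x - y).natAbs ≤ S) (hS0 : 0 ≤ S)
    (hW : ∀ y ∈ J, 2 * ((2 * (J.card : ℝ)) ^ 2 * S) ≤ ∑ q ∈ F, (lam y q : ℝ) * Real.log q)
    (hW0 : ∀ y ∈ J, 0 < ∑ q ∈ F, (lam y q : ℝ) * Real.log q) :
    (J.card : ℝ) ≤ 1 + 2 * C / κ := by
  classical
  rcases J.eq_empty_or_nonempty with hJ | hJ
  · rw [hJ, card_empty, Nat.cast_zero]
    (clear * - hC0 hκ0; positivity)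
  obtain ⟨y₀, hy₀, hmin⟩ := exists_min_image J (fun x => ∑ q ∈ F, (lam x q : ℝ) * Real.log q) hJ
  set W : ℤ → ℝ := fun x => ∑ q ∈ F, (lam x q : ℝ) * Real.log q with hWdef
  set P : Finset ℤ := J ∪ J.image f with hP
  have hJP : J ⊆ P := subset_union_left
  set x : ℤ := f y₀ with hx0
  have hx : x ∈ P := mem_union_right _ (mem_image_of_mem f hy₀)
  have hEJ : J.erase x ⊆ J := erase_subset _ _
  set mu : ℕ → ℕ := fun q => (J.erase x).sup (fun y => lam y q - sep P q) with hmu
  have hq0 : ∀ q : ℕ, 0 ≤ Real.log q := fun q => Real.log_natCast_nonneg q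
  have hmuW : ∑ q ∈ F, (mu q : ℝ) * Real.log q ≤ C * W y₀ := by
    apply hNZ y₀ hy₀ mu
    intro q hq hne
    have hEne : (J.erase x).Nonempty := by
      rw [nonempty_iff_ne_empty]
      intro h0
      apply hne
      rw [hmu]
      simp only
      rw [h0, sup_empty]
      rfl
    obtain ⟨y, hy, hye⟩ := exists_mem_eq_sup (J.erase x) hEne (fun y => lam y q - sep P q)
    have hyJ := hEJ hy
    have hyx := ne_of_mem_erase hy
    have hmuq : mu q = lam y q - sep P q := hye
    have hlt : sep P q < lam y q := by omega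
    have hle : padicValInt q (x - y) + mu q ≤ lam y q := by
      have := le_sep (q := q) hx (hJP hyJ) (Ne.symm hyx)
      omega
    refine ⟨x - y, sub_ne_zero.2 (Ne.symm hyx), (hlam y hyJ q hq (lam y q) le_rfl).trans ?_⟩
    apply Nat.cast_le.2
    apply card_le_card
    intro a ha
    rw [mem_filter] at ha ⊢
    refine ⟨ha.1, (pow_dvd_pow _ hle).trans ?_⟩
    rw [show a + x - (x - y) = a + y by ring]
    exact ha.2
  have hone : ∀ q ∈ F, κ * ∑ y ∈ J.erase x, ((lam y q - sep P q : ℕ) : ℝ) ≤ mu q := by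
    intro q hq
    have h1 : ∀ y ∈ J.erase x, ((lam y q - sep P q : ℕ) : ℝ) =
        ∑ l ∈ Ioc (sep P q) (sep P q + mu q), if l ≤ lam y q then (1 : ℝ) else 0 := by
      intro y hy
      rw [← sum_filter, sum_const, nsmul_one]
      congr 1
      have h2 : lam y q - sep P q ≤ mu q :=
        le_sup (f := fun y => lam y q - sep P q) hy
      have h3 : (Ioc (sep P q) (sep P q + mu q)).filter (fun l => l ≤ lam y q) =
          Ioc (sep P q) (lam y q) := by
        ext l
        simp only [mem_filter, mem_Ioc]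
        omega
      rw [h3, Nat.card_Ioc]
    rw [sum_congr rfl h1, sum_comm, mul_sum]
    have h4 : ∀ l ∈ Ioc (sep P q) (sep P q + mu q),
        κ * ∑ y ∈ J.erase x, (if l ≤ lam y q then (1 : ℝ) else 0) ≤ 1 := by
      intro l hl
      rw [← sum_filter, sum_const, nsmul_one]
      apply card_pop_le hA (hF q hq) (mem_Ioc.1 hl).1
      · exact (filter_subset _ _).trans (hEJ.trans hJP)
      · intro y hy
        rw [mem_filter] at hy
        exact hlam y (hEJ hy.1) q hq l hy.2
    refine (sum_le_sum h4).trans ?_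
    rw [sum_const, Nat.card_Ioc, nsmul_one]
    apply le_of_eq
    congr 1
    omega
  have hall : κ * ∑ y ∈ J.erase x, ∑ q ∈ F, ((lam y q - sep P q : ℕ) : ℝ) * Real.log q ≤
      C * W y₀ := by
    rw [sum_comm, mul_sum]
    refine le_trans (sum_le_sum fun q hq => ?_) hmuW
    rw [← sum_mul, ← mul_assoc]
    exact mul_le_mul_of_nonneg_right (hone q hq) (hq0 q)
  have hPc : (P.card : ℝ) ≤ 2 * J.card := by
    have h1 : P.card ≤ J.card + J.card :=
      (card_union_le _ _).trans (Nat.add_le_add_left card_image_le _)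
    have h2 : (P.card : ℝ) ≤ J.card + J.card := by exact_mod_cast h1
    (clear * - h2; linarith only [h2])
  have hsep : ∑ q ∈ F, (sep P q : ℝ) * Real.log q ≤ (2 * (J.card : ℝ)) ^ 2 * S := by
    refine (sum_sep_le P F hF hS hS0).trans ?_
    apply mul_le_mul_of_nonneg_right _ hS0
    exact pow_le_pow_left₀ (Nat.cast_nonneg _) hPc 2
  have hlow : ∀ y ∈ J.erase x, W y₀ / 2 ≤
      ∑ q ∈ F, ((lam y q - sep P q : ℕ) : ℝ) * Real.log q := by
    intro y hy
    have hyJ := hEJ hy
    have h1 : W y - ∑ q ∈ F, (sep P q : ℝ) * Real.log q ≤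
        ∑ q ∈ F, ((lam y q - sep P q : ℕ) : ℝ) * Real.log q := by
      rw [hWdef]
      simp only
      rw [← sum_sub_distrib]
      apply sum_le_sum
      intro q _
      rw [← sub_mul]
      apply mul_le_mul_of_nonneg_right _ (hq0 q)
      have h2 : lam y q ≤ (lam y q - sep P q) + sep P q := by omega
      have h3 : (lam y q : ℝ) ≤ ((lam y q - sep P q : ℕ) : ℝ) + sep P q := by exact_mod_cast h2
      linarith only [h3]
    have h4 : W y₀ ≤ W y := hmin y hyJ
    have h5 : 2 * ((2 * (J.card : ℝ)) ^ 2 * S) ≤ W y₀ := hW y₀ hy₀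
    linarith only [hsep, h1, h4, h5]
  have hWx : 0 < W y₀ := hW0 y₀ hy₀
  have h6 : κ * (((J.card : ℝ) - 1) * (W y₀ / 2)) ≤ C * W y₀ := by
    refine le_trans ?_ hall
    apply mul_le_mul_of_nonneg_left _ hκ0.le
    have h7 := sum_le_sum hlow
    rw [sum_const, nsmul_eq_mul] at h7
    refine le_trans ?_ h7
    apply mul_le_mul_of_nonneg_right _ (by (clear * - hWx; positivity))
    have h8 : J.card - 1 ≤ (J.erase x).card := pred_card_le_card_erase
    have h9 : J.card ≤ (J.erase x).card + 1 := by omega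
    have h10 : (J.card : ℝ) ≤ (J.erase x).card + 1 := by exact_mod_cast h9
    linarith only [h10]
  have h7 : (κ * ((J.card : ℝ) - 1)) * (W y₀ / 2) ≤ (2 * C) * (W y₀ / 2) := by
    refine (le_of_eq ?_).trans (h6.trans (le_of_eq ?_)) <;> ring
  have h8 := le_of_mul_le_mul_right h7 (by (clear * - hWx; positivity))
  have h9 : (J.card : ℝ) - 1 ≤ 2 * C / κ := by
    rw [le_div_iff₀ hκ0]
    linarith only [h8]
  linarith only [h9]

/-- the translate of a set, without zero -/
def sz (A : Finset ℤ) (x : ℤ) : Finset ℤ := (sh A x).erase 0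

theorem sz_zero (A : Finset ℤ) (x : ℤ) : (0 : ℤ) ∉ sz A x := notMem_erase _ _

theorem card_sz_le (A : Finset ℤ) (x : ℤ) : (sz A x).card ≤ A.card := by
  rw [← card_sh A x]
  exact card_le_card (erase_subset _ _)

theorem le_card_sz (A : Finset ℤ) (x : ℤ) : A.card ≤ (sz A x).card + 1 := by
  have : (sh A x).card - 1 ≤ (sz A x).card := pred_card_le_card_erase
  rw [card_sh] at this
  omega

/-- a popular class of zero in the translate without zero is popular in the full set -/
theorem pop_full {A : Finset ℤ} {κ : ℝ} (hκ1 : κ ≤ 1) (y : ℤ) (q l : ℕ)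
    (hl : l ≤ lev κ (sz A y) q) :
    κ * A.card ≤ ((A.filter (fun a => (q : ℤ) ^ l ∣ a + y)).card : ℝ) := by
  classical
  have h1 := dvd_lev hκ1 (sz A y) q hl
  have h2 : ((sh A y).filter (fun a => (q : ℤ) ^ l ∣ a)).card =
      (A.filter (fun a => (q : ℤ) ^ l ∣ a + y)).card := card_filter_sh A y _
  by_cases h0 : (0 : ℤ) ∈ sh A y
  · have h3 : ((sz A y).filter (fun a => (q : ℤ) ^ l ∣ a)).card + 1 =
        ((sh A y).filter (fun a => (q : ℤ) ^ l ∣ a)).card := by
      unfold sz
      rw [filter_erase]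
      exact card_erase_add_one (mem_filter.2 ⟨h0, dvd_zero _⟩)
    have h4 : (sz A y).card + 1 = A.card := by
      rw [← card_sh A y]
      exact card_erase_add_one h0
    rw [← h2, ← h3, ← h4]
    push_cast
    (clear * - hκ1 h1; linarith only [hκ1, h1])
  · have h3 : sz A y = sh A y := erase_eq_of_notMem h0
    rw [h3, card_sh, h2] at h1
    exact h1

/-- popular leading digits in the translate without zero -/
theorem pop_sz {A : Finset ℤ} {κ : ℝ} (hκ0 : 0 ≤ κ) (x b : ℤ) (q e : ℕ) (hb : ¬ (q : ℤ) ^ e ∣ b)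
    (h : κ * A.card ≤ ((A.filter (fun a => (q : ℤ) ^ e ∣ (a + x) - b)).card : ℝ)) :
    κ * (sz A x).card ≤ (((sz A x).filter (fun a => (q : ℤ) ^ e ∣ a - b)).card : ℝ) := by
  classical
  have h1 : ((sh A x).filter (fun a => (q : ℤ) ^ e ∣ a - b)).card =
      (A.filter (fun a => (q : ℤ) ^ e ∣ (a + x) - b)).card := card_filter_sh A x _
  have h2 : (sz A x).filter (fun a => (q : ℤ) ^ e ∣ a - b) =
      (sh A x).filter (fun a => (q : ℤ) ^ e ∣ a - b) := by
    unfold sz
    rw [filter_erase]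
    apply erase_eq_of_notMem
    intro h0
    apply hb
    have h3 := (mem_filter.1 h0).2
    rw [zero_sub] at h3
    exact (dvd_neg).1 h3
  rw [h2, h1]
  refine le_trans ?_ h
  apply mul_le_mul_of_nonneg_left _ hκ0
  exact_mod_cast card_sz_le A x

/-- the combinatorial core for pairs of translates, in terms of `W0` and `Pop` -/
theorem mix_lev {A J : Finset ℤ} (f : ℤ → ℤ) (hA : A.Nonempty) {κ : ℝ}
    (hκ0 : 0 < κ) (hκ1 : κ ≤ 1) {C : ℝ} (hC0 : 0 ≤ C)
    (hNZ : ∀ y ∈ J, ∀ (T : Finset ℕ) (e : ℕ → ℕ) (β : ℕ → ℤ), Pop κ (sz A (f y)) T e β →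
      W1 T e β ≤ C * W0 κ (sz A y))
    {S : ℝ} (hS : ∀ x ∈ J ∪ J.image f, ∀ y ∈ J ∪ J.image f, x ≠ y →
      Real.log (x - y).natAbs ≤ S) (hS0 : 0 ≤ S)
    (hW : ∀ y ∈ J, 2 * ((2 * (J.card : ℝ)) ^ 2 * S) ≤ W0 κ (sz A y))
    (hW1 : ∀ y ∈ J, 0 < W0 κ (sz A y)) :
    (J.card : ℝ) ≤ 1 + 2 * C / κ := by
  classical
  set F : Finset ℕ := J.biUnion (fun x => prs (sz A x)) with hFdef
  have hF : ∀ p ∈ F, p.Prime := by
    intro p hp
    rw [hFdef, mem_biUnion] at hp
    obtain ⟨x, _, hx⟩ := hp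
    unfold prs at hx
    rw [mem_biUnion] at hx
    obtain ⟨a, _, ha⟩ := hx
    exact Nat.prime_of_mem_primeFactors ha
  have hWF : ∀ x ∈ J, W0 κ (sz A x) = ∑ q ∈ F, (lev κ (sz A x) q : ℝ) * Real.log q := by
    intro x hx
    exact W0_eq _ (sz_zero A x) F hF (subset_biUnion_of_mem (fun x => prs (sz A x)) hx)
  refine mix_core (A := A) (J := J) f hA hκ0 F hF (fun x q => lev κ (sz A x) q)
    (fun x _ q _ l hl => pop_full hκ1 x q l hl) hC0
    (fun x hx mu hmu => ?_)
    hS hS0 (fun x hx => by rw [← hWF x hx]; exact hW x hx)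
    (fun x hx => by rw [← hWF x hx]; exact hW1 x hx)
  have hmu' : ∀ q : ℕ, ∃ b : ℤ, q ∈ F → mu q ≠ 0 → b ≠ 0 ∧ κ * A.card ≤
      ((A.filter (fun a => (q : ℤ) ^ (padicValInt q b + mu q) ∣ (a + f x) - b)).card : ℝ) := by
    intro q
    by_cases hq : q ∈ F
    · by_cases hm : mu q = 0
      · exact ⟨0, fun _ h => absurd hm h⟩
      · obtain ⟨b, hb⟩ := hmu q hq hm
        exact ⟨b, fun _ _ => hb⟩
    · exact ⟨0, fun h => absurd h hq⟩
  choose b hb using hmu'
  have hndvd : ∀ p ∈ F.filter (fun q => mu q ≠ 0),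
      ¬ ((p : ℤ) ^ (padicValInt p (b p) + mu p) ∣ b p) := by
    intro p hp hdvd
    obtain ⟨hpF, hpm⟩ := mem_filter.1 hp
    have := Fact.mk (hF p hpF)
    rcases (padicValInt_dvd_iff (p := p) _ _).1 hdvd with h | h
    · exact (hb p hpF hpm).1 h
    · omega
  have hpop : Pop κ (sz A (f x)) (F.filter (fun q => mu q ≠ 0))
      (fun q => padicValInt q (b q) + mu q) b := by
    refine ⟨fun p hp => hF p (mem_filter.1 hp).1, hndvd, ?_⟩
    intro p hp
    obtain ⟨hpF, hpm⟩ := mem_filter.1 hp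
    exact pop_sz hκ0.le (f x) (b p) p _ (hndvd p hp) (hb p hpF hpm).2
  have h1 := hNZ x hx _ _ _ hpop
  have h2 : W1 (F.filter (fun q => mu q ≠ 0)) (fun q => padicValInt q (b q) + mu q) b =
      ∑ q ∈ F, (mu q : ℝ) * Real.log q := by
    unfold W1
    rw [sum_filter]
    apply sum_congr rfl
    intro q _
    by_cases hm : mu q = 0
    · simp [hm]
    · rw [if_pos hm, Nat.add_sub_cancel_left]
  rw [h2] at h1
  rw [← hWF x hx]
  exact h1

theorem mixSet_perm {k : ℕ} (A : Fin k → Finset ℤ) (σ : Equiv.Perm (Fin k)) :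
    mixSet (fun i => A (σ i)) = mixSet A := by
  classical
  unfold mixSet
  ext z
  rw [mem_image, mem_image]
  constructor
  · rintro ⟨g, hg, rfl⟩
    rw [Fintype.mem_piFinset] at hg
    refine ⟨fun i => g (σ.symm i), ?_, ?_⟩
    · rw [Fintype.mem_piFinset]
      intro i
      have := hg (σ.symm i)
      rwa [Equiv.apply_symm_apply] at this
    · exact Equiv.prod_comp σ.symm g
  · rintro ⟨g, hg, rfl⟩
    rw [Fintype.mem_piFinset] at hg
    refine ⟨fun i => g (σ i), ?_, ?_⟩
    · rw [Fintype.mem_piFinset]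
      intro i
      exact hg (σ i)
    · exact Equiv.prod_comp σ g

theorem mixSet_mono {k : ℕ} {A B : Fin k → Finset ℤ} (h : ∀ i, A i ⊆ B i) :
    mixSet A ⊆ mixSet B := by
  classical
  unfold mixSet
  exact image_subset_image (Fintype.piFinset_subset _ _ h)

theorem mixSet_nonempty {k : ℕ} {A : Fin k → Finset ℤ} (h : ∀ i, (A i).Nonempty) :
    (mixSet A).Nonempty := by
  classical
  choose a ha using h
  unfold mixSet
  exact ⟨_, mem_image_of_mem _ (Fintype.mem_piFinset.2 ha)⟩

/-- the relation between translates given by the structure theorem -/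
def Rel (A : Finset ℤ) (κ C W : ℝ) (x y : ℤ) : Prop :=
  (∀ (T : Finset ℕ) (e : ℕ → ℕ) (β : ℕ → ℤ), Pop κ (sz A x) T e β →
    W1 T e β ≤ C * W0 κ (sz A y)) ∧ W ≤ W0 κ (sz A y)

open Classical in
/-- the exceptional translates for one relation -/
noncomputable def Exc (A : Finset ℤ) (κ C W X : ℝ) : Finset ℤ :=
  (Icc (-(⌊X⌋)) (⌊X⌋)).filter (fun y => ∃ x : ℤ, |(x : ℝ)| ≤ X ∧ Rel A κ C W x y)

theorem mem_Exc {A : Finset ℤ} {κ C W X : ℝ} {x y : ℤ} (hx : |(x : ℝ)| ≤ X) (hy : |(y : ℝ)| ≤ X)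
    (h : Rel A κ C W x y) : y ∈ Exc A κ C W X := by
  classical
  unfold Exc
  rw [mem_filter, mem_Icc]
  refine ⟨⟨?_, Int.le_floor.2 (abs_le.1 hy).2⟩, x, hx, h⟩
  have h1 : -y ≤ ⌊X⌋ := by
    apply Int.le_floor.2
    push_cast
    linarith [(abs_le.1 hy).1]
  (clear * - h1; linarith only [h1])

theorem card_Exc {A : Finset ℤ} (hA : A.Nonempty) {κ : ℝ} (hκ0 : 0 < κ) (hκ1 : κ ≤ 1) {C : ℝ}
    (hC0 : 0 ≤ C) {W X S : ℝ} (hX : Real.log (2 * X) ≤ S) (hS0 : 0 ≤ S) {m : ℕ}
    (hm : 1 + 2 * C / κ ≤ m) (hW0 : 0 < W) (hW : 2 * ((2 * ((m : ℝ) + 1)) ^ 2 * S) ≤ W) :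
    (Exc A κ C W X).card ≤ m := by
  classical
  by_contra hlt
  push Not at hlt
  obtain ⟨J, hJ, hJc⟩ := exists_subset_card_eq (s := Exc A κ C W X) (n := m + 1) (by omega)
  have hJ' : ∀ y ∈ J, |(y : ℝ)| ≤ X ∧ ∃ x : ℤ, |(x : ℝ)| ≤ X ∧ Rel A κ C W x y := by
    intro y hy
    have h1 := hJ hy
    unfold Exc at h1
    rw [mem_filter, mem_Icc] at h1
    refine ⟨?_, h1.2⟩
    rw [abs_le]
    have h2 : (y : ℝ) ≤ (⌊X⌋ : ℝ) := by exact_mod_cast h1.1.2
    have h3 : (-(⌊X⌋ : ℝ)) ≤ (y : ℝ) := by exact_mod_cast h1.1.1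
    have h4 := Int.floor_le X
    constructor <;> (clear * - h3 h4 h2; linarith only [h3, h4, h2])
  have hf : ∀ y : ℤ, ∃ x : ℤ, y ∈ J → |(x : ℝ)| ≤ X ∧ Rel A κ C W x y := by
    intro y
    by_cases hy : y ∈ J
    · obtain ⟨x, hx⟩ := (hJ' y hy).2
      exact ⟨x, fun _ => hx⟩
    · exact ⟨0, fun h => absurd h hy⟩
  choose f hf using hf
  have hbd : ∀ x ∈ J ∪ J.image f, |(x : ℝ)| ≤ X := by
    intro x hx
    rcases mem_union.1 hx with h | h
    · exact (hJ' x h).1
    · obtain ⟨y, hy, rfl⟩ := mem_image.1 h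
      exact (hf y hy).1
  have hJr : (J.card : ℝ) = m + 1 := by rw [hJc]; push_cast; ring
  have key := mix_lev (A := A) (J := J) f hA hκ0 hκ1 hC0
    (fun y hy => (hf y hy).2.1) (S := S)
    (fun x hx y hy hxy => by
      have h1 : ((x - y).natAbs : ℝ) = |(x : ℝ) - y| := by
        rw [Nat.cast_natAbs]
        push_cast
        rfl
      have h2 : (0 : ℝ) < (x - y).natAbs := by
        exact_mod_cast Int.natAbs_pos.2 (sub_ne_zero.2 hxy)
      refine (Real.log_le_log h2 ?_).trans hX
      rw [h1]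
      have h3 := abs_sub (x : ℝ) (y : ℝ)
      have h4 := hbd x hx
      have h5 := hbd y hy
      (clear * - h3 h4 h5; linarith only [h3, h4, h5])) hS0
    (fun y hy => by
      rw [hJr]
      exact hW.trans (hf y hy).2.2)
    (fun y hy => hW0.trans_le (hf y hy).2.2)
  rw [hJr] at key
  (clear * - hm key; linarith only [hm, key])

/-- **From the structure theorem for `k` sets to the theorem on translates, mixed form.** -/
theorem translatesMix (hNZ : NZMix) : TRMix := by
  classical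
  intro k hk ε hε
  set ε' : ℝ := min ε 1 with hε'
  have hε'0 : 0 < ε' := lt_min hε one_pos
  have hε'1 : ε' ≤ 1 := min_le_right _ _
  have hk1 : (1 : ℝ) ≤ k := by exact_mod_cast hk
  have hk0 : (0 : ℝ) < k := by linarith only [hk1]
  obtain ⟨κ, C, c₁, hκ, hC, hc₁, hnz⟩ := hNZ k ε' hε'0
  -- the number of exceptions
  have hml : ∀ l : Fin k, ∃ m : ℕ, 1 + 2 * (2 * C * k) / κ l ≤ m := fun l => exists_nat_ge _
  choose ml hml using hml
  set m : ℕ := ∑ l, ml l with hm
  have hmlm : ∀ l, (ml l : ℝ) ≤ m := by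
    intro l
    have : ml l ≤ m := single_le_sum (f := ml) (fun _ _ => Nat.zero_le _) (mem_univ l)
    exact_mod_cast this
  set c₀ : ℝ := c₁ / (16 * k * ((m : ℝ) + 1) ^ 2) with hc₀
  have hc₀0 : 0 < c₀ := by (clear * - hc₁ hk; positivity)
  -- the threshold
  set L₀ : ℝ := max 16 (1 / c₁ + 1 / c₀) with hL₀
  set c : ℝ := min (c₁ / 2 ^ k) (min c₀ (Real.exp (-(k * L₀)))) with hc
  have hc0 : 0 < c := by
    rw [hc]
    apply lt_min _ (lt_min _ _) <;> (clear * - hc₁ hk; positivity)
  have hcc₁ : c ≤ c₁ / 2 ^ k := min_le_left _ _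
  have hcc₀ : c ≤ c₀ := (min_le_right _ _).trans (min_le_left _ _)
  have hce : c ≤ Real.exp (-(k * L₀)) := (min_le_right _ _).trans (min_le_right _ _)
  clear_value c
  refine ⟨m, c, hc0, ?_⟩
  intro A hA
  have hN1 : (1 : ℝ) ≤ A.card := by exact_mod_cast card_pos.2 hA
  have hNpos : (0 : ℝ) < A.card := by linarith only [hN1]
  set N : ℝ := (A.card : ℝ) with hN
  -- small `N`
  by_cases hL0 : Real.log N ≤ L₀
  · refine ⟨∅, by simp, ?_⟩
    intro x _ _
    have h2 : (1 : ℝ) ≤ ((mixSet (fun i => A.image (fun a => a + x i))).card : ℝ) := by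
      exact_mod_cast card_pos.2 (mixSet_nonempty (fun i => hA.image _))
    refine le_trans ?_ h2
    have hL0' : 0 ≤ Real.log N := Real.log_nonneg hN1
    calc c * N ^ ((k : ℝ) - ε) ≤ Real.exp (-(k * L₀)) * N ^ (k : ℝ) := by
          apply mul_le_mul hce _ (by positivity) (Real.exp_pos _).le
          exact Real.rpow_le_rpow_of_exponent_le hN1 (by (clear * - hε; linarith only [hε]))
      _ = Real.exp (k * (Real.log N - L₀)) := by
          rw [Real.rpow_def_of_pos hNpos, ← Real.exp_add]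
          congr 1
          ring
      _ ≤ Real.exp 0 := by
          apply Real.exp_le_exp.2
          have : Real.log N - L₀ ≤ 0 := by linarith only [hL0]
          (clear * - this; nlinarith only [this])
      _ = 1 := Real.exp_zero
  push Not at hL0
  have hL16 : 16 ≤ Real.log N := (le_max_left _ _).trans hL0.le
  have hL2 : 1 / c₁ + 1 / c₀ ≤ Real.log N := (le_max_right _ _).trans hL0.le
  have hNexp : Real.exp 16 ≤ N := by rwa [← Real.le_log_iff_exp_le hNpos]
  obtain ⟨-, hLL1, -⟩ := half_log hNexp (M := N) (by linarith only [hN])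
  have hi1 : 0 < 1 / c₁ := by positivity
  have hi0 : 0 < 1 / c₀ := by (clear * - hc₁ hk; positivity)
  set LL : ℝ := Real.log N * Real.log (Real.log N) with hLL
  have hLLL : Real.log N ≤ LL := by
    rw [hLL]
    (clear * - hLL1 hL16; nlinarith only [hL16, hLL1])
  have hLLc₁ : 1 ≤ c₁ * LL := by
    have h1 : 1 / c₁ ≤ LL := by linarith only [hL2, hi0, hLLL]
    rw [div_le_iff₀ hc₁] at h1
    linarith only [h1]
  have hLLc₀ : 1 ≤ c₀ * LL := by
    have h1 : 1 / c₀ ≤ LL := by linarith only [hL2, hi1, hLLL]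
    rw [div_le_iff₀ hc₀0] at h1
    linarith only [h1]
  have hLL0 : 0 < LL := by linarith only [hL2, hi1, hi0, hLLL]
  have hN16 : 2 ≤ N := by
    have := Real.add_one_le_exp (16 : ℝ)
    linarith only [hNexp, this]
  set X : ℝ := N ^ (c * Real.log (Real.log N)) with hX
  have hXpos : 0 < X := Real.rpow_pos_of_pos hNpos _
  have hlogX : Real.log (2 * X) ≤ 2 * (c₀ * LL) := by
    rw [Real.log_mul (by norm_num) hXpos.ne', hX, Real.log_rpow hNpos]
    have h1 : c * Real.log (Real.log N) * Real.log N = c * LL := by rw [hLL]; ring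
    rw [h1]
    have h2 : c * LL ≤ c₀ * LL := mul_le_mul_of_nonneg_right hcc₀ hLL0.le
    have h3 := Real.log_two_lt_d9
    (clear * - hLLc₀ h2 h3; linarith only [hLLc₀, h2, h3])
  -- the exceptional set
  refine ⟨univ.biUnion (fun l : Fin k => Exc A (κ l) (2 * C * k) (c₁ / k * LL) X), ?_, ?_⟩
  · refine card_biUnion_le.trans ?_
    rw [hm]
    apply sum_le_sum
    intro l _
    refine card_Exc hA (hκ l).1 (hκ l).2 (by positivity) hlogX (by (clear * - hc₁ hk hL16 hLL1; positivity)) (hml l)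
      (by (clear * - hc₁ hk hL16 hLL1; positivity)) ?_
    calc 2 * ((2 * ((ml l : ℝ) + 1)) ^ 2 * (2 * (c₀ * LL)))
        ≤ 2 * ((2 * ((m : ℝ) + 1)) ^ 2 * (2 * (c₀ * LL))) := by
          have := hmlm l
          (clear * - this hc₁ hk hL16 hLL1; gcongr)
      _ = (16 * ((m : ℝ) + 1) ^ 2 * c₀) * LL := by ring
      _ = c₁ / k * LL := by
          congr 1
          rw [hc₀]
          (clear * - hk hc₁; field_simp)
  · intro x hxX hxE
    set E : Finset ℤ := univ.biUnion
      (fun l : Fin k => Exc A (κ l) (2 * C * k) (c₁ / k * LL) X) with hE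
    by_contra hcon
    push Not at hcon
    -- the position in `E` is moved to the end
    obtain ⟨k', hk'⟩ : ∃ k', k = k' + 1 := ⟨k - 1, by omega⟩
    have hlast : k - 1 < k := by omega
    set last : Fin k := ⟨k - 1, hlast⟩ with hlastdef
    obtain ⟨i₀, hi₀⟩ : ∃ i₀ : Fin k, ∀ i, x i ∈ E → i = i₀ := by
      by_cases h : ∃ i, x i ∈ E
      · obtain ⟨i, hi⟩ := h
        refine ⟨i, fun j hj => ?_⟩
        exact card_le_one.1 hxE j (mem_filter.2 ⟨mem_univ _, hj⟩) i
          (mem_filter.2 ⟨mem_univ _, hi⟩)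
      · exact ⟨last, fun i hi => absurd ⟨i, hi⟩ h⟩
    set σ : Equiv.Perm (Fin k) := Equiv.swap i₀ last with hσ
    have hσlast : σ last = i₀ := Equiv.swap_apply_right _ _
    set B : Fin k → Finset ℤ := fun i => sz A (x (σ i)) with hB
    have hBc : ∀ i, N / 2 ≤ ((B i).card : ℝ) := by
      intro i
      have h1 : N ≤ ((B i).card : ℝ) + 1 := by
        rw [hN]
        exact_mod_cast le_card_sz A (x (σ i))
      linarith only [hN16, h1]
    have hBne : ∀ i, (B i).Nonempty := by
      intro i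
      rw [← card_pos]
      have h1 := hBc i
      have h2 : (0 : ℝ) < ((B i).card : ℝ) := by linarith only [hN16, h1]
      exact_mod_cast h2
    have hsub : ((mixSet B).card : ℝ) ≤
        ((mixSet (fun i => A.image (fun a => a + x i))).card : ℝ) := by
      apply Nat.cast_le.2
      apply card_le_card
      rw [← mixSet_perm (fun i => A.image (fun a => a + x i)) σ]
      apply mixSet_mono
      intro i
      exact erase_subset _ _
    have hprod : (N / 2) ^ k ≤ ∏ l, ((B l).card : ℝ) := by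
      have h1 : (N / 2) ^ k = ∏ _l : Fin k, (N / 2) := by
        rw [prod_const, card_univ, Fintype.card_fin]
      rw [h1]
      exact prod_le_prod (fun _ _ => by positivity) fun l _ => hBc l
    have hlt : ((mixSet B).card : ℝ) < c₁ * ((A.card : ℕ) : ℝ) ^ (-ε') *
        ∏ l, ((B l).card : ℝ) := by
      refine (hsub.trans_lt hcon).trans_le ?_
      calc c * N ^ ((k : ℝ) - ε) ≤ c₁ / 2 ^ k * N ^ ((k : ℝ) - ε') := by
            apply mul_le_mul hcc₁ _ (by (clear * - hA hk' hk hk1 hk0 hκ hnz hml hm hmlm hc₀ hc₀0 hL₀ hL0 hL2 hi0 hLLc₀ hlastdef hσ hσlast hB hBc hBne hsub hprod hc hc0 hcc₁ hcc₀ hce hX hXpos hlogX hxX hxE hE hcon hi₀; positivity)) (by positivity)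
            apply Real.rpow_le_rpow_of_exponent_le hN1
            have : ε' ≤ ε := min_le_left _ _
            linarith only [this]
        _ = c₁ * N ^ (-ε') * (N / 2) ^ k := by
            rw [show (k : ℝ) - ε' = -ε' + k by ring, Real.rpow_add hNpos, Real.rpow_natCast,
              div_pow]
            ring
        _ ≤ c₁ * N ^ (-ε') * ∏ l, ((B l).card : ℝ) := by
            apply mul_le_mul_of_nonneg_left hprod (by positivity)
    obtain ⟨l, hl0, hl1, hl2⟩ := hnz A.card B hBne (fun i => sz_zero A _)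
      (fun i => card_sz_le A _) hlt
    have hWb : 0 < W0b (κ l) B l := by
      have : 0 < c₁ * LL := by (clear * - hc₁ hL16 hLL1; positivity)
      exact this.trans_le hl2
    have hWb1 : 1 ≤ W0b (κ l) B l := hLLc₁.trans hl2
    -- the largest of the weights
    obtain ⟨l', hl', hmax⟩ : ∃ l' : Fin k, l' < l ∧ W0b (κ l) B l ≤ k * W0 (κ l) (B l') := by
      by_contra hno
      push Not at hno
      have h1 : W0b (κ l) B l ≤ ∑ l' ∈ univ.filter (fun l' : Fin k => l' < l),
          W0b (κ l) B l / k := by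
        conv_lhs => unfold W0b
        apply sum_le_sum
        intro l' hl'
        rw [le_div_iff₀ hk0, mul_comm]
        exact (hno l' (mem_filter.1 hl').2).le
      rw [sum_const, nsmul_eq_mul] at h1
      have h2 : (univ.filter (fun l' : Fin k => l' < l)).card < k := by
        have h3 : univ.filter (fun l' : Fin k => l' < l) ⊂ univ := by
          rw [filter_ssubset]
          exact ⟨l, mem_univ _, lt_irrefl _⟩
        have h4 := card_lt_card h3
        rwa [card_univ, Fintype.card_fin] at h4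
      have h3 : ((univ.filter (fun l' : Fin k => l' < l)).card : ℝ) < k := by exact_mod_cast h2
      have h4 : ((univ.filter (fun l' : Fin k => l' < l)).card : ℝ) * (W0b (κ l) B l / k) <
          k * (W0b (κ l) B l / k) := mul_lt_mul_of_pos_right h3 (by (clear * - hWb hk; positivity))
      have h5 : (k : ℝ) * (W0b (κ l) B l / k) = W0b (κ l) B l := by (clear * - hk hWb; field_simp)
      linarith only [h1, h4, h5]
    have hrel : Rel A (κ l) (2 * C * k) (c₁ / k * LL) (x (σ l)) (x (σ l')) := by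
      constructor
      · intro T e β hP
        refine (hl1 T e β hP).trans ?_
        calc C * (W0b (κ l) B l + 1) ≤ C * (2 * W0b (κ l) B l) := by
              apply mul_le_mul_of_nonneg_left _ hC.le
              linarith only [hWb1]
          _ ≤ C * (2 * (k * W0 (κ l) (B l'))) := by
              apply mul_le_mul_of_nonneg_left _ hC.le
              linarith only [hmax]
          _ = 2 * C * k * W0 (κ l) (sz A (x (σ l'))) := by rw [hB]; ring
      · have h1 : c₁ * LL ≤ k * W0 (κ l) (B l') := hl2.trans hmax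
        rw [div_mul_eq_mul_div, div_le_iff₀ hk0, mul_comm _ (k : ℝ)]
        exact h1
    have hyE : x (σ l') ∈ E := by
      rw [hE, mem_biUnion]
      exact ⟨l, mem_univ _, mem_Exc (hxX _) (hxX _) hrel⟩
    have h1 := hi₀ _ hyE
    rw [← hσlast] at h1
    have h2 := σ.injective h1
    have h3 : l'.val < l.val := hl'
    have h4 := l.isLt
    rw [h2] at h3
    simp only [hlastdef] at h3
    omega

end Pool.Agent.Helper88.NZ
end

/- Helper24.TT.H88.NZ.PolyA -/
section
set_option autoImplicit false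

/-!
MP_120218_co, project TR: integer polynomials at integer points modulo prime powers.
-/

open Finset Polynomial

namespace Pool.Agent.Helper88.NZ

theorem dvd_of_pow_dvd_mul {q : ℕ} (hq : q.Prime) {s c : ℕ} {x u : ℤ}
    (hx : ¬ (q : ℤ) ^ (s + 1) ∣ x) (h : (q : ℤ) ^ c ∣ x * u) : (q : ℤ) ^ (c - s) ∣ u := by
  have hqf := Fact.mk hq
  have hx0 : x ≠ 0 := fun h0 => hx (h0 ▸ dvd_zero _)
  by_cases hu0 : u = 0
  · rw [hu0]; exact dvd_zero _
  rw [padicValInt_dvd_iff] at h hx ⊢
  right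
  rcases h with h | h
  · exact absurd h (mul_ne_zero hx0 hu0)
  · rw [padicValInt.mul hx0 hu0] at h
    have h1 : ¬ (s + 1 ≤ padicValInt q x) := fun h1 => hx (Or.inr h1)
    omega

/-- Newton interpolation: a polynomial of degree at most `d` whose values at `d + 1` integers,
pairwise incongruent modulo `q ^ (s + 1)`, are divisible by `q ^ l`, is divisible by
`q ^ (l - d * s)`. -/
theorem newton {q : ℕ} (hq : q.Prime) (s : ℕ) : ∀ (d : ℕ) (G : ℤ[X]) (l : ℕ) (S : Finset ℤ),
    G.natDegree ≤ d → S.card = d + 1 → (∀ a ∈ S, (q : ℤ) ^ l ∣ G.eval a) →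
    (∀ a ∈ S, ∀ b ∈ S, a ≠ b → ¬ (q : ℤ) ^ (s + 1) ∣ a - b) →
    C ((q : ℤ) ^ (l - d * s)) ∣ G := by
  intro d
  induction d with
  | zero =>
    intro G l S hG hS hdvd _
    obtain ⟨a, ha⟩ := card_pos.1 (by omega : 0 < S.card)
    rw [eq_C_of_natDegree_le_zero hG]
    rw [zero_mul, Nat.sub_zero]
    have h := hdvd a ha
    rw [eq_C_of_natDegree_le_zero hG, eval_C] at h
    exact _root_.map_dvd C h
  | succ d ih =>
    intro G l S hG hS hdvd hsep
    obtain ⟨a, ha⟩ := card_pos.1 (by omega : 0 < S.card)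
    obtain ⟨G₁, hG₁⟩ := X_sub_C_dvd_sub_C_eval (a := a) (p := G)
    have hdeg : G₁.natDegree ≤ d := by
      by_cases h0 : G₁ = 0
      · rw [h0]; simp
      · have h1 : ((X - C a) * G₁).natDegree = 1 + G₁.natDegree := by
          rw [(monic_X_sub_C a).natDegree_mul' h0, natDegree_X_sub_C]
        have h2 : (G - C (G.eval a)).natDegree ≤ d + 1 := by
          rw [natDegree_sub_C]; exact hG
        rw [hG₁, h1] at h2
        omega
    have h3 : C ((q : ℤ) ^ ((l - s) - d * s)) ∣ G₁ := by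
      apply ih G₁ (l - s) (S.erase a) hdeg
      · rw [card_erase_of_mem ha]; omega
      · intro b hb
        have hbS := mem_of_mem_erase hb
        have hba := ne_of_mem_erase hb
        have h4 : G.eval b - G.eval a = (b - a) * G₁.eval b := by
          have := congrArg (eval b) hG₁
          simpa using this
        apply dvd_of_pow_dvd_mul hq (hsep b hbS a ha hba)
        rw [← h4]
        exact dvd_sub (hdvd b hbS) (hdvd a ha)
      · intro b hb c hc hbc
        exact hsep b (mem_of_mem_erase hb) c (mem_of_mem_erase hc) hbc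
    have h5 : G = C (G.eval a) + (X - C a) * G₁ := by
      rw [← hG₁]; ring
    have h6 : (l - s) - d * s = l - (d + 1) * s := by
      rw [Nat.sub_sub]
      congr 1
      ring
    rw [h6] at h3
    rw [h5]
    apply dvd_add
    · apply _root_.map_dvd C
      exact (pow_dvd_pow _ (Nat.sub_le _ _)).trans (hdvd a ha)
    · exact h3.mul_left _

/-- the points where a primitive polynomial is divisible by `q ^ l` lie in few classes -/
theorem card_classes {G : ℤ[X]} (hG : G.IsPrimitive) {d : ℕ} (hd : G.natDegree ≤ d) {q : ℕ}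
    (hq : q.Prime) {l t : ℕ} (ht : d * (t - 1) < l) (T : Finset ℤ)
    (hT : ∀ a ∈ T, (q : ℤ) ^ l ∣ G.eval a) :
    (T.image (fun a => a % (q : ℤ) ^ t)).card ≤ d := by
  classical
  by_contra hlt
  push Not at hlt
  obtain ⟨R, hR, hRc⟩ := exists_subset_card_eq (s := T.image (fun a => a % (q : ℤ) ^ t))
    (n := d + 1) (by omega)
  have hch : ∀ r : ℤ, ∃ a : ℤ, r ∈ R → a ∈ T ∧ a % (q : ℤ) ^ t = r := by
    intro r
    by_cases hr : r ∈ R
    · obtain ⟨a, ha, har⟩ := mem_image.1 (hR hr)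
      exact ⟨a, fun _ => ⟨ha, har⟩⟩
    · exact ⟨0, fun h => absurd h hr⟩
  choose f hf using hch
  have hinj : Set.InjOn f R := by
    intro r hr r' hr' h
    rw [← (hf r (mem_coe.1 hr)).2, ← (hf r' (mem_coe.1 hr')).2, h]
  have h1 := newton hq (t - 1) d G l (R.image f) hd
    (by rw [card_image_of_injOn hinj, hRc])
    (by
      intro a ha
      obtain ⟨r, hr, rfl⟩ := mem_image.1 ha
      exact hT _ (hf r hr).1)
    (by
      intro a ha b hb hab hdvd
      obtain ⟨r, hr, rfl⟩ := mem_image.1 ha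
      obtain ⟨r', hr', rfl⟩ := mem_image.1 hb
      apply hab
      have h2 : (q : ℤ) ^ t ∣ f r - f r' := (pow_dvd_pow _ (by omega)).trans hdvd
      have h3 : f r % (q : ℤ) ^ t = f r' % (q : ℤ) ^ t :=
        (Int.emod_emod_of_dvd _ dvd_rfl).symm.trans (by
          rw [Int.emod_emod_of_dvd _ dvd_rfl]
          exact Int.emod_eq_emod_iff_emod_sub_eq_zero.2 (Int.emod_eq_zero_of_dvd h2))
      rw [(hf r hr).2, (hf r' hr').2] at h3
      rw [h3])
  have h2 : C ((q : ℤ) ^ 1) ∣ G := (_root_.map_dvd C (pow_dvd_pow _ (by omega))).trans h1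
  rw [pow_one] at h2
  have h3 := hG (q : ℤ) h2
  rw [Int.isUnit_iff] at h3
  have h4 := hq.two_le
  rcases h3 with h3 | h3 <;> omega

/-- one of the classes is popular -/
theorem exists_class {G : ℤ[X]} (hG : G.IsPrimitive) {d : ℕ} (hd : G.natDegree ≤ d) {q : ℕ}
    (hq : q.Prime) {l t : ℕ} (ht : d * (t - 1) < l) {T : Finset ℤ} (hTne : T.Nonempty)
    (hT : ∀ a ∈ T, (q : ℤ) ^ l ∣ G.eval a) :
    ∃ r ∈ T, T.card ≤ d * (T.filter (fun a => (q : ℤ) ^ t ∣ a - r)).card := by
  classical
  by_contra hcon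
  push Not at hcon
  have h1 := card_classes hG hd hq ht T hT
  have h2 := card_eq_sum_card_image (fun a => a % (q : ℤ) ^ t) T
  obtain ⟨x, hx⟩ := hTne
  have hd0 : 0 < d := by
    have : 0 < (T.image (fun a => a % (q : ℤ) ^ t)).card := card_pos.2 ⟨_, mem_image_of_mem _ hx⟩
    omega
  have h3 : ∀ c ∈ T.image (fun a => a % (q : ℤ) ^ t),
      d * (T.filter (fun a => a % (q : ℤ) ^ t = c)).card < T.card := by
    intro c hc
    obtain ⟨r, hr, rfl⟩ := mem_image.1 hc
    have h4 := hcon r hr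
    have h5 : T.filter (fun a => a % (q : ℤ) ^ t = r % (q : ℤ) ^ t) =
        T.filter (fun a => (q : ℤ) ^ t ∣ a - r) := by
      ext a
      rw [mem_filter, mem_filter, Int.emod_eq_emod_iff_emod_sub_eq_zero]
      constructor
      · rintro ⟨h6, h7⟩; exact ⟨h6, Int.dvd_of_emod_eq_zero h7⟩
      · rintro ⟨h6, h7⟩; exact ⟨h6, Int.emod_eq_zero_of_dvd h7⟩
    rw [h5]
    exact h4
  have h4 : d * T.card < d * T.card := by
    calc d * T.card = ∑ c ∈ T.image (fun a => a % (q : ℤ) ^ t),
          d * (T.filter (fun a => a % (q : ℤ) ^ t = c)).card := by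
          rw [← mul_sum, ← h2]
      _ < ∑ _c ∈ T.image (fun a => a % (q : ℤ) ^ t), T.card :=
          sum_lt_sum_of_nonempty ⟨_, mem_image_of_mem _ hx⟩ h3
      _ = (T.image (fun a => a % (q : ℤ) ^ t)).card * T.card := by
          rw [sum_const, smul_eq_mul]
      _ ≤ d * T.card := Nat.mul_le_mul_right _ h1
  exact lt_irrefl _ h4

/-- the number of points with a given value -/
theorem card_fibre_le {F : ℤ[X]} (hF : 1 ≤ F.natDegree) {d : ℕ} (hd : F.natDegree ≤ d)
    (A : Finset ℤ) (b : ℤ) : (A.filter (fun a => F.eval a = b)).card ≤ d := by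
  classical
  have hne : F - C b ≠ 0 := by
    intro h
    have h1 : (F - C b).natDegree = F.natDegree := natDegree_sub_C
    rw [h, natDegree_zero] at h1
    omega
  have h1 : A.filter (fun a => F.eval a = b) ⊆ (F - C b).roots.toFinset := by
    intro a ha
    rw [Multiset.mem_toFinset, mem_roots hne, IsRoot, eval_sub, eval_C, (mem_filter.1 ha).2,
      sub_self]
  calc (A.filter (fun a => F.eval a = b)).card ≤ (F - C b).roots.toFinset.card := card_le_card h1
    _ ≤ Multiset.card (F - C b).roots := Multiset.toFinset_card_le _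
    _ ≤ (F - C b).natDegree := card_roots' _
    _ ≤ d := by rw [natDegree_sub_C]; exact hd

theorem card_le_image {F : ℤ[X]} (hF : 1 ≤ F.natDegree) {d : ℕ} (hd : F.natDegree ≤ d)
    (A : Finset ℤ) : A.card ≤ d * (A.image (fun a => F.eval a)).card := by
  classical
  exact card_le_mul_card_image A d (fun b _ => card_fibre_le hF hd A b)

/-- the resultant of two integer polynomials -/
noncomputable def res (F G : ℤ[X]) : ℤ := resultant F G

theorem exists_res {F G : ℤ[X]} (hF : 1 ≤ F.natDegree) :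
    ∃ U V : ℤ[X], ∀ a : ℤ, res F G = F.eval a * U.eval a + G.eval a * V.eval a := by
  obtain ⟨U, V, -, -, h⟩ := exists_mul_add_mul_eq_C_resultant (m := F.natDegree)
    (n := G.natDegree) F G le_rfl le_rfl (by omega)
  refine ⟨U, V, fun a => ?_⟩
  have h1 := congrArg (eval a) h
  rw [eval_add, eval_mul, eval_mul, eval_C] at h1
  exact h1.symm

theorem dvd_res {F G : ℤ[X]} (hF : 1 ≤ F.natDegree) {n a : ℤ} (h1 : n ∣ F.eval a)
    (h2 : n ∣ G.eval a) : n ∣ res F G := by
  obtain ⟨U, V, h⟩ := exists_res (F := F) (G := G) hF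
  rw [h a]
  exact dvd_add (h1.mul_right _) (h2.mul_right _)

theorem res_ne_zero {F G : ℤ[X]} (hF : Irreducible F) (hG : Irreducible G)
    (hFd : 1 ≤ F.natDegree) (hGd : 1 ≤ G.natDegree) (hFG : ¬ Associated F G) : res F G ≠ 0 := by
  intro h0
  have hFp : F.IsPrimitive := hF.isPrimitive (by omega)
  have hGp : G.IsPrimitive := hG.isPrimitive (by omega)
  have hF' : Irreducible (F.map (Int.castRingHom ℚ)) :=
    (IsPrimitive.Int.irreducible_iff_irreducible_map_cast hFp).1 hF
  have hG' : Irreducible (G.map (Int.castRingHom ℚ)) :=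
    (IsPrimitive.Int.irreducible_iff_irreducible_map_cast hGp).1 hG
  have hinj : Function.Injective (Int.castRingHom ℚ) := by
    intro a b h
    simpa using h
  have h1 : resultant (F.map (Int.castRingHom ℚ)) (G.map (Int.castRingHom ℚ)) = 0 := by
    rw [natDegree_map_eq_of_injective hinj, natDegree_map_eq_of_injective hinj,
      resultant_map_map]
    unfold res at h0
    rw [h0, map_zero]
  rw [resultant_eq_zero_iff] at h1
  apply h1.2
  rw [hF'.coprime_iff_not_dvd]
  intro hdvd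
  have h2 : F ∣ G := (IsPrimitive.Int.dvd_iff_map_cast_dvd_map_cast F G hFp).2 hdvd
  exact hFG (hF.associated_of_dvd hG h2)

theorem res_le {F G : ℤ[X]} {d : ℕ} (hFd : F.natDegree ≤ d) (hGd : G.natDegree ≤ d) {H : ℤ}
    (hH : 1 ≤ H) (hF : ∀ j, |F.coeff j| ≤ H) (hG : ∀ j, |G.coeff j| ≤ H) :
    |res F G| ≤ (2 * d).factorial * H ^ (2 * d) := by
  have h1 : |res F G| ≤ (F.natDegree + G.natDegree).factorial •
      H ^ (F.natDegree + G.natDegree) := by
    have h2 := Matrix.det_le (A := sylvester F G F.natDegree G.natDegree)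
      (abv := AbsoluteValue.abs) (x := H) (by
        intro i j
        rw [sylvester, Matrix.of_apply]
        simp only [AbsoluteValue.abs_apply]
        refine Fin.addCases (fun j₁ => ?_) (fun j₁ => ?_) j
        · rw [Fin.addCases_left]
          split_ifs
          · exact hG _
          · rw [abs_zero]; (clear * - hH; linarith only [hH])
        · rw [Fin.addCases_right]
          split_ifs
          · exact hF _
          · rw [abs_zero]; linarith only [hH])
    rw [Fintype.card_fin] at h2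
    exact h2
  refine h1.trans ?_
  rw [nsmul_eq_mul]
  have h3 : F.natDegree + G.natDegree ≤ 2 * d := by omega
  apply mul_le_mul _ (pow_le_pow_right₀ hH h3) (by positivity) (by positivity)
  exact_mod_cast Nat.factorial_le h3

end Pool.Agent.Helper88.NZ
end

/- Helper24.TT.H88.NZ.PolyB -/
section
set_option autoImplicit false

/-!
MP_120218_co, project TR: popular valuations of the values of several polynomials on one set.
-/

open Finset Polynomial

namespace Pool.Agent.Helper88.NZ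

open Pool.Agent.Helper26.TR

/-- the non-zero values of a polynomial on a set -/
noncomputable def fz (A : Finset ℤ) (F : ℤ[X]) : Finset ℤ :=
  (A.image (fun a => F.eval a)).erase 0

theorem fz_zero (A : Finset ℤ) (F : ℤ[X]) : (0 : ℤ) ∉ fz A F := notMem_erase _ _

theorem card_fz_le (A : Finset ℤ) (F : ℤ[X]) : (fz A F).card ≤ A.card :=
  (card_le_card (erase_subset _ _)).trans card_image_le

/-- irreducible polynomials of degree between `1` and `d`, with coefficients at most `H` -/
def Good (d : ℕ) (H : ℤ) (F : ℤ[X]) : Prop :=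
  Irreducible F ∧ 1 ≤ F.natDegree ∧ F.natDegree ≤ d ∧ ∀ j, |F.coeff j| ≤ H

theorem card_fz {A : Finset ℤ} {F : ℤ[X]} (hF : 1 ≤ F.natDegree) {d : ℕ} (hd : F.natDegree ≤ d)
    (hA : 2 * d ≤ A.card) : A.card ≤ 2 * d * (fz A F).card := by
  classical
  have h1 := card_le_image hF hd A
  have h2 : (A.image (fun a => F.eval a)).card ≤ (fz A F).card + 1 := by
    have : (A.image (fun a => F.eval a)).card - 1 ≤ (fz A F).card := pred_card_le_card_erase
    omega
  have h3 : d * (A.image (fun a => F.eval a)).card ≤ d * ((fz A F).card + 1) :=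
    Nat.mul_le_mul_left _ h2
  have h4 : A.card ≤ d * (fz A F).card + d := by
    have : d * ((fz A F).card + 1) = d * (fz A F).card + d := by ring
    omega
  have h5 : 2 * d * (fz A F).card = 2 * (d * (fz A F).card) := by ring
  omega

/-- popular divisibility of the values, in terms of the points -/
theorem pop_points {A : Finset ℤ} {G : ℤ[X]} (hG : 1 ≤ G.natDegree) {d : ℕ}
    (hd : G.natDegree ≤ d) (hA : 2 * d ≤ A.card) {κ : ℝ} (hκ0 : 0 ≤ κ) (hκ1 : κ ≤ 1) {q l : ℕ}
    (hl : l ≤ lev κ (fz A G) q) :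
    κ * A.card ≤ 2 * d * ((A.filter (fun a => (q : ℤ) ^ l ∣ G.eval a)).card : ℝ) := by
  classical
  have h1 := dvd_lev hκ1 (fz A G) q hl
  have h2 : ((fz A G).filter (fun a => (q : ℤ) ^ l ∣ a)).card ≤
      (A.filter (fun a => (q : ℤ) ^ l ∣ G.eval a)).card := by
    have h3 : (fz A G).filter (fun a => (q : ℤ) ^ l ∣ a) ⊆
        (A.filter (fun a => (q : ℤ) ^ l ∣ G.eval a)).image (fun a => G.eval a) := by
      intro b hb
      rw [mem_filter] at hb
      unfold fz at hb
      obtain ⟨a, ha, rfl⟩ := mem_image.1 (mem_of_mem_erase hb.1)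
      exact mem_image_of_mem _ (mem_filter.2 ⟨ha, hb.2⟩)
    exact (card_le_card h3).trans card_image_le
  have h4 : (A.card : ℝ) ≤ 2 * d * (fz A G).card := by exact_mod_cast card_fz hG hd hA
  calc κ * A.card ≤ κ * (2 * d * (fz A G).card) := mul_le_mul_of_nonneg_left h4 hκ0
    _ = 2 * d * (κ * (fz A G).card) := by ring
    _ ≤ 2 * d * (((fz A G).filter (fun a => (q : ℤ) ^ l ∣ a)).card : ℝ) :=
        mul_le_mul_of_nonneg_left h1 (by (clear * -; positivity))
    _ ≤ 2 * d * ((A.filter (fun a => (q : ℤ) ^ l ∣ G.eval a)).card : ℝ) := by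
        apply mul_le_mul_of_nonneg_left _ (by (clear * -; positivity))
        exact_mod_cast h2

/-- the largest power of `q` in the resultants, summed over the pairs -/
noncomputable def rsep (P : Finset ℤ[X]) (q : ℕ) : ℕ :=
  ∑ z ∈ P.offDiag, padicValInt q (res z.1 z.2)

theorem le_rsep {P : Finset ℤ[X]} {F G : ℤ[X]} (hF : F ∈ P) (hG : G ∈ P) (hFG : F ≠ G) (q : ℕ) :
    padicValInt q (res F G) ≤ rsep P q := by
  have h : (F, G) ∈ P.offDiag := mem_offDiag.2 ⟨hF, hG, hFG⟩
  have h1 := single_le_sum (s := P.offDiag)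
    (f := fun z : ℤ[X] × ℤ[X] => padicValInt q (res z.1 z.2)) (fun _ _ => Nat.zero_le _) h
  unfold rsep
  exact h1

theorem sum_rsep_le (P : Finset ℤ[X]) (F : Finset ℕ) (hF : ∀ q ∈ F, q.Prime) {S : ℝ}
    (hne : ∀ z ∈ P.offDiag, res z.1 z.2 ≠ 0)
    (hS : ∀ z ∈ P.offDiag, Real.log (res z.1 z.2).natAbs ≤ S) (hS0 : 0 ≤ S) :
    ∑ q ∈ F, (rsep P q : ℝ) * Real.log q ≤ (P.card : ℝ) ^ 2 * S := by
  classical
  have h1 : ∀ q ∈ F, (rsep P q : ℝ) * Real.log q =
      ∑ z ∈ P.offDiag, (padicValInt q (res z.1 z.2) : ℝ) * Real.log q := by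
    intro q _
    rw [← sum_mul]
    unfold rsep
    push_cast
    rfl
  calc ∑ q ∈ F, (rsep P q : ℝ) * Real.log q
      = ∑ q ∈ F, ∑ z ∈ P.offDiag, (padicValInt q (res z.1 z.2) : ℝ) * Real.log q :=
        sum_congr rfl h1
    _ = ∑ z ∈ P.offDiag, ∑ q ∈ F, (padicValInt q (res z.1 z.2) : ℝ) * Real.log q := sum_comm
    _ ≤ ∑ _z ∈ P.offDiag, S := by
        apply sum_le_sum
        intro z hz
        exact (sum_val_le F hF (hne z hz)).trans (hS z hz)
    _ = (P.offDiag.card : ℝ) * S := by rw [sum_const, nsmul_eq_mul]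
    _ ≤ (P.card : ℝ) ^ 2 * S := by
        apply mul_le_mul_of_nonneg_right _ hS0
        have : P.offDiag.card ≤ P.card * P.card := by
          rw [offDiag_card]
          exact Nat.sub_le _ _
        rw [sq]
        exact_mod_cast this

/-- the elements where different polynomials are divisible by a high power are different -/
theorem card_pop_poly {A : Finset ℤ} (hA : A.Nonempty) {κ : ℝ} {d q l : ℕ}
    (Y : Finset ℤ[X]) (hdeg : ∀ G ∈ Y, 1 ≤ G.natDegree)
    (hres : ∀ G ∈ Y, ∀ G' ∈ Y, G ≠ G' → ¬ (q : ℤ) ^ l ∣ res G G')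
    (hpop : ∀ G ∈ Y, κ * A.card ≤
      2 * d * ((A.filter (fun a => (q : ℤ) ^ l ∣ G.eval a)).card : ℝ)) :
    κ * Y.card ≤ 2 * d := by
  classical
  have hAp : (0 : ℝ) < A.card := by exact_mod_cast card_pos.2 hA
  have hdis : (Y : Set ℤ[X]).PairwiseDisjoint
      (fun G => A.filter (fun a => (q : ℤ) ^ l ∣ G.eval a)) := by
    intro G hG G' hG' hne
    rw [Function.onFun, disjoint_left]
    intro a ha ha'
    rw [mem_filter] at ha ha'
    exact hres G hG G' hG' hne (dvd_res (hdeg G hG) ha.2 ha'.2)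
  have h1 : ∑ G ∈ Y, (A.filter (fun a => (q : ℤ) ^ l ∣ G.eval a)).card ≤ A.card := by
    rw [← card_biUnion (fun x hx y hy hxy => hdis hx hy hxy)]
    apply card_le_card
    intro a ha
    obtain ⟨y, _, hy⟩ := mem_biUnion.1 ha
    exact (mem_filter.1 hy).1
  have h2 : ∑ _G ∈ Y, κ * (A.card : ℝ) ≤ 2 * d * A.card := by
    refine (sum_le_sum hpop).trans ?_
    rw [← mul_sum]
    apply mul_le_mul_of_nonneg_left _ (by (clear * -; positivity))
    exact_mod_cast h1
  rw [sum_const, nsmul_eq_mul] at h2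
  have h3 : (κ * Y.card) * A.card ≤ (2 * d) * A.card := by linarith only [h2]
  exact le_of_mul_le_mul_right h3 hAp

/-- popular leading digits of the values of `F` from a popular class of points -/
theorem pop_values {A : Finset ℤ} {F : ℤ[X]} (hF : 1 ≤ F.natDegree) {d : ℕ}
    (hd : F.natDegree ≤ d) {q t : ℕ} {r : ℤ} (hr : ¬ (q : ℤ) ^ t ∣ F.eval r) (T : Finset ℤ)
    (hT : T ⊆ A) (hTr : ∀ a ∈ T, (q : ℤ) ^ t ∣ a - r) :
    T.card ≤ d * ((fz A F).filter (fun b => (q : ℤ) ^ t ∣ b - F.eval r)).card := by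
  classical
  have h1 := card_le_image hF hd T
  refine h1.trans (Nat.mul_le_mul_left _ (card_le_card ?_))
  intro b hb
  obtain ⟨a, ha, rfl⟩ := mem_image.1 hb
  have h2 : (q : ℤ) ^ t ∣ F.eval a - F.eval r := (hTr a ha).trans (sub_dvd_eval_sub a r F)
  rw [mem_filter]
  refine ⟨?_, h2⟩
  unfold fz
  rw [mem_erase]
  refine ⟨?_, mem_image_of_mem _ (hT ha)⟩
  intro h0
  apply hr
  rw [h0, zero_sub] at h2
  exact (dvd_neg).1 h2

/-- **One-set inequality.** -/
theorem one_set {A : Finset ℤ} {d : ℕ} (hd : 1 ≤ d) (hA : 2 * d ≤ A.card) {κ : ℝ} (hκ0 : 0 < κ)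
    (hκ1 : κ ≤ 1) (J : Finset ℤ[X]) (F : ℤ[X]) {H : ℤ} (hH : 1 ≤ H)
    (hJ : ∀ G ∈ J, Good d H G) (hF : Good d H F)
    (hJJ : ∀ G ∈ J, ∀ G' ∈ J, G ≠ G' → ¬ Associated G G') (hFJ : ∀ G ∈ J, ¬ Associated F G)
    {V : ℝ} (hpop : ∀ (T : Finset ℕ) (e : ℕ → ℕ) (β : ℕ → ℤ),
      Pop (1 / (2 * (d : ℝ) ^ 3) * κ) (fz A F) T e β → W1 T e β ≤ V) :
    ∑ G ∈ J, W0 κ (fz A G) ≤ 2 * (d : ℝ) ^ 2 / κ * V + d * J.card *
      (((J.card : ℝ) + 1) ^ 2 * Real.log (((2 * d).factorial : ℝ) * (H : ℝ) ^ (2 * d))) := by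
  classical
  have hdr : (1 : ℝ) ≤ d := by exact_mod_cast hd
  have hdr0 : (0 : ℝ) < d := by (clear * - hdr; linarith only [hdr])
  have hAne : A.Nonempty := card_pos.1 (by omega)
  set P : Finset ℤ[X] := insert F J with hP
  have hPgood : ∀ G ∈ P, Good d H G := by
    intro G hG
    rcases mem_insert.1 hG with h | h
    · rw [h]; exact hF
    · exact hJ G h
  have hPass : ∀ G ∈ P, ∀ G' ∈ P, G ≠ G' → ¬ Associated G G' := by
    intro G hG G' hG' hne
    rcases mem_insert.1 hG with h | h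
    · rcases mem_insert.1 hG' with h' | h'
      · exact absurd (h.trans h'.symm) hne
      · rw [h]; exact hFJ G' h'
    · rcases mem_insert.1 hG' with h' | h'
      · rw [h']; exact fun h2 => hFJ G h h2.symm
      · exact hJJ G h G' h' hne
  have hres : ∀ z ∈ P.offDiag, res z.1 z.2 ≠ 0 := by
    intro z hz
    rw [mem_offDiag] at hz
    obtain ⟨h1, h2, h3⟩ := hz
    exact res_ne_zero (hPgood _ h1).1 (hPgood _ h2).1 (hPgood _ h1).2.1 (hPgood _ h2).2.1
      (hPass _ h1 _ h2 h3)
  set Λ : ℝ := Real.log (((2 * d).factorial : ℝ) * (H : ℝ) ^ (2 * d)) with hΛ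
  have hHr : (1 : ℝ) ≤ H := by exact_mod_cast hH
  have hfac : (1 : ℝ) ≤ ((2 * d).factorial : ℝ) := by
    exact_mod_cast Nat.one_le_iff_ne_zero.2 (Nat.factorial_ne_zero _)
  have hΛ0 : 0 ≤ Λ := by
    apply Real.log_nonneg
    calc (1 : ℝ) = 1 * 1 := by norm_num
      _ ≤ _ := mul_le_mul hfac (one_le_pow₀ hHr) (by norm_num) (by positivity)
  have hlogres : ∀ z ∈ P.offDiag, Real.log (res z.1 z.2).natAbs ≤ Λ := by
    intro z hz
    have hne := hres z hz
    rw [mem_offDiag] at hz
    have h1 := res_le (hPgood _ hz.1).2.2.1 (hPgood _ hz.2.1).2.2.1 hH (hPgood _ hz.1).2.2.2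
      (hPgood _ hz.2.1).2.2.2
    have h2 : ((res z.1 z.2).natAbs : ℝ) ≤ ((2 * d).factorial : ℝ) * (H : ℝ) ^ (2 * d) := by
      rw [Nat.cast_natAbs]
      exact_mod_cast h1
    apply Real.log_le_log _ h2
    exact_mod_cast Int.natAbs_pos.2 hne
  set FF : Finset ℕ := J.biUnion (fun G => prs (fz A G)) with hFF
  have hFFp : ∀ p ∈ FF, p.Prime := by
    intro p hp
    rw [hFF, mem_biUnion] at hp
    obtain ⟨x, _, hx⟩ := hp
    unfold prs at hx
    rw [mem_biUnion] at hx
    obtain ⟨a, _, ha⟩ := hx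
    exact Nat.prime_of_mem_primeFactors ha
  have hWF : ∀ G ∈ J, W0 κ (fz A G) = ∑ q ∈ FF, (lev κ (fz A G) q : ℝ) * Real.log q := by
    intro G hG
    exact W0_eq _ (fz_zero A G) FF hFFp (subset_biUnion_of_mem (fun G => prs (fz A G)) hG)
  have hq0 : ∀ q : ℕ, 0 ≤ Real.log q := fun q => Real.log_natCast_nonneg q
  -- the levels
  set tt : ℤ[X] → ℕ → ℕ := fun G q => (lev κ (fz A G) q + (d - 1)) / d with htt
  have htt1 : ∀ G q, lev κ (fz A G) q ≤ d * tt G q := by
    intro G q
    have h1 := Nat.div_add_mod (lev κ (fz A G) q + (d - 1)) d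
    have h2 := Nat.mod_lt (lev κ (fz A G) q + (d - 1)) (by omega : d > 0)
    have h3 : d * tt G q = d * ((lev κ (fz A G) q + (d - 1)) / d) := rfl
    omega
  have htt2 : ∀ G q, tt G q ≤ lev κ (fz A G) q := by
    intro G q
    have h3 : tt G q = (lev κ (fz A G) q + (d - 1)) / d := rfl
    rw [h3]
    rcases Nat.eq_zero_or_pos (lev κ (fz A G) q) with h0 | h0
    · rw [h0, Nat.zero_add]
      have : (d - 1) / d = 0 := Nat.div_eq_of_lt (by omega)
      omega
    · apply Nat.div_le_of_le_mul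
      have h4 : lev κ (fz A G) q * 1 ≤ lev κ (fz A G) q * d := Nat.mul_le_mul_left _ hd
      obtain ⟨x, hx⟩ : ∃ x, lev κ (fz A G) q = x + 1 := ⟨_, (Nat.succ_pred_eq_of_pos h0).symm⟩
      rw [hx]
      have h5 : d * (x + 1) = d * x + d := by ring
      have h6 : x ≤ d * x := Nat.le_mul_of_pos_left x (by omega)
      omega
  have htt3 : ∀ G q, 1 ≤ tt G q → d * (tt G q - 1) < lev κ (fz A G) q := by
    intro G q h
    have h1 : d * tt G q ≤ lev κ (fz A G) q + (d - 1) := Nat.mul_div_le _ _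
    have h2 : d * (tt G q - 1) = d * tt G q - d := by rw [Nat.mul_sub, Nat.mul_one]
    have h3 : d ≤ d * tt G q := Nat.le_mul_of_pos_right d h
    omega
  set mu : ℕ → ℕ := fun q => J.sup (fun G => tt G q - rsep P q) with hmu
  have hnot : ∀ q : ℕ, q.Prime → ∀ G ∈ P, ∀ G' ∈ P, G ≠ G' → ∀ l, rsep P q < l →
      ¬ (q : ℤ) ^ l ∣ res G G' := by
    intro q hq G hG G' hG' hne l hl hdvd
    have := Fact.mk hq
    have h1 := le_rsep hG hG' hne q
    rcases (padicValInt_dvd_iff (p := q) _ _).1 hdvd with h | h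
    · exact hres (G, G') (mem_offDiag.2 ⟨hG, hG', hne⟩) h
    · omega
  -- popular leading digits of the values of `F`
  have hch : ∀ q : ℕ, ∃ p : ℕ × ℤ, q ∈ FF → mu q ≠ 0 →
      ¬ (q : ℤ) ^ p.1 ∣ p.2 ∧ mu q ≤ p.1 - padicValInt q p.2 ∧
      1 / (2 * (d : ℝ) ^ 3) * κ * ((fz A F).card : ℝ) ≤
        (((fz A F).filter (fun b => (q : ℤ) ^ p.1 ∣ b - p.2)).card : ℝ) := by
    intro q
    by_cases hq : q ∈ FF
    swap
    · exact ⟨(0, 0), fun h => absurd h hq⟩
    by_cases hm : mu q = 0
    · exact ⟨(0, 0), fun _ h => absurd hm h⟩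
    have hqp := hFFp q hq
    have hJne : J.Nonempty := by
      rw [nonempty_iff_ne_empty]
      intro h0
      apply hm
      rw [hmu]
      simp only
      rw [h0, sup_empty]
      rfl
    obtain ⟨G, hG, hGe⟩ := exists_mem_eq_sup J hJne (fun G => tt G q - rsep P q)
    have hmuq : mu q = tt G q - rsep P q := hGe
    have hGP : G ∈ P := mem_insert_of_mem hG
    have hFP : F ∈ P := mem_insert_self _ _
    have hFG : F ≠ G := fun h => hFJ G hG (h ▸ Associated.refl _)
    have hgood := hJ G hG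
    set t := tt G q with ht
    set l := lev κ (fz A G) q with hl
    have htl : t ≤ l := htt2 G q
    have hst : rsep P q < t := by omega
    have hpts := pop_points hgood.2.1 hgood.2.2.1 hA hκ0.le hκ1 (le_refl l)
    set T : Finset ℤ := A.filter (fun a => (q : ℤ) ^ l ∣ G.eval a) with hT
    have hTne : T.Nonempty := by
      rw [nonempty_iff_ne_empty]
      intro h0
      rw [h0, card_empty, Nat.cast_zero, mul_zero] at hpts
      have : (0 : ℝ) < A.card := by exact_mod_cast card_pos.2 hAne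
      have : 0 < κ * A.card := by (clear * - hκ0 hAne; positivity)
      linarith only [hpts, this]
    obtain ⟨r, hrT, hrc⟩ := exists_class (hgood.1.isPrimitive (by have := hgood.2.1; omega))
      hgood.2.2.1 hqp (l := l) (t := t) (htt3 G q (by omega)) hTne
      (fun a ha => (mem_filter.1 ha).2)
    have hrG : (q : ℤ) ^ l ∣ G.eval r := (mem_filter.1 hrT).2
    have hval : ∀ n, rsep P q < n → n ≤ l → ¬ (q : ℤ) ^ n ∣ F.eval r := by
      intro n hn hnl h
      exact hnot q hqp F hFP G hGP hFG n hn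
        (dvd_res hF.2.1 h ((pow_dvd_pow _ hnl).trans hrG))
    refine ⟨(t, F.eval r), fun _ _ => ⟨hval t hst htl, ?_, ?_⟩⟩
    · have h1 : padicValInt q (F.eval r) ≤ rsep P q := by
        by_contra hlt
        push Not at hlt
        apply hval (rsep P q + 1) (by omega) (by omega)
        have := Fact.mk hqp
        rw [padicValInt_dvd_iff]
        right
        exact hlt
      simp only
      omega
    · simp only
      have h1 := pop_values (A := A) hF.2.1 hF.2.2.1 (hval t hst htl)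
        (T.filter (fun a => (q : ℤ) ^ t ∣ a - r))
        ((filter_subset _ _).trans (filter_subset _ _)) (fun a ha => (mem_filter.1 ha).2)
      have h2 : (T.card : ℝ) ≤ d * ((T.filter (fun a => (q : ℤ) ^ t ∣ a - r)).card : ℝ) := by
        exact_mod_cast hrc
      have h3 : ((T.filter (fun a => (q : ℤ) ^ t ∣ a - r)).card : ℝ) ≤
          d * (((fz A F).filter (fun b => (q : ℤ) ^ t ∣ b - F.eval r)).card : ℝ) := by
        exact_mod_cast h1
      have h4 : ((fz A F).card : ℝ) ≤ A.card := by exact_mod_cast card_fz_le A F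
      set x : ℝ := (((fz A F).filter (fun b => (q : ℤ) ^ t ∣ b - F.eval r)).card : ℝ) with hx
      have h5 : κ * (fz A F).card ≤ 2 * d * (d * (d * x)) := by
        calc κ * (fz A F).card ≤ κ * A.card := mul_le_mul_of_nonneg_left h4 hκ0.le
          _ ≤ 2 * d * T.card := hpts
          _ ≤ 2 * d * (d * (d * x)) := by
              apply mul_le_mul_of_nonneg_left _ (by positivity)
              exact h2.trans (mul_le_mul_of_nonneg_left h3 hdr0.le)
      rw [mul_assoc, div_mul_eq_mul_div, one_mul, div_le_iff₀ (by positivity)]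
      refine h5.trans (le_of_eq ?_)
      ring
  choose b hb using hch
  have hPop : Pop (1 / (2 * (d : ℝ) ^ 3) * κ) (fz A F) (FF.filter (fun q => mu q ≠ 0))
      (fun q => (b q).1) (fun q => (b q).2) := by
    refine ⟨fun p hp => hFFp p (mem_filter.1 hp).1, fun p hp => ?_, fun p hp => ?_⟩
    · obtain ⟨h1, h2⟩ := mem_filter.1 hp
      exact (hb p h1 h2).1
    · obtain ⟨h1, h2⟩ := mem_filter.1 hp
      exact (hb p h1 h2).2.2
  have hV := hpop _ _ _ hPop
  have hmuV : ∑ q ∈ FF, (mu q : ℝ) * Real.log q ≤ V := by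
    refine le_trans ?_ hV
    unfold W1
    rw [sum_filter]
    apply sum_le_sum
    intro q hq
    by_cases hm : mu q = 0
    · simp [hm]
    · rw [if_pos hm]
      apply mul_le_mul_of_nonneg_right _ (hq0 q)
      exact_mod_cast (hb q hq hm).2.1
  -- at most `2 d / κ` polynomials are popular at each level
  have hone : ∀ q ∈ FF, κ * ∑ G ∈ J, ((tt G q - rsep P q : ℕ) : ℝ) ≤ 2 * d * mu q := by
    intro q hq
    have h1 : ∀ G ∈ J, ((tt G q - rsep P q : ℕ) : ℝ) =
        ∑ l ∈ Ioc (rsep P q) (rsep P q + mu q), if l ≤ tt G q then (1 : ℝ) else 0 := by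
      intro G hG
      rw [← sum_filter, sum_const, nsmul_one]
      congr 1
      have h2 : tt G q - rsep P q ≤ mu q :=
        le_sup (f := fun G => tt G q - rsep P q) hG
      have h3 : (Ioc (rsep P q) (rsep P q + mu q)).filter (fun l => l ≤ tt G q) =
          Ioc (rsep P q) (tt G q) := by
        ext l
        simp only [mem_filter, mem_Ioc]
        omega
      rw [h3, Nat.card_Ioc]
    rw [sum_congr rfl h1, sum_comm, mul_sum]
    have h4 : ∀ l ∈ Ioc (rsep P q) (rsep P q + mu q),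
        κ * ∑ G ∈ J, (if l ≤ tt G q then (1 : ℝ) else 0) ≤ 2 * d := by
      intro l hl
      rw [← sum_filter, sum_const, nsmul_one]
      apply card_pop_poly (q := q) hAne (l := l)
      · intro G hG
        exact (hJ G (mem_filter.1 hG).1).2.1
      · intro G hG G' hG' hne
        exact hnot q (hFFp q hq) G (mem_insert_of_mem (mem_filter.1 hG).1) G'
          (mem_insert_of_mem (mem_filter.1 hG').1) hne l (mem_Ioc.1 hl).1
      · intro G hG
        have hGJ := (mem_filter.1 hG).1
        exact pop_points (hJ G hGJ).2.1 (hJ G hGJ).2.2.1 hA hκ0.le hκ1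
          ((mem_filter.1 hG).2.trans (htt2 G q))
    refine (sum_le_sum h4).trans ?_
    rw [sum_const, Nat.card_Ioc, nsmul_eq_mul]
    apply le_of_eq
    rw [mul_comm]
    congr 2
    omega
  have hall : κ * ∑ G ∈ J, ∑ q ∈ FF, ((tt G q - rsep P q : ℕ) : ℝ) * Real.log q ≤
      2 * d * V := by
    rw [sum_comm, mul_sum]
    refine le_trans (sum_le_sum (g := fun q => 2 * (d : ℝ) * ((mu q : ℝ) * Real.log q))
      fun q hq => ?_) ?_
    · rw [← sum_mul, ← mul_assoc, ← mul_assoc]
      exact mul_le_mul_of_nonneg_right (hone q hq) (hq0 q)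
    · rw [← mul_sum]
      exact mul_le_mul_of_nonneg_left hmuV (by positivity)
  have hsep : ∑ q ∈ FF, (rsep P q : ℝ) * Real.log q ≤ ((J.card : ℝ) + 1) ^ 2 * Λ := by
    refine (sum_rsep_le P FF hFFp hres hlogres hΛ0).trans ?_
    apply mul_le_mul_of_nonneg_right _ hΛ0
    apply pow_le_pow_left₀ (Nat.cast_nonneg _)
    exact_mod_cast card_insert_le F J
  have hW : ∀ G ∈ J, W0 κ (fz A G) ≤
      d * ∑ q ∈ FF, ((tt G q - rsep P q : ℕ) : ℝ) * Real.log q +
        d * (((J.card : ℝ) + 1) ^ 2 * Λ) := by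
    intro G hG
    rw [hWF G hG]
    have h1 : ∑ q ∈ FF, (lev κ (fz A G) q : ℝ) * Real.log q ≤
        ∑ q ∈ FF, (d * (((tt G q - rsep P q : ℕ) : ℝ) * Real.log q) +
          d * ((rsep P q : ℝ) * Real.log q)) := by
      apply sum_le_sum
      intro q _
      have h2 : lev κ (fz A G) q ≤ d * ((tt G q - rsep P q) + rsep P q) :=
        (htt1 G q).trans (Nat.mul_le_mul_left _ (by omega))
      have h3 : (lev κ (fz A G) q : ℝ) ≤
          d * (((tt G q - rsep P q : ℕ) : ℝ) + rsep P q) := by exact_mod_cast h2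
      have h4 := mul_le_mul_of_nonneg_right h3 (hq0 q)
      refine h4.trans (le_of_eq ?_)
      ring
    refine h1.trans ?_
    rw [sum_add_distrib, ← mul_sum, ← mul_sum]
    have h5 := mul_le_mul_of_nonneg_left hsep hdr0.le
    linarith only [h5]
  refine (sum_le_sum hW).trans ?_
  rw [sum_add_distrib, ← mul_sum, sum_const, nsmul_eq_mul]
  have h6 : ∑ G ∈ J, ∑ q ∈ FF, ((tt G q - rsep P q : ℕ) : ℝ) * Real.log q ≤ 2 * d * V / κ := by
    rw [le_div_iff₀ hκ0, mul_comm]
    exact hall
  have h7 := mul_le_mul_of_nonneg_left h6 hdr0.le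
  have h8 : (d : ℝ) * (2 * d * V / κ) = 2 * (d : ℝ) ^ 2 / κ * V := by ring
  have h9 : (J.card : ℝ) * (d * (((J.card : ℝ) + 1) ^ 2 * Λ)) =
      d * J.card * (((J.card : ℝ) + 1) ^ 2 * Λ) := by ring
  linarith only [h7, h8]

end Pool.Agent.Helper88.NZ
end

/- Helper24.TT.H88.NZ.PolyC -/
section
set_option autoImplicit false

/-!
MP_120218_co, project TR: only few of several polynomials have high popular valuations at a prime.
-/

open Finset Polynomial

namespace Pool.Agent.Helper88.NZ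

open Pool.Agent.Helper26.TR

theorem log_res_le {d : ℕ} {H : ℤ} (hH : 1 ≤ H) {F G : ℤ[X]} (hF : Good d H F) (hG : Good d H G)
    (hFG : ¬ Associated F G) : Real.log (res F G).natAbs ≤
      Real.log (((2 * d).factorial : ℝ) * (H : ℝ) ^ (2 * d)) := by
  have hne := res_ne_zero hF.1 hG.1 hF.2.1 hG.2.1 hFG
  have h1 := res_le hF.2.2.1 hG.2.2.1 hH hF.2.2.2 hG.2.2.2
  have h2 : ((res F G).natAbs : ℝ) ≤ ((2 * d).factorial : ℝ) * (H : ℝ) ^ (2 * d) := by
    rw [Nat.cast_natAbs]
    exact_mod_cast h1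
  apply Real.log_le_log _ h2
  exact_mod_cast Int.natAbs_pos.2 hne

/-- the weight of the separation of a family of polynomials -/
theorem sum_rsep {d : ℕ} {H : ℤ} (hH : 1 ≤ H) (J : Finset ℤ[X]) (hJ : ∀ G ∈ J, Good d H G)
    (hJJ : ∀ G ∈ J, ∀ G' ∈ J, G ≠ G' → ¬ Associated G G') (F : Finset ℕ)
    (hF : ∀ q ∈ F, q.Prime) : ∑ q ∈ F, (rsep J q : ℝ) * Real.log q ≤ (J.card : ℝ) ^ 2 *
      Real.log (((2 * d).factorial : ℝ) * (H : ℝ) ^ (2 * d)) := by
  apply sum_rsep_le J F hF
  · intro z hz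
    rw [mem_offDiag] at hz
    exact res_ne_zero (hJ _ hz.1).1 (hJ _ hz.2.1).1 (hJ _ hz.1).2.1 (hJ _ hz.2.1).2.1
      (hJJ _ hz.1 _ hz.2.1 hz.2.2)
  · intro z hz
    rw [mem_offDiag] at hz
    exact log_res_le hH (hJ _ hz.1) (hJ _ hz.2.1) (hJJ _ hz.1 _ hz.2.1 hz.2.2)
  · apply Real.log_nonneg
    have hHr : (1 : ℝ) ≤ H := by exact_mod_cast hH
    have hfac : (1 : ℝ) ≤ ((2 * d).factorial : ℝ) := by
      exact_mod_cast Nat.one_le_iff_ne_zero.2 (Nat.factorial_ne_zero _)
    calc (1 : ℝ) = 1 * 1 := by norm_num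
      _ ≤ _ := mul_le_mul hfac (one_le_pow₀ hHr) (by norm_num) (by positivity)

/-- at most `2 d / κ` of the polynomials have a popular valuation above the separation -/
theorem few_popular {A : Finset ℤ} {d : ℕ} (hd : 1 ≤ d) (hA : 2 * d ≤ A.card) {κ : ℝ}
    (hκ0 : 0 < κ) (hκ1 : κ ≤ 1) (J : Finset ℤ[X]) {H : ℤ} (hJ : ∀ G ∈ J, Good d H G)
    (hJJ : ∀ G ∈ J, ∀ G' ∈ J, G ≠ G' → ¬ Associated G G') {q : ℕ} (hq : q.Prime) :
    κ * ((J.filter (fun G => rsep J q < lev κ (fz A G) q)).card : ℝ) ≤ 2 * d := by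
  classical
  have hAne : A.Nonempty := card_pos.1 (by omega)
  apply card_pop_poly (q := q) hAne (l := rsep J q + 1)
  · intro G hG
    exact (hJ G (mem_filter.1 hG).1).2.1
  · intro G hG G' hG' hne hdvd
    have hGJ := (mem_filter.1 hG).1
    have hGJ' := (mem_filter.1 hG').1
    have := Fact.mk hq
    have h1 := le_rsep hGJ hGJ' hne q
    rcases (padicValInt_dvd_iff (p := q) _ _).1 hdvd with h | h
    · exact res_ne_zero (hJ _ hGJ).1 (hJ _ hGJ').1 (hJ _ hGJ).2.1 (hJ _ hGJ').2.1
        (hJJ _ hGJ _ hGJ' hne) h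
    · omega
  · intro G hG
    have hGJ := (mem_filter.1 hG).1
    exact pop_points (hJ G hGJ).2.1 (hJ G hGJ).2.2.1 hA hκ0.le hκ1 (mem_filter.1 hG).2

end Pool.Agent.Helper88.NZ
end

/- Helper24.TT.H88.NZ.PolyD -/
section
set_option autoImplicit false

/-!
MP_120218_co, project TR: all but boundedly many irreducible polynomials, from the structure
theorem for `k` sets with slack.
-/

open Finset Polynomial

namespace Pool.Agent.Helper88.NZ

open Pool.Agent.Helper26.TR

/-- the structure theorem for `k` sets, with slack `θ` in the popularity of the leading digits -/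
def NZMixT : Prop :=
  ∀ k : ℕ, ∀ ε : ℝ, 0 < ε → ∀ θ : ℝ, 0 < θ → θ ≤ 1 → ∃ (κ : Fin k → ℝ) (C c : ℝ),
    (∀ l, 0 < κ l ∧ κ l ≤ 1) ∧ 0 < C ∧ 0 < c ∧
    ∀ (N : ℕ) (A : Fin k → Finset ℤ), (∀ l, (A l).Nonempty) → (∀ l, (0 : ℤ) ∉ A l) →
      (∀ l, (A l).card ≤ N) →
      ((mixSet A).card : ℝ) < c * (N : ℝ) ^ (-ε) * ∏ l, ((A l).card : ℝ) →
      ∃ l : Fin k, 0 < (l : ℕ) ∧
        (∀ (T : Finset ℕ) (e : ℕ → ℕ) (β : ℕ → ℤ), Pop (θ * κ l) (A l) T e β →
          W1 T e β ≤ C * (W0b (κ l) A l + 1)) ∧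
        c * (Real.log N * Real.log (Real.log N)) ≤ W0b (κ l) A l

/-- all but boundedly many irreducible polynomials of bounded degree and moderate height map a
finite set of integers to multiplicatively generic sets, jointly -/
def TRPoly : Prop :=
  ∀ k d : ℕ, 1 ≤ k → ∀ ε : ℝ, 0 < ε → ∃ (m : ℕ) (c : ℝ), 0 < c ∧
    ∀ A : Finset ℤ, A.Nonempty → ∃ E : Finset ℤ[X], E.card ≤ m ∧
      ∀ F : Fin k → ℤ[X],
        (∀ i, Irreducible (F i) ∧ 1 ≤ (F i).natDegree ∧ (F i).natDegree ≤ d ∧
          ∀ j, (|(F i).coeff j| : ℝ) ≤ (A.card : ℝ) ^ (c * Real.log (Real.log A.card))) →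
        (univ.filter (fun i => F i ∈ E)).card ≤ 1 →
        c * (A.card : ℝ) ^ ((k : ℝ) - ε) ≤
          ((mixSet (fun i => A.image (fun a => (F i).eval a))).card : ℝ)

theorem eq_or_neg_of_associated {F G : ℤ[X]} (h : Associated F G) : G = F ∨ G = -F := by
  obtain ⟨u, rfl⟩ := h
  obtain ⟨r, hr, hru⟩ := Polynomial.isUnit_iff.1 u.isUnit
  rw [← hru]
  rcases Int.isUnit_iff.1 hr with h1 | h1
  · left; rw [h1]; simp
  · right; rw [h1]; simp

/-- the relation between polynomials given by the structure theorem -/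
def RelP (A : Finset ℤ) (θ κ C W : ℝ) (F G : ℤ[X]) : Prop :=
  (∀ (T : Finset ℕ) (e : ℕ → ℕ) (β : ℕ → ℤ), Pop (θ * κ) (fz A F) T e β →
    W1 T e β ≤ C * W0 κ (fz A G)) ∧ W ≤ W0 κ (fz A G)

/-- the exceptional polynomials for one relation and one sign of the leading coefficient -/
def ExcP (A : Finset ℤ) (d : ℕ) (H : ℤ) (θ κ C W : ℝ) (s : ℤ) : Set ℤ[X] :=
  {G | Good d H G ∧ 0 < s * G.leadingCoeff ∧ ∃ F, Good d H F ∧ RelP A θ κ C W F G}

theorem not_associated_of_sign {s : ℤ} {F G : ℤ[X]} (hF : 0 < s * F.leadingCoeff)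
    (hG : 0 < s * G.leadingCoeff) (hne : F ≠ G) : ¬ Associated F G := by
  intro h
  rcases eq_or_neg_of_associated h with h1 | h1
  · exact hne h1.symm
  · rw [h1, leadingCoeff_neg, mul_neg] at hG
    (clear * - hF hG; linarith)

theorem card_ExcP_aux {A : Finset ℤ} {d : ℕ} (hd : 1 ≤ d) (hA : 2 * d ≤ A.card) {κ : ℝ}
    (hκ0 : 0 < κ) (hκ1 : κ ≤ 1) {C : ℝ} (hC0 : 0 ≤ C) {H : ℤ} (hH : 1 ≤ H) {W S : ℝ} {s : ℤ}
    (hS : Real.log (((2 * d).factorial : ℝ) * (H : ℝ) ^ (2 * d)) ≤ S) {m : ℕ}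
    (hm : 2 + 2 * (d : ℝ) ^ 2 / κ * C ≤ m) (hW0 : 0 < W)
    (hW : (d : ℝ) * (m + 1) * (((m : ℝ) + 2) ^ 2 * S) ≤ W) (J : Finset ℤ[X])
    (hJ : ∀ G ∈ J, G ∈ ExcP A d H (1 / (2 * (d : ℝ) ^ 3)) κ C W s) : J.card ≤ m := by
  classical
  by_contra hlt
  push Not at hlt
  obtain ⟨J', hJ'J, hJ'c⟩ := exists_subset_card_eq (s := J) (n := m + 1) (by omega)
  have hne : J'.Nonempty := card_pos.1 (by omega)
  obtain ⟨G₀, hG₀, hmin⟩ := exists_min_image J' (fun G => W0 κ (fz A G)) hne
  obtain ⟨hG₀g, hG₀s, F, hF, hrel, hWG⟩ := hJ G₀ (hJ'J hG₀)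
  have hJJ : ∀ G ∈ J', ∀ G' ∈ J', G ≠ G' → ¬ Associated G G' := fun G hG G' hG' h =>
    not_associated_of_sign (hJ G (hJ'J hG)).2.1 (hJ G' (hJ'J hG')).2.1 h
  set K : Finset ℤ[X] := J'.filter (fun G => ¬ Associated F G) with hK
  have hKJ : K ⊆ J' := filter_subset _ _
  have hKc : m ≤ K.card := by
    have h1 : (J'.filter (fun G => Associated F G)).card ≤ 1 := by
      rw [card_le_one]
      intro G hG G' hG'
      by_contra hne
      exact hJJ G (mem_filter.1 hG).1 G' (mem_filter.1 hG').1 hne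
        ((mem_filter.1 hG).2.symm.trans (mem_filter.1 hG').2)
    have h2 := card_filter_add_card_filter_not (s := J') (fun G => Associated F G)
    have h3 : (J'.filter (fun G => ¬ Associated F G)).card = K.card := rfl
    omega
  have key := one_set hd hA hκ0 hκ1 K F hH (fun G hG => (hJ G (hJ'J (hKJ hG))).1) hF
    (fun G hG G' hG' h => hJJ G (hKJ hG) G' (hKJ hG') h)
    (fun G hG => (mem_filter.1 hG).2) (V := C * W0 κ (fz A G₀)) hrel
  have hWG0 : 0 < W0 κ (fz A G₀) := hW0.trans_le hWG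
  have hlow : (m : ℝ) * W0 κ (fz A G₀) ≤ ∑ G ∈ K, W0 κ (fz A G) := by
    calc (m : ℝ) * W0 κ (fz A G₀) ≤ (K.card : ℝ) * W0 κ (fz A G₀) := by
          apply mul_le_mul_of_nonneg_right _ hWG0.le
          exact_mod_cast hKc
      _ = ∑ _G ∈ K, W0 κ (fz A G₀) := by rw [sum_const, nsmul_eq_mul]
      _ ≤ ∑ G ∈ K, W0 κ (fz A G) := sum_le_sum fun G hG => hmin G (hKJ hG)
  have hKm : (K.card : ℝ) ≤ (m : ℝ) + 1 := by
    have h1 := card_le_card hKJ
    rw [hJ'c] at h1
    exact_mod_cast h1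
  have hS0 : 0 ≤ S := by
    refine le_trans (Real.log_nonneg ?_) hS
    have hHr : (1 : ℝ) ≤ H := by exact_mod_cast hH
    have hfac : (1 : ℝ) ≤ ((2 * d).factorial : ℝ) := by
      exact_mod_cast Nat.one_le_iff_ne_zero.2 (Nat.factorial_ne_zero _)
    calc (1 : ℝ) = 1 * 1 := by norm_num
      _ ≤ _ := mul_le_mul hfac (one_le_pow₀ hHr) (by norm_num) (by positivity)
  have herr : (d : ℝ) * K.card * (((K.card : ℝ) + 1) ^ 2 *
      Real.log (((2 * d).factorial : ℝ) * (H : ℝ) ^ (2 * d))) ≤ W0 κ (fz A G₀) := by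
    refine le_trans ?_ (hW.trans hWG)
    apply mul_le_mul
    · exact mul_le_mul_of_nonneg_left hKm (by positivity)
    · calc ((K.card : ℝ) + 1) ^ 2 * Real.log (((2 * d).factorial : ℝ) * (H : ℝ) ^ (2 * d))
          ≤ ((K.card : ℝ) + 1) ^ 2 * S := mul_le_mul_of_nonneg_left hS (by (clear * -; positivity))
        _ ≤ ((m : ℝ) + 2) ^ 2 * S := by
          apply mul_le_mul_of_nonneg_right _ hS0
          apply pow_le_pow_left₀ (by (clear * -; positivity))
          linarith only [hKm]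
    · apply mul_nonneg (by (clear * -; positivity))
      apply Real.log_nonneg
      have hHr : (1 : ℝ) ≤ H := by exact_mod_cast hH
      have hfac : (1 : ℝ) ≤ ((2 * d).factorial : ℝ) := by
        exact_mod_cast Nat.one_le_iff_ne_zero.2 (Nat.factorial_ne_zero _)
      calc (1 : ℝ) = 1 * 1 := by norm_num
        _ ≤ _ := mul_le_mul hfac (one_le_pow₀ hHr) (by norm_num) (by positivity)
    · (clear * - hd; positivity)
  have h1 : (m : ℝ) * W0 κ (fz A G₀) ≤
      (2 * (d : ℝ) ^ 2 / κ * C + 1) * W0 κ (fz A G₀) := by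
    refine hlow.trans (key.trans ?_)
    have : 2 * (d : ℝ) ^ 2 / κ * (C * W0 κ (fz A G₀)) + W0 κ (fz A G₀) =
        (2 * (d : ℝ) ^ 2 / κ * C + 1) * W0 κ (fz A G₀) := by ring
    linarith only [herr]
  have h2 := le_of_mul_le_mul_right h1 hWG0
  linarith only [hm, h2]

/-- the exceptional set of one relation is finite and small -/
theorem exists_ExcP {A : Finset ℤ} {d : ℕ} (hd : 1 ≤ d) (hA : 2 * d ≤ A.card) {κ : ℝ}
    (hκ0 : 0 < κ) (hκ1 : κ ≤ 1) {C : ℝ} (hC0 : 0 ≤ C) {H : ℤ} (hH : 1 ≤ H) {W S : ℝ}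
    (hS : Real.log (((2 * d).factorial : ℝ) * (H : ℝ) ^ (2 * d)) ≤ S) {m : ℕ}
    (hm : 2 + 2 * (d : ℝ) ^ 2 / κ * C ≤ m) (hW0 : 0 < W)
    (hW : (d : ℝ) * (m + 1) * (((m : ℝ) + 2) ^ 2 * S) ≤ W) :
    ∃ E : Finset ℤ[X], E.card ≤ 2 * m ∧ ∀ F G, Good d H F → Good d H G →
      RelP A (1 / (2 * (d : ℝ) ^ 3)) κ C W F G → G ∈ E := by
  classical
  have hfin : ∀ s : ℤ, (ExcP A d H (1 / (2 * (d : ℝ) ^ 3)) κ C W s).Finite := by
    intro s
    by_contra hinf
    obtain ⟨t, ht, htc⟩ := Set.Infinite.exists_subset_card_eq hinf (m + 1)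
    have := card_ExcP_aux hd hA hκ0 hκ1 hC0 hH hS hm hW0 hW t (fun G hG => ht (mem_coe.2 hG))
    omega
  have hcard : ∀ s : ℤ, (hfin s).toFinset.card ≤ m := fun s =>
    card_ExcP_aux hd hA hκ0 hκ1 hC0 hH hS hm hW0 hW _
      (fun G hG => (Set.Finite.mem_toFinset _).1 hG)
  refine ⟨(hfin 1).toFinset ∪ (hfin (-1)).toFinset, ?_, ?_⟩
  · have h1 := card_union_le (hfin 1).toFinset (hfin (-1)).toFinset
    have h2 := hcard 1
    have h3 := hcard (-1)
    omega
  · intro F G hF hG hrel
    have hlc : G.leadingCoeff ≠ 0 := leadingCoeff_ne_zero.2 hG.1.ne_zero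
    rw [mem_union, Set.Finite.mem_toFinset, Set.Finite.mem_toFinset]
    rcases lt_or_gt_of_ne hlc with h | h
    · right
      exact ⟨hG, by linarith only [h], F, hF, hrel⟩
    · left
      exact ⟨hG, by (clear * - h; linarith only [h]), F, hF, hrel⟩

/-- **From the structure theorem for `k` sets to irreducible polynomials.** -/
theorem polynomials (hNZ : NZMixT) : TRPoly := by
  classical
  intro k d₀ hk ε hε
  set d : ℕ := max d₀ 1 with hdd
  have hd : 1 ≤ d := le_max_right _ _
  have hdr : (1 : ℝ) ≤ d := by exact_mod_cast hd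
  have hdr0 : (0 : ℝ) < d := by linarith only [hdr]
  set θ : ℝ := 1 / (2 * (d : ℝ) ^ 3) with hθ
  have hθ0 : 0 < θ := by (clear * -; positivity)
  have hθ1 : θ ≤ 1 := by
    rw [hθ, div_le_one (by positivity)]
    have : (1 : ℝ) ≤ (d : ℝ) ^ 3 := one_le_pow₀ hdr
    (clear * - this; linarith only [this])
  set ε' : ℝ := min ε 1 with hε'
  have hε'0 : 0 < ε' := lt_min hε one_pos
  have hε'1 : ε' ≤ 1 := min_le_right _ _
  have hk1 : (1 : ℝ) ≤ k := by exact_mod_cast hk
  have hk0 : (0 : ℝ) < k := by linarith only [hk1]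
  obtain ⟨κ, C, c₁, hκ, hC, hc₁, hnz⟩ := hNZ k ε' hε'0 θ hθ0 hθ1
  -- the number of exceptions
  have hml : ∀ l : Fin k, ∃ m : ℕ, 2 + 2 * (d : ℝ) ^ 2 / κ l * (2 * C * k) ≤ m :=
    fun l => exists_nat_ge _
  choose ml hml using hml
  set m : ℕ := ∑ l, 2 * ml l with hm
  have hmlm : ∀ l, (ml l : ℝ) ≤ m := by
    intro l
    have h1 : 2 * ml l ≤ m := single_le_sum (f := fun l => 2 * ml l) (fun _ _ => Nat.zero_le _)
      (mem_univ l)
    have h2 : ml l ≤ m := by omega
    exact_mod_cast h2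
  set c₀ : ℝ := c₁ / (k * (d * ((m : ℝ) + 1) * (((m : ℝ) + 2) ^ 2 * (2 * d + 1)))) with hc₀
  have hc₀0 : 0 < c₀ := by (clear * - hc₁ hk; positivity)
  set Lf : ℝ := Real.log ((2 * d).factorial : ℝ) with hLf
  have hLf0 : 0 ≤ Lf := by
    apply Real.log_nonneg
    exact_mod_cast Nat.one_le_iff_ne_zero.2 (Nat.factorial_ne_zero _)
  -- the threshold
  set L₀ : ℝ := max 16 (1 / c₁ + Lf / c₀ + Real.log (2 * d)) with hL₀
  set c : ℝ := min (c₁ / (2 * d) ^ k) (min c₀ (Real.exp (-(k * L₀)))) with hc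
  have hc0 : 0 < c := by
    rw [hc]
    apply lt_min _ (lt_min _ _) <;> (clear * - hc₁ hk; positivity)
  have hcc₁ : c ≤ c₁ / (2 * d) ^ k := min_le_left _ _
  have hcc₀ : c ≤ c₀ := (min_le_right _ _).trans (min_le_left _ _)
  have hce : c ≤ Real.exp (-(k * L₀)) := (min_le_right _ _).trans (min_le_right _ _)
  clear_value c
  refine ⟨m, c, hc0, ?_⟩
  intro A hA
  have hN1 : (1 : ℝ) ≤ A.card := by exact_mod_cast card_pos.2 hA
  have hNpos : (0 : ℝ) < A.card := by linarith only [hN1]
  set N : ℝ := (A.card : ℝ) with hN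
  -- small `N`
  by_cases hL0 : Real.log N ≤ L₀
  · refine ⟨∅, by simp, ?_⟩
    intro F _ _
    have h2 : (1 : ℝ) ≤ ((mixSet (fun i => A.image (fun a => (F i).eval a))).card : ℝ) := by
      exact_mod_cast card_pos.2 (mixSet_nonempty (fun i => hA.image _))
    refine le_trans ?_ h2
    have hL0' : 0 ≤ Real.log N := Real.log_nonneg hN1
    calc c * N ^ ((k : ℝ) - ε) ≤ Real.exp (-(k * L₀)) * N ^ (k : ℝ) := by
          apply mul_le_mul hce _ (by positivity) (Real.exp_pos _).le
          exact Real.rpow_le_rpow_of_exponent_le hN1 (by linarith only [hε])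
      _ = Real.exp (k * (Real.log N - L₀)) := by
          rw [Real.rpow_def_of_pos hNpos, ← Real.exp_add]
          congr 1
          ring
      _ ≤ Real.exp 0 := by
          apply Real.exp_le_exp.2
          have : Real.log N - L₀ ≤ 0 := by linarith only [hL0]
          (clear * - this; nlinarith only [this])
      _ = 1 := Real.exp_zero
  push Not at hL0
  have hL16 : 16 ≤ Real.log N := (le_max_left _ _).trans hL0.le
  have hL2 : 1 / c₁ + Lf / c₀ + Real.log (2 * d) ≤ Real.log N := (le_max_right _ _).trans hL0.le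
  have hNexp : Real.exp 16 ≤ N := by rwa [← Real.le_log_iff_exp_le hNpos]
  obtain ⟨-, hLL1, -⟩ := half_log hNexp (M := N) (by (clear * - hN; linarith only [hN]))
  have hi1 : 0 < 1 / c₁ := by positivity
  have hi0 : 0 ≤ Lf / c₀ := by (clear * - hc₁ hk; positivity)
  have hi2 : 0 ≤ Real.log (2 * d) := Real.log_nonneg (by linarith only [hdr])
  set LL : ℝ := Real.log N * Real.log (Real.log N) with hLL
  have hLLL : Real.log N ≤ LL := by
    rw [hLL]
    (clear * - hLL1 hL16; nlinarith only [hL16, hLL1])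
  have hLLc₁ : 1 ≤ c₁ * LL := by
    have h1 : 1 / c₁ ≤ LL := by linarith only [hL2, hi0, hi2, hLLL]
    rw [div_le_iff₀ hc₁] at h1
    linarith only [h1]
  have hLLc₀ : Lf ≤ c₀ * LL := by
    have h1 : Lf / c₀ ≤ LL := by (clear * - hL2 hi1 hi2 hLLL; linarith only [hL2, hi1, hi2, hLLL])
    rw [div_le_iff₀ hc₀0] at h1
    linarith only [h1]
  have hLL0 : 0 < LL := by linarith only [hL16, hLLL]
  have hN2d : 2 * (d : ℝ) ≤ N := by
    rw [← Real.log_le_log_iff (by (clear * -; positivity)) hNpos]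
    linarith only [hL2, hi1, hi0]
  have hA2d : 2 * d ≤ A.card := by
    have h1 : (2 : ℝ) * d ≤ (A.card : ℝ) := hN2d
    exact_mod_cast h1
  set X' : ℝ := N ^ (c * Real.log (Real.log N)) with hX
  have hX1 : 1 ≤ X' := by
    apply Real.one_le_rpow hN1
    apply mul_nonneg hc0.le
    linarith only [hLL1]
  have hXpos : 0 < X' := by linarith only [hX1]
  have hlogX : Real.log X' ≤ c₀ * LL := by
    rw [hX, Real.log_rpow hNpos]
    have h1 : c * Real.log (Real.log N) * Real.log N = c * LL := by rw [hLL]; ring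
    rw [h1]
    exact mul_le_mul_of_nonneg_right hcc₀ hLL0.le
  set H : ℤ := ⌊X'⌋ with hH
  have hH1 : 1 ≤ H := Int.le_floor.2 (by exact_mod_cast hX1)
  have hHr1 : (1 : ℝ) ≤ H := by exact_mod_cast hH1
  have hHX : (H : ℝ) ≤ X' := Int.floor_le _
  have hlogH : Real.log (((2 * d).factorial : ℝ) * (H : ℝ) ^ (2 * d)) ≤
      (2 * d + 1) * (c₀ * LL) := by
    rw [Real.log_mul (by positivity) (by (clear * - hH1; positivity)), Real.log_pow]
    have h1 : Real.log H ≤ c₀ * LL := (Real.log_le_log (by linarith only [hHr1]) hHX).trans hlogX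
    have h2 : ((2 * d : ℕ) : ℝ) * Real.log H ≤ (2 * d) * (c₀ * LL) := by
      push_cast
      exact mul_le_mul_of_nonneg_left h1 (by (clear * -; positivity))
    linarith only [hLLc₀, h2]
  -- the exceptional set
  have hEl : ∀ l : Fin k, ∃ E : Finset ℤ[X], E.card ≤ 2 * ml l ∧ ∀ F G, Good d H F →
      Good d H G → RelP A θ (κ l) (2 * C * k) (c₁ / k * LL) F G → G ∈ E := by
    intro l
    refine exists_ExcP hd hA2d (hκ l).1 (hκ l).2 (by positivity) hH1 hlogH (hml l)
      (by (clear * - hc₁ hk hL16 hLL1; positivity)) ?_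
    calc (d : ℝ) * ((ml l : ℝ) + 1) * (((ml l : ℝ) + 2) ^ 2 * ((2 * d + 1) * (c₀ * LL)))
        ≤ (d : ℝ) * ((m : ℝ) + 1) * (((m : ℝ) + 2) ^ 2 * ((2 * d + 1) * (c₀ * LL))) := by
          have := hmlm l
          (clear * - this hc₁ hk hL16 hLL1; gcongr)
      _ = ((d * ((m : ℝ) + 1) * (((m : ℝ) + 2) ^ 2 * (2 * d + 1))) * c₀) * LL := by ring
      _ = c₁ / k * LL := by
          congr 1
          rw [hc₀]
          (clear * - hd hk hc₁; field_simp)
  choose El hEl1 hEl2 using hEl
  refine ⟨univ.biUnion El, ?_, ?_⟩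
  · refine card_biUnion_le.trans ?_
    rw [hm]
    exact sum_le_sum fun l _ => hEl1 l
  · intro F hF hFE
    set E : Finset ℤ[X] := univ.biUnion El with hE
    have hgood : ∀ i, Good d H (F i) := by
      intro i
      obtain ⟨h1, h2, h3, h4⟩ := hF i
      refine ⟨h1, h2, h3.trans (le_max_left _ _), fun j => ?_⟩
      rw [hH]
      apply Int.le_floor.2
      have := h4 j
      push_cast
      exact this
    by_contra hcon
    push Not at hcon
    -- the position in `E` is moved to the end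
    have hlast : k - 1 < k := by (clear * - d₀ hk ml c A El F; omega)
    set last : Fin k := ⟨k - 1, hlast⟩ with hlastdef
    obtain ⟨i₀, hi₀⟩ : ∃ i₀ : Fin k, ∀ i, F i ∈ E → i = i₀ := by
      by_cases h : ∃ i, F i ∈ E
      · obtain ⟨i, hi⟩ := h
        refine ⟨i, fun j hj => ?_⟩
        exact card_le_one.1 hFE j (mem_filter.2 ⟨mem_univ _, hj⟩) i
          (mem_filter.2 ⟨mem_univ _, hi⟩)
      · exact ⟨last, fun i hi => absurd ⟨i, hi⟩ h⟩
    set σ : Equiv.Perm (Fin k) := Equiv.swap i₀ last with hσ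
    have hσlast : σ last = i₀ := Equiv.swap_apply_right _ _
    set B : Fin k → Finset ℤ := fun i => fz A (F (σ i)) with hB
    have hBc : ∀ i, N / (2 * d) ≤ ((B i).card : ℝ) := by
      intro i
      have h1 := card_fz (hgood (σ i)).2.1 (hgood (σ i)).2.2.1 hA2d
      have h2 : N ≤ 2 * d * ((B i).card : ℝ) := by
        rw [hN]
        exact_mod_cast h1
      rw [div_le_iff₀ (by (clear * -; positivity))]
      linarith only [h2]
    have hBne : ∀ i, (B i).Nonempty := by
      intro i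
      rw [← card_pos]
      have h1 := hBc i
      have h2 : 0 < N / (2 * d) := by (clear * - hA hc hc0 hcc₁ hcc₀ hce hX hX1 hXpos hlogX hH hH1 hHr1 hHX hlogH hEl2 hF hgood hcon; positivity)
      have h3 : (0 : ℝ) < ((B i).card : ℝ) := by linarith only [h1, h2]
      exact_mod_cast h3
    have hsub : ((mixSet B).card : ℝ) ≤
        ((mixSet (fun i => A.image (fun a => (F i).eval a))).card : ℝ) := by
      apply Nat.cast_le.2
      apply card_le_card
      rw [← mixSet_perm (fun i => A.image (fun a => (F i).eval a)) σ]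
      apply mixSet_mono
      intro i
      exact erase_subset _ _
    have hprod : (N / (2 * d)) ^ k ≤ ∏ l, ((B l).card : ℝ) := by
      have h1 : (N / (2 * d)) ^ k = ∏ _l : Fin k, (N / (2 * d)) := by
        rw [prod_const, card_univ, Fintype.card_fin]
      rw [h1]
      exact prod_le_prod (fun _ _ => by (clear * - hA hc hc0 hcc₁ hcc₀ hce hX hX1 hXpos hlogX hH hH1 hHr1 hHX hlogH hEl2 hF hgood hcon; positivity)) fun l _ => hBc l
    have hlt : ((mixSet B).card : ℝ) < c₁ * ((A.card : ℕ) : ℝ) ^ (-ε') *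
        ∏ l, ((B l).card : ℝ) := by
      refine (hsub.trans_lt hcon).trans_le ?_
      calc c * N ^ ((k : ℝ) - ε) ≤ c₁ / (2 * d) ^ k * N ^ ((k : ℝ) - ε') := by
            apply mul_le_mul hcc₁ _ (by (clear * - hA hc hc0 hcc₁ hcc₀ hce hX hX1 hXpos hlogX hH hH1 hHr1 hHX hlogH hEl2 hF hgood hcon; positivity)) (by (clear * - hc₁; positivity))
            apply Real.rpow_le_rpow_of_exponent_le hN1
            have : ε' ≤ ε := min_le_left _ _
            linarith only [this]
        _ = c₁ * N ^ (-ε') * (N / (2 * d)) ^ k := by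
            rw [show (k : ℝ) - ε' = -ε' + k by ring, Real.rpow_add hNpos, Real.rpow_natCast,
              div_pow]
            ring
        _ ≤ c₁ * N ^ (-ε') * ∏ l, ((B l).card : ℝ) := by
            apply mul_le_mul_of_nonneg_left hprod (by (clear * - hc₁ hA hc hc0 hcc₁ hcc₀ hce hX hX1 hXpos hlogX hH hH1 hHr1 hHX hlogH hEl2 hF hgood hcon; positivity))
    obtain ⟨l, hl0, hl1, hl2⟩ := hnz A.card B hBne (fun i => fz_zero A _)
      (fun i => card_fz_le A _) hlt
    have hWb : 0 < W0b (κ l) B l := by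
      have : 0 < c₁ * LL := by (clear * - hc₁ hL16 hLL1; positivity)
      exact this.trans_le hl2
    have hWb1 : 1 ≤ W0b (κ l) B l := hLLc₁.trans hl2
    -- the largest of the weights
    obtain ⟨l', hl', hmax⟩ : ∃ l' : Fin k, l' < l ∧ W0b (κ l) B l ≤ k * W0 (κ l) (B l') := by
      by_contra hno
      push Not at hno
      have h1 : W0b (κ l) B l ≤ ∑ l' ∈ univ.filter (fun l' : Fin k => l' < l),
          W0b (κ l) B l / k := by
        conv_lhs => unfold W0b
        apply sum_le_sum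
        intro l' hl'
        rw [le_div_iff₀ hk0, mul_comm]
        exact (hno l' (mem_filter.1 hl').2).le
      rw [sum_const, nsmul_eq_mul] at h1
      have h2 : (univ.filter (fun l' : Fin k => l' < l)).card < k := by
        have h3 : univ.filter (fun l' : Fin k => l' < l) ⊂ univ := by
          rw [filter_ssubset]
          exact ⟨l, mem_univ _, lt_irrefl _⟩
        have h4 := card_lt_card h3
        rwa [card_univ, Fintype.card_fin] at h4
      have h3 : ((univ.filter (fun l' : Fin k => l' < l)).card : ℝ) < k := by exact_mod_cast h2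
      have h4 : ((univ.filter (fun l' : Fin k => l' < l)).card : ℝ) * (W0b (κ l) B l / k) <
          k * (W0b (κ l) B l / k) := mul_lt_mul_of_pos_right h3 (by (clear * - hWb hk; positivity))
      have h5 : (k : ℝ) * (W0b (κ l) B l / k) = W0b (κ l) B l := by (clear * - hk hWb; field_simp)
      linarith only [h1, h4, h5]
    have hrel : RelP A θ (κ l) (2 * C * k) (c₁ / k * LL) (F (σ l)) (F (σ l')) := by
      constructor
      · intro T e β hP
        refine (hl1 T e β hP).trans ?_
        calc C * (W0b (κ l) B l + 1) ≤ C * (2 * W0b (κ l) B l) := by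
              apply mul_le_mul_of_nonneg_left _ hC.le
              linarith only [hWb1]
          _ ≤ C * (2 * (k * W0 (κ l) (B l'))) := by
              apply mul_le_mul_of_nonneg_left _ hC.le
              linarith only [hmax]
          _ = 2 * C * k * W0 (κ l) (fz A (F (σ l'))) := by rw [hB]; ring
      · have h1 : c₁ * LL ≤ k * W0 (κ l) (B l') := hl2.trans hmax
        rw [div_mul_eq_mul_div, div_le_iff₀ hk0, mul_comm _ (k : ℝ)]
        exact h1
    have hyE : F (σ l') ∈ E := by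
      rw [hE, mem_biUnion]
      exact ⟨l, mem_univ _, hEl2 l _ _ (hgood _) (hgood _) hrel⟩
    have h1 := hi₀ _ hyE
    rw [← hσlast] at h1
    have h2 := σ.injective h1
    have h3 : l'.val < l.val := hl'
    have h4 := l.isLt
    rw [h2] at h3
    simp only [hlastdef] at h3
    omega

end Pool.Agent.Helper88.NZ
end

/- Helper34.TR.Pf -/
section
set_option autoImplicit false

/-!
MP_120218_co, project TR, general form: the part of an integer free of a set of primes.
-/

open Finset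

namespace Pool.Agent.Helper34.TR

/-- the `P`-part of an integer -/
def ppart (P : Finset ℕ) (g : ℤ) : ℕ := ∏ q ∈ P, q ^ padicValInt q g

/-- the part of the integer `g` free of the primes in `P` -/
def pf (P : Finset ℕ) (g : ℤ) : ℤ := g / (ppart P g : ℤ)

theorem ppart_pos {P : Finset ℕ} (hP : ∀ q ∈ P, q.Prime) (g : ℤ) : 0 < ppart P g :=
  prod_pos fun q hq => pow_pos (hP q hq).pos _

theorem fact_eq {q : ℕ} (hq : q.Prime) (g : ℤ) : padicValInt q g = g.natAbs.factorization q := by
  rw [Nat.factorization_def _ hq]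
  rfl

theorem ppart_fact {P : Finset ℕ} (hP : ∀ q ∈ P, q.Prime) (g : ℤ) (q : ℕ) :
    (ppart P g).factorization q = if q ∈ P then padicValInt q g else 0 := by
  unfold ppart
  rw [Nat.factorization_prod (fun p hp => pow_ne_zero _ (hP p hp).ne_zero), Finset.sum_apply']
  have h1 : ∀ p ∈ P, (p ^ padicValInt p g).factorization q =
      if p = q then padicValInt q g else 0 := by
    intro p hp
    rw [(hP p hp).factorization_pow, Finsupp.single_apply]
    split_ifs with h
    · rw [h]
    · rfl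
  rw [sum_congr rfl h1, sum_ite_eq' P q]

theorem ppart_dvd {P : Finset ℕ} (hP : ∀ q ∈ P, q.Prime) {g : ℤ} (hg : g ≠ 0) :
    (ppart P g : ℤ) ∣ g := by
  rw [Int.natCast_dvd, ← Nat.factorization_le_iff_dvd (ppart_pos hP g).ne'
    (Int.natAbs_ne_zero.2 hg)]
  intro q
  rw [ppart_fact hP]
  split_ifs with h
  · rw [fact_eq (hP q h)]
  · exact Nat.zero_le _

theorem ppart_mul_pf {P : Finset ℕ} (hP : ∀ q ∈ P, q.Prime) {g : ℤ} (hg : g ≠ 0) :
    (ppart P g : ℤ) * pf P g = g := by
  unfold pf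
  exact Int.mul_ediv_cancel' (ppart_dvd hP hg)

theorem pf_ne_zero {P : Finset ℕ} (hP : ∀ q ∈ P, q.Prime) {g : ℤ} (hg : g ≠ 0) : pf P g ≠ 0 := by
  intro h
  have := ppart_mul_pf hP hg
  rw [h, mul_zero] at this
  exact hg this.symm

theorem val_pf {P : Finset ℕ} (hP : ∀ q ∈ P, q.Prime) {g : ℤ} (hg : g ≠ 0) {q : ℕ}
    (hq : q.Prime) : padicValInt q (pf P g) = if q ∈ P then 0 else padicValInt q g := by
  have := Fact.mk hq
  have h1 : padicValInt q g = padicValInt q (ppart P g : ℤ) + padicValInt q (pf P g) := by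
    conv_lhs => rw [← ppart_mul_pf hP hg]
    exact padicValInt.mul (by exact_mod_cast (ppart_pos hP g).ne') (pf_ne_zero hP hg)
  have h2 : padicValInt q (ppart P g : ℤ) = if q ∈ P then padicValInt q g else 0 := by
    rw [fact_eq hq, Int.natAbs_natCast, ppart_fact hP]
  rw [h2] at h1
  split_ifs at h1 ⊢ with h
  · omega
  · omega

theorem sign_pf {P : Finset ℕ} (hP : ∀ q ∈ P, q.Prime) {g : ℤ} (hg : g ≠ 0) :
    Int.sign (pf P g) = Int.sign g := by
  have h1 : Int.sign (ppart P g : ℤ) = 1 :=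
    Int.sign_eq_one_of_pos (by exact_mod_cast ppart_pos hP g)
  conv_rhs => rw [← ppart_mul_pf hP hg, Int.sign_mul, h1, one_mul]

/-- two nonzero integers with the same sign and the same valuations are equal -/
theorem eq_of_val {a b : ℤ} (ha : a ≠ 0) (hb : b ≠ 0) (hs : Int.sign a = Int.sign b)
    (hv : ∀ q : ℕ, q.Prime → padicValInt q a = padicValInt q b) : a = b := by
  have habs : a.natAbs = b.natAbs := by
    apply Nat.eq_of_factorization_eq (Int.natAbs_ne_zero.2 ha) (Int.natAbs_ne_zero.2 hb)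
    intro q
    by_cases hq : q.Prime
    · rw [← fact_eq hq, ← fact_eq hq]
      exact hv q hq
    · rw [Nat.factorization_eq_zero_of_not_prime _ hq,
        Nat.factorization_eq_zero_of_not_prime _ hq]
  rw [← Int.sign_mul_natAbs a, ← Int.sign_mul_natAbs b, hs, habs]

end Pool.Agent.Helper34.TR
end

/- Helper24.TT.H34.TR.Ord -/
section
set_option autoImplicit false

/-!
MP_120218_co, project TR, general form: orders without backward relations, products of sets in
different orders.
-/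

open Finset

namespace Pool.Agent.Helper34.TR

open Pool.Agent.Helper26.TR Pool.Agent.Helper88.NZ

/-- Either at some stage `l` there is a nonempty set in which every element is related to some
element, or there is an order without backward relations. -/
theorem exists_order {k : ℕ} (R : ℕ → Fin k → Fin k → Prop)
    (h : ∀ l < k, ∀ I : Finset (Fin k), I.Nonempty → ∃ i ∈ I, ∀ j ∈ I, ¬ R l i j) :
    ∃ σ : Fin k → Fin k, Function.Injective σ ∧
      ∀ l l' : Fin k, l' < l → ¬ R l (σ l) (σ l') := by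
  classical
  have key : ∀ n : ℕ, n ≤ k → ∀ I : Finset (Fin k), I.card = n →
      ∃ σ : Fin n → Fin k, Function.Injective σ ∧ (∀ l, σ l ∈ I) ∧
        ∀ l l' : Fin n, l' < l → ¬ R l (σ l) (σ l') := by
    intro n
    induction n with
    | zero =>
      intro _ I _
      exact ⟨fun l => l.elim0, fun l => l.elim0, fun l => l.elim0, fun l => l.elim0⟩
    | succ n ih =>
      intro hn I hI
      have hIne : I.Nonempty := card_pos.1 (by omega)
      obtain ⟨i, hi, hiR⟩ := h n (by omega) I hIne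
      obtain ⟨σ, hσinj, hσI, hσR⟩ := ih (by omega) (I.erase i) (by
        rw [card_erase_of_mem hi, hI]; rfl)
      refine ⟨Fin.snoc (α := fun _ => Fin k) σ i, ?_, ?_, ?_⟩
      · intro a b hab
        induction a using Fin.lastCases with
        | last =>
          induction b using Fin.lastCases with
          | last => rfl
          | cast b =>
            rw [Fin.snoc_last, Fin.snoc_castSucc] at hab
            exact absurd hab.symm (ne_of_mem_erase (hσI b))
        | cast a =>
          induction b using Fin.lastCases with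
          | last =>
            rw [Fin.snoc_last, Fin.snoc_castSucc] at hab
            exact absurd hab (ne_of_mem_erase (hσI a))
          | cast b =>
            rw [Fin.snoc_castSucc, Fin.snoc_castSucc] at hab
            rw [hσinj hab]
      · intro l
        induction l using Fin.lastCases with
        | last => rw [Fin.snoc_last]; exact hi
        | cast l => rw [Fin.snoc_castSucc]; exact mem_of_mem_erase (hσI l)
      · intro l l' hl
        induction l using Fin.lastCases with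
        | last =>
          induction l' using Fin.lastCases with
          | last => exact absurd hl (lt_irrefl _)
          | cast l' =>
            rw [Fin.snoc_last, Fin.snoc_castSucc, Fin.val_last]
            exact hiR _ (mem_of_mem_erase (hσI l'))
        | cast l =>
          induction l' using Fin.lastCases with
          | last =>
            exfalso
            have : (Fin.last n : ℕ) < (l.castSucc : ℕ) := hl
            rw [Fin.val_last, Fin.val_castSucc] at this
            have := l.2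
            omega
          | cast l' =>
            rw [Fin.snoc_castSucc, Fin.snoc_castSucc, Fin.val_castSucc]
            exact hσR l l' (by
              have : (l'.castSucc : ℕ) < (l.castSucc : ℕ) := hl
              rw [Fin.val_castSucc, Fin.val_castSucc] at this
              exact this)
  obtain ⟨σ, h1, -, h3⟩ := key k le_rfl univ (by rw [card_univ, Fintype.card_fin])
  exact ⟨σ, h1, h3⟩

/-- products of sets do not depend on the order -/
theorem mixSet_equiv {a b : ℕ} (e : Fin a ≃ Fin b) (A : Fin b → Finset ℤ) :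
    mixSet (fun i => A (e i)) = mixSet A := by
  have hab : a = b := by
    have := Fintype.card_congr e
    rwa [Fintype.card_fin, Fintype.card_fin] at this
  subst hab
  exact mixSet_perm A e

/-- the `k` sets in the order `σ`, followed by `G` -/
def seq {k : ℕ} (A : Fin k → Finset ℤ) (σ : Fin k → Fin k) (G : Finset ℤ) :
    Fin (k + 1) → Finset ℤ :=
  Fin.snoc (α := fun _ => Finset ℤ) (fun l => A (σ l)) G

theorem seq_cast {k : ℕ} (A : Fin k → Finset ℤ) (σ : Fin k → Fin k) (G : Finset ℤ) (l : Fin k) :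
    seq A σ G l.castSucc = A (σ l) := by
  unfold seq
  rw [Fin.snoc_castSucc]

theorem seq_last {k : ℕ} (A : Fin k → Finset ℤ) (σ : Fin k → Fin k) (G : Finset ℤ) :
    seq A σ G (Fin.last k) = G := by
  unfold seq
  rw [Fin.snoc_last]

/-- the permutation `σ` extended by the last element -/
noncomputable def ext {k : ℕ} (σ : Fin k → Fin k) (h : Function.Injective σ) :
    Equiv.Perm (Fin (k + 1)) :=
  Equiv.ofBijective (fun l => Fin.lastCases (motive := fun _ => Fin (k + 1)) (Fin.last k)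
    (fun i => (σ i).castSucc) l) (by
    rw [← Finite.injective_iff_bijective]
    intro a b hab
    induction a using Fin.lastCases with
    | last =>
      induction b using Fin.lastCases with
      | last => rfl
      | cast b =>
        simp only [Fin.lastCases_last, Fin.lastCases_castSucc] at hab
        exact absurd hab.symm (Fin.castSucc_lt_last _).ne
    | cast a =>
      induction b using Fin.lastCases with
      | last =>
        simp only [Fin.lastCases_last, Fin.lastCases_castSucc] at hab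
        exact absurd hab (Fin.castSucc_lt_last _).ne
      | cast b =>
        simp only [Fin.lastCases_castSucc] at hab
        rw [h (Fin.castSucc_injective _ hab)])

theorem mixSet_seq {k : ℕ} (A : Fin k → Finset ℤ) (σ : Fin k → Fin k)
    (h : Function.Injective σ) (G : Finset ℤ) :
    mixSet (seq A σ G) = mixSet (seq A id G) := by
  rw [← mixSet_perm (seq A id G) (ext σ h)]
  congr 1
  funext l
  induction l using Fin.lastCases with
  | last =>
    have : ext σ h (Fin.last k) = Fin.last k := by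
      unfold ext
      simp
    rw [this, seq_last, seq_last]
  | cast l =>
    have : ext σ h l.castSucc = (σ l).castSucc := by
      unfold ext
      simp
    rw [this, seq_cast, seq_cast]
    rfl

end Pool.Agent.Helper34.TR
end
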