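import Pool.Agent.Helper24.TG.G02

/- Helper24.TT.H84.TR.CE -/
section
/-!
# TR-1: conditional entropy, basic facts
-/

set_option autoImplicit false

open Finset

namespace Pool.Agent.Helper84.TR

open Pool.Agent.Helper15.BP

variable {Ω Ω' α β γ δ α' β' : Type*} [Fintype Ω] [Fintype Ω']

theorem CE_eq_sum (w : Ω → ℝ) (f : Ω → α) (g : Ω → β) :
    CE w f g = ∑ o, w o * (Real.log (pr w g (g o)) -
      Real.log (pr w (fun o => (f o, g o)) (f o, g o))) := by
  unfold CE Ent
  rw [← Finset.sum_sub_distrib]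
  refine Finset.sum_congr rfl fun o _ => ?_
  ring

theorem CE_congr {w : Ω → ℝ} {f : Ω → α} {f' : Ω → α'} {g : Ω → β} {g' : Ω → β'}
    (hg : ∀ o o', g o = g o' ↔ g' o = g' o')
    (hf : ∀ o o', g o = g o' → (f o = f o' ↔ f' o = f' o')) : CE w f g = CE w f' g' := by
  unfold CE
  rw [Ent_congr (f := g) (g := g') hg,
    Ent_congr (f := fun o => (f o, g o)) (g := fun o => (f' o, g' o)) ?_]
  intro o o'
  simp only [Prod.mk.injEq]
  constructor
  · rintro ⟨h1, h2⟩
    exact ⟨(hf o o' h2).1 h1, (hg o o').1 h2⟩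
  · rintro ⟨h1, h2⟩
    exact ⟨(hf o o' ((hg o o').2 h2)).2 h1, (hg o o').2 h2⟩

theorem CE_nonneg {w : Ω → ℝ} (hw : IsPr w) (f : Ω → α) (g : Ω → β) : 0 ≤ CE w f g := by
  unfold CE
  rw [sub_nonneg]
  exact Ent_mono hw fun o o' h => (Prod.mk.injEq _ _ _ _ ▸ h).2

/-- chain rule -/
theorem CE_chain (w : Ω → ℝ) (f : Ω → α) (f' : Ω → α') (g : Ω → β) :
    CE w (fun o => (f o, f' o)) g = CE w f' g + CE w f (fun o => (f' o, g o)) := by
  unfold CE
  rw [Ent_congr (f := fun o => ((f o, f' o), g o)) (g := fun o => (f o, (f' o, g o))) ?_]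
  · ring
  · intro o o'
    simp only [Prod.mk.injEq, and_assoc]

/-- conditioning on more -/
theorem CE_anti {w : Ω → ℝ} (hw : IsPr w) (f : Ω → α) {g : Ω → β} {g' : Ω → β'}
    (h : ∀ o o', g o = g o' → g' o = g' o') : CE w f g ≤ CE w f g' := by
  have h1 := Ent_submod hw f g g'
  have h2 : Ent w (fun o => (f o, g o, g' o)) = Ent w (fun o => (f o, g o)) :=
    Ent_congr fun o o' => by
      simp only [Prod.mk.injEq]
      exact ⟨fun hh => ⟨hh.1, hh.2.1⟩, fun hh => ⟨hh.1, hh.2, h o o' hh.2⟩⟩
  have h3 : Ent w (fun o => (g o, g' o)) = Ent w g :=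
    Ent_congr fun o o' => by
      simp only [Prod.mk.injEq]
      exact ⟨fun hh => hh.1, fun hh => ⟨hh, h o o' hh⟩⟩
  unfold CE
  linarith only [h1, h2, h3]

/-- coarser functions -/
theorem CE_mono {w : Ω → ℝ} (hw : IsPr w) {f : Ω → α} {f' : Ω → α'} {g : Ω → β}
    (h : ∀ o o', g o = g o' → f o = f o' → f' o = f' o') : CE w f' g ≤ CE w f g := by
  unfold CE
  have h1 : Ent w (fun o => (f' o, g o)) ≤ Ent w (fun o => (f o, g o)) :=
    Ent_mono hw fun o o' hh => by
      simp only [Prod.mk.injEq] at hh ⊢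
      exact ⟨h o o' hh.2 hh.1, hh.2⟩
  linarith only [h1]

theorem CE_le_Ent {w : Ω → ℝ} (hw : IsPr w) (f : Ω → α) (g : Ω → β) : CE w f g ≤ Ent w f := by
  have h1 := CE_anti hw f (g := g) (g' := fun _ => ()) fun _ _ _ => rfl
  have h2 : CE w f (fun _ => ()) = Ent w f := by
    unfold CE
    rw [Ent_const hw, sub_zero]
    exact Ent_congr fun o o' => by simp
  rw [h2] at h1
  exact h1

theorem CE_pair_le {w : Ω → ℝ} (hw : IsPr w) (f : Ω → α) (f' : Ω → α') (g : Ω → β) :
    CE w (fun o => (f o, f' o)) g ≤ CE w f g + CE w f' g := by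
  rw [CE_chain]
  have h1 := CE_anti hw f (g := fun o => (f' o, g o)) (g' := g) fun o o' hh =>
    (Prod.mk.injEq _ _ _ _ ▸ hh).2
  linarith only [h1]

/-- information on the other factor of a product does not help -/
theorem CE_prod_fst {w : Ω → ℝ} {w' : Ω' → ℝ} (hw : IsPr w) (hw' : IsPr w') (f : Ω → α)
    (g : Ω → β) (g' : Ω' → γ) :
    CE (prodW w w') (fun p => f p.1) (fun p => (g p.1, g' p.2)) = CE w f g := by
  unfold CE
  rw [Ent_prod hw hw' g g',
    Ent_congr (f := fun p : Ω × Ω' => (f p.1, (g p.1, g' p.2)))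
      (g := fun p : Ω × Ω' => ((f p.1, g p.1), g' p.2)) ?_,
    Ent_prod hw hw' (fun o => (f o, g o)) g']
  · ring
  · intro o o'
    simp only [Prod.mk.injEq, and_assoc]

theorem CE_prod_snd {w : Ω → ℝ} {w' : Ω' → ℝ} (hw : IsPr w) (hw' : IsPr w') (f : Ω' → α)
    (g : Ω → β) (g' : Ω' → γ) :
    CE (prodW w w') (fun p => f p.2) (fun p => (g p.1, g' p.2)) = CE w' f g' := by
  unfold CE
  rw [Ent_prod hw hw' g g',
    Ent_congr (f := fun p : Ω × Ω' => (f p.2, (g p.1, g' p.2)))
      (g := fun p : Ω × Ω' => (g p.1, (f p.2, g' p.2))) ?_,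
    Ent_prod hw hw' g (fun o => (f o, g' o))]
  · ring
  · intro o o'
    simp only [Prod.mk.injEq]
    tauto

/-- at most `N` values on every fibre -/
theorem CE_le_log {w : Ω → ℝ} (hw : IsPr w) (f : Ω → α) (g : Ω → β) (N : ℕ)
    (hN : ∀ o, {a : α | ∃ o', g o' = g o ∧ f o' = a}.ncard ≤ N) :
    CE w f g ≤ Real.log N := by
  unfold CE
  have h1 := Ent_le_add_log hw f g N hN
  linarith

end Pool.Agent.Helper84.TR
end

/- Helper24.TT.H84.TR.Mass -/
section
/-!
# TR-4: masses of events, entropy of an event, medians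
-/

set_option autoImplicit false

open Finset

namespace Pool.Agent.Helper84.TR

open Pool.Agent.Helper15.BP

variable {Ω Ω' α β γ δ : Type*} [Fintype Ω] [Fintype Ω']

theorem mass_nonneg {w : Ω → ℝ} (hw : IsPr w) (p : Ω → Prop) : 0 ≤ mass w p := by
  unfold mass
  exact sum_nonneg fun o _ => by split_ifs <;> simp [hw.nonneg]

theorem mass_mono {w : Ω → ℝ} (hw : IsPr w) {p p' : Ω → Prop} (h : ∀ o, p o → p' o) :
    mass w p ≤ mass w p' := by
  unfold mass
  apply sum_le_sum
  intro o _
  by_cases hp : p o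
  · rw [if_pos hp, if_pos (h o hp)]
  · rw [if_neg hp]
    split_ifs <;> simp [hw.nonneg]

theorem mass_le_one {w : Ω → ℝ} (hw : IsPr w) (p : Ω → Prop) : mass w p ≤ 1 := by
  unfold mass
  rw [← hw.sum_one]
  exact sum_le_sum fun o _ => by split_ifs <;> simp [hw.nonneg]

theorem mass_or_le {w : Ω → ℝ} (hw : IsPr w) (p p' : Ω → Prop) :
    mass w (fun o => p o ∨ p' o) ≤ mass w p + mass w p' := by
  unfold mass
  rw [← sum_add_distrib]
  apply sum_le_sum
  intro o _
  have := hw.nonneg o
  by_cases hp : p o <;> by_cases hp' : p' o <;> simp [hp, hp', this]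

theorem mass_not {w : Ω → ℝ} (hw : IsPr w) (p : Ω → Prop) :
    mass w (fun o => ¬ p o) = 1 - mass w p := by
  unfold mass
  rw [eq_sub_iff_add_eq, ← hw.sum_one, ← sum_add_distrib]
  apply sum_congr rfl
  intro o _
  by_cases hp : p o <;> simp [hp]

theorem mass_prod {w : Ω → ℝ} {w' : Ω' → ℝ} (p : Ω → Prop) (p' : Ω' → Prop) :
    mass (prodW w w') (fun o => p o.1 ∧ p' o.2) = mass w p * mass w' p' := by
  unfold mass prodW
  rw [Fintype.sum_prod_type, sum_mul_sum]
  apply sum_congr rfl
  intro o _
  apply sum_congr rfl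
  intro o' _
  by_cases hp : p o <;> by_cases hp' : p' o' <;> simp [hp, hp']

theorem mass_true {w : Ω → ℝ} (hw : IsPr w) : mass w (fun _ => True) = 1 := by
  unfold mass
  rw [← hw.sum_one]
  apply sum_congr rfl
  intro o _
  simp

theorem mass_fst {w : Ω → ℝ} {w' : Ω' → ℝ} (hw' : IsPr w') (p : Ω → Prop) :
    mass (prodW w w') (fun o => p o.1) = mass w p := by
  have h := mass_prod (w := w) (w' := w') p (fun _ => True)
  rw [mass_true hw', mul_one] at h
  rw [← h]
  congr 1
  ext o
  simp

theorem mass_snd {w : Ω → ℝ} {w' : Ω' → ℝ} (hw : IsPr w) (p : Ω' → Prop) :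
    mass (prodW w w') (fun o => p o.2) = mass w' p := by
  have h := mass_prod (w := w) (w' := w') (fun _ => True) p
  rw [mass_true hw, one_mul] at h
  rw [← h]
  congr 1
  ext o
  simp

/-- entropy of an event -/
theorem Ent_event {w : Ω → ℝ} (hw : IsPr w) (J : Ω → Prop) :
    Ent w J = Real.binEntropy (mass w J) := by
  classical
  have h1 : ∀ o, J o → pr w J (J o) = mass w J := by
    intro o ho
    unfold pr mass
    apply sum_congr rfl
    intro x _
    by_cases hx : J x
    · rw [if_pos (by rw [eq_true hx, eq_true ho]), if_pos hx]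
    · rw [if_neg (by rw [eq_false hx, eq_true ho]; simp), if_neg hx]
  have h2 : ∀ o, ¬ J o → pr w J (J o) = 1 - mass w J := by
    intro o ho
    rw [← mass_not hw]
    unfold pr mass
    apply sum_congr rfl
    intro x _
    by_cases hx : J x
    · rw [if_neg (by rw [eq_true hx, eq_false ho]; simp), if_neg (by simpa using hx)]
    · rw [if_pos (by rw [eq_false hx, eq_false ho]), if_pos hx]
  have h3 : ∀ o, w o * (-Real.log (pr w J (J o))) =
      (if J o then w o else 0) * (-Real.log (mass w J)) +
        (if ¬ J o then w o else 0) * (-Real.log (1 - mass w J)) := by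
    intro o
    by_cases ho : J o
    · rw [h1 o ho, if_pos ho, if_neg (by simpa using ho)]
      ring
    · rw [h2 o ho, if_neg ho, if_pos ho]
      ring
  unfold Ent
  rw [sum_congr rfl fun o _ => h3 o, sum_add_distrib, ← sum_mul, ← sum_mul]
  have h4 : ∑ o, (if J o then w o else 0) = mass w J := by
    unfold mass
    apply sum_congr rfl
    intro o _
    congr
  have h5 : ∑ o, (if ¬ J o then w o else 0) = 1 - mass w J := by
    rw [← mass_not hw]
    unfold mass
    apply sum_congr rfl
    intro o _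
    congr
  rw [h4, h5, Real.binEntropy_eq_negMulLog_add_negMulLog_one_sub, Real.negMulLog, Real.negMulLog]
  ring

theorem median {w : Ω → ℝ} (hw : IsPr w) (X : Ω → ℤ) :
    ∃ v : ℤ, mass w (fun o => v + 1 ≤ X o) ≤ 1 / 2 ∧ mass w (fun o => X o ≤ v - 1) ≤ 1 / 2 := by
  classical
  -- bounds for the values of `X`
  obtain ⟨B, hB⟩ : ∃ B : ℤ, ∀ o, -B < X o ∧ X o < B := by
    refine ⟨(∑ o, |X o|) + 1, fun o => ?_⟩
    have h := single_le_sum (f := fun o => |X o|) (fun _ _ => abs_nonneg _) (mem_univ o)
    have h' := abs_le.1 (show |X o| ≤ ∑ o, |X o| from h)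
    constructor <;> (clear * - h'; linarith only [h'])
  have hex : ∃ v : ℤ, mass w (fun o => v + 1 ≤ X o) ≤ 1 / 2 := by
    refine ⟨B, ?_⟩
    have h0 : mass w (fun o => B + 1 ≤ X o) = 0 := by
      unfold mass
      apply sum_eq_zero
      intro o _
      rw [if_neg]
      intro h
      (clear * - hB h; linarith only [(hB o).2, h])
    rw [h0]
    norm_num
  have hbd : ∃ b : ℤ, ∀ z : ℤ, mass w (fun o => z + 1 ≤ X o) ≤ 1 / 2 → b ≤ z := by
    refine ⟨-B, fun z hz => ?_⟩
    by_contra hlt
    push Not at hlt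
    have h1 : mass w (fun o => z + 1 ≤ X o) = 1 := by
      rw [← mass_true hw]
      unfold mass
      apply sum_congr rfl
      intro o _
      rw [if_pos (by (clear * - hB hlt; linarith only [(hB o).1, hlt])), if_pos trivial]
    rw [h1] at hz
    norm_num at hz
  obtain ⟨v, hv, hmin⟩ := Int.exists_least_of_bdd hbd hex
  refine ⟨v, hv, ?_⟩
  by_contra hlt
  push Not at hlt
  have h2 : mass w (fun o => X o ≤ v - 1) = 1 - mass w (fun o => v ≤ X o) := by
    rw [← mass_not hw]
    congr 1
    ext o
    constructor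
    · intro h h'; (clear * - h h'; linarith only [h, h'])
    · intro h
      have := not_le.1 h
      linarith only [this]
  have h3 : mass w (fun o => (v - 1) + 1 ≤ X o) ≤ 1 / 2 := by
    have h4 : mass w (fun o => (v - 1) + 1 ≤ X o) = mass w (fun o => v ≤ X o) := by
      congr 1
      ext o
      rw [sub_add_cancel]
    rw [h4]
    rw [h2] at hlt
    (clear * - hlt; linarith only [hlt])
  have := hmin (v - 1) h3
  (clear * - this; linarith only [this])

end Pool.Agent.Helper84.TR
end

/- Helper24.TT.H84.TR.Event -/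
section
/-!
# TR-7: conditional entropy of an event given an event
-/

set_option autoImplicit false

open Finset

namespace Pool.Agent.Helper84.TR

open Pool.Agent.Helper15.BP

variable {Ω Ω' α β γ δ : Type*} [Fintype Ω] [Fintype Ω']

private theorem ev_mass_congr (w : Ω → ℝ) {p q : Ω → Prop} (h : ∀ o, p o ↔ q o) :
    mass w p = mass w q := by
  have : p = q := funext fun o => propext (h o)
  rw [this]

private theorem ev_mass_nonneg {w : Ω → ℝ} (hw : IsPr w) (p : Ω → Prop) : 0 ≤ mass w p := by
  classical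
  unfold mass
  apply sum_nonneg
  intro o _
  split_ifs
  · exact hw.1 o
  · exact le_rfl

private theorem ev_pr_pair (w : Ω → ℝ) (J D : Ω → Prop) (x y : Prop) :
    pr w (fun o => (J o, D o)) (x, y) = mass w (fun o => (J o ↔ x) ∧ (D o ↔ y)) := by
  classical
  unfold pr mass
  apply sum_congr rfl
  intro o _
  congr 1
  simp [Prod.ext_iff]

private theorem ev_pr_one (w : Ω → ℝ) (D : Ω → Prop) (y : Prop) :
    pr w D y = mass w (fun o => (D o ↔ y)) := by
  classical
  unfold pr mass
  apply sum_congr rfl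
  intro o _
  congr 1
  simp

private theorem ev_split (w : Ω → ℝ) (J D : Ω → Prop) :
    mass w D = mass w (fun o => J o ∧ D o) + mass w (fun o => ¬ J o ∧ D o) := by
  classical
  unfold mass
  rw [← sum_add_distrib]
  apply sum_congr rfl
  intro o _
  by_cases hJ : J o <;> by_cases hD : D o <;> simp [hJ, hD]

private theorem ev_phi {x y : ℝ} (hx : 0 ≤ x) (hy : 0 ≤ y) :
    phi x y = x * (Real.log (x + y) - Real.log x) + y * (Real.log (x + y) - Real.log y) := by
  unfold phi
  rcases hx.eq_or_lt with h | h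
  · rcases hy.eq_or_lt with h' | h'
    · simp [← h, ← h']
    · rw [Real.log_div (by (clear * - hx h'; linarith)) h'.ne', ← h]
      simp
  · rcases hy.eq_or_lt with h' | h'
    · rw [Real.log_div (by linarith) h.ne', ← h']
      simp
    · rw [Real.log_div (by (clear * - h h'; linarith)) h.ne', Real.log_div (by linarith) h'.ne']

theorem CE_event {w : Ω → ℝ} (hw : IsPr w) (J D : Ω → Prop) :
    CE w J D = phi (mass w (fun o => J o ∧ ¬ D o)) (mass w (fun o => ¬ J o ∧ ¬ D o)) +
      phi (mass w (fun o => J o ∧ D o)) (mass w (fun o => ¬ J o ∧ D o)) := by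
  classical
  rw [ev_phi (ev_mass_nonneg hw _) (ev_mass_nonneg hw _),
    ev_phi (ev_mass_nonneg hw _) (ev_mass_nonneg hw _)]
  have h1 := ev_split w J (fun o => ¬ D o)
  have h2 := ev_split w J D
  rw [← h1, ← h2]
  set a := mass w (fun o => J o ∧ ¬ D o) with ha
  set b := mass w (fun o => ¬ J o ∧ ¬ D o) with hb
  set c := mass w (fun o => J o ∧ D o) with hc
  set d := mass w (fun o => ¬ J o ∧ D o) with hd
  set e := mass w (fun o => ¬ D o) with he
  set g := mass w D with hg
  have key : ∀ o, w o * (-Real.log (pr w (fun o => (J o, D o)) (J o, D o))) -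
      w o * (-Real.log (pr w D (D o))) =
      (if J o ∧ ¬ D o then w o else 0) * (Real.log e - Real.log a) +
      (if ¬ J o ∧ ¬ D o then w o else 0) * (Real.log e - Real.log b) +
      ((if J o ∧ D o then w o else 0) * (Real.log g - Real.log c) +
      (if ¬ J o ∧ D o then w o else 0) * (Real.log g - Real.log d)) := by
    intro o
    rw [ev_pr_pair, ev_pr_one]
    by_cases hJ : J o <;> by_cases hD : D o
    · have e1 : mass w (fun o' => (J o' ↔ J o) ∧ (D o' ↔ D o)) = c :=
        ev_mass_congr w (by intro o'; simp [hJ, hD])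
      have e2 : mass w (fun o' => (D o' ↔ D o)) = g := ev_mass_congr w (by intro o'; simp [hD])
      rw [e1, e2]
      simp only [hJ, hD, not_true_eq_false, and_false, and_self, if_true, if_false, and_true]
      ring
    · have e1 : mass w (fun o' => (J o' ↔ J o) ∧ (D o' ↔ D o)) = a :=
        ev_mass_congr w (by intro o'; simp [hJ, hD])
      have e2 : mass w (fun o' => (D o' ↔ D o)) = e := ev_mass_congr w (by intro o'; simp [hD])
      rw [e1, e2]
      simp only [hJ, hD, not_true_eq_false, not_false_eq_true, and_false, and_self, if_true,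
        if_false, and_true]
      ring
    · have e1 : mass w (fun o' => (J o' ↔ J o) ∧ (D o' ↔ D o)) = d :=
        ev_mass_congr w (by intro o'; simp [hJ, hD])
      have e2 : mass w (fun o' => (D o' ↔ D o)) = g := ev_mass_congr w (by intro o'; simp [hD])
      rw [e1, e2]
      simp only [hJ, hD, not_true_eq_false, not_false_eq_true, and_false, and_self, if_true,
        if_false, and_true, false_and]
      ring
    · have e1 : mass w (fun o' => (J o' ↔ J o) ∧ (D o' ↔ D o)) = b :=
        ev_mass_congr w (by intro o'; simp [hJ, hD])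
      have e2 : mass w (fun o' => (D o' ↔ D o)) = e := ev_mass_congr w (by intro o'; simp [hD])
      rw [e1, e2]
      simp only [hJ, hD, not_true_eq_false, not_false_eq_true, and_false, and_self, if_true,
        if_false, and_true, false_and]
      ring
  have hs : CE w J D = ∑ o, (w o * (-Real.log (pr w (fun o => (J o, D o)) (J o, D o))) -
      w o * (-Real.log (pr w D (D o)))) := by
    unfold CE Ent
    rw [sum_sub_distrib]
  rw [hs, sum_congr rfl (fun o _ => key o), sum_add_distrib, sum_add_distrib, sum_add_distrib,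
    ← sum_mul, ← sum_mul, ← sum_mul, ← sum_mul]
  have m1 : ∑ o, (if J o ∧ ¬ D o then w o else 0) = a := by
    rw [ha]; unfold mass; exact sum_congr rfl fun o _ => by congr
  have m2 : ∑ o, (if ¬ J o ∧ ¬ D o then w o else 0) = b := by
    rw [hb]; unfold mass; exact sum_congr rfl fun o _ => by congr
  have m3 : ∑ o, (if J o ∧ D o then w o else 0) = c := by
    rw [hc]; unfold mass; exact sum_congr rfl fun o _ => by congr
  have m4 : ∑ o, (if ¬ J o ∧ D o then w o else 0) = d := by
    rw [hd]; unfold mass; exact sum_congr rfl fun o _ => by congr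
  rw [m1, m2, m3, m4]

end Pool.Agent.Helper84.TR
end

/- Helper24.TT.H84.TR.Fib -/
section
/-!
# TR-2: decomposition along the fibres of a function
-/

set_option autoImplicit false

open Finset

namespace Pool.Agent.Helper84.TR

open Pool.Agent.Helper15.BP

variable {Ω Ω' α β γ δ : Type*} [Fintype Ω] [Fintype Ω']

private theorem Fib_cw_of {w : Ω → ℝ} {A : Ω → α} {a : α} {o : Ω} (h : A o = a) :
    cw w A a o = w o / pr w A a := by
  unfold cw
  rw [if_pos h]

private theorem Fib_cw_of_not {w : Ω → ℝ} {A : Ω → α} {a : α} {o : Ω} (h : A o ≠ a) :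
    cw w A a o = 0 := by
  unfold cw
  rw [if_neg h]

private theorem Fib_pr_cw (w : Ω → ℝ) (A : Ω → α) (a : α) (f : Ω → β) (b : β) :
    pr (cw w A a) f b = pr w (fun o => (f o, A o)) (b, a) / pr w A a := by
  classical
  have h1 : pr (cw w A a) f b = ∑ o, if f o = b then cw w A a o else 0 := by
    unfold pr
    exact sum_congr rfl fun o _ => by split_ifs <;> rfl
  have h2 : pr w (fun o => (f o, A o)) (b, a) = ∑ o, if (f o, A o) = (b, a) then w o else 0 := by
    unfold pr
    exact sum_congr rfl fun o _ => by split_ifs <;> rfl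
  rw [h1, h2, sum_div]
  apply sum_congr rfl
  intro o _
  by_cases hf : f o = b
  · by_cases hA : A o = a
    · rw [if_pos hf, if_pos (by rw [hf, hA]), Fib_cw_of hA]
    · rw [if_pos hf, if_neg (fun h => hA (congrArg Prod.snd h)), Fib_cw_of_not hA, zero_div]
  · rw [if_neg hf, if_neg (fun h => hf (congrArg Prod.fst h)), zero_div]

private theorem Fib_zero {w : Ω → ℝ} (hw : IsPr w) {A : Ω → α} {a : α} (ha : pr w A a = 0)
    {o : Ω} (h : A o = a) : w o = 0 := by
  have h1 := le_pr hw A o
  rw [h, ha] at h1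
  exact le_antisymm h1 (hw.nonneg o)

private theorem Fib_sum [DecidableEq α] (A : Ω → α) (F : Ω → ℝ) :
    ∑ a ∈ univ.image A, ∑ o, (if A o = a then F o else 0) = ∑ o, F o := by
  rw [sum_comm]
  apply sum_congr rfl
  intro o _
  rw [sum_ite_eq, if_pos (mem_image_of_mem A (mem_univ o))]

/-- a weighted sum over the fibre -/
private theorem Fib_mul {w : Ω → ℝ} (hw : IsPr w) [DecidableEq α] (A : Ω → α) (a : α) (G : Ω → ℝ) :
    pr w A a * ∑ o, cw w A a o * G o = ∑ o, (if A o = a then w o * G o else 0) := by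
  rw [mul_sum]
  apply sum_congr rfl
  intro o _
  by_cases h : A o = a
  · rw [if_pos h, Fib_cw_of h]
    by_cases hp : pr w A a = 0
    · rw [Fib_zero hw hp h]
      simp
    · field_simp
  · rw [if_neg h, Fib_cw_of_not h]
    simp

theorem cw_isPr {w : Ω → ℝ} (hw : IsPr w) (A : Ω → α) (a : α) (ha : pr w A a ≠ 0) :
    IsPr (cw w A a) := by
  classical
  constructor
  · intro o
    by_cases h : A o = a
    · rw [Fib_cw_of h]
      exact div_nonneg (hw.nonneg o) (pr_nonneg hw A a)
    · rw [Fib_cw_of_not h]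
  · have h1 := Fib_mul hw A a (fun _ => 1)
    simp only [mul_one] at h1
    have h2 : ∑ o, (if A o = a then w o else 0) = pr w A a := by
      unfold pr
      exact sum_congr rfl fun o _ => by split_ifs <;> rfl
    rw [h2] at h1
    exact mul_left_cancel₀ ha (by rw [h1, mul_one])

theorem CE_fib [DecidableEq α] {w : Ω → ℝ} (hw : IsPr w) (f : Ω → β) (g : Ω → γ) (A : Ω → α) :
    CE w f (fun o => (g o, A o)) = ∑ a ∈ univ.image A, pr w A a * CE (cw w A a) f g := by
  rw [CE_eq_sum, ← Fib_sum A]
  apply sum_congr rfl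
  intro a _
  rw [CE_eq_sum, Fib_mul hw A a]
  apply sum_congr rfl
  intro o _
  by_cases h : A o = a
  · rw [if_pos h, if_pos h]
    rcases (hw.nonneg o).eq_or_lt with h0 | h0
    · rw [← h0, zero_mul, zero_mul]
    · congr 1
      have hp : 0 < pr w A a := by
        have := pr_pos hw A h0
        rwa [h] at this
      have h1 : 0 < pr w (fun o => (g o, A o)) (g o, a) := by
        have := pr_pos hw (fun o => (g o, A o)) h0
        simp only [h] at this
        exact this
      have h2 : 0 < pr w (fun o => ((f o, g o), A o)) ((f o, g o), a) := by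
        have := pr_pos hw (fun o => ((f o, g o), A o)) h0
        simp only [h] at this
        exact this
      have h3 : pr w (fun o => (f o, (g o, A o))) (f o, (g o, A o)) =
          pr w (fun o => ((f o, g o), A o)) ((f o, g o), a) := by
        have h4 := pr_congr (w := w) (f := fun o => (f o, (g o, A o)))
          (g := fun o => ((f o, g o), A o)) (fun o o' => by
            simp only [Prod.mk.injEq]
            tauto) o
        simp only [h] at h4 ⊢
        exact h4
      rw [Fib_pr_cw, Fib_pr_cw, Real.log_div h1.ne' hp.ne', Real.log_div h2.ne' hp.ne', h3, h]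
      ring
  · rw [if_neg h, if_neg h]

theorem Ent_fib [DecidableEq α] {w : Ω → ℝ} (hw : IsPr w) (f : Ω → β) (A : Ω → α) :
    CE w f A = ∑ a ∈ univ.image A, pr w A a * Ent (cw w A a) f := by
  have h1 : CE w f A = CE w f (fun o => ((), A o)) := by
    apply CE_congr
    · intro o o'
      simp
    · intro o o' _
      exact Iff.rfl
  rw [h1, CE_fib hw]
  apply sum_congr rfl
  intro a _
  by_cases ha : pr w A a = 0
  · rw [ha, zero_mul, zero_mul]
  · congr 1
    have hc := cw_isPr hw A a ha
    unfold CE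
    have h2 : Ent (cw w A a) (fun _ : Ω => ()) = 0 := by
      unfold Ent
      have h3 : pr (cw w A a) (fun _ : Ω => ()) () = 1 := by
        unfold pr
        rw [← hc.sum_one]
        exact sum_congr rfl fun o _ => by rw [if_pos rfl]
      apply sum_eq_zero
      intro o _
      rw [h3, Real.log_one, neg_zero, mul_zero]
    rw [h2, sub_zero]
    apply Ent_congr
    intro o o'
    simp

theorem mass_fib [DecidableEq α] {w : Ω → ℝ} (hw : IsPr w) (p : Ω → Prop) (A : Ω → α) :
    mass w p = ∑ a ∈ univ.image A, pr w A a * mass (cw w A a) p := by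
  classical
  have h1 : ∀ v : Ω → ℝ, mass v p = ∑ o, v o * (if p o then 1 else 0) := by
    intro v
    unfold mass
    apply sum_congr rfl
    intro o _
    by_cases h : p o
    · rw [if_pos h, if_pos h, mul_one]
    · rw [if_neg h, if_neg h, mul_zero]
  rw [h1 w, ← Fib_sum A]
  apply sum_congr rfl
  intro a _
  rw [h1, Fib_mul hw A a]

theorem sum_pr_one [DecidableEq α] {w : Ω → ℝ} (hw : IsPr w) (A : Ω → α) :
    ∑ a ∈ univ.image A, pr w A a = 1 := by
  have h := sum_w_comp w A (fun _ => (1 : ℝ))
  simp only [mul_one] at h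
  rw [← h, hw.sum_one]

theorem cw_prod (w : Ω → ℝ) (w' : Ω' → ℝ) (A : Ω → α) (B : Ω' → β) (a : α) (b : β) :
    cw (prodW w w') (fun p => (A p.1, B p.2)) (a, b) = prodW (cw w A a) (cw w' B b) := by
  funext p
  unfold prodW
  by_cases hA : A p.1 = a
  · by_cases hB : B p.2 = b
    · rw [Fib_cw_of hA, Fib_cw_of hB, Fib_cw_of (by rw [hA, hB])]
      have h1 : pr (fun p : Ω × Ω' => w p.1 * w' p.2) (fun p => (A p.1, B p.2)) (a, b) =
          pr w A a * pr w' B b := pr_prod w w' A B a b
      rw [h1, mul_div_mul_comm]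
    · rw [Fib_cw_of_not hB, mul_zero, Fib_cw_of_not (fun h => hB (congrArg Prod.snd h))]
  · rw [Fib_cw_of_not hA, zero_mul, Fib_cw_of_not (fun h => hA (congrArg Prod.fst h))]

end Pool.Agent.Helper84.TR
end
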