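import Pool.Agent.Helper24.TG.G02
import Pool.Agent.Helper24.TG.G05
import Pool.Agent.Helper24.TG.G06

/- Helper24.TT.H84.TR.Test -/
section
/-!
# TR-8: the test `X + Z ≥ v + 2 m - 1` for the event `u ≤ Z`, `m = ⌈u / 4⌉`

`H(1[Z ≥ u] | S) ≤ H(J | D)`, `J = (u ≤ Z)`, `D = (v + 2 m - 1 ≤ S)`;
`CE w J D = phi (P(J, ¬D)) (P(¬J, ¬D)) + phi (P(J, D)) (P(¬J, D))`;
`J, ¬D` force `Z ≥ u` and `X ≤ v - m`; `¬J, D` force `Z ≥ m` or `X ≥ v + m` (`3 m ≤ u + 2`).
-/

set_option autoImplicit false

open Finset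

namespace Pool.Agent.Helper84.TR

open Pool.Agent.Helper15.BP

variable {Ω Ω' α β γ δ : Type*} [Fintype Ω] [Fintype Ω']

theorem test {w : Ω → ℝ} {w' : Ω' → ℝ} (hw : IsPr w) (hw' : IsPr w') (X : Ω → ℤ) (Z : Ω' → ℤ)
    (v : ℤ) (u m : ℕ) (hu : 1 ≤ u) (hm : m = (u + 3) / 4) :
    CE (prodW w w') (fun p => ((u : ℤ) ≤ Z p.2)) (fun p => X p.1 + Z p.2) ≤
      phi (mass w' (fun o => (u : ℤ) ≤ Z o) * mass w (fun o => X o ≤ v - m)) 1 +
      phi (mass w' (fun o => (u : ℤ) ≤ Z o))
        (mass w' (fun o => (m : ℤ) ≤ Z o) + mass w (fun o => v + m ≤ X o)) := by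
  have hW : IsPr (prodW w w') := hw.prod hw'
  have h3 : 3 * (m : ℤ) ≤ (u : ℤ) + 2 := by omega
  have h1 : CE (prodW w w') (fun p => ((u : ℤ) ≤ Z p.2)) (fun p => X p.1 + Z p.2) ≤
      CE (prodW w w') (fun p => ((u : ℤ) ≤ Z p.2)) (fun p => v + 2 * m - 1 ≤ X p.1 + Z p.2) :=
    CE_anti hW _ (fun o o' h => by
      have h' : X o.1 + Z o.2 = X o'.1 + Z o'.2 := h
      show (v + 2 * (m : ℤ) - 1 ≤ X o.1 + Z o.2) = (v + 2 * (m : ℤ) - 1 ≤ X o'.1 + Z o'.2)
      rw [h'])
  refine h1.trans ?_
  rw [CE_event hW]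
  refine add_le_add (phi_mono (mass_nonneg hW _) ?_ (mass_nonneg hW _) (mass_le_one hW _))
    (phi_mono (mass_nonneg hW _) ?_ (mass_nonneg hW _) ?_)
  · rw [mul_comm (mass w' _) (mass w _), ← mass_prod (fun o => X o ≤ v - m) (fun o => (u : ℤ) ≤ Z o)]
    refine mass_mono hW (fun o h => ?_)
    obtain ⟨ha, hb⟩ := h
    exact ⟨by omega, ha⟩
  · rw [← mass_snd (w := w) (w' := w') hw (fun o => (u : ℤ) ≤ Z o)]
    exact mass_mono hW (fun o h => h.1)
  · rw [← mass_snd (w := w) (w' := w') hw (fun o => (m : ℤ) ≤ Z o),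
      ← mass_fst (w := w) (w' := w') hw' (fun o => v + m ≤ X o)]
    refine (mass_mono hW (fun o h => ?_)).trans (mass_or_le hW _ _)
    obtain ⟨ha, hb⟩ := h
    by_contra hc
    have hc1 : ¬ ((m : ℤ) ≤ Z o.2) := fun h => hc (Or.inl h)
    have hc2 : ¬ (v + (m : ℤ) ≤ X o.1) := fun h => hc (Or.inr h)
    omega

end Pool.Agent.Helper84.TR
end

/- Helper24.TT.H84.TR.Thr -/
section
/-!
# TR-5: thresholds seen by the dithered labels

`lb U t x ≥ (v + r + t) / U` iff `x ≥ v + r` when `U ∣ v + r + t`; `r ↦ t = (-(v + r)) mod U` is a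
bijection of `range U`.  `P (X ≤ v - r) = 1 - P (X ≥ v - r + 1)`.
-/

set_option autoImplicit false

open Finset

namespace Pool.Agent.Helper84.TR

open Pool.Agent.Helper15.BP

variable {Ω Ω' α β γ δ : Type*} [Fintype Ω] [Fintype Ω']

/-- the dither which sees the threshold `v + r` -/
private def thT (U : ℕ) (v : ℤ) (r : ℕ) : ℕ := ((-(v + r)) % (U : ℤ)).toNat

private theorem thT_cast {U : ℕ} (hU : 0 < U) (v : ℤ) (r : ℕ) :
    ((thT U v r : ℕ) : ℤ) = (-(v + r)) % (U : ℤ) := by
  unfold thT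
  exact Int.toNat_of_nonneg (Int.emod_nonneg _ (by omega))

private theorem thT_lt {U : ℕ} (hU : 0 < U) (v : ℤ) (r : ℕ) : thT U v r < U := by
  have h1 := thT_cast hU v r
  have h2 : (-(v + r)) % (U : ℤ) < (U : ℤ) := Int.emod_lt_of_pos _ (by exact_mod_cast hU)
  rw [← h1] at h2
  exact_mod_cast h2

private theorem thT_dvd {U : ℕ} (hU : 0 < U) (v : ℤ) (r : ℕ) :
    v + r + (thT U v r : ℤ) = (-((-(v + r)) / (U : ℤ))) * (U : ℤ) := by
  rw [thT_cast hU, Int.emod_def]
  ring

private theorem thT_event {U : ℕ} (hU : 0 < U) (v : ℤ) (r : ℕ) (x : ℤ) :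
    v + r ≤ x ↔ -((-(v + r)) / (U : ℤ)) ≤ lb U (thT U v r) x := by
  unfold lb
  rw [Int.le_ediv_iff_mul_le (by exact_mod_cast hU), ← thT_dvd hU]
  constructor
  · intro h; linarith only [h]
  · intro h; (clear * - h; linarith only [h])

private theorem thT_inj {U : ℕ} (hU : 0 < U) (v : ℤ) :
    Set.InjOn (thT U v) (range U : Finset ℕ) := by
  intro r hr r' hr' h
  rw [mem_coe, mem_range] at hr hr'
  have h1 := thT_dvd hU v r
  have h2 := thT_dvd hU v r'
  rw [h] at h1
  have h3 : (r : ℤ) - r' = ((-((-(v + r)) / (U : ℤ))) - (-((-(v + r')) / (U : ℤ)))) * (U : ℤ) := by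
    rw [sub_mul, ← h1, ← h2]
    ring
  have h4 : (U : ℤ) ∣ (r : ℤ) - r' := Dvd.intro_left _ h3.symm
  have h5 : |(r : ℤ) - r'| < (U : ℤ) := by
    rw [abs_lt]
    constructor
    · have : (r' : ℤ) < U := by exact_mod_cast hr'
      have : (0 : ℤ) ≤ r := Int.natCast_nonneg r
      linarith only [hr']
    · have : (r : ℤ) < U := by exact_mod_cast hr
      have : (0 : ℤ) ≤ r' := Int.natCast_nonneg r'
      (clear * - hr; linarith only [hr])
  have h6 := Int.eq_zero_of_abs_lt_dvd h4 h5
  omega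

/-- the thresholds `v, v + 1, .., v + U - 1` are all seen by the labels -/
theorem thr {w : Ω → ℝ} (hw : IsPr w) (U : ℕ) (hU : 0 < U) (X : Ω → ℤ) (v : ℤ) :
    ∑ r ∈ range U, Real.binEntropy (mass w (fun o => v + r ≤ X o)) ≤
      ∑ t ∈ range U, Ent w (fun o => lb U t (X o)) := by
  have h1 : ∀ r ∈ range U, Real.binEntropy (mass w (fun o => v + r ≤ X o)) ≤
      Ent w (fun o => lb U (thT U v r) (X o)) := by
    intro r _
    rw [← Ent_event hw]
    apply Ent_mono hw
    intro o o' h
    have h' : lb U (thT U v r) (X o) = lb U (thT U v r) (X o') := h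
    apply propext
    rw [thT_event hU v r (X o), thT_event hU v r (X o'), h']
  have h2 : ∑ r ∈ range U, Ent w (fun o => lb U (thT U v r) (X o)) =
      ∑ t ∈ (range U).image (thT U v), Ent w (fun o => lb U t (X o)) :=
    (sum_image (f := fun t : ℕ => Ent w (fun o => lb U t (X o))) (thT_inj hU v)).symm
  refine (sum_le_sum h1).trans ?_
  rw [h2]
  apply sum_le_sum_of_subset_of_nonneg
  · intro t ht
    rw [mem_image] at ht
    obtain ⟨r, _, rfl⟩ := ht
    exact mem_range.2 (thT_lt hU v r)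
  · intro t _ _
    exact Ent_nonneg hw _

theorem thr_low {w : Ω → ℝ} (hw : IsPr w) (U : ℕ) (hU : 0 < U) (X : Ω → ℤ) (v : ℤ) :
    ∑ r ∈ range U, Real.binEntropy (mass w (fun o => X o ≤ v - r)) ≤
      ∑ t ∈ range U, Ent w (fun o => lb U t (X o)) := by
  refine le_trans (le_of_eq ?_) (thr hw U hU X (v - U + 2))
  rw [← sum_range_reflect (fun r : ℕ => Real.binEntropy
    (mass w (fun o => (v - U + 2) + (r : ℤ) ≤ X o))) U]
  apply sum_congr rfl
  intro r hr
  rw [mem_range] at hr
  rw [← Real.binEntropy_one_sub, ← mass_not hw]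
  have hc : ((U - 1 - r : ℕ) : ℤ) = (U : ℤ) - 1 - r := by omega
  rw [hc]
  have h : (fun o => ¬ X o ≤ v - r) = (fun o => v - U + 2 + ((U : ℤ) - 1 - r) ≤ X o) := by
    funext o
    apply propext
    constructor
    · intro h'
      have := not_le.1 h'
      omega
    · intro h'
      rw [not_le]
      omega
  rw [h]

end Pool.Agent.Helper84.TR
end

/- Helper24.TT.H84.TR.ClTest -/
section
/-!
# TR-9: the test part of the column lemma, summed over the thresholds

`u = U - t` runs through `1 .. U`.  `u ≤ 4 lam`: `CE ≤ log 2 ≤ 1`.  `u > 4 lam`, `m = ⌈u / 4⌉ > lam`: `test`,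
`phi_num` (a small parameter `η/100`), `mass (m ≤ Z) ≤ η binEntropy ..`; each `m ∈ 1 .. U` occurs at most 4
times; `thr`, `thr_low` (base points `v + 1`, `v - 1`, and `1` for `Z`).
-/

set_option autoImplicit false

open Finset

namespace Pool.Agent.Helper84.TR

open Pool.Agent.Helper15.BP

/-- each value of `r / 4` occurs at most four times -/
private theorem sum_div_four (U : ℕ) (g : ℕ → ℝ) (hg : ∀ j, 0 ≤ g j) :
    ∑ r ∈ range U, g (r / 4) ≤ 4 * ∑ j ∈ range U, g j := by
  have hmap : ∀ r ∈ range U, r / 4 ∈ range U := by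
    intro r hr
    rw [mem_range] at hr ⊢
    omega
  rw [← sum_fiberwise_of_maps_to hmap, mul_sum]
  refine sum_le_sum ?_
  intro j _
  have h1 : ∑ r ∈ (range U).filter (fun r => r / 4 = j), g (r / 4) =
      (((range U).filter (fun r => r / 4 = j)).card : ℝ) * g j := by
    rw [← nsmul_eq_mul, ← sum_const]
    refine sum_congr rfl ?_
    intro r hr
    rw [(mem_filter.mp hr).2]
  rw [h1]
  have h2 : ((range U).filter (fun r => r / 4 = j)).card ≤ 4 := by
    calc ((range U).filter (fun r => r / 4 = j)).card ≤ (Ico (4 * j) (4 * j + 4)).card := by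
          refine card_le_card ?_
          intro r hr
          have := (mem_filter.mp hr).2
          rw [mem_Ico]
          omega
      _ = 4 := by simp
  have h3 : (((range U).filter (fun r => r / 4 = j)).card : ℝ) ≤ 4 := by exact_mod_cast h2
  exact mul_le_mul_of_nonneg_right h3 (hg j)

/-- the small thresholds -/
private theorem sum_small (U n : ℕ) :
    ∑ r ∈ range U, (if r + 1 ≤ n then (1 : ℝ) else 0) ≤ n := by
  rw [← sum_filter, sum_const, nsmul_eq_mul, mul_one]
  have : ((range U).filter (fun r => r + 1 ≤ n)).card ≤ n := by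
    calc ((range U).filter (fun r => r + 1 ≤ n)).card ≤ (range n).card := by
          refine card_le_card ?_
          intro r hr
          have := (mem_filter.mp hr).2
          rw [mem_range]
          omega
      _ = n := card_range n
  exact_mod_cast this

/-- reversal of the order of summation -/
private theorem sum_rev (U : ℕ) (g : ℕ → ℝ) :
    ∑ t ∈ range U, g (U - t) = ∑ r ∈ range U, g (r + 1) := by
  rw [← sum_range_reflect]
  refine sum_congr rfl ?_
  intro t ht
  rw [mem_range] at ht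
  congr 1
  omega

/-- `H(1[Z ≥ u] | X + Z)` summed over `u ∈ (4 lam, U]`; here `u = U - t`. -/
theorem cl_test (η : ℝ) (hη : 0 < η) : ∃ σ : ℝ, 0 < σ ∧ σ ≤ 1 / 2 ∧
    ∀ {Ω Ω' : Type} [Fintype Ω] [Fintype Ω'] (w : Ω → ℝ) (w' : Ω' → ℝ), IsPr w → IsPr w' →
      ∀ (X : Ω → ℤ) (Z : Ω' → ℤ) (U lam : ℕ), 0 < U → (∀ o, 0 ≤ Z o) →
      mass w' (fun o => (lam : ℤ) < Z o) ≤ σ →
      ∑ t ∈ range U, CE (prodW w w') (fun p => ((U : ℤ) - t ≤ Z p.2)) (fun p => X p.1 + Z p.2) ≤
        η * (∑ t ∈ range U, Ent w (fun o => lb U t (X o)) +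
          ∑ t ∈ range U, Ent w' (fun o => lb U t (Z o))) + 4 * lam := by
  obtain ⟨σ, hσ0, hσ1, hb, hphi⟩ := phi_num (η / 21) (by positivity)
  refine ⟨σ, hσ0, hσ1, ?_⟩
  intro Ω Ω' _ _ w w' hw hw' X Z U lam hU hZ hlam
  obtain ⟨v, hv1, hv2⟩ := median hw X
  set h := Real.binEntropy with hh
  have hnn : ∀ {Ω₁ : Type} [Fintype Ω₁] {w₁ : Ω₁ → ℝ}, IsPr w₁ → ∀ p : Ω₁ → Prop,
      0 ≤ h (mass w₁ p) := by
    intro Ω₁ _ w₁ hw₁ p
    exact Real.binEntropy_nonneg (mass_nonneg hw₁ p) (mass_le_one hw₁ p)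
  set Gx : ℕ → ℝ := fun j => h (mass w (fun o => X o ≤ (v - 1) - (j : ℕ))) +
    h (mass w (fun o => (v + 1) + (j : ℕ) ≤ X o)) +
    5 * h (mass w' (fun o => (1 : ℤ) + (j : ℕ) ≤ Z o)) with hGx
  have hGx0 : ∀ j, 0 ≤ Gx j := by
    intro j
    have h1 := hnn hw (fun o => X o ≤ (v - 1) - (j : ℕ))
    have h2 := hnn hw (fun o => (v + 1) + (j : ℕ) ≤ X o)
    have h3 := hnn hw' (fun o => (1 : ℤ) + (j : ℕ) ≤ Z o)
    simp only [hGx]
    (clear * - h1 h2 h3; linarith only [h1, h2, h3])
  have key : ∀ r : ℕ, CE (prodW w w') (fun p => (((r + 1 : ℕ) : ℤ) ≤ Z p.2))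
      (fun p => X p.1 + Z p.2) ≤ (if r + 1 ≤ 4 * lam then (1 : ℝ) else 0) +
        η / 21 * (Gx (r / 4) + h (mass w' (fun o => (1 : ℤ) + (r : ℕ) ≤ Z o))) := by
    intro r
    have hr0 := hGx0 (r / 4)
    have hr1 := hnn hw' (fun o => (1 : ℤ) + (r : ℕ) ≤ Z o)
    have hη1 : 0 ≤ η / 21 := by positivity
    by_cases hr : r + 1 ≤ 4 * lam
    · rw [if_pos hr]
      have h1 : CE (prodW w w') (fun p => (((r + 1 : ℕ) : ℤ) ≤ Z p.2))
          (fun p => X p.1 + Z p.2) ≤ 1 := by
        refine (CE_le_Ent (hw.prod hw') _ _).trans ?_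
        rw [Ent_event (hw.prod hw')]
        refine Real.binEntropy_le_log_two.trans ?_
        have := Real.log_two_lt_d9
        (clear * - this; linarith only [this])
      have h2 : 0 ≤ η / 21 * (Gx (r / 4) + h (mass w' (fun o => (1 : ℤ) + (r : ℕ) ≤ Z o))) :=
        mul_nonneg hη1 (by linarith only [hr0, hr1])
      linarith only [h1, h2]
    · rw [if_neg hr, zero_add]
      set m : ℕ := (r + 1 + 3) / 4 with hm
      have hm1 : m = r / 4 + 1 := by omega
      have hmlam : lam < m := by omega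
      have hmr : m ≤ r + 1 := by omega
      refine (test hw hw' X Z v (r + 1) m (by omega) hm).trans ?_
      have hbb' : mass w' (fun o => (((r + 1 : ℕ) : ℤ) ≤ Z o)) ≤
          mass w' (fun o => ((m : ℤ) ≤ Z o)) := by
        refine mass_mono hw' ?_
        intro o ho
        have : (m : ℤ) ≤ ((r + 1 : ℕ) : ℤ) := by exact_mod_cast hmr
        omega
      have hb'σ : mass w' (fun o => ((m : ℤ) ≤ Z o)) ≤ σ := by
        refine le_trans (mass_mono hw' ?_) hlam
        intro o ho
        have : (lam : ℤ) < (m : ℤ) := by exact_mod_cast hmlam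
        omega
      have hm0 : (1 : ℤ) ≤ (m : ℤ) := by omega
      have ham : mass w (fun o => X o ≤ v - m) ≤ 1 / 2 := by
        refine le_trans (mass_mono hw ?_) hv2
        intro o ho
        omega
      have hap : mass w (fun o => v + m ≤ X o) ≤ 1 / 2 := by
        refine le_trans (mass_mono hw ?_) hv1
        intro o ho
        omega
      refine (hphi _ _ _ _ (mass_nonneg hw' _) (hbb'.trans hb'σ) hbb' (mass_le_one hw' _)
        (mass_nonneg hw _) ham (mass_nonneg hw _) hap).trans ?_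
      have h5 := hb _ (mass_nonneg hw' _) hb'σ
      have e1 : mass w (fun o => X o ≤ v - m) = mass w (fun o => X o ≤ (v - 1) - (r / 4 : ℕ)) := by
        congr 1
        funext o
        apply propext
        rw [hm1]
        push_cast
        constructor <;> intro h' <;> omega
      have e2 : mass w (fun o => v + m ≤ X o) =
          mass w (fun o => (v + 1) + (r / 4 : ℕ) ≤ X o) := by
        congr 1
        funext o
        apply propext
        rw [hm1]
        push_cast
        constructor <;> intro h' <;> omega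
      have e3 : mass w' (fun o => ((m : ℤ) ≤ Z o)) =
          mass w' (fun o => (1 : ℤ) + (r / 4 : ℕ) ≤ Z o) := by
        congr 1
        funext o
        apply propext
        rw [hm1]
        push_cast
        constructor <;> intro h' <;> omega
      have e4 : mass w' (fun o => (((r + 1 : ℕ) : ℤ) ≤ Z o)) =
          mass w' (fun o => (1 : ℤ) + (r : ℕ) ≤ Z o) := by
        congr 1
        funext o
        apply propext
        push_cast
        constructor <;> intro h' <;> omega
      rw [e3] at h5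
      rw [e1, e2, e3, e4]
      simp only [hGx]
      (clear * - h5; linarith only [h5])
  have hrev : ∑ t ∈ range U, CE (prodW w w') (fun p => ((U : ℤ) - t ≤ Z p.2))
      (fun p => X p.1 + Z p.2) = ∑ r ∈ range U, CE (prodW w w')
        (fun p => (((r + 1 : ℕ) : ℤ) ≤ Z p.2)) (fun p => X p.1 + Z p.2) := by
    rw [← sum_rev U (fun u => CE (prodW w w') (fun p => (((u : ℕ) : ℤ) ≤ Z p.2))
      (fun p => X p.1 + Z p.2))]
    refine sum_congr rfl ?_
    intro t ht
    rw [mem_range] at ht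
    have : (U : ℤ) - t = ((U - t : ℕ) : ℤ) := by
      rw [Nat.cast_sub ht.le]
    simp only [this]
  rw [hrev]
  refine (sum_le_sum (fun r _ => key r)).trans ?_
  rw [sum_add_distrib, ← mul_sum, sum_add_distrib]
  have s1 := sum_small U (4 * lam)
  have s2 := sum_div_four U Gx hGx0
  have s3 : ∑ j ∈ range U, Gx j ≤ 2 * ∑ t ∈ range U, Ent w (fun o => lb U t (X o)) +
      5 * ∑ t ∈ range U, Ent w' (fun o => lb U t (Z o)) := by
    have t1 := thr_low hw U hU X (v - 1)
    have t2 := thr hw U hU X (v + 1)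
    have t3 := thr hw' U hU Z 1
    simp only [hGx, sum_add_distrib, ← mul_sum]
    linarith only [t1, t2, t3]
  have s4 := thr hw' U hU Z 1
  have hX0 : 0 ≤ ∑ t ∈ range U, Ent w (fun o => lb U t (X o)) :=
    sum_nonneg (fun t _ => Ent_nonneg hw _)
  have hZ0 : 0 ≤ ∑ t ∈ range U, Ent w' (fun o => lb U t (Z o)) :=
    sum_nonneg (fun t _ => Ent_nonneg hw' _)
  set HX := ∑ t ∈ range U, Ent w (fun o => lb U t (X o)) with hHX
  set HZ := ∑ t ∈ range U, Ent w' (fun o => lb U t (Z o)) with hHZ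
  have s5 : ∑ r ∈ range U, Gx (r / 4) +
      ∑ r ∈ range U, h (mass w' (fun o => (1 : ℤ) + (r : ℕ) ≤ Z o)) ≤ 21 * (HX + HZ) := by
    linarith only [s2, hX0, s4, s3]
  have s6 : η / 21 * (∑ r ∈ range U, Gx (r / 4) +
      ∑ r ∈ range U, h (mass w' (fun o => (1 : ℤ) + (r : ℕ) ≤ Z o))) ≤
      η / 21 * (21 * (HX + HZ)) := mul_le_mul_of_nonneg_left s5 (by positivity)
  have s7 : η / 21 * (21 * (HX + HZ)) = η * (HX + HZ) := by ring
  push_cast at s1
  linarith only [s6, s1]

end Pool.Agent.Helper84.TR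
end

/- Helper24.TT.H84.TR.Sec -/
section
/-!
# TR-8b: the second part: the label of `Z` when `Z ≥ U - t`

On `Z ≥ U - t` reveal the label `lb U t' X` (its entropy is that of `lb U t' X` because `X` is
independent of `Z`); then `X`, hence `Z`, lies in `U` consecutive integers and `lb U t Z` has at
most two values.  Off this event `lb U t Z = 0`.  Average over `t'` (or use every `t'`).
-/

set_option autoImplicit false

open Finset

namespace Pool.Agent.Helper84.TR

open Pool.Agent.Helper15.BP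

variable {Ω Ω' α β γ δ : Type*} [Fintype Ω] [Fintype Ω']

/-- a function which is constant on the support has conditional entropy zero -/
private theorem CE_zero_of_supp (w : Ω → ℝ) (f : Ω → α) (g : Ω → β) (c : α)
    (h : ∀ o, w o ≠ 0 → f o = c) : CE w f g = 0 := by
  classical
  rw [CE_eq_sum]
  apply sum_eq_zero
  intro o _
  by_cases ho : w o = 0
  · rw [ho, zero_mul]
  · have h1 : pr w g (g o) = pr w (fun o => (f o, g o)) (f o, g o) := by
      unfold pr
      apply sum_congr rfl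
      intro x _
      by_cases hx : w x = 0
      · rw [hx, ite_self, ite_self]
      · by_cases hg : g x = g o
        · have e : (fun o => (f o, g o)) x = (f o, g o) := by
            show (f x, g x) = (f o, g o)
            rw [h x hx, h o ho, hg]
          rw [if_pos hg, if_pos e]
        · rw [if_neg hg, if_neg (fun h2 => hg (congrArg Prod.snd h2))]
    rw [h1, sub_self, mul_zero]

private theorem pr_true (w : Ω → ℝ) (J : Ω → Prop) : pr w J True = mass w J := by
  classical
  unfold pr mass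
  apply sum_congr rfl
  intro o _
  by_cases h : J o
  · rw [if_pos (eq_true h), if_pos h]
  · rw [if_neg (fun h2 => h (of_eq_true h2)), if_neg h]

/-- conditioning a product on an event of the second factor -/
private theorem cw_second {w : Ω → ℝ} (hw : IsPr w) (w' : Ω' → ℝ) (J : Ω' → Prop) :
    cw (prodW w w') (fun p => J p.2) True = prodW w (cw w' J True) := by
  classical
  funext p
  unfold cw
  rw [pr_snd hw]
  unfold prodW
  by_cases h : J p.2 = True
  · rw [if_pos h]
    simp only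
    rw [if_pos h, mul_div_assoc]
  · rw [if_neg h]
    simp only
    rw [if_neg h, mul_zero]

omit [Fintype Ω] [Fintype Ω'] in
/-- given the sum, a label of `X` leaves two labels of `Z` -/
private theorem two_labels (U t t' : ℕ) (hU : 0 < U) (X : Ω → ℤ) (Z : Ω' → ℤ) (o : Ω × Ω') :
    {a : ℤ | ∃ o' : Ω × Ω', (lb U t' (X o'.1), X o'.1 + Z o'.2) = (lb U t' (X o.1), X o.1 + Z o.2) ∧
      lb U t (Z o'.2) = a}.ncard ≤ 2 := by
  have hUz : (0 : ℤ) < U := by exact_mod_cast hU
  -- the least possible value of `Z`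
  set c : ℤ := lb U t' (X o.1) with hc
  set s : ℤ := X o.1 + Z o.2 with hs
  -- `U c - t' ≤ X < U c - t' + U`, hence `s - U c + t' - U < Z ≤ s - U c + t'`
  set z0 : ℤ := s - U * c + t' - U + 1 with hz0
  have hsub : {a : ℤ | ∃ o' : Ω × Ω', (lb U t' (X o'.1), X o'.1 + Z o'.2) = (c, s) ∧
      lb U t (Z o'.2) = a} ⊆ (({(z0 + t) / (U : ℤ), (z0 + t) / (U : ℤ) + 1} : Finset ℤ) : Set ℤ) := by
    rintro a ⟨o', h1, rfl⟩
    have h2 : lb U t' (X o'.1) = c := congrArg Prod.fst h1
    have h3 : X o'.1 + Z o'.2 = s := congrArg Prod.snd h1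
    unfold lb at h2
    have h4 := Int.emod_add_mul_ediv (X o'.1 + t') (U : ℤ)
    have h5 := Int.emod_nonneg (X o'.1 + t') hUz.ne'
    have h6 := Int.emod_lt_of_pos (X o'.1 + t') hUz
    rw [h2] at h4
    have h7 : z0 ≤ Z o'.2 := by
      rw [hz0]
      (clear * - h3 h4 h6; linarith only [h3, h4, h6])
    have h8 : Z o'.2 ≤ z0 + U - 1 := by
      rw [hz0]
      (clear * - h3 h4 h5; linarith only [h3, h4, h5])
    have h9 : (z0 + t) / (U : ℤ) ≤ (Z o'.2 + t) / (U : ℤ) := by
      apply Int.ediv_le_ediv hUz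
      linarith only [h7]
    have h10 : (Z o'.2 + t) / (U : ℤ) ≤ (z0 + t) / (U : ℤ) + 1 := by
      have h11 : (z0 + t) / (U : ℤ) + 1 = (z0 + t + U) / (U : ℤ) := by
        rw [Int.add_ediv_of_dvd_right (dvd_refl _), Int.ediv_self hUz.ne']
      rw [h11]
      apply Int.ediv_le_ediv hUz
      linarith only [h8]
    rw [coe_insert, coe_singleton, Set.mem_insert_iff, Set.mem_singleton_iff]
    unfold lb
    omega
  refine le_trans (Set.ncard_le_ncard hsub (Finset.finite_toSet _)) ?_
  rw [Set.ncard_coe_finset]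
  exact card_le_two

/-- without conditioning -/
private theorem second_aux {w : Ω → ℝ} {w' : Ω' → ℝ} (hw : IsPr w) (hw' : IsPr w') (X : Ω → ℤ)
    (Z : Ω' → ℤ) (U t t' : ℕ) (hU : 0 < U) :
    CE (prodW w w') (fun p => lb U t (Z p.2)) (fun p => X p.1 + Z p.2) ≤
      Ent w (fun o => lb U t' (X o)) + Real.log 2 := by
  have hp := hw.prod hw'
  have h1 : CE (prodW w w') (fun p => lb U t (Z p.2)) (fun p => X p.1 + Z p.2) ≤
      CE (prodW w w') (fun p => (lb U t (Z p.2), lb U t' (X p.1))) (fun p => X p.1 + Z p.2) := by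
    apply CE_mono hp
    intro o o' _ h
    exact congrArg Prod.fst h
  have h2 := CE_chain (prodW w w') (fun p => lb U t (Z p.2)) (fun p => lb U t' (X p.1))
    (fun p => X p.1 + Z p.2)
  have h3 := CE_le_Ent hp (fun p => lb U t' (X p.1)) (fun p => X p.1 + Z p.2)
  have h4 : Ent (prodW w w') (fun p => lb U t' (X p.1)) = Ent w (fun o => lb U t' (X o)) :=
    Ent_fst hw' (fun o => lb U t' (X o))
  have h5 := CE_le_log hp (fun p => lb U t (Z p.2)) (fun p => (lb U t' (X p.1), X p.1 + Z p.2)) 2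
    (fun o => two_labels U t t' hU X Z o)
  rw [h4] at h3
  rw [h2] at h1
  push_cast at h5
  linarith only [h1, h3, h5]

theorem second {w : Ω → ℝ} {w' : Ω' → ℝ} (hw : IsPr w) (hw' : IsPr w') (X : Ω → ℤ) (Z : Ω' → ℤ)
    (hZ : ∀ o, 0 ≤ Z o) (U t : ℕ) (hU : 0 < U) (ht : t < U) :
    CE (prodW w w') (fun p => lb U t (Z p.2))
        (fun p => (X p.1 + Z p.2, ((U : ℤ) - t ≤ Z p.2))) ≤
      mass w' (fun o => (U : ℤ) - t ≤ Z o) *
        ((∑ t' ∈ range U, Ent w (fun o => lb U t' (X o))) / U + Real.log 2) := by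
  classical
  have hUr : (0 : ℝ) < U := by exact_mod_cast hU
  have hp := hw.prod hw'
  have hm := mass_nonneg hw' (fun o => (U : ℤ) - t ≤ Z o)
  have hlog : (0 : ℝ) ≤ Real.log 2 := Real.log_nonneg (by norm_num)
  have hprT : pr (prodW w w') (fun p => ((U : ℤ) - t ≤ Z p.2)) True =
      mass w' (fun o => (U : ℤ) - t ≤ Z o) := by
    rw [← pr_true w' (fun o => (U : ℤ) - t ≤ Z o)]
    exact pr_snd hw (fun o => (U : ℤ) - t ≤ Z o) True
  -- for every `t'`
  have key : ∀ t' ∈ range U, CE (prodW w w') (fun p => lb U t (Z p.2))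
      (fun p => (X p.1 + Z p.2, ((U : ℤ) - t ≤ Z p.2))) ≤
        mass w' (fun o => (U : ℤ) - t ≤ Z o) *
          (Ent w (fun o => lb U t' (X o)) + Real.log 2) := by
    intro t' _
    have hE := Ent_nonneg hw (fun o => lb U t' (X o))
    have hB : 0 ≤ mass w' (fun o => (U : ℤ) - t ≤ Z o) *
          (Ent w (fun o => lb U t' (X o)) + Real.log 2) := by (clear * - hm hE; positivity)
    rw [CE_fib hp (fun p => lb U t (Z p.2)) (fun p => X p.1 + Z p.2)
      (fun p => ((U : ℤ) - t ≤ Z p.2))]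
    have h1 : ∀ a ∈ univ.image (fun p : Ω × Ω' => ((U : ℤ) - t ≤ Z p.2)),
        pr (prodW w w') (fun p => ((U : ℤ) - t ≤ Z p.2)) a *
          CE (cw (prodW w w') (fun p => ((U : ℤ) - t ≤ Z p.2)) a) (fun p => lb U t (Z p.2))
            (fun p => X p.1 + Z p.2) ≤
        if a = True then mass w' (fun o => (U : ℤ) - t ≤ Z o) *
          (Ent w (fun o => lb U t' (X o)) + Real.log 2) else 0 := by
      intro a _
      by_cases ha : a
      · have ha' : a = True := eq_true ha
        rw [if_pos ha', ha', hprT]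
        by_cases h0 : mass w' (fun o => (U : ℤ) - t ≤ Z o) = 0
        · rw [h0, zero_mul, zero_mul]
        · apply mul_le_mul_of_nonneg_left _ hm
          rw [cw_second hw w' (fun o => (U : ℤ) - t ≤ Z o)]
          have hw'' : IsPr (cw w' (fun o => (U : ℤ) - t ≤ Z o) True) := by
            apply cw_isPr hw'
            rw [pr_true]
            exact h0
          exact second_aux hw hw'' X Z U t t' hU
      · have ha' : a = False := eq_false ha
        rw [if_neg (fun h => ha (of_eq_true h)), ha']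
        apply le_of_eq
        rw [CE_zero_of_supp _ _ _ (0 : ℤ), mul_zero]
        intro p hp0
        have hJ : ¬ ((U : ℤ) - t ≤ Z p.2) := by
          intro hJ
          apply hp0
          unfold cw
          simp only
          rw [if_neg]
          intro h
          exact of_eq_false h hJ
        have h3 := hZ p.2
        unfold lb
        apply Int.ediv_eq_zero_of_lt
        · (clear * - h3; positivity)
        · linarith only [hJ]
    refine le_trans (sum_le_sum h1) ?_
    rw [← sum_filter, sum_const, nsmul_eq_mul]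
    have hc : ((univ.image (fun p : Ω × Ω' => ((U : ℤ) - t ≤ Z p.2))).filter
        (fun a => a = True)).card ≤ 1 := by
      rw [card_le_one]
      intro a ha b hb
      rw [(mem_filter.1 ha).2, (mem_filter.1 hb).2]
    have hc' : ((((univ.image (fun p : Ω × Ω' => ((U : ℤ) - t ≤ Z p.2))).filter
        (fun a => a = True)).card : ℕ) : ℝ) ≤ 1 := by exact_mod_cast hc
    (clear * - hB hc'; nlinarith only [hB, hc'])
  have h2 := sum_le_sum key
  rw [sum_const, card_range, nsmul_eq_mul, ← mul_sum, sum_add_distrib, sum_const, card_range,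
    nsmul_eq_mul] at h2
  have h3 : mass w' (fun o => (U : ℤ) - t ≤ Z o) *
        ((∑ t' ∈ range U, Ent w (fun o => lb U t' (X o))) / U + Real.log 2) =
      (mass w' (fun o => (U : ℤ) - t ≤ Z o) *
        (∑ t' ∈ range U, Ent w (fun o => lb U t' (X o)) + U * Real.log 2)) / U := by
    field_simp
  rw [h3, le_div_iff₀ hUr]
  (clear * - h2; linarith only [h2])

end Pool.Agent.Helper84.TR
end

/- Helper24.TT.H84.TR.ClSec -/
section
/-!
# TR-10: the second part of the column lemma, summed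

`∑_t mass (U - t ≤ Z) ≤ lam + σ U` and `≤ lam + η ∑ binEntropy ..` (`phi_num`, `thr` with base point 1).
-/

set_option autoImplicit false

open Finset

namespace Pool.Agent.Helper84.TR

open Pool.Agent.Helper15.BP

/-- the second part, summed -/
theorem cl_second (η : ℝ) (hη : 0 < η) : ∃ (σ : ℝ) (K : ℕ), 0 < σ ∧ σ ≤ 1 / 2 ∧
    ∀ {Ω Ω' : Type} [Fintype Ω] [Fintype Ω'] (w : Ω → ℝ) (w' : Ω' → ℝ), IsPr w → IsPr w' →
      ∀ (X : Ω → ℤ) (Z : Ω' → ℤ) (U lam : ℕ), 0 < U → K * lam ≤ U → (∀ o, 0 ≤ Z o) →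
      mass w' (fun o => (lam : ℤ) < Z o) ≤ σ →
      ∑ t ∈ range U, CE (prodW w w') (fun p => lb U t (Z p.2))
          (fun p => (X p.1 + Z p.2, ((U : ℤ) - t ≤ Z p.2))) ≤
        η * (∑ t ∈ range U, Ent w (fun o => lb U t (X o)) +
          ∑ t ∈ range U, Ent w' (fun o => lb U t (Z o))) + lam := by
  obtain ⟨σ0, h0, h0', hb, -⟩ := phi_num η hη
  refine ⟨min σ0 (η / 2), ⌈2 / η⌉₊, lt_min h0 (by positivity), (min_le_left _ _).trans h0', ?_⟩
  intro Ω Ω' _ _ w w' hw hw' X Z U lam hU hK hZ hm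
  have hUr : (0 : ℝ) < U := by exact_mod_cast hU
  set EX : ℝ := ∑ t ∈ range U, Ent w (fun o => lb U t (X o)) with hEX
  set EZ : ℝ := ∑ t ∈ range U, Ent w' (fun o => lb U t (Z o)) with hEZ
  have hEX0 : 0 ≤ EX := sum_nonneg fun t _ => Ent_nonneg hw _
  have hEZ0 : 0 ≤ EZ := sum_nonneg fun t _ => Ent_nonneg hw' _
  set S : ℝ := ∑ t ∈ range U, mass w' (fun o => (U : ℤ) - t ≤ Z o) with hS
  -- every dither
  have h1 : ∑ t ∈ range U, CE (prodW w w') (fun p => lb U t (Z p.2))
      (fun p => (X p.1 + Z p.2, ((U : ℤ) - t ≤ Z p.2))) ≤ S * (EX / U + Real.log 2) := by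
    rw [hS, sum_mul]
    exact sum_le_sum fun t ht => second hw hw' X Z hZ U t hU (mem_range.1 ht)
  -- the thresholds `1, .., U`
  have h2 : S = ∑ r ∈ range U, mass w' (fun o => (1 : ℤ) + r ≤ Z o) := by
    rw [hS, ← sum_range_reflect]
    apply sum_congr rfl
    intro r hr
    rw [mem_range] at hr
    have hc : ((U - 1 - r : ℕ) : ℤ) = (U : ℤ) - 1 - r := by omega
    rw [hc]
    congr 1
    funext o
    apply propext
    constructor
    · intro h; (clear * - h; linarith only [h])
    · intro h; linarith only [h]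
  have hcount : ∑ r ∈ range U, (if r < lam then (1 : ℝ) else 0) ≤ lam := by
    rw [← sum_filter, sum_const, nsmul_eq_mul, mul_one]
    have : ((range U).filter (fun r => r < lam)).card ≤ lam := by
      calc ((range U).filter (fun r => r < lam)).card ≤ (range lam).card := by
            apply card_le_card
            intro r hr
            exact mem_range.2 (mem_filter.1 hr).2
        _ = lam := card_range lam
    exact_mod_cast this
  have hsmall : ∀ r : ℕ, ¬ r < lam → mass w' (fun o => (1 : ℤ) + r ≤ Z o) ≤ min σ0 (η / 2) := by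
    intro r hr
    refine le_trans (mass_mono hw' ?_) hm
    intro o ho
    have : (lam : ℤ) ≤ r := by exact_mod_cast not_lt.1 hr
    (clear * - ho this; linarith only [ho, this])
  have h3 : S ≤ lam + (η / 2) * U := by
    have h4 : S ≤ ∑ r ∈ range U, ((if r < lam then (1 : ℝ) else 0) + η / 2) := by
      rw [h2]
      apply sum_le_sum
      intro r _
      by_cases hr : r < lam
      · rw [if_pos hr]
        have := mass_le_one hw' (fun o => (1 : ℤ) + r ≤ Z o)
        linarith only [hη, this]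
      · rw [if_neg hr]
        have := (hsmall r hr).trans (min_le_right _ _)
        (clear * - this; linarith only [this])
    rw [sum_add_distrib, sum_const, card_range, nsmul_eq_mul] at h4
    linarith only [hcount, h4]
  have h5 : S ≤ lam + η * EZ := by
    have h6 : S ≤ ∑ r ∈ range U, ((if r < lam then (1 : ℝ) else 0) +
        η * Real.binEntropy (mass w' (fun o => (1 : ℤ) + r ≤ Z o))) := by
      rw [h2]
      apply sum_le_sum
      intro r _
      have hnn := mass_nonneg hw' (fun o => (1 : ℤ) + r ≤ Z o)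
      have hle := mass_le_one hw' (fun o => (1 : ℤ) + r ≤ Z o)
      have hbe := Real.binEntropy_nonneg hnn hle
      by_cases hr : r < lam
      · rw [if_pos hr]
        have : 0 ≤ η * Real.binEntropy (mass w' (fun o => (1 : ℤ) + r ≤ Z o)) := by (clear * - hη hbe; positivity)
        linarith only [hle, this]
      · rw [if_neg hr, zero_add]
        exact hb _ hnn ((hsmall r hr).trans (min_le_left _ _))
    rw [sum_add_distrib, ← mul_sum] at h6
    have h7 := mul_le_mul_of_nonneg_left (thr hw' U hU Z 1) hη.le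
    linarith only [hcount, h6, h7]
  have hS0 : 0 ≤ S := sum_nonneg fun t _ => mass_nonneg hw' _
  -- the resolution is much larger than `lam`
  have h8 : (lam : ℝ) ≤ (η / 2) * U := by
    have h9 : (2 / η) * lam ≤ U := by
      calc (2 / η) * lam ≤ (⌈2 / η⌉₊ : ℝ) * lam := by
            apply mul_le_mul_of_nonneg_right (Nat.le_ceil _) (Nat.cast_nonneg _)
        _ ≤ U := by exact_mod_cast hK
    have h10 := mul_le_mul_of_nonneg_left h9 (show (0 : ℝ) ≤ η / 2 by positivity)
    have h11 : η / 2 * (2 / η * lam) = lam := by (clear * - hη; field_simp)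
    linarith only [h10, h11]
  have h12 : S * (EX / U) ≤ η * EX := by
    have h13 : S ≤ η * U := by (clear * - h3 h8; linarith only [h3, h8])
    calc S * (EX / U) ≤ (η * U) * (EX / U) :=
          mul_le_mul_of_nonneg_right h13 (by (clear * - hEX0 hU; positivity))
      _ = η * EX := by (clear * - hU hη; field_simp)
  have h14 : S * Real.log 2 ≤ lam + η * EZ := by
    have h15 := Real.log_two_lt_d9
    have h16 : S * Real.log 2 ≤ S * 1 := mul_le_mul_of_nonneg_left (by linarith only [h15]) hS0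
    linarith only [h5, h16]
  rw [mul_add] at h1
  linarith only [h1, h12, h14]

end Pool.Agent.Helper84.TR
end

/- Helper24.TT.H84.TR.Dith -/
section
/-!
# TR-3: the complementary dither

`lb U t (X)` is determined by `X + Z = s` and `lb U t' (Z)` with `t' = U - 1 - ((s + t) mod U)`:
`X + t = s + t - Z`, so `lb U t X = (s + t) / U - lb U t' Z`; and `t ↦ t'` permutes `range U` for
every `s`.
-/

set_option autoImplicit false

open Finset

namespace Pool.Agent.Helper84.TR

open Pool.Agent.Helper15.BP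

variable {Ω Ω' α β γ δ : Type*} [Fintype Ω] [Fintype Ω']

/-- `lb U t x = (x + z + t) / U - lb U (U - 1 - ((x + z + t) mod U)) z` -/
theorem lb_compl (U : ℕ) (hU : 0 < U) (t : ℕ) (x z : ℤ) :
    lb U t x = (x + z + t) / (U : ℤ) - lb U (U - 1 - ((x + z + t) % (U : ℤ)).toNat) z := by
  have hU' : (0 : ℤ) < (U : ℤ) := by exact_mod_cast hU
  unfold lb
  set s : ℤ := x + z + t with hs
  have hr0 : 0 ≤ s % (U : ℤ) := Int.emod_nonneg _ hU'.ne'
  have hr1 : s % (U : ℤ) < U := Int.emod_lt_of_pos _ hU'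
  have hqr : (U : ℤ) * (s / U) + s % U = s := Int.mul_ediv_add_emod s U
  have hcast : ((U - 1 - (s % (U : ℤ)).toNat : ℕ) : ℤ) = U - 1 - s % U := by
    have h1 : ((s % (U : ℤ)).toNat : ℤ) = s % U := Int.toNat_of_nonneg hr0
    omega
  rw [hcast]
  set y : ℤ := z + (U - 1 - s % U) with hy
  have hp0 : 0 ≤ y % (U : ℤ) := Int.emod_nonneg _ hU'.ne'
  have hp1 : y % (U : ℤ) < U := Int.emod_lt_of_pos _ hU'
  have hpq : (U : ℤ) * (y / U) + y % U = y := Int.mul_ediv_add_emod y U
  have hmul : (U : ℤ) * (s / U - y / U) = U * (s / U) - U * (y / U) := by ring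
  refine ((Int.ediv_emod_unique (a := x + t) (b := U) (q := s / U - y / U)
    (r := x + t - U * (s / U - y / U)) hU').2 ⟨by ring, ?_, ?_⟩).1
  · rw [hmul]; (clear * - hqr hp1 hpq; linarith only [hqr, hp1, hpq])
  · rw [hmul]; (clear * - hqr hp0 hpq; linarith only [hqr, hp0, hpq])

theorem comp_dither (w : Ω → ℝ) (U : ℕ) (hU : 0 < U) (X Z : Ω → ℤ) (C : Ω → γ) :
    ∑ t ∈ range U, CE w (fun o => lb U t (X o)) (fun o => (X o + Z o, C o)) =
      ∑ t ∈ range U, CE w (fun o => lb U t (Z o)) (fun o => (X o + Z o, C o)) := by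
  classical
  have hU' : (0 : ℤ) < (U : ℤ) := by exact_mod_cast hU
  simp only [CE_eq_sum]
  rw [Finset.sum_comm]
  rw [Finset.sum_comm (s := range U)]
  refine Finset.sum_congr rfl fun o _ => ?_
  rw [← Finset.mul_sum, ← Finset.mul_sum, Finset.sum_sub_distrib, Finset.sum_sub_distrib]
  congr 2
  set s : ℤ := X o + Z o with hs
  refine Finset.sum_nbij' (fun t => U - 1 - ((s + t) % (U : ℤ)).toNat)
    (fun t => (((U : ℤ) - 1 - t - s) % (U : ℤ)).toNat) ?_ ?_ ?_ ?_ ?_
  · intro t _
    rw [Finset.mem_range]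
    omega
  · intro t _
    rw [Finset.mem_range]
    have h0 : 0 ≤ ((U : ℤ) - 1 - t - s) % (U : ℤ) := Int.emod_nonneg _ hU'.ne'
    have h1 : ((U : ℤ) - 1 - t - s) % (U : ℤ) < U := Int.emod_lt_of_pos _ hU'
    omega
  · intro t ht
    rw [Finset.mem_range] at ht
    have hr0 : 0 ≤ (s + t) % (U : ℤ) := Int.emod_nonneg _ hU'.ne'
    have hr1 : (s + t) % (U : ℤ) < U := Int.emod_lt_of_pos _ hU'
    have hqr : (U : ℤ) * ((s + t) / U) + (s + t) % U = s + t := Int.mul_ediv_add_emod _ _
    have hcast : ((U - 1 - ((s + t) % (U : ℤ)).toNat : ℕ) : ℤ) = U - 1 - (s + t) % U := by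
      have h1 : (((s + t) % (U : ℤ)).toNat : ℤ) = (s + t) % U := Int.toNat_of_nonneg hr0
      omega
    simp only [hcast]
    have h2 : (U : ℤ) - 1 - (U - 1 - (s + t) % U) - s = t + U * (-((s + t) / U)) := by
      linarith only [hqr]
    rw [h2, Int.add_mul_emod_self_left, Int.emod_eq_of_lt (by omega) (by omega)]
    simp
  · intro t ht
    rw [Finset.mem_range] at ht
    have hr0 : 0 ≤ ((U : ℤ) - 1 - t - s) % (U : ℤ) := Int.emod_nonneg _ hU'.ne'
    have hr1 : ((U : ℤ) - 1 - t - s) % (U : ℤ) < U := Int.emod_lt_of_pos _ hU'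
    have hqr : (U : ℤ) * (((U : ℤ) - 1 - t - s) / U) + ((U : ℤ) - 1 - t - s) % U =
      (U : ℤ) - 1 - t - s := Int.mul_ediv_add_emod _ _
    have hcast : (((((U : ℤ) - 1 - t - s) % (U : ℤ)).toNat : ℕ) : ℤ) =
        ((U : ℤ) - 1 - t - s) % U := Int.toNat_of_nonneg hr0
    simp only [hcast]
    have h2 : s + ((U : ℤ) - 1 - t - s) % U =
        (U - 1 - t : ℤ) + U * (-(((U : ℤ) - 1 - t - s) / U)) := by (clear * - hqr; linarith only [hqr])
    rw [h2, Int.add_mul_emod_self_left, Int.emod_eq_of_lt (by omega) (by omega)]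
    omega
  · intro t ht
    congr 1
    have hkey : ∀ o' : Ω, X o' + Z o' = s →
        lb U t (X o') = (s + t) / (U : ℤ) -
          lb U (U - 1 - ((s + t) % (U : ℤ)).toNat) (Z o') := by
      intro o' ho'
      rw [lb_compl U hU t (X o') (Z o'), ho']
    unfold pr
    refine Finset.sum_congr rfl fun o' _ => ?_
    have hiff : ((lb U t (X o'), (X o' + Z o', C o')) = (lb U t (X o), (s, C o))) ↔
        ((lb U (U - 1 - ((s + t) % (U : ℤ)).toNat) (Z o'), (X o' + Z o', C o')) =
          (lb U (U - 1 - ((s + t) % (U : ℤ)).toNat) (Z o), (s, C o))) := by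
      simp only [Prod.mk.injEq]
      constructor
      · rintro ⟨h1, h2, h3⟩
        refine ⟨?_, h2, h3⟩
        rw [hkey o' h2, hkey o rfl] at h1
        (clear * - h1; linarith only [h1])
      · rintro ⟨h1, h2, h3⟩
        refine ⟨?_, h2, h3⟩
        rw [hkey o' h2, hkey o rfl, h1]
    by_cases hx : (lb U t (X o'), (X o' + Z o', C o')) = (lb U t (X o), (s, C o))
    · rw [if_pos hx, if_pos (hiff.1 hx)]
    · rw [if_neg hx, if_neg fun h' => hx (hiff.2 h')]

end Pool.Agent.Helper84.TR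
end

/- Helper24.TT.H84.TR.Cl -/
section
/-!
# TR-11: the column lemma, unconditional form

If `mass (lam < Z) ≤ σ`: `CE_chain` with the event `U - t ≤ Z` (a function of `lb U t Z` as `Z ≥ 0`), `cl_test`,
`cl_second`.  Otherwise `comp_dither` and `CE_le_Ent`.
-/

set_option autoImplicit false

open Finset

namespace Pool.Agent.Helper84.TR

open Pool.Agent.Helper15.BP

private theorem lb_event {U t : ℕ} (hU : 0 < U) {z : ℤ} :
    ((U : ℤ) - t ≤ z) ↔ 1 ≤ lb U t z := by
  have hU' : (0 : ℤ) < U := by exact_mod_cast hU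
  unfold lb
  rw [Int.le_ediv_iff_mul_le hU']
  constructor <;> intro h <;> (clear * - h; linarith only [h])

/-- the label of `Z` given the sum, split with the event `U - t ≤ Z` -/
private theorem split {Ω Ω' : Type} [Fintype Ω] [Fintype Ω'] (w : Ω → ℝ) (w' : Ω' → ℝ)
    (X : Ω → ℤ) (Z : Ω' → ℤ) (U t : ℕ) (hU : 0 < U) :
    CE (prodW w w') (fun p => lb U t (Z p.2)) (fun p => X p.1 + Z p.2) =
      CE (prodW w w') (fun p => ((U : ℤ) - t ≤ Z p.2)) (fun p => X p.1 + Z p.2) +
      CE (prodW w w') (fun p => lb U t (Z p.2))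
          (fun p => (X p.1 + Z p.2, ((U : ℤ) - t ≤ Z p.2))) := by
  have h1 : CE (prodW w w') (fun p => lb U t (Z p.2)) (fun p => X p.1 + Z p.2) =
      CE (prodW w w') (fun p => (lb U t (Z p.2), ((U : ℤ) - t ≤ Z p.2)))
        (fun p => X p.1 + Z p.2) := by
    refine CE_congr (fun o o' => Iff.rfl) fun o o' _ => ?_
    constructor
    · intro h
      refine Prod.ext h ?_
      simp only
      rw [eq_iff_iff, lb_event hU, lb_event hU, h]
    · intro h
      exact (Prod.mk.inj h).1
  rw [h1, CE_chain]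
  congr 1
  refine CE_congr (fun o o' => ?_) fun o o' _ => Iff.rfl
  constructor
  · intro h
    exact Prod.ext (Prod.mk.inj h).2 (Prod.mk.inj h).1
  · intro h
    exact Prod.ext (Prod.mk.inj h).2 (Prod.mk.inj h).1

/-- **the column lemma** (`X` arbitrary) -/
theorem cl (η : ℝ) (hη : 0 < η) : ∃ (σ : ℝ) (K : ℕ), 0 < σ ∧
    ∀ {Ω Ω' : Type} [Fintype Ω] [Fintype Ω'] (w : Ω → ℝ) (w' : Ω' → ℝ), IsPr w → IsPr w' →
      ∀ (X : Ω → ℤ) (Z : Ω' → ℤ) (U lam : ℕ), 0 < U → K * lam ≤ U → (∀ o, 0 ≤ Z o) →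
      ∑ t ∈ range U, CE (prodW w w') (fun p => lb U t (Z p.2)) (fun p => X p.1 + Z p.2) ≤
        (η + mass w' (fun o => (lam : ℤ) < Z o) / σ) * ∑ t ∈ range U, Ent w (fun o => lb U t (X o))
          + η * ∑ t ∈ range U, Ent w' (fun o => lb U t (Z o)) + 5 * lam := by
  obtain ⟨σ₁, hσ₁, -, h₁⟩ := cl_test (η / 2) (by (clear * - hη; linarith))
  obtain ⟨σ₂, K, hσ₂, -, h₂⟩ := cl_second (η / 2) (by (clear * - hη; linarith only [hη]))
  refine ⟨min σ₁ σ₂, K, lt_min hσ₁ hσ₂, ?_⟩
  intro Ω Ω' _ _ w w' hw hw' X Z U lam hU hK hZ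
  have hEX : 0 ≤ ∑ t ∈ range U, Ent w (fun o => lb U t (X o)) :=
    Finset.sum_nonneg fun t _ => Ent_nonneg hw _
  have hEZ : 0 ≤ ∑ t ∈ range U, Ent w' (fun o => lb U t (Z o)) :=
    Finset.sum_nonneg fun t _ => Ent_nonneg hw' _
  have hσ : 0 < min σ₁ σ₂ := lt_min hσ₁ hσ₂
  have hm : 0 ≤ mass w' (fun o => (lam : ℤ) < Z o) := mass_nonneg hw' _
  have hlam : (0 : ℝ) ≤ lam := Nat.cast_nonneg _
  by_cases hc : mass w' (fun o => (lam : ℤ) < Z o) ≤ min σ₁ σ₂
  · have e1 := h₁ w w' hw hw' X Z U lam hU hZ (hc.trans (min_le_left _ _))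
    have e2 := h₂ w w' hw hw' X Z U lam hU hK hZ (hc.trans (min_le_right _ _))
    rw [Finset.sum_congr rfl fun t _ => split w w' X Z U t hU,
      Finset.sum_add_distrib]
    have e3 : 0 ≤ mass w' (fun o => (lam : ℤ) < Z o) / min σ₁ σ₂ *
        ∑ t ∈ range U, Ent w (fun o => lb U t (X o)) := mul_nonneg (div_nonneg hm hσ.le) hEX
    linarith only [e1, e2, e3]
  · push Not at hc
    have e1 := comp_dither (prodW w w') U hU (fun p => X p.1) (fun p => Z p.2)
      (fun _ => ())
    have e2 : ∀ (f : Ω × Ω' → ℤ), CE (prodW w w') f (fun p => (X p.1 + Z p.2, ())) =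
        CE (prodW w w') f (fun p => X p.1 + Z p.2) := by
      intro f
      refine CE_congr (fun o o' => ?_) fun o o' _ => Iff.rfl
      constructor
      · intro h
        exact (Prod.mk.inj h).1
      · intro h
        exact Prod.ext h rfl
    have e3 : ∑ t ∈ range U, CE (prodW w w') (fun p => lb U t (Z p.2))
        (fun p => X p.1 + Z p.2) ≤ ∑ t ∈ range U, Ent w (fun o => lb U t (X o)) := by
      rw [← Finset.sum_congr rfl fun t _ => e2 (fun p => lb U t (Z p.2)), ← e1]
      refine Finset.sum_le_sum fun t _ => ?_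
      refine (CE_le_Ent (hw.prod hw') _ _).trans (le_of_eq ?_)
      exact Ent_fst hw' (fun o => lb U t (X o))
    have e4 : 1 ≤ mass w' (fun o => (lam : ℤ) < Z o) / min σ₁ σ₂ := by
      rw [le_div_iff₀ hσ, one_mul]
      exact hc.le
    have e5 : ∑ t ∈ range U, Ent w (fun o => lb U t (X o)) ≤
        mass w' (fun o => (lam : ℤ) < Z o) / min σ₁ σ₂ *
        ∑ t ∈ range U, Ent w (fun o => lb U t (X o)) := le_mul_of_one_le_left hEX e4
    have e6 : 0 ≤ η * ∑ t ∈ range U, Ent w (fun o => lb U t (X o)) := mul_nonneg hη.le hEX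
    have e7 : 0 ≤ η * ∑ t ∈ range U, Ent w' (fun o => lb U t (Z o)) := mul_nonneg hη.le hEZ
    (clear * - e3 e5 e6 e7; linarith only [e3, e5, e6, e7])

end Pool.Agent.Helper84.TR
end

/- Helper24.TT.H84.TR.ColC -/
section
/-!
# TR-12: the column lemma given the past
-/

set_option autoImplicit false

open Finset

namespace Pool.Agent.Helper84.TR

open Pool.Agent.Helper15.BP

private theorem alg {α β : Type} (p E : α → ℝ) (q F m : β → ℝ) (s : Finset α) (t : Finset β)
    (c d : ℝ) :
    ∑ a ∈ s, ∑ b ∈ t, p a * q b * (m b * E a + c * F b + d) =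
      (∑ a ∈ s, p a * E a) * (∑ b ∈ t, q b * m b) +
        c * ((∑ a ∈ s, p a) * (∑ b ∈ t, q b * F b)) +
        d * ((∑ a ∈ s, p a) * (∑ b ∈ t, q b)) := by
  rw [Finset.sum_mul_sum, Finset.sum_mul_sum, Finset.sum_mul_sum, Finset.mul_sum,
    Finset.mul_sum, ← sum_add_distrib, ← sum_add_distrib]
  refine sum_congr rfl fun a _ => ?_
  rw [mul_sum, mul_sum, ← sum_add_distrib, ← sum_add_distrib]
  exact sum_congr rfl fun b _ => by ring

/-- the column lemma, conditionally on a function `A` of the first and `B` of the second factor: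
`cl` on every fibre (`CE_fib`, `cw_prod`, `Ent_fib`, `mass_fib`); then `comp_dither` twice. -/
theorem col (η : ℝ) (hη : 0 < η) : ∃ (σ : ℝ) (K : ℕ), 0 < σ ∧
    ∀ {Ω Ω' α β : Type} [Fintype Ω] [Fintype Ω'] (w : Ω → ℝ) (w' : Ω' → ℝ), IsPr w → IsPr w' →
      ∀ (X : Ω → ℤ) (Z : Ω' → ℤ) (A : Ω → α) (B : Ω' → β) (U lam : ℕ), 0 < U → K * lam ≤ U →
      (∀ o, 0 ≤ Z o) →
      (∑ t ∈ range U, ∑ t' ∈ range U, CE (prodW w w')
          (fun p => (lb U t (X p.1), lb U t' (Z p.2)))
          (fun p => (X p.1 + Z p.2, A p.1, B p.2))) / (U : ℝ) ^ 2 ≤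
        (η + mass w' (fun o => (lam : ℤ) < Z o) / σ) * HL w U X A + η * HL w' U Z B +
          10 * ((lam : ℝ) / U) := by
  obtain ⟨σ, K, hσ, hcl⟩ := cl (η / 2) (by (clear * - hη; positivity))
  refine ⟨σ / 2, K, by (clear * - hσ; positivity), ?_⟩
  intro Ω Ω' α β _ _ w w' hw hw' X Z A B U lam hU hK hZ
  classical
  have hU' : (0 : ℝ) < U := by exact_mod_cast hU
  have hWp : IsPr (prodW w w') := hw.prod hw'
  -- step 1: the pair costs twice the second label
  have h1 : ∑ t ∈ range U, ∑ t' ∈ range U, CE (prodW w w')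
      (fun p => (lb U t (X p.1), lb U t' (Z p.2)))
      (fun p => (X p.1 + Z p.2, A p.1, B p.2)) ≤
      2 * U * ∑ t ∈ range U, CE (prodW w w') (fun p => lb U t (Z p.2))
        (fun p => (X p.1 + Z p.2, A p.1, B p.2)) := by
    calc _ ≤ ∑ t ∈ range U, ∑ t' ∈ range U, (CE (prodW w w') (fun p => lb U t (X p.1))
            (fun p => (X p.1 + Z p.2, A p.1, B p.2)) +
          CE (prodW w w') (fun p => lb U t' (Z p.2))
            (fun p => (X p.1 + Z p.2, A p.1, B p.2))) :=
        sum_le_sum fun t _ => sum_le_sum fun t' _ => CE_pair_le hWp _ _ _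
      _ = U * ∑ t ∈ range U, CE (prodW w w') (fun p => lb U t (X p.1))
            (fun p => (X p.1 + Z p.2, A p.1, B p.2)) +
          U * ∑ t ∈ range U, CE (prodW w w') (fun p => lb U t (Z p.2))
            (fun p => (X p.1 + Z p.2, A p.1, B p.2)) := by
        simp only [sum_add_distrib, sum_const, card_range, nsmul_eq_mul]
        rw [← Finset.mul_sum]
      _ = _ := by
        rw [comp_dither (prodW w w') U hU (fun p => X p.1) (fun p => Z p.2)
          (fun p => (A p.1, B p.2))]
        ring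
  -- step 2: fibres
  have himg : (univ.image fun p : Ω × Ω' => (A p.1, B p.2)) =
      (univ.image A) ×ˢ (univ.image B) := by
    ext ⟨a, b⟩
    simp only [mem_image, mem_univ, true_and, Prod.exists, Prod.mk.injEq, mem_product]
    constructor
    · rintro ⟨x, y, h1, h2⟩
      exact ⟨⟨x, h1⟩, ⟨y, h2⟩⟩
    · rintro ⟨⟨x, h1⟩, ⟨y, h2⟩⟩
      exact ⟨x, y, h1, h2⟩
  have hfib : ∀ t : ℕ, CE (prodW w w') (fun p => lb U t (Z p.2))
        (fun p => (X p.1 + Z p.2, A p.1, B p.2)) =
      ∑ a ∈ univ.image A, ∑ b ∈ univ.image B, pr w A a * pr w' B b *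
        CE (prodW (cw w A a) (cw w' B b)) (fun p => lb U t (Z p.2))
          (fun p => X p.1 + Z p.2) := by
    intro t
    have h := CE_fib hWp (fun p : Ω × Ω' => lb U t (Z p.2)) (fun p => X p.1 + Z p.2)
      (fun p => (A p.1, B p.2))
    refine h.trans ?_
    rw [himg, sum_product]
    refine sum_congr rfl fun a _ => sum_congr rfl fun b _ => ?_
    rw [pr_prod, cw_prod]
  have hX : ∑ a ∈ univ.image A, pr w A a * ∑ t ∈ range U, Ent (cw w A a)
      (fun o => lb U t (X o)) = U * HL w U X A := by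
    have h : (U : ℝ) * HL w U X A = ∑ t ∈ range U, CE w (fun o => lb U t (X o)) A := by
      unfold HL
      field_simp
    rw [h, Finset.sum_congr rfl fun t _ => Ent_fib hw (fun o => lb U t (X o)) A, sum_comm]
    exact sum_congr rfl fun a _ => by rw [mul_sum]
  have hZ' : ∑ b ∈ univ.image B, pr w' B b * ∑ t ∈ range U, Ent (cw w' B b)
      (fun o => lb U t (Z o)) = U * HL w' U Z B := by
    have h : (U : ℝ) * HL w' U Z B = ∑ t ∈ range U, CE w' (fun o => lb U t (Z o)) B := by
      unfold HL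
      (clear * - hU; field_simp)
    rw [h, Finset.sum_congr rfl fun t _ => Ent_fib hw' (fun o => lb U t (Z o)) B, sum_comm]
    exact sum_congr rfl fun a _ => by rw [mul_sum]
  have h2 : ∑ t ∈ range U, CE (prodW w w') (fun p => lb U t (Z p.2))
        (fun p => (X p.1 + Z p.2, A p.1, B p.2)) ≤
      (U * HL w U X A) * (η / 2 + mass w' (fun o => (lam : ℤ) < Z o) / σ) +
        η / 2 * (U * HL w' U Z B) + 5 * lam := by
    calc ∑ t ∈ range U, CE (prodW w w') (fun p => lb U t (Z p.2))
          (fun p => (X p.1 + Z p.2, A p.1, B p.2))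
        = ∑ a ∈ univ.image A, ∑ b ∈ univ.image B, pr w A a * pr w' B b *
          ∑ t ∈ range U, CE (prodW (cw w A a) (cw w' B b)) (fun p => lb U t (Z p.2))
          (fun p => X p.1 + Z p.2) := by
          rw [Finset.sum_congr rfl fun t _ => hfib t, sum_comm]
          refine sum_congr rfl fun a _ => ?_
          rw [sum_comm]
          exact sum_congr rfl fun b _ => by rw [mul_sum]
      _ ≤ ∑ a ∈ univ.image A, ∑ b ∈ univ.image B, pr w A a * pr w' B b *
          ((η / 2 + mass (cw w' B b) (fun o => (lam : ℤ) < Z o) / σ) *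
            ∑ t ∈ range U, Ent (cw w A a) (fun o => lb U t (X o)) +
            η / 2 * ∑ t ∈ range U, Ent (cw w' B b) (fun o => lb U t (Z o)) + 5 * lam) := by
          refine sum_le_sum fun a _ => sum_le_sum fun b _ => ?_
          by_cases ha : pr w A a = 0
          · rw [ha]; simp
          by_cases hb : pr w' B b = 0
          · rw [hb]; simp
          refine mul_le_mul_of_nonneg_left ?_
            (mul_nonneg (pr_nonneg hw _ _) (pr_nonneg hw' _ _))
          exact hcl (cw w A a) (cw w' B b) (cw_isPr hw A a ha) (cw_isPr hw' B b hb) X Z U lam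
            hU hK hZ
      _ = (∑ a ∈ univ.image A, pr w A a * ∑ t ∈ range U, Ent (cw w A a)
              (fun o => lb U t (X o))) *
            (∑ b ∈ univ.image B, pr w' B b *
              (η / 2 + mass (cw w' B b) (fun o => (lam : ℤ) < Z o) / σ)) +
          η / 2 * ((∑ a ∈ univ.image A, pr w A a) * (∑ b ∈ univ.image B, pr w' B b *
            ∑ t ∈ range U, Ent (cw w' B b) (fun o => lb U t (Z o)))) +
          5 * lam * ((∑ a ∈ univ.image A, pr w A a) * (∑ b ∈ univ.image B, pr w' B b)) := by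
          exact alg (pr w A) (fun a => ∑ t ∈ range U, Ent (cw w A a) (fun o => lb U t (X o)))
            (pr w' B) (fun b => ∑ t ∈ range U, Ent (cw w' B b) (fun o => lb U t (Z o)))
            (fun b => η / 2 + mass (cw w' B b) (fun o => (lam : ℤ) < Z o) / σ) _ _ _ _
      _ = _ := by
          have hm : ∑ b ∈ univ.image B, pr w' B b *
              (η / 2 + mass (cw w' B b) (fun o => (lam : ℤ) < Z o) / σ) =
              η / 2 + mass w' (fun o => (lam : ℤ) < Z o) / σ := by
            have e : ∀ b ∈ univ.image B, pr w' B b *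
                (η / 2 + mass (cw w' B b) (fun o => (lam : ℤ) < Z o) / σ) =
                η / 2 * pr w' B b +
                  (pr w' B b * mass (cw w' B b) (fun o => (lam : ℤ) < Z o)) / σ := by
              intro b _
              ring
            rw [sum_congr rfl e, sum_add_distrib, ← mul_sum, ← sum_div, sum_pr_one hw' B,
              ← mass_fib hw' (fun o => (lam : ℤ) < Z o) B, mul_one]
          rw [hm, hX, hZ', sum_pr_one hw A, sum_pr_one hw' B]
          ring
  -- end
  rw [div_le_iff₀ (by (clear * - hU; positivity))]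
  refine h1.trans ?_
  refine (mul_le_mul_of_nonneg_left h2 (by positivity)).trans (le_of_eq ?_)
  field_simp
  ring

end Pool.Agent.Helper84.TR
end

/- Helper24.TT.H84.TR.Chain -/
section
/-!
# TR-13: the chain rule over the columns, for fixed dithers
-/

set_option autoImplicit false

open Finset

namespace Pool.Agent.Helper84.TR

open Pool.Agent.Helper15.BP

private theorem labs_eq_iff {Ω : Type*} {n : ℕ} (U : ℕ → ℕ) (θ : (q : Fin n) → Fin (U q)) (p : ℕ)
    (X : Ω → Fin n → ℤ) (o o' : Ω) :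
    labs U θ p X o = labs U θ p X o' ↔
      ∀ q : Fin n, (q : ℕ) < p → lb (U q) (θ q) (X o q) = lb (U q) (θ q) (X o' q) := by
  constructor
  · intro h q hq
    have h1 := congrFun h q
    simpa only [labs, if_pos hq] using h1
  · intro h
    funext q
    by_cases hq : (q : ℕ) < p
    · simpa only [labs, if_pos hq] using h q hq
    · simp only [labs, if_neg hq]

private theorem labs_succ_iff {Ω : Type*} {n : ℕ} (U : ℕ → ℕ) (θ : (q : Fin n) → Fin (U q)) (p : Fin n)
    (X : Ω → Fin n → ℤ) (o o' : Ω) :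
    labs U θ (p + 1) X o = labs U θ (p + 1) X o' ↔
      lb (U p) (θ p) (X o p) = lb (U p) (θ p) (X o' p) ∧
        labs U θ p X o = labs U θ p X o' := by
  rw [labs_eq_iff, labs_eq_iff]
  constructor
  · intro h
    exact ⟨h p (Nat.lt_succ_self _), fun q hq => h q (Nat.lt_succ_of_lt hq)⟩
  · rintro ⟨h1, h2⟩ q hq
    rcases Nat.lt_succ_iff_lt_or_eq.mp hq with h3 | h3
    · exact h2 q h3
    · have h4 : q = p := Fin.ext h3
      subst h4
      exact h1

private theorem filter_succ {n : ℕ} (p : Fin n) :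
    (univ.filter (fun q : Fin n => (q : ℕ) < (p : ℕ) + 1)) =
      insert p (univ.filter (fun q : Fin n => (q : ℕ) < (p : ℕ))) := by
  ext q
  simp only [mem_filter, mem_univ, true_and, mem_insert]
  rw [Nat.lt_succ_iff_lt_or_eq, or_comm]
  exact or_congr Fin.val_inj Iff.rfl

private theorem notMem_filter_self {n : ℕ} (p : Fin n) :
    p ∉ (univ.filter (fun q : Fin n => (q : ℕ) < (p : ℕ))) := by
  simp

private theorem filter_all {n : ℕ} :
    (univ.filter (fun q : Fin n => (q : ℕ) < n)) = univ := by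
  ext q
  simp

variable {Ω Ω' α β γ δ : Type*} [Fintype Ω] [Fintype Ω']

theorem chain_pair {n : ℕ} {w : Ω → ℝ} {w' : Ω' → ℝ} (hw : IsPr w) (hw' : IsPr w')
    (X : Ω → Fin n → ℤ) (Z : Ω' → Fin n → ℤ) (U : ℕ → ℕ) (θ φ : (q : Fin n) → Fin (U q)) :
    CE (prodW w w') (fun p => (labs U θ n X p.1, labs U φ n Z p.2))
        (fun p => X p.1 + Z p.2) ≤
      ∑ q : Fin n, CE (prodW w w')
        (fun p => (lb (U q) (θ q) (X p.1 q), lb (U q) (φ q) (Z p.2 q)))
        (fun p => (X p.1 q + Z p.2 q, labs U θ q X p.1, labs U φ q Z p.2)) := by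
  have hW : IsPr (prodW w w') := IsPr.prod hw hw'
  have key : ∀ p : ℕ, p ≤ n →
      CE (prodW w w') (fun pt => (labs U θ p X pt.1, labs U φ p Z pt.2))
        (fun pt => X pt.1 + Z pt.2) ≤
      ∑ q ∈ univ.filter (fun q : Fin n => (q : ℕ) < p), CE (prodW w w')
        (fun pt => (lb (U q) (θ q) (X pt.1 q), lb (U q) (φ q) (Z pt.2 q)))
        (fun pt => (X pt.1 q + Z pt.2 q, labs U θ q X pt.1, labs U φ q Z pt.2)) := by
    intro p
    induction p with
    | zero =>
      intro _
      have h0 : CE (prodW w w') (fun pt => (labs U θ 0 X pt.1, labs U φ 0 Z pt.2))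
          (fun pt => X pt.1 + Z pt.2) = 0 := by
        unfold CE
        rw [sub_eq_zero]
        apply Ent_congr
        intro o o'
        constructor
        · intro h
          exact (Prod.ext_iff.mp h).2
        · intro h
          refine Prod.ext (Prod.ext ?_ ?_) h
          · exact (labs_eq_iff U θ 0 X o.1 o'.1).mpr (fun q hq => absurd hq (Nat.not_lt_zero _))
          · exact (labs_eq_iff U φ 0 Z o.2 o'.2).mpr (fun q hq => absurd hq (Nat.not_lt_zero _))
      rw [h0]
      simp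
    | succ p ih =>
      intro hp
      have hpn : p < n := hp
      have ih' := ih (Nat.le_of_lt hpn)
      have hf := filter_succ (⟨p, hpn⟩ : Fin n)
      have hnm := notMem_filter_self (⟨p, hpn⟩ : Fin n)
      have e1 : CE (prodW w w')
          (fun pt => (labs U θ (p + 1) X pt.1, labs U φ (p + 1) Z pt.2))
          (fun pt => X pt.1 + Z pt.2) =
          CE (prodW w w')
          (fun pt => ((lb (U p) (θ ⟨p, hpn⟩) (X pt.1 ⟨p, hpn⟩),
              lb (U p) (φ ⟨p, hpn⟩) (Z pt.2 ⟨p, hpn⟩)),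
            (labs U θ p X pt.1, labs U φ p Z pt.2)))
          (fun pt => X pt.1 + Z pt.2) := by
        apply CE_congr
        · intro o o'
          exact Iff.rfl
        · intro o o' _
          have h1 := labs_succ_iff U θ ⟨p, hpn⟩ X o.1 o'.1
          have h2 := labs_succ_iff U φ ⟨p, hpn⟩ Z o.2 o'.2
          simp only [Prod.mk.injEq]
          constructor
          · rintro ⟨h3, h4⟩
            have h5 := h1.mp h3
            have h6 := h2.mp h4
            exact ⟨⟨h5.1, h6.1⟩, h5.2, h6.2⟩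
          · rintro ⟨⟨h3, h4⟩, h5, h6⟩
            exact ⟨h1.mpr ⟨h3, h5⟩, h2.mpr ⟨h4, h6⟩⟩
      have e2 := CE_chain (prodW w w')
          (fun pt : Ω × Ω' => (lb (U p) (θ ⟨p, hpn⟩) (X pt.1 ⟨p, hpn⟩),
              lb (U p) (φ ⟨p, hpn⟩) (Z pt.2 ⟨p, hpn⟩)))
          (fun pt : Ω × Ω' => (labs U θ p X pt.1, labs U φ p Z pt.2))
          (fun pt : Ω × Ω' => X pt.1 + Z pt.2)
      have e3 : CE (prodW w w')
          (fun pt : Ω × Ω' => (lb (U p) (θ ⟨p, hpn⟩) (X pt.1 ⟨p, hpn⟩),
              lb (U p) (φ ⟨p, hpn⟩) (Z pt.2 ⟨p, hpn⟩)))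
          (fun pt : Ω × Ω' => ((labs U θ p X pt.1, labs U φ p Z pt.2), X pt.1 + Z pt.2)) ≤
          CE (prodW w w')
          (fun pt : Ω × Ω' => (lb (U p) (θ ⟨p, hpn⟩) (X pt.1 ⟨p, hpn⟩),
              lb (U p) (φ ⟨p, hpn⟩) (Z pt.2 ⟨p, hpn⟩)))
          (fun pt : Ω × Ω' => (X pt.1 ⟨p, hpn⟩ + Z pt.2 ⟨p, hpn⟩,
            labs U θ p X pt.1, labs U φ p Z pt.2)) := by
        apply CE_anti hW
        intro o o' h
        have h1 := (Prod.ext_iff.mp h).1
        have h2 := (Prod.ext_iff.mp h).2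
        have h3 : X o.1 ⟨p, hpn⟩ + Z o.2 ⟨p, hpn⟩ = X o'.1 ⟨p, hpn⟩ + Z o'.2 ⟨p, hpn⟩ :=
          congrFun h2 ⟨p, hpn⟩
        exact Prod.ext h3 h1
      rw [e1, e2]
      have hs : (∑ q ∈ univ.filter (fun q : Fin n => (q : ℕ) < p + 1), CE (prodW w w')
          (fun pt => (lb (U q) (θ q) (X pt.1 q), lb (U q) (φ q) (Z pt.2 q)))
          (fun pt => (X pt.1 q + Z pt.2 q, labs U θ q X pt.1, labs U φ q Z pt.2))) =
          CE (prodW w w')
          (fun pt : Ω × Ω' => (lb (U p) (θ ⟨p, hpn⟩) (X pt.1 ⟨p, hpn⟩),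
              lb (U p) (φ ⟨p, hpn⟩) (Z pt.2 ⟨p, hpn⟩)))
          (fun pt : Ω × Ω' => (X pt.1 ⟨p, hpn⟩ + Z pt.2 ⟨p, hpn⟩,
            labs U θ p X pt.1, labs U φ p Z pt.2)) +
          ∑ q ∈ univ.filter (fun q : Fin n => (q : ℕ) < p), CE (prodW w w')
          (fun pt => (lb (U q) (θ q) (X pt.1 q), lb (U q) (φ q) (Z pt.2 q)))
          (fun pt => (X pt.1 q + Z pt.2 q, labs U θ q X pt.1, labs U φ q Z pt.2)) := by
        have hf' : (univ.filter (fun q : Fin n => (q : ℕ) < p + 1)) =
          insert ⟨p, hpn⟩ (univ.filter (fun q : Fin n => (q : ℕ) < p)) := hf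
        rw [hf', sum_insert hnm]
      rw [hs]
      linarith only [ih', e3]
  have hfin := key n le_rfl
  rw [filter_all] at hfin
  exact hfin

theorem chain_one {n : ℕ} {w : Ω → ℝ} (hw : IsPr w) (X : Ω → Fin n → ℤ) (U : ℕ → ℕ)
    (θ : (q : Fin n) → Fin (U q)) :
    ∑ q : Fin n, CE w (fun o => lb (U q) (θ q) (X o q)) (labs U θ q X) ≤ Ent w X := by
  have key : ∀ p : ℕ, p ≤ n →
      ∑ q ∈ univ.filter (fun q : Fin n => (q : ℕ) < p),
        CE w (fun o => lb (U q) (θ q) (X o q)) (labs U θ q X) = Ent w (labs U θ p X) := by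
    intro p
    induction p with
    | zero =>
      intro _
      have h0 : Ent w (labs U θ 0 X) = 0 := by
        have h1 : Ent w (labs U θ 0 X) = Ent w (fun _ : Ω => (0 : ℕ)) := by
          apply Ent_congr
          intro o o'
          constructor
          · intro _
            rfl
          · intro _
            exact (labs_eq_iff U θ 0 X o o').mpr (fun q hq => absurd hq (Nat.not_lt_zero _))
        rw [h1]
        exact Ent_const hw 0
      rw [h0]
      simp
    | succ p ih =>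
      intro hp
      have hpn : p < n := hp
      have ih' := ih (Nat.le_of_lt hpn)
      have hf' : (univ.filter (fun q : Fin n => (q : ℕ) < p + 1)) =
          insert ⟨p, hpn⟩ (univ.filter (fun q : Fin n => (q : ℕ) < p)) :=
        filter_succ (⟨p, hpn⟩ : Fin n)
      have hnm := notMem_filter_self (⟨p, hpn⟩ : Fin n)
      rw [hf', sum_insert hnm, ih']
      have h1 : Ent w (fun o => (lb (U p) (θ ⟨p, hpn⟩) (X o ⟨p, hpn⟩), labs U θ p X o)) =
          Ent w (labs U θ (p + 1) X) := by
        apply Ent_congr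
        intro o o'
        rw [labs_succ_iff U θ ⟨p, hpn⟩ X o o']
        exact Prod.mk.injEq _ _ _ _ ▸ Iff.rfl
      have h2 : CE w (fun o => lb (U p) (θ ⟨p, hpn⟩) (X o ⟨p, hpn⟩)) (labs U θ p X) =
          Ent w (fun o => (lb (U p) (θ ⟨p, hpn⟩) (X o ⟨p, hpn⟩), labs U θ p X o)) -
            Ent w (labs U θ p X) := rfl
      have h3 : CE w (fun o => lb (U (⟨p, hpn⟩ : Fin n)) (θ ⟨p, hpn⟩) (X o ⟨p, hpn⟩))
          (labs U θ (⟨p, hpn⟩ : Fin n) X) =
          CE w (fun o => lb (U p) (θ ⟨p, hpn⟩) (X o ⟨p, hpn⟩)) (labs U θ p X) := rfl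
      rw [h3, h2, h1]
      ring
  have hfin := key n le_rfl
  rw [filter_all] at hfin
  rw [hfin]
  apply Ent_mono hw
  intro o o' h
  rw [labs_eq_iff]
  intro q _
  rw [h]

end Pool.Agent.Helper84.TR
end

/- Helper24.TT.H84.TR.Cols -/
section
/-!
# TR-16: all columns together

Average `chain_pair` over `θ, φ`; in the term of the column `q` average over `θ q` and `φ q` first
(`avg_update`; the pasts `labs U θ q X` do not depend on `θ q`) and use `col`; then `chain_one`.
-/

set_option autoImplicit false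

open Finset

namespace Pool.Agent.Helper84.TR

open Pool.Agent.Helper15.BP

private theorem labs_update {Ω : Type*} {n : ℕ} (U : ℕ → ℕ) (θ : (q : Fin n) → Fin (U q))
    (q : Fin n) (t : Fin (U q)) (X : Ω → Fin n → ℤ) :
    labs U (Function.update θ q t) q X = labs U θ q X := by
  funext o r
  unfold labs
  by_cases h : (r : ℕ) < q
  · have hne : r ≠ q := by
      rintro rfl
      exact lt_irrefl _ h
    rw [if_pos h, if_pos h, Function.update_of_ne hne]
  · rw [if_neg h, if_neg h]

private theorem avg_HL {Ω : Type*} [Fintype Ω] {n : ℕ} (w : Ω → ℝ) (X : Ω → Fin n → ℤ)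
    (U : ℕ → ℕ) (hU : ∀ q, 0 < U q) (q : Fin n) :
    avg U (fun θ => HL w (U q) (fun o => X o q) (labs U θ q X)) =
      avg U (fun θ => CE w (fun o => lb (U q) (θ q) (X o q)) (labs U θ q X)) := by
  rw [avg_update U hU (fun θ => CE w (fun o => lb (U q) (θ q) (X o q)) (labs U θ q X)) q]
  congr 1
  funext θ
  simp only [labs_update, Function.update_self]
  unfold HL
  rw [Finset.sum_range]

private theorem sum_avg_HL_le {Ω : Type*} [Fintype Ω] {n : ℕ} {w : Ω → ℝ} (hw : IsPr w)
    (X : Ω → Fin n → ℤ) (U : ℕ → ℕ) (hU : ∀ q, 0 < U q) :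
    ∑ q : Fin n, avg U (fun θ => HL w (U q) (fun o => X o q) (labs U θ q X)) ≤ Ent w X := by
  rw [sum_congr rfl fun q _ => avg_HL w X U hU q, ← avg_sum]
  refine (avg_mono U fun θ => chain_one hw X U θ).trans ?_
  rw [avg_const U hU]

private theorem HL_nonneg {Ω α : Type*} [Fintype Ω] {w : Ω → ℝ} (hw : IsPr w) (U : ℕ) (X : Ω → ℤ)
    (A : Ω → α) : 0 ≤ HL w U X A :=
  div_nonneg (sum_nonneg fun _ _ => CE_nonneg hw _ _) (Nat.cast_nonneg _)

theorem cols (η : ℝ) (hη : 0 < η) : ∃ (κ : ℝ) (K : ℕ), 0 < κ ∧ 1 ≤ K ∧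
    ∀ {Ω Ω' : Type} [Fintype Ω] [Fintype Ω'] (w : Ω → ℝ) (w' : Ω' → ℝ), IsPr w → IsPr w' →
      ∀ (n : ℕ) (X : Ω → Fin n → ℤ) (Z : Ω' → Fin n → ℤ) (U lam : ℕ → ℕ), (∀ q, 0 < U q) →
      (∀ q, K * lam q ≤ U q) → (∀ o q, 0 ≤ Z o q) →
      (∀ q : Fin n, mass w' (fun o => (lam q : ℤ) < Z o q) ≤ κ) →
      avg U (fun θ => CE (prodW w w') (fun p => labs U θ n X p.1) (fun p => X p.1 + Z p.2)) ≤
        η * (Ent w X + Ent w' Z) + 10 * ∑ q : Fin n, (lam q : ℝ) / U q := by
  obtain ⟨σ, K, hσ, hcol⟩ := col (η / 2) (by (clear * - hη; positivity))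
  refine ⟨σ * (η / 2), K + 1, by positivity, by omega, ?_⟩
  intro Ω Ω' _ _ w w' hw hw' n X Z U lam hU hK hZ hm
  have hW : IsPr (prodW w w') := hw.prod hw'
  -- the term of the column `q`
  let G : Fin n → ((q : Fin n) → Fin (U q)) → ((q : Fin n) → Fin (U q)) → ℝ := fun q θ φ =>
    CE (prodW w w')
        (fun p => (lb (U q) (θ q) (X p.1 q), lb (U q) (φ q) (Z p.2 q)))
        (fun p => (X p.1 q + Z p.2 q, labs U θ q X p.1, labs U φ q Z p.2))
  have h1 : ∀ θ, CE (prodW w w') (fun p => labs U θ n X p.1) (fun p => X p.1 + Z p.2) ≤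
      avg U (fun φ => ∑ q : Fin n, G q θ φ) := by
    intro θ
    rw [← avg_const (n := n) U hU
      (CE (prodW w w') (fun p => labs U θ n X p.1) (fun p => X p.1 + Z p.2))]
    refine avg_mono U fun φ => ?_
    refine le_trans ?_ (chain_pair hw hw' X Z U θ φ)
    refine CE_mono hW ?_
    intro o o' _ h
    exact (Prod.mk.inj h).1
  have h2 : avg U (fun θ => CE (prodW w w') (fun p => labs U θ n X p.1)
      (fun p => X p.1 + Z p.2)) ≤
      ∑ q : Fin n, avg U (fun θ => avg U (fun φ => G q θ φ)) := by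
    refine (avg_mono U h1).trans (le_of_eq ?_)
    have e : ∀ θ : ((q : Fin n) → Fin (U q)), avg U (fun φ => ∑ q : Fin n, G q θ φ) =
        ∑ q : Fin n, avg U (fun φ => G q θ φ) := fun θ => avg_sum univ U fun q φ => G q θ φ
    simp only [e]
    exact avg_sum univ U fun q θ => avg U (fun φ => G q θ φ)
  have h3 : ∀ q : Fin n, avg U (fun θ => avg U (fun φ => G q θ φ)) ≤
      η * avg U (fun θ => HL w (U q) (fun o => X o q) (labs U θ q X)) +
      η * avg U (fun φ => HL w' (U q) (fun o => Z o q) (labs U φ q Z)) +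
      10 * ((lam q : ℝ) / U q) := by
    intro q
    have hUq : (0 : ℝ) < U q := by exact_mod_cast hU q
    have e1 : avg U (fun θ => avg U (fun φ => G q θ φ)) =
        avg U (fun θ => avg U (fun φ => (∑ t ∈ range (U q), ∑ t' ∈ range (U q),
          CE (prodW w w')
          (fun p => (lb (U q) t (X p.1 q), lb (U q) t' (Z p.2 q)))
          (fun p => (X p.1 q + Z p.2 q, labs U θ q X p.1, labs U φ q Z p.2))) /
            (U q : ℝ) ^ 2)) := by
      rw [avg_update U hU (fun θ => avg U (fun φ => G q θ φ)) q]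
      congr 1
      funext θ
      have e2 : ∀ t : Fin (U q), avg U (fun φ => G q (Function.update θ q t) φ) =
          avg U (fun φ => (∑ t' : Fin (U q),
            G q (Function.update θ q t) (Function.update φ q t')) / U q) := fun t =>
        avg_update U hU (fun φ => G q (Function.update θ q t) φ) q
      rw [sum_congr rfl fun t _ => e2 t, ← avg_sum, div_eq_inv_mul, ← avg_mul]
      congr 1
      funext φ
      rw [Finset.sum_range, ← sum_div, ← div_eq_inv_mul, div_div, ← sq]
      congr 1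
      refine sum_congr rfl fun t _ => ?_
      rw [Finset.sum_range]
      refine sum_congr rfl fun t' _ => ?_
      simp only [G, labs_update, Function.update_self]
    rw [e1]
    have hmq : mass w' (fun o => (lam q : ℤ) < Z o q) / σ ≤ η / 2 := by
      rw [div_le_iff₀ hσ]
      linarith only [hm q]
    have hKq : K * lam q ≤ U q := le_trans (Nat.mul_le_mul_right _ (Nat.le_succ K)) (hK q)
    have e3 : ∀ θ φ : ((q : Fin n) → Fin (U q)), (∑ t ∈ range (U q), ∑ t' ∈ range (U q),
          CE (prodW w w')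
          (fun p => (lb (U q) t (X p.1 q), lb (U q) t' (Z p.2 q)))
          (fun p => (X p.1 q + Z p.2 q, labs U θ q X p.1, labs U φ q Z p.2))) /
            (U q : ℝ) ^ 2 ≤
        η * HL w (U q) (fun o => X o q) (labs U θ q X) +
        (η * HL w' (U q) (fun o => Z o q) (labs U φ q Z) + 10 * ((lam q : ℝ) / U q)) := by
      intro θ φ
      have h := hcol w w' hw hw' (fun o => X o q) (fun o => Z o q) (labs U θ q X)
        (labs U φ q Z) (U q) (lam q) (hU q) hKq (fun o => hZ o q)
      refine h.trans ?_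
      have p1 := HL_nonneg hw (U q) (fun o => X o q) (labs U θ q X)
      have p2 := HL_nonneg hw' (U q) (fun o => Z o q) (labs U φ q Z)
      have p3 := mul_le_mul_of_nonneg_right hmq p1
      have p4 : 0 ≤ η / 2 * HL w' (U q) (fun o => Z o q) (labs U φ q Z) := by (clear * - hη p2; positivity)
      linarith only [p3, p4]
    refine (avg_mono U fun θ => avg_mono U fun φ => e3 θ φ).trans (le_of_eq ?_)
    have e4 : ∀ θ : ((q : Fin n) → Fin (U q)), avg U (fun φ : ((q : Fin n) → Fin (U q)) =>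
        η * HL w (U q) (fun o => X o q) (labs U θ q X) +
        (η * HL w' (U q) (fun o => Z o q) (labs U φ q Z) + 10 * ((lam q : ℝ) / U q))) =
        η * HL w (U q) (fun o => X o q) (labs U θ q X) +
        (η * avg U (fun φ => HL w' (U q) (fun o => Z o q) (labs U φ q Z)) +
          10 * ((lam q : ℝ) / U q)) := by
      intro θ
      rw [avg_add, avg_add, avg_const U hU, avg_const U hU, avg_mul]
    simp only [e4]
    rw [avg_add, avg_const U hU, avg_mul]
    ring
  refine h2.trans ((sum_le_sum fun q _ => h3 q).trans ?_)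
  rw [sum_add_distrib, sum_add_distrib, ← mul_sum, ← mul_sum, ← mul_sum]
  have q1 := mul_le_mul_of_nonneg_left (sum_avg_HL_le hw X U hU) hη.le
  have q2 := mul_le_mul_of_nonneg_left (sum_avg_HL_le hw' Z U hU) hη.le
  linarith

end Pool.Agent.Helper84.TR
end

/- Helper24.TT.H84.TR.Fibre -/
section
/-!
# TR-17: the fibres of the labels

`a : Ω → α` with at most `exp L` values, `X : Ω → (Fin n → ℤ)` a function of `a`.  With probability
at least `1 - exp (-2 L)` over `θ` equal labels imply `∑ |X_q - Y_q| / U_q ≤ 4 L`; on such `θ` every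
fibre has at most `M` values of `a` (`CE_le_log`), on the others use `H(a | ..) ≤ L`.
-/

set_option autoImplicit false

open Finset

namespace Pool.Agent.Helper84.TR

open Pool.Agent.Helper15.BP

/-- one if all labels of `x` and `y` agree -/
private def eqL {n : ℕ} (U : ℕ → ℕ) (x y : Fin n → ℤ) (θ : (q : Fin n) → Fin (U q)) : ℝ :=
  if ∀ q : Fin n, lb (U q) (θ q) (x q) = lb (U q) (θ q) (y q) then (1 : ℝ) else 0

private theorem eqL_nonneg {n : ℕ} (U : ℕ → ℕ) (x y : Fin n → ℤ)
    (θ : (q : Fin n) → Fin (U q)) : 0 ≤ eqL U x y θ := by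
  unfold eqL
  split_ifs
  · exact zero_le_one
  · exact le_rfl

private theorem eqL_avg {n : ℕ} (U : ℕ → ℕ) (hU : ∀ q, 0 < U q) (x y : Fin n → ℤ) :
    avg U (eqL U x y) ≤ Real.exp (-∑ q : Fin n, |((x q - y q : ℤ) : ℝ)| / U q) :=
  sep_avg U hU x y

theorem fibre {Ω α : Type} [Fintype Ω] [DecidableEq α] (w : Ω → ℝ) (hw : IsPr w) (n : ℕ)
    (a : Ω → α) (X : Ω → Fin n → ℤ) (hX : ∀ o o', a o = a o' → X o = X o') (U : ℕ → ℕ)
    (hU : ∀ q, 0 < U q) (L : ℝ) (hL : 1 ≤ L) (M : ℕ) (hM : 1 ≤ M)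
    (hcard : ((univ.image a).card : ℝ) ≤ Real.exp L)
    (hcell : ∀ o, {b : α | ∃ o', a o' = b ∧ (∀ q : Fin n, |X o q - X o' q| < (U q : ℤ)) ∧
      ∑ q : Fin n, |((X o q - X o' q : ℤ) : ℝ)| / U q ≤ 4 * L}.ncard ≤ M) :
    avg U (fun θ => CE w a (labs U θ n X)) ≤ Real.log M + 1 := by
  have hne : Nonempty Ω := by
    by_contra h
    rw [not_nonempty_iff] at h
    have h1 := hw.sum_one
    simp at h1
  have hr : ∀ o, a (Function.invFun a (a o)) = a o := fun o => Function.invFun_eq ⟨o, rfl⟩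
  have hXr : ∀ o, X (Function.invFun a (a o)) = X o := fun o => hX _ _ (hr o)
  have hlogM : 0 ≤ Real.log M := Real.log_nonneg (by exact_mod_cast hM)
  have hL0 : 0 ≤ L := by (clear * - hL; linarith only [hL])
  obtain ⟨r, hrdef⟩ : ∃ r : α → Ω, r = Function.invFun a := ⟨_, rfl⟩
  rw [← hrdef] at hr hXr
  obtain ⟨P, hP⟩ : ∃ P : Finset (α × α), ∀ p, p ∈ P ↔ (p.1 ∈ univ.image a ∧ p.2 ∈ univ.image a) ∧
      4 * L < ∑ q : Fin n, |((X (r p.1) q - X (r p.2) q : ℤ) : ℝ)| / U q := by
    classical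
    refine ⟨((univ.image a) ×ˢ (univ.image a)).filter (fun p =>
      4 * L < ∑ q : Fin n, |((X (r p.1) q - X (r p.2) q : ℤ) : ℝ)| / U q), fun p => ?_⟩
    rw [mem_filter, mem_product]
  have hPcard : (P.card : ℝ) ≤ Real.exp L * Real.exp L := by
    have h1 : P ⊆ (univ.image a) ×ˢ (univ.image a) := fun p hp => by
      rw [mem_product]
      exact ((hP p).1 hp).1
    have h2 := card_le_card h1
    rw [card_product] at h2
    have h3 : (P.card : ℝ) ≤ ((univ.image a).card : ℝ) * (univ.image a).card := by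
      exact_mod_cast h2
    exact h3.trans (mul_le_mul hcard hcard (Nat.cast_nonneg _) (Real.exp_pos _).le)
  -- the bound for every dither
  have key : ∀ θ : (q : Fin n) → Fin (U q), CE w a (labs U θ n X) ≤
      Real.log M + L * ∑ p ∈ P, eqL U (X (r p.1)) (X (r p.2)) θ := by
    intro θ
    by_cases hB : ∃ p ∈ P, ∀ q : Fin n, lb (U q) (θ q) (X (r p.1) q) =
        lb (U q) (θ q) (X (r p.2) q)
    · obtain ⟨p, hp, hpq⟩ := hB
      have h1 : (1 : ℝ) ≤ ∑ p ∈ P, eqL U (X (r p.1)) (X (r p.2)) θ := by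
        have h2 := single_le_sum (f := fun p => eqL U (X (r p.1)) (X (r p.2)) θ)
          (fun p _ => eqL_nonneg U _ _ θ) hp
        have h3 : eqL U (X (r p.1)) (X (r p.2)) θ = 1 := by
          unfold eqL
          rw [if_pos hpq]
        rw [h3] at h2
        exact h2
      have h4 : CE w a (labs U θ n X) ≤ L := by
        have h5 := CE_le_log hw a (labs U θ n X) (univ.image a).card (fun o => by
          have h6 : {b : α | ∃ o', labs U θ n X o' = labs U θ n X o ∧ a o' = b} ⊆
              ((univ.image a : Finset α) : Set α) := by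
            rintro b ⟨o', -, rfl⟩
            exact mem_coe.2 (mem_image_of_mem a (mem_univ o'))
          have h7 := Set.ncard_le_ncard h6 (finite_toSet _)
          rwa [Set.ncard_coe_finset] at h7)
        refine h5.trans ?_
        have h8 : (0 : ℝ) < ((univ.image a).card : ℝ) := by
          obtain ⟨o⟩ := hne
          exact_mod_cast card_pos.2 ⟨a o, mem_image_of_mem a (mem_univ o)⟩
        rw [Real.log_le_iff_le_exp h8]
        exact hcard
      (clear * - hlogM h4 hL0 h1; nlinarith only [hlogM, hL0, h1, h4])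
    · push Not at hB
      have h1 : 0 ≤ ∑ p ∈ P, eqL U (X (r p.1)) (X (r p.2)) θ :=
        sum_nonneg fun p _ => eqL_nonneg U _ _ θ
      have h2 : CE w a (labs U θ n X) ≤ Real.log M := by
        refine CE_le_log hw a (labs U θ n X) M fun o => ?_
        refine le_trans (Set.ncard_le_ncard ?_ ?_) (hcell o)
        · rintro b ⟨o', hlab, hb⟩
          have h3 : ∀ q : Fin n, lb (U q) (θ q) (X o' q) = lb (U q) (θ q) (X o q) := by
            intro q
            have h4 := congrFun hlab q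
            unfold labs at h4
            rwa [if_pos q.2, if_pos q.2] at h4
          refine ⟨o', hb, fun q => lb_eq_lt _ _ (hU q) _ _ (h3 q).symm, ?_⟩
          by_contra hcon
          push Not at hcon
          have h5 : ((a o, a o') : α × α) ∈ P := by
            rw [hP]
            refine ⟨⟨mem_image_of_mem a (mem_univ o), mem_image_of_mem a (mem_univ o')⟩, ?_⟩
            simp only [hXr]
            exact hcon
          obtain ⟨q, hq⟩ := hB _ h5
          simp only [hXr] at hq
          exact hq (h3 q).symm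
        · refine Set.Finite.subset (finite_toSet (univ.image a)) ?_
          rintro b ⟨o', hb, -⟩
          rw [← hb]
          exact mem_coe.2 (mem_image_of_mem a (mem_univ o'))
      (clear * - h2 hL0 h1; nlinarith only [hL0, h1, h2])
  refine (avg_mono U key).trans ?_
  rw [avg_add, avg_const U hU, avg_mul, avg_sum]
  have hsum : ∑ p ∈ P, avg U (fun θ => eqL U (X (r p.1)) (X (r p.2)) θ) ≤
      Real.exp L * Real.exp L * Real.exp (-(4 * L)) := by
    have h1 : ∀ p ∈ P, avg U (fun θ => eqL U (X (r p.1)) (X (r p.2)) θ) ≤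
        Real.exp (-(4 * L)) := by
      intro p hp
      refine (eqL_avg U hU (X (r p.1)) (X (r p.2))).trans ?_
      rw [Real.exp_le_exp, neg_le_neg_iff]
      exact ((hP p).1 hp).2.le
    have h2 := sum_le_card_nsmul P _ _ h1
    rw [nsmul_eq_mul] at h2
    exact h2.trans (mul_le_mul_of_nonneg_right hPcard (Real.exp_pos _).le)
  have h3 : Real.exp L * Real.exp L * Real.exp (-(4 * L)) = Real.exp (-(2 * L)) := by
    rw [← Real.exp_add, ← Real.exp_add]
    congr 1
    ring
  rw [h3] at hsum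
  have h4 : L * Real.exp (-(2 * L)) ≤ 1 := by
    have h5 : L ≤ Real.exp (2 * L) := by
      have := Real.add_one_le_exp (2 * L)
      linarith only [hL0, this]
    have h6 : Real.exp (2 * L) * Real.exp (-(2 * L)) = 1 := by
      rw [← Real.exp_add]
      simp
    calc L * Real.exp (-(2 * L)) ≤ Real.exp (2 * L) * Real.exp (-(2 * L)) :=
          mul_le_mul_of_nonneg_right h5 (Real.exp_pos _).le
      _ = 1 := h6
  have h7 : L * ∑ p ∈ P, avg U (fun θ => eqL U (X (r p.1)) (X (r p.2)) θ) ≤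
      L * Real.exp (-(2 * L)) := mul_le_mul_of_nonneg_left hsum hL0
  linarith only [h4, h7]

end Pool.Agent.Helper84.TR
end

/- Helper24.TT.H84.TR.Dec -/
section
/-!
# TR-18: the decoding lemma, vector form

`U q = UresC K τ L Γ c lam q`, `Γ = ∑ lam_q c_q`: `∑ r lam_q / U_q ≤ r L / τ`, and
`|x_q - y_q| < U_q`, `∑ |x_q - y_q| / U_q ≤ 4 L` give `∑ |x_q - y_q| c_q ≤ (K + 1 + 4 τ) Γ`.
Then `CE a T ≤ CE (labs X) (X + Z) + CE a (labs X)` averaged over `θ`.
-/

set_option autoImplicit false

open Finset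

namespace Pool.Agent.Helper84.TR

open Pool.Agent.Helper15.BP

private theorem decU_zero (K : ℕ) (τ L Γ : ℝ) (c : ℕ → ℝ) (lam : ℕ → ℕ) (q : ℕ)
    (h : lam q = 0) : UresC K τ L Γ c lam q = 1 := by
  unfold UresC
  rw [if_pos h]

private theorem decU_pos (K : ℕ) (hK : 1 ≤ K) (τ L Γ : ℝ) (c : ℕ → ℝ) (lam : ℕ → ℕ) (q : ℕ) :
    0 < UresC K τ L Γ c lam q := by
  unfold UresC
  split_ifs with h
  · exact one_pos
  · have : 0 < K * lam q := Nat.mul_pos hK (Nat.pos_of_ne_zero h)
    omega

private theorem decU_ge_mul (K : ℕ) (τ L Γ : ℝ) (c : ℕ → ℝ) (lam : ℕ → ℕ) (q : ℕ) :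
    K * lam q ≤ UresC K τ L Γ c lam q := by
  unfold UresC
  split_ifs with h
  · rw [h]; simp
  · omega

private theorem decU_ge (K : ℕ) (τ L Γ : ℝ) (c : ℕ → ℝ) (lam : ℕ → ℕ) (q : ℕ)
    (h : lam q ≠ 0) : τ * Γ / (L * c q) ≤ (UresC K τ L Γ c lam q : ℝ) := by
  unfold UresC
  rw [if_neg h]
  push_cast
  have h1 := Nat.le_ceil (τ * Γ / (L * c q))
  have h2 : (0 : ℝ) ≤ (K : ℝ) * (lam q : ℝ) := by (clear * - h; positivity)
  (clear * - h1 h2; linarith)

private theorem decU_le (K : ℕ) (τ L Γ : ℝ) (c : ℕ → ℝ) (lam : ℕ → ℕ) (q : ℕ)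
    (h : lam q ≠ 0) (h0 : 0 ≤ τ * Γ / (L * c q)) :
    (UresC K τ L Γ c lam q : ℝ) ≤ (K + 1) * lam q + τ * Γ / (L * c q) := by
  unfold UresC
  rw [if_neg h]
  push_cast
  have h1 := (Nat.ceil_lt_add_one h0).le
  have h2 : (1 : ℝ) ≤ (lam q : ℝ) := by exact_mod_cast Nat.one_le_iff_ne_zero.2 h
  (clear * - h1 h2; linarith)

/-- the sum of `lam / U` -/
private theorem dec_sum_lam (n K : ℕ) (hK : 1 ≤ K) (τ L : ℝ) (hτ : 0 < τ) (hL : 1 ≤ L)
    (c : ℕ → ℝ) (hc : ∀ q, 0 < c q) (lam : ℕ → ℕ) :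
    ∑ q : Fin n, (lam q : ℝ) /
      (UresC K τ L (∑ q : Fin n, (lam q : ℝ) * c q) c lam q : ℝ) ≤ L / τ := by
  set Γ : ℝ := ∑ q : Fin n, (lam q : ℝ) * c q with hΓ
  have hL0 : 0 < L := by (clear * - hL; linarith only [hL])
  have hterm : ∀ q : Fin n, 0 ≤ (lam q : ℝ) * c q := fun q =>
    mul_nonneg (Nat.cast_nonneg _) (hc q).le
  have hΓ0 : 0 ≤ Γ := Finset.sum_nonneg fun q _ => hterm q
  rcases hΓ0.eq_or_lt with h0 | hpos
  · have hz : ∀ q : Fin n, (lam q : ℝ) = 0 := by
      intro q
      have h1 := (Finset.sum_eq_zero_iff_of_nonneg (s := (Finset.univ : Finset (Fin n)))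
        (f := fun q : Fin n => (lam q : ℝ) * c q) (fun q _ => hterm q)).1 h0.symm q
        (Finset.mem_univ q)
      rcases mul_eq_zero.1 h1 with h2 | h2
      · exact h2
      · exact absurd h2 (hc q).ne'
    have : ∑ q : Fin n, (lam q : ℝ) / (UresC K τ L Γ c lam q : ℝ) = 0 := by
      refine Finset.sum_eq_zero fun q _ => ?_
      rw [hz q, zero_div]
    rw [this]
    positivity
  · have h1 : ∀ q : Fin n, (lam q : ℝ) / (UresC K τ L Γ c lam q : ℝ) ≤
        L / (τ * Γ) * ((lam q : ℝ) * c q) := by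
      intro q
      by_cases h : lam q = 0
      · rw [h]; simp
      · have hU : (0 : ℝ) < (UresC K τ L Γ c lam q : ℝ) := by
          exact_mod_cast decU_pos K hK τ L Γ c lam q
        have h2 := decU_ge K τ L Γ c lam q h
        have hcq := hc q
        rw [div_le_iff₀ hU]
        have h3 : L / (τ * Γ) * ((lam q : ℝ) * c q) * (τ * Γ / (L * c q)) = (lam q : ℝ) := by
          (clear * - hL hτ hpos hcq h; field_simp)
        have h4 : 0 ≤ L / (τ * Γ) * ((lam q : ℝ) * c q) := by
          have := hterm q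
          (clear * - hL hτ hpos h hcq; positivity)
        calc (lam q : ℝ) = L / (τ * Γ) * ((lam q : ℝ) * c q) * (τ * Γ / (L * c q)) := h3.symm
          _ ≤ _ := mul_le_mul_of_nonneg_left h2 h4
    refine (Finset.sum_le_sum fun q _ => h1 q).trans ?_
    rw [← Finset.mul_sum, ← hΓ]
    rw [div_mul_eq_mul_div, div_le_div_iff₀ (by (clear * - hτ hpos; positivity)) hτ]
    (clear * -; linarith only [])

/-- closeness in the labels bounds the distance -/
private theorem dec_dist (n K : ℕ) (hK : 1 ≤ K) (τ L : ℝ) (hτ : 0 < τ) (hL : 1 ≤ L)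
    (c : ℕ → ℝ) (hc : ∀ q, 0 < c q) (lam : ℕ → ℕ) (D : Fin n → ℤ)
    (hD : ∀ q : Fin n, |D q| <
      (UresC K τ L (∑ q : Fin n, (lam q : ℝ) * c q) c lam q : ℤ))
    (hS : ∑ q : Fin n, |((D q : ℤ) : ℝ)| /
      (UresC K τ L (∑ q : Fin n, (lam q : ℝ) * c q) c lam q : ℝ) ≤ 4 * L) :
    ∑ q : Fin n, |((D q : ℤ) : ℝ)| * c q ≤
      (K + 1 + 4 * τ) * ∑ q : Fin n, (lam q : ℝ) * c q := by
  set Γ : ℝ := ∑ q : Fin n, (lam q : ℝ) * c q with hΓ
  have hL0 : 0 < L := by linarith only [hL]
  have hterm : ∀ q : Fin n, 0 ≤ (lam q : ℝ) * c q := fun q =>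
    mul_nonneg (Nat.cast_nonneg _) (hc q).le
  have hΓ0 : 0 ≤ Γ := Finset.sum_nonneg fun q _ => hterm q
  have h1 : ∀ q : Fin n, |((D q : ℤ) : ℝ)| * c q ≤ (K + 1) * ((lam q : ℝ) * c q) +
      τ * Γ / L * (|((D q : ℤ) : ℝ)| / (UresC K τ L Γ c lam q : ℝ)) := by
    intro q
    have hcq := hc q
    have hUq : 0 < UresC K τ L Γ c lam q := decU_pos K hK τ L Γ c lam q
    have hU : (0 : ℝ) < (UresC K τ L Γ c lam q : ℝ) := by exact_mod_cast hUq
    have hDU : |((D q : ℤ) : ℝ)| < (UresC K τ L Γ c lam q : ℝ) := by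
      have := hD q
      have h2 : ((|D q| : ℤ) : ℝ) < (((UresC K τ L Γ c lam q : ℕ) : ℤ) : ℝ) := by
        exact_mod_cast this
      rw [Int.cast_abs] at h2
      simpa using h2
    by_cases h : lam q = 0
    · have h3 : |D q| < 1 := by
        have := hD q
        rw [decU_zero K τ L Γ c lam q h] at this
        simpa using this
      have h4 : D q = 0 := Int.abs_lt_one_iff.1 h3
      rw [h4, h]
      simp
    · have hX0 : 0 ≤ τ * Γ / (L * c q) := by (clear * - hτ hΓ0 hL hcq; positivity)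
      have h2 := decU_le K τ L Γ c lam q h hX0
      set x : ℝ := |((D q : ℤ) : ℝ)| with hx
      have hx0 : 0 ≤ x := abs_nonneg _
      set U : ℝ := (UresC K τ L Γ c lam q : ℝ) with hUdef
      have hxU : x / U ≤ 1 := by rw [div_le_one hU]; exact hDU.le
      have hxU0 : 0 ≤ x / U := by (clear * - hUq; positivity)
      have h5 : x * c q = x / U * (U * c q) := by (clear * - hU hcq; field_simp)
      have h6 : U * c q ≤ (K + 1) * ((lam q : ℝ) * c q) + τ * Γ / L := by
        have h7 := mul_le_mul_of_nonneg_right h2 hcq.le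
        have h8 : ((K + 1) * (lam q : ℝ) + τ * Γ / (L * c q)) * c q =
            (K + 1) * ((lam q : ℝ) * c q) + τ * Γ / L := by
          (clear * - hcq hL hK h hτ hΓ0; field_simp)
        rw [h8] at h7
        exact h7
      rw [h5]
      calc x / U * (U * c q) ≤ x / U * ((K + 1) * ((lam q : ℝ) * c q) + τ * Γ / L) :=
            mul_le_mul_of_nonneg_left h6 hxU0
        _ = x / U * ((K + 1) * ((lam q : ℝ) * c q)) + τ * Γ / L * (x / U) := by ring
        _ ≤ 1 * ((K + 1) * ((lam q : ℝ) * c q)) + τ * Γ / L * (x / U) := by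
            have h9 : 0 ≤ ((K : ℝ) + 1) * ((lam q : ℝ) * c q) := by
              have := hterm q
              (clear * - hK h hcq; positivity)
            have := mul_le_mul_of_nonneg_right hxU h9
            linarith only [this]
        _ = _ := by ring
  refine (Finset.sum_le_sum fun q _ => h1 q).trans ?_
  rw [Finset.sum_add_distrib, ← Finset.mul_sum, ← Finset.mul_sum, ← hΓ]
  have h2 : τ * Γ / L * ∑ q : Fin n, |((D q : ℤ) : ℝ)| / (UresC K τ L Γ c lam q : ℝ) ≤
      τ * Γ / L * (4 * L) := mul_le_mul_of_nonneg_left hS (by (clear * - hτ hΓ0 hL; positivity))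
  have h3 : τ * Γ / L * (4 * L) = 4 * τ * Γ := by (clear * - hL hτ; field_simp)
  rw [h3] at h2
  linarith only [h2]

theorem dec (ζ : ℝ) (hζ : 0 < ζ) (r : ℕ) : ∃ (κ : ℝ) (K : ℕ) (τ C : ℝ), 0 < κ ∧ κ ≤ 1 ∧ 1 ≤ K ∧
    0 < τ ∧ 0 < C ∧
    ∀ {Ω Ω' α δ : Type} [Fintype Ω] [Fintype Ω'] [DecidableEq α] (w : Ω → ℝ) (w' : Ω' → ℝ),
      IsPr w → IsPr w' → ∀ (n : ℕ) (a : Ω → α) (X : Ω → Fin n → ℤ) (Z : Ω' → Fin n → ℤ)
      (T : Ω × Ω' → δ) (lam : ℕ → ℕ) (c : ℕ → ℝ) (L : ℝ) (M : ℕ), 1 ≤ L → 1 ≤ M →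
      (∀ q, 0 < c q) → (∀ o o', a o = a o' → X o = X o') → (∀ o q, 0 ≤ Z o q) →
      (∀ p p', T p = T p' → X p.1 + Z p.2 = X p'.1 + Z p'.2) →
      ((univ.image a).card : ℝ) ≤ Real.exp L → Ent w' Z ≤ r * L →
      (∀ q : Fin n, mass w' (fun o => ((r * lam q : ℕ) : ℤ) < Z o q) ≤ κ) →
      (∀ o, {b : α | ∃ o', a o' = b ∧
        (∀ q : Fin n, |X o q - X o' q| <
          (UresC K τ L (∑ q : Fin n, (lam q : ℝ) * c q) c lam q : ℤ)) ∧
        ∑ q : Fin n, |((X o q - X o' q : ℤ) : ℝ)| * c q ≤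
          C * ∑ q : Fin n, (lam q : ℝ) * c q}.ncard ≤ M) →
      CE (prodW w w') (fun p => a p.1) T ≤ ζ * L + Real.log M + 1 := by
  have hr1 : (0 : ℝ) < (r : ℝ) + 1 := by (clear * -; positivity)
  set η : ℝ := ζ / (2 * (r + 1)) with hη
  have hη0 : 0 < η := by (clear * - hζ; positivity)
  obtain ⟨κ, Kc, hκ, hKc, hcols⟩ := cols η hη0
  set K : ℕ := Kc * r + 1 with hKdef
  have hK : 1 ≤ K := by omega
  set τ : ℝ := 20 * (r + 1) / ζ with hτdef
  have hτ : 0 < τ := by (clear * - hζ; positivity)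
  refine ⟨min κ 1, K, τ, K + 1 + 4 * τ, lt_min hκ one_pos, min_le_right _ _, hK, hτ,
    by (clear * - hKc hζ; positivity), ?_⟩
  intro Ω Ω' α δ _ _ _ w w' hw hw' n a X Z T lam c L M hL hM hc hX hZ hT hcard hEZ hmass hcell
  set Γ : ℝ := ∑ q : Fin n, (lam q : ℝ) * c q with hΓ
  set U : ℕ → ℕ := UresC K τ L Γ c lam with hUdef
  have hL0 : 0 < L := by linarith only [hL]
  have hU : ∀ q, 0 < U q := fun q => decU_pos K hK τ L Γ c lam q
  -- the entropy of `X`
  have hEa : Ent w a ≤ L := by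
    have h1 := Ent_le_add_log hw a (fun _ => ()) (univ.image a).card (fun o => by
      have hsub : ({b : α | ∃ o', (() : Unit) = () ∧ a o' = b} : Set α) ⊆
          ((univ.image a : Finset α) : Set α) := by
        rintro b ⟨o', -, rfl⟩
        exact Finset.mem_coe.2 (Finset.mem_image_of_mem a (Finset.mem_univ o'))
      have h2 := Set.ncard_le_ncard hsub (Finset.finite_toSet _)
      rw [Set.ncard_coe_finset] at h2
      exact h2)
    rw [Ent_const hw, zero_add] at h1
    have h3 : Ent w a ≤ Ent w (fun o => (a o, ())) :=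
      Ent_mono hw fun o o' h => (Prod.ext_iff.1 h).1
    have h4 : Real.log ((univ.image a).card : ℝ) ≤ L := by
      rcases Nat.eq_zero_or_pos (univ.image a).card with h5 | h5
      · rw [h5]; simp; exact hL0.le
      · have h6 : (0 : ℝ) < ((univ.image a).card : ℝ) := by exact_mod_cast h5
        have := Real.log_le_log h6 hcard
        rwa [Real.log_exp] at this
    linarith only [h1, h3, h4]
  have hEX : Ent w X ≤ L := (Ent_mono hw fun o o' h => hX o o' h).trans hEa
  -- columns
  have h1 := hcols w w' hw hw' n X Z U (fun q => r * lam q) hU (fun q => by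
      have h2 := decU_ge_mul K τ L Γ c lam q
      have h3 : Kc * (r * lam q) ≤ K * lam q := by
        rw [hKdef, ← mul_assoc]
        exact Nat.mul_le_mul_right _ (Nat.le_succ _)
      exact h3.trans h2) hZ (fun q => (hmass q).trans (min_le_left _ _))
  -- fibres
  have h2 := fibre w hw n a X hX U hU L hL M hM hcard (fun o => by
    refine le_trans (Set.ncard_le_ncard ?_ ?_) (hcell o)
    · rintro b ⟨o', hb, hclose, hsum⟩
      exact ⟨o', hb, hclose, dec_dist n K hK τ L hτ hL c hc lam (fun q => X o q - X o' q)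
        hclose hsum⟩
    · refine Set.Finite.subset (Set.finite_range a) ?_
      rintro b ⟨o', hb, -⟩
      exact ⟨o', hb⟩)
  -- the chain rule for fixed dithers
  have h3 : ∀ θ : (q : Fin n) → Fin (U q), CE (prodW w w') (fun p => a p.1) T ≤
      CE (prodW w w') (fun p => labs U θ n X p.1) (fun p => X p.1 + Z p.2) +
        CE w a (labs U θ n X) := by
    intro θ
    have hpr := hw.prod hw'
    have e1 : CE (prodW w w') (fun p => a p.1) T ≤
        CE (prodW w w') (fun p => a p.1) (fun p => X p.1 + Z p.2) := CE_anti hpr _ hT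
    have e2 : CE (prodW w w') (fun p => a p.1) (fun p => X p.1 + Z p.2) ≤
        CE (prodW w w') (fun p => (a p.1, labs U θ n X p.1)) (fun p => X p.1 + Z p.2) :=
      CE_mono hpr fun p p' _ h => (Prod.ext_iff.1 h).1
    have e3 := CE_chain (prodW w w') (fun p => a p.1) (fun p => labs U θ n X p.1)
      (fun p => X p.1 + Z p.2)
    have e4 : CE (prodW w w') (fun p => a p.1)
        (fun p => (labs U θ n X p.1, X p.1 + Z p.2)) ≤
        CE (prodW w w') (fun p => a p.1) (fun p => (labs U θ n X p.1, (fun _ : Ω' => ()) p.2)) :=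
      CE_anti hpr _ fun p p' h => by
        have := (Prod.ext_iff.1 h).1
        exact Prod.ext this rfl
    have e5 := CE_prod_fst hw hw' a (labs U θ n X) (fun _ : Ω' => ())
    linarith only [e1, e2, e3, e4, e5]
  have h4 : CE (prodW w w') (fun p => a p.1) T ≤
      avg U (fun θ => CE (prodW w w') (fun p => labs U θ n X p.1) (fun p => X p.1 + Z p.2)) +
        avg U (fun θ => CE w a (labs U θ n X)) := by
    rw [← avg_add, ← avg_const (n := n) U hU (CE (prodW w w') (fun p => a p.1) T)]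
    exact avg_mono U h3
  -- numbers
  have h5 : ∑ q : Fin n, ((r * lam q : ℕ) : ℝ) / (U q : ℝ) ≤ r * (L / τ) := by
    have h6 := dec_sum_lam n K hK τ L hτ hL c hc lam
    have h7 : ∑ q : Fin n, ((r * lam q : ℕ) : ℝ) / (U q : ℝ) =
        r * ∑ q : Fin n, (lam q : ℝ) / (U q : ℝ) := by
      rw [Finset.mul_sum]
      refine Finset.sum_congr rfl fun q _ => ?_
      push_cast
      ring
    rw [h7]
    exact mul_le_mul_of_nonneg_left h6 (Nat.cast_nonneg _)
  have h6 : η * (Ent w X + Ent w' Z) ≤ ζ / 2 * L := by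
    have h7 : Ent w X + Ent w' Z ≤ (r + 1) * L := by linarith only [hEZ, hEX]
    have h8 := mul_le_mul_of_nonneg_left h7 hη0.le
    have h9 : η * ((r + 1) * L) = ζ / 2 * L := by
      rw [hη]; (clear * - hL hζ; field_simp)
    linarith only [h8, h9]
  have h7 : 10 * (r * (L / τ)) ≤ ζ / 2 * L := by
    rw [hτdef]
    have h8 : 10 * ((r : ℝ) * (L / (20 * (r + 1) / ζ))) = (r / (r + 1)) * (ζ / 2 * L) := by
      field_simp
      ring
    rw [h8]
    have h9 : (r : ℝ) / (r + 1) ≤ 1 := by
      rw [div_le_one hr1]; linarith only []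
    have h10 : 0 ≤ ζ / 2 * L := by positivity
    calc (r : ℝ) / (r + 1) * (ζ / 2 * L) ≤ 1 * (ζ / 2 * L) :=
          mul_le_mul_of_nonneg_right h9 h10
      _ = _ := one_mul _
  have h8 : (10 : ℝ) * ∑ q : Fin n, ((r * lam q : ℕ) : ℝ) / (U q : ℝ) ≤ ζ / 2 * L :=
    (mul_le_mul_of_nonneg_left h5 (by norm_num)).trans h7
  linarith only [h1, h2, h4, h5, h6, h7]

end Pool.Agent.Helper84.TR
end

/- Helper24.TT.H84.TR.Val -/
section
/-!
# TR-19: valuations of integers
-/

set_option autoImplicit false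

open Finset

namespace Pool.Agent.Helper84.TR

/-- the vector of valuations at the primes below `n` -/
noncomputable def vv (n : ℕ) (b : ℤ) : Fin n → ℤ :=
  fun q => if (q : ℕ).Prime then (padicValInt q b : ℤ) else 0

private theorem vv_eq_fact (n : ℕ) (b : ℤ) (q : Fin n) :
    vv n b q = ((b.natAbs.factorization (q : ℕ) : ℕ) : ℤ) := by
  unfold vv
  by_cases hq : (q : ℕ).Prime
  · rw [if_pos hq, Nat.factorization_def _ hq]
    rfl
  · rw [if_neg hq, Nat.factorization_eq_zero_of_not_prime _ hq]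
    rfl

theorem vv_mul (n : ℕ) {b b' : ℤ} (hb : b ≠ 0) (hb' : b' ≠ 0) :
    vv n (b * b') = vv n b + vv n b' := by
  funext q
  rw [Pi.add_apply, vv_eq_fact, vv_eq_fact, vv_eq_fact, Int.natAbs_mul,
    Nat.factorization_mul (Int.natAbs_ne_zero.mpr hb) (Int.natAbs_ne_zero.mpr hb')]
  simp

theorem vv_nonneg (n : ℕ) (b : ℤ) (q : Fin n) : 0 ≤ vv n b q := by
  rw [vv_eq_fact]
  (clear * -; positivity)

/-- `v_q(b) > l` iff `q ^ (l + 1) ∣ b` -/
theorem vv_lt_iff (n : ℕ) {b : ℤ} (hb : b ≠ 0) (q : Fin n) (hq : (q : ℕ).Prime) (l : ℕ) :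
    (l : ℤ) < vv n b q ↔ ((q : ℕ) : ℤ) ^ (l + 1) ∣ b := by
  rw [vv_eq_fact]
  have h1 : ((l : ℤ) < ((b.natAbs.factorization (q : ℕ) : ℕ) : ℤ)) ↔
      l + 1 ≤ b.natAbs.factorization (q : ℕ) := by
    constructor
    · intro h
      have : l < b.natAbs.factorization (q : ℕ) := by exact_mod_cast h
      omega
    · intro h
      have : l < b.natAbs.factorization (q : ℕ) := by omega
      exact_mod_cast this
  rw [h1, ← hq.pow_dvd_iff_le_factorization (Int.natAbs_ne_zero.mpr hb)]
  rw [← Int.natCast_dvd_natCast, Int.natCast_pow, Int.dvd_natAbs]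

private theorem log_eq_sum (n a : ℕ) (hn : ∀ q : ℕ, q.Prime → q ∣ a → q < n) :
    Real.log (a : ℝ) = ∑ q : Fin n, (a.factorization (q : ℕ) : ℝ) * Real.log ((q : ℕ) : ℝ) := by
  rw [Real.log_nat_eq_sum_factorization, Finsupp.sum,
    Fin.sum_univ_eq_sum_range (fun q => (a.factorization q : ℝ) * Real.log (q : ℝ)) n]
  apply Finset.sum_subset
  · intro p hp
    rw [Nat.support_factorization, Nat.mem_primeFactors] at hp
    exact Finset.mem_range.mpr (hn p hp.1 hp.2.1)
  · intro p _ hp
    rw [Finsupp.notMem_support_iff] at hp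
    rw [hp]
    simp

/-- the distance as a sum over the primes below `n` -/
theorem dst_eq (n : ℕ) {b b' : ℤ} (hb : b ≠ 0) (hb' : b' ≠ 0)
    (hn : ∀ q : ℕ, q.Prime → ((q : ℤ) ∣ b ∨ (q : ℤ) ∣ b') → q < n) :
    dst b b' = ∑ q : Fin n, |((vv n b q - vv n b' q : ℤ) : ℝ)| * Real.log (q : ℕ) := by
  have h1 : Real.log |(b : ℝ)| = Real.log ((b.natAbs : ℕ) : ℝ) := by
    rw [Nat.cast_natAbs, Int.cast_abs]
  have h2 : Real.log |(b' : ℝ)| = Real.log ((b'.natAbs : ℕ) : ℝ) := by
    rw [Nat.cast_natAbs, Int.cast_abs]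
  have hb0 : b.natAbs ≠ 0 := Int.natAbs_ne_zero.mpr hb
  have hb0' : b'.natAbs ≠ 0 := Int.natAbs_ne_zero.mpr hb'
  have hg : Int.gcd b b' = Nat.gcd b.natAbs b'.natAbs := rfl
  unfold dst
  rw [h1, h2, hg, log_eq_sum n _ (fun q hq hd => hn q hq (Or.inl (Int.natCast_dvd.mpr hd))),
    log_eq_sum n _ (fun q hq hd => hn q hq (Or.inr (Int.natCast_dvd.mpr hd))),
    log_eq_sum n _ (fun q hq hd => hn q hq (Or.inl (Int.natCast_dvd.mpr
      (hd.trans (Nat.gcd_dvd_left _ _))))),
    Finset.mul_sum, ← Finset.sum_add_distrib, ← Finset.sum_sub_distrib]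
  apply Finset.sum_congr rfl
  intro q _
  rw [vv_eq_fact, vv_eq_fact, Nat.factorization_gcd hb0 hb0', Finsupp.inf_apply]
  have h3 : ∀ x y : ℕ, ((x ⊓ y : ℕ) : ℝ) * 2 = (x : ℝ) + y - |(((x : ℤ) - (y : ℤ) : ℤ) : ℝ)| := by
    intro x y
    rcases le_total x y with h | h
    · have h' : (x : ℝ) ≤ y := by exact_mod_cast h
      rw [inf_eq_left.mpr h]
      push_cast
      rw [abs_of_nonpos (by linarith only [h'])]
      ring
    · have h' : (y : ℝ) ≤ x := by exact_mod_cast h
      rw [inf_eq_right.mpr h]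
      push_cast
      rw [abs_of_nonneg (by linarith only [h'])]
      ring
  have h4 := h3 (b.natAbs.factorization (q : ℕ)) (b'.natAbs.factorization (q : ℕ))
  have h5 : |(((b.natAbs.factorization (q : ℕ) : ℤ) - (b'.natAbs.factorization (q : ℕ) : ℤ) : ℤ)
      : ℝ)| = (b.natAbs.factorization (q : ℕ) : ℝ) + b'.natAbs.factorization (q : ℕ)
        - ((b.natAbs.factorization (q : ℕ) ⊓ b'.natAbs.factorization (q : ℕ) : ℕ) : ℝ) * 2 := by
    linarith only [h4]
  rw [h5]
  ring

end Pool.Agent.Helper84.TR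
end

/- Helper24.TT.H34.TR.CorP -/
section
/-!
MP_120218_co, project TR, general form: the product of `k` sets, decoding with prices.
(The first part is a copy of the private part of `Helper84/TR/Main.lean`.)
-/

set_option autoImplicit false

open Finset

namespace Pool.Agent.Helper34.TR

open Pool.Agent.Helper15.BP Pool.Agent.Helper84.TR

/-- uniform weights on a finset -/
private noncomputable def uw (Y : Finset ℤ) : {x // x ∈ Y} → ℝ := fun _ => 1 / (Y.card : ℝ)

private theorem uw_isPr {Y : Finset ℤ} (hY : Y.Nonempty) : IsPr (uw Y) := by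
  have h0 : (0 : ℝ) < Y.card := by exact_mod_cast hY.card_pos
  refine ⟨fun _ => by unfold uw; (clear * - hY; positivity), ?_⟩
  unfold uw
  rw [Finset.sum_const, Finset.card_univ, Fintype.card_coe, nsmul_eq_mul]
  field_simp

private theorem Ent_uw {Y : Finset ℤ} (hY : Y.Nonempty) :
    Ent (uw Y) (fun x => (x : ℤ)) = Real.log Y.card := by
  classical
  have h0 : (0 : ℝ) < Y.card := by exact_mod_cast hY.card_pos
  have hpr : ∀ o : {x // x ∈ Y}, pr (uw Y) (fun x => (x : ℤ)) (o : ℤ) = 1 / (Y.card : ℝ) := by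
    intro o
    unfold pr
    rw [Finset.sum_eq_single o]
    · simp [uw]
    · intro b _ hb
      rw [if_neg]
      intro h
      exact hb (Subtype.ext h)
    · intro h; exact absurd (Finset.mem_univ _) h
  have h1 : Ent (uw Y) (fun x => (x : ℤ)) = ∑ _o : {x // x ∈ Y}, (1 / (Y.card : ℝ)) *
      Real.log Y.card := by
    unfold Ent
    refine Finset.sum_congr rfl fun o _ => ?_
    rw [hpr o, one_div, Real.log_inv, neg_neg]
    simp [uw]
  rw [h1, Finset.sum_const, Finset.card_univ, Fintype.card_coe, nsmul_eq_mul]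
  (clear * - hY; field_simp)

private theorem mass_uw {Y : Finset ℤ} (hY : Y.Nonempty) (P : ℤ → Prop) [DecidablePred P] (κ : ℝ)
    (h : ((Y.filter P).card : ℝ) ≤ κ * Y.card) : mass (uw Y) (fun x => P x) ≤ κ := by
  classical
  have h0 : (0 : ℝ) < Y.card := by exact_mod_cast hY.card_pos
  have h1 : mass (uw Y) (fun x => P x) = ((Y.filter P).card : ℝ) / Y.card := by
    have h2 : mass (uw Y) (fun x => P x) =
        ∑ o : {x // x ∈ Y}, (if P o then 1 / (Y.card : ℝ) else 0) := by
      unfold mass uw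
      refine Finset.sum_congr rfl fun o _ => ?_
      by_cases h : P o
      · simp [h]
      · simp [h]
    rw [h2, ← Finset.sum_filter, Finset.sum_const, nsmul_eq_mul, mul_one_div]
    congr 2
    refine Finset.card_bij (fun x _ => (x : ℤ)) ?_ ?_ ?_
    · intro x hx
      rw [mem_filter] at hx ⊢
      exact ⟨x.2, hx.2⟩
    · intro x _ y _ hxy
      exact Subtype.ext hxy
    · intro b hb
      rw [mem_filter] at hb
      exact ⟨⟨b, hb.1⟩, by rw [mem_filter]; exact ⟨mem_univ _, hb.2⟩, rfl⟩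
  rw [h1, div_le_iff₀ h0]
  exact h

/-- what is known after `l` factors -/
private def St {k : ℕ} (Y : Fin k → Finset ℤ) (lam : Fin k → ℕ → ℕ) (κ L B : ℝ) (l : ℕ) : Prop :=
  ∃ (Ω : Type) (_ : Fintype Ω) (w : Ω → ℝ) (S : Ω → ℤ), IsPr w ∧
    (∀ o, ∃ f : Fin k → ℤ, (∀ i : Fin k, (i : ℕ) < l → f i ∈ Y i) ∧
      (∀ i : Fin k, l ≤ (i : ℕ) → f i = 1) ∧ S o = ∏ i, f i) ∧
    (∑ i : Fin k, (if (i : ℕ) < l then Real.log ((Y i).card) else 0)) - l * B ≤ Ent w S ∧
    Ent w S ≤ l * L ∧
    ∀ m : Fin k, l ≤ (m : ℕ) → ∀ q : ℕ, q.Prime →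
      mass w (fun o => ((l * lam m q : ℕ) : ℤ) < padicValInt q (S o)) ≤ l * κ

private theorem st_zero {k : ℕ} (Y : Fin k → Finset ℤ) (lam : Fin k → ℕ → ℕ) (κ L B : ℝ) :
    St Y lam κ L B 0 := by
  classical
  have hw : IsPr (fun _ : Unit => (1 : ℝ)) := ⟨fun _ => by norm_num, by simp⟩
  refine ⟨Unit, inferInstance, fun _ => 1, fun _ => 1, hw, ?_, ?_, ?_, ?_⟩
  · intro o
    exact ⟨fun _ => 1, fun i hi => absurd hi (by omega), fun _ _ => rfl, by simp⟩
  · rw [Ent_const hw]; simp
  · rw [Ent_const hw]; simp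
  · intro m _ q hq
    unfold mass
    simp

private theorem st_step {k : ℕ} (Y : Fin k → Finset ℤ) (lam : Fin k → ℕ → ℕ) (κ L B : ℝ) (l : ℕ)
    (hl : l < k) (hY : ∀ i, (Y i).Nonempty) (hY0 : ∀ i, (0 : ℤ) ∉ Y i)
    (hYL : ∀ i, ((Y i).card : ℝ) ≤ Real.exp L)
    (hlam : ∀ m m' : Fin k, m' < m → ∀ q : ℕ, q.Prime →
        ((((Y m').filter (fun b => (q : ℤ) ^ (lam m q + 1) ∣ b)).card : ℝ) ≤
          κ * (Y m').card))
    (hCE : ∀ (Ω : Type) (_ : Fintype Ω) (w : Ω → ℝ) (S : Ω → ℤ), IsPr w → (∀ o, S o ≠ 0) →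
      (l = 0 → ∀ o, S o = 1) → Ent w S ≤ l * L →
      (∀ q : ℕ, q.Prime →
        mass w (fun o => ((l * lam ⟨l, hl⟩ q : ℕ) : ℤ) < padicValInt q (S o)) ≤ l * κ) →
      CE (prodW (uw (Y ⟨l, hl⟩)) w) (fun p => (p.1 : ℤ)) (fun p => (p.1 : ℤ) * S p.2) ≤ B)
    (h : St Y lam κ L B l) : St Y lam κ L B (l + 1) := by
  classical
  obtain ⟨Ω, hΩ, w, S, hw, hS, h1, h2, h3⟩ := h
  set i₀ : Fin k := ⟨l, hl⟩ with hi₀
  have hS0 : ∀ o, S o ≠ 0 := by
    intro o
    obtain ⟨f, f1, f2, f3⟩ := hS o
    rw [f3, Finset.prod_ne_zero_iff]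
    intro i _ hi
    by_cases hil : (i : ℕ) < l
    · exact hY0 i (hi ▸ f1 i hil)
    · rw [f2 i (by omega)] at hi
      exact one_ne_zero hi
  have hSone : l = 0 → ∀ o, S o = 1 := by
    intro hl0 o
    obtain ⟨f, f1, f2, f3⟩ := hS o
    rw [f3]
    exact Finset.prod_eq_one fun i _ => f2 i (by omega)
  have hu := uw_isPr (hY i₀)
  have hB := hCE Ω hΩ w S hw hS0 hSone h2 (h3 i₀ (le_refl _))
  have ha0 : ∀ x : {x // x ∈ Y i₀}, (x : ℤ) ≠ 0 := fun x hx => hY0 i₀ (hx ▸ x.2)
  have hpair : Ent (prodW (uw (Y i₀)) w) (fun p => ((p.1 : ℤ), (p.1 : ℤ) * S p.2)) =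
      Real.log ((Y i₀).card) + Ent w S := by
    rw [← Ent_uw (hY i₀), ← Ent_prod hu hw]
    refine Ent_congr fun o o' => ?_
    simp only [Prod.mk.injEq]
    constructor
    · rintro ⟨e1, e2⟩
      refine ⟨e1, ?_⟩
      rw [e1] at e2
      exact mul_left_cancel₀ (ha0 _) e2
    · rintro ⟨e1, e2⟩
      exact ⟨e1, by rw [e1, e2]⟩
  have hlogY : Real.log ((Y i₀).card) ≤ L := by
    have h0 : (0 : ℝ) < (Y i₀).card := by exact_mod_cast (hY i₀).card_pos
    rw [Real.log_le_iff_le_exp h0]
    exact hYL i₀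
  refine ⟨{x // x ∈ Y i₀} × Ω, inferInstance, prodW (uw (Y i₀)) w, fun p => (p.1 : ℤ) * S p.2,
    hu.prod hw, ?_, ?_, ?_, ?_⟩
  · rintro ⟨x, o⟩
    obtain ⟨f, f1, f2, f3⟩ := hS o
    refine ⟨Function.update f i₀ x, ?_, ?_, ?_⟩
    · intro i hi
      by_cases hii : i = i₀
      · rw [hii, Function.update_self]; exact x.2
      · rw [Function.update_of_ne hii]
        refine f1 i ?_
        have : (i : ℕ) ≠ l := fun h => hii (Fin.ext h)
        omega
    · intro i hi
      have hii : i ≠ i₀ := by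
        intro h
        rw [h, hi₀] at hi
        simp at hi
      rw [Function.update_of_ne hii]
      exact f2 i (by omega)
    · simp only
      rw [f3, Finset.prod_update_of_mem (mem_univ _), ← Finset.mul_prod_erase univ f (mem_univ i₀),
        f2 i₀ (le_refl _), one_mul, Finset.erase_eq]
  · unfold CE at hB
    rw [hpair] at hB
    have e1 : (∑ i : Fin k, (if (i : ℕ) < l + 1 then Real.log ((Y i).card) else 0)) =
        (∑ i : Fin k, (if (i : ℕ) < l then Real.log ((Y i).card) else 0)) +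
          Real.log ((Y i₀).card) := by
      have e2 : ∀ i : Fin k, (if (i : ℕ) < l + 1 then Real.log ((Y i).card) else 0) =
          (if (i : ℕ) < l then Real.log ((Y i).card) else 0) +
            (if i = i₀ then Real.log ((Y i).card) else 0) := by
        intro i
        by_cases hii : i = i₀
        · rw [hii, hi₀]; simp
        · have : (i : ℕ) ≠ l := fun h => hii (Fin.ext h)
          rw [if_neg hii, add_zero]
          by_cases h : (i : ℕ) < l
          · rw [if_pos h, if_pos (by omega)]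
          · rw [if_neg h, if_neg (by omega)]
      rw [Finset.sum_congr rfl fun i _ => e2 i, Finset.sum_add_distrib]
      simp
    rw [e1]
    push_cast
    linarith only [h1, hB]
  · have e1 : Ent (prodW (uw (Y i₀)) w) (fun p => (p.1 : ℤ) * S p.2) ≤
        Ent (prodW (uw (Y i₀)) w) (fun p => ((p.1 : ℤ), (p.1 : ℤ) * S p.2)) :=
      Ent_mono (hu.prod hw) fun o o' e => congrArg Prod.snd e
    rw [hpair] at e1
    push_cast
    linarith only [h2, hlogY, e1]
  · intro m hm q hq
    have : Fact q.Prime := ⟨hq⟩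
    have e1 : mass (prodW (uw (Y i₀)) w) (fun p => (((l + 1) * lam m q : ℕ) : ℤ) <
        padicValInt q ((p.1 : ℤ) * S p.2)) ≤
        mass (prodW (uw (Y i₀)) w) (fun p => (fun x : {x // x ∈ Y i₀} => ((q : ℤ) ^ (lam m q + 1) ∣ (x : ℤ))) p.1 ∨
          (fun o => ((l * lam m q : ℕ) : ℤ) < padicValInt q (S o)) p.2) := by
      refine mass_mono (hu.prod hw) ?_
      intro p hp
      by_contra hcon
      push Not at hcon
      obtain ⟨c1, c2⟩ := hcon
      rw [padicValInt.mul (ha0 _) (hS0 _)] at hp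
      have c3 : padicValInt q (p.1 : ℤ) ≤ lam m q := by
        by_contra hc
        push Not at hc
        apply c1
        rw [padicValInt_dvd_iff]
        exact Or.inr hc
      push_cast at hp c2
      have c4 : (padicValInt q (p.1 : ℤ) : ℤ) ≤ lam m q := by exact_mod_cast c3
      linarith only [c3, hp, c2]
    refine e1.trans ((mass_or_le (hu.prod hw) _ _).trans ?_)
    rw [mass_fst hw (fun x : {x // x ∈ Y i₀} => ((q : ℤ) ^ (lam m q + 1) ∣ (x : ℤ))),
      mass_snd hu (fun o => ((l * lam m q : ℕ) : ℤ) < padicValInt q (S o))]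
    have e2 := mass_uw (hY i₀) (fun b => (q : ℤ) ^ (lam m q + 1) ∣ b) κ (hlam m i₀ (by
      rw [Fin.lt_def, hi₀]; simp; omega) q hq)
    have e3 := h3 m (by omega) q hq
    push_cast at e2 e3 ⊢
    linarith only [e2, e3]

/-- the weight with prices -/
noncomputable def WC (n : ℕ) (c : ℕ → ℝ) (lam : ℕ → ℕ) : ℝ :=
  ∑ q ∈ (range n).filter Nat.Prime, (lam q : ℝ) * c q

theorem corP (k : ℕ) (ζ : ℝ) (hζ : 0 < ζ) : ∃ (κ : ℝ) (K : ℕ) (τ C : ℝ), 0 < κ ∧ κ ≤ 1 ∧ 1 ≤ K ∧
    0 < τ ∧ 0 < C ∧
    ∀ (Y : Fin k → Finset ℤ) (L : ℝ) (M : ℕ) (n : ℕ) (lam : Fin k → ℕ → ℕ), 1 ≤ L → 1 ≤ M →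
      (∀ l, (Y l).Nonempty) → (∀ l, (0 : ℤ) ∉ Y l) → (∀ l, ((Y l).card : ℝ) ≤ Real.exp L) →
      (∀ l q, n ≤ q → lam l q = 0) →
      (∀ l l' : Fin k, l' < l → ∀ q : ℕ, q.Prime →
        ((((Y l').filter (fun b => (q : ℤ) ^ (lam l q + 1) ∣ b)).card : ℝ) ≤
          κ * (Y l').card)) →
      (∀ l : Fin k, 0 < (l : ℕ) →
        (∀ b ∈ Y l, {b' : ℤ | b' ∈ Y l ∧ Close (Ures K τ L (W n (lam l)) (lam l)) b b' ∧
          dst b b' ≤ C * W n (lam l)}.ncard ≤ M) ∨
        (∃ c : ℕ → ℝ, (∀ q : ℕ, q.Prime → 0 < c q) ∧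
          ∀ b ∈ Y l, {b' : ℤ | b' ∈ Y l ∧
            Close (UresC K τ L (WC n c (lam l)) c (lam l)) b b'}.ncard ≤ M)) →
      ∑ l, Real.log ((Y l).card) - k * (ζ * L + Real.log M + 1) ≤
        Real.log (((Fintype.piFinset Y).image (fun f => ∏ i, f i)).card) := by
  classical
  obtain ⟨κ', K, τ, C, hκ', hκ1, hK, hτ, hC, H⟩ := dec ζ hζ k
  have hk1 : (0 : ℝ) < (k : ℝ) + 1 := by (clear * -; positivity)
  refine ⟨κ' / (k + 1), K, τ, C, by (clear * - hκ'; positivity), ?_, hK, hτ, hC, ?_⟩
  · rw [div_le_one hk1]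
    have : (0 : ℝ) ≤ k := Nat.cast_nonneg k
    linarith only [hκ1]
  intro Y L M n lam hL hM hY hY0 hYL hn hlam hcell
  have hB0 : 0 ≤ ζ * L + Real.log M + 1 := by
    have : 0 ≤ Real.log M := Real.log_natCast_nonneg M
    (clear * - hζ this hL; nlinarith only [hζ, hL, this])
  -- all stages
  have hst : ∀ l : ℕ, l ≤ k → St Y lam (κ' / (k + 1)) L (ζ * L + Real.log M + 1) l := by
    intro l
    induction l with
    | zero => intro _; exact st_zero Y lam _ _ _
    | succ l ih =>
      intro hl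
      refine st_step Y lam _ L _ l (by omega) hY hY0 hYL hlam ?_ (ih (by omega))
      intro Ω hΩ w S hw hS0 hSone hSL hSm
      set i₀ : Fin k := ⟨l, by omega⟩ with hi₀
      have hu := uw_isPr (hY i₀)
      rcases Nat.eq_zero_or_pos l with hl0 | hl0
      · -- the first factor is the product itself
        refine le_trans (le_of_eq ?_) hB0
        have e1 : CE (prodW (uw (Y i₀)) w) (fun p => (p.1 : ℤ)) (fun p => (p.1 : ℤ) * S p.2) =
            CE (prodW (uw (Y i₀)) w) (fun _ => (0 : ℤ)) (fun p => (p.1 : ℤ) * S p.2) := by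
          refine CE_congr (fun o o' => Iff.rfl) ?_
          intro o o' e
          simp only [hSone hl0, mul_one] at e
          exact ⟨fun _ => rfl, fun _ => e⟩
        rw [e1]
        unfold CE
        rw [sub_eq_zero]
        refine Ent_congr fun o o' => ?_
        simp
      · -- decoding
        set n' : ℕ := max n ((univ.sup fun i => (Y i).sup Int.natAbs) + 1) with hn'
        have hbig : ∀ i, ∀ b ∈ Y i, ∀ q : ℕ, q.Prime → (q : ℤ) ∣ b → q < n' := by
          intro i b hb q hq hqb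
          have hb0 : b ≠ 0 := fun h => hY0 i (h ▸ hb)
          have e1 : q ≤ b.natAbs := Nat.le_of_dvd (Int.natAbs_pos.mpr hb0) (Int.natCast_dvd.mp hqb)
          have e2 : b.natAbs ≤ (Y i).sup Int.natAbs := Finset.le_sup (f := Int.natAbs) hb
          have e3 : (Y i).sup Int.natAbs ≤ univ.sup fun i => (Y i).sup Int.natAbs :=
            Finset.le_sup (f := fun i => (Y i).sup Int.natAbs) (mem_univ i)
          rw [hn']
          exact lt_of_lt_of_le (by omega) (le_max_right _ _)
        obtain ⟨c₀, hc₀pos, hcell₀⟩ : ∃ c₀ : ℕ → ℝ, (∀ q : ℕ, q.Prime → 0 < c₀ q) ∧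
            ∀ b ∈ Y i₀, {b' : ℤ | b' ∈ Y i₀ ∧
              Close (UresC K τ L (WC n c₀ (lam i₀)) c₀ (lam i₀)) b b' ∧
              ∑ q : Fin n', |((vv n' b q - vv n' b' q : ℤ) : ℝ)| * c₀ q ≤
                C * WC n c₀ (lam i₀)}.ncard ≤ M := by
          rcases hcell i₀ hl0 with h | ⟨c, hc, h⟩
          · refine ⟨fun q => Real.log q, fun q hq => Real.log_pos (by exact_mod_cast hq.one_lt),
              fun b hb => le_trans (Set.ncard_le_ncard ?_ ?_) (h b hb)⟩
            · rintro b' ⟨hb', h1, h2⟩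
              refine ⟨hb', h1, ?_⟩
              rw [dst_eq n' (fun h => hY0 i₀ (h ▸ hb)) (fun h => hY0 i₀ (h ▸ hb'))]
              · exact h2
              · intro q hq hor
                rcases hor with h | h
                · exact hbig i₀ b hb q hq h
                · exact hbig i₀ b' hb' q hq h
            · exact Set.Finite.subset (Y i₀).finite_toSet fun b hb => hb.1
          · refine ⟨c, hc, fun b hb => le_trans (Set.ncard_le_ncard ?_ ?_) (h b hb)⟩
            · rintro b' ⟨hb', h1, h2⟩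
              exact ⟨hb', h1⟩
            · exact Set.Finite.subset (Y i₀).finite_toSet fun b hb => hb.1
        set c : ℕ → ℝ := fun q => if q.Prime then c₀ q else 1 with hc
        set lam' : ℕ → ℕ := fun q => if q.Prime then lam i₀ q else 0 with hlam'
        have hcpos : ∀ q, 0 < c q := by
          intro q
          rw [hc]
          by_cases hq : q.Prime
          · simp only [if_pos hq]
            exact hc₀pos q hq
          · simp only [if_neg hq]; norm_num
        -- the weight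
        have hΓ : ∑ q : Fin n', (lam' q : ℝ) * c q = WC n c₀ (lam i₀) := by
          have e1 : ∑ q : Fin n', (lam' q : ℝ) * c q = ∑ q ∈ range n', (lam' q : ℝ) * c q :=
            (Finset.sum_range (fun q => (lam' q : ℝ) * c q)).symm
          rw [e1]
          unfold WC
          have e2 : ∑ q ∈ (range n').filter Nat.Prime, (lam i₀ q : ℝ) * c₀ q =
              ∑ q ∈ range n', (lam' q : ℝ) * c q := by
            rw [Finset.sum_filter]
            refine Finset.sum_congr rfl fun q _ => ?_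
            by_cases hq : q.Prime
            · simp [hlam', hc, hq]
            · simp [hlam', hq]
          rw [← e2]
          symm
          refine Finset.sum_subset ?_ ?_
          · intro q hq
            rw [mem_filter, mem_range] at hq ⊢
            exact ⟨lt_of_lt_of_le hq.1 (le_max_left _ _), hq.2⟩
          · intro q hq hq'
            rw [mem_filter, mem_range] at hq hq'
            have : n ≤ q := by
              by_contra hcon
              push Not at hcon
              exact hq' ⟨hcon, hq.2⟩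
            rw [hn i₀ q this]; simp
        have hvv : ∀ b b' : ℤ, ∑ q : Fin n', |((vv n' b q - vv n' b' q : ℤ) : ℝ)| * c₀ q =
            ∑ q : Fin n', |((vv n' b q - vv n' b' q : ℤ) : ℝ)| * c q := by
          intro b b'
          refine Finset.sum_congr rfl fun q _ => ?_
          by_cases hq : (q : ℕ).Prime
          · simp [hc, hq]
          · simp [vv, hq]
        refine H (uw (Y i₀)) w hu hw n' (fun x => (x : ℤ)) (fun x => vv n' x)
          (fun o => vv n' (S o)) (fun p => (p.1 : ℤ) * S p.2) lam' c L M hL hM hcpos ?_ ?_ ?_ ?_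
          ?_ ?_ ?_
        · intro o o' e
          exact congrArg (vv n') e
        · intro o q
          exact vv_nonneg _ _ _
        · intro p p' e
          have hp : ∀ p : {x // x ∈ Y i₀} × Ω, vv n' (p.1 : ℤ) + vv n' (S p.2) =
              vv n' ((p.1 : ℤ) * S p.2) := fun p =>
            (vv_mul n' (fun h => hY0 i₀ (h ▸ p.1.2)) (hS0 p.2)).symm
          rw [hp, hp, e]
        · have e1 : (univ.image (fun x : {x // x ∈ Y i₀} => (x : ℤ))).card ≤ (Y i₀).card := by
            refine Finset.card_le_card ?_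
            intro b hb
            rw [mem_image] at hb
            obtain ⟨x, -, rfl⟩ := hb
            exact x.2
          exact le_trans (by exact_mod_cast e1) (hYL i₀)
        · have e1 : Ent w (fun o => vv n' (S o)) ≤ Ent w S :=
            Ent_mono hw fun o o' e => by rw [e]
          have e2 : (l : ℝ) * L ≤ k * L := by
            have : (l : ℝ) ≤ k := by exact_mod_cast (show l ≤ k by omega)
            (clear * - this hL; nlinarith only [hL, this])
          linarith only [hSL, e1, e2]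
        · intro q
          by_cases hq : (q : ℕ).Prime
          · have e1 := hSm q hq
            have e2 : mass w (fun o => ((k * lam' q : ℕ) : ℤ) < vv n' (S o) q) ≤
                mass w (fun o => ((l * lam i₀ q : ℕ) : ℤ) < padicValInt q (S o)) := by
              refine mass_mono hw ?_
              intro o ho
              simp only [hlam', vv, if_pos hq] at ho
              refine lt_of_le_of_lt ?_ ho
              have : l * lam i₀ q ≤ k * lam i₀ q := Nat.mul_le_mul_right _ (by omega)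
              exact_mod_cast this
            refine e2.trans (e1.trans ?_)
            have e3 : (l : ℝ) * (κ' / (k + 1)) = κ' * (l / (k + 1)) := by ring
            rw [e3]
            have e4 : (l : ℝ) / (k + 1) ≤ 1 := by
              rw [div_le_one hk1]
              have : (l : ℝ) ≤ k := by exact_mod_cast (show l ≤ k by omega)
              linarith only [this]
            (clear * - hκ' e4; nlinarith only [hκ', e4])
          · have e1 : mass w (fun o => ((k * lam' q : ℕ) : ℤ) < vv n' (S o) q) = 0 := by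
              unfold mass
              refine Finset.sum_eq_zero fun o _ => ?_
              rw [if_neg]
              simp [hlam', vv, hq]
            rw [e1]; exact hκ'.le
        · intro o
          refine le_trans (Set.ncard_le_ncard ?_ ?_) (hcell₀ o o.2)
          · rintro b ⟨o', rfl, h1, h2⟩
            refine ⟨o'.2, ?_, ?_⟩
            · intro q hq
              by_cases hqn : q < n'
              · have e1 := h1 ⟨q, hqn⟩
                rw [hΓ] at e1
                simp only [vv, if_pos hq] at e1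
                refine lt_of_lt_of_le e1 ?_
                unfold UresC
                simp only [hlam', hc, if_pos hq]
                exact le_refl _
              · have v0 : ∀ x : {x // x ∈ Y i₀}, padicValInt q (x : ℤ) = 0 := by
                  intro x
                  have : Fact q.Prime := ⟨hq⟩
                  rw [padicValInt.eq_zero_iff]
                  right; right
                  intro hdvd
                  exact hqn (hbig i₀ x x.2 q hq hdvd)
                rw [v0 o, v0 o']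
                simp only [Nat.cast_zero, sub_self, abs_zero]
                have : lam i₀ q = 0 := hn i₀ q (by
                  push Not at hqn
                  exact le_trans (le_max_left _ _) hqn)
                unfold UresC
                rw [if_pos this]
                norm_num
            · rw [hvv, ← hΓ]
              exact h2
          · exact Set.Finite.subset (Y i₀).finite_toSet fun b hb => hb.1
  obtain ⟨Ω, hΩ, w, S, hw, hS, h1, h2, h3⟩ := hst k (le_refl _)
  have e1 : (∑ i : Fin k, (if (i : ℕ) < k then Real.log ((Y i).card) else 0)) =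
      ∑ l, Real.log ((Y l).card) := Finset.sum_congr rfl fun i _ => by rw [if_pos i.2]
  rw [e1] at h1
  refine h1.trans ?_
  -- entropy at most the logarithm of the number of values
  have e2 : Ent w S ≤ CE w S (fun _ => (0 : ℤ)) := by
    unfold CE
    rw [Ent_const hw, sub_zero]
    exact Ent_mono hw fun o o' e => congrArg Prod.fst e
  refine e2.trans (CE_le_log hw S _ _ ?_)
  intro o
  have hsub : {a : ℤ | ∃ o', (fun _ : Ω => (0 : ℤ)) o' = (fun _ : Ω => (0 : ℤ)) o ∧ S o' = a} ⊆
      (((Fintype.piFinset Y).image (fun f => ∏ i, f i) : Finset ℤ) : Set ℤ) := by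
    rintro a ⟨o', -, rfl⟩
    obtain ⟨f, f1, f2, f3⟩ := hS o'
    rw [Finset.coe_image]
    refine ⟨f, ?_, f3.symm⟩
    rw [Finset.mem_coe, Fintype.mem_piFinset]
    exact fun i => f1 i i.2
  refine le_trans (Set.ncard_le_ncard hsub (Finset.finite_toSet _)) ?_
  rw [Set.ncard_coe_finset]

end Pool.Agent.Helper34.TR
end
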