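import Mathlib
import Pool.Agent.Helper24.TG.G01

/- Helper24.TT.H26.TR.Cells -/
section
set_option autoImplicit false

/-!
MP_120218_co, project TR: trivial cells (section 3 of the note).
If many elements share their leading digits at many primes then these elements are separated
multiplicatively.
-/

open Finset

namespace Pool.Agent.Helper26.TR

/-- multiplicative distance of two integers (logarithm of numerator times denominator) -/
noncomputable def dst (b b' : ℤ) : ℝ :=
  Real.log |(b : ℝ)| + Real.log |(b' : ℝ)| - 2 * Real.log (Int.gcd b b' : ℝ)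

/-- the conditions `(p, t)` -/
def idx (T : Finset ℕ) (e : ℕ → ℕ) (β : ℕ → ℤ) : Finset (Σ _ : ℕ, ℕ) :=
  T.sigma (fun p => Icc 1 (e p - padicValInt p (β p)))

/-- `a` satisfies the condition `(p, t)` -/
def Cond (β : ℕ → ℤ) (x : Σ _ : ℕ, ℕ) (a : ℤ) : Prop :=
  ((x.1 : ℤ) ^ (padicValInt x.1 (β x.1) + x.2)) ∣ a - β x.1

instance (β : ℕ → ℤ) (x : Σ _ : ℕ, ℕ) (a : ℤ) : Decidable (Cond β x a) := by
  unfold Cond; infer_instance

/-- the weight of the conditions satisfied by `a` -/
noncomputable def Fw (T : Finset ℕ) (e : ℕ → ℕ) (β : ℕ → ℤ) (a : ℤ) : ℝ :=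
  ∑ x ∈ idx T e β, if Cond β x a then Real.log x.1 else 0

theorem W1_eq (T : Finset ℕ) (e : ℕ → ℕ) (β : ℕ → ℤ) :
    W1 T e β = ∑ x ∈ idx T e β, Real.log (x.1 : ℝ) := by
  unfold W1 idx
  rw [sum_sigma]
  apply sum_congr rfl
  intro p _
  simp only [sum_const, Nat.card_Icc, nsmul_eq_mul, Nat.add_sub_cancel]

theorem log_idx_nonneg {T : Finset ℕ} {e : ℕ → ℕ} {β : ℕ → ℤ} :
    ∀ x ∈ idx T e β, 0 ≤ Real.log (x.1 : ℝ) := fun _ _ => Real.log_natCast_nonneg _

theorem Fw_le (T : Finset ℕ) (e : ℕ → ℕ) (β : ℕ → ℤ) (a : ℤ) : Fw T e β a ≤ W1 T e β := by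
  rw [W1_eq]
  unfold Fw
  apply sum_le_sum
  intro x hx
  split_ifs
  · exact le_rfl
  · exact log_idx_nonneg x hx

theorem W1_nonneg (T : Finset ℕ) (e : ℕ → ℕ) (β : ℕ → ℤ) : 0 ≤ W1 T e β := by
  rw [W1_eq]
  exact sum_nonneg log_idx_nonneg

/-- the prime powers common to `a - β` and `a' - β` divide the difference of the coprime parts -/
theorem dvd_core {p : ℕ} (hp : p.Prime) {a a' β : ℤ} (hβ : β ≠ 0) (hne : a ≠ a') {t : ℕ}
    (ht : 1 ≤ t)
    (h1 : ((p : ℤ) ^ (padicValInt p β + t)) ∣ a - β)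
    (h2 : ((p : ℤ) ^ (padicValInt p β + t)) ∣ a' - β) :
    t ≤ (a / (Int.gcd a a' : ℤ) - a' / (Int.gcd a a' : ℤ)).natAbs.factorization p := by
  have := Fact.mk hp
  set s := padicValInt p β with hs
  set g : ℕ := Int.gcd a a' with hg
  have hg0 : g ≠ 0 := by
    intro h
    rw [hg, Int.gcd_eq_zero_iff] at h
    exact hne (h.1.trans h.2.symm)
  have ga : (g : ℤ) ∣ a := Int.gcd_dvd_left ..
  have ga' : (g : ℤ) ∣ a' := Int.gcd_dvd_right ..
  have hg0' : (g : ℤ) ≠ 0 := by exact_mod_cast hg0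
  set n : ℤ := a / (g : ℤ) - a' / (g : ℤ) with hn
  have hgn : (g : ℤ) * n = a - a' := by
    rw [hn, mul_sub, Int.mul_ediv_cancel' ga, Int.mul_ediv_cancel' ga']
  have hn0 : n ≠ 0 := by
    intro h
    rw [h, mul_zero] at hgn
    exact hne (by (clear * - hgn; linarith only [hgn]))
  -- `p^(s+t)` divides `g n`
  have h3 : ((p : ℤ) ^ (s + t)) ∣ (g : ℤ) * n := by
    rw [hgn]
    have : a - a' = (a - β) - (a' - β) := by ring
    rw [this]
    exact dvd_sub h1 h2
  -- `p^(s+1)` does not divide `g`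
  have h4 : ¬ ((p : ℤ) ^ (s + 1)) ∣ (g : ℤ) := by
    intro h
    have h5 : ((p : ℤ) ^ (s + 1)) ∣ a := h.trans ga
    have h6 : ((p : ℤ) ^ (s + 1)) ∣ a - β := (pow_dvd_pow _ (by omega)).trans h1
    have h7 : ((p : ℤ) ^ (s + 1)) ∣ β := by
      have := dvd_sub h5 h6
      simpa using this
    rw [padicValInt_dvd_iff] at h7
    rcases h7 with h7 | h7
    · exact hβ h7
    · omega
  have h8 : p ^ (s + t) ∣ g * n.natAbs := by
    have := Int.natAbs_dvd_natAbs.mpr h3
    rwa [Int.natAbs_pow, Int.natAbs_natCast, Int.natAbs_mul, Int.natAbs_natCast] at this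
  have hnn : n.natAbs ≠ 0 := Int.natAbs_ne_zero.mpr hn0
  rw [hp.pow_dvd_iff_le_factorization (mul_ne_zero hg0 hnn), Nat.factorization_mul hg0 hnn,
    Finsupp.add_apply] at h8
  have h9 : g.factorization p ≤ s := by
    by_contra h
    push Not at h
    apply h4
    have : p ^ (s + 1) ∣ g := (hp.pow_dvd_iff_le_factorization hg0).2 h
    exact_mod_cast this
  omega

/-- sum over a set of primes of valuations times logarithms -/
theorem sum_fact_le {T : Finset ℕ} {n : ℕ} (hn : n ≠ 0) :
    ∑ p ∈ T, (n.factorization p : ℝ) * Real.log p ≤ Real.log n := by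
  have h1 : ∑ p ∈ T, (n.factorization p : ℝ) * Real.log p ≤
      ∑ p ∈ n.primeFactors, (n.factorization p : ℝ) * Real.log p := by
    have h2 : ∑ p ∈ T.filter (fun p => p ∈ n.primeFactors), (n.factorization p : ℝ) * Real.log p =
        ∑ p ∈ T, (n.factorization p : ℝ) * Real.log p := by
      apply sum_subset (filter_subset _ _)
      intro p hp hp'
      rw [mem_filter, not_and] at hp'
      have h3 : n.factorization p = 0 := by
        rw [← Nat.support_factorization] at hp'
        exact Finsupp.notMem_support_iff.1 (hp' hp)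
      rw [h3]
      simp
    rw [← h2]
    apply sum_le_sum_of_subset_of_nonneg
    · intro p hp
      exact (mem_filter.1 hp).2
    · intro p _ _
      exact mul_nonneg (Nat.cast_nonneg _) (Real.log_natCast_nonneg _)
  refine h1.trans (le_of_eq ?_)
  conv_rhs => rw [← Nat.prod_factorization_pow_eq_self hn]
  rw [Finsupp.prod, Nat.support_factorization]
  push_cast
  rw [Real.log_prod (fun p hp => by
    have := (Nat.prime_of_mem_primeFactors hp).pos
    (clear * - this; positivity))]
  apply sum_congr rfl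
  intro p _
  rw [Real.log_pow]

/-- the common conditions of two different elements -/
theorem pair_bound {T : Finset ℕ} {e : ℕ → ℕ} {β : ℕ → ℤ} (hT : ∀ p ∈ T, p.Prime)
    (hβ : ∀ p ∈ T, β p ≠ 0) {a a' : ℤ} (ha : a ≠ 0) (ha' : a' ≠ 0) (hne : a ≠ a') :
    (∑ x ∈ idx T e β, if Cond β x a ∧ Cond β x a' then Real.log (x.1 : ℝ) else 0) ≤
      dst a a' + Real.log 2 := by
  set g : ℕ := Int.gcd a a' with hg
  have hg0 : g ≠ 0 := by
    intro h
    rw [hg, Int.gcd_eq_zero_iff] at h
    exact ha h.1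
  have ga : (g : ℤ) ∣ a := Int.gcd_dvd_left ..
  have ga' : (g : ℤ) ∣ a' := Int.gcd_dvd_right ..
  have hg0' : (g : ℤ) ≠ 0 := by exact_mod_cast hg0
  obtain ⟨u, hu⟩ := ga
  obtain ⟨u', hu'⟩ := ga'
  have hu0 : u ≠ 0 := by rintro rfl; exact ha (by simpa using hu)
  have hu0' : u' ≠ 0 := by rintro rfl; exact ha' (by simpa using hu')
  have e1 : a / (g : ℤ) = u := by rw [hu]; exact Int.mul_ediv_cancel_left _ hg0'
  have e2 : a' / (g : ℤ) = u' := by rw [hu']; exact Int.mul_ediv_cancel_left _ hg0'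
  set n : ℕ := (a / (g : ℤ) - a' / (g : ℤ)).natAbs with hn
  have hn0 : n ≠ 0 := by
    rw [hn, e1, e2]
    intro h
    have h1 : u = u' := by
      have := Int.natAbs_eq_zero.mp h
      (clear * - this; linarith only [this])
    apply hne
    rw [hu, hu', h1]
  have key : (∑ x ∈ idx T e β, if Cond β x a ∧ Cond β x a' then Real.log (x.1 : ℝ) else 0) ≤
      ∑ p ∈ T, (n.factorization p : ℝ) * Real.log p := by
    unfold idx
    rw [sum_sigma]
    apply sum_le_sum
    intro p hp
    have hc1 : ∀ t ∈ (Icc 1 (e p - padicValInt p (β p))).filter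
        (fun t => Cond β ⟨p, t⟩ a ∧ Cond β ⟨p, t⟩ a'),
        Real.log ((⟨p, t⟩ : Σ _ : ℕ, ℕ).1 : ℝ) = Real.log (p : ℝ) := fun t _ => rfl
    rw [← sum_filter, sum_congr rfl hc1, sum_const, nsmul_eq_mul]
    apply mul_le_mul_of_nonneg_right _ (Real.log_natCast_nonneg _)
    have hsub : (Icc 1 (e p - padicValInt p (β p))).filter
        (fun t => Cond β ⟨p, t⟩ a ∧ Cond β ⟨p, t⟩ a') ⊆ Icc 1 (n.factorization p) := by
      intro t ht
      rw [mem_filter, mem_Icc] at ht
      rw [mem_Icc]
      refine ⟨ht.1.1, ?_⟩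
      exact dvd_core (hT p hp) (hβ p hp) hne ht.1.1 ht.2.1 ht.2.2
    have := card_le_card hsub
    rw [Nat.card_Icc, Nat.add_sub_cancel] at this
    exact_mod_cast this
  refine key.trans ((sum_fact_le hn0).trans ?_)
  -- `n ≤ 2 |u| |u'|`
  have h1 : (n : ℝ) ≤ 2 * (|(u : ℝ)| * |(u' : ℝ)|) := by
    have h2 : (n : ℝ) = |(u : ℝ) - u'| := by
      rw [hn, e1, e2, Nat.cast_natAbs]
      push_cast
      rfl
    rw [h2]
    have h3 : (1 : ℝ) ≤ |(u : ℝ)| := by exact_mod_cast Int.one_le_abs hu0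
    have h4 : (1 : ℝ) ≤ |(u' : ℝ)| := by exact_mod_cast Int.one_le_abs hu0'
    have h5 : |(u : ℝ) - u'| ≤ |(u : ℝ)| + |(u' : ℝ)| := abs_sub _ _
    nlinarith only [h3, h4, h5]
  have hup : 0 < |(u : ℝ)| := abs_pos.2 (by exact_mod_cast hu0)
  have hup' : 0 < |(u' : ℝ)| := abs_pos.2 (by exact_mod_cast hu0')
  have hgp : (0 : ℝ) < (g : ℝ) := by exact_mod_cast Nat.pos_of_ne_zero hg0
  have hnp : (0 : ℝ) < n := by exact_mod_cast Nat.pos_of_ne_zero hn0
  have h6 := Real.log_le_log hnp h1
  rw [Real.log_mul (by norm_num) (by (clear * - hu0 hu0'; positivity)), Real.log_mul hup.ne' hup'.ne'] at h6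
  have h7 : dst a a' = Real.log |(u : ℝ)| + Real.log |(u' : ℝ)| := by
    unfold dst
    rw [← hg]
    have h8 : |(a : ℝ)| = g * |(u : ℝ)| := by
      rw [hu]; push_cast; rw [abs_mul, abs_of_pos hgp]
    have h9 : |(a' : ℝ)| = g * |(u' : ℝ)| := by
      rw [hu']; push_cast; rw [abs_mul, abs_of_pos hgp]
    rw [h8, h9, Real.log_mul hgp.ne' hup.ne', Real.log_mul hgp.ne' hup'.ne']
    ring
  rw [h7]
  linarith only [h6]

/-- triangle inequality -/
theorem dst_triangle {a b c : ℤ} (ha : a ≠ 0) (hb : b ≠ 0) :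
    dst a c ≤ dst a b + dst b c := by
  have h1 : Int.gcd a b * Int.gcd b c ∣ b.natAbs * Int.gcd a c := by
    have : b.natAbs * Int.gcd a c = Nat.gcd (b.natAbs * a.natAbs) (b.natAbs * c.natAbs) := by
      rw [Nat.gcd_mul_left]; rfl
    rw [this]
    apply Nat.dvd_gcd
    · rw [mul_comm]
      exact Nat.mul_dvd_mul (Nat.gcd_dvd_left _ _) (Nat.gcd_dvd_left _ _)
    · exact Nat.mul_dvd_mul (Nat.gcd_dvd_right _ _) (Nat.gcd_dvd_right _ _)
  have g1 : 0 < Int.gcd a b := Int.gcd_pos_of_ne_zero_left _ ha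
  have g2 : 0 < Int.gcd b c := Int.gcd_pos_of_ne_zero_left _ hb
  have g3 : 0 < Int.gcd a c := Int.gcd_pos_of_ne_zero_left _ ha
  have hb' : 0 < b.natAbs := Int.natAbs_pos.2 hb
  have h2 := Nat.le_of_dvd (Nat.mul_pos hb' g3) h1
  have h3 : ((Int.gcd a b : ℝ) * (Int.gcd b c : ℝ)) ≤ |(b : ℝ)| * (Int.gcd a c : ℝ) := by
    have h4 : |(b : ℝ)| = (b.natAbs : ℝ) := by rw [Nat.cast_natAbs]; push_cast; rfl
    rw [h4]
    exact_mod_cast h2
  have p1 : (0 : ℝ) < Int.gcd a b := by exact_mod_cast g1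
  have p2 : (0 : ℝ) < Int.gcd b c := by exact_mod_cast g2
  have p3 : (0 : ℝ) < Int.gcd a c := by exact_mod_cast g3
  have pb : 0 < |(b : ℝ)| := abs_pos.2 (by exact_mod_cast hb)
  have h5 := Real.log_le_log (by (clear * - ha hb; positivity)) h3
  rw [Real.log_mul p1.ne' p2.ne', Real.log_mul pb.ne' p3.ne'] at h5
  unfold dst
  linarith only [h5]

theorem dst_comm (a b : ℤ) : dst a b = dst b a := by
  unfold dst
  rw [Int.gcd_comm]
  ring

/-- the elements which satisfy many conditions -/
noncomputable def Zs (κ : ℝ) (A : Finset ℤ) (T : Finset ℕ) (e : ℕ → ℕ) (β : ℕ → ℤ) : Finset ℤ := by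
  classical
  exact A.filter (fun a => κ / 2 * W1 T e β ≤ Fw T e β a)

theorem Zs_subset (κ : ℝ) (A : Finset ℤ) (T : Finset ℕ) (e : ℕ → ℕ) (β : ℕ → ℤ) :
    Zs κ A T e β ⊆ A := by
  unfold Zs
  exact filter_subset _ _

theorem mem_Zs {κ : ℝ} {A : Finset ℤ} {T : Finset ℕ} {e : ℕ → ℕ} {β : ℕ → ℤ} {a : ℤ} :
    a ∈ Zs κ A T e β ↔ a ∈ A ∧ κ / 2 * W1 T e β ≤ Fw T e β a := by
  unfold Zs
  rw [mem_filter]

/-- every condition is popular -/
theorem cond_card {κ : ℝ} {A : Finset ℤ} {T : Finset ℕ} {e : ℕ → ℕ} {β : ℕ → ℤ}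
    (h : Pop κ A T e β) {x : Σ _ : ℕ, ℕ} (hx : x ∈ idx T e β) :
    κ * (A.card : ℝ) ≤ ((A.filter (fun a => Cond β x a)).card : ℝ) := by
  unfold idx at hx
  rw [mem_sigma, mem_Icc] at hx
  refine (h.2.2 x.1 hx.1).trans ?_
  apply Nat.cast_le.2
  apply card_le_card
  intro a ha
  rw [mem_filter] at ha ⊢
  refine ⟨ha.1, ?_⟩
  unfold Cond
  exact (pow_dvd_pow _ (by omega)).trans ha.2

/-- the set `Zs` is dense -/
theorem Zs_card {κ : ℝ} (hκ : 0 < κ) {A : Finset ℤ} {T : Finset ℕ} {e : ℕ → ℕ} {β : ℕ → ℤ}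
    (h : Pop κ A T e β) (hW : 0 < W1 T e β) :
    κ / 2 * (A.card : ℝ) ≤ ((Zs κ A T e β).card : ℝ) := by
  set W := W1 T e β with hWdef
  have h1 : κ * (A.card : ℝ) * W ≤ ∑ a ∈ A, Fw T e β a := by
    unfold Fw
    rw [sum_comm]
    have h2 : ∀ x ∈ idx T e β, κ * (A.card : ℝ) * Real.log (x.1 : ℝ) ≤
        ∑ a ∈ A, if Cond β x a then Real.log (x.1 : ℝ) else 0 := by
      intro x hx
      rw [← sum_filter, sum_const, nsmul_eq_mul]
      exact mul_le_mul_of_nonneg_right (cond_card h hx) (Real.log_natCast_nonneg _)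
    calc κ * (A.card : ℝ) * W = ∑ x ∈ idx T e β, κ * (A.card : ℝ) * Real.log (x.1 : ℝ) := by
          rw [← mul_sum, hWdef, W1_eq]
      _ ≤ _ := sum_le_sum h2
  have h3 : ∑ a ∈ A, Fw T e β a ≤ (Zs κ A T e β).card * W + A.card * (κ / 2 * W) := by
    have h4 : ∀ a ∈ A, Fw T e β a ≤ (if a ∈ Zs κ A T e β then W else 0) + κ / 2 * W := by
      intro a ha
      split_ifs with hz
      · have := Fw_le T e β a
        have : 0 ≤ κ / 2 * W := by (clear * - hκ hW; positivity)
        linarith [Fw_le T e β a]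
      · have : Fw T e β a < κ / 2 * W := by
          by_contra hlt
          push Not at hlt
          exact hz (mem_Zs.2 ⟨ha, hlt⟩)
        (clear * - this; linarith only [this])
    refine (sum_le_sum h4).trans ?_
    rw [sum_add_distrib, ← sum_filter, sum_const, sum_const, nsmul_eq_mul, nsmul_eq_mul]
    have h5 : A.filter (fun a => a ∈ Zs κ A T e β) = Zs κ A T e β := by
      ext a
      rw [mem_filter]
      exact ⟨fun h => h.2, fun h => ⟨Zs_subset _ _ _ _ _ h, h⟩⟩
    rw [h5]
  have h6 : κ / 2 * (A.card : ℝ) * W ≤ (Zs κ A T e β).card * W := by (clear * - h1 h3; linarith only [h1, h3])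
  exact le_of_mul_le_mul_right h6 hW

/-- **Trivial cells.**  A set of elements of `Zs` whose pairwise distances are at most `w` has at
most `8/κ²` elements. -/
theorem cells {κ : ℝ} (hκ : 0 < κ) {A : Finset ℤ} (hA0 : (0 : ℤ) ∉ A) {T : Finset ℕ} {e : ℕ → ℕ}
    {β : ℕ → ℤ} (h : Pop κ A T e β) {w : ℝ} (hw : w + Real.log 2 ≤ κ ^ 2 * W1 T e β / 8)
    (hw0 : 0 ≤ w) {G : Finset ℤ} (hG : G ⊆ Zs κ A T e β)
    (hd : ∀ a ∈ G, ∀ a' ∈ G, dst a a' ≤ w) :
    (G.card : ℝ) ≤ 8 / κ ^ 2 := by
  set W := W1 T e β with hWdef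
  have hlog2 : 0 < Real.log 2 := Real.log_pos (by norm_num)
  have hW : 0 < W := by
    by_contra hcon
    push Not at hcon
    have : κ ^ 2 * W / 8 ≤ 0 := by
      have : κ ^ 2 * W ≤ 0 := mul_nonpos_of_nonneg_of_nonpos (by positivity) hcon
      (clear * - this; linarith only [this])
    linarith
  have hβ : ∀ p ∈ T, β p ≠ 0 := by
    intro p hp h0
    apply h.2.1 p hp
    rw [h0]
    exact dvd_zero _
  have hne0 : ∀ a ∈ G, a ≠ 0 := by
    intro a ha h0
    apply hA0
    rw [← h0]
    exact Zs_subset _ _ _ _ _ (hG ha)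
  -- number of elements of `G` satisfying a condition
  set n : (Σ _ : ℕ, ℕ) → ℝ := fun x => ((G.filter (fun a => Cond β x a)).card : ℝ) with hn
  have h1 : ∑ a ∈ G, Fw T e β a = ∑ x ∈ idx T e β, Real.log (x.1 : ℝ) * n x := by
    unfold Fw
    rw [sum_comm]
    apply sum_congr rfl
    intro x _
    rw [← sum_filter, sum_const, nsmul_eq_mul, hn]
    ring
  have h2 : (G.card : ℝ) * (κ / 2 * W) ≤ ∑ a ∈ G, Fw T e β a := by
    rw [← nsmul_eq_mul, ← sum_const]
    exact sum_le_sum fun a ha => (mem_Zs.1 (hG ha)).2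
  have h3 : (∑ x ∈ idx T e β, Real.log (x.1 : ℝ) * n x) ^ 2 ≤
      (∑ x ∈ idx T e β, Real.log (x.1 : ℝ)) * ∑ x ∈ idx T e β, Real.log (x.1 : ℝ) * n x ^ 2 := by
    apply Finset.sum_sq_le_sum_mul_sum_of_sq_le_mul
    · exact log_idx_nonneg
    · intro x hx
      exact mul_nonneg (log_idx_nonneg x hx) (sq_nonneg _)
    · intro x _
      apply le_of_eq
      ring
  have h4 : ∑ x ∈ idx T e β, Real.log (x.1 : ℝ) * n x ^ 2 =
      ∑ a ∈ G, ∑ a' ∈ G, ∑ x ∈ idx T e β,
        if Cond β x a ∧ Cond β x a' then Real.log (x.1 : ℝ) else 0 := by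
    have h5 : ∀ x ∈ idx T e β, Real.log (x.1 : ℝ) * n x ^ 2 =
        ∑ a ∈ G, ∑ a' ∈ G, if Cond β x a ∧ Cond β x a' then Real.log (x.1 : ℝ) else 0 := by
      intro x _
      have h6 : ∀ a ∈ G, (∑ a' ∈ G, if Cond β x a ∧ Cond β x a' then Real.log (x.1 : ℝ) else 0) =
          if Cond β x a then n x * Real.log (x.1 : ℝ) else 0 := by
        intro a _
        by_cases hc : Cond β x a
        · simp only [hc, true_and, if_true]
          rw [← sum_filter, sum_const, nsmul_eq_mul]
        · simp [hc]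
      rw [sum_congr rfl h6, ← sum_filter, sum_const, nsmul_eq_mul]
      simp only [hn]
      ring
    rw [sum_congr rfl h5, sum_comm]
    apply sum_congr rfl
    intro a _
    rw [sum_comm]
  have h7 : ∑ a ∈ G, ∑ a' ∈ G, ∑ x ∈ idx T e β,
        (if Cond β x a ∧ Cond β x a' then Real.log (x.1 : ℝ) else 0) ≤
      (G.card : ℝ) * W + (G.card : ℝ) ^ 2 * (w + Real.log 2) := by
    have h8 : ∀ a ∈ G, ∀ a' ∈ G, (∑ x ∈ idx T e β,
        if Cond β x a ∧ Cond β x a' then Real.log (x.1 : ℝ) else 0) ≤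
        (if a = a' then W else 0) + (w + Real.log 2) := by
      intro a ha a' ha'
      split_ifs with heq
      · subst heq
        have : (∑ x ∈ idx T e β, if Cond β x a ∧ Cond β x a then Real.log (x.1 : ℝ) else 0) =
            Fw T e β a := by
          unfold Fw
          simp only [and_self]
        rw [this]
        linarith only [Fw_le T e β a, hw0, hlog2]
      · have := pair_bound (e := e) h.1 hβ (hne0 a ha) (hne0 a' ha') heq
        linarith only [hd a ha a' ha', this]
    calc _ ≤ ∑ a ∈ G, ∑ a' ∈ G, ((if a = a' then W else 0) + (w + Real.log 2)) :=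
          sum_le_sum fun a ha => sum_le_sum fun a' ha' => h8 a ha a' ha'
      _ = (G.card : ℝ) * W + (G.card : ℝ) ^ 2 * (w + Real.log 2) := by
          simp_rw [sum_add_distrib, sum_const, nsmul_eq_mul]
          have : ∑ a ∈ G, ∑ a' ∈ G, (if a = a' then W else 0) = (G.card : ℝ) * W := by
            have h9 : ∀ a ∈ G, (∑ a' ∈ G, if a = a' then W else 0) = W := by
              intro a ha
              rw [sum_ite_eq, if_pos ha]
            rw [sum_congr rfl h9, sum_const, nsmul_eq_mul]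
          rw [this]
          ring
  rcases G.eq_empty_or_nonempty with hGe | hGne
  · rw [hGe]
    simp only [card_empty, Nat.cast_zero]
    positivity
  have hGp : (0 : ℝ) < G.card := by exact_mod_cast card_pos.2 hGne
  rw [← W1_eq, ← h1, h4] at h3
  rw [← hWdef] at h3
  have h10 : ((G.card : ℝ) * (κ / 2 * W)) ^ 2 ≤ (∑ a ∈ G, Fw T e β a) ^ 2 :=
    pow_le_pow_left₀ (by (clear * - hGne hκ hW; positivity)) h2 2
  have h11 : ((G.card : ℝ) * (κ / 2 * W)) ^ 2 ≤
      W * ((G.card : ℝ) * W + (G.card : ℝ) ^ 2 * (w + Real.log 2)) :=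
    h10.trans (h3.trans (mul_le_mul_of_nonneg_left h7 hW.le))
  have h12 : (G.card : ℝ) ^ 2 * (w + Real.log 2) ≤ (G.card : ℝ) ^ 2 * (κ ^ 2 * W / 8) :=
    mul_le_mul_of_nonneg_left hw (by (clear * - hGne; positivity))
  have h13 : (G.card : ℝ) * W * W * (G.card * κ ^ 2) ≤ (G.card : ℝ) * W * W * 8 := by nlinarith only [hW, h11, h12]
  have h14 : (G.card : ℝ) * κ ^ 2 ≤ 8 := le_of_mul_le_mul_left h13 (by (clear * - hGne hW; positivity))
  rw [le_div_iff₀ (by positivity)]
  exact h14

end Pool.Agent.Helper26.TR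
end

/- Helper24.TT.H26.TR.Iface -/
section
set_option autoImplicit false

/-!
MP_120218_co, project TR: interface between the decoding corollary (helper84), the count (helper34)
and the structure theorem.
-/

open Finset

namespace Pool.Agent.Helper26.TR

/-- the resolution of the labels -/
noncomputable def Ures (K : ℕ) (τ L Γ : ℝ) (lam : ℕ → ℕ) (q : ℕ) : ℕ :=
  if lam q = 0 then 1 else K * lam q + ⌈τ * Γ / (L * Real.log q)⌉₊

/-- the valuations agree up to the resolution -/
def Close (U : ℕ → ℕ) (b b' : ℤ) : Prop :=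
  ∀ q : ℕ, q.Prime → |((padicValInt q b : ℤ) - padicValInt q b')| < (U q : ℤ)

/-- the weight of a system of levels -/
noncomputable def Wt (n : ℕ) (lam : ℕ → ℕ) : ℝ :=
  ∑ q ∈ (Finset.range n).filter Nat.Prime, (lam q : ℝ) * Real.log q

open Classical in
/-- decoding corollary (helper84) -/
def CorS : Prop :=
  ∀ (k : ℕ) (ζ : ℝ), 0 < ζ → ∃ (κ : ℝ) (K : ℕ) (τ C : ℝ), 0 < κ ∧ κ ≤ 1 ∧ 1 ≤ K ∧ 0 < τ ∧ 0 < C ∧
    ∀ (Y : Fin k → Finset ℤ) (L : ℝ) (M : ℕ) (n : ℕ) (lam : Fin k → ℕ → ℕ), 1 ≤ L → 1 ≤ M →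
      (∀ l, (Y l).Nonempty) → (∀ l, (0 : ℤ) ∉ Y l) → (∀ l, ((Y l).card : ℝ) ≤ Real.exp L) →
      (∀ l q, n ≤ q → lam l q = 0) →
      (∀ l l' : Fin k, l' < l → ∀ q : ℕ, q.Prime →
        (((Y l').filter (fun b => (q : ℤ) ^ (lam l q + 1) ∣ b)).card : ℝ) ≤ κ * (Y l').card) →
      (∀ l : Fin k, 0 < (l : ℕ) → ∀ b ∈ Y l,
        ((Y l).filter (fun b' => Close (Ures K τ L (Wt n (lam l)) (lam l)) b b' ∧
          dst b b' ≤ C * Wt n (lam l))).card ≤ M) →
      ∑ l, Real.log ((Y l).card) - k * (ζ * L + Real.log M + 1) ≤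
        Real.log (((Fintype.piFinset Y).image (fun f => ∏ i, f i)).card)

open Classical in
/-- the count (helper73, helper34) -/
def CountS : Prop :=
  ∀ (K : ℕ) (τ ζ : ℝ), 0 < τ → 0 < ζ → ∃ (δ : ℝ) (n₀ : ℕ), 0 < δ ∧
    ∀ (N n : ℕ) (lam : ℕ → ℕ), n₀ ≤ N → (∀ q, n ≤ q → lam q = 0) →
      Wt n lam < δ * (Real.log N * Real.log (Real.log N)) →
      ∀ (Y : Finset ℤ) (b : ℤ), (0 : ℤ) ∉ Y →
        ((Y.filter (fun b' => Close (Ures K τ (Real.log N) (Wt n lam) lam) b b')).card : ℝ) ≤
          (N : ℝ) ^ ζ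

end Pool.Agent.Helper26.TR
end

/- Helper24.TT.H34.TR.Count -/
section
set_option autoImplicit false

/-!
MP_120218_co, project TR: the count.  The nonzero integers whose valuations agree with those of a
given integer up to the resolution `Ures` are at most `N ^ ζ` in number, once the weight of the
levels is less than `δ log N log log N` (note 2546 of helper73).
-/

open Finset

namespace Pool.Agent.Helper34.TR

open Pool.Agent.Helper26.TR

/-- the trivial count: sign and the valuations at the primes of `T` -/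
theorem card_close (U : ℕ → ℕ) (T : Finset ℕ)
    (hU : ∀ q : ℕ, q.Prime → q ∉ T → U q ≤ 1) (Y : Finset ℤ) (h0 : (0 : ℤ) ∉ Y) (b : ℤ)
    (F : Finset ℤ) (hFY : F ⊆ Y) (hF : ∀ b' ∈ F, Close U b b') (hT : ∀ q ∈ T, q.Prime) :
    F.card ≤ 2 * ∏ q ∈ T, (2 * U q) := by
  classical
  set P : Finset (ℤ × (∀ q ∈ T, ℤ)) :=
    ({1, -1} : Finset ℤ) ×ˢ T.pi (fun q => Finset.Ioo ((padicValInt q b : ℤ) - U q)
      ((padicValInt q b : ℤ) + U q)) with hP
  have h1 : F.card ≤ P.card := by
    apply Finset.card_le_card_of_injOn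
      (fun b' => ((Int.sign b', fun q _ => (padicValInt q b' : ℤ)) : ℤ × (∀ q ∈ T, ℤ)))
    · intro b' hb'
      have hb0 : b' ≠ 0 := fun h => h0 (h ▸ hFY hb')
      simp only [hP, Finset.coe_product, Set.mem_prod, Finset.mem_coe, Finset.mem_insert,
        Finset.mem_singleton, Finset.mem_pi, Finset.mem_Ioo]
      refine ⟨?_, ?_⟩
      · rcases lt_trichotomy b' 0 with h | h | h
        · right; exact Int.sign_eq_neg_one_of_neg h
        · exact absurd h hb0
        · left; exact Int.sign_eq_one_of_pos h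
      · intro q hq
        have := hF b' hb' q (hT q hq)
        rw [abs_lt] at this
        constructor <;> (clear * - this; linarith only [this])
    · intro x hx y hy hxy
      have hx0 : x ≠ 0 := fun h => h0 (h ▸ hFY hx)
      have hy0 : y ≠ 0 := fun h => h0 (h ▸ hFY hy)
      simp only [Prod.mk.injEq] at hxy
      obtain ⟨hs, hv⟩ := hxy
      have key : ∀ q : ℕ, q.Prime → padicValInt q x = padicValInt q y := by
        intro q hq
        by_cases hqT : q ∈ T
        · have := congrFun (congrFun hv q) hqT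
          exact_mod_cast this
        · have hx1 := hF x hx q hq
          have hy1 := hF y hy q hq
          have hu := hU q hq hqT
          have hu' : (U q : ℤ) ≤ 1 := by exact_mod_cast hu
          rw [abs_lt] at hx1 hy1
          have : (padicValInt q x : ℤ) = padicValInt q y := by
            have a1 := hx1.1; have a2 := hx1.2; have a3 := hy1.1; have a4 := hy1.2
            omega
          exact_mod_cast this
      have habs : x.natAbs = y.natAbs := by
        apply Nat.eq_of_factorization_eq (Int.natAbs_ne_zero.2 hx0) (Int.natAbs_ne_zero.2 hy0)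
        intro q
        by_cases hq : q.Prime
        · rw [Nat.factorization_def _ hq, Nat.factorization_def _ hq]
          exact key q hq
        · rw [Nat.factorization_eq_zero_of_not_prime _ hq,
            Nat.factorization_eq_zero_of_not_prime _ hq]
      rw [← Int.sign_mul_natAbs x, ← Int.sign_mul_natAbs y, hs, habs]
  have h2 : P.card = 2 * ∏ q ∈ T, (Finset.Ioo ((padicValInt q b : ℤ) - U q)
      ((padicValInt q b : ℤ) + U q)).card := by
    rw [hP, Finset.card_product, Finset.card_pi]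
    rfl
  rw [h2] at h1
  refine h1.trans (Nat.mul_le_mul_left 2 ?_)
  apply Finset.prod_le_prod'
  intro q _
  rw [Int.card_Ioo]
  omega

theorem eventually_large (A ζ : ℝ) (hζ : 0 < ζ) :
    ∃ n₀ : ℕ, ∀ N : ℕ, n₀ ≤ N → 1 ≤ Real.log N ∧ 2 ≤ Real.exp (ζ / 4 * Real.log N) ∧
      0 < Real.log (Real.log N) ∧
      Real.sqrt (Real.log N) * (A + 2 * Real.log (Real.log N)) ≤ ζ / 4 * Real.log N := by
  have hL : Filter.Tendsto (fun N : ℕ => Real.log (N : ℝ)) Filter.atTop Filter.atTop :=
    Real.tendsto_log_atTop.comp tendsto_natCast_atTop_atTop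
  have hs : Filter.Tendsto (fun N : ℕ => Real.sqrt (Real.log (N : ℝ))) Filter.atTop
      Filter.atTop := Real.tendsto_sqrt_atTop.comp hL
  have e1 := hL.eventually_ge_atTop 2
  have e2 : ∀ᶠ N : ℕ in Filter.atTop, 4 / ζ ≤ Real.log (N : ℝ) := hL.eventually_ge_atTop _
  have e3 : ∀ᶠ s : ℝ in Filter.atTop, ‖Real.log s‖ ≤ ζ / 32 * ‖s‖ := by
    have := Real.isLittleO_log_id_atTop.bound (c := ζ / 32) (by (clear * - hζ; positivity))
    simpa using this
  have e3' := hs.eventually e3
  have e4 : ∀ᶠ N : ℕ in Filter.atTop, 8 * |A| / ζ ≤ Real.sqrt (Real.log (N : ℝ)) :=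
    hs.eventually_ge_atTop _
  obtain ⟨n₀, hn₀⟩ := Filter.eventually_atTop.1 (e1.and (e2.and (e3'.and e4)))
  refine ⟨n₀, fun N hN => ?_⟩
  obtain ⟨h1, h2, h3, h4⟩ := hn₀ N hN
  set L := Real.log (N : ℝ) with hLdef
  set s := Real.sqrt L with hsdef
  have hLpos : 0 < L := by (clear * - h1; linarith only [h1])
  have hspos : 0 < s := Real.sqrt_pos.2 hLpos
  have hss : s * s = L := Real.mul_self_sqrt hLpos.le
  refine ⟨by linarith only [h1], ?_, Real.log_pos (by linarith only [h1]), ?_⟩
  · have : 1 ≤ ζ / 4 * L := by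
      rw [div_le_iff₀ hζ] at h2
      linarith only [h2]
    have h5 := Real.add_one_le_exp (ζ / 4 * L)
    linarith only [this, h5]
  · have hlog : Real.log L = 2 * Real.log s := by
      rw [← hss, Real.log_mul hspos.ne' hspos.ne']; ring
    have h3' : Real.log s ≤ ζ / 32 * s := by
      have := (le_abs_self (Real.log s)).trans h3
      rwa [Real.norm_of_nonneg hspos.le] at this
    have h4' : A ≤ ζ / 8 * s := by
      rw [div_le_iff₀ hζ] at h4
      have := le_abs_self A
      (clear * - h4 this; linarith only [h4, this])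
    have h6 : A + 2 * Real.log L ≤ ζ / 4 * s := by
      rw [hlog]; linarith only [h3', h4']
    calc s * (A + 2 * Real.log L) ≤ s * (ζ / 4 * s) := mul_le_mul_of_nonneg_left h6 hspos.le
      _ = ζ / 4 * L := by rw [← hss]; ring

theorem countS : CountS := by
  classical
  intro K τ ζ hτ hζ
  set C1 : ℝ := 2 * K + 4 with hC1
  have hC1pos : 0 < C1 := by (clear * -; positivity)
  set A : ℝ := 4 * K + 4 * τ + 4 with hA
  have hApos : 0 < A := by (clear * - hτ; positivity)
  obtain ⟨n₀, hn₀⟩ := eventually_large A ζ hζ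
  set δ : ℝ := min 1 (min (1 / (2 * τ)) (ζ / (8 * C1))) with hδ
  have hδpos : 0 < δ := by
    rw [hδ]
    refine lt_min one_pos (lt_min (by positivity) (by (clear * - hζ; positivity)))
  have hδ1 : δ ≤ 1 := min_le_left _ _
  have hδ2 : δ ≤ 1 / (2 * τ) := (min_le_right _ _).trans (min_le_left _ _)
  have hδ3 : δ ≤ ζ / (8 * C1) := (min_le_right _ _).trans (min_le_right _ _)
  refine ⟨δ, n₀ + 2, hδpos, ?_⟩
  intro N n lam hN hlam hW Y b h0
  obtain ⟨hL1, h2exp, hLLpos, hsqrt⟩ := hn₀ N (by omega)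
  set L := Real.log (N : ℝ) with hLdef
  set LL := Real.log L with hLLdef
  set Γ := Wt n lam with hΓ
  have hLpos : 0 < L := by linarith only [hL1]
  set T : Finset ℕ := ((Finset.range n).filter Nat.Prime).filter (fun q => lam q ≠ 0) with hT
  have hTp : ∀ q ∈ T, q.Prime := fun q hq => (Finset.mem_filter.1 (Finset.mem_filter.1 hq).1).2
  have hTl : ∀ q ∈ T, 1 ≤ lam q := fun q hq => Nat.one_le_iff_ne_zero.2 (Finset.mem_filter.1 hq).2
  have hΓ0 : 0 ≤ Γ := by
    rw [hΓ]
    unfold Wt
    apply Finset.sum_nonneg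
    intro q hq
    exact mul_nonneg (Nat.cast_nonneg _) (Real.log_natCast_nonneg q)
  have hterm : ∀ q ∈ T, (lam q : ℝ) * Real.log q ≤ Γ := by
    intro q hq
    rw [hΓ]
    unfold Wt
    exact Finset.single_le_sum (f := fun q : ℕ => (lam q : ℝ) * Real.log q)
      (fun i _ => mul_nonneg (Nat.cast_nonneg _) (Real.log_natCast_nonneg i))
      (Finset.mem_filter.1 hq).1
  have hsumT : ∑ q ∈ T, (lam q : ℝ) * Real.log q ≤ Γ := by
    rw [hΓ]
    unfold Wt
    exact Finset.sum_le_sum_of_subset_of_nonneg (Finset.filter_subset _ _)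
      (fun i _ _ => mul_nonneg (Nat.cast_nonneg _) (Real.log_natCast_nonneg i))
  set U : ℕ → ℕ := Ures K τ L Γ lam with hU
  have hcard : ((Y.filter (fun b' => Close U b b')).card : ℝ) ≤ 2 * ∏ q ∈ T, (2 * (U q : ℝ)) := by
    have := card_close U T (by
      intro q hq hqT
      by_cases hl : lam q = 0
      · rw [hU]; unfold Ures; rw [if_pos hl]
      · exfalso
        apply hqT
        rw [hT, Finset.mem_filter, Finset.mem_filter, Finset.mem_range]
        refine ⟨⟨?_, hq⟩, hl⟩
        by_contra h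
        exact hl (hlam q (not_lt.1 h))) Y h0 b (Y.filter (fun b' => Close U b b'))
        (Finset.filter_subset _ _) (fun b' hb' => (Finset.mem_filter.1 hb').2) hTp
    exact_mod_cast this
  -- the bound of one factor
  set g : ℕ → ℝ := fun q => if 2 * Real.log q ≤ LL then A + 2 * LL else C1 * lam q with hg
  have hUle : ∀ q ∈ T, (U q : ℝ) ≤ K * lam q + τ * Γ / (L * Real.log q) + 1 := by
    intro q hq
    have hl : lam q ≠ 0 := (Finset.mem_filter.1 hq).2
    have hlogq : 0 < Real.log (q : ℝ) :=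
      Real.log_pos (by exact_mod_cast (hTp q hq).one_lt)
    have : U q = K * lam q + ⌈τ * Γ / (L * Real.log q)⌉₊ := by
      rw [hU]; unfold Ures; rw [if_neg hl]
    rw [this]
    push_cast
    have h3 := Nat.ceil_lt_add_one (a := τ * Γ / (L * Real.log q)) (by (clear * - hτ hΓ0 hL1 hlogq; positivity))
    linarith only [h3]
  have hfac : ∀ q ∈ T, 2 * (U q : ℝ) ≤ Real.exp (g q) := by
    intro q hq
    have hlogq : 0 < Real.log (q : ℝ) :=
      Real.log_pos (by exact_mod_cast (hTp q hq).one_lt)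
    have hlam1 : (1 : ℝ) ≤ lam q := by exact_mod_cast hTl q hq
    have hu := hUle q hq
    have hΓL : Γ ≤ δ * (L * LL) := hW.le
    by_cases hc : 2 * Real.log q ≤ LL
    · have hgq : g q = A + 2 * LL := by rw [hg]; exact if_pos hc
      rw [hgq, Real.exp_add]
      have hexp2 : Real.exp (2 * LL) = L * L := by
        rw [two_mul, Real.exp_add, hLLdef, Real.exp_log hLpos]
      rw [hexp2]
      have hq2 : (1 / 2 : ℝ) ≤ Real.log q := by
        have h2 : Real.log 2 ≤ Real.log (q : ℝ) :=
          Real.log_le_log (by norm_num) (by exact_mod_cast (hTp q hq).two_le)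
        have := Real.log_two_gt_d9
        (clear * - h2 this; linarith only [h2, this])
      have hLLL : LL ≤ L := by
        have := Real.log_le_sub_one_of_pos hLpos
        linarith only [this]
      have hΓ2 : Γ ≤ L * L := by
        calc Γ ≤ δ * (L * LL) := hΓL
          _ ≤ 1 * (L * L) := by
            apply mul_le_mul hδ1 _ (by (clear * - hL1 hLLpos; positivity)) zero_le_one
            exact mul_le_mul_of_nonneg_left hLLL hLpos.le
          _ = L * L := one_mul _
      have hl2 : (lam q : ℝ) ≤ 2 * (L * L) := by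
        have h5 := (hterm q hq).trans hΓ2
        have h6 : (lam q : ℝ) * (1 / 2) ≤ lam q * Real.log q :=
          mul_le_mul_of_nonneg_left hq2 (by (clear * - hlam1; positivity))
        linarith only [h5, h6]
      have hfrac : τ * Γ / (L * Real.log q) ≤ 2 * τ * (L * L) := by
        rw [div_le_iff₀ (by (clear * - hL1 hlogq; positivity))]
        have h7 : τ * Γ ≤ τ * (L * L) := mul_le_mul_of_nonneg_left hΓ2 hτ.le
        have h8 : (1 / 2 : ℝ) ≤ L * Real.log q := by (clear * - hc hq2 hLLL; nlinarith only [hc, hq2, hLLL])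
        have h9 : 0 ≤ 2 * τ * (L * L) := by (clear * - hτ hL1; positivity)
        have h10 : 2 * τ * (L * L) * (1 / 2) ≤ 2 * τ * (L * L) * (L * Real.log q) :=
          mul_le_mul_of_nonneg_left h8 h9
        linarith only [h7, h10]
      have hLL1 : 1 ≤ L * L := by nlinarith only [hc, hq2, hLLL]
      have hK : (K : ℝ) * lam q ≤ K * (2 * (L * L)) :=
        mul_le_mul_of_nonneg_left hl2 (Nat.cast_nonneg _)
      have h11 : 2 * (U q : ℝ) ≤ A * (L * L) := by
        rw [hA]
        linarith only [hu, hfrac, hLL1, hK]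
      have h12 : A * (L * L) ≤ Real.exp A * (L * L) := by
        apply mul_le_mul_of_nonneg_right _ (by (clear * - hL1; positivity))
        have := Real.add_one_le_exp A
        linarith only [this]
      linarith only [h11, h12]
    · have hgq : g q = C1 * lam q := by rw [hg]; exact if_neg hc
      rw [hgq]
      have hc' : LL < 2 * Real.log q := not_le.1 hc
      have hfrac : τ * Γ / (L * Real.log q) ≤ 1 := by
        rw [div_le_one (by (clear * - hL1 hlogq; positivity))]
        have h7 : τ * Γ ≤ τ * (1 / (2 * τ) * (L * LL)) := by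
          apply mul_le_mul_of_nonneg_left _ hτ.le
          exact hΓL.trans (mul_le_mul_of_nonneg_right hδ2 (by (clear * - hL1 hLLpos; positivity)))
        have h8 : τ * (1 / (2 * τ) * (L * LL)) = L * (LL / 2) := by
          (clear * - hτ hLLpos hL1; field_simp)
        rw [h8] at h7
        have h9 : L * (LL / 2) ≤ L * Real.log q :=
          mul_le_mul_of_nonneg_left (by (clear * - hc'; linarith only [hc'])) hLpos.le
        linarith only [h7, h9]
      have h10 : 2 * (U q : ℝ) ≤ C1 * lam q := by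
        rw [hC1]
        linarith only [hlam1, hu, hfrac]
      have := Real.add_one_le_exp (C1 * lam q)
      linarith only [h10, this]
  have hprod : ∏ q ∈ T, (2 * (U q : ℝ)) ≤ Real.exp (∑ q ∈ T, g q) := by
    rw [Real.exp_sum]
    exact Finset.prod_le_prod (fun q _ => by (clear * -; positivity)) hfac
  -- the sum
  have hsum : ∑ q ∈ T, g q ≤ ζ / 2 * L := by
    rw [← Finset.sum_filter_add_sum_filter_not T (fun q : ℕ => 2 * Real.log (q : ℝ) ≤ LL)]
    have hsmall : ∑ q ∈ T.filter (fun q : ℕ => 2 * Real.log (q : ℝ) ≤ LL), g q ≤ ζ / 4 * L := by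
      have h1 : ∑ q ∈ T.filter (fun q : ℕ => 2 * Real.log (q : ℝ) ≤ LL), g q =
          ∑ q ∈ T.filter (fun q : ℕ => 2 * Real.log (q : ℝ) ≤ LL), (A + 2 * LL) := by
        apply Finset.sum_congr rfl
        intro q hq
        rw [hg]
        exact if_pos (Finset.mem_filter.1 hq).2
      rw [h1, Finset.sum_const, nsmul_eq_mul]
      have hcardle : ((T.filter (fun q : ℕ => 2 * Real.log (q : ℝ) ≤ LL)).card : ℝ) ≤
          Real.sqrt L := by
        have hsub : T.filter (fun q : ℕ => 2 * Real.log (q : ℝ) ≤ LL) ⊆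
            Finset.Icc 1 ⌊Real.sqrt L⌋₊ := by
          intro q hq
          obtain ⟨hqT, hql⟩ := Finset.mem_filter.1 hq
          have hqpos : (0 : ℝ) < q := by exact_mod_cast (hTp q hqT).pos
          rw [Finset.mem_Icc]
          refine ⟨(hTp q hqT).one_le, ?_⟩
          apply Nat.le_floor
          apply Real.le_sqrt_of_sq_le
          have : Real.log ((q : ℝ) ^ 2) ≤ Real.log L := by
            rw [Real.log_pow]
            push_cast
            exact hql
          exact (Real.log_le_log_iff (by (clear * - hqpos; positivity)) hLpos).1 this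
        have h3 := Finset.card_le_card hsub
        rw [Nat.card_Icc] at h3
        have h4 : ((T.filter (fun q : ℕ => 2 * Real.log (q : ℝ) ≤ LL)).card : ℝ) ≤
            (⌊Real.sqrt L⌋₊ : ℝ) := by
          exact_mod_cast (by omega :
            (T.filter (fun q : ℕ => 2 * Real.log (q : ℝ) ≤ LL)).card ≤ ⌊Real.sqrt L⌋₊)
        exact h4.trans (Nat.floor_le (Real.sqrt_nonneg _))
      calc _ ≤ Real.sqrt L * (A + 2 * LL) :=
            mul_le_mul_of_nonneg_right hcardle (by (clear * - hτ hLLpos; positivity))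
        _ ≤ ζ / 4 * L := hsqrt
    have hbig : ∑ q ∈ T.filter (fun q : ℕ => ¬ 2 * Real.log (q : ℝ) ≤ LL), g q ≤ ζ / 4 * L := by
      have h1 : ∑ q ∈ T.filter (fun q : ℕ => ¬ 2 * Real.log (q : ℝ) ≤ LL), g q ≤
          ∑ q ∈ T.filter (fun q : ℕ => ¬ 2 * Real.log (q : ℝ) ≤ LL),
            (2 * C1 / LL) * ((lam q : ℝ) * Real.log q) := by
        apply Finset.sum_le_sum
        intro q hq
        have hc := (Finset.mem_filter.1 hq).2
        have hgq : g q = C1 * lam q := by rw [hg]; exact if_neg hc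
        rw [hgq]
        have hc' : LL ≤ 2 * Real.log q := (not_le.1 hc).le
        have h5 : 2 * C1 / LL * ((lam q : ℝ) * Real.log q) =
            C1 * lam q * (2 * Real.log q / LL) := by ring
        rw [h5]
        have h6 : 1 ≤ 2 * Real.log q / LL := by rwa [one_le_div hLLpos]
        exact le_mul_of_one_le_right (by (clear * -; positivity)) h6
      have h2 : ∑ q ∈ T.filter (fun q : ℕ => ¬ 2 * Real.log (q : ℝ) ≤ LL),
          (2 * C1 / LL) * ((lam q : ℝ) * Real.log q) ≤ (2 * C1 / LL) * Γ := by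
        rw [← Finset.mul_sum]
        apply mul_le_mul_of_nonneg_left _ (by (clear * - hLLpos; positivity))
        refine le_trans ?_ hsumT
        exact Finset.sum_le_sum_of_subset_of_nonneg (Finset.filter_subset _ _)
          (fun i _ _ => mul_nonneg (Nat.cast_nonneg _) (Real.log_natCast_nonneg i))
      have h3 : (2 * C1 / LL) * Γ ≤ (2 * C1 / LL) * (ζ / (8 * C1) * (L * LL)) := by
        apply mul_le_mul_of_nonneg_left _ (by (clear * - hLLpos; positivity))
        exact hW.le.trans (mul_le_mul_of_nonneg_right hδ3 (by (clear * - hL1 hLLpos; positivity)))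
      have h4 : (2 * C1 / LL) * (ζ / (8 * C1) * (L * LL)) = ζ / 4 * L := by
        field_simp
        ring
      linarith only [h1, h2, h3, h4]
    linarith only [hsmall, hbig]
  calc ((Y.filter (fun b' => Close U b b')).card : ℝ) ≤ 2 * ∏ q ∈ T, (2 * (U q : ℝ)) := hcard
    _ ≤ Real.exp (ζ / 4 * L) * Real.exp (∑ q ∈ T, g q) := by
      apply mul_le_mul h2exp hprod (Finset.prod_nonneg (fun q _ => by (clear * -; positivity)))
        (Real.exp_pos _).le
    _ ≤ Real.exp (ζ / 4 * L) * Real.exp (ζ / 2 * L) := by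
      apply mul_le_mul_of_nonneg_left _ (Real.exp_pos _).le
      exact Real.exp_le_exp.2 hsum
    _ ≤ Real.exp (L * ζ) := by
      rw [← Real.exp_add]
      apply Real.exp_le_exp.2
      (clear * - hζ hL1; nlinarith only [hζ, hL1])
    _ = (N : ℝ) ^ ζ := by
      have hNpos : (0 : ℝ) < N := by
        have : 0 < N := by (clear * - hN; omega)
        exact_mod_cast this
      rw [Real.rpow_def_of_pos hNpos]

end Pool.Agent.Helper34.TR
end

/- Helper24.TT.H26.TR.NZ -/
section
set_option autoImplicit false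

/-!
MP_120218_co, project TR: the structure theorem `NZMix` from the decoding corollary and the count.
-/

open Finset

namespace Pool.Agent.Helper26.TR

theorem padic_zero_of_lt {q : ℕ} {a : ℤ} (ha : a ≠ 0) (h : a.natAbs < q) :
    padicValInt q a = 0 := by
  unfold padicValInt
  apply padicValNat.eq_zero_of_not_dvd
  intro hd
  have := Nat.le_of_dvd (Int.natAbs_pos.2 ha) hd
  omega

theorem lev_le_mval (κ : ℝ) (A : Finset ℤ) (p : ℕ) : lev κ A p ≤ mval A p := by
  unfold lev
  exact Nat.findGreatest_le _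

/-- above the level the divisibility is unpopular -/
theorem cdiv_lt {κ : ℝ} (hκ : 0 < κ) {A : Finset ℤ} (hA : A.Nonempty) (hA0 : (0 : ℤ) ∉ A) {p : ℕ}
    (hp : p.Prime) {l : ℕ} (hl : lev κ A p < l) :
    (cdiv A ((p : ℤ) ^ l) : ℝ) < κ * A.card := by
  have := Fact.mk hp
  by_cases h : l ≤ mval A p
  · have h1 := Nat.findGreatest_is_greatest hl h
    push Not at h1
    exact h1
  · push Not at h
    have h2 : cdiv A ((p : ℤ) ^ l) = 0 := by
      unfold cdiv
      rw [card_eq_zero]
      apply filter_false_of_mem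
      intro a ha hd
      have ha0 : a ≠ 0 := fun h0 => hA0 (h0 ▸ ha)
      rw [padicValInt_dvd_iff] at hd
      rcases hd with hd | hd
      · exact ha0 hd
      · have h3 : padicValInt p a ≤ mval A p := by
          unfold mval
          exact le_sup (f := fun a => padicValInt p a) ha
        omega
    rw [h2]
    have : (0 : ℝ) < A.card := by exact_mod_cast card_pos.2 hA
    simp only [Nat.cast_zero]
    (clear * - hκ hA; positivity)

theorem lev_zero_of_notMem {κ : ℝ} {A : Finset ℤ} (hA0 : (0 : ℤ) ∉ A) {p : ℕ} (hp : p.Prime)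
    (h : p ∉ prs A) : lev κ A p = 0 := by
  have h1 : mval A p = 0 := by
    unfold mval
    rw [← bot_eq_zero, Finset.sup_eq_bot_iff]
    intro a ha
    have ha0 : a ≠ 0 := fun h0 => hA0 (h0 ▸ ha)
    unfold padicValInt
    apply padicValNat.eq_zero_of_not_dvd
    intro hd
    apply h
    unfold prs
    rw [mem_biUnion]
    exact ⟨a, ha, Nat.mem_primeFactors.2 ⟨hp, hd, Int.natAbs_ne_zero.2 ha0⟩⟩
  have := lev_le_mval κ A p
  omega

theorem W0_nonneg (κ : ℝ) (A : Finset ℤ) : 0 ≤ W0 κ A := by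
  unfold W0
  exact sum_nonneg fun p _ => mul_nonneg (Nat.cast_nonneg _) (Real.log_natCast_nonneg _)

theorem W0b_nonneg {k : ℕ} (κ : ℝ) (A : Fin k → Finset ℤ) (l : Fin k) : 0 ≤ W0b κ A l := by
  unfold W0b
  exact sum_nonneg fun l' _ => W0_nonneg _ _

/-- a bound for all elements -/
def bd {k : ℕ} (A : Fin k → Finset ℤ) : ℕ := (∑ l, ∑ a ∈ A l, a.natAbs) + 2

theorem natAbs_lt_bd {k : ℕ} {A : Fin k → Finset ℤ} {l : Fin k} {a : ℤ} (ha : a ∈ A l) :
    a.natAbs < bd A := by
  unfold bd
  have h1 : a.natAbs ≤ ∑ a ∈ A l, a.natAbs :=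
    single_le_sum (f := fun a : ℤ => a.natAbs) (fun _ _ => Nat.zero_le _) ha
  have h2 : ∑ a ∈ A l, a.natAbs ≤ ∑ l, ∑ a ∈ A l, a.natAbs :=
    single_le_sum (f := fun l => ∑ a ∈ A l, a.natAbs) (fun _ _ => Nat.zero_le _) (mem_univ l)
  omega

/-- the levels used to decode the `l`-th set -/
noncomputable def lamS {k : ℕ} (κ : Fin k → ℝ) (A : Fin k → Finset ℤ) (l : Fin k) (q : ℕ) : ℕ :=
  ∑ l' ∈ univ.filter (fun l' : Fin k => l' < l), lev (κ l) (A l') q

theorem lev_zero_of_bd {k : ℕ} {κ : ℝ} {A : Fin k → Finset ℤ} (hA0 : ∀ l, (0 : ℤ) ∉ A l)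
    {l : Fin k} {q : ℕ} (hq : bd A ≤ q) : lev κ (A l) q = 0 := by
  have h1 : mval (A l) q = 0 := by
    unfold mval
    rw [← bot_eq_zero, Finset.sup_eq_bot_iff]
    intro a ha
    have ha0 : a ≠ 0 := fun h0 => hA0 l (h0 ▸ ha)
    exact padic_zero_of_lt ha0 (lt_of_lt_of_le (natAbs_lt_bd ha) hq)
  have := lev_le_mval κ (A l) q
  omega

theorem lamS_zero {k : ℕ} {κ : Fin k → ℝ} {A : Fin k → Finset ℤ} (hA0 : ∀ l, (0 : ℤ) ∉ A l)
    (l : Fin k) (q : ℕ) (hq : bd A ≤ q) : lamS κ A l q = 0 := by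
  unfold lamS
  apply sum_eq_zero
  intro l' _
  exact lev_zero_of_bd hA0 hq

theorem W0_eq {k : ℕ} {κ : ℝ} {A : Fin k → Finset ℤ} (hA0 : ∀ l, (0 : ℤ) ∉ A l) (l : Fin k) :
    ∑ q ∈ (range (bd A)).filter Nat.Prime, (lev κ (A l) q : ℝ) * Real.log q = W0 κ (A l) := by
  unfold W0
  symm
  apply sum_subset
  · intro p hp
    unfold prs at hp
    rw [mem_biUnion] at hp
    obtain ⟨a, ha, hpa⟩ := hp
    rw [Nat.mem_primeFactors] at hpa
    rw [mem_filter, mem_range]
    refine ⟨lt_of_le_of_lt (Nat.le_of_dvd (Nat.pos_of_ne_zero hpa.2.2) hpa.2.1)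
      (natAbs_lt_bd ha), hpa.1⟩
  · intro p hp hp'
    rw [mem_filter] at hp
    rw [lev_zero_of_notMem (hA0 l) hp.2 hp']
    simp

theorem Wt_eq {k : ℕ} {κ : Fin k → ℝ} {A : Fin k → Finset ℤ} (hA0 : ∀ l, (0 : ℤ) ∉ A l)
    (l : Fin k) : Wt (bd A) (lamS κ A l) = W0b (κ l) A l := by
  unfold Wt W0b
  rw [sum_congr rfl (fun l' _ => (W0_eq (κ := κ l) hA0 l').symm), sum_comm]
  apply sum_congr rfl
  intro q _
  unfold lamS
  push_cast
  rw [sum_mul]

/-- **The structure theorem** (mixed form). -/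
theorem nzMix (hcor : CorS) (hcount : CountS) : NZMix := by
  classical
  intro k ε hε
  set ζ : ℝ := ε / (4 * (k + 1)) with hζ
  have hk1 : (0 : ℝ) < (k : ℝ) + 1 := by (clear * -; positivity)
  have hζ0 : 0 < ζ := by (clear * - hε; positivity)
  obtain ⟨κ₀, K, τ, C, hκ₀, hκ₀1, hK, hτ, hC, hmain⟩ := hcor k ζ hζ0
  obtain ⟨δ, n₀, hδ, hcnt⟩ := hcount K τ ζ hτ hζ0
  set κ : Fin k → ℝ := fun l => (κ₀ / 2) ^ ((l : ℕ) + 1) with hκ
  have hκpos : ∀ l, 0 < κ l := fun l => by simp only [hκ]; (clear * - hκ₀; positivity)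
  have hhalf : κ₀ / 2 ≤ 1 := by linarith only [hκ₀1]
  have hκle : ∀ l, κ l ≤ 1 := fun l => by
    simp only [hκ]
    exact pow_le_one₀ (by positivity) hhalf
  have hκle' : ∀ l, κ l ≤ κ₀ / 2 := fun l => by
    simp only [hκ]
    calc (κ₀ / 2) ^ ((l : ℕ) + 1) ≤ (κ₀ / 2) ^ 1 :=
          pow_le_pow_of_le_one (by positivity) hhalf (by omega)
      _ = κ₀ / 2 := pow_one _
  have hκstep : ∀ l l' : Fin k, l' < l → κ l ≤ κ₀ / 2 * κ l' := by
    intro l l' hl
    simp only [hκ]
    rw [← pow_succ']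
    apply pow_le_pow_of_le_one (by positivity) hhalf
    have : (l' : ℕ) < l := hl
    omega
  set κm : ℝ := (κ₀ / 2) ^ (k + 1) with hκm
  have hκm0 : 0 < κm := by positivity
  have hκml : ∀ l, κm ≤ κ l := fun l => by
    simp only [hκ, hκm]
    exact pow_le_pow_of_le_one (by positivity) hhalf (by have := l.2; omega)
  set B : ℝ := 8 / κm ^ 2 with hB
  have hB0 : 0 < B := by positivity
  set C' : ℝ := 8 * (2 * C + 1) / κm ^ 2 with hC'
  have hC'0 : 0 < C' := by positivity
  -- a threshold for `N`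
  obtain ⟨n₁, hn₁⟩ : ∃ n₁ : ℕ, ∀ N : ℕ, n₁ ≤ N → B ≤ (N : ℝ) ^ ζ := by
    have ht : Filter.Tendsto (fun N : ℕ => (N : ℝ) ^ ζ) Filter.atTop Filter.atTop :=
      (tendsto_rpow_atTop hζ0).comp tendsto_natCast_atTop_atTop
    obtain ⟨n₁, hn₁⟩ := (Filter.tendsto_atTop.1 ht B).exists_forall_of_atTop
    exact ⟨n₁, hn₁⟩
  set n₂ : ℕ := max (max n₀ n₁) 16 with hn₂
  set D : ℝ := ∑ l, Real.log (κ l / 2) - k * (Real.log 2 + 1) with hD
  set c : ℝ := min (min δ 1) (min (1 / (n₂ : ℝ) ^ k) (Real.exp D)) with hc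
  have hn₂0 : (0 : ℝ) < n₂ := by
    have : 0 < n₂ := by omega
    exact_mod_cast this
  have hc0 : 0 < c := lt_min (lt_min hδ one_pos) (lt_min (by (clear * -; positivity)) (Real.exp_pos _))
  have hcδ : c ≤ δ := (min_le_left _ _).trans (min_le_left _ _)
  have hc1 : c ≤ 1 := (min_le_left _ _).trans (min_le_right _ _)
  have hcn : c ≤ 1 / (n₂ : ℝ) ^ k := (min_le_right _ _).trans (min_le_left _ _)
  have hcD : c ≤ Real.exp D := (min_le_right _ _).trans (min_le_right _ _)
  clear_value c
  refine ⟨κ, C', c, fun l => ⟨hκpos l, hκle l⟩, hC'0, hc0, ?_⟩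
  intro N A hAne hA0 hAN hmix
  by_contra hcon
  push Not at hcon
  have hmixne : (mixSet A).Nonempty := by
    unfold mixSet
    apply Nonempty.image
    rw [Fintype.piFinset_nonempty]
    exact hAne
  have hmix1 : (1 : ℝ) ≤ ((mixSet A).card : ℝ) := by exact_mod_cast card_pos.2 hmixne
  have hprodpos : (0 : ℝ) < ∏ l, ((A l).card : ℝ) :=
    prod_pos fun l _ => by exact_mod_cast card_pos.2 (hAne l)
  have hN1 : 1 ≤ N := by
    by_contra h
    have hN0 : N = 0 := by omega
    subst hN0
    rw [Nat.cast_zero, Real.zero_rpow (by linarith only [hε])] at hmix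
    linarith only [hmix]
  have hNpos : (0 : ℝ) < N := by exact_mod_cast hN1
  have hNε : (N : ℝ) ^ (-ε) ≤ 1 := by
    apply Real.rpow_le_one_of_one_le_of_nonpos (by exact_mod_cast hN1) (by linarith only [hε])
  rcases lt_or_ge N n₂ with hlt | hge
  · -- small `N`
    have h1 : ∏ l, ((A l).card : ℝ) ≤ (n₂ : ℝ) ^ k := by
      calc ∏ l, ((A l).card : ℝ) ≤ ∏ _l : Fin k, (n₂ : ℝ) := by
            apply prod_le_prod
            · intro l _; (clear * - hAne hc hc0 hcδ hc1 hcn hcD hmix hcon; positivity)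
            · intro l _
              have := hAN l
              exact_mod_cast this.trans hlt.le
        _ = (n₂ : ℝ) ^ k := by rw [prod_const, card_univ, Fintype.card_fin]
    have h2 : c * (N : ℝ) ^ (-ε) * ∏ l, ((A l).card : ℝ) ≤ 1 := by
      calc c * (N : ℝ) ^ (-ε) * ∏ l, ((A l).card : ℝ)
          ≤ (1 / (n₂ : ℝ) ^ k) * 1 * (n₂ : ℝ) ^ k := by
            apply mul_le_mul _ h1 hprodpos.le (by (clear * -; positivity))
            exact mul_le_mul hcn hNε (by (clear * - hN1; positivity)) (by (clear * -; positivity))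
        _ = 1 := by (clear * - hn₂0; field_simp)
    linarith only [hmix, hmix1, h2]
  · have hNn₀ : n₀ ≤ N := by omega
    have hNn₁ : n₁ ≤ N := by omega
    have hN16 : 16 ≤ N := by omega
    set L : ℝ := Real.log N with hL
    have hL1 : 1 ≤ L := by
      rw [hL, Real.le_log_iff_exp_le hNpos]
      have h3 : Real.exp 1 < 2.7182818286 := Real.exp_one_lt_d9
      have h4 : (16 : ℝ) ≤ N := by exact_mod_cast hN16
      (clear * - h3 h4; linarith only [h3, h4])
    have hLL : 0 ≤ L * Real.log L := mul_nonneg (by linarith only [hL1]) (Real.log_nonneg hL1)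
    have hNζ : B ≤ (N : ℝ) ^ ζ := hn₁ N hNn₁
    have hNζ1 : (1 : ℝ) ≤ (N : ℝ) ^ ζ := Real.one_le_rpow (by exact_mod_cast hN1) hζ0.le
    set M : ℕ := ⌈(N : ℝ) ^ ζ⌉₊ with hM
    have hMle : (N : ℝ) ^ ζ ≤ M := Nat.le_ceil _
    have hM1 : 1 ≤ M := by
      have : (1 : ℝ) ≤ M := hNζ1.trans hMle
      exact_mod_cast this
    have hlogM : Real.log M ≤ ζ * L + Real.log 2 := by
      have h5 : (M : ℝ) ≤ 2 * (N : ℝ) ^ ζ := by
        have := Nat.ceil_lt_add_one (show 0 ≤ (N : ℝ) ^ ζ by (clear * - hN1; positivity))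
        rw [← hM] at this
        linarith only [hNζ1, this]
      have h6 := Real.log_le_log (by exact_mod_cast hM1) h5
      rw [Real.log_mul (by norm_num) (by (clear * - hN1; positivity)), Real.log_rpow hNpos] at h6
      linarith only [h6]
    -- the dichotomy
    have hdich : ∀ l : Fin k, 0 < (l : ℕ) →
        (∃ (T : Finset ℕ) (e : ℕ → ℕ) (β : ℕ → ℤ), Pop (κ l) (A l) T e β ∧
          C' * (W0b (κ l) A l + 1) < W1 T e β) ∨ W0b (κ l) A l < c * (L * Real.log L) := by
      intro l hl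
      by_contra h
      push Not at h
      exact absurd (hcon l hl h.1) (not_lt.2 h.2)
    -- choose the sets
    have hchoice : ∀ l : Fin k, ∃ Z : Finset ℤ, Z ⊆ A l ∧
        κ l / 2 * ((A l).card : ℝ) ≤ (Z.card : ℝ) ∧ ((l : ℕ) = 0 → Z = A l) ∧
        (0 < (l : ℕ) → ∀ b ∈ Z,
          (Z.filter (fun b' => Close (Ures K τ L (Wt (bd A) (lamS κ A l)) (lamS κ A l)) b b' ∧
            dst b b' ≤ C * Wt (bd A) (lamS κ A l))).card ≤ M) := by
      intro l
      have hκA : κ l / 2 * ((A l).card : ℝ) ≤ ((A l).card : ℝ) := by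
        have h7 : κ l / 2 ≤ 1 := by linarith only [hκle l]
        calc κ l / 2 * ((A l).card : ℝ) ≤ 1 * ((A l).card : ℝ) :=
              mul_le_mul_of_nonneg_right h7 (Nat.cast_nonneg _)
          _ = _ := one_mul _
      rcases Nat.eq_zero_or_pos (l : ℕ) with hl | hl
      · exact ⟨A l, Subset.rfl, hκA, fun _ => rfl, fun h => absurd h (by omega)⟩
      · rcases hdich l hl with ⟨T, e, β, hpop, hWlt⟩ | hsmall
        · have hWb := W0b_nonneg (κ l) A l
          have hW1 : 0 < W1 T e β := lt_of_le_of_lt (by (clear * - hC hκ₀ hWb; positivity)) hWlt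
          refine ⟨Zs (κ l) (A l) T e β, Zs_subset _ _ _ _ _, Zs_card (hκpos l) hpop hW1,
            fun h => absurd h (by omega), ?_⟩
          intro _ b hb
          rw [Wt_eq hA0]
          set G := (Zs (κ l) (A l) T e β).filter (fun b' =>
            Close (Ures K τ L (W0b (κ l) A l) (lamS κ A l)) b b' ∧
              dst b b' ≤ C * W0b (κ l) A l) with hG
          have hne0 : ∀ a ∈ Zs (κ l) (A l) T e β, a ≠ 0 := by
            intro a ha h0
            exact hA0 l (h0 ▸ Zs_subset _ _ _ _ _ ha)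
          have hcell := cells (hκpos l) (hA0 l) hpop (w := 2 * (C * W0b (κ l) A l)) (by
            have h8 : κ l ^ 2 * C' / 8 ≥ 2 * C + 1 := by
              have h9 : κm ^ 2 ≤ κ l ^ 2 := pow_le_pow_left₀ hκm0.le (hκml l) 2
              have h10 : κm ^ 2 * C' = 8 * (2 * C + 1) := by
                rw [hC']; (clear * - hκm0 hC; field_simp)
              have h11 : κm ^ 2 * C' ≤ κ l ^ 2 * C' := mul_le_mul_of_nonneg_right h9 hC'0.le
              (clear * - h10 h11; linarith only [h10, h11])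
            have hlog2 : Real.log 2 ≤ 1 := by
              have := Real.log_two_lt_d9
              linarith only [this]
            have h12 : κ l ^ 2 * (C' * (W0b (κ l) A l + 1)) ≤ κ l ^ 2 * W1 T e β :=
              mul_le_mul_of_nonneg_left hWlt.le (by positivity)
            have h13 : (2 * C + 1) * (W0b (κ l) A l + 1) ≤
                κ l ^ 2 * C' / 8 * (W0b (κ l) A l + 1) :=
              mul_le_mul_of_nonneg_right h8 (by (clear * - hWb; positivity))
            nlinarith only [hC, hWb, h8, hlog2, h12]) (by (clear * - hC hWb; positivity)) (G := G) (filter_subset _ _) (by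
            intro a ha a' ha'
            rw [hG, mem_filter] at ha ha'
            have h14 := dst_triangle (c := a') (hne0 a ha.1) (hne0 b hb)
            rw [dst_comm a b] at h14
            linarith only [ha, ha', h14])
          have h15 : (8 : ℝ) / κ l ^ 2 ≤ B := by
            rw [hB]
            apply div_le_div_of_nonneg_left (by norm_num) (by positivity)
            exact pow_le_pow_left₀ hκm0.le (hκml l) 2
          have h16 : (G.card : ℝ) ≤ M := hcell.trans (h15.trans (hNζ.trans hMle))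
          exact_mod_cast h16
        · refine ⟨A l, Subset.rfl, hκA, fun _ => rfl, ?_⟩
          intro _ b _
          have h17 : Wt (bd A) (lamS κ A l) < δ * (L * Real.log L) := by
            rw [Wt_eq hA0]
            exact lt_of_lt_of_le hsmall (mul_le_mul_of_nonneg_right hcδ hLL)
          have h18 := hcnt N (bd A) (lamS κ A l) hNn₀ (lamS_zero hA0 l) h17 (A l) b (hA0 l)
          have h19 : (((A l).filter (fun b' =>
              Close (Ures K τ L (Wt (bd A) (lamS κ A l)) (lamS κ A l)) b b' ∧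
                dst b b' ≤ C * Wt (bd A) (lamS κ A l))).card : ℝ) ≤
              ((A l).filter (fun b' =>
                Close (Ures K τ L (Wt (bd A) (lamS κ A l)) (lamS κ A l)) b b')).card := by
            apply Nat.cast_le.2
            apply card_le_card
            intro x hx
            rw [mem_filter] at hx ⊢
            exact ⟨hx.1, hx.2.1⟩
          have h20 := h19.trans (h18.trans hMle)
          exact_mod_cast h20
    choose Y hYA hYcard hY0 hYcell using hchoice
    have hYne : ∀ l, (Y l).Nonempty := by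
      intro l
      rw [← card_pos]
      have h21 : (0 : ℝ) < (Y l).card := by
        have h22 : (0 : ℝ) < (A l).card := by exact_mod_cast card_pos.2 (hAne l)
        have := hYcard l
        have := hκpos l
        exact lt_of_lt_of_le (by (clear * - hκ₀ hAne hc hc0 hcδ hc1 hcn hcD hmix hcon hdich; positivity)) (hYcard l)
      exact_mod_cast h21
    have hYN : ∀ l, ((Y l).card : ℝ) ≤ Real.exp L := by
      intro l
      rw [hL, Real.exp_log hNpos]
      exact_mod_cast (card_le_card (hYA l)).trans (hAN l)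
    have key := hmain Y L M (bd A) (lamS κ A) hL1 hM1 hYne (fun l h => hA0 l (hYA l h)) hYN
      (fun l q hq => lamS_zero hA0 l q hq) (by
        intro l l' hl q hq
        have hlevle : lev (κ l) (A l') q ≤ lamS κ A l q := by
          unfold lamS
          exact single_le_sum (f := fun l' => lev (κ l) (A l') q) (fun _ _ => Nat.zero_le _)
            (mem_filter.2 ⟨mem_univ _, hl⟩)
        have h23 := cdiv_lt (hκpos l) (hAne l') (hA0 l') hq
          (l := lamS κ A l q + 1) (by omega)
        have h24 : (((Y l').filter (fun b => (q : ℤ) ^ (lamS κ A l q + 1) ∣ b)).card : ℝ) ≤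
            (cdiv (A l') ((q : ℤ) ^ (lamS κ A l q + 1)) : ℝ) := by
          unfold cdiv
          apply Nat.cast_le.2
          exact card_le_card (filter_subset_filter _ (hYA l'))
        refine h24.trans (h23.le.trans ?_)
        rcases Nat.eq_zero_or_pos (l' : ℕ) with h0 | hpos
        · rw [hY0 l' h0]
          apply mul_le_mul_of_nonneg_right _ (Nat.cast_nonneg _)
          linarith only [hκle' l, hκ₀]
        · have h25 := hYcard l'
          have h26 := hκstep l l' hl
          calc κ l * ((A l').card : ℝ) ≤ κ₀ / 2 * κ l' * ((A l').card : ℝ) :=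
                mul_le_mul_of_nonneg_right h26 (Nat.cast_nonneg _)
            _ = κ₀ * (κ l' / 2 * ((A l').card : ℝ)) := by ring
            _ ≤ κ₀ * (Y l').card := mul_le_mul_of_nonneg_left h25 hκ₀.le)
      (fun l hl b hb => hYcell l hl b hb)
    have hsub : (Fintype.piFinset Y).image (fun f : Fin k → ℤ => ∏ i, f i) ⊆ mixSet A := by
      unfold mixSet
      apply image_subset_image
      intro f hf
      rw [Fintype.mem_piFinset] at hf ⊢
      exact fun l => hYA l (hf l)
    have hYprodne : ((Fintype.piFinset Y).image (fun f : Fin k → ℤ => ∏ i, f i)).Nonempty := by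
      apply Nonempty.image
      rw [Fintype.piFinset_nonempty]
      exact hYne
    have h27 : Real.log (((Fintype.piFinset Y).image (fun f : Fin k → ℤ => ∏ i, f i)).card) ≤
        Real.log ((mixSet A).card : ℝ) := by
      apply Real.log_le_log
      · exact_mod_cast card_pos.2 hYprodne
      · exact_mod_cast card_le_card hsub
    have h28 : Real.log ((mixSet A).card : ℝ) <
        Real.log c + -ε * L + ∑ l, Real.log ((A l).card : ℝ) := by
      have h29 := Real.log_lt_log (by linarith only [hmix1]) hmix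
      rw [Real.log_mul (by (clear * - hc0 hN1; positivity)) hprodpos.ne', Real.log_mul hc0.ne' (by (clear * - hN1; positivity)),
        Real.log_rpow hNpos, Real.log_prod (fun l _ => by
          have := card_pos.2 (hAne l)
          (clear * - hAne hc hc0 hcδ hc1 hcn hcD hmix hcon hdich h29; positivity))] at h29
      exact h29
    have h30 : ∑ l, Real.log ((A l).card : ℝ) + ∑ l, Real.log (κ l / 2) ≤
        ∑ l, Real.log ((Y l).card : ℝ) := by
      rw [← sum_add_distrib]
      apply sum_le_sum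
      intro l _
      have hAp : (0 : ℝ) < (A l).card := by exact_mod_cast card_pos.2 (hAne l)
      have hκp := hκpos l
      rw [add_comm, ← Real.log_mul (by positivity) hAp.ne']
      exact Real.log_le_log (by (clear * - hκ₀ hAne hc hc0 hcδ hc1 hcn hcD hmix hcon hdich h28; positivity)) (hYcard l)
    have h31 : Real.log c ≤ D := by
      rw [← Real.log_exp D]
      exact Real.log_le_log hc0 hcD
    have h32 : (k : ℝ) * (ζ * L + Real.log M + 1) ≤ k * (2 * ζ * L + Real.log 2 + 1) := by
      apply mul_le_mul_of_nonneg_left _ (Nat.cast_nonneg _)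
      linarith only [hlogM]
    have h33 : (k : ℝ) * (2 * ζ) ≤ ε := by
      rw [hζ]
      have : (k : ℝ) * (2 * (ε / (4 * (k + 1)))) = ε * (k / (2 * (k + 1))) := by
        field_simp
        ring
      rw [this]
      have h34 : (k : ℝ) / (2 * (k + 1)) ≤ 1 := by
        rw [div_le_one (by (clear * -; positivity))]
        have : (0 : ℝ) ≤ k := Nat.cast_nonneg _
        linarith only []
      calc ε * (k / (2 * (k + 1))) ≤ ε * 1 := mul_le_mul_of_nonneg_left h34 hε.le
        _ = ε := mul_one _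
    have h35 : (k : ℝ) * (2 * ζ) * L ≤ ε * L := mul_le_mul_of_nonneg_right h33 (by linarith only [hL1])
    rw [hD] at h31
    have h36 : (k : ℝ) * (2 * ζ * L + Real.log 2 + 1) =
        (k : ℝ) * (2 * ζ) * L + k * (Real.log 2 + 1) := by ring
    linarith only [key, h27, h28, h30, h31, h32, h35]

end Pool.Agent.Helper26.TR
end

/- Helper24.TT.H99.RT.Expand -/
section
/-!
# Project RT (MP_120218_co): from `h`-fold sumsets to sums with arbitrary sets
-/

set_option autoImplicit false

open Finset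

open scoped Pointwise

namespace Pool.Agent.Helper99.RT

/-- the `h`-fold sumset -/
noncomputable def hSum {F : Type*} [AddCommGroup F] (h : ℕ) (S : Finset F) : Finset F := by
  classical
  exact (Fintype.piFinset (fun _ : Fin h => S)).image (fun f : Fin h → F => ∑ i, f i)

theorem mem_hSum {F : Type*} [AddCommGroup F] (h : ℕ) (S : Finset F) (y : F) :
    y ∈ hSum h S ↔ ∃ f : Fin h → F, (∀ i, f i ∈ S) ∧ ∑ i, f i = y := by
  classical
  unfold hSum
  simp [Fintype.mem_piFinset]

/-- the sumset -/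
noncomputable def smm {F : Type*} [AddCommGroup F] (S B : Finset F) : Finset F := by
  classical
  exact image₂ (fun s b => s + b) S B

theorem mem_smm {F : Type*} [AddCommGroup F] (S B : Finset F) (y : F) :
    y ∈ smm S B ↔ ∃ s ∈ S, ∃ b ∈ B, s + b = y := by
  classical
  unfold smm
  rw [Finset.mem_image₂]

theorem plue_add {F : Type*} [AddCommGroup F] (S B : Finset F) (hB : B.Nonempty) (h : ℕ) :
    ((hSum h S).card : ℝ) * (B.card : ℝ) ^ h ≤ ((smm S B).card : ℝ) ^ h * B.card := by
  classical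
  have h1 := pluennecke_ruzsa_inequality_nsmul_add hB S h
  have h2 : ((h • S).card : ℝ) ≤ (((B + S).card : ℝ) / B.card) ^ h * B.card := by
    have h3 := (NNRat.cast_le (K := ℝ)).2 h1
    push_cast at h3
    exact h3
  have h3 : (hSum h S).card ≤ (h • S).card := by
    apply card_le_card
    intro y hy
    rw [mem_hSum] at hy
    obtain ⟨f, hf, rfl⟩ := hy
    rw [Finset.mem_nsmul]
    exact ⟨fun i => ⟨f i, hf i⟩, by rw [List.sum_ofFn]⟩
  have h4 : (B + S).card ≤ (smm S B).card := by
    apply card_le_card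
    intro y hy
    rw [Finset.mem_add] at hy
    obtain ⟨b, hb, s, hs, rfl⟩ := hy
    rw [mem_smm]
    exact ⟨s, hs, b, hb, add_comm _ _⟩
  have hpos : (0 : ℝ) < B.card := by exact_mod_cast hB.card_pos
  calc ((hSum h S).card : ℝ) * (B.card : ℝ) ^ h ≤ ((h • S).card : ℝ) * (B.card : ℝ) ^ h := by
        gcongr
    _ ≤ ((((B + S).card : ℝ) / B.card) ^ h * B.card) * (B.card : ℝ) ^ h :=
        mul_le_mul_of_nonneg_right h2 (by positivity)
    _ = ((B + S).card : ℝ) ^ h * B.card := by
        rw [div_pow]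
        field_simp
    _ ≤ ((smm S B).card : ℝ) ^ h * B.card := by (clear * - h4 hB; gcongr)

/-- a set with a large `h`-fold sumset expands every finite set -/
theorem expandAdd {F : Type*} [AddCommGroup F] (h : ℕ) (hh : 0 < h) (S : Finset F)
    (c N ε : ℝ) (hc : 0 < c) (hN : 1 ≤ N) (hε : 1 / (h : ℝ) ≤ ε)
    (hS : c * N ^ ((h : ℝ) - 1) ≤ ((hSum h S).card : ℝ))
    (B : Finset F) (hB : B.Nonempty) :
    c ^ (1 / (h : ℝ)) * (N * B.card) ^ (1 - ε) ≤ ((smm S B).card : ℝ) := by
  classical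
  have h2 := plue_add S B hB h
  have hb1 : (1 : ℝ) ≤ B.card := by exact_mod_cast hB.card_pos
  have hb0 : (0 : ℝ) < B.card := by linarith only [hb1]
  have hN0 : (0 : ℝ) < N := by (clear * - hN; linarith only [hN])
  have hh0 : (0 : ℝ) < h := by exact_mod_cast hh
  set X : ℝ := ((smm S B).card : ℝ) with hX
  have hX0 : 0 ≤ X := by (clear * -; positivity)
  have h5 : c * (N * B.card) ^ ((h : ℝ) - 1) ≤ X ^ h := by
    have h7 : (c * N ^ ((h : ℝ) - 1)) * (B.card : ℝ) ^ h ≤ X ^ h * B.card := by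
      calc (c * N ^ ((h : ℝ) - 1)) * (B.card : ℝ) ^ h
          ≤ ((hSum h S).card : ℝ) * (B.card : ℝ) ^ h :=
            mul_le_mul_of_nonneg_right hS (by (clear * - hB; positivity))
        _ ≤ X ^ h * B.card := h2
    have h8 : (B.card : ℝ) ^ h = (B.card : ℝ) ^ ((h : ℝ) - 1) * B.card := by
      rw [Real.rpow_sub_one hb0.ne', Real.rpow_natCast]
      (clear * - hB; field_simp)
    rw [h8] at h7
    have h9 : (c * N ^ ((h : ℝ) - 1) * (B.card : ℝ) ^ ((h : ℝ) - 1)) * B.card ≤
        X ^ h * B.card := by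
      linarith only [h7]
    have h10 := le_of_mul_le_mul_right h9 hb0
    rw [Real.mul_rpow hN0.le hb0.le]
    linarith only [h10]
  have h6 : (c * (N * B.card) ^ ((h : ℝ) - 1)) ^ (1 / (h : ℝ)) ≤ X := by
    have h7 := Real.rpow_le_rpow (by (clear * - hc hN hB; positivity)) h5 (by positivity : (0 : ℝ) ≤ 1 / (h : ℝ))
    rw [← Real.rpow_natCast, ← Real.rpow_mul hX0, mul_one_div_cancel hh0.ne', Real.rpow_one] at h7
    exact h7
  rw [Real.mul_rpow (by positivity) (by (clear * - hN hB; positivity)), ← Real.rpow_mul (by (clear * - hN hB; positivity))] at h6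
  refine le_trans ?_ h6
  refine mul_le_mul_of_nonneg_left ?_ (by positivity)
  refine Real.rpow_le_rpow_of_exponent_le (by (clear * - hb1 hN; nlinarith only [hN, hb1])) ?_
  have h7 : ((h : ℝ) - 1) * (1 / (h : ℝ)) = 1 - 1 / (h : ℝ) := by
    field_simp
  rw [h7]
  (clear * - hε; linarith only [hε])

end Pool.Agent.Helper99.RT
end
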