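import Pool.Agent.Helper24.TG.G01
import Pool.Agent.Helper24.TG.G05
import Pool.Agent.Helper24.TG.G06

/- Helper88.RT.Defs -/
section
set_option autoImplicit false

/-!
MP_120218_co, project RT (sums of reciprocals): definitions shared by all files.
-/

open Finset

namespace Pool.Agent.Helper88.RT

open Pool.Agent.Helper26.TR

/-- the sums `∑ 1 / f i` with `f i` in the `i`-th set -/
def recSum {k : ℕ} (A : Fin k → Finset ℤ) : Finset ℚ :=
  (Fintype.piFinset A).image (fun f : Fin k → ℤ => ∑ i, ((f i : ℤ) : ℚ)⁻¹)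

/-- the product of the prime powers `q ^ lam q`, `q < n` -/
def Dn (n : ℕ) (lam : ℕ → ℕ) : ℕ := ∏ q ∈ (range n).filter Nat.Prime, q ^ lam q

/-- `D (x - y)` is an integer -/
def CellQ (D : ℕ) (x y : ℚ) : Prop := ∃ z : ℤ, (D : ℚ) * (x - y) = z

/-- `D (1/b - 1/b')` is an integer -/
def Cell (D : ℕ) (b b' : ℤ) : Prop := CellQ D ((b : ℚ)⁻¹) ((b' : ℚ)⁻¹)

/-- the weight of a system of leading digits, for reciprocals -/
noncomputable def W1a (T : Finset ℕ) (e : ℕ → ℕ) (β : ℕ → ℤ) : ℝ :=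
  ∑ p ∈ T, ((e p - 2 * padicValInt p (β p) : ℕ) : ℝ) * Real.log p

open Classical in
/-- the decoding corollary for sums of rational numbers (helper88, R1 - R3), as a proposition -/
def CorQ : Prop :=
  ∀ (k : ℕ) (ζ : ℝ), 0 < ζ → ∃ κ : ℝ, 0 < κ ∧ κ ≤ 1 ∧
    ∀ (Y : Fin k → Finset ℤ) (u : Fin k → ℤ → ℚ) (L : ℝ) (M : ℕ) (n : ℕ)
      (lam : Fin k → ℕ → ℕ), 1 ≤ L → 1 ≤ M →
      (∀ l, (Y l).Nonempty) → (∀ l, ((Y l).card : ℝ) ≤ Real.exp L) →
      (∀ l : Fin k, (l : ℕ) = 0 → Set.InjOn (u l) (Y l)) →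
      (∀ l q, n ≤ q → lam l q = 0) →
      (∀ l l' : Fin k, l' < l → ∀ q : ℕ, q.Prime →
        (((Y l').filter (fun b => q ^ (lam l q + 1) ∣ (u l' b).den)).card : ℝ) ≤
          κ * (Y l').card) →
      (∀ l : Fin k, 0 < (l : ℕ) → ∀ b ∈ Y l,
        ((Y l).filter (fun b' => CellQ (Dn n (lam l)) (u l b) (u l b'))).card ≤ M) →
      ∑ l, Real.log ((Y l).card) - k * (ζ * L + Real.log M) ≤
        Real.log (((Fintype.piFinset Y).image (fun f : Fin k → ℤ => ∑ i, u i (f i))).card)

open Classical in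
/-- the decoding corollary for sums of reciprocals, as a proposition -/
def CorR : Prop :=
  ∀ (k : ℕ) (ζ : ℝ), 0 < ζ → ∃ κ : ℝ, 0 < κ ∧ κ ≤ 1 ∧
    ∀ (Y : Fin k → Finset ℤ) (L : ℝ) (M : ℕ) (n : ℕ) (lam : Fin k → ℕ → ℕ), 1 ≤ L → 1 ≤ M →
      (∀ l, (Y l).Nonempty) → (∀ l, (0 : ℤ) ∉ Y l) → (∀ l, ((Y l).card : ℝ) ≤ Real.exp L) →
      (∀ l q, n ≤ q → lam l q = 0) →
      (∀ l l' : Fin k, l' < l → ∀ q : ℕ, q.Prime →
        (((Y l').filter (fun b => (q : ℤ) ^ (lam l q + 1) ∣ b)).card : ℝ) ≤ κ * (Y l').card) →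
      (∀ l : Fin k, 0 < (l : ℕ) → ∀ b ∈ Y l,
        ((Y l).filter (fun b' => Cell (Dn n (lam l)) b b')).card ≤ M) →
      ∑ l, Real.log ((Y l).card) - k * (ζ * L + Real.log M) ≤ Real.log ((recSum Y).card)

/-- structure theorem for sums of reciprocals of `k` sets, with slack `θ` -/
def NRMix : Prop :=
  ∀ k : ℕ, ∀ ε : ℝ, 0 < ε → ∀ θ : ℝ, 0 < θ → θ ≤ 1 → ∃ (κ : Fin k → ℝ) (C c : ℝ),
    (∀ l, 0 < κ l ∧ κ l ≤ 1) ∧ 0 < C ∧ 0 < c ∧
    ∀ (N : ℕ) (A : Fin k → Finset ℤ), (∀ l, (A l).Nonempty) → (∀ l, (0 : ℤ) ∉ A l) →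
      (∀ l, (A l).card ≤ N) →
      ((recSum A).card : ℝ) < c * (N : ℝ) ^ (-ε) * ∏ l, ((A l).card : ℝ) →
      ∃ l : Fin k, 0 < (l : ℕ) ∧
        (∀ (T : Finset ℕ) (e : ℕ → ℕ) (β : ℕ → ℤ), Pop (θ * κ l) (A l) T e β →
          W1a T e β ≤ C * (W0b (κ l) A l + 1)) ∧
        c * (Real.log N * Real.log (Real.log N)) ≤ W0b (κ l) A l

end Pool.Agent.Helper88.RT
end

/- Helper24.TT.H88.RT.Lab -/
section
set_option autoImplicit false

/-!
MP_120218_co, project RT (R3a): the class of a rational number modulo the rational numbers of small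
pole order, at every prime.
-/

open Finset

namespace Pool.Agent.Helper88.RT

/-- the rational numbers with pole order at most `lam q` at the prime `q` -/
def Hq (lam : ℕ → ℕ) (q : ℕ) : AddSubgroup ℚ where
  carrier := {x | q.Prime → ∃ m : ℕ, ¬ q ∣ m ∧ ∃ z : ℤ, ((m : ℚ) * (q : ℚ) ^ lam q) * x = z}
  zero_mem' := by
    intro hq
    exact ⟨1, by rw [Nat.dvd_one]; exact hq.ne_one, 0, by simp⟩
  add_mem' := by
    intro x y hx hy hq
    obtain ⟨m, hm, z, hz⟩ := hx hq
    obtain ⟨m', hm', z', hz'⟩ := hy hq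
    refine ⟨m * m', ?_, m' * z + m * z', ?_⟩
    · rw [hq.dvd_mul]
      tauto
    · push_cast
      rw [← hz, ← hz']
      ring
  neg_mem' := by
    intro x hx hq
    obtain ⟨m, hm, z, hz⟩ := hx hq
    refine ⟨m, hm, -z, ?_⟩
    push_cast
    rw [← hz]
    ring

theorem den_dvd_of_mul {x : ℚ} {n : ℕ} {z : ℤ} (h : (n : ℚ) * x = z) : x.den ∣ n := by
  have h1 : (n : ℤ) * x.num = z * x.den := by
    have h2 : (x.den : ℚ) ≠ 0 := by exact_mod_cast x.den_ne_zero
    have h3 : x = x.num / x.den := (Rat.num_div_den x).symm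
    have h4 : (n : ℚ) * (x.num : ℚ) = z * x.den := by
      calc (n : ℚ) * (x.num : ℚ) = (n : ℚ) * ((x.num : ℚ) / x.den) * x.den := by (clear * - h2; field_simp)
        _ = z * x.den := by rw [← h3, h]
    exact_mod_cast h4
  have h2 : (x.den : ℤ) ∣ (n : ℤ) * x.num := ⟨z, by rw [h1, mul_comm]⟩
  have h3 : IsCoprime (x.den : ℤ) x.num := by
    rw [Int.isCoprime_iff_gcd_eq_one]
    have := x.reduced
    rw [Int.gcd_comm]
    exact this
  have h4 := h3.dvd_of_dvd_mul_right h2
  exact_mod_cast h4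

theorem mem_Hq {lam : ℕ → ℕ} {q : ℕ} (hq : q.Prime) {x : ℚ} :
    x ∈ Hq lam q ↔ ¬ q ^ (lam q + 1) ∣ x.den := by
  constructor
  · intro hx hdvd
    obtain ⟨m, hm, z, hz⟩ := hx hq
    have h1 : x.den ∣ m * q ^ lam q := den_dvd_of_mul (z := z) (by push_cast; exact hz)
    have h2 := hdvd.trans h1
    rw [pow_succ', Nat.mul_dvd_mul_iff_right (pow_pos hq.pos _)] at h2
    exact hm h2
  · intro hx _
    obtain ⟨j, m, hm, hjm⟩ := Nat.exists_eq_pow_mul_and_not_dvd x.den_ne_zero q hq.ne_one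
    have hj : j ≤ lam q := by
      by_contra h
      push Not at h
      apply hx
      rw [hjm]
      exact (pow_dvd_pow _ h).mul_right _
    refine ⟨m, hm, (q : ℤ) ^ (lam q - j) * x.num, ?_⟩
    have h2 : (x.den : ℚ) ≠ 0 := by exact_mod_cast x.den_ne_zero
    have h3 : (x.den : ℚ) * x = x.num := Rat.den_mul_eq_num x
    have h4 : (x.den : ℚ) = (q : ℚ) ^ j * m := by exact_mod_cast hjm
    push_cast
    rw [← h3, h4]
    have h5 : (q : ℚ) ^ lam q = (q : ℚ) ^ (lam q - j) * (q : ℚ) ^ j := by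
      rw [← pow_add]
      congr 1
      (clear * - x m hj; omega)
    rw [h5]
    ring

/-- all classes -/
def cl (lam : ℕ → ℕ) (x : ℚ) : ∀ q : ℕ, ℚ ⧸ Hq lam q := fun _ => (QuotientAddGroup.mk x)

theorem cl_add (lam : ℕ → ℕ) (x y : ℚ) : cl lam (x + y) = cl lam x + cl lam y := rfl

theorem cl_zero_iff {lam : ℕ → ℕ} {q : ℕ} {x : ℚ} : cl lam x q = 0 ↔ x ∈ Hq lam q :=
  QuotientAddGroup.eq_zero_iff x

theorem cl_eq_iff {lam : ℕ → ℕ} {q : ℕ} {x y : ℚ} : cl lam x q = cl lam y q ↔ x - y ∈ Hq lam q := by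
  unfold cl
  rw [QuotientAddGroup.eq, ← neg_mem_iff, neg_add, neg_neg, sub_eq_add_neg]

/-- the pole orders of a sum -/
theorem den_add {q : ℕ} (hq : q.Prime) {l : ℕ} {x y : ℚ} (h : q ^ (l + 1) ∣ (x + y).den) :
    q ^ (l + 1) ∣ x.den ∨ q ^ (l + 1) ∣ y.den := by
  by_contra hcon
  push Not at hcon
  have h1 : x ∈ Hq (fun _ => l) q := (mem_Hq hq).2 hcon.1
  have h2 : y ∈ Hq (fun _ => l) q := (mem_Hq hq).2 hcon.2
  exact (mem_Hq hq).1 (add_mem h1 h2) h

theorem Dn_pos (n : ℕ) (lam : ℕ → ℕ) : 0 < Dn n lam := by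
  unfold Dn
  apply prod_pos
  intro q hq
  exact pow_pos (mem_filter.1 hq).2.pos _

theorem Dn_ext {n n' : ℕ} (hn : n ≤ n') {lam : ℕ → ℕ} (h : ∀ q, n ≤ q → lam q = 0) :
    Dn n' lam = Dn n lam := by
  unfold Dn
  symm
  apply prod_subset
  · intro q hq
    rw [mem_filter, mem_range] at hq ⊢
    exact ⟨by omega, hq.2⟩
  · intro q hq hq'
    rw [mem_filter, mem_range] at hq hq'
    have : n ≤ q := by
      by_contra hcon
      exact hq' ⟨by omega, hq.2⟩
    rw [h q this, pow_zero]

/-- equal classes at all primes below `n` -/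
theorem cell_of_classes {n : ℕ} {lam : ℕ → ℕ} {x y : ℚ}
    (hx : ∀ q : ℕ, q.Prime → q ∣ x.den → q < n) (hy : ∀ q : ℕ, q.Prime → q ∣ y.den → q < n)
    (h : ∀ q, q < n → cl lam x q = cl lam y q) : CellQ (Dn n lam) x y := by
  have hden : ∀ q : ℕ, q.Prime → q ∣ (x - y).den → q < n := by
    intro q hq hqd
    have h1 : q ^ (0 + 1) ∣ (x + -y).den := by
      rw [zero_add, pow_one, ← sub_eq_add_neg]
      exact hqd
    rcases den_add hq h1 with h2 | h2
    · rw [zero_add, pow_one] at h2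
      exact hx q hq h2
    · rw [zero_add, pow_one, Rat.den_neg_eq_den] at h2
      exact hy q hq h2
  have hdvd : (x - y).den ∣ Dn n lam := by
    rw [← Nat.factorization_prime_le_iff_dvd (x - y).den_ne_zero (Dn_pos n lam).ne']
    intro q hq
    by_cases hqd : q ∣ (x - y).den
    · have hqn := hden q hq hqd
      have h1 : ¬ q ^ (lam q + 1) ∣ (x - y).den :=
        (mem_Hq hq).1 (cl_eq_iff.1 (h q hqn))
      have h2 : (x - y).den.factorization q ≤ lam q := by
        by_contra hcon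
        push Not at hcon
        exact h1 ((hq.pow_dvd_iff_le_factorization (x - y).den_ne_zero).2 hcon)
      refine h2.trans ?_
      rw [← hq.pow_dvd_iff_le_factorization (Dn_pos n lam).ne']
      unfold Dn
      exact dvd_prod_of_mem (fun q => q ^ lam q) (mem_filter.2 ⟨mem_range.2 hqn, hq⟩)
    · rw [Nat.factorization_eq_zero_of_not_dvd hqd]
      exact Nat.zero_le _
  obtain ⟨m, hm⟩ := hdvd
  refine ⟨(m : ℤ) * (x - y).num, ?_⟩
  rw [hm]
  push_cast
  have h3 : ((x - y).den : ℚ) * (x - y) = (x - y).num := Rat.den_mul_eq_num (x - y)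
  rw [← h3]
  ring

end Pool.Agent.Helper88.RT
end

/- Helper24.TT.H88.RT.Col -/
section
set_option autoImplicit false

/-!
MP_120218_co, project RT (R1): the column lemma for abelian groups.  If `X`, `Y` are independent and
`Y` is rarely non-zero then `X` is almost determined by `X + Y`, in the sense that
`H(X | X + Y) ≤ η (H(X) + H(Y))`.
-/

open Finset

namespace Pool.Agent.Helper88.RT

open Pool.Agent.Helper15.BP Pool.Agent.Helper84.TR

variable {Ω Ω' : Type} [Fintype Ω] [Fintype Ω']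

theorem CE_zero_of_supp {α β : Type*} (w : Ω → ℝ) (f : Ω → α) (g : Ω → β)
    (h : ∀ o o', w o ≠ 0 → w o' ≠ 0 → g o = g o' → f o = f o') : CE w f g = 0 := by
  classical
  rw [CE_eq_sum]
  apply sum_eq_zero
  intro o _
  by_cases ho : w o = 0
  · rw [ho, zero_mul]
  · have h1 : pr w g (g o) = pr w (fun o => (f o, g o)) (f o, g o) := by
      unfold pr
      apply sum_congr rfl
      intro x _
      by_cases hx : w x = 0
      · rw [hx, ite_self, ite_self]
      · by_cases hg : g x = g o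
        · have e : (fun o => (f o, g o)) x = (f o, g o) := by
            show (f x, g x) = (f o, g o)
            rw [h x o hx ho hg, hg]
          rw [if_pos hg, if_pos e]
        · rw [if_neg hg, if_neg (fun h2 => hg (congrArg Prod.snd h2))]
    rw [h1, sub_self, mul_zero]

theorem pr_true (w : Ω → ℝ) (J : Ω → Prop) : pr w J True = mass w J := by
  classical
  unfold pr mass
  apply sum_congr rfl
  intro o _
  by_cases h : J o
  · rw [if_pos (eq_true h), if_pos h]
  · rw [if_neg (fun h2 => h (of_eq_true h2)), if_neg h]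

/-- conditioning a product on an event of the second factor -/
theorem cw_second {w : Ω → ℝ} (hw : IsPr w) (w' : Ω' → ℝ) (J : Ω' → Prop) :
    cw (prodW w w') (fun p => J p.2) True = prodW w (cw w' J True) := by
  classical
  funext p
  unfold cw
  rw [pr_snd hw]
  unfold prodW
  by_cases h : J p.2 = True
  · rw [if_pos h]
    simp only
    rw [if_pos h, mul_div_assoc]
  · rw [if_neg h]
    simp only
    rw [if_neg h, mul_zero]

/-- the entropy of `X` given `X + Y` and the event `Y ≠ 0` -/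
theorem given_event {G : Type} [AddCommGroup G] {w : Ω → ℝ} {w' : Ω' → ℝ} (hw : IsPr w)
    (hw' : IsPr w') (X : Ω → G) (Y : Ω' → G) :
    CE (prodW w w') (fun p => X p.1) (fun p => (X p.1 + Y p.2, (Y p.2 ≠ 0))) ≤
      mass w' (fun o => Y o ≠ 0) * Ent w X := by
  classical
  have hp := hw.prod hw'
  have hm := mass_nonneg hw' (fun o => Y o ≠ 0)
  have hE := Ent_nonneg hw X
  have hprT : pr (prodW w w') (fun p => (Y p.2 ≠ 0)) True = mass w' (fun o => Y o ≠ 0) := by
    rw [← pr_true w' (fun o => Y o ≠ 0)]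
    exact pr_snd hw (fun o => Y o ≠ 0) True
  rw [CE_fib hp (fun p => X p.1) (fun p => X p.1 + Y p.2) (fun p => (Y p.2 ≠ 0))]
  have h1 : ∀ a ∈ univ.image (fun p : Ω × Ω' => (Y p.2 ≠ 0)),
      pr (prodW w w') (fun p => (Y p.2 ≠ 0)) a *
        CE (cw (prodW w w') (fun p => (Y p.2 ≠ 0)) a) (fun p => X p.1)
          (fun p => X p.1 + Y p.2) ≤
      if a = True then mass w' (fun o => Y o ≠ 0) * Ent w X else 0 := by
    intro a _
    by_cases ha : a
    · have ha' : a = True := eq_true ha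
      rw [if_pos ha', ha', hprT]
      by_cases h0 : mass w' (fun o => Y o ≠ 0) = 0
      · rw [h0, zero_mul, zero_mul]
      · apply mul_le_mul_of_nonneg_left _ hm
        rw [cw_second hw w' (fun o => Y o ≠ 0)]
        have hw'' : IsPr (cw w' (fun o => Y o ≠ 0) True) := by
          apply cw_isPr hw'
          rw [pr_true]
          exact h0
        refine (CE_le_Ent (hw.prod hw'') _ _).trans (le_of_eq ?_)
        exact Ent_fst hw'' X
    · have ha' : a = False := eq_false ha
      rw [if_neg (fun h => ha (of_eq_true h)), ha']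
      apply le_of_eq
      rw [CE_zero_of_supp, mul_zero]
      have hY : ∀ p : Ω × Ω', cw (prodW w w') (fun p => (Y p.2 ≠ 0)) False p ≠ 0 → Y p.2 = 0 := by
        intro p hp0
        by_contra hJ
        apply hp0
        unfold cw
        simp only
        rw [if_neg]
        intro h
        exact of_eq_false h hJ
      intro p p' hp0 hp0' he
      have e1 := hY p hp0
      have e2 := hY p' hp0'
      rw [e1, e2, add_zero, add_zero] at he
      exact he
  refine le_trans (sum_le_sum h1) ?_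
  rw [← sum_filter, sum_const, nsmul_eq_mul]
  have hc : ((univ.image (fun p : Ω × Ω' => (Y p.2 ≠ 0))).filter
      (fun a => a = True)).card ≤ 1 := by
    rw [card_le_one]
    intro a ha b hb
    rw [(mem_filter.1 ha).2, (mem_filter.1 hb).2]
  have hc' : ((((univ.image (fun p : Ω × Ω' => (Y p.2 ≠ 0))).filter
      (fun a => a = True)).card : ℕ) : ℝ) ≤ 1 := by exact_mod_cast hc
  have h2 : 0 ≤ mass w' (fun o => Y o ≠ 0) * Ent w X := mul_nonneg hm hE
  nlinarith only [hc', h2]

/-- the decomposition of `H(X | X + Y)` by the event `Y ≠ 0` -/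
theorem split_event {G : Type} [AddCommGroup G] {w : Ω → ℝ} {w' : Ω' → ℝ} (hw : IsPr w)
    (hw' : IsPr w') (X : Ω → G) (Y : Ω' → G) :
    CE (prodW w w') (fun p => X p.1) (fun p => X p.1 + Y p.2) ≤
      CE (prodW w w') (fun p => (Y p.2 ≠ 0)) (fun p => X p.1 + Y p.2) +
        mass w' (fun o => Y o ≠ 0) * Ent w X := by
  have hp := hw.prod hw'
  have h1 : CE (prodW w w') (fun p => X p.1) (fun p => X p.1 + Y p.2) ≤
      CE (prodW w w') (fun p => (X p.1, (Y p.2 ≠ 0))) (fun p => X p.1 + Y p.2) := by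
    apply CE_mono hp
    intro o o' _ h
    exact congrArg Prod.fst h
  have h2 := CE_chain (prodW w w') (fun p => X p.1) (fun p => (Y p.2 ≠ 0))
    (fun p => X p.1 + Y p.2)
  have h3 : CE (prodW w w') (fun p => X p.1) (fun p => ((Y p.2 ≠ 0), X p.1 + Y p.2)) =
      CE (prodW w w') (fun p => X p.1) (fun p => (X p.1 + Y p.2, (Y p.2 ≠ 0))) := by
    apply CE_congr
    · intro o o'
      simp only [Prod.mk.injEq]
      tauto
    · intro o o' _
      exact Iff.rfl
  have h4 := given_event hw hw' X Y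
  rw [h2, h3] at h1
  (clear * - h1 h4; linarith)

/-- the event `Y ≠ 0` given `X + Y`, when `X` has a value of large mass -/
theorem event_mode {G : Type} [AddCommGroup G] {w : Ω → ℝ} {w' : Ω' → ℝ} (hw : IsPr w)
    (hw' : IsPr w') (X : Ω → G) (Y : Ω' → G) (x₀ : G) :
    CE (prodW w w') (fun p => (Y p.2 ≠ 0)) (fun p => X p.1 + Y p.2) ≤
      phi (mass w' (fun o => Y o ≠ 0) * mass w (fun o => X o ≠ x₀)) 1 +
        phi (mass w' (fun o => Y o ≠ 0)) (mass w (fun o => X o ≠ x₀)) := by
  have hp := hw.prod hw'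
  have h1 : CE (prodW w w') (fun p => (Y p.2 ≠ 0)) (fun p => X p.1 + Y p.2) ≤
      CE (prodW w w') (fun p => (Y p.2 ≠ 0)) (fun p => (X p.1 + Y p.2 ≠ x₀)) := by
    apply CE_anti hp
    intro o o' h
    rw [h]
  refine h1.trans ?_
  rw [CE_event hp]
  apply add_le_add
  · apply phi_mono (mass_nonneg hp _) _ (mass_nonneg hp _) (mass_le_one hp _)
    rw [mul_comm, ← mass_prod]
    apply mass_mono hp
    rintro ⟨o, o'⟩ ⟨ha, hb⟩
    simp only [ne_eq, not_not] at ha hb ⊢
    refine ⟨?_, ha⟩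
    intro hx
    rw [hx] at hb
    exact ha (by simpa using hb)
  · apply phi_mono (mass_nonneg hp _) _ (mass_nonneg hp _) _
    · refine (mass_mono hp (p' := fun p : Ω × Ω' => Y p.2 ≠ 0) fun o h => h.1).trans ?_
      exact (mass_snd hw (fun o => Y o ≠ 0)).le
    · refine (mass_mono hp (p' := fun p : Ω × Ω' => X p.1 ≠ x₀) ?_).trans ?_
      · rintro ⟨o, o'⟩ ⟨ha, hb⟩
        simp only [ne_eq, not_not] at ha hb ⊢
        rw [ha, add_zero] at hb
        exact hb
      · exact (mass_fst hw' (fun o => X o ≠ x₀)).le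

theorem Ent_event_le {α : Type*} {w : Ω → ℝ} (hw : IsPr w) (X : Ω → α) (J : α → Prop) :
    Real.binEntropy (mass w (fun o => J (X o))) ≤ Ent w X := by
  rw [← Ent_event hw]
  apply Ent_mono hw
  intro o o' h
  rw [h]

/-- if no value has mass more than one half then the entropy is at least `log 2` -/
theorem Ent_ge_log_two {α : Type*} {w : Ω → ℝ} (hw : IsPr w) (X : Ω → α)
    (h : ∀ x, mass w (fun o => X o ≠ x) ≥ 1 / 2) : Real.log 2 ≤ Ent w X := by
  classical
  unfold Ent
  have h1 : ∀ o, w o * Real.log 2 ≤ w o * (-Real.log (pr w X (X o))) := by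
    intro o
    rcases (hw.nonneg o).eq_or_lt with h0 | h0
    · rw [← h0, zero_mul, zero_mul]
    · apply mul_le_mul_of_nonneg_left _ (hw.nonneg o)
      have h2 := pr_pos hw X h0
      have h3 : pr w X (X o) ≤ 1 / 2 := by
        have h4 := h (X o)
        have h5 := mass_not hw (fun o' => X o' = X o)
        have h6 : mass w (fun o' => X o' = X o) = pr w X (X o) := by
          unfold mass pr
          apply sum_congr rfl
          intro o' _
          congr
        rw [h6] at h5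
        have h7 : mass w (fun o' => X o' ≠ X o) = mass w (fun o' => ¬ X o' = X o) := rfl
        rw [h7, h5] at h4
        linarith only [h4]
      have h8 := Real.log_le_log h2 h3
      rw [one_div, Real.log_inv] at h8
      (clear * - h8; linarith)
  calc Real.log 2 = ∑ o, w o * Real.log 2 := by rw [← sum_mul, hw.sum_one, one_mul]
    _ ≤ _ := sum_le_sum fun o _ => h1 o

/-- the binary entropy is small near zero -/
theorem binEntropy_small (η : ℝ) (hη : 0 < η) : ∃ σ : ℝ, 0 < σ ∧
    ∀ b : ℝ, 0 ≤ b → b ≤ σ → Real.binEntropy b ≤ η := by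
  have hc := Real.binEntropy_continuous.tendsto 0
  rw [Real.binEntropy_zero] at hc
  have h1 := (Metric.tendsto_nhds_nhds.1 hc) η hη
  obtain ⟨σ, hσ, H⟩ := h1
  refine ⟨σ / 2, by (clear * - hσ; linarith), fun b hb hb' => ?_⟩
  have h2 := H (x := b) (by
    rw [Real.dist_eq, sub_zero, abs_of_nonneg hb]
    (clear * - hσ hb'; linarith only [hσ, hb']))
  rw [Real.dist_eq, sub_zero] at h2
  exact (le_abs_self _).trans h2.le

/-- **Column lemma for abelian groups.** -/
theorem group_column (η : ℝ) (hη : 0 < η) : ∃ σ : ℝ, 0 < σ ∧ σ ≤ 1 / 2 ∧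
    ∀ (Ω Ω' G : Type) [Fintype Ω] [Fintype Ω'] [AddCommGroup G] (w : Ω → ℝ) (w' : Ω' → ℝ)
      (X : Ω → G) (Y : Ω' → G), IsPr w → IsPr w' → mass w' (fun o => Y o ≠ 0) ≤ σ →
      CE (prodW w w') (fun p => X p.1) (fun p => X p.1 + Y p.2) ≤
        η * (Ent w X + Ent w' Y) := by
  set e : ℝ := η / 8 with he
  have he0 : 0 < e := by (clear * - hη; positivity)
  obtain ⟨σ₁, hσ₁, hσ₁', hn1, hn2⟩ := phi_num e he0
  have hlog2 : 0 < Real.log 2 := Real.log_pos (by norm_num)
  obtain ⟨σ₂, hσ₂, hn3⟩ := binEntropy_small (e * Real.log 2) (by (clear * - hη; positivity))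
  refine ⟨min σ₁ (min σ₂ e), by (clear * - hσ₁ hσ₂ hη; positivity), (min_le_left _ _).trans hσ₁', ?_⟩
  intro Ω Ω' G _ _ _ w w' X Y hw hw' hτ
  set τ := mass w' (fun o => Y o ≠ 0) with hτdef
  have hτ0 : 0 ≤ τ := mass_nonneg hw' _
  have hτ1 : τ ≤ σ₁ := hτ.trans (min_le_left _ _)
  have hτ2 : τ ≤ σ₂ := hτ.trans ((min_le_right _ _).trans (min_le_left _ _))
  have hτ3 : τ ≤ e := hτ.trans ((min_le_right _ _).trans (min_le_right _ _))
  have hEX := Ent_nonneg hw X
  have hEY := Ent_nonneg hw' Y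
  have hsplit := split_event hw hw' X Y
  rw [← hτdef] at hsplit
  have hτE : τ * Ent w X ≤ e * Ent w X := mul_le_mul_of_nonneg_right hτ3 hEX
  by_cases hmode : ∃ x₀, mass w (fun o => X o ≠ x₀) ≤ 1 / 2
  · obtain ⟨x₀, hx₀⟩ := hmode
    have h1 := event_mode hw hw' X Y x₀
    rw [← hτdef] at h1
    set α := mass w (fun o => X o ≠ x₀) with hα
    have hα0 : 0 ≤ α := mass_nonneg hw _
    have h2 := hn2 τ τ α α hτ0 hτ1 le_rfl (mass_le_one hw' _) hα0 hx₀ hα0 hx₀
    have h3 : phi τ α ≤ phi τ (τ + α) :=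
      phi_mono hτ0 le_rfl hα0 (by linarith only [hτ0])
    have h4 : Real.binEntropy α ≤ Ent w X := Ent_event_le hw X (fun x => x ≠ x₀)
    have h5 : Real.binEntropy τ ≤ Ent w' Y := Ent_event_le hw' Y (fun y => y ≠ 0)
    have h6 := hn1 τ hτ0 hτ1
    have h7 : e * Real.binEntropy α ≤ e * Ent w X := mul_le_mul_of_nonneg_left h4 he0.le
    have h8 : e * Real.binEntropy τ ≤ e * Ent w' Y := mul_le_mul_of_nonneg_left h5 he0.le
    have h9 : η = 8 * e := by rw [he]; ring
    have h10 : 0 ≤ e * Ent w X := mul_nonneg he0.le hEX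
    have h11 : 0 ≤ e * Ent w' Y := mul_nonneg he0.le hEY
    rw [h9]
    linarith only [hsplit, hτE, h1, h2, h3, h6, h7, h8, h10, h11]
  · push Not at hmode
    have h1 := Ent_ge_log_two hw X (fun x => (hmode x).le)
    have h2 : CE (prodW w w') (fun p => (Y p.2 ≠ 0)) (fun p => X p.1 + Y p.2) ≤
        Real.binEntropy τ := by
      refine (CE_le_Ent (hw.prod hw') _ _).trans (le_of_eq ?_)
      rw [Ent_event (hw.prod hw'), mass_snd hw (fun o => Y o ≠ 0)]
    have h3 := hn3 τ hτ0 hτ2
    have h4 : e * Real.log 2 ≤ e * Ent w X := mul_le_mul_of_nonneg_left h1 he0.le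
    have h9 : η = 8 * e := by rw [he]; ring
    have h10 : 0 ≤ e * Ent w X := mul_nonneg he0.le hEX
    have h11 : 0 ≤ e * Ent w' Y := mul_nonneg he0.le hEY
    rw [h9]
    linarith only [hsplit, hτE, h2, h3, h4, h10, h11]

end Pool.Agent.Helper88.RT
end

/- Helper24.TT.H88.RT.Past -/
section
set_option autoImplicit false

/-!
MP_120218_co, project RT (R2): the column lemma given the pasts, and the chain rule over the columns.
-/

open Finset

namespace Pool.Agent.Helper88.RT

open Pool.Agent.Helper15.BP Pool.Agent.Helper84.TR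

/-- the conclusion of the column lemma for given constants -/
def ColProp (η σ : ℝ) : Prop :=
  ∀ (Ω Ω' G : Type) [Fintype Ω] [Fintype Ω'] [AddCommGroup G] (w : Ω → ℝ) (w' : Ω' → ℝ)
    (X : Ω → G) (Y : Ω' → G), IsPr w → IsPr w' → mass w' (fun o => Y o ≠ 0) ≤ σ →
    CE (prodW w w') (fun p => X p.1) (fun p => X p.1 + Y p.2) ≤ η * (Ent w X + Ent w' Y)

section
variable {Ω Ω' : Type} [Fintype Ω] [Fintype Ω']

/-- the column lemma, given the pasts of both variables -/
theorem col_past {η σ : ℝ} (hη : 0 ≤ η) (hσ : 0 < σ) (hcol : ColProp η σ) {G α β : Type}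
    [AddCommGroup G] {w : Ω → ℝ} {w' : Ω' → ℝ} (hw : IsPr w) (hw' : IsPr w') (X : Ω → G)
    (Y : Ω' → G) (A : Ω → α) (B : Ω' → β) :
    CE (prodW w w') (fun p => X p.1) (fun p => (X p.1 + Y p.2, (A p.1, B p.2))) ≤
      (η + mass w' (fun o => Y o ≠ 0) / σ) * CE w X A + η * CE w' Y B := by
  classical
  have hp := hw.prod hw'
  set m : β → ℝ := fun b => mass (cw w' B b) (fun o => Y o ≠ 0) with hm
  set F : α × β → ℝ := fun ab => pr w A ab.1 * pr w' B ab.2 *
    (η * (Ent (cw w A ab.1) X + Ent (cw w' B ab.2) Y) + m ab.2 / σ * Ent (cw w A ab.1) X) with hF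
  rw [CE_fib hp (fun p => X p.1) (fun p => X p.1 + Y p.2) (fun p => (A p.1, B p.2))]
  have hFnn : ∀ ab, 0 ≤ F ab := by
    intro ab
    simp only [hF]
    by_cases ha : pr w A ab.1 = 0
    · rw [ha]; simp
    by_cases hb : pr w' B ab.2 = 0
    · rw [hb]; simp
    have h1 := cw_isPr hw A ab.1 ha
    have h2 := cw_isPr hw' B ab.2 hb
    have h3 := Ent_nonneg h1 X
    have h4 := Ent_nonneg h2 Y
    have h5 : 0 ≤ m ab.2 := mass_nonneg h2 _
    have h6 := pr_nonneg hw A ab.1
    have h7 := pr_nonneg hw' B ab.2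
    (clear * - h6 ha h7 hb hη h3 h4 h5 hσ; positivity)
  have h1 : ∀ ab ∈ univ.image (fun p : Ω × Ω' => (A p.1, B p.2)),
      pr (prodW w w') (fun p => (A p.1, B p.2)) ab *
        CE (cw (prodW w w') (fun p => (A p.1, B p.2)) ab) (fun p => X p.1)
          (fun p => X p.1 + Y p.2) ≤ F ab := by
    rintro ⟨a, b⟩ _
    rw [pr_prod, cw_prod]
    simp only [hF]
    by_cases ha : pr w A a = 0
    · rw [ha]; simp
    by_cases hb : pr w' B b = 0
    · rw [hb]; simp
    have g1 := cw_isPr hw A a ha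
    have g2 := cw_isPr hw' B b hb
    have g3 := Ent_nonneg g1 X
    have g4 := Ent_nonneg g2 Y
    have g5 : 0 ≤ m b := mass_nonneg g2 _
    apply mul_le_mul_of_nonneg_left _ (mul_nonneg (pr_nonneg hw A a) (pr_nonneg hw' B b))
    by_cases hgood : m b ≤ σ
    · refine (hcol Ω Ω' G (cw w A a) (cw w' B b) X Y g1 g2 hgood).trans ?_
      have : 0 ≤ m b / σ * Ent (cw w A a) X := by (clear * - g5 hσ g3; positivity)
      (clear * - this; linarith)
    · push Not at hgood
      refine (CE_le_Ent (g1.prod g2) _ _).trans ?_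
      have e1 : Ent (prodW (cw w A a) (cw w' B b)) (fun p => X p.1) = Ent (cw w A a) X :=
        Ent_fst g2 X
      rw [e1]
      have e2 : 1 ≤ m b / σ := by
        rw [le_div_iff₀ hσ]
        (clear * - hgood; linarith)
      have e3 : 1 * Ent (cw w A a) X ≤ m b / σ * Ent (cw w A a) X :=
        mul_le_mul_of_nonneg_right e2 g3
      have e4 : 0 ≤ η * (Ent (cw w A a) X + Ent (cw w' B b) Y) := by (clear * - hη g3 g4; positivity)
      linarith only [e3, e4]
  refine (sum_le_sum h1).trans ?_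
  have hsub : univ.image (fun p : Ω × Ω' => (A p.1, B p.2)) ⊆
      (univ.image A) ×ˢ (univ.image B) := by
    intro ab hab
    obtain ⟨p, -, rfl⟩ := mem_image.1 hab
    rw [mem_product]
    exact ⟨mem_image_of_mem _ (mem_univ _), mem_image_of_mem _ (mem_univ _)⟩
  refine (sum_le_sum_of_subset_of_nonneg hsub fun ab _ _ => hFnn ab).trans (le_of_eq ?_)
  rw [sum_product]
  -- the sums
  have sA := sum_pr_one hw A
  have sB := sum_pr_one hw' B
  have eA := Ent_fib hw X A
  have eB := Ent_fib hw' Y B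
  have eM := mass_fib hw' (fun o => Y o ≠ 0) B
  have h2 : ∀ a ∈ univ.image A, ∑ b ∈ univ.image B, F (a, b) =
      pr w A a * Ent (cw w A a) X * (η + mass w' (fun o => Y o ≠ 0) / σ) +
        pr w A a * (η * CE w' Y B) := by
    intro a _
    rw [eM, eB]
    simp only [hF]
    have h3 : ∀ b ∈ univ.image B, pr w A a * pr w' B b *
        (η * (Ent (cw w A a) X + Ent (cw w' B b) Y) + m b / σ * Ent (cw w A a) X) =
        (pr w A a * Ent (cw w A a) X * η) * pr w' B b +
          (pr w A a * Ent (cw w A a) X / σ) * (pr w' B b * m b) +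
          (pr w A a * η) * (pr w' B b * Ent (cw w' B b) Y) := by
      intro b _
      field_simp
      ring
    rw [sum_congr rfl h3, sum_add_distrib, sum_add_distrib, ← mul_sum, ← mul_sum, ← mul_sum, sB]
    simp only [hm]
    ring
  rw [sum_congr rfl h2, sum_add_distrib, ← sum_mul, ← sum_mul, sA, ← eA]
  ring

end

section chain
variable {Ω Ω' : Type} [Fintype Ω] [Fintype Ω'] {G : ℕ → Type} [∀ q, AddCommGroup (G q)]

/-- the columns below `p` -/
def tr (p : ℕ) (X : Ω → ∀ q, G q) (o : Ω) : ∀ q, G q :=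
  fun q => if q < p then X o q else 0

omit [Fintype Ω] in
theorem tr_eq_iff (p : ℕ) (X : Ω → ∀ q, G q) (o o' : Ω) :
    tr p X o = tr p X o' ↔ ∀ q, q < p → X o q = X o' q := by
  constructor
  · intro h q hq
    have h1 := congrFun h q
    simpa only [tr, if_pos hq] using h1
  · intro h
    funext q
    by_cases hq : q < p
    · simpa only [tr, if_pos hq] using h q hq
    · simp only [tr, if_neg hq]

omit [Fintype Ω] in
theorem tr_succ_iff (p : ℕ) (X : Ω → ∀ q, G q) (o o' : Ω) :
    tr (p + 1) X o = tr (p + 1) X o' ↔ X o p = X o' p ∧ tr p X o = tr p X o' := by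
  rw [tr_eq_iff, tr_eq_iff]
  constructor
  · intro h
    exact ⟨h p (Nat.lt_succ_self _), fun q hq => h q (Nat.lt_succ_of_lt hq)⟩
  · rintro ⟨h1, h2⟩ q hq
    rcases Nat.lt_succ_iff_lt_or_eq.mp hq with h3 | h3
    · exact h2 q h3
    · subst h3
      exact h1

/-- the chain rule over the columns -/
theorem chain {β : Type} (w : Ω → ℝ) (X : Ω → ∀ q, G q) (g : Ω → β) (p : ℕ) :
    CE w (tr p X) g = ∑ q ∈ range p, CE w (fun o => X o q) (fun o => (tr q X o, g o)) := by
  induction p with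
  | zero =>
    rw [range_zero, sum_empty]
    unfold CE
    rw [sub_eq_zero]
    apply Ent_congr
    intro o o'
    constructor
    · intro h
      exact (Prod.ext_iff.mp h).2
    · intro h
      exact Prod.ext ((tr_eq_iff 0 X o o').mpr fun q hq => absurd hq (Nat.not_lt_zero _)) h
  | succ p ih =>
    rw [sum_range_succ, ← ih, ← CE_chain w (fun o => X o p) (tr p X) g]
    apply CE_congr
    · intro o o'
      exact Iff.rfl
    · intro o o' _
      rw [tr_succ_iff]
      simp only [Prod.mk.injEq]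

/-- the chain rule without condition -/
theorem chain_Ent {w : Ω → ℝ} (hw : IsPr w) (X : Ω → ∀ q, G q) (p : ℕ) :
    ∑ q ∈ range p, CE w (fun o => X o q) (tr q X) = Ent w (tr p X) := by
  have h1 := chain w X (fun _ => ()) p
  have h2 : CE w (tr p X) (fun _ => ()) = Ent w (tr p X) := by
    unfold CE
    rw [Ent_const hw, sub_zero]
    exact Ent_congr fun o o' => by simp
  rw [← h2, h1]
  apply sum_congr rfl
  intro q _
  apply CE_congr
  · intro o o'
    simp
  · intro o o' _
    exact Iff.rfl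

/-- **Decoding of the columns**: all columns of `X` are almost determined by the columns of
`X + Y`, if every column of `Y` is rarely non-zero. -/
theorem dec_cols {η σ κ : ℝ} (hη : 0 ≤ η) (hσ : 0 < σ) (hcol : ColProp η σ) (hκ : κ ≤ η * σ)
    {w : Ω → ℝ} {w' : Ω' → ℝ} (hw : IsPr w) (hw' : IsPr w') (X : Ω → ∀ q, G q)
    (Y : Ω' → ∀ q, G q) (n : ℕ) (hY : ∀ q, q < n → mass w' (fun o => Y o q ≠ 0) ≤ κ) :
    CE (prodW w w') (fun p => tr n X p.1) (fun p => tr n (fun p : Ω × Ω' => X p.1 + Y p.2) p) ≤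
      2 * η * (Ent w (tr n X) + Ent w' (tr n Y)) := by
  have hp := hw.prod hw'
  have h0 := chain (prodW w w') (fun p : Ω × Ω' => X p.1)
    (fun p => tr n (fun p : Ω × Ω' => X p.1 + Y p.2) p) n
  have h0' : CE (prodW w w') (tr n (fun p : Ω × Ω' => X p.1))
      (fun p => tr n (fun p : Ω × Ω' => X p.1 + Y p.2) p) =
      CE (prodW w w') (fun p => tr n X p.1)
        (fun p => tr n (fun p : Ω × Ω' => X p.1 + Y p.2) p) := rfl
  rw [← h0', h0]
  have h1 : ∀ q ∈ range n, CE (prodW w w') (fun p : Ω × Ω' => X p.1 q)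
      (fun p => (tr q (fun p : Ω × Ω' => X p.1) p,
        tr n (fun p : Ω × Ω' => X p.1 + Y p.2) p)) ≤
      2 * η * CE w (fun o => X o q) (tr q X) + η * CE w' (fun o => Y o q) (tr q Y) := by
    intro q hq
    rw [mem_range] at hq
    have h2 : CE (prodW w w') (fun p : Ω × Ω' => X p.1 q)
        (fun p => (tr q (fun p : Ω × Ω' => X p.1) p,
          tr n (fun p : Ω × Ω' => X p.1 + Y p.2) p)) ≤
        CE (prodW w w') (fun p : Ω × Ω' => X p.1 q)
          (fun p => (X p.1 q + Y p.2 q, (tr q X p.1, tr q Y p.2))) := by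
      apply CE_anti hp
      intro o o' h
      obtain ⟨e1, e2⟩ := Prod.ext_iff.mp h
      simp only at e1 e2
      rw [tr_eq_iff] at e1 e2
      refine Prod.ext (e2 q hq) (Prod.ext ?_ ?_)
      · rw [tr_eq_iff]
        exact fun i hi => e1 i hi
      · rw [tr_eq_iff]
        intro i hi
        have e3 : X o.1 i + Y o.2 i = X o'.1 i + Y o'.2 i := e2 i (hi.trans hq)
        have e4 : X o.1 i = X o'.1 i := e1 i hi
        rw [e4] at e3
        exact add_left_cancel e3
    refine h2.trans ?_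
    have h3 := col_past hη hσ hcol hw hw' (fun o => X o q) (fun o => Y o q) (tr q X) (tr q Y)
    refine h3.trans ?_
    have h4 : mass w' (fun o => Y o q ≠ 0) / σ ≤ η := by
      rw [div_le_iff₀ hσ]
      exact (hY q hq).trans hκ
    have h5 := CE_nonneg hw (fun o => X o q) (tr q X)
    have h6 : (η + mass w' (fun o => Y o q ≠ 0) / σ) * CE w (fun o => X o q) (tr q X) ≤
        (2 * η) * CE w (fun o => X o q) (tr q X) := mul_le_mul_of_nonneg_right (by linarith only [h4]) h5
    linarith only [h6]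
  refine (sum_le_sum h1).trans ?_
  rw [sum_add_distrib, ← mul_sum, ← mul_sum, chain_Ent hw, chain_Ent hw']
  have h7 := Ent_nonneg hw' (tr n Y)
  have h8 : η * Ent w' (tr n Y) ≤ 2 * η * Ent w' (tr n Y) := by
    apply mul_le_mul_of_nonneg_right _ h7
    linarith
  linarith

end chain

end Pool.Agent.Helper88.RT
end

/- Helper24.TT.H88.RT.Dec -/
section
set_option autoImplicit false

/-!
MP_120218_co, project RT (R3): decoding the terms of a sum of rational numbers one after the other.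
-/

open Finset

namespace Pool.Agent.Helper88.RT

open Pool.Agent.Helper15.BP Pool.Agent.Helper84.TR

/-- uniform weights on a finset -/
noncomputable def uw (Y : Finset ℤ) : {x // x ∈ Y} → ℝ := fun _ => 1 / (Y.card : ℝ)

theorem uw_isPr {Y : Finset ℤ} (hY : Y.Nonempty) : IsPr (uw Y) := by
  have h0 : (0 : ℝ) < Y.card := by exact_mod_cast hY.card_pos
  refine ⟨fun _ => by unfold uw; (clear * - hY; positivity), ?_⟩
  unfold uw
  rw [Finset.sum_const, Finset.card_univ, Fintype.card_coe, nsmul_eq_mul]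
  (clear * - hY; field_simp)

theorem Ent_uw {Y : Finset ℤ} (hY : Y.Nonempty) :
    Ent (uw Y) (fun x => (x : ℤ)) = Real.log Y.card := by
  classical
  have h0 : (0 : ℝ) < Y.card := by exact_mod_cast hY.card_pos
  have hpr : ∀ o : {x // x ∈ Y}, pr (uw Y) (fun x => (x : ℤ)) (o : ℤ) = 1 / (Y.card : ℝ) := by
    intro o
    unfold pr
    rw [Finset.sum_eq_single o]
    · simp [uw]
    · intro b _ hb
      rw [if_neg]
      intro h
      exact hb (Subtype.ext h)
    · intro h; exact absurd (Finset.mem_univ _) h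
  have h1 : Ent (uw Y) (fun x => (x : ℤ)) = ∑ _o : {x // x ∈ Y}, (1 / (Y.card : ℝ)) *
      Real.log Y.card := by
    unfold Ent
    refine Finset.sum_congr rfl fun o _ => ?_
    rw [hpr o, one_div, Real.log_inv, neg_neg]
    simp [uw]
  rw [h1, Finset.sum_const, Finset.card_univ, Fintype.card_coe, nsmul_eq_mul]
  (clear * - hY; field_simp)

theorem mass_uw {Y : Finset ℤ} (hY : Y.Nonempty) (P : ℤ → Prop) [DecidablePred P] (κ : ℝ)
    (h : ((Y.filter P).card : ℝ) ≤ κ * Y.card) : mass (uw Y) (fun x => P x) ≤ κ := by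
  classical
  have h0 : (0 : ℝ) < Y.card := by exact_mod_cast hY.card_pos
  have h1 : mass (uw Y) (fun x => P x) = ((Y.filter P).card : ℝ) / Y.card := by
    have h2 : mass (uw Y) (fun x => P x) =
        ∑ o : {x // x ∈ Y}, (if P o then 1 / (Y.card : ℝ) else 0) := by
      unfold mass uw
      refine Finset.sum_congr rfl fun o _ => ?_
      by_cases h : P o
      · simp [h]
      · simp [h]
    rw [h2, ← Finset.sum_filter, Finset.sum_const, nsmul_eq_mul, mul_one_div]
    congr 2
    refine Finset.card_bij (fun x _ => (x : ℤ)) ?_ ?_ ?_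
    · intro x hx
      rw [mem_filter] at hx ⊢
      exact ⟨x.2, hx.2⟩
    · intro x _ y _ hxy
      exact Subtype.ext hxy
    · intro b hb
      rw [mem_filter] at hb
      exact ⟨⟨b, hb.1⟩, by rw [mem_filter]; exact ⟨mem_univ _, hb.2⟩, rfl⟩
  rw [h1, div_le_iff₀ h0]
  exact h

/-- **Decoding one term.** -/
theorem dec_one {η σ : ℝ} (hη : 0 ≤ η) (hσ : 0 < σ) (hcol : ColProp η σ) {Ω : Type} [Fintype Ω]
    {w : Ω → ℝ} (hw : IsPr w) {Y : Finset ℤ} (hY : Y.Nonempty) (u : ℤ → ℚ) (S : Ω → ℚ)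
    (n : ℕ) (lam : ℕ → ℕ) {L H : ℝ} (hL : Real.log Y.card ≤ L) (hH : Ent w S ≤ H)
    (hS : ∀ q : ℕ, q.Prime → mass w (fun o => q ^ (lam q + 1) ∣ (S o).den) ≤ η * σ)
    {M : ℕ}
    (hcell : ∀ b ∈ Y, {b' : ℤ | b' ∈ Y ∧ ∀ q, q < n → cl lam (u b') q = cl lam (u b) q}.ncard ≤ M) :
    CE (prodW (uw Y) w) (fun p => (p.1 : ℤ)) (fun p => u p.1 + S p.2) ≤
      2 * η * (L + H) + Real.log M := by
  classical
  have hu := uw_isPr hY
  have hp := hu.prod hw
  set X : {x // x ∈ Y} → ∀ q : ℕ, ℚ ⧸ Hq lam q := fun x => cl lam (u x) with hX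
  set Z : Ω → ∀ q : ℕ, ℚ ⧸ Hq lam q := fun o => cl lam (S o) with hZ
  -- step 1
  have h1 : CE (prodW (uw Y) w) (fun p => (p.1 : ℤ)) (fun p => u p.1 + S p.2) ≤
      CE (prodW (uw Y) w) (fun p => ((p.1 : ℤ), tr n X p.1)) (fun p => u p.1 + S p.2) := by
    apply CE_mono hp
    intro o o' _ h
    exact congrArg Prod.fst h
  have h2 := CE_chain (prodW (uw Y) w) (fun p => (p.1 : ℤ)) (fun p => tr n X p.1)
    (fun p => u p.1 + S p.2)
  -- the classes
  have h3 : CE (prodW (uw Y) w) (fun p => tr n X p.1) (fun p => u p.1 + S p.2) ≤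
      CE (prodW (uw Y) w) (fun p => tr n X p.1)
        (fun p => tr n (fun p : {x // x ∈ Y} × Ω => X p.1 + Z p.2) p) := by
    apply CE_anti hp
    intro o o' h
    rw [tr_eq_iff]
    intro q _
    have e1 : ∀ p : {x // x ∈ Y} × Ω, X p.1 + Z p.2 = cl lam (u p.1 + S p.2) := fun p => rfl
    rw [e1, e1, h]
  have hmass : ∀ q, q < n → mass w (fun o => Z o q ≠ 0) ≤ η * σ := by
    intro q _
    by_cases hq : q.Prime
    · refine le_trans (mass_mono hw ?_) (hS q hq)
      intro o ho
      by_contra hcon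
      exact ho (cl_zero_iff.2 ((mem_Hq hq).2 hcon))
    · have e1 : mass w (fun o => Z o q ≠ 0) = 0 := by
        unfold mass
        apply sum_eq_zero
        intro o _
        rw [if_neg]
        rw [not_not]
        apply cl_zero_iff.2
        intro h
        exact absurd h hq
      rw [e1]
      (clear * - hη hσ; positivity)
  have h4 := dec_cols hη hσ hcol le_rfl hu hw X Z n hmass
  have h5 : Ent (uw Y) (tr n X) ≤ L := by
    refine le_trans ?_ hL
    rw [← Ent_uw hY]
    apply Ent_mono hu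
    intro o o' h
    have : o = o' := Subtype.ext h
    rw [this]
  have h6 : Ent w (tr n Z) ≤ H := by
    refine le_trans ?_ hH
    apply Ent_mono hw
    intro o o' h
    rw [tr_eq_iff]
    intro q _
    simp only [hZ]
    rw [h]
  have h7 : 2 * η * (Ent (uw Y) (tr n X) + Ent w (tr n Z)) ≤ 2 * η * (L + H) :=
    mul_le_mul_of_nonneg_left (by linarith only [h5, h6]) (by linarith only [hη])
  -- the cells
  have h8 : CE (prodW (uw Y) w) (fun p => (p.1 : ℤ)) (fun p => (tr n X p.1, u p.1 + S p.2)) ≤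
      CE (prodW (uw Y) w) (fun p => (p.1 : ℤ)) (fun p => tr n X p.1) := by
    apply CE_anti hp
    intro o o' h
    exact congrArg Prod.fst h
  have h9 : CE (prodW (uw Y) w) (fun p => (p.1 : ℤ)) (fun p => tr n X p.1) ≤ Real.log M := by
    apply CE_le_log hp
    intro o
    refine le_trans (Set.ncard_le_ncard ?_ ?_) (hcell o.1 o.1.2)
    · rintro b ⟨o', h, rfl⟩
      refine ⟨o'.1.2, ?_⟩
      rw [tr_eq_iff] at h
      exact h
    · exact Set.Finite.subset Y.finite_toSet fun b hb => hb.1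
  rw [h2] at h1
  (clear * - h1 h3 h4 h7 h8 h9; linarith only [h1, h3, h4, h7, h8, h9])

/-- what is known after `l` terms -/
def St {k : ℕ} (Y : Fin k → Finset ℤ) (u : Fin k → ℤ → ℚ) (lam : Fin k → ℕ → ℕ) (κ L B : ℝ)
    (l : ℕ) : Prop :=
  ∃ (Ω : Type) (_ : Fintype Ω) (w : Ω → ℝ) (S : Ω → ℚ), IsPr w ∧
    (∀ o, ∃ f : Fin k → ℤ, (∀ i : Fin k, (i : ℕ) < l → f i ∈ Y i) ∧
      S o = ∑ i : Fin k, if (i : ℕ) < l then u i (f i) else 0) ∧
    (∑ i : Fin k, (if (i : ℕ) < l then Real.log ((Y i).card) else 0)) - l * B ≤ Ent w S ∧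
    Ent w S ≤ l * L ∧
    ∀ m : Fin k, l ≤ (m : ℕ) → ∀ q : ℕ, q.Prime →
      mass w (fun o => q ^ (lam m q + 1) ∣ (S o).den) ≤ l * κ

theorem st_zero {k : ℕ} (Y : Fin k → Finset ℤ) (u : Fin k → ℤ → ℚ) (lam : Fin k → ℕ → ℕ)
    (κ L B : ℝ) : St Y u lam κ L B 0 := by
  classical
  have hw : IsPr (fun _ : Unit => (1 : ℝ)) := ⟨fun _ => by norm_num, by simp⟩
  refine ⟨Unit, inferInstance, fun _ => 1, fun _ => 0, hw, ?_, ?_, ?_, ?_⟩
  · intro o
    exact ⟨fun _ => 0, fun i hi => absurd hi (by omega), by simp⟩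
  · rw [Ent_const hw]; simp
  · rw [Ent_const hw]; simp
  · intro m _ q hq
    unfold mass
    rw [sum_eq_zero]
    · simp
    · intro o _
      rw [if_neg]
      intro h
      rw [Rat.den_zero, Nat.dvd_one] at h
      have h1 : 1 < q ^ (lam m q + 1) := Nat.one_lt_pow (by omega) hq.one_lt
      omega

theorem st_step {k : ℕ} (Y : Fin k → Finset ℤ) (u : Fin k → ℤ → ℚ) (lam : Fin k → ℕ → ℕ)
    (κ L B : ℝ) (l : ℕ)
    (hl : l < k) (hY : ∀ i, (Y i).Nonempty)
    (hYL : ∀ i, ((Y i).card : ℝ) ≤ Real.exp L)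
    (hlam : ∀ m m' : Fin k, m' < m → ∀ q : ℕ, q.Prime →
        ((((Y m').filter (fun b => q ^ (lam m q + 1) ∣ (u m' b).den)).card : ℝ) ≤
          κ * (Y m').card))
    (hCE : ∀ (Ω : Type) (_ : Fintype Ω) (w : Ω → ℝ) (S : Ω → ℚ), IsPr w →
      (l = 0 → ∀ o, S o = 0) → Ent w S ≤ l * L →
      (∀ q : ℕ, q.Prime →
        mass w (fun o => q ^ (lam ⟨l, hl⟩ q + 1) ∣ (S o).den) ≤ l * κ) →
      CE (prodW (uw (Y ⟨l, hl⟩)) w) (fun p => (p.1 : ℤ)) (fun p => u ⟨l, hl⟩ p.1 + S p.2) ≤ B)
    (h : St Y u lam κ L B l) : St Y u lam κ L B (l + 1) := by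
  classical
  obtain ⟨Ω, hΩ, w, S, hw, hS, h1, h2, h3⟩ := h
  set i₀ : Fin k := ⟨l, hl⟩ with hi₀
  have hSone : l = 0 → ∀ o, S o = 0 := by
    intro hl0 o
    obtain ⟨f, f1, f3⟩ := hS o
    rw [f3]
    exact Finset.sum_eq_zero fun i _ => by rw [if_neg (by omega)]
  have hu := uw_isPr (hY i₀)
  have hB := hCE Ω hΩ w S hw hSone h2 (h3 i₀ (le_refl _))
  have hpair : Ent (prodW (uw (Y i₀)) w) (fun p => ((p.1 : ℤ), u i₀ p.1 + S p.2)) =
      Real.log ((Y i₀).card) + Ent w S := by
    rw [← Ent_uw (hY i₀), ← Ent_prod hu hw]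
    refine Ent_congr fun o o' => ?_
    simp only [Prod.mk.injEq]
    constructor
    · rintro ⟨e1, e2⟩
      refine ⟨e1, ?_⟩
      rw [e1] at e2
      exact add_left_cancel e2
    · rintro ⟨e1, e2⟩
      exact ⟨e1, by rw [e1, e2]⟩
  have hlogY : Real.log ((Y i₀).card) ≤ L := by
    have h0 : (0 : ℝ) < (Y i₀).card := by exact_mod_cast (hY i₀).card_pos
    rw [Real.log_le_iff_le_exp h0]
    exact hYL i₀
  refine ⟨{x // x ∈ Y i₀} × Ω, inferInstance, prodW (uw (Y i₀)) w, fun p => u i₀ p.1 + S p.2,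
    hu.prod hw, ?_, ?_, ?_, ?_⟩
  · rintro ⟨x, o⟩
    obtain ⟨f, f1, f3⟩ := hS o
    refine ⟨Function.update f i₀ x, ?_, ?_⟩
    · intro i hi
      by_cases hii : i = i₀
      · rw [hii, Function.update_self]; exact x.2
      · rw [Function.update_of_ne hii]
        refine f1 i ?_
        have : (i : ℕ) ≠ l := fun h => hii (Fin.ext h)
        omega
    · simp only
      rw [f3, ← Finset.add_sum_erase univ (fun i : Fin k => if (i : ℕ) < l + 1 then
        u i (Function.update f i₀ (x : ℤ) i) else 0) (mem_univ i₀),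
        ← Finset.add_sum_erase univ (fun i : Fin k => if (i : ℕ) < l then
        u i (f i) else 0) (mem_univ i₀)]
      have e0 : (i₀ : ℕ) < l + 1 := Nat.lt_succ_self l
      have e0' : ¬ (i₀ : ℕ) < l := lt_irrefl l
      rw [if_pos e0, if_neg e0', Function.update_self, zero_add]
      congr 1
      apply sum_congr rfl
      intro i hi
      have hii : i ≠ i₀ := ne_of_mem_erase hi
      have hne : (i : ℕ) ≠ l := fun h => hii (Fin.ext h)
      rw [Function.update_of_ne hii]
      by_cases hil : (i : ℕ) < l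
      · rw [if_pos hil, if_pos (by omega)]
      · rw [if_neg hil, if_neg (by omega)]
  · unfold CE at hB
    rw [hpair] at hB
    have e1 : (∑ i : Fin k, (if (i : ℕ) < l + 1 then Real.log ((Y i).card) else 0)) =
        (∑ i : Fin k, (if (i : ℕ) < l then Real.log ((Y i).card) else 0)) +
          Real.log ((Y i₀).card) := by
      have e2 : ∀ i : Fin k, (if (i : ℕ) < l + 1 then Real.log ((Y i).card) else 0) =
          (if (i : ℕ) < l then Real.log ((Y i).card) else 0) +
            (if i = i₀ then Real.log ((Y i).card) else 0) := by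
        intro i
        by_cases hii : i = i₀
        · rw [hii, hi₀]; simp
        · have : (i : ℕ) ≠ l := fun h => hii (Fin.ext h)
          rw [if_neg hii, add_zero]
          by_cases h : (i : ℕ) < l
          · rw [if_pos h, if_pos (by omega)]
          · rw [if_neg h, if_neg (by omega)]
      rw [Finset.sum_congr rfl fun i _ => e2 i, Finset.sum_add_distrib]
      simp
    rw [e1]
    push_cast
    linarith only [h1, hB]
  · have e1 : Ent (prodW (uw (Y i₀)) w) (fun p => u i₀ p.1 + S p.2) ≤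
        Ent (prodW (uw (Y i₀)) w) (fun p => ((p.1 : ℤ), u i₀ p.1 + S p.2)) :=
      Ent_mono (hu.prod hw) fun o o' e => congrArg Prod.snd e
    rw [hpair] at e1
    push_cast
    (clear * - h2 hlogY e1; linarith only [h2, hlogY, e1])
  · intro m hm q hq
    have e1 : mass (prodW (uw (Y i₀)) w) (fun p => q ^ (lam m q + 1) ∣ (u i₀ p.1 + S p.2).den) ≤
        mass (prodW (uw (Y i₀)) w)
          (fun p => (fun x : {x // x ∈ Y i₀} => (q ^ (lam m q + 1) ∣ (u i₀ x).den)) p.1 ∨
          (fun o => q ^ (lam m q + 1) ∣ (S o).den) p.2) := by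
      refine mass_mono (hu.prod hw) ?_
      intro p hp
      exact den_add hq hp
    refine e1.trans ((mass_or_le (hu.prod hw) _ _).trans ?_)
    rw [mass_fst hw (fun x : {x // x ∈ Y i₀} => (q ^ (lam m q + 1) ∣ (u i₀ x).den)),
      mass_snd hu (fun o => q ^ (lam m q + 1) ∣ (S o).den)]
    have e2 := mass_uw (hY i₀) (fun b => q ^ (lam m q + 1) ∣ (u i₀ b).den) κ (hlam m i₀ (by
      rw [Fin.lt_def, hi₀]; simp; omega) q hq)
    have e3 := h3 m (by omega) q hq
    push_cast at e2 e3 ⊢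
    linarith only [e2, e3]

/-- **The decoding corollary for sums of rational numbers.** -/
theorem corQ : CorQ := by
  classical
  intro k ζ hζ
  have hk1 : (0 : ℝ) < (k : ℝ) + 1 := by (clear * -; positivity)
  set η : ℝ := min 1 (ζ / (2 * (k + 1))) with hη
  have hη0 : 0 < η := lt_min one_pos (by (clear * - hζ; positivity))
  have hη1 : η ≤ 1 := min_le_left _ _
  have hηζ : η * (2 * (k + 1)) ≤ ζ := by
    have h1 : η ≤ ζ / (2 * (k + 1)) := min_le_right _ _
    rwa [le_div_iff₀ (by positivity)] at h1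
  obtain ⟨σ, hσ0, hσ1, hcol⟩ := group_column η hη0
  refine ⟨η * σ / (k + 1), by (clear * - hζ hσ0; positivity), ?_, ?_⟩
  · rw [div_le_one hk1]
    have h1 : η * σ ≤ 1 * (1 / 2) := mul_le_mul hη1 hσ1 hσ0.le (by norm_num)
    have : (0 : ℝ) ≤ k := Nat.cast_nonneg k
    linarith
  intro Y u L M n lam hL hM hY hYL hinj hn hlam hcell
  have hL0 : 0 ≤ L := by linarith only [hL]
  have hlogM : 0 ≤ Real.log M := Real.log_natCast_nonneg M
  have hB0 : 0 ≤ ζ * L + Real.log M := by (clear * - hζ hL; positivity)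
  have hlogY : ∀ i, Real.log ((Y i).card) ≤ L := by
    intro i
    have h0 : (0 : ℝ) < (Y i).card := by exact_mod_cast (hY i).card_pos
    rw [Real.log_le_iff_le_exp h0]
    exact hYL i
  have hst : ∀ l : ℕ, l ≤ k → St Y u lam (η * σ / (k + 1)) L (ζ * L + Real.log M) l := by
    intro l
    induction l with
    | zero => intro _; exact st_zero Y u lam _ _ _
    | succ l ih =>
      intro hl
      refine st_step Y u lam _ L _ l (by omega) hY hYL hlam ?_ (ih (by omega))
      intro Ω hΩ w S hw hSone hSL hSm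
      set i₀ : Fin k := ⟨l, by omega⟩ with hi₀
      have hu := uw_isPr (hY i₀)
      rcases Nat.eq_zero_or_pos l with hl0 | hl0
      · -- the first term is the sum itself
        refine le_trans (le_of_eq ?_) hB0
        have e1 : CE (prodW (uw (Y i₀)) w) (fun p => (p.1 : ℤ)) (fun p => u i₀ p.1 + S p.2) =
            CE (prodW (uw (Y i₀)) w) (fun _ => (0 : ℤ)) (fun p => u i₀ p.1 + S p.2) := by
          refine CE_congr (fun o o' => Iff.rfl) ?_
          intro o o' e
          simp only [hSone hl0, add_zero] at e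
          exact ⟨fun _ => rfl, fun _ => hinj i₀ hl0 o.1.2 o'.1.2 e⟩
        rw [e1]
        unfold CE
        rw [sub_eq_zero]
        refine Ent_congr fun o o' => ?_
        simp
      · -- decoding
        set n' : ℕ := max n (((Y i₀).sup fun b => (u i₀ b).den) + 1) with hn'
        have hbig : ∀ b ∈ Y i₀, ∀ q : ℕ, q.Prime → q ∣ (u i₀ b).den → q < n' := by
          intro b hb q hq hqb
          have e1 : q ≤ (u i₀ b).den := Nat.le_of_dvd (Rat.den_pos _) hqb
          have e2 : (u i₀ b).den ≤ (Y i₀).sup fun b => (u i₀ b).den :=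
            Finset.le_sup (f := fun b => (u i₀ b).den) hb
          rw [hn']
          exact lt_of_lt_of_le (by omega) (le_max_right _ _)
        have h1 := dec_one hη0.le hσ0 hcol hw (hY i₀) (u i₀) S n' (lam i₀) (hlogY i₀) hSL
          (M := M) ?_ ?_
        · refine h1.trans ?_
          have e2 : (l : ℝ) * L ≤ k * L := by
            have : (l : ℝ) ≤ k := by exact_mod_cast (show l ≤ k by omega)
            (clear * - hL0 this; nlinarith only [hL0, this])
          have e3 : 2 * η * (L + l * L) ≤ ζ * L := by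
            calc 2 * η * (L + l * L) ≤ 2 * η * (L + k * L) := by
                  apply mul_le_mul_of_nonneg_left _ (by (clear * - hζ; positivity))
                  linarith only [e2]
              _ = (η * (2 * (k + 1))) * L := by ring
              _ ≤ ζ * L := mul_le_mul_of_nonneg_right hηζ hL0
          linarith only [e3]
        · intro q hq
          refine (hSm q hq).trans ?_
          have e4 : (l : ℝ) * (η * σ / (k + 1)) = (η * σ) * (l / (k + 1)) := by ring
          rw [e4]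
          have e5 : (l : ℝ) / (k + 1) ≤ 1 := by
            rw [div_le_one hk1]
            have : (l : ℝ) ≤ k := by exact_mod_cast (show l ≤ k by omega)
            linarith only [this]
          have : 0 ≤ η * σ := by (clear * - hζ hσ0; positivity)
          (clear * - e5 this; nlinarith only [e5, this])
        · intro b hb
          have h2 := hcell i₀ hl0 b hb
          rw [← Set.ncard_coe_finset] at h2
          refine le_trans (Set.ncard_le_ncard ?_ (Finset.finite_toSet _)) h2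
          rintro b' ⟨hb', hcl⟩
          rw [mem_coe, mem_filter]
          refine ⟨hb', ?_⟩
          have h3 := cell_of_classes (n := n') (lam := lam i₀) (hbig b hb) (hbig b' hb')
            (fun q hq => (hcl q hq).symm)
          rwa [Dn_ext (le_max_left _ _) (hn i₀)] at h3
  obtain ⟨Ω, hΩ, w, S, hw, hS, h1, h2, h3⟩ := hst k (le_refl _)
  have e1 : (∑ i : Fin k, (if (i : ℕ) < k then Real.log ((Y i).card) else 0)) =
      ∑ l, Real.log ((Y l).card) := Finset.sum_congr rfl fun i _ => by rw [if_pos i.2]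
  rw [e1] at h1
  refine h1.trans ?_
  -- entropy at most the logarithm of the number of values
  have e2 : Ent w S ≤ CE w S (fun _ => (0 : ℤ)) := by
    unfold CE
    rw [Ent_const hw, sub_zero]
    exact Ent_mono hw fun o o' e => congrArg Prod.fst e
  refine e2.trans (CE_le_log hw S _ _ ?_)
  intro o
  have hsub : {a : ℚ | ∃ o', (fun _ : Ω => (0 : ℤ)) o' = (fun _ : Ω => (0 : ℤ)) o ∧ S o' = a} ⊆
      (((Fintype.piFinset Y).image (fun f : Fin k → ℤ => ∑ i, u i (f i)) : Finset ℚ) : Set ℚ) := by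
    rintro a ⟨o', -, rfl⟩
    obtain ⟨f, f1, f3⟩ := hS o'
    rw [Finset.coe_image]
    refine ⟨f, ?_, ?_⟩
    · rw [Finset.mem_coe, Fintype.mem_piFinset]
      exact fun i => f1 i i.2
    · rw [f3]
      exact Finset.sum_congr rfl fun i _ => by rw [if_pos i.2]
  refine le_trans (Set.ncard_le_ncard hsub (Finset.finite_toSet _)) ?_
  rw [Set.ncard_coe_finset]

/-- **The decoding corollary for sums of reciprocals.** -/
theorem corR : CorR := by
  classical
  intro k ζ hζ
  obtain ⟨κ, hκ0, hκ1, H⟩ := corQ k ζ hζ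
  refine ⟨κ, hκ0, hκ1, ?_⟩
  intro Y L M n lam hL hM hY hY0 hYL hn hlam hcell
  have h := H Y (fun _ b => ((b : ℤ) : ℚ)⁻¹) L M n lam hL hM hY hYL ?_ hn ?_ ?_
  · unfold recSum
    convert h using 3
  · intro l _ a _ b _ hab
    have h1 : ((a : ℤ) : ℚ) = b := inv_injective hab
    exact_mod_cast h1
  · intro l l' hl q hq
    have h1 := hlam l l' hl q hq
    refine le_trans ?_ h1
    apply Nat.cast_le.2
    apply card_le_card
    intro b hb
    rw [mem_filter] at hb ⊢
    refine ⟨hb.1, ?_⟩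
    have hb0 : b ≠ 0 := fun h => hY0 l' (h ▸ hb.1)
    have h2 : (((b : ℤ) : ℚ)⁻¹).den = b.natAbs := by
      rw [Rat.inv_intCast_den]
      rw [if_neg hb0]
    rw [h2] at hb
    have h3 := hb.2
    rw [← Int.natCast_dvd_natCast] at h3
    push_cast at h3
    exact (dvd_abs _ _).1 h3
  · intro l hl b hb
    have h1 := hcell l hl b hb
    convert h1 using 3
    exact Iff.rfl

end Pool.Agent.Helper88.RT
end
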