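import Mathlib
import Pool.Agent.Helper24.TG.G03
import Pool.Agent.Helper24.TG.G07

/- Helper24.TT.H99.RT.CS -/
section
/-!
# Project RT (MP_120218_co): conditions satisfied by many elements (Cauchy-Schwarz)
-/

set_option autoImplicit false

open Finset

namespace Pool.Agent.Helper99.RT

section

variable {ι : Type*} (I : Finset ι) (wt : ι → ℝ) (Cd : ι → ℤ → Prop)

open Classical in
/-- the weight of the conditions satisfied by `a` -/
noncomputable def Fc (a : ℤ) : ℝ := ∑ x ∈ I, if Cd x a then wt x else 0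

open Classical in
/-- the elements of `A` which satisfy many conditions -/
noncomputable def Zc (κ : ℝ) (A : Finset ℤ) : Finset ℤ :=
  A.filter (fun a => κ / 2 * ∑ x ∈ I, wt x ≤ Fc I wt Cd a)

variable {I wt Cd}

theorem Zc_subset (κ : ℝ) (A : Finset ℤ) : Zc I wt Cd κ A ⊆ A := by
  unfold Zc
  exact filter_subset _ _

theorem mem_Zc {κ : ℝ} {A : Finset ℤ} {a : ℤ} :
    a ∈ Zc I wt Cd κ A ↔ a ∈ A ∧ κ / 2 * ∑ x ∈ I, wt x ≤ Fc I wt Cd a := by
  unfold Zc
  rw [mem_filter]

theorem Fc_le (hwt : ∀ x ∈ I, 0 ≤ wt x) (a : ℤ) : Fc I wt Cd a ≤ ∑ x ∈ I, wt x := by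
  unfold Fc
  apply sum_le_sum
  intro x hx
  split_ifs
  · exact le_rfl
  · exact hwt x hx

open Classical in
theorem Zc_card {κ : ℝ} (hκ : 0 < κ) {A : Finset ℤ} (hwt : ∀ x ∈ I, 0 ≤ wt x)
    (h : ∀ x ∈ I, κ * (A.card : ℝ) ≤ ((A.filter (fun a => Cd x a)).card : ℝ))
    (hW : 0 < ∑ x ∈ I, wt x) :
    κ / 2 * (A.card : ℝ) ≤ ((Zc I wt Cd κ A).card : ℝ) := by
  set W := ∑ x ∈ I, wt x with hWdef
  have h1 : κ * (A.card : ℝ) * W ≤ ∑ a ∈ A, Fc I wt Cd a := by
    unfold Fc
    rw [sum_comm]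
    have h2 : ∀ x ∈ I, κ * (A.card : ℝ) * wt x ≤
        ∑ a ∈ A, if Cd x a then wt x else 0 := by
      intro x hx
      rw [← sum_filter, sum_const, nsmul_eq_mul]
      exact mul_le_mul_of_nonneg_right (h x hx) (hwt x hx)
    calc κ * (A.card : ℝ) * W = ∑ x ∈ I, κ * (A.card : ℝ) * wt x := by
          rw [← mul_sum]
      _ ≤ _ := sum_le_sum h2
  have h3 : ∑ a ∈ A, Fc I wt Cd a ≤ (Zc I wt Cd κ A).card * W + A.card * (κ / 2 * W) := by
    have h4 : ∀ a ∈ A, Fc I wt Cd a ≤ (if a ∈ Zc I wt Cd κ A then W else 0) + κ / 2 * W := by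
      intro a ha
      split_ifs with hz
      · have : 0 ≤ κ / 2 * W := by (clear * - hκ hW; positivity)
        linarith only [Fc_le (Cd := Cd) hwt a, this]
      · have : Fc I wt Cd a < κ / 2 * W := by
          by_contra hlt
          push Not at hlt
          exact hz (mem_Zc.2 ⟨ha, hlt⟩)
        (clear * - this; linarith only [this])
    refine (sum_le_sum h4).trans ?_
    rw [sum_add_distrib, ← sum_filter, sum_const, sum_const, nsmul_eq_mul, nsmul_eq_mul]
    have h5 : A.filter (fun a => a ∈ Zc I wt Cd κ A) = Zc I wt Cd κ A := by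
      ext a
      rw [mem_filter]
      exact ⟨fun h => h.2, fun h => ⟨Zc_subset _ _ h, h⟩⟩
    rw [h5]
  have h6 : κ / 2 * (A.card : ℝ) * W ≤ (Zc I wt Cd κ A).card * W := by linarith only [h1, h3]
  exact le_of_mul_le_mul_right h6 hW

open Classical in
/-- **Trivial cells.**  A set of elements of `Zc` whose different elements have few common
conditions has at most `8/κ²` elements. -/
theorem cellsC {κ : ℝ} (hκ : 0 < κ) {A : Finset ℤ} (hwt : ∀ x ∈ I, 0 ≤ wt x)
    {w : ℝ} (hw : w ≤ κ ^ 2 * (∑ x ∈ I, wt x) / 8) (hw0 : 0 ≤ w)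
    (hW : 0 < ∑ x ∈ I, wt x) {G : Finset ℤ} (hG : G ⊆ Zc I wt Cd κ A)
    (hd : ∀ a ∈ G, ∀ a' ∈ G, a ≠ a' →
      (∑ x ∈ I, if Cd x a ∧ Cd x a' then wt x else 0) ≤ w) :
    (G.card : ℝ) ≤ 8 / κ ^ 2 := by
  set W := ∑ x ∈ I, wt x with hWdef
  -- number of elements of `G` satisfying a condition
  set n : ι → ℝ := fun x => ((G.filter (fun a => Cd x a)).card : ℝ) with hn
  have h1 : ∑ a ∈ G, Fc I wt Cd a = ∑ x ∈ I, wt x * n x := by
    unfold Fc
    rw [sum_comm]
    apply sum_congr rfl
    intro x _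
    rw [← sum_filter, sum_const, nsmul_eq_mul, hn]
    ring
  have h2 : (G.card : ℝ) * (κ / 2 * W) ≤ ∑ a ∈ G, Fc I wt Cd a := by
    rw [← nsmul_eq_mul, ← sum_const]
    exact sum_le_sum fun a ha => (mem_Zc.1 (hG ha)).2
  have h3 : (∑ x ∈ I, wt x * n x) ^ 2 ≤
      (∑ x ∈ I, wt x) * ∑ x ∈ I, wt x * n x ^ 2 := by
    apply Finset.sum_sq_le_sum_mul_sum_of_sq_le_mul
    · exact hwt
    · intro x hx
      exact mul_nonneg (hwt x hx) (sq_nonneg _)
    · intro x _
      apply le_of_eq
      ring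
  have h4 : ∑ x ∈ I, wt x * n x ^ 2 =
      ∑ a ∈ G, ∑ a' ∈ G, ∑ x ∈ I,
        if Cd x a ∧ Cd x a' then wt x else 0 := by
    have h5 : ∀ x ∈ I, wt x * n x ^ 2 =
        ∑ a ∈ G, ∑ a' ∈ G, if Cd x a ∧ Cd x a' then wt x else 0 := by
      intro x _
      have h6 : ∀ a ∈ G, (∑ a' ∈ G, if Cd x a ∧ Cd x a' then wt x else 0) =
          if Cd x a then n x * wt x else 0 := by
        intro a _
        by_cases hc : Cd x a
        · simp only [hc, true_and, if_true]
          rw [← sum_filter, sum_const, nsmul_eq_mul]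
        · simp [hc]
      rw [sum_congr rfl h6, ← sum_filter, sum_const, nsmul_eq_mul]
      simp only [hn]
      ring
    rw [sum_congr rfl h5, sum_comm]
    apply sum_congr rfl
    intro a _
    rw [sum_comm]
  have h7 : ∑ a ∈ G, ∑ a' ∈ G, ∑ x ∈ I,
        (if Cd x a ∧ Cd x a' then wt x else 0) ≤
      (G.card : ℝ) * W + (G.card : ℝ) ^ 2 * w := by
    have h8 : ∀ a ∈ G, ∀ a' ∈ G, (∑ x ∈ I,
        if Cd x a ∧ Cd x a' then wt x else 0) ≤ (if a = a' then W else 0) + w := by
      intro a ha a' ha'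
      by_cases heq : a = a'
      · subst heq
        rw [if_pos rfl]
        have : (∑ x ∈ I, if Cd x a ∧ Cd x a then wt x else 0) = Fc I wt Cd a := by
          unfold Fc
          simp only [and_self]
        rw [this]
        linarith only [Fc_le (Cd := Cd) hwt a, hw0]
      · rw [if_neg heq, zero_add]
        exact hd a ha a' ha' heq
    calc _ ≤ ∑ a ∈ G, ∑ a' ∈ G, ((if a = a' then W else 0) + w) :=
          sum_le_sum fun a ha => sum_le_sum fun a' ha' => h8 a ha a' ha'
      _ = (G.card : ℝ) * W + (G.card : ℝ) ^ 2 * w := by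
          simp_rw [sum_add_distrib, sum_const, nsmul_eq_mul]
          have : ∑ a ∈ G, ∑ a' ∈ G, (if a = a' then W else 0) = (G.card : ℝ) * W := by
            have h9 : ∀ a ∈ G, (∑ a' ∈ G, if a = a' then W else 0) = W := by
              intro a ha
              rw [sum_ite_eq, if_pos ha]
            rw [sum_congr rfl h9, sum_const, nsmul_eq_mul]
          rw [this]
          ring
  rcases G.eq_empty_or_nonempty with hGe | hGne
  · rw [hGe]
    simp only [card_empty, Nat.cast_zero]
    positivity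
  have hGp : (0 : ℝ) < G.card := by exact_mod_cast card_pos.2 hGne
  rw [← hWdef, ← h1, h4] at h3
  have h10 : ((G.card : ℝ) * (κ / 2 * W)) ^ 2 ≤ (∑ a ∈ G, Fc I wt Cd a) ^ 2 :=
    pow_le_pow_left₀ (by (clear * - hGne hκ hW; positivity)) h2 2
  have h11 : ((G.card : ℝ) * (κ / 2 * W)) ^ 2 ≤
      W * ((G.card : ℝ) * W + (G.card : ℝ) ^ 2 * w) :=
    h10.trans (h3.trans (mul_le_mul_of_nonneg_left h7 hW.le))
  have h12 : (G.card : ℝ) ^ 2 * w ≤ (G.card : ℝ) ^ 2 * (κ ^ 2 * W / 8) :=
    mul_le_mul_of_nonneg_left hw (by (clear * - hGne; positivity))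
  have h13 : (G.card : ℝ) * W * W * (G.card * κ ^ 2) ≤ (G.card : ℝ) * W * W * 8 := by nlinarith only [hW, h11, h12]
  have h14 : (G.card : ℝ) * κ ^ 2 ≤ 8 := le_of_mul_le_mul_left h13 (by (clear * - hGne hW; positivity))
  rw [le_div_iff₀ (by positivity)]
  exact h14

end

end Pool.Agent.Helper99.RT
end

/- Helper24.TT.H99.RT.CellZ -/
section
/-!
# Project RT (MP_120218_co): the cells of reciprocals

`Cell D b b'` says that `D (1/b - 1/b')` is an integer.  Two elements of a cell which share many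
leading digits (counted twice at their common valuation) are equal, and the valuations of the
elements of a cell are close.
-/

set_option autoImplicit false

open Finset

namespace Pool.Agent.Helper99.RT

open Pool.Agent.Helper26.TR Pool.Agent.Helper88.RT

theorem cell_int {D : ℕ} {b b' : ℤ} (hb : b ≠ 0) (hb' : b' ≠ 0) (h : Cell D b b') :
    ∃ z : ℤ, (D : ℤ) * (b' - b) = z * (b * b') ∧ |(z : ℝ)| ≤ 2 * D := by
  obtain ⟨z, hz⟩ := h
  have hbq : (b : ℚ) ≠ 0 := by exact_mod_cast hb
  have hbq' : (b' : ℚ) ≠ 0 := by exact_mod_cast hb'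
  refine ⟨z, ?_, ?_⟩
  · have h1 : (D : ℚ) * ((b' : ℚ) - b) = z * (b * b') := by
      rw [← hz]
      (clear * - hbq' hbq; field_simp)
    exact_mod_cast h1
  · have h2 : (z : ℝ) = (D : ℝ) * ((b : ℝ)⁻¹ - (b' : ℝ)⁻¹) := by
      have := congrArg (fun x : ℚ => (x : ℝ)) hz
      push_cast at this
      exact this.symm
    rw [h2, abs_mul, Nat.abs_cast]
    have h3 : ∀ x : ℤ, x ≠ 0 → |(x : ℝ)⁻¹| ≤ 1 := by
      intro x hx
      rw [abs_inv]
      apply inv_le_one_of_one_le₀
      exact_mod_cast Int.one_le_abs hx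
    have h4 : |(b : ℝ)⁻¹ - (b' : ℝ)⁻¹| ≤ 2 := by
      have h5 : |(b : ℝ)⁻¹ - (b' : ℝ)⁻¹| ≤ |(b : ℝ)⁻¹| + |(b' : ℝ)⁻¹| := abs_sub _ _
      linarith only [h3 b hb, h3 b' hb', h5]
    have h6 : (0 : ℝ) ≤ D := Nat.cast_nonneg _
    nlinarith only [h4]

theorem cell_trans {D : ℕ} {b a a' : ℤ} (h : Cell D b a) (h' : Cell D b a') : Cell D a a' := by
  obtain ⟨z, hz⟩ := h
  obtain ⟨z', hz'⟩ := h'
  refine ⟨z' - z, ?_⟩
  push_cast
  rw [← hz, ← hz']
  ring

theorem log_Dn (n : ℕ) (lam : ℕ → ℕ) : Real.log (Dn n lam) = Wt n lam := by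
  unfold Dn Wt
  push_cast
  rw [Real.log_prod (fun q hq => by
    have := (mem_filter.1 hq).2.pos
    positivity)]
  apply sum_congr rfl
  intro q _
  rw [Real.log_pow]

/-- the conditions `(p, t)` -/
def idxr (T : Finset ℕ) (e : ℕ → ℕ) (β : ℕ → ℤ) : Finset (Σ _ : ℕ, ℕ) :=
  T.sigma (fun p => Icc 1 (e p - 2 * padicValInt p (β p)))

/-- `a` satisfies the condition `(p, t)` -/
def Cdr (β : ℕ → ℤ) (x : Σ _ : ℕ, ℕ) (a : ℤ) : Prop :=
  ((x.1 : ℤ) ^ (2 * padicValInt x.1 (β x.1) + x.2)) ∣ a - β x.1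

theorem W1a_eq (T : Finset ℕ) (e : ℕ → ℕ) (β : ℕ → ℤ) :
    W1a T e β = ∑ x ∈ idxr T e β, Real.log (x.1 : ℝ) := by
  unfold W1a idxr
  rw [sum_sigma]
  apply sum_congr rfl
  intro p _
  simp only [sum_const, Nat.card_Icc, nsmul_eq_mul, Nat.add_sub_cancel]

open Classical in
/-- every condition is popular -/
theorem cdr_card {κ : ℝ} {A : Finset ℤ} {T : Finset ℕ} {e : ℕ → ℕ} {β : ℕ → ℤ}
    (h : Pop κ A T e β) {x : Σ _ : ℕ, ℕ} (hx : x ∈ idxr T e β) :
    κ * (A.card : ℝ) ≤ ((A.filter (fun a => Cdr β x a)).card : ℝ) := by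
  unfold idxr at hx
  rw [mem_sigma, mem_Icc] at hx
  refine (h.2.2 x.1 hx.1).trans ?_
  apply Nat.cast_le.2
  apply card_le_card
  intro a ha
  rw [mem_filter] at ha ⊢
  refine ⟨ha.1, ?_⟩
  unfold Cdr
  exact (pow_dvd_pow _ (by omega)).trans ha.2

/-- an element satisfying a condition has the valuation of `β` -/
theorem val_le {p : ℕ} (hp : p.Prime) {a β : ℤ} (ha : a ≠ 0) (hβ : β ≠ 0) {s : ℕ}
    (hs : padicValInt p β < s) (h : ((p : ℤ) ^ s) ∣ a - β) :
    a.natAbs.factorization p ≤ padicValInt p β := by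
  have := Fact.mk hp
  by_contra hcon
  push Not at hcon
  have h1 : p ^ (padicValInt p β + 1) ∣ a.natAbs :=
    (hp.pow_dvd_iff_le_factorization (Int.natAbs_ne_zero.2 ha)).2 hcon
  have h2 : ((p : ℤ) ^ (padicValInt p β + 1)) ∣ a := by
    have h3 : ((p ^ (padicValInt p β + 1) : ℕ) : ℤ) ∣ a := Int.natCast_dvd.2 h1
    push_cast at h3
    exact h3
  have h4 : ((p : ℤ) ^ (padicValInt p β + 1)) ∣ β := by
    have h5 := dvd_sub h2 ((pow_dvd_pow (p : ℤ) (by omega : padicValInt p β + 1 ≤ s)).trans h)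
    simpa using h5
  rw [padicValInt_dvd_iff] at h4
  rcases h4 with h4 | h4
  · exact hβ h4
  · omega

/-- the common conditions of two different elements of a cell -/
theorem pair_r {T : Finset ℕ} {e : ℕ → ℕ} {β : ℕ → ℤ} (hT : ∀ p ∈ T, p.Prime)
    (hβ : ∀ p ∈ T, β p ≠ 0) {n : ℕ} {lam : ℕ → ℕ} {a a' : ℤ} (ha : a ≠ 0) (ha' : a' ≠ 0)
    (hne : a ≠ a') (hc : Cell (Dn n lam) a a') [∀ x, Decidable (Cdr β x a ∧ Cdr β x a')] :
    (∑ x ∈ idxr T e β, if Cdr β x a ∧ Cdr β x a' then Real.log (x.1 : ℝ) else 0) ≤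
      Wt n lam + Real.log 2 := by
  obtain ⟨z, hz, hzb⟩ := cell_int ha ha' hc
  have hD : 0 < Dn n lam := Dn_pos n lam
  have hz0 : z ≠ 0 := by
    intro h0
    rw [h0, zero_mul] at hz
    rcases mul_eq_zero.1 hz with h | h
    · have : Dn n lam = 0 := by exact_mod_cast h
      omega
    · exact hne (by (clear * - h; linarith only [h]))
  have hzn : z.natAbs ≠ 0 := Int.natAbs_ne_zero.2 hz0
  have key : (∑ x ∈ idxr T e β, if Cdr β x a ∧ Cdr β x a' then Real.log (x.1 : ℝ) else 0) ≤
      ∑ p ∈ T, (z.natAbs.factorization p : ℝ) * Real.log p := by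
    unfold idxr
    rw [sum_sigma]
    apply sum_le_sum
    intro p hp
    have hc1 : ∀ t ∈ (Icc 1 (e p - 2 * padicValInt p (β p))).filter
        (fun t => Cdr β ⟨p, t⟩ a ∧ Cdr β ⟨p, t⟩ a'),
        Real.log ((⟨p, t⟩ : Σ _ : ℕ, ℕ).1 : ℝ) = Real.log (p : ℝ) := fun t _ => rfl
    rw [← sum_filter, sum_congr rfl hc1, sum_const, nsmul_eq_mul]
    apply mul_le_mul_of_nonneg_right _ (Real.log_natCast_nonneg _)
    have hsub : (Icc 1 (e p - 2 * padicValInt p (β p))).filter
        (fun t => Cdr β ⟨p, t⟩ a ∧ Cdr β ⟨p, t⟩ a') ⊆ Icc 1 (z.natAbs.factorization p) := by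
      intro t ht
      rw [mem_filter, mem_Icc] at ht
      rw [mem_Icc]
      refine ⟨ht.1.1, ?_⟩
      have h1 : ((p : ℤ) ^ (2 * padicValInt p (β p) + t)) ∣ a - β p := ht.2.1
      have h2 : ((p : ℤ) ^ (2 * padicValInt p (β p) + t)) ∣ a' - β p := ht.2.2
      have hlt : padicValInt p (β p) < 2 * padicValInt p (β p) + t := by omega
      have h3 := val_le (hT p hp) ha (hβ p hp) hlt h1
      have h4 := val_le (hT p hp) ha' (hβ p hp) hlt h2
      have h5 : ((p : ℤ) ^ (2 * padicValInt p (β p) + t)) ∣ z * (a * a') := by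
        rw [← hz]
        apply Dvd.dvd.mul_left
        have h6 := dvd_sub h2 h1
        have h7 : a' - β p - (a - β p) = a' - a := by ring
        rwa [h7] at h6
      have h8 : p ^ (2 * padicValInt p (β p) + t) ∣ z.natAbs * (a.natAbs * a'.natAbs) := by
        have h9 := Int.natAbs_dvd_natAbs.mpr h5
        rwa [Int.natAbs_pow, Int.natAbs_natCast, Int.natAbs_mul, Int.natAbs_mul] at h9
      have han : a.natAbs ≠ 0 := Int.natAbs_ne_zero.2 ha
      have han' : a'.natAbs ≠ 0 := Int.natAbs_ne_zero.2 ha'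
      rw [(hT p hp).pow_dvd_iff_le_factorization (mul_ne_zero hzn (mul_ne_zero han han')),
        Nat.factorization_mul hzn (mul_ne_zero han han'), Nat.factorization_mul han han',
        Finsupp.add_apply, Finsupp.add_apply] at h8
      omega
    have := card_le_card hsub
    rw [Nat.card_Icc, Nat.add_sub_cancel] at this
    exact_mod_cast this
  refine key.trans ((sum_fact_le hzn).trans ?_)
  have h1 : (z.natAbs : ℝ) ≤ 2 * (Dn n lam : ℝ) := by
    rw [Nat.cast_natAbs]
    push_cast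
    exact hzb
  have h2 : (0 : ℝ) < z.natAbs := by exact_mod_cast Nat.pos_of_ne_zero hzn
  have h3 : (0 : ℝ) < Dn n lam := by exact_mod_cast hD
  have h4 := Real.log_le_log h2 h1
  rw [Real.log_mul (by norm_num) h3.ne', log_Dn] at h4
  linarith only [h4]

theorem val_Dn {n : ℕ} {lam : ℕ → ℕ} {q : ℕ} (hq : q.Prime) :
    (Dn n lam).factorization q ≤ lam q := by
  unfold Dn
  rw [Nat.factorization_prod (fun q' hq' => pow_ne_zero _ (mem_filter.1 hq').2.pos.ne'),
    Finsupp.finsetSum_apply]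
  have h1 : ∀ q' ∈ (range n).filter Nat.Prime, (q' ^ lam q').factorization q =
      if q' = q then lam q else 0 := by
    intro q' hq'
    rw [Nat.factorization_pow, (mem_filter.1 hq').2.factorization]
    by_cases h : q' = q
    · subst h; simp
    · simp [h]
  rw [sum_congr rfl h1, sum_ite_eq']
  split_ifs
  · exact le_rfl
  · exact Nat.zero_le _

/-- the valuations in a cell -/
theorem cell_val {n : ℕ} {lam : ℕ → ℕ} {b b' : ℤ} (hb : b ≠ 0) (hb' : b' ≠ 0)
    (hc : Cell (Dn n lam) b b') {q : ℕ} (hq : q.Prime)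
    (hlt : padicValInt q b < padicValInt q b') : padicValInt q b' ≤ lam q := by
  have := Fact.mk hq
  obtain ⟨z, hz, -⟩ := cell_int hb hb' hc
  have hD : 0 < Dn n lam := Dn_pos n lam
  by_contra hcon
  push Not at hcon
  set v := padicValInt q b with hv
  set w := padicValInt q b' with hw
  have h1 : (q : ℤ) ^ v ∣ b := padicValInt_dvd_iff v b |>.2 (Or.inr le_rfl)
  have h2 : (q : ℤ) ^ w ∣ b' := padicValInt_dvd_iff w b' |>.2 (Or.inr le_rfl)
  obtain ⟨c, hc1⟩ := h1
  obtain ⟨c', hc2⟩ := h2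
  have hqp : Prime (q : ℤ) := Nat.prime_iff_prime_int.1 hq
  have hqv : (q : ℤ) ^ v ≠ 0 := pow_ne_zero _ hqp.ne_zero
  have hcq : ¬ (q : ℤ) ∣ c := by
    intro hd
    have h3 : (q : ℤ) ^ (v + 1) ∣ b := by
      rw [hc1, pow_succ]
      exact mul_dvd_mul_left _ hd
    rw [padicValInt_dvd_iff] at h3
    rcases h3 with h3 | h3
    · exact hb h3
    · omega
  -- `D (q^(w-v) c' - c) = z q^w c c'`
  have hwv : (q : ℤ) ^ w = (q : ℤ) ^ v * (q : ℤ) ^ (w - v) := by
    rw [← pow_add]
    congr 1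
    omega
  have h4 : (Dn n lam : ℤ) * ((q : ℤ) ^ (w - v) * c' - c) = (q : ℤ) ^ w * (z * (c * c')) := by
    apply mul_left_cancel₀ hqv
    have h5 : (q : ℤ) ^ v * ((Dn n lam : ℤ) * ((q : ℤ) ^ (w - v) * c' - c)) =
        (Dn n lam : ℤ) * (b' - b) := by
      rw [hc1, hc2, hwv]; ring
    rw [h5, hz, hc1, hc2]
    ring
  have h6 : ¬ (q : ℤ) ∣ ((q : ℤ) ^ (w - v) * c' - c) := by
    intro hd
    apply hcq
    have h7 : (q : ℤ) ∣ (q : ℤ) ^ (w - v) * c' :=
      (dvd_pow_self _ (by omega)).mul_right _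
    have h8 := dvd_sub h7 hd
    simpa using h8
  have h9 : (q : ℤ) ^ w ∣ (Dn n lam : ℤ) := by
    have h10 : (q : ℤ) ^ w ∣ (Dn n lam : ℤ) * ((q : ℤ) ^ (w - v) * c' - c) := by
      rw [h4]; exact dvd_mul_right _ _
    have hcop : IsCoprime ((q : ℤ) ^ w) ((q : ℤ) ^ (w - v) * c' - c) :=
      IsCoprime.pow_left ((Prime.coprime_iff_not_dvd hqp).2 h6)
    exact hcop.dvd_of_dvd_mul_right h10
  have h11 : q ^ w ∣ Dn n lam := by exact_mod_cast h9
  rw [hq.pow_dvd_iff_le_factorization hD.ne'] at h11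
  have := val_Dn (n := n) (lam := lam) hq
  omega

theorem cell_symm {D : ℕ} {b b' : ℤ} (h : Cell D b b') : Cell D b' b := by
  obtain ⟨z, hz⟩ := h
  refine ⟨-z, ?_⟩
  push_cast
  rw [← hz]
  ring

/-- the elements of a cell are close -/
theorem cell_close {n : ℕ} {lam : ℕ → ℕ} (hlam : ∀ q, n ≤ q → lam q = 0) {L : ℝ} (hL : 0 < L)
    {b b' : ℤ} (hb : b ≠ 0) (hb' : b' ≠ 0) (hc : Cell (Dn n lam) b b') :
    Close (Ures 1 1 L (Wt n lam) lam) b b' := by
  intro q hq
  have hlog : 0 < Real.log (q : ℝ) := Real.log_pos (by exact_mod_cast hq.one_lt)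
  have h1 : |((padicValInt q b : ℤ) - padicValInt q b')| ≤ (lam q : ℤ) := by
    rcases lt_trichotomy (padicValInt q b) (padicValInt q b') with h | h | h
    · have h2 := cell_val hb hb' hc hq h
      rw [abs_le]
      constructor <;> omega
    · rw [h]; simp
    · have h2 := cell_val hb' hb (cell_symm hc) hq h
      rw [abs_le]
      constructor <;> omega
  unfold Ures
  by_cases h0 : lam q = 0
  · rw [if_pos h0]
    rw [h0] at h1
    push_cast at h1 ⊢
    omega
  · rw [if_neg h0]
    have hqn : q < n := by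
      by_contra h
      exact h0 (hlam q (not_lt.1 h))
    have hl1 : (1 : ℝ) ≤ lam q := by exact_mod_cast Nat.one_le_iff_ne_zero.2 h0
    have hterm : (lam q : ℝ) * Real.log q ≤ Wt n lam := by
      unfold Wt
      exact single_le_sum (f := fun q : ℕ => (lam q : ℝ) * Real.log q)
        (fun i _ => mul_nonneg (Nat.cast_nonneg _) (Real.log_natCast_nonneg i))
        (mem_filter.2 ⟨mem_range.2 hqn, hq⟩)
    have hWpos : 0 < Wt n lam := by (clear * - hlog hterm hl1; nlinarith only [hlog, hl1, hterm])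
    have h3 : 0 < ⌈1 * Wt n lam / (L * Real.log q)⌉₊ := by
      rw [Nat.ceil_pos]
      (clear * - hWpos hL hlog; positivity)
    push_cast
    have h4 : (0 : ℤ) < ((⌈1 * Wt n lam / (L * Real.log q)⌉₊ : ℕ) : ℤ) := by exact_mod_cast h3
    have h5 : (1 : ℤ) * (lam q : ℤ) = lam q := one_mul _
    linarith only [h1, h4]

end Pool.Agent.Helper99.RT
end

/- Helper24.TT.H99.RT.NR -/
section
/-!
# Project RT (MP_120218_co): the structure theorem for sums of reciprocals (R4, R5)
-/

set_option autoImplicit false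

open Finset

namespace Pool.Agent.Helper99.RT

open Pool.Agent.Helper26.TR Pool.Agent.Helper88.RT Pool.Agent.Helper34.TR

/-- **The structure theorem for sums of reciprocals**, from the decoding corollary and the
count. -/
theorem nrMix_of (hcor : CorR) (hcount : CountS) : NRMix := by
  classical
  intro k ε hε θ hθ hθ1
  set ζ : ℝ := ε / (4 * (k + 1)) with hζ
  have hk1 : (0 : ℝ) < (k : ℝ) + 1 := by (clear * -; positivity)
  have hζ0 : 0 < ζ := by (clear * - hε; positivity)
  obtain ⟨κ₀, hκ₀, hκ₀1, hmain⟩ := hcor k ζ hζ0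
  obtain ⟨δ, n₀, hδ, hcnt⟩ := hcount 1 1 ζ one_pos hζ0
  set ρ : ℝ := θ * κ₀ / 2 with hρ
  have hρ0 : 0 < ρ := by positivity
  have hρ1 : ρ ≤ 1 := by
    have : θ * κ₀ ≤ 1 * 1 := mul_le_mul hθ1 hκ₀1 hκ₀.le zero_le_one
    rw [hρ]; linarith only [this]
  have hρκ : ρ ≤ κ₀ := by
    have : θ * κ₀ ≤ 1 * κ₀ := mul_le_mul_of_nonneg_right hθ1 hκ₀.le
    rw [hρ]; linarith only [hρ, hρ0, this]
  set κ : Fin k → ℝ := fun l => ρ ^ ((l : ℕ) + 1) with hκ
  have hκpos : ∀ l, 0 < κ l := fun l => by simp only [hκ]; (clear * - hθ hκ₀; positivity)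
  have hκle : ∀ l, κ l ≤ 1 := fun l => by
    simp only [hκ]
    exact pow_le_one₀ hρ0.le hρ1
  have hκle' : ∀ l, κ l ≤ κ₀ := fun l => by
    simp only [hκ]
    calc ρ ^ ((l : ℕ) + 1) ≤ ρ ^ 1 :=
          pow_le_pow_of_le_one hρ0.le hρ1 (by omega)
      _ = ρ := pow_one _
      _ ≤ κ₀ := hρκ
  have hκstep : ∀ l l' : Fin k, l' < l → κ l ≤ κ₀ * (θ * κ l' / 2) := by
    intro l l' hl
    simp only [hκ]
    have h1 : κ₀ * (θ * ρ ^ ((l' : ℕ) + 1) / 2) = ρ ^ ((l' : ℕ) + 1 + 1) := by
      rw [pow_succ ρ ((l' : ℕ) + 1), hρ]; ring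
    rw [h1]
    apply pow_le_pow_of_le_one hρ0.le hρ1
    have : (l' : ℕ) < l := hl
    omega
  set κm : ℝ := θ * ρ ^ (k + 1) with hκm
  have hκm0 : 0 < κm := by (clear * - hθ hκ₀; positivity)
  have hκml : ∀ l, κm ≤ θ * κ l := fun l => by
    simp only [hκ, hκm]
    apply mul_le_mul_of_nonneg_left _ hθ.le
    exact pow_le_pow_of_le_one hρ0.le hρ1 (by have := l.2; omega)
  set B : ℝ := 8 / κm ^ 2 with hB
  have hB0 : 0 < B := by (clear * - hθ hκ₀; positivity)
  set C' : ℝ := 8 / κm ^ 2 with hC'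
  have hC'0 : 0 < C' := by positivity
  -- a threshold for `N`
  obtain ⟨n₁, hn₁⟩ : ∃ n₁ : ℕ, ∀ N : ℕ, n₁ ≤ N → B ≤ (N : ℝ) ^ ζ := by
    have ht : Filter.Tendsto (fun N : ℕ => (N : ℝ) ^ ζ) Filter.atTop Filter.atTop :=
      (tendsto_rpow_atTop hζ0).comp tendsto_natCast_atTop_atTop
    obtain ⟨n₁, hn₁⟩ := (Filter.tendsto_atTop.1 ht B).exists_forall_of_atTop
    exact ⟨n₁, hn₁⟩
  set n₂ : ℕ := max (max n₀ n₁) 16 with hn₂
  set D : ℝ := ∑ l, Real.log (θ * κ l / 2) - k * (Real.log 2 + 1) with hD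
  set c : ℝ := min (min δ 1) (min (1 / (n₂ : ℝ) ^ k) (Real.exp D)) with hc
  have hn₂0 : (0 : ℝ) < n₂ := by
    have : 0 < n₂ := by omega
    exact_mod_cast this
  have hc0 : 0 < c := lt_min (lt_min hδ one_pos) (lt_min (by (clear * -; positivity)) (Real.exp_pos _))
  have hcδ : c ≤ δ := (min_le_left _ _).trans (min_le_left _ _)
  have hc1 : c ≤ 1 := (min_le_left _ _).trans (min_le_right _ _)
  have hcn : c ≤ 1 / (n₂ : ℝ) ^ k := (min_le_right _ _).trans (min_le_left _ _)
  have hcD : c ≤ Real.exp D := (min_le_right _ _).trans (min_le_right _ _)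
  clear_value c
  refine ⟨κ, C', c, fun l => ⟨hκpos l, hκle l⟩, hC'0, hc0, ?_⟩
  intro N A hAne hA0 hAN hrec
  by_contra hcon
  push Not at hcon
  have hrecne : (recSum A).Nonempty := by
    unfold recSum
    apply Nonempty.image
    rw [Fintype.piFinset_nonempty]
    exact hAne
  have hrec1 : (1 : ℝ) ≤ ((recSum A).card : ℝ) := by exact_mod_cast card_pos.2 hrecne
  have hprodpos : (0 : ℝ) < ∏ l, ((A l).card : ℝ) :=
    prod_pos fun l _ => by exact_mod_cast card_pos.2 (hAne l)
  have hN1 : 1 ≤ N := by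
    by_contra h
    have hN0 : N = 0 := by omega
    subst hN0
    rw [Nat.cast_zero, Real.zero_rpow (by linarith only [hε])] at hrec
    linarith only [hrec]
  have hNpos : (0 : ℝ) < N := by exact_mod_cast hN1
  have hNε : (N : ℝ) ^ (-ε) ≤ 1 := by
    apply Real.rpow_le_one_of_one_le_of_nonpos (by exact_mod_cast hN1) (by linarith only [hε])
  rcases lt_or_ge N n₂ with hlt | hge
  · -- small `N`
    have h1 : ∏ l, ((A l).card : ℝ) ≤ (n₂ : ℝ) ^ k := by
      calc ∏ l, ((A l).card : ℝ) ≤ ∏ _l : Fin k, (n₂ : ℝ) := by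
            apply prod_le_prod
            · intro l _; (clear * - hAne hc hc0 hcδ hc1 hcn hcD hrec hcon; positivity)
            · intro l _
              have := hAN l
              exact_mod_cast this.trans hlt.le
        _ = (n₂ : ℝ) ^ k := by rw [prod_const, card_univ, Fintype.card_fin]
    have h2 : c * (N : ℝ) ^ (-ε) * ∏ l, ((A l).card : ℝ) ≤ 1 := by
      calc c * (N : ℝ) ^ (-ε) * ∏ l, ((A l).card : ℝ)
          ≤ (1 / (n₂ : ℝ) ^ k) * 1 * (n₂ : ℝ) ^ k := by
            apply mul_le_mul _ h1 hprodpos.le (by (clear * -; positivity))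
            exact mul_le_mul hcn hNε (by (clear * - hN1; positivity)) (by (clear * -; positivity))
        _ = 1 := by (clear * - hn₂0; field_simp)
    linarith only [hrec, hrec1, h2]
  · have hNn₀ : n₀ ≤ N := by omega
    have hNn₁ : n₁ ≤ N := by omega
    have hN16 : 16 ≤ N := by omega
    set L : ℝ := Real.log N with hL
    have hL1 : 1 ≤ L := by
      rw [hL, Real.le_log_iff_exp_le hNpos]
      have h3 : Real.exp 1 < 2.7182818286 := Real.exp_one_lt_d9
      have h4 : (16 : ℝ) ≤ N := by exact_mod_cast hN16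
      (clear * - h3 h4; linarith only [h3, h4])
    have hL0 : 0 < L := by linarith only [hL1]
    have hLL : 0 ≤ L * Real.log L := mul_nonneg (by linarith only [hL0]) (Real.log_nonneg hL1)
    have hNζ : B ≤ (N : ℝ) ^ ζ := hn₁ N hNn₁
    have hNζ1 : (1 : ℝ) ≤ (N : ℝ) ^ ζ := Real.one_le_rpow (by exact_mod_cast hN1) hζ0.le
    set M : ℕ := ⌈(N : ℝ) ^ ζ⌉₊ with hM
    have hMle : (N : ℝ) ^ ζ ≤ M := Nat.le_ceil _
    have hM1 : 1 ≤ M := by
      have : (1 : ℝ) ≤ M := hNζ1.trans hMle
      exact_mod_cast this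
    have hlogM : Real.log M ≤ ζ * L + Real.log 2 := by
      have h5 : (M : ℝ) ≤ 2 * (N : ℝ) ^ ζ := by
        have := Nat.ceil_lt_add_one (show 0 ≤ (N : ℝ) ^ ζ by (clear * - hN1; positivity))
        rw [← hM] at this
        linarith only [hNζ1, this]
      have h6 := Real.log_le_log (by exact_mod_cast hM1) h5
      rw [Real.log_mul (by norm_num) (by (clear * - hN1; positivity)), Real.log_rpow hNpos] at h6
      linarith only [h6]
    -- the dichotomy
    have hdich : ∀ l : Fin k, 0 < (l : ℕ) →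
        (∃ (T : Finset ℕ) (e : ℕ → ℕ) (β : ℕ → ℤ), Pop (θ * κ l) (A l) T e β ∧
          C' * (W0b (κ l) A l + 1) < W1a T e β) ∨ W0b (κ l) A l < c * (L * Real.log L) := by
      intro l hl
      by_contra h
      push Not at h
      exact absurd (hcon l hl h.1) (not_lt.2 h.2)
    -- choose the sets
    have hchoice : ∀ l : Fin k, ∃ Z : Finset ℤ, Z ⊆ A l ∧
        θ * κ l / 2 * ((A l).card : ℝ) ≤ (Z.card : ℝ) ∧
        (0 < (l : ℕ) → ∀ b ∈ Z,
          (Z.filter (fun b' => Cell (Dn (bd A) (lamS κ A l)) b b')).card ≤ M) := by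
      intro l
      have hκpl := hκpos l
      have hθκ : θ * κ l / 2 ≤ 1 := by
        have : θ * κ l ≤ 1 * 1 := mul_le_mul hθ1 (hκle l) (hκpos l).le zero_le_one
        linarith only [this]
      have hκA : θ * κ l / 2 * ((A l).card : ℝ) ≤ ((A l).card : ℝ) := by
        calc θ * κ l / 2 * ((A l).card : ℝ) ≤ 1 * ((A l).card : ℝ) :=
              mul_le_mul_of_nonneg_right hθκ (Nat.cast_nonneg _)
          _ = _ := one_mul _
      rcases Nat.eq_zero_or_pos (l : ℕ) with hl | hl
      · exact ⟨A l, Subset.rfl, hκA, fun h => absurd h (by omega)⟩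
      · rcases hdich l hl with ⟨T, e, β, hpop, hWlt⟩ | hsmall
        · have hWb := W0b_nonneg (κ l) A l
          have hθκ0 : 0 < θ * κ l := mul_pos hθ hκpl
          have hWpos : 0 < W1a T e β := lt_of_le_of_lt (by (clear * - hθ hκ₀ hWb; positivity)) hWlt
          have hlogs : ∀ x ∈ idxr T e β, 0 ≤ Real.log (x.1 : ℝ) :=
            fun _ _ => Real.log_natCast_nonneg _
          have hWs : 0 < ∑ x ∈ idxr T e β, Real.log (x.1 : ℝ) := by
            rw [← W1a_eq]; exact hWpos
          have hcardZ : θ * κ l / 2 * ((A l).card : ℝ) ≤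
              ((Zc (idxr T e β) (fun x => Real.log (x.1 : ℝ)) (Cdr β) (θ * κ l) (A l)).card : ℝ) :=
            Zc_card hθκ0 hlogs (fun x hx => cdr_card hpop hx) hWs
          refine ⟨Zc (idxr T e β) (fun x => Real.log (x.1 : ℝ)) (Cdr β) (θ * κ l) (A l),
            Zc_subset _ _, hcardZ, ?_⟩
          intro _ b hb
          set G := (Zc (idxr T e β) (fun x => Real.log (x.1 : ℝ)) (Cdr β) (θ * κ l)
            (A l)).filter (fun b' => Cell (Dn (bd A) (lamS κ A l)) b b') with hG
          have hne0 : ∀ a ∈ Zc (idxr T e β) (fun x => Real.log (x.1 : ℝ)) (Cdr β) (θ * κ l)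
              (A l), a ≠ 0 := by
            intro a ha h0
            exact hA0 l (h0 ▸ Zc_subset _ _ ha)
          have hβ : ∀ p ∈ T, β p ≠ 0 := by
            intro p hp h0
            apply hpop.2.1 p hp
            rw [h0]
            exact dvd_zero _
          have hlog20 : 0 < Real.log 2 := Real.log_pos (by norm_num)
          have hcell := cellsC (I := idxr T e β) (wt := fun x => Real.log (x.1 : ℝ))
            (Cd := Cdr β) hθκ0 (A := A l) hlogs (w := W0b (κ l) A l + Real.log 2) (by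
              rw [← W1a_eq]
              have h9 : κm ^ 2 ≤ (θ * κ l) ^ 2 := pow_le_pow_left₀ hκm0.le (hκml l) 2
              have h10 : κm ^ 2 * C' = 8 := by
                rw [hC']; (clear * - hκm0; field_simp)
              have h11 : κm ^ 2 * C' ≤ (θ * κ l) ^ 2 * C' :=
                mul_le_mul_of_nonneg_right h9 hC'0.le
              have hlog2 : Real.log 2 ≤ 1 := by
                have := Real.log_two_lt_d9
                linarith only [this]
              have h12 : (θ * κ l) ^ 2 * (C' * (W0b (κ l) A l + 1)) ≤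
                  (θ * κ l) ^ 2 * W1a T e β :=
                mul_le_mul_of_nonneg_left hWlt.le (by positivity)
              have h13 : 8 * (W0b (κ l) A l + 1) ≤
                  (θ * κ l) ^ 2 * C' * (W0b (κ l) A l + 1) :=
                mul_le_mul_of_nonneg_right (by linarith only [h10, h11]) (by (clear * - hWb; positivity))
              linarith only [hlog2, h12, h13]) (by (clear * - hWb; positivity)) hWs (G := G) (filter_subset _ _) (by
              intro a ha a' ha' hne
              rw [hG, mem_filter] at ha ha'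
              have h14 := pair_r (e := e) hpop.1 hβ (hne0 a ha.1) (hne0 a' ha'.1) hne
                (cell_trans ha.2 ha'.2)
              rw [Wt_eq hA0] at h14
              exact h14)
          have h15 : (8 : ℝ) / (θ * κ l) ^ 2 ≤ B := by
            rw [hB]
            apply div_le_div_of_nonneg_left (by norm_num) (by positivity)
            exact pow_le_pow_left₀ hκm0.le (hκml l) 2
          have h16 : (G.card : ℝ) ≤ M := hcell.trans (h15.trans (hNζ.trans hMle))
          exact_mod_cast h16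
        · refine ⟨A l, Subset.rfl, hκA, ?_⟩
          intro _ b hb
          have hb0 : b ≠ 0 := fun h0 => hA0 l (h0 ▸ hb)
          have h17 : Wt (bd A) (lamS κ A l) < δ * (L * Real.log L) := by
            rw [Wt_eq hA0]
            exact lt_of_lt_of_le hsmall (mul_le_mul_of_nonneg_right hcδ hLL)
          have h18 := hcnt N (bd A) (lamS κ A l) hNn₀ (lamS_zero hA0 l) h17 (A l) b (hA0 l)
          have h19 : (((A l).filter (fun b' =>
              Cell (Dn (bd A) (lamS κ A l)) b b')).card : ℝ) ≤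
              ((A l).filter (fun b' =>
                Close (Ures 1 1 L (Wt (bd A) (lamS κ A l)) (lamS κ A l)) b b')).card := by
            apply Nat.cast_le.2
            apply card_le_card
            intro x hx
            rw [mem_filter] at hx ⊢
            refine ⟨hx.1, ?_⟩
            have hx0 : x ≠ 0 := fun h0 => hA0 l (h0 ▸ hx.1)
            exact cell_close (lamS_zero hA0 l) hL0 hb0 hx0 hx.2
          have h20 := h19.trans (h18.trans hMle)
          exact_mod_cast h20
    choose Y hYA hYcard hYcell using hchoice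
    have hYne : ∀ l, (Y l).Nonempty := by
      intro l
      rw [← card_pos]
      have h21 : (0 : ℝ) < (Y l).card := by
        have h22 : (0 : ℝ) < (A l).card := by exact_mod_cast card_pos.2 (hAne l)
        have := hκpos l
        exact lt_of_lt_of_le (by (clear * - hθ hκ₀ hAne hc hc0 hcδ hc1 hcn hcD hrec hcon hdich; positivity)) (hYcard l)
      exact_mod_cast h21
    have hYN : ∀ l, ((Y l).card : ℝ) ≤ Real.exp L := by
      intro l
      rw [hL, Real.exp_log hNpos]
      exact_mod_cast (card_le_card (hYA l)).trans (hAN l)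
    have key := hmain Y L M (bd A) (lamS κ A) hL1 hM1 hYne (fun l h => hA0 l (hYA l h)) hYN
      (fun l q hq => lamS_zero hA0 l q hq) (by
        intro l l' hl q hq
        have hlevle : lev (κ l) (A l') q ≤ lamS κ A l q := by
          unfold lamS
          exact single_le_sum (f := fun l' => lev (κ l) (A l') q) (fun _ _ => Nat.zero_le _)
            (mem_filter.2 ⟨mem_univ _, hl⟩)
        have h23 := cdiv_lt (hκpos l) (hAne l') (hA0 l') hq
          (l := lamS κ A l q + 1) (by omega)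
        have h24 : (((Y l').filter (fun b => (q : ℤ) ^ (lamS κ A l q + 1) ∣ b)).card : ℝ) ≤
            (cdiv (A l') ((q : ℤ) ^ (lamS κ A l q + 1)) : ℝ) := by
          unfold cdiv
          apply Nat.cast_le.2
          exact card_le_card (filter_subset_filter _ (hYA l'))
        refine h24.trans (h23.le.trans ?_)
        have h25 := hYcard l'
        have h26 := hκstep l l' hl
        calc κ l * ((A l').card : ℝ) ≤ κ₀ * (θ * κ l' / 2) * ((A l').card : ℝ) :=
              mul_le_mul_of_nonneg_right h26 (Nat.cast_nonneg _)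
          _ = κ₀ * (θ * κ l' / 2 * ((A l').card : ℝ)) := by ring
          _ ≤ κ₀ * (Y l').card := mul_le_mul_of_nonneg_left h25 hκ₀.le)
      (fun l hl b hb => hYcell l hl b hb)
    have hsub : recSum Y ⊆ recSum A := by
      unfold recSum
      apply image_subset_image
      intro f hf
      rw [Fintype.mem_piFinset] at hf ⊢
      exact fun l => hYA l (hf l)
    have hYprodne : (recSum Y).Nonempty := by
      unfold recSum
      apply Nonempty.image
      rw [Fintype.piFinset_nonempty]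
      exact hYne
    have h27 : Real.log ((recSum Y).card) ≤ Real.log ((recSum A).card : ℝ) := by
      apply Real.log_le_log
      · exact_mod_cast card_pos.2 hYprodne
      · exact_mod_cast card_le_card hsub
    have h28 : Real.log ((recSum A).card : ℝ) <
        Real.log c + -ε * L + ∑ l, Real.log ((A l).card : ℝ) := by
      have h29 := Real.log_lt_log (by linarith only [hrec1]) hrec
      rw [Real.log_mul (by (clear * - hc0 hN1; positivity)) hprodpos.ne', Real.log_mul hc0.ne' (by (clear * - hN1; positivity)),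
        Real.log_rpow hNpos, Real.log_prod (fun l _ => by
          have := card_pos.2 (hAne l)
          (clear * - hAne hc hc0 hcδ hc1 hcn hcD hrec hcon hdich h29; positivity))] at h29
      exact h29
    have h30 : ∑ l, Real.log ((A l).card : ℝ) + ∑ l, Real.log (θ * κ l / 2) ≤
        ∑ l, Real.log ((Y l).card : ℝ) := by
      rw [← sum_add_distrib]
      apply sum_le_sum
      intro l _
      have hAp : (0 : ℝ) < (A l).card := by exact_mod_cast card_pos.2 (hAne l)
      have hκp := hκpos l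
      rw [add_comm, ← Real.log_mul (by positivity) hAp.ne']
      exact Real.log_le_log (by (clear * - hθ hκ₀ hAne hc hc0 hcδ hc1 hcn hcD hrec hcon hdich h28; positivity)) (hYcard l)
    have h31 : Real.log c ≤ D := by
      rw [← Real.log_exp D]
      exact Real.log_le_log hc0 hcD
    have h32 : (k : ℝ) * (ζ * L + Real.log M) ≤ k * (2 * ζ * L + Real.log 2) := by
      apply mul_le_mul_of_nonneg_left _ (Nat.cast_nonneg _)
      linarith only [hlogM]
    have h33 : (k : ℝ) * (2 * ζ) ≤ ε := by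
      rw [hζ]
      have : (k : ℝ) * (2 * (ε / (4 * (k + 1)))) = ε * (k / (2 * (k + 1))) := by
        field_simp
        ring
      rw [this]
      have h34 : (k : ℝ) / (2 * (k + 1)) ≤ 1 := by
        rw [div_le_one (by (clear * -; positivity))]
        have : (0 : ℝ) ≤ k := Nat.cast_nonneg _
        linarith only []
      calc ε * (k / (2 * (k + 1))) ≤ ε * 1 := mul_le_mul_of_nonneg_left h34 hε.le
        _ = ε := mul_one _
    have h35 : (k : ℝ) * (2 * ζ) * L ≤ ε * L := mul_le_mul_of_nonneg_right h33 (by linarith only [hL0])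
    rw [hD] at h31
    have h36 : (k : ℝ) * (2 * ζ * L + Real.log 2) =
        (k : ℝ) * (2 * ζ) * L + k * Real.log 2 := by ring
    have h37 : (0 : ℝ) ≤ k := Nat.cast_nonneg _
    have h38 : (k : ℝ) * (Real.log 2 + 1) = k * Real.log 2 + k := by ring
    linarith only [key, h27, h28, h30, h31, h32, h35]

/-- **The structure theorem for sums of reciprocals.** -/
theorem nrMix : NRMix := nrMix_of corR countS

end Pool.Agent.Helper99.RT
end
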