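import Mathlib
import Pool.Agent.Helper24.TG.G03
import Pool.Agent.Helper24.TG.G04
import Pool.Agent.Helper24.TG.G07

/- Helper24.TT.H99.TR.ZerA -/
section
/-!
# Project TR (MP_120218_co): popular valuations of the values of pairwise coprime polynomials
-/

set_option autoImplicit false

open Finset Polynomial

namespace Pool.Agent.Helper99.TR

open Pool.Agent.Helper26.TR Pool.Agent.Helper88.NZ

/-- primitive polynomials of degree between `1` and `d`, with coefficients at most `H` -/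
def Gd (d : ℕ) (H : ℤ) (F : ℤ[X]) : Prop :=
  F.IsPrimitive ∧ 1 ≤ F.natDegree ∧ F.natDegree ≤ d ∧ ∀ j, |F.coeff j| ≤ H

/-- **One-set inequality** for pairwise coprime primitive polynomials (after helper88's
`one_set` for irreducible polynomials). -/
theorem one_set {A : Finset ℤ} {d : ℕ} (hd : 1 ≤ d) (hA : 2 * d ≤ A.card) {κ : ℝ} (hκ0 : 0 < κ)
    (hκ1 : κ ≤ 1) (J : Finset ℤ[X]) (F : ℤ[X]) {H : ℤ} (hH : 1 ≤ H)
    (hJ : ∀ G ∈ J, Gd d H G) (hF : Gd d H F) (hFn : F ∉ J)
    (hres0 : ∀ G ∈ insert F J, ∀ G' ∈ insert F J, G ≠ G' → res G G' ≠ 0)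
    {V : ℝ} (hpop : ∀ (T : Finset ℕ) (e : ℕ → ℕ) (β : ℕ → ℤ),
      Pop (1 / (2 * (d : ℝ) ^ 3) * κ) (fz A F) T e β → W1 T e β ≤ V) :
    ∑ G ∈ J, W0 κ (fz A G) ≤ 2 * (d : ℝ) ^ 2 / κ * V + d * J.card *
      (((J.card : ℝ) + 1) ^ 2 * Real.log (((2 * d).factorial : ℝ) * (H : ℝ) ^ (2 * d))) := by
  classical
  have hdr : (1 : ℝ) ≤ d := by exact_mod_cast hd
  have hdr0 : (0 : ℝ) < d := by linarith only [hdr]
  have hAne : A.Nonempty := card_pos.1 (by omega)
  set P : Finset ℤ[X] := insert F J with hP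
  have hPgood : ∀ G ∈ P, Gd d H G := by
    intro G hG
    rcases mem_insert.1 hG with h | h
    · rw [h]; exact hF
    · exact hJ G h
  have hres : ∀ z ∈ P.offDiag, res z.1 z.2 ≠ 0 := by
    intro z hz
    rw [mem_offDiag] at hz
    exact hres0 _ hz.1 _ hz.2.1 hz.2.2
  set Λ : ℝ := Real.log (((2 * d).factorial : ℝ) * (H : ℝ) ^ (2 * d)) with hΛ
  have hHr : (1 : ℝ) ≤ H := by exact_mod_cast hH
  have hfac : (1 : ℝ) ≤ ((2 * d).factorial : ℝ) := by
    exact_mod_cast Nat.one_le_iff_ne_zero.2 (Nat.factorial_ne_zero _)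
  have hΛ0 : 0 ≤ Λ := by
    apply Real.log_nonneg
    calc (1 : ℝ) = 1 * 1 := by norm_num
      _ ≤ _ := mul_le_mul hfac (one_le_pow₀ hHr) (by norm_num) (by positivity)
  have hlogres : ∀ z ∈ P.offDiag, Real.log (res z.1 z.2).natAbs ≤ Λ := by
    intro z hz
    have hne := hres z hz
    rw [mem_offDiag] at hz
    have h1 := res_le (hPgood _ hz.1).2.2.1 (hPgood _ hz.2.1).2.2.1 hH (hPgood _ hz.1).2.2.2
      (hPgood _ hz.2.1).2.2.2
    have h2 : ((res z.1 z.2).natAbs : ℝ) ≤ ((2 * d).factorial : ℝ) * (H : ℝ) ^ (2 * d) := by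
      rw [Nat.cast_natAbs]
      exact_mod_cast h1
    apply Real.log_le_log _ h2
    exact_mod_cast Int.natAbs_pos.2 hne
  set FF : Finset ℕ := J.biUnion (fun G => prs (fz A G)) with hFF
  have hFFp : ∀ p ∈ FF, p.Prime := by
    intro p hp
    rw [hFF, mem_biUnion] at hp
    obtain ⟨x, _, hx⟩ := hp
    unfold prs at hx
    rw [mem_biUnion] at hx
    obtain ⟨a, _, ha⟩ := hx
    exact Nat.prime_of_mem_primeFactors ha
  have hWF : ∀ G ∈ J, W0 κ (fz A G) = ∑ q ∈ FF, (lev κ (fz A G) q : ℝ) * Real.log q := by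
    intro G hG
    exact Pool.Agent.Helper88.NZ.W0_eq _ (fz_zero A G) FF hFFp (subset_biUnion_of_mem (fun G => prs (fz A G)) hG)
  have hq0 : ∀ q : ℕ, 0 ≤ Real.log q := fun q => Real.log_natCast_nonneg q
  -- the levels
  set tt : ℤ[X] → ℕ → ℕ := fun G q => (lev κ (fz A G) q + (d - 1)) / d with htt
  have htt1 : ∀ G q, lev κ (fz A G) q ≤ d * tt G q := by
    intro G q
    have h1 := Nat.div_add_mod (lev κ (fz A G) q + (d - 1)) d
    have h2 := Nat.mod_lt (lev κ (fz A G) q + (d - 1)) (by omega : d > 0)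
    have h3 : d * tt G q = d * ((lev κ (fz A G) q + (d - 1)) / d) := rfl
    omega
  have htt2 : ∀ G q, tt G q ≤ lev κ (fz A G) q := by
    intro G q
    have h3 : tt G q = (lev κ (fz A G) q + (d - 1)) / d := rfl
    rw [h3]
    rcases Nat.eq_zero_or_pos (lev κ (fz A G) q) with h0 | h0
    · rw [h0, Nat.zero_add]
      have : (d - 1) / d = 0 := Nat.div_eq_of_lt (by omega)
      omega
    · apply Nat.div_le_of_le_mul
      have h4 : lev κ (fz A G) q * 1 ≤ lev κ (fz A G) q * d := Nat.mul_le_mul_left _ hd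
      obtain ⟨x, hx⟩ : ∃ x, lev κ (fz A G) q = x + 1 := ⟨_, (Nat.succ_pred_eq_of_pos h0).symm⟩
      rw [hx]
      have h5 : d * (x + 1) = d * x + d := by ring
      have h6 : x ≤ d * x := Nat.le_mul_of_pos_left x (by omega)
      omega
  have htt3 : ∀ G q, 1 ≤ tt G q → d * (tt G q - 1) < lev κ (fz A G) q := by
    intro G q h
    have h1 : d * tt G q ≤ lev κ (fz A G) q + (d - 1) := Nat.mul_div_le _ _
    have h2 : d * (tt G q - 1) = d * tt G q - d := by rw [Nat.mul_sub, Nat.mul_one]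
    have h3 : d ≤ d * tt G q := Nat.le_mul_of_pos_right d h
    omega
  set mu : ℕ → ℕ := fun q => J.sup (fun G => tt G q - rsep P q) with hmu
  have hnot : ∀ q : ℕ, q.Prime → ∀ G ∈ P, ∀ G' ∈ P, G ≠ G' → ∀ l, rsep P q < l →
      ¬ (q : ℤ) ^ l ∣ res G G' := by
    intro q hq G hG G' hG' hne l hl hdvd
    have := Fact.mk hq
    have h1 := le_rsep hG hG' hne q
    rcases (padicValInt_dvd_iff (p := q) _ _).1 hdvd with h | h
    · exact hres (G, G') (mem_offDiag.2 ⟨hG, hG', hne⟩) h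
    · omega
  -- popular leading digits of the values of `F`
  have hch : ∀ q : ℕ, ∃ p : ℕ × ℤ, q ∈ FF → mu q ≠ 0 →
      ¬ (q : ℤ) ^ p.1 ∣ p.2 ∧ mu q ≤ p.1 - padicValInt q p.2 ∧
      1 / (2 * (d : ℝ) ^ 3) * κ * ((fz A F).card : ℝ) ≤
        (((fz A F).filter (fun b => (q : ℤ) ^ p.1 ∣ b - p.2)).card : ℝ) := by
    intro q
    by_cases hq : q ∈ FF
    swap
    · exact ⟨(0, 0), fun h => absurd h hq⟩
    by_cases hm : mu q = 0
    · exact ⟨(0, 0), fun _ h => absurd hm h⟩
    have hqp := hFFp q hq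
    have hJne : J.Nonempty := by
      rw [nonempty_iff_ne_empty]
      intro h0
      apply hm
      rw [hmu]
      simp only
      rw [h0, sup_empty]
      rfl
    obtain ⟨G, hG, hGe⟩ := exists_mem_eq_sup J hJne (fun G => tt G q - rsep P q)
    have hmuq : mu q = tt G q - rsep P q := hGe
    have hGP : G ∈ P := mem_insert_of_mem hG
    have hFP : F ∈ P := mem_insert_self _ _
    have hFG : F ≠ G := fun h => hFn (h ▸ hG)
    have hgood := hJ G hG
    set t := tt G q with ht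
    set l := lev κ (fz A G) q with hl
    have htl : t ≤ l := htt2 G q
    have hst : rsep P q < t := by omega
    have hpts := pop_points hgood.2.1 hgood.2.2.1 hA hκ0.le hκ1 (le_refl l)
    set T : Finset ℤ := A.filter (fun a => (q : ℤ) ^ l ∣ G.eval a) with hT
    have hTne : T.Nonempty := by
      rw [nonempty_iff_ne_empty]
      intro h0
      rw [h0, card_empty, Nat.cast_zero, mul_zero] at hpts
      have : (0 : ℝ) < A.card := by exact_mod_cast card_pos.2 hAne
      have : 0 < κ * A.card := by (clear * - hκ0 hAne; positivity)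
      linarith only [hpts, this]
    obtain ⟨r, hrT, hrc⟩ := exists_class hgood.1
      hgood.2.2.1 hqp (l := l) (t := t) (htt3 G q (by omega)) hTne
      (fun a ha => (mem_filter.1 ha).2)
    have hrG : (q : ℤ) ^ l ∣ G.eval r := (mem_filter.1 hrT).2
    have hval : ∀ n, rsep P q < n → n ≤ l → ¬ (q : ℤ) ^ n ∣ F.eval r := by
      intro n hn hnl h
      exact hnot q hqp F hFP G hGP hFG n hn
        (dvd_res hF.2.1 h ((pow_dvd_pow _ hnl).trans hrG))
    refine ⟨(t, F.eval r), fun _ _ => ⟨hval t hst htl, ?_, ?_⟩⟩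
    · have h1 : padicValInt q (F.eval r) ≤ rsep P q := by
        by_contra hlt
        push Not at hlt
        apply hval (rsep P q + 1) (by omega) (by omega)
        have := Fact.mk hqp
        rw [padicValInt_dvd_iff]
        right
        exact hlt
      simp only
      omega
    · simp only
      have h1 := pop_values (A := A) hF.2.1 hF.2.2.1 (hval t hst htl)
        (T.filter (fun a => (q : ℤ) ^ t ∣ a - r))
        ((filter_subset _ _).trans (filter_subset _ _)) (fun a ha => (mem_filter.1 ha).2)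
      have h2 : (T.card : ℝ) ≤ d * ((T.filter (fun a => (q : ℤ) ^ t ∣ a - r)).card : ℝ) := by
        exact_mod_cast hrc
      have h3 : ((T.filter (fun a => (q : ℤ) ^ t ∣ a - r)).card : ℝ) ≤
          d * (((fz A F).filter (fun b => (q : ℤ) ^ t ∣ b - F.eval r)).card : ℝ) := by
        exact_mod_cast h1
      have h4 : ((fz A F).card : ℝ) ≤ A.card := by exact_mod_cast card_fz_le A F
      set x : ℝ := (((fz A F).filter (fun b => (q : ℤ) ^ t ∣ b - F.eval r)).card : ℝ) with hx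
      have h5 : κ * (fz A F).card ≤ 2 * d * (d * (d * x)) := by
        calc κ * (fz A F).card ≤ κ * A.card := mul_le_mul_of_nonneg_left h4 hκ0.le
          _ ≤ 2 * d * T.card := hpts
          _ ≤ 2 * d * (d * (d * x)) := by
              apply mul_le_mul_of_nonneg_left _ (by positivity)
              exact h2.trans (mul_le_mul_of_nonneg_left h3 hdr0.le)
      rw [mul_assoc, div_mul_eq_mul_div, one_mul, div_le_iff₀ (by positivity)]
      refine h5.trans (le_of_eq ?_)
      ring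
  choose b hb using hch
  have hPop : Pop (1 / (2 * (d : ℝ) ^ 3) * κ) (fz A F) (FF.filter (fun q => mu q ≠ 0))
      (fun q => (b q).1) (fun q => (b q).2) := by
    refine ⟨fun p hp => hFFp p (mem_filter.1 hp).1, fun p hp => ?_, fun p hp => ?_⟩
    · obtain ⟨h1, h2⟩ := mem_filter.1 hp
      exact (hb p h1 h2).1
    · obtain ⟨h1, h2⟩ := mem_filter.1 hp
      exact (hb p h1 h2).2.2
  have hV := hpop _ _ _ hPop
  have hmuV : ∑ q ∈ FF, (mu q : ℝ) * Real.log q ≤ V := by
    refine le_trans ?_ hV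
    unfold W1
    rw [sum_filter]
    apply sum_le_sum
    intro q hq
    by_cases hm : mu q = 0
    · simp [hm]
    · rw [if_pos hm]
      apply mul_le_mul_of_nonneg_right _ (hq0 q)
      exact_mod_cast (hb q hq hm).2.1
  -- at most `2 d / κ` polynomials are popular at each level
  have hone : ∀ q ∈ FF, κ * ∑ G ∈ J, ((tt G q - rsep P q : ℕ) : ℝ) ≤ 2 * d * mu q := by
    intro q hq
    have h1 : ∀ G ∈ J, ((tt G q - rsep P q : ℕ) : ℝ) =
        ∑ l ∈ Ioc (rsep P q) (rsep P q + mu q), if l ≤ tt G q then (1 : ℝ) else 0 := by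
      intro G hG
      rw [← sum_filter, sum_const, nsmul_one]
      congr 1
      have h2 : tt G q - rsep P q ≤ mu q :=
        le_sup (f := fun G => tt G q - rsep P q) hG
      have h3 : (Ioc (rsep P q) (rsep P q + mu q)).filter (fun l => l ≤ tt G q) =
          Ioc (rsep P q) (tt G q) := by
        ext l
        simp only [mem_filter, mem_Ioc]
        omega
      rw [h3, Nat.card_Ioc]
    rw [sum_congr rfl h1, sum_comm, mul_sum]
    have h4 : ∀ l ∈ Ioc (rsep P q) (rsep P q + mu q),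
        κ * ∑ G ∈ J, (if l ≤ tt G q then (1 : ℝ) else 0) ≤ 2 * d := by
      intro l hl
      rw [← sum_filter, sum_const, nsmul_one]
      apply card_pop_poly (q := q) hAne (l := l)
      · intro G hG
        exact (hJ G (mem_filter.1 hG).1).2.1
      · intro G hG G' hG' hne
        exact hnot q (hFFp q hq) G (mem_insert_of_mem (mem_filter.1 hG).1) G'
          (mem_insert_of_mem (mem_filter.1 hG').1) hne l (mem_Ioc.1 hl).1
      · intro G hG
        have hGJ := (mem_filter.1 hG).1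
        exact pop_points (hJ G hGJ).2.1 (hJ G hGJ).2.2.1 hA hκ0.le hκ1
          ((mem_filter.1 hG).2.trans (htt2 G q))
    refine (sum_le_sum h4).trans ?_
    rw [sum_const, Nat.card_Ioc, nsmul_eq_mul]
    apply le_of_eq
    rw [mul_comm]
    congr 2
    omega
  have hall : κ * ∑ G ∈ J, ∑ q ∈ FF, ((tt G q - rsep P q : ℕ) : ℝ) * Real.log q ≤
      2 * d * V := by
    rw [sum_comm, mul_sum]
    refine le_trans (sum_le_sum (g := fun q => 2 * (d : ℝ) * ((mu q : ℝ) * Real.log q))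
      fun q hq => ?_) ?_
    · rw [← sum_mul, ← mul_assoc, ← mul_assoc]
      exact mul_le_mul_of_nonneg_right (hone q hq) (hq0 q)
    · rw [← mul_sum]
      exact mul_le_mul_of_nonneg_left hmuV (by positivity)
  have hsep : ∑ q ∈ FF, (rsep P q : ℝ) * Real.log q ≤ ((J.card : ℝ) + 1) ^ 2 * Λ := by
    refine (sum_rsep_le P FF hFFp hres hlogres hΛ0).trans ?_
    apply mul_le_mul_of_nonneg_right _ hΛ0
    apply pow_le_pow_left₀ (Nat.cast_nonneg _)
    exact_mod_cast card_insert_le F J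
  have hW : ∀ G ∈ J, W0 κ (fz A G) ≤
      d * ∑ q ∈ FF, ((tt G q - rsep P q : ℕ) : ℝ) * Real.log q +
        d * (((J.card : ℝ) + 1) ^ 2 * Λ) := by
    intro G hG
    rw [hWF G hG]
    have h1 : ∑ q ∈ FF, (lev κ (fz A G) q : ℝ) * Real.log q ≤
        ∑ q ∈ FF, (d * (((tt G q - rsep P q : ℕ) : ℝ) * Real.log q) +
          d * ((rsep P q : ℝ) * Real.log q)) := by
      apply sum_le_sum
      intro q _
      have h2 : lev κ (fz A G) q ≤ d * ((tt G q - rsep P q) + rsep P q) :=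
        (htt1 G q).trans (Nat.mul_le_mul_left _ (by omega))
      have h3 : (lev κ (fz A G) q : ℝ) ≤
          d * (((tt G q - rsep P q : ℕ) : ℝ) + rsep P q) := by exact_mod_cast h2
      have h4 := mul_le_mul_of_nonneg_right h3 (hq0 q)
      refine h4.trans (le_of_eq ?_)
      ring
    refine h1.trans ?_
    rw [sum_add_distrib, ← mul_sum, ← mul_sum]
    have h5 := mul_le_mul_of_nonneg_left hsep hdr0.le
    linarith only [h5]
  refine (sum_le_sum hW).trans ?_
  rw [sum_add_distrib, ← mul_sum, sum_const, nsmul_eq_mul]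
  have h6 : ∑ G ∈ J, ∑ q ∈ FF, ((tt G q - rsep P q : ℕ) : ℝ) * Real.log q ≤ 2 * d * V / κ := by
    rw [le_div_iff₀ hκ0, mul_comm]
    exact hall
  have h7 := mul_le_mul_of_nonneg_left h6 hdr0.le
  have h8 : (d : ℝ) * (2 * d * V / κ) = 2 * (d : ℝ) ^ 2 / κ * V := by ring
  have h9 : (J.card : ℝ) * (d * (((J.card : ℝ) + 1) ^ 2 * Λ)) =
      d * J.card * (((J.card : ℝ) + 1) ^ 2 * Λ) := by ring
  linarith only [h7, h8]

end Pool.Agent.Helper99.TR
end

/- Helper24.TT.H99.TR.ZerB -/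
section
/-!
# Project TR (MP_120218_co): a maximal coprime family of exceptional polynomials and its zeros
-/

set_option autoImplicit false

open Finset Polynomial

namespace Pool.Agent.Helper99.TR

open Pool.Agent.Helper26.TR Pool.Agent.Helper88.NZ

theorem exists_common_root {F G : ℤ[X]} (h : res F G = 0) :
    ∃ z : ℂ, aeval z F = 0 ∧ aeval z G = 0 := by
  have hinj : Function.Injective (Int.castRingHom ℂ) := by
    intro a b h
    simpa using h
  have h1 : resultant (F.map (Int.castRingHom ℂ)) (G.map (Int.castRingHom ℂ)) = 0 := by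
    rw [natDegree_map_eq_of_injective hinj, natDegree_map_eq_of_injective hinj,
      resultant_map_map]
    unfold res at h
    rw [h, map_zero]
  rw [resultant_eq_zero_iff] at h1
  have h2 := h1.2
  rw [isCoprime_iff_aeval_ne_zero_of_isAlgClosed (k := ℂ) ℂ] at h2
  push Not at h2
  obtain ⟨z, hz1, hz2⟩ := h2
  refine ⟨z, ?_, ?_⟩
  · rw [aeval_def, eval₂_eq_eval_map]
    simpa [aeval_def] using hz1
  · rw [aeval_def, eval₂_eq_eval_map]
    simpa [aeval_def] using hz2

/-- the complex zeros of an integer polynomial -/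
noncomputable def zeros (F : ℤ[X]) : Finset ℂ := by
  classical
  exact (F.map (Int.castRingHom ℂ)).roots.toFinset

theorem card_zeros (F : ℤ[X]) : (zeros F).card ≤ F.natDegree := by
  classical
  unfold zeros
  refine (Multiset.toFinset_card_le _).trans ((card_roots' _).trans ?_)
  exact natDegree_map_le

theorem mem_zeros {F : ℤ[X]} (hF : F ≠ 0) {z : ℂ} (hz : aeval z F = 0) : z ∈ zeros F := by
  classical
  unfold zeros
  rw [Multiset.mem_toFinset, mem_roots']
  refine ⟨?_, ?_⟩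
  · rw [Ne, Polynomial.map_eq_zero_iff]
    · exact hF
    · intro a b h
      simpa using h
  · rw [IsRoot.def, eval_map]
    exact hz

theorem exists_zero {F : ℤ[X]} (hF : 1 ≤ F.natDegree) : ∃ z : ℂ, aeval z F = 0 := by
  have hinj : Function.Injective (Int.castRingHom ℂ) := by
    intro a b h
    simpa using h
  have h1 : (F.map (Int.castRingHom ℂ)).degree ≠ 0 := by
    rw [degree_map_eq_of_injective hinj]
    intro h
    have h2 : F.natDegree = 0 := natDegree_eq_of_degree_eq_some (by rw [h]; rfl)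
    omega
  obtain ⟨z, hz⟩ := IsAlgClosed.exists_root _ h1
  refine ⟨z, ?_⟩
  rw [IsRoot.def, eval_map] at hz
  exact hz

/-- exceptional polynomials for one density -/
def Ex (A : Finset ℤ) (d : ℕ) (H : ℤ) (θ κ C W : ℝ) (F : ℤ[X]) : Prop :=
  Gd d H F ∧ RelP A θ κ C W F F

/-- finite families of pairwise coprime exceptional polynomials -/
def Fam (A : Finset ℤ) (d : ℕ) (H : ℤ) (θ κ C W : ℝ) (J : Finset ℤ[X]) : Prop :=
  (∀ G ∈ J, Ex A d H θ κ C W G) ∧ ∀ G ∈ J, ∀ G' ∈ J, G ≠ G' → res G G' ≠ 0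

theorem log_nn {d : ℕ} {H : ℤ} (hH : 1 ≤ H) :
    0 ≤ Real.log (((2 * d).factorial : ℝ) * (H : ℝ) ^ (2 * d)) := by
  apply Real.log_nonneg
  have hHr : (1 : ℝ) ≤ H := by exact_mod_cast hH
  have hfac : (1 : ℝ) ≤ ((2 * d).factorial : ℝ) := by
    exact_mod_cast Nat.one_le_iff_ne_zero.2 (Nat.factorial_ne_zero _)
  calc (1 : ℝ) = 1 * 1 := by norm_num
    _ ≤ _ := mul_le_mul hfac (one_le_pow₀ hHr) (by norm_num) (by (clear * -; positivity))

theorem card_Fam {A : Finset ℤ} {d : ℕ} (hd : 1 ≤ d) (hA : 2 * d ≤ A.card) {κ : ℝ}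
    (hκ0 : 0 < κ) (hκ1 : κ ≤ 1) {C : ℝ} {H : ℤ} (hH : 1 ≤ H) {W S : ℝ}
    (hS : Real.log (((2 * d).factorial : ℝ) * (H : ℝ) ^ (2 * d)) ≤ S) {m : ℕ}
    (hm : 2 + 2 * (d : ℝ) ^ 2 / κ * C ≤ m) (hW0 : 0 < W)
    (hW : (d : ℝ) * (m + 1) * (((m : ℝ) + 2) ^ 2 * S) ≤ W) (J : Finset ℤ[X])
    (hJ : Fam A d H (1 / (2 * (d : ℝ) ^ 3)) κ C W J) : J.card ≤ m := by
  classical
  by_contra hlt
  push Not at hlt
  obtain ⟨J', hJ'J, hJ'c⟩ := exists_subset_card_eq (s := J) (n := m + 1) (by (clear * - A d H hlt; omega))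
  have hne : J'.Nonempty := card_pos.1 (by omega)
  obtain ⟨F, hF, hmin⟩ := exists_min_image J' (fun G => W0 κ (fz A G)) hne
  obtain ⟨hFg, hrel, hWF⟩ := hJ.1 F (hJ'J hF)
  set K : Finset ℤ[X] := J'.erase F with hK
  have hKJ : K ⊆ J' := erase_subset _ _
  have hKc : K.card = m := by
    rw [hK, card_erase_of_mem hF, hJ'c]
    rfl
  have hins : ∀ G ∈ insert F K, G ∈ J := by
    intro G hG
    rcases mem_insert.1 hG with h | h
    · rw [h]; exact hJ'J hF
    · exact hJ'J (hKJ h)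
  have key := one_set hd hA hκ0 hκ1 K F hH (fun G hG => (hJ.1 G (hJ'J (hKJ hG))).1) hFg
    (notMem_erase _ _) (fun G hG G' hG' h => hJ.2 G (hins G hG) G' (hins G' hG') h)
    (V := C * W0 κ (fz A F)) hrel
  have hWF0 : 0 < W0 κ (fz A F) := hW0.trans_le hWF
  have hlow : (m : ℝ) * W0 κ (fz A F) ≤ ∑ G ∈ K, W0 κ (fz A G) := by
    calc (m : ℝ) * W0 κ (fz A F) = ∑ _G ∈ K, W0 κ (fz A F) := by
          rw [sum_const, nsmul_eq_mul, hKc]
      _ ≤ ∑ G ∈ K, W0 κ (fz A G) := sum_le_sum fun G hG => hmin G (hKJ hG)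
  have hS0 : 0 ≤ S := (log_nn hH).trans hS
  have herr : (d : ℝ) * K.card * (((K.card : ℝ) + 1) ^ 2 *
      Real.log (((2 * d).factorial : ℝ) * (H : ℝ) ^ (2 * d))) ≤ W0 κ (fz A F) := by
    refine le_trans ?_ (hW.trans hWF)
    rw [hKc]
    apply mul_le_mul
    · exact mul_le_mul_of_nonneg_left (by (clear * -; linarith only [])) (by (clear * - hd; positivity))
    · calc ((m : ℝ) + 1) ^ 2 * Real.log (((2 * d).factorial : ℝ) * (H : ℝ) ^ (2 * d))
          ≤ ((m : ℝ) + 1) ^ 2 * S := mul_le_mul_of_nonneg_left hS (by (clear * -; positivity))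
        _ ≤ ((m : ℝ) + 2) ^ 2 * S := by
          apply mul_le_mul_of_nonneg_right _ hS0
          apply pow_le_pow_left₀ (by (clear * -; positivity))
          linarith only []
    · exact mul_nonneg (by (clear * -; positivity)) (log_nn hH)
    · (clear * - hd; positivity)
  have h1 : (m : ℝ) * W0 κ (fz A F) ≤
      (2 * (d : ℝ) ^ 2 / κ * C + 1) * W0 κ (fz A F) := by
    refine hlow.trans (key.trans ?_)
    have : 2 * (d : ℝ) ^ 2 / κ * (C * W0 κ (fz A F)) + W0 κ (fz A F) =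
        (2 * (d : ℝ) ^ 2 / κ * C + 1) * W0 κ (fz A F) := by ring
    linarith only [herr]
  have h2 := le_of_mul_le_mul_right h1 hWF0
  linarith only [hm, h2]

/-- a boundedly large set of complex numbers containing a zero of each exceptional polynomial -/
theorem exists_zeros {A : Finset ℤ} {d : ℕ} (hd : 1 ≤ d) (hA : 2 * d ≤ A.card) {κ : ℝ}
    (hκ0 : 0 < κ) (hκ1 : κ ≤ 1) {C : ℝ} {H : ℤ} (hH : 1 ≤ H) {W S : ℝ}
    (hS : Real.log (((2 * d).factorial : ℝ) * (H : ℝ) ^ (2 * d)) ≤ S) {m : ℕ}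
    (hm : 2 + 2 * (d : ℝ) ^ 2 / κ * C ≤ m) (hW0 : 0 < W)
    (hW : (d : ℝ) * (m + 1) * (((m : ℝ) + 2) ^ 2 * S) ≤ W) :
    ∃ Z : Finset ℂ, Z.card ≤ m * d ∧ ∀ F, Gd d H F →
      RelP A (1 / (2 * (d : ℝ) ^ 3)) κ C W F F → ∃ z ∈ Z, aeval z F = 0 := by
  classical
  have hbd := fun J => card_Fam (A := A) hd hA hκ0 hκ1 hH hS hm hW0 hW J
  set P : ℕ → Prop := fun n => ∃ J, Fam A d H (1 / (2 * (d : ℝ) ^ 3)) κ C W J ∧ J.card = n
    with hP
  have hP0 : P 0 := ⟨∅, ⟨by simp, by simp⟩, rfl⟩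
  have hmax : P (Nat.findGreatest P m) := Nat.findGreatest_spec (P := P) (Nat.zero_le _) hP0
  obtain ⟨J, hJ, hJc⟩ := hmax
  refine ⟨J.biUnion zeros, ?_, ?_⟩
  · refine card_biUnion_le.trans ?_
    calc ∑ G ∈ J, (zeros G).card ≤ ∑ _G ∈ J, d :=
          sum_le_sum fun G hG => (card_zeros G).trans (hJ.1 G hG).1.2.2.1
      _ = J.card * d := by rw [sum_const, smul_eq_mul]
      _ ≤ m * d := Nat.mul_le_mul_right _ (hbd J hJ)
  · intro F hFg hrel
    have hmem : ∀ G ∈ J, ∀ z : ℂ, aeval z G = 0 → z ∈ J.biUnion zeros := fun G hG z hz =>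
      mem_biUnion.2 ⟨G, hG, mem_zeros (by
        intro h0
        have := (hJ.1 G hG).1.2.1
        rw [h0, natDegree_zero] at this
        omega) hz⟩
    by_cases hFJ : F ∈ J
    · obtain ⟨z, hz⟩ := exists_zero hFg.2.1
      exact ⟨z, hmem F hFJ z hz, hz⟩
    by_cases hall : ∀ G ∈ J, res F G ≠ 0 ∧ res G F ≠ 0
    · exfalso
      have hJF : Fam A d H (1 / (2 * (d : ℝ) ^ 3)) κ C W (insert F J) := by
        refine ⟨?_, ?_⟩
        · intro G hG
          rcases mem_insert.1 hG with h | h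
          · rw [h]; exact ⟨hFg, hrel⟩
          · exact hJ.1 G h
        · intro G hG G' hG' hne
          rcases mem_insert.1 hG with h | h
          · rcases mem_insert.1 hG' with h' | h'
            · exact absurd (h.trans h'.symm) hne
            · rw [h]; exact (hall G' h').1
          · rcases mem_insert.1 hG' with h' | h'
            · rw [h']; exact (hall G h).2
            · exact hJ.2 G h G' h' hne
      have h1 := hbd _ hJF
      have h2 : (insert F J).card = J.card + 1 := card_insert_of_notMem hFJ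
      have h3 : P (J.card + 1) := ⟨insert F J, hJF, h2⟩
      have h4 := Nat.le_findGreatest (P := P) (by omega : J.card + 1 ≤ m) h3
      omega
    · push Not at hall
      obtain ⟨G, hG, hres⟩ := hall
      by_cases h0 : res F G = 0
      · obtain ⟨z, hz1, hz2⟩ := exists_common_root h0
        exact ⟨z, hmem G hG z hz2, hz1⟩
      · obtain ⟨z, hz1, hz2⟩ := exists_common_root (hres h0)
        exact ⟨z, hmem G hG z hz1, hz2⟩

end Pool.Agent.Helper99.TR
end

/- Helper24.TT.H99.TR.Expand -/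
section
/-!
# Project TR (MP_120218_co): from `h`-fold product sets to products with arbitrary sets

By the Pluennecke-Ruzsa inequality `|S^h| ≤ (|SB|/|B|)^h |B|`, a set `S` of complex numbers with
`|S^h| ≥ c N^(h-1)` satisfies `|SB| ≥ c' (N|B|)^(1-1/h)` for every finite set `B` of nonzero
complex numbers.
-/

set_option autoImplicit false

open Finset

open scoped Pointwise

namespace Pool.Agent.Helper99.TR

theorem plue_units {G : Type*} [CommGroup G] [DecidableEq G] (S B : Finset G) (hB : B.Nonempty)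
    (h : ℕ) : ((S ^ h).card : ℝ) * (B.card : ℝ) ^ h ≤ ((B * S).card : ℝ) ^ h * B.card := by
  have h1 := pluennecke_ruzsa_inequality_pow_mul hB S h
  have h2 : ((S ^ h).card : ℝ) ≤ (((B * S).card : ℝ) / B.card) ^ h * B.card := by
    have h3 := (NNRat.cast_le (K := ℝ)).2 h1
    push_cast at h3
    exact h3
  have hpos : (0 : ℝ) < B.card := by exact_mod_cast hB.card_pos
  calc ((S ^ h).card : ℝ) * (B.card : ℝ) ^ h
      ≤ ((((B * S).card : ℝ) / B.card) ^ h * B.card) * (B.card : ℝ) ^ h :=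
        mul_le_mul_of_nonneg_right h2 (by (clear * - hB; positivity))
    _ = ((B * S).card : ℝ) ^ h * B.card := by
        rw [div_pow]
        field_simp

/-- the `h`-fold product set -/
noncomputable def hProd {F : Type*} [Field F] (h : ℕ) (S : Finset F) : Finset F := by
  classical
  exact (Fintype.piFinset (fun _ : Fin h => S)).image (fun f : Fin h → F => ∏ i, f i)

theorem mem_hProd {F : Type*} [Field F] (h : ℕ) (S : Finset F) (y : F) :
    y ∈ hProd h S ↔ ∃ f : Fin h → F, (∀ i, f i ∈ S) ∧ ∏ i, f i = y := by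
  classical
  unfold hProd
  simp [Fintype.mem_piFinset]

/-- the product set -/
noncomputable def prd {F : Type*} [Field F] (S B : Finset F) : Finset F := by
  classical
  exact image₂ (fun s b => s * b) S B

theorem mem_prd {F : Type*} [Field F] (S B : Finset F) (y : F) :
    y ∈ prd S B ↔ ∃ s ∈ S, ∃ b ∈ B, s * b = y := by
  classical
  unfold prd
  rw [Finset.mem_image₂]

theorem plue_field {F : Type*} [Field F] (S B : Finset F) (hS : (0 : F) ∉ S) (h0 : (0 : F) ∉ B)
    (hB : B.Nonempty) (h : ℕ) :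
    ((hProd h S).card : ℝ) * (B.card : ℝ) ^ h ≤ ((prd S B).card : ℝ) ^ h * B.card := by
  classical
  have hinj : Function.Injective (Units.val : Fˣ → F) := Units.val_injective
  set S' : Finset Fˣ := S.preimage Units.val hinj.injOn with hS'
  set B' : Finset Fˣ := B.preimage Units.val hinj.injOn with hB'
  have hBc : B'.card = B.card := by
    have h1 : B'.image Units.val = B := by
      ext y
      simp only [hB', Finset.mem_image, Finset.mem_preimage]
      constructor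
      · rintro ⟨u, hu, rfl⟩
        exact hu
      · intro hy
        exact ⟨Units.mk0 y (fun h => h0 (h ▸ hy)), hy, rfl⟩
    rw [← h1, Finset.card_image_of_injective _ hinj]
  have hB'ne : B'.Nonempty := by
    rw [← Finset.card_pos, hBc]
    exact hB.card_pos
  have h1 := plue_units S' B' hB'ne h
  have h2 : (hProd h S).card ≤ (S' ^ h).card := by
    have h3 : hProd h S ⊆ (S' ^ h).image Units.val := by
      intro y hy
      rw [mem_hProd] at hy
      obtain ⟨f, hf, rfl⟩ := hy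
      rw [Finset.mem_image]
      have hne : ∀ i, f i ≠ 0 := fun i h => hS (h ▸ hf i)
      refine ⟨∏ i, Units.mk0 (f i) (hne i), ?_, ?_⟩
      · rw [Finset.mem_pow]
        refine ⟨fun i => ⟨Units.mk0 (f i) (hne i), ?_⟩, ?_⟩
        · simp only [hS', Finset.mem_preimage]
          exact hf i
        · rw [List.prod_ofFn]
      · rw [Units.coe_prod]
        rfl
    calc (hProd h S).card ≤ ((S' ^ h).image Units.val).card := Finset.card_le_card h3
      _ ≤ (S' ^ h).card := Finset.card_image_le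
  have h4 : (B' * S').card ≤ (prd S B).card := by
    have h5 : (B' * S').image Units.val ⊆ prd S B := by
      intro y hy
      rw [Finset.mem_image] at hy
      obtain ⟨u, hu, rfl⟩ := hy
      rw [Finset.mem_mul] at hu
      obtain ⟨b, hb, s, hs, rfl⟩ := hu
      rw [mem_prd]
      simp only [hB', hS', Finset.mem_preimage] at hb hs
      exact ⟨s, hs, b, hb, by rw [Units.val_mul, mul_comm]⟩
    calc (B' * S').card = ((B' * S').image Units.val).card :=
          (Finset.card_image_of_injective _ hinj).symm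
      _ ≤ _ := Finset.card_le_card h5
  rw [hBc] at h1
  calc ((hProd h S).card : ℝ) * (B.card : ℝ) ^ h ≤ ((S' ^ h).card : ℝ) * (B.card : ℝ) ^ h := by
        (clear * - h2 hB; gcongr)
    _ ≤ ((B' * S').card : ℝ) ^ h * B.card := h1
    _ ≤ ((prd S B).card : ℝ) ^ h * B.card := by (clear * - h4 hB; gcongr)

theorem hProd_le_erase {F : Type*} [Field F] (h : ℕ) (S : Finset F)
    [DecidableEq F] (hne : (S.erase 0).Nonempty) :
    (hProd h S).card ≤ 2 * (hProd h (S.erase 0)).card := by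
  have h1 : hProd h S ⊆ insert 0 (hProd h (S.erase 0)) := by
    intro y hy
    rw [mem_hProd] at hy
    obtain ⟨f, hf, rfl⟩ := hy
    by_cases h0 : ∃ i, f i = 0
    · obtain ⟨i, hi⟩ := h0
      rw [Finset.prod_eq_zero (Finset.mem_univ i) hi]
      exact Finset.mem_insert_self _ _
    · push Not at h0
      refine Finset.mem_insert_of_mem ?_
      rw [mem_hProd]
      exact ⟨f, fun i => Finset.mem_erase.2 ⟨h0 i, hf i⟩, rfl⟩
  have h2 : (hProd h (S.erase 0)).Nonempty := by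
    obtain ⟨s, hs⟩ := hne
    refine ⟨∏ _i : Fin h, s, ?_⟩
    rw [mem_hProd]
    exact ⟨fun _ => s, fun _ => hs, rfl⟩
  have h3 := Finset.card_le_card h1
  have h4 := Finset.card_insert_le 0 (hProd h (S.erase 0))
  have h5 := h2.card_pos
  omega

/-- a set with a large `h`-fold product set expands every finite set of nonzero elements -/
theorem expand_erase {F : Type*} [Field F] [DecidableEq F] (h : ℕ) (hh : 0 < h) (S : Finset F)
    (hne : ∃ s ∈ S, s ≠ 0)
    (c N ε : ℝ) (hc : 0 < c) (hN : 1 ≤ N) (hε : 1 / (h : ℝ) ≤ ε)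
    (hS : c * N ^ ((h : ℝ) - 1) ≤ ((hProd h S).card : ℝ))
    (B : Finset F) (h0 : (0 : F) ∉ B) (hB : B.Nonempty) :
    (c / 2) ^ (1 / (h : ℝ)) * (N * B.card) ^ (1 - ε) ≤ (((prd S B).erase 0).card : ℝ) := by
  have hne' : (S.erase 0).Nonempty := by
    obtain ⟨s, hs, hs0⟩ := hne
    exact ⟨s, Finset.mem_erase.2 ⟨hs0, hs⟩⟩
  have h1 : ((hProd h S).card : ℝ) ≤ 2 * ((hProd h (S.erase 0)).card : ℝ) := by
    exact_mod_cast hProd_le_erase h S hne'
  have h2 := plue_field (S.erase 0) B (Finset.notMem_erase 0 S) h0 hB h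
  have h3 : ((prd (S.erase 0) B).card : ℝ) ≤ (((prd S B).erase 0).card : ℝ) := by
    have h4 : prd (S.erase 0) B ⊆ (prd S B).erase 0 := by
      intro y hy
      rw [mem_prd] at hy
      obtain ⟨s, hs, b, hb, rfl⟩ := hy
      rw [Finset.mem_erase, mem_prd]
      exact ⟨mul_ne_zero (Finset.ne_of_mem_erase hs) (fun h => h0 (h ▸ hb)),
        s, Finset.mem_of_mem_erase hs, b, hb, rfl⟩
    exact_mod_cast Finset.card_le_card h4
  have hb1 : (1 : ℝ) ≤ B.card := by exact_mod_cast hB.card_pos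
  have hb0 : (0 : ℝ) < B.card := by (clear * - hb1; linarith only [hb1])
  have hN0 : (0 : ℝ) < N := by linarith only [hN]
  have hh0 : (0 : ℝ) < h := by exact_mod_cast hh
  set X : ℝ := (((prd S B).erase 0).card : ℝ) with hX
  have hX0 : 0 ≤ X := by (clear * -; positivity)
  -- (c/2) N^(h-1) |B|^(h-1) ≤ X^h
  have h5 : c / 2 * (N * B.card) ^ ((h : ℝ) - 1) ≤ X ^ h := by
    have h6 : c / 2 * N ^ ((h : ℝ) - 1) ≤ ((hProd h (S.erase 0)).card : ℝ) := by
      (clear * - hS h1; linarith only [hS, h1])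
    have h7 : (c / 2 * N ^ ((h : ℝ) - 1)) * (B.card : ℝ) ^ h ≤ X ^ h * B.card := by
      calc (c / 2 * N ^ ((h : ℝ) - 1)) * (B.card : ℝ) ^ h
          ≤ ((hProd h (S.erase 0)).card : ℝ) * (B.card : ℝ) ^ h :=
            mul_le_mul_of_nonneg_right h6 (by (clear * - hB; positivity))
        _ ≤ ((prd (S.erase 0) B).card : ℝ) ^ h * B.card := h2
        _ ≤ X ^ h * B.card := by (clear * - h3 hB; gcongr)
    have h8 : (B.card : ℝ) ^ h = (B.card : ℝ) ^ ((h : ℝ) - 1) * B.card := by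
      rw [Real.rpow_sub_one hb0.ne', Real.rpow_natCast]
      (clear * - hB; field_simp)
    rw [h8] at h7
    have h9 : (c / 2 * N ^ ((h : ℝ) - 1) * (B.card : ℝ) ^ ((h : ℝ) - 1)) * B.card ≤
        X ^ h * B.card := by
      linarith only [h7]
    have h10 := le_of_mul_le_mul_right h9 hb0
    rw [Real.mul_rpow hN0.le hb0.le]
    linarith only [h10]
  have h6 : (c / 2 * (N * B.card) ^ ((h : ℝ) - 1)) ^ (1 / (h : ℝ)) ≤ X := by
    have h7 := Real.rpow_le_rpow (by (clear * - hc hN hB; positivity)) h5 (by positivity : (0 : ℝ) ≤ 1 / (h : ℝ))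
    rw [← Real.rpow_natCast, ← Real.rpow_mul hX0, mul_one_div_cancel hh0.ne', Real.rpow_one] at h7
    exact h7
  rw [Real.mul_rpow (by positivity) (by (clear * - hN hB; positivity)), ← Real.rpow_mul (by (clear * - hN hB; positivity))] at h6
  refine le_trans ?_ h6
  refine mul_le_mul_of_nonneg_left ?_ (by positivity)
  refine Real.rpow_le_rpow_of_exponent_le (by (clear * - hb1 hN; nlinarith only [hN, hb1])) ?_
  have h7 : ((h : ℝ) - 1) * (1 / (h : ℝ)) = 1 - 1 / (h : ℝ) := by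
    field_simp
  rw [h7]
  (clear * - hε; linarith only [hε])

theorem expand {F : Type*} [Field F] (h : ℕ) (hh : 0 < h) (S : Finset F) (hne : ∃ s ∈ S, s ≠ 0)
    (c N ε : ℝ) (hc : 0 < c) (hN : 1 ≤ N) (hε : 1 / (h : ℝ) ≤ ε)
    (hS : c * N ^ ((h : ℝ) - 1) ≤ ((hProd h S).card : ℝ))
    (B : Finset F) (h0 : (0 : F) ∉ B) (hB : B.Nonempty) :
    (c / 2) ^ (1 / (h : ℝ)) * (N * B.card) ^ (1 - ε) ≤ ((prd S B).card : ℝ) := by
  classical
  refine (expand_erase h hh S hne c N ε hc hN hε hS B h0 hB).trans ?_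
  exact_mod_cast Finset.card_le_card (Finset.erase_subset _ _)

end Pool.Agent.Helper99.TR
end

/- Helper24.TT.H99.RT.OneSet -/
section
/-!
# Project RT (MP_120218_co): one-set inequality for reciprocals of polynomial values
-/

set_option autoImplicit false

open Finset Polynomial

namespace Pool.Agent.Helper99.RT

open Pool.Agent.Helper26.TR Pool.Agent.Helper88.NZ
open Pool.Agent.Helper99.TR (Gd)
open Pool.Agent.Helper88.RT (W1a NRMix recSum)

/-- **One-set inequality** for pairwise coprime primitive polynomials (after helper88's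
`one_set` for irreducible polynomials). -/
theorem one_set {A : Finset ℤ} {d : ℕ} (hd : 1 ≤ d) (hA : 2 * d ≤ A.card) {κ : ℝ} (hκ0 : 0 < κ)
    (hκ1 : κ ≤ 1) (J : Finset ℤ[X]) (F : ℤ[X]) {H : ℤ} (hH : 1 ≤ H)
    (hJ : ∀ G ∈ J, Gd d H G) (hF : Gd d H F) (hFn : F ∉ J)
    (hres0 : ∀ G ∈ insert F J, ∀ G' ∈ insert F J, G ≠ G' → res G G' ≠ 0)
    {V : ℝ} (hpop : ∀ (T : Finset ℕ) (e : ℕ → ℕ) (β : ℕ → ℤ),
      Pop (1 / (2 * (d : ℝ) ^ 3) * κ) (fz A F) T e β → W1a T e β ≤ V) :
    ∑ G ∈ J, W0 κ (fz A G) ≤ 2 * (d : ℝ) ^ 2 / κ * V + 2 * (d * J.card *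
      (((J.card : ℝ) + 1) ^ 2 * Real.log (((2 * d).factorial : ℝ) * (H : ℝ) ^ (2 * d)))) := by
  classical
  have hdr : (1 : ℝ) ≤ d := by exact_mod_cast hd
  have hdr0 : (0 : ℝ) < d := by linarith only [hdr]
  have hAne : A.Nonempty := card_pos.1 (by omega)
  set P : Finset ℤ[X] := insert F J with hP
  have hPgood : ∀ G ∈ P, Gd d H G := by
    intro G hG
    rcases mem_insert.1 hG with h | h
    · rw [h]; exact hF
    · exact hJ G h
  have hres : ∀ z ∈ P.offDiag, res z.1 z.2 ≠ 0 := by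
    intro z hz
    rw [mem_offDiag] at hz
    exact hres0 _ hz.1 _ hz.2.1 hz.2.2
  set Λ : ℝ := Real.log (((2 * d).factorial : ℝ) * (H : ℝ) ^ (2 * d)) with hΛ
  have hHr : (1 : ℝ) ≤ H := by exact_mod_cast hH
  have hfac : (1 : ℝ) ≤ ((2 * d).factorial : ℝ) := by
    exact_mod_cast Nat.one_le_iff_ne_zero.2 (Nat.factorial_ne_zero _)
  have hΛ0 : 0 ≤ Λ := by
    apply Real.log_nonneg
    calc (1 : ℝ) = 1 * 1 := by norm_num
      _ ≤ _ := mul_le_mul hfac (one_le_pow₀ hHr) (by norm_num) (by positivity)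
  have hlogres : ∀ z ∈ P.offDiag, Real.log (res z.1 z.2).natAbs ≤ Λ := by
    intro z hz
    have hne := hres z hz
    rw [mem_offDiag] at hz
    have h1 := res_le (hPgood _ hz.1).2.2.1 (hPgood _ hz.2.1).2.2.1 hH (hPgood _ hz.1).2.2.2
      (hPgood _ hz.2.1).2.2.2
    have h2 : ((res z.1 z.2).natAbs : ℝ) ≤ ((2 * d).factorial : ℝ) * (H : ℝ) ^ (2 * d) := by
      rw [Nat.cast_natAbs]
      exact_mod_cast h1
    apply Real.log_le_log _ h2
    exact_mod_cast Int.natAbs_pos.2 hne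
  set FF : Finset ℕ := J.biUnion (fun G => prs (fz A G)) with hFF
  have hFFp : ∀ p ∈ FF, p.Prime := by
    intro p hp
    rw [hFF, mem_biUnion] at hp
    obtain ⟨x, _, hx⟩ := hp
    unfold prs at hx
    rw [mem_biUnion] at hx
    obtain ⟨a, _, ha⟩ := hx
    exact Nat.prime_of_mem_primeFactors ha
  have hWF : ∀ G ∈ J, W0 κ (fz A G) = ∑ q ∈ FF, (lev κ (fz A G) q : ℝ) * Real.log q := by
    intro G hG
    exact Pool.Agent.Helper88.NZ.W0_eq _ (fz_zero A G) FF hFFp (subset_biUnion_of_mem (fun G => prs (fz A G)) hG)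
  have hq0 : ∀ q : ℕ, 0 ≤ Real.log q := fun q => Real.log_natCast_nonneg q
  -- the levels
  set tt : ℤ[X] → ℕ → ℕ := fun G q => (lev κ (fz A G) q + (d - 1)) / d with htt
  have htt1 : ∀ G q, lev κ (fz A G) q ≤ d * tt G q := by
    intro G q
    have h1 := Nat.div_add_mod (lev κ (fz A G) q + (d - 1)) d
    have h2 := Nat.mod_lt (lev κ (fz A G) q + (d - 1)) (by omega : d > 0)
    have h3 : d * tt G q = d * ((lev κ (fz A G) q + (d - 1)) / d) := rfl
    omega
  have htt2 : ∀ G q, tt G q ≤ lev κ (fz A G) q := by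
    intro G q
    have h3 : tt G q = (lev κ (fz A G) q + (d - 1)) / d := rfl
    rw [h3]
    rcases Nat.eq_zero_or_pos (lev κ (fz A G) q) with h0 | h0
    · rw [h0, Nat.zero_add]
      have : (d - 1) / d = 0 := Nat.div_eq_of_lt (by omega)
      omega
    · apply Nat.div_le_of_le_mul
      have h4 : lev κ (fz A G) q * 1 ≤ lev κ (fz A G) q * d := Nat.mul_le_mul_left _ hd
      obtain ⟨x, hx⟩ : ∃ x, lev κ (fz A G) q = x + 1 := ⟨_, (Nat.succ_pred_eq_of_pos h0).symm⟩
      rw [hx]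
      have h5 : d * (x + 1) = d * x + d := by ring
      have h6 : x ≤ d * x := Nat.le_mul_of_pos_left x (by omega)
      omega
  have htt3 : ∀ G q, 1 ≤ tt G q → d * (tt G q - 1) < lev κ (fz A G) q := by
    intro G q h
    have h1 : d * tt G q ≤ lev κ (fz A G) q + (d - 1) := Nat.mul_div_le _ _
    have h2 : d * (tt G q - 1) = d * tt G q - d := by rw [Nat.mul_sub, Nat.mul_one]
    have h3 : d ≤ d * tt G q := Nat.le_mul_of_pos_right d h
    omega
  set sq : ℕ → ℕ := fun q => 2 * rsep P q with hsq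
  have hsq1 : ∀ q, rsep P q ≤ sq q := fun q => by rw [hsq]; simp only; omega
  set mu : ℕ → ℕ := fun q => J.sup (fun G => tt G q - sq q) with hmu
  have hnot : ∀ q : ℕ, q.Prime → ∀ G ∈ P, ∀ G' ∈ P, G ≠ G' → ∀ l, rsep P q < l →
      ¬ (q : ℤ) ^ l ∣ res G G' := by
    intro q hq G hG G' hG' hne l hl hdvd
    have := Fact.mk hq
    have h1 := le_rsep hG hG' hne q
    rcases (padicValInt_dvd_iff (p := q) _ _).1 hdvd with h | h
    · exact hres (G, G') (mem_offDiag.2 ⟨hG, hG', hne⟩) h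
    · omega
  -- popular leading digits of the values of `F`
  have hch : ∀ q : ℕ, ∃ p : ℕ × ℤ, q ∈ FF → mu q ≠ 0 →
      ¬ (q : ℤ) ^ p.1 ∣ p.2 ∧ mu q ≤ p.1 - 2 * padicValInt q p.2 ∧
      1 / (2 * (d : ℝ) ^ 3) * κ * ((fz A F).card : ℝ) ≤
        (((fz A F).filter (fun b => (q : ℤ) ^ p.1 ∣ b - p.2)).card : ℝ) := by
    intro q
    by_cases hq : q ∈ FF
    swap
    · exact ⟨(0, 0), fun h => absurd h hq⟩
    by_cases hm : mu q = 0
    · exact ⟨(0, 0), fun _ h => absurd hm h⟩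
    have hqp := hFFp q hq
    have hJne : J.Nonempty := by
      rw [nonempty_iff_ne_empty]
      intro h0
      apply hm
      rw [hmu]
      simp only
      rw [h0, sup_empty]
      rfl
    obtain ⟨G, hG, hGe⟩ := exists_mem_eq_sup J hJne (fun G => tt G q - sq q)
    have hmuq : mu q = tt G q - sq q := hGe
    have hsqq : sq q = 2 * rsep P q := rfl
    have hGP : G ∈ P := mem_insert_of_mem hG
    have hFP : F ∈ P := mem_insert_self _ _
    have hFG : F ≠ G := fun h => hFn (h ▸ hG)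
    have hgood := hJ G hG
    set t := tt G q with ht
    set l := lev κ (fz A G) q with hl
    have htl : t ≤ l := htt2 G q
    have hst : rsep P q < t := by omega
    have hpts := pop_points hgood.2.1 hgood.2.2.1 hA hκ0.le hκ1 (le_refl l)
    set T : Finset ℤ := A.filter (fun a => (q : ℤ) ^ l ∣ G.eval a) with hT
    have hTne : T.Nonempty := by
      rw [nonempty_iff_ne_empty]
      intro h0
      rw [h0, card_empty, Nat.cast_zero, mul_zero] at hpts
      have : (0 : ℝ) < A.card := by exact_mod_cast card_pos.2 hAne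
      have : 0 < κ * A.card := by (clear * - hκ0 hAne; positivity)
      linarith only [hpts, this]
    obtain ⟨r, hrT, hrc⟩ := exists_class hgood.1
      hgood.2.2.1 hqp (l := l) (t := t) (htt3 G q (by omega)) hTne
      (fun a ha => (mem_filter.1 ha).2)
    have hrG : (q : ℤ) ^ l ∣ G.eval r := (mem_filter.1 hrT).2
    have hval : ∀ n, rsep P q < n → n ≤ l → ¬ (q : ℤ) ^ n ∣ F.eval r := by
      intro n hn hnl h
      exact hnot q hqp F hFP G hGP hFG n hn
        (dvd_res hF.2.1 h ((pow_dvd_pow _ hnl).trans hrG))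
    refine ⟨(t, F.eval r), fun _ _ => ⟨hval t hst htl, ?_, ?_⟩⟩
    · have h1 : padicValInt q (F.eval r) ≤ rsep P q := by
        by_contra hlt
        push Not at hlt
        apply hval (rsep P q + 1) (by omega) (by omega)
        have := Fact.mk hqp
        rw [padicValInt_dvd_iff]
        right
        exact hlt
      simp only
      omega
    · simp only
      have h1 := pop_values (A := A) hF.2.1 hF.2.2.1 (hval t hst htl)
        (T.filter (fun a => (q : ℤ) ^ t ∣ a - r))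
        ((filter_subset _ _).trans (filter_subset _ _)) (fun a ha => (mem_filter.1 ha).2)
      have h2 : (T.card : ℝ) ≤ d * ((T.filter (fun a => (q : ℤ) ^ t ∣ a - r)).card : ℝ) := by
        exact_mod_cast hrc
      have h3 : ((T.filter (fun a => (q : ℤ) ^ t ∣ a - r)).card : ℝ) ≤
          d * (((fz A F).filter (fun b => (q : ℤ) ^ t ∣ b - F.eval r)).card : ℝ) := by
        exact_mod_cast h1
      have h4 : ((fz A F).card : ℝ) ≤ A.card := by exact_mod_cast card_fz_le A F
      set x : ℝ := (((fz A F).filter (fun b => (q : ℤ) ^ t ∣ b - F.eval r)).card : ℝ) with hx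
      have h5 : κ * (fz A F).card ≤ 2 * d * (d * (d * x)) := by
        calc κ * (fz A F).card ≤ κ * A.card := mul_le_mul_of_nonneg_left h4 hκ0.le
          _ ≤ 2 * d * T.card := hpts
          _ ≤ 2 * d * (d * (d * x)) := by
              apply mul_le_mul_of_nonneg_left _ (by positivity)
              exact h2.trans (mul_le_mul_of_nonneg_left h3 hdr0.le)
      rw [mul_assoc, div_mul_eq_mul_div, one_mul, div_le_iff₀ (by positivity)]
      refine h5.trans (le_of_eq ?_)
      ring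
  choose b hb using hch
  have hPop : Pop (1 / (2 * (d : ℝ) ^ 3) * κ) (fz A F) (FF.filter (fun q => mu q ≠ 0))
      (fun q => (b q).1) (fun q => (b q).2) := by
    refine ⟨fun p hp => hFFp p (mem_filter.1 hp).1, fun p hp => ?_, fun p hp => ?_⟩
    · obtain ⟨h1, h2⟩ := mem_filter.1 hp
      exact (hb p h1 h2).1
    · obtain ⟨h1, h2⟩ := mem_filter.1 hp
      exact (hb p h1 h2).2.2
  have hV := hpop _ _ _ hPop
  have hmuV : ∑ q ∈ FF, (mu q : ℝ) * Real.log q ≤ V := by
    refine le_trans ?_ hV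
    unfold W1a
    rw [sum_filter]
    apply sum_le_sum
    intro q hq
    by_cases hm : mu q = 0
    · simp [hm]
    · rw [if_pos hm]
      apply mul_le_mul_of_nonneg_right _ (hq0 q)
      exact_mod_cast (hb q hq hm).2.1
  -- at most `2 d / κ` polynomials are popular at each level
  have hone : ∀ q ∈ FF, κ * ∑ G ∈ J, ((tt G q - sq q : ℕ) : ℝ) ≤ 2 * d * mu q := by
    intro q hq
    have h1 : ∀ G ∈ J, ((tt G q - sq q : ℕ) : ℝ) =
        ∑ l ∈ Ioc (sq q) (sq q + mu q), if l ≤ tt G q then (1 : ℝ) else 0 := by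
      intro G hG
      rw [← sum_filter, sum_const, nsmul_one]
      congr 1
      have h2 : tt G q - sq q ≤ mu q :=
        le_sup (f := fun G => tt G q - sq q) hG
      have h3 : (Ioc (sq q) (sq q + mu q)).filter (fun l => l ≤ tt G q) =
          Ioc (sq q) (tt G q) := by
        ext l
        simp only [mem_filter, mem_Ioc]
        omega
      rw [h3, Nat.card_Ioc]
    rw [sum_congr rfl h1, sum_comm, mul_sum]
    have h4 : ∀ l ∈ Ioc (sq q) (sq q + mu q),
        κ * ∑ G ∈ J, (if l ≤ tt G q then (1 : ℝ) else 0) ≤ 2 * d := by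
      intro l hl
      rw [← sum_filter, sum_const, nsmul_one]
      apply card_pop_poly (q := q) hAne (l := l)
      · intro G hG
        exact (hJ G (mem_filter.1 hG).1).2.1
      · intro G hG G' hG' hne
        exact hnot q (hFFp q hq) G (mem_insert_of_mem (mem_filter.1 hG).1) G'
          (mem_insert_of_mem (mem_filter.1 hG').1) hne l
          (lt_of_le_of_lt (hsq1 q) (mem_Ioc.1 hl).1)
      · intro G hG
        have hGJ := (mem_filter.1 hG).1
        exact pop_points (hJ G hGJ).2.1 (hJ G hGJ).2.2.1 hA hκ0.le hκ1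
          ((mem_filter.1 hG).2.trans (htt2 G q))
    refine (sum_le_sum h4).trans ?_
    rw [sum_const, Nat.card_Ioc, nsmul_eq_mul]
    apply le_of_eq
    rw [mul_comm]
    congr 2
    omega
  have hall : κ * ∑ G ∈ J, ∑ q ∈ FF, ((tt G q - sq q : ℕ) : ℝ) * Real.log q ≤
      2 * d * V := by
    rw [sum_comm, mul_sum]
    refine le_trans (sum_le_sum (g := fun q => 2 * (d : ℝ) * ((mu q : ℝ) * Real.log q))
      fun q hq => ?_) ?_
    · rw [← sum_mul, ← mul_assoc, ← mul_assoc]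
      exact mul_le_mul_of_nonneg_right (hone q hq) (hq0 q)
    · rw [← mul_sum]
      exact mul_le_mul_of_nonneg_left hmuV (by positivity)
  have hsep : ∑ q ∈ FF, (sq q : ℝ) * Real.log q ≤ 2 * (((J.card : ℝ) + 1) ^ 2 * Λ) := by
    have h1 : ∑ q ∈ FF, (sq q : ℝ) * Real.log q =
        2 * ∑ q ∈ FF, (rsep P q : ℝ) * Real.log q := by
      rw [mul_sum]
      apply sum_congr rfl
      intro q _
      rw [hsq]
      push_cast
      ring
    rw [h1]
    apply mul_le_mul_of_nonneg_left _ (by norm_num)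
    refine (sum_rsep_le P FF hFFp hres hlogres hΛ0).trans ?_
    apply mul_le_mul_of_nonneg_right _ hΛ0
    apply pow_le_pow_left₀ (Nat.cast_nonneg _)
    exact_mod_cast card_insert_le F J
  have hW : ∀ G ∈ J, W0 κ (fz A G) ≤
      d * ∑ q ∈ FF, ((tt G q - sq q : ℕ) : ℝ) * Real.log q +
        d * (2 * (((J.card : ℝ) + 1) ^ 2 * Λ)) := by
    intro G hG
    rw [hWF G hG]
    have h1 : ∑ q ∈ FF, (lev κ (fz A G) q : ℝ) * Real.log q ≤
        ∑ q ∈ FF, (d * (((tt G q - sq q : ℕ) : ℝ) * Real.log q) +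
          d * ((sq q : ℝ) * Real.log q)) := by
      apply sum_le_sum
      intro q _
      have h2 : lev κ (fz A G) q ≤ d * ((tt G q - sq q) + sq q) :=
        (htt1 G q).trans (Nat.mul_le_mul_left _ (by omega))
      have h3 : (lev κ (fz A G) q : ℝ) ≤
          d * (((tt G q - sq q : ℕ) : ℝ) + sq q) := by exact_mod_cast h2
      have h4 := mul_le_mul_of_nonneg_right h3 (hq0 q)
      refine h4.trans (le_of_eq ?_)
      ring
    refine h1.trans ?_
    rw [sum_add_distrib, ← mul_sum, ← mul_sum]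
    have h5 := mul_le_mul_of_nonneg_left hsep hdr0.le
    linarith only [h5]
  refine (sum_le_sum hW).trans ?_
  rw [sum_add_distrib, ← mul_sum, sum_const, nsmul_eq_mul]
  have h6 : ∑ G ∈ J, ∑ q ∈ FF, ((tt G q - sq q : ℕ) : ℝ) * Real.log q ≤ 2 * d * V / κ := by
    rw [le_div_iff₀ hκ0, mul_comm]
    exact hall
  have h7 := mul_le_mul_of_nonneg_left h6 hdr0.le
  have h8 : (d : ℝ) * (2 * d * V / κ) = 2 * (d : ℝ) ^ 2 / κ * V := by ring
  have h9 : (J.card : ℝ) * (d * (2 * (((J.card : ℝ) + 1) ^ 2 * Λ))) =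
      2 * (d * J.card * (((J.card : ℝ) + 1) ^ 2 * Λ)) := by ring
  linarith only [h7, h8]

end Pool.Agent.Helper99.RT
end

/- Helper24.TT.H99.RT.Zer -/
section
/-!
# Project RT (MP_120218_co): a maximal coprime family of exceptional polynomials and its zeros
-/

set_option autoImplicit false

open Finset Polynomial

namespace Pool.Agent.Helper99.RT

open Pool.Agent.Helper26.TR Pool.Agent.Helper88.NZ
open Pool.Agent.Helper99.TR (Gd log_nn zeros card_zeros mem_zeros exists_zero exists_common_root)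
open Pool.Agent.Helper88.RT (W1a NRMix recSum)

/-- the relation given by the structure theorem for sums of reciprocals -/
def RelR (A : Finset ℤ) (θ κ C W : ℝ) (F : ℤ[X]) : Prop :=
  (∀ (T : Finset ℕ) (e : ℕ → ℕ) (β : ℕ → ℤ), Pop (θ * κ) (fz A F) T e β →
    W1a T e β ≤ C * W0 κ (fz A F)) ∧ W ≤ W0 κ (fz A F)

/-- exceptional polynomials for one density -/
def Ex (A : Finset ℤ) (d : ℕ) (H : ℤ) (θ κ C W : ℝ) (F : ℤ[X]) : Prop :=
  Gd d H F ∧ RelR A θ κ C W F

/-- finite families of pairwise coprime exceptional polynomials -/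
def Fam (A : Finset ℤ) (d : ℕ) (H : ℤ) (θ κ C W : ℝ) (J : Finset ℤ[X]) : Prop :=
  (∀ G ∈ J, Ex A d H θ κ C W G) ∧ ∀ G ∈ J, ∀ G' ∈ J, G ≠ G' → res G G' ≠ 0

theorem card_Fam {A : Finset ℤ} {d : ℕ} (hd : 1 ≤ d) (hA : 2 * d ≤ A.card) {κ : ℝ}
    (hκ0 : 0 < κ) (hκ1 : κ ≤ 1) {C : ℝ} {H : ℤ} (hH : 1 ≤ H) {W S : ℝ}
    (hS : Real.log (((2 * d).factorial : ℝ) * (H : ℝ) ^ (2 * d)) ≤ S) {m : ℕ}
    (hm : 2 + 2 * (d : ℝ) ^ 2 / κ * C ≤ m) (hW0 : 0 < W)
    (hW : 2 * ((d : ℝ) * (m + 1) * (((m : ℝ) + 2) ^ 2 * S)) ≤ W) (J : Finset ℤ[X])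
    (hJ : Fam A d H (1 / (2 * (d : ℝ) ^ 3)) κ C W J) : J.card ≤ m := by
  classical
  by_contra hlt
  push Not at hlt
  obtain ⟨J', hJ'J, hJ'c⟩ := exists_subset_card_eq (s := J) (n := m + 1) (by omega)
  have hne : J'.Nonempty := card_pos.1 (by omega)
  obtain ⟨F, hF, hmin⟩ := exists_min_image J' (fun G => W0 κ (fz A G)) hne
  obtain ⟨hFg, hrel, hWF⟩ := hJ.1 F (hJ'J hF)
  set K : Finset ℤ[X] := J'.erase F with hK
  have hKJ : K ⊆ J' := erase_subset _ _
  have hKc : K.card = m := by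
    rw [hK, card_erase_of_mem hF, hJ'c]
    rfl
  have hins : ∀ G ∈ insert F K, G ∈ J := by
    intro G hG
    rcases mem_insert.1 hG with h | h
    · rw [h]; exact hJ'J hF
    · exact hJ'J (hKJ h)
  have key := one_set hd hA hκ0 hκ1 K F hH (fun G hG => (hJ.1 G (hJ'J (hKJ hG))).1) hFg
    (notMem_erase _ _) (fun G hG G' hG' h => hJ.2 G (hins G hG) G' (hins G' hG') h)
    (V := C * W0 κ (fz A F)) hrel
  have hWF0 : 0 < W0 κ (fz A F) := hW0.trans_le hWF
  have hlow : (m : ℝ) * W0 κ (fz A F) ≤ ∑ G ∈ K, W0 κ (fz A G) := by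
    calc (m : ℝ) * W0 κ (fz A F) = ∑ _G ∈ K, W0 κ (fz A F) := by
          rw [sum_const, nsmul_eq_mul, hKc]
      _ ≤ ∑ G ∈ K, W0 κ (fz A G) := sum_le_sum fun G hG => hmin G (hKJ hG)
  have hS0 : 0 ≤ S := (log_nn hH).trans hS
  have herr : 2 * ((d : ℝ) * K.card * (((K.card : ℝ) + 1) ^ 2 *
      Real.log (((2 * d).factorial : ℝ) * (H : ℝ) ^ (2 * d)))) ≤ W0 κ (fz A F) := by
    refine le_trans ?_ (hW.trans hWF)
    rw [hKc]
    apply mul_le_mul_of_nonneg_left _ (by norm_num)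
    apply mul_le_mul
    · exact mul_le_mul_of_nonneg_left (by linarith only []) (by (clear * - hd; positivity))
    · calc ((m : ℝ) + 1) ^ 2 * Real.log (((2 * d).factorial : ℝ) * (H : ℝ) ^ (2 * d))
          ≤ ((m : ℝ) + 1) ^ 2 * S := mul_le_mul_of_nonneg_left hS (by (clear * -; positivity))
        _ ≤ ((m : ℝ) + 2) ^ 2 * S := by
          apply mul_le_mul_of_nonneg_right _ hS0
          apply pow_le_pow_left₀ (by (clear * -; positivity))
          linarith only []
    · exact mul_nonneg (by (clear * -; positivity)) (log_nn hH)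
    · (clear * - hd; positivity)
  have h1 : (m : ℝ) * W0 κ (fz A F) ≤
      (2 * (d : ℝ) ^ 2 / κ * C + 1) * W0 κ (fz A F) := by
    refine hlow.trans (key.trans ?_)
    have : 2 * (d : ℝ) ^ 2 / κ * (C * W0 κ (fz A F)) + W0 κ (fz A F) =
        (2 * (d : ℝ) ^ 2 / κ * C + 1) * W0 κ (fz A F) := by ring
    linarith only [herr]
  have h2 := le_of_mul_le_mul_right h1 hWF0
  linarith only [hm, h2]

/-- a boundedly large set of complex numbers containing a zero of each exceptional polynomial -/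
theorem exists_zeros {A : Finset ℤ} {d : ℕ} (hd : 1 ≤ d) (hA : 2 * d ≤ A.card) {κ : ℝ}
    (hκ0 : 0 < κ) (hκ1 : κ ≤ 1) {C : ℝ} {H : ℤ} (hH : 1 ≤ H) {W S : ℝ}
    (hS : Real.log (((2 * d).factorial : ℝ) * (H : ℝ) ^ (2 * d)) ≤ S) {m : ℕ}
    (hm : 2 + 2 * (d : ℝ) ^ 2 / κ * C ≤ m) (hW0 : 0 < W)
    (hW : 2 * ((d : ℝ) * (m + 1) * (((m : ℝ) + 2) ^ 2 * S)) ≤ W) :
    ∃ Z : Finset ℂ, Z.card ≤ m * d ∧ ∀ F, Gd d H F →
      RelR A (1 / (2 * (d : ℝ) ^ 3)) κ C W F → ∃ z ∈ Z, aeval z F = 0 := by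
  classical
  have hbd := fun J => card_Fam (A := A) hd hA hκ0 hκ1 hH hS hm hW0 hW J
  set P : ℕ → Prop := fun n => ∃ J, Fam A d H (1 / (2 * (d : ℝ) ^ 3)) κ C W J ∧ J.card = n
    with hP
  have hP0 : P 0 := ⟨∅, ⟨by simp, by simp⟩, rfl⟩
  have hmax : P (Nat.findGreatest P m) := Nat.findGreatest_spec (P := P) (Nat.zero_le _) hP0
  obtain ⟨J, hJ, hJc⟩ := hmax
  refine ⟨J.biUnion zeros, ?_, ?_⟩
  · refine card_biUnion_le.trans ?_
    calc ∑ G ∈ J, (zeros G).card ≤ ∑ _G ∈ J, d :=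
          sum_le_sum fun G hG => (card_zeros G).trans (hJ.1 G hG).1.2.2.1
      _ = J.card * d := by rw [sum_const, smul_eq_mul]
      _ ≤ m * d := Nat.mul_le_mul_right _ (hbd J hJ)
  · intro F hFg hrel
    have hmem : ∀ G ∈ J, ∀ z : ℂ, aeval z G = 0 → z ∈ J.biUnion zeros := fun G hG z hz =>
      mem_biUnion.2 ⟨G, hG, mem_zeros (by
        intro h0
        have := (hJ.1 G hG).1.2.1
        rw [h0, natDegree_zero] at this
        omega) hz⟩
    by_cases hFJ : F ∈ J
    · obtain ⟨z, hz⟩ := exists_zero hFg.2.1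
      exact ⟨z, hmem F hFJ z hz, hz⟩
    by_cases hall : ∀ G ∈ J, res F G ≠ 0 ∧ res G F ≠ 0
    · exfalso
      have hJF : Fam A d H (1 / (2 * (d : ℝ) ^ 3)) κ C W (insert F J) := by
        refine ⟨?_, ?_⟩
        · intro G hG
          rcases mem_insert.1 hG with h | h
          · rw [h]; exact ⟨hFg, hrel⟩
          · exact hJ.1 G h
        · intro G hG G' hG' hne
          rcases mem_insert.1 hG with h | h
          · rcases mem_insert.1 hG' with h' | h'
            · exact absurd (h.trans h'.symm) hne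
            · rw [h]; exact (hall G' h').1
          · rcases mem_insert.1 hG' with h' | h'
            · rw [h']; exact (hall G h).2
            · exact hJ.2 G h G' h' hne
      have h1 := hbd _ hJF
      have h2 : (insert F J).card = J.card + 1 := card_insert_of_notMem hFJ
      have h3 : P (J.card + 1) := ⟨insert F J, hJF, h2⟩
      have h4 := Nat.le_findGreatest (P := P) (by omega : J.card + 1 ≤ m) h3
      omega
    · push Not at hall
      obtain ⟨G, hG, hres⟩ := hall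
      by_cases h0 : res F G = 0
      · obtain ⟨z, hz1, hz2⟩ := exists_common_root h0
        exact ⟨z, hmem G hG z hz2, hz1⟩
      · obtain ⟨z, hz1, hz2⟩ := exists_common_root (hres h0)
        exact ⟨z, hmem G hG z hz1, hz2⟩

end Pool.Agent.Helper99.RT
end

/- Helper24.TT.H99.TR.ZerC -/
section
/-!
# Project TR (MP_120218_co): the exceptional zeros

For every finite set `A` of integers there is a boundedly large set `Z` of complex numbers such
that every polynomial `F` of bounded degree and moderate height without zeros in `Z` maps `A` to a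
set which expands every finite set `B` of nonzero complex numbers multiplicatively.
-/

set_option autoImplicit false

open Finset Polynomial

namespace Pool.Agent.Helper99.TR

open Pool.Agent.Helper26.TR Pool.Agent.Helper88.NZ

/-- the products `F(a) b`, `a ∈ A`, `b ∈ B` -/
noncomputable def valProd (F : ℤ[X]) (A : Finset ℤ) (B : Finset ℂ) : Finset ℂ := by
  classical
  exact image₂ (fun (a : ℤ) (b : ℂ) => ((F.eval a : ℤ) : ℂ) * b) A B

/-- the theorem on exceptional zeros -/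
def TRZ : Prop :=
  ∀ (ε : ℝ) (d : ℕ), 0 < ε → ∃ (m : ℕ) (c : ℝ), 0 < c ∧
    ∀ A : Finset ℤ, A.Nonempty → ∃ Z : Finset ℂ, Z.card ≤ m ∧
      ∀ F : ℤ[X], 1 ≤ F.natDegree → F.natDegree ≤ d →
        (∀ j, (|F.coeff j| : ℝ) ≤ (A.card : ℝ) ^ (c * Real.log (Real.log A.card))) →
        (∀ z ∈ Z, aeval z F ≠ 0) →
        ∀ B : Finset ℂ, B.Nonempty → (0 : ℂ) ∉ B →
          c * ((A.card : ℝ) * (B.card : ℝ)) ^ (1 - ε) ≤ (((valProd F A B).erase 0).card : ℝ)

/-- the values as complex numbers -/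
noncomputable def cvals (F : ℤ[X]) (A : Finset ℤ) : Finset ℂ := by
  classical
  exact A.image (fun a : ℤ => ((F.eval a : ℤ) : ℂ))

theorem valProd_eq (F : ℤ[X]) (A : Finset ℤ) (B : Finset ℂ) :
    valProd F A B = prd (cvals F A) B := by
  classical
  ext y
  rw [mem_prd]
  unfold valProd cvals
  simp only [mem_image₂, mem_image]
  constructor
  · rintro ⟨a, ha, b, hb, rfl⟩
    exact ⟨_, ⟨a, ha, rfl⟩, b, hb, rfl⟩
  · rintro ⟨_, ⟨a, ha, rfl⟩, b, hb, rfl⟩
    exact ⟨a, ha, b, hb, rfl⟩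

/-- the products of the values of the primitive part -/
theorem mix_le_hProd {F P : ℤ[X]} {g : ℤ} (hg : g ≠ 0) (hFP : ∀ a, F.eval a = g * P.eval a)
    (A : Finset ℤ) (h : ℕ) :
    (mixSet (fun _ : Fin h => fz A P)).card ≤ (hProd h (cvals F A)).card := by
  classical
  refine card_le_card_of_injOn (fun y : ℤ => (g : ℂ) ^ h * (y : ℂ)) ?_ ?_
  · intro y hy
    rw [mem_coe] at hy ⊢
    unfold mixSet at hy
    rw [mem_image] at hy
    obtain ⟨f, hf, rfl⟩ := hy
    rw [Fintype.mem_piFinset] at hf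
    rw [mem_hProd]
    refine ⟨fun i => (g : ℂ) * (f i : ℂ), fun i => ?_, ?_⟩
    · have h1 := hf i
      unfold fz at h1
      obtain ⟨a, ha, hfa⟩ := mem_image.1 (mem_of_mem_erase h1)
      unfold cvals
      rw [mem_image]
      refine ⟨a, ha, ?_⟩
      change ((F.eval a : ℤ) : ℂ) = (g : ℂ) * (f i : ℂ)
      rw [hFP a, ← hfa]
      push_cast
      rfl
    · rw [prod_mul_distrib, prod_const, card_univ, Fintype.card_fin]
      push_cast
      rfl
  · intro x _ y _ hxy
    have hg' : (g : ℂ) ^ h ≠ 0 := pow_ne_zero _ (by exact_mod_cast hg)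
    have h1 := mul_left_cancel₀ hg' hxy
    exact_mod_cast h1

theorem W0_nonneg (κ : ℝ) (V : Finset ℤ) : 0 ≤ W0 κ V := by
  unfold W0
  exact sum_nonneg fun q _ => mul_nonneg (Nat.cast_nonneg _) (Real.log_natCast_nonneg q)

theorem W0b_const {k : ℕ} (κ : ℝ) (V : Finset ℤ) (l : Fin k) :
    W0b κ (fun _ : Fin k => V) l ≤ k * W0 κ V := by
  unfold W0b
  rw [sum_const, nsmul_eq_mul]
  apply mul_le_mul_of_nonneg_right _ (W0_nonneg κ V)
  have h2 : (univ.filter (fun l' : Fin k => l' < l)).card ≤ k := by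
    refine (card_filter_le _ _).trans ?_
    rw [card_univ, Fintype.card_fin]
  exact_mod_cast h2

theorem rel_of_nz {k : ℕ} (hk : (0 : ℝ) < k) {A : Finset ℤ} {θ κ C c₁ LL : ℝ} (hC : 0 < C)
    {P : ℤ[X]} {l : Fin k} (hLL : 1 ≤ c₁ * LL)
    (hl1 : ∀ (T : Finset ℕ) (e : ℕ → ℕ) (β : ℕ → ℤ), Pop (θ * κ) (fz A P) T e β →
      W1 T e β ≤ C * (W0b κ (fun _ : Fin k => fz A P) l + 1))
    (hl2 : c₁ * LL ≤ W0b κ (fun _ : Fin k => fz A P) l) :
    RelP A θ κ (2 * C * k) (c₁ / k * LL) P P := by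
  have hWk := W0b_const κ (fz A P) l
  have hWb1 : 1 ≤ W0b κ (fun _ : Fin k => fz A P) l := hLL.trans hl2
  constructor
  · intro T e β hPop
    refine (hl1 T e β hPop).trans ?_
    calc C * (W0b κ (fun _ : Fin k => fz A P) l + 1)
        ≤ C * (2 * W0b κ (fun _ : Fin k => fz A P) l) := by
          apply mul_le_mul_of_nonneg_left _ hC.le
          linarith only [hWb1]
      _ ≤ C * (2 * (k * W0 κ (fz A P))) := by
          apply mul_le_mul_of_nonneg_left _ hC.le
          linarith only [hWk]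
      _ = 2 * C * k * W0 κ (fz A P) := by ring
  · have h1 : c₁ * LL ≤ k * W0 κ (fz A P) := hl2.trans hWk
    rw [div_mul_eq_mul_div, div_le_iff₀ hk, mul_comm _ (k : ℝ)]
    exact h1

theorem hProd_large {k : ℕ} {A : Finset ℤ} {N c₁ dd : ℝ} (hN : 0 < N) (hd : 0 < dd)
    (hc₁ : 0 < c₁) {F P : ℤ[X]} {g : ℤ} (hg : g ≠ 0) (hFP : ∀ a, F.eval a = g * P.eval a)
    (hV : N / dd ≤ ((fz A P).card : ℝ))
    (hl : c₁ * N ^ (-(1 : ℝ)) * ∏ _l : Fin k, ((fz A P).card : ℝ) ≤
      ((mixSet (fun _ : Fin k => fz A P)).card : ℝ)) :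
    c₁ / dd ^ k * N ^ ((k : ℝ) - 1) ≤ ((hProd k (cvals F A)).card : ℝ) := by
  have h0 : 0 < N / dd := div_pos hN hd
  have hprod : (N / dd) ^ k ≤ ∏ _l : Fin k, ((fz A P).card : ℝ) := by
    rw [prod_const, card_univ, Fintype.card_fin]
    exact pow_le_pow_left₀ h0.le hV k
  calc c₁ / dd ^ k * N ^ ((k : ℝ) - 1)
      = c₁ * N ^ (-(1 : ℝ)) * (N / dd) ^ k := by
        rw [show (k : ℝ) - 1 = -(1 : ℝ) + k by ring, Real.rpow_add hN, Real.rpow_natCast,
          div_pow]
        ring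
    _ ≤ c₁ * N ^ (-(1 : ℝ)) * ∏ _l : Fin k, ((fz A P).card : ℝ) :=
        mul_le_mul_of_nonneg_left hprod (by positivity)
    _ ≤ ((mixSet (fun _ : Fin k => fz A P)).card : ℝ) := hl
    _ ≤ _ := by exact_mod_cast mix_le_hProd hg hFP A k

theorem trz (hNZ : NZMixT) : TRZ := by
  classical
  intro ε d₀ hε
  set d : ℕ := max d₀ 1 with hdd
  have hd : 1 ≤ d := le_max_right _ _
  have hd0 : d₀ ≤ d := le_max_left _ _
  clear_value d
  have hdr : (1 : ℝ) ≤ d := by exact_mod_cast hd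
  have hdr0 : (0 : ℝ) < d := by linarith only [hdr]
  -- the number of factors
  set k : ℕ := ⌈1 / ε⌉₊ with hk
  have hk1' : 1 / ε ≤ (k : ℝ) := Nat.le_ceil _
  have hk0' : 0 < k := by
    rw [hk, Nat.ceil_pos]
    (clear * - hε; positivity)
  have hk1 : (1 : ℝ) ≤ k := by exact_mod_cast hk0'
  have hk0 : (0 : ℝ) < k := by linarith only [hk1]
  have hkε : 1 / (k : ℝ) ≤ ε := by
    rw [div_le_iff₀ hk0]
    rw [div_le_iff₀ hε] at hk1'
    linarith only [hk1']
  clear_value k
  set θ : ℝ := 1 / (2 * (d : ℝ) ^ 3) with hθ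
  have hθ0 : 0 < θ := by positivity
  have hθ1 : θ ≤ 1 := by
    rw [hθ, div_le_one (by positivity)]
    have : (1 : ℝ) ≤ (d : ℝ) ^ 3 := one_le_pow₀ hdr
    linarith only [this]
  obtain ⟨κ, C, c₁, hκ, hC, hc₁, hnz⟩ := hNZ k 1 one_pos θ hθ0 hθ1
  -- the number of exceptions
  have hml : ∀ l : Fin k, ∃ m : ℕ, 2 + 2 * (d : ℝ) ^ 2 / κ l * (2 * C * k) ≤ m :=
    fun l => exists_nat_ge _
  choose ml hml using hml
  set m : ℕ := 1 + ∑ l, ml l * d with hm
  have hmlm : ∀ l, (ml l : ℝ) ≤ m := by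
    intro l
    have h1 : ml l * d ≤ ∑ l, ml l * d := single_le_sum (f := fun l => ml l * d)
      (fun _ _ => Nat.zero_le _) (mem_univ l)
    have h2 : ml l * 1 ≤ ml l * d := Nat.mul_le_mul_left _ hd
    have h3 : ml l ≤ m := by omega
    exact_mod_cast h3
  set c₀ : ℝ := c₁ / (k * (d * ((m : ℝ) + 1) * (((m : ℝ) + 2) ^ 2 * (2 * d + 1)))) with hc₀
  have hc₀0 : 0 < c₀ := by (clear * - hc₁ hk0' hd; positivity)
  clear_value m
  set Lf : ℝ := Real.log ((2 * d).factorial : ℝ) with hLf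
  have hLf0 : 0 ≤ Lf := by
    apply Real.log_nonneg
    exact_mod_cast Nat.one_le_iff_ne_zero.2 (Nat.factorial_ne_zero _)
  -- the threshold
  set L₀ : ℝ := max 16 (1 / c₁ + Lf / c₀ + Real.log (2 * d)) with hL₀
  have hL₀1 : 16 ≤ L₀ := le_max_left _ _
  have hL₀2 : 1 / c₁ + Lf / c₀ + Real.log (2 * d) ≤ L₀ := le_max_right _ _
  set c₂ : ℝ := (c₁ / (2 * d) ^ k / 2) ^ (1 / (k : ℝ)) with hc₂
  have hc₂0 : 0 < c₂ := by (clear * - hc₁ hd; positivity)
  set c : ℝ := min c₂ (min c₀ (Real.exp (-L₀))) with hc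
  have hc0 : 0 < c := by
    rw [hc]
    apply lt_min hc₂0 (lt_min hc₀0 (Real.exp_pos _))
  have hcc₂ : c ≤ c₂ := min_le_left _ _
  have hcc₀ : c ≤ c₀ := (min_le_right _ _).trans (min_le_left _ _)
  have hce : c ≤ Real.exp (-L₀) := (min_le_right _ _).trans (min_le_right _ _)
  clear_value c c₂ L₀
  refine ⟨m, c, hc0, ?_⟩
  intro A hA
  have hN1 : (1 : ℝ) ≤ A.card := by exact_mod_cast card_pos.2 hA
  have hNpos : (0 : ℝ) < A.card := by linarith only [hN1]
  set N : ℝ := (A.card : ℝ) with hN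
  -- small `N`
  by_cases hL0 : Real.log N ≤ L₀
  · obtain ⟨a₀, ha₀⟩ := hA
    refine ⟨{(a₀ : ℂ)}, by rw [card_singleton]; omega, ?_⟩
    intro F _ _ _ hz B hB h0
    have hFa : ((F.eval a₀ : ℤ) : ℂ) ≠ 0 := by
      have h1 := hz (a₀ : ℂ) (mem_singleton_self _)
      intro h2
      apply h1
      have h3 : aeval (a₀ : ℂ) F = ((F.eval a₀ : ℤ) : ℂ) := by
        have h4 := aeval_algebraMap_apply ℂ a₀ F
        simpa using h4
      rw [h3]
      exact h2
    have hB1 : (1 : ℝ) ≤ B.card := by exact_mod_cast hB.card_pos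
    have h2 : (B.card : ℝ) ≤ (((valProd F A B).erase 0).card : ℝ) := by
      apply Nat.cast_le.2
      refine card_le_card_of_injOn (fun b : ℂ => ((F.eval a₀ : ℤ) : ℂ) * b) ?_ ?_
      · intro b hb
        unfold valProd
        rw [mem_coe, mem_erase, mem_image₂]
        exact ⟨mul_ne_zero hFa (fun h => h0 (h ▸ hb)), a₀, ha₀, b, hb, rfl⟩
      · intro x _ y _ hxy
        exact mul_left_cancel₀ hFa hxy
    refine le_trans ?_ h2
    have hL0' : 0 ≤ Real.log N := Real.log_nonneg hN1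
    have h3 : (N * (B.card : ℝ)) ^ (1 - ε) ≤ N * B.card := by
      calc (N * (B.card : ℝ)) ^ (1 - ε) ≤ (N * (B.card : ℝ)) ^ (1 : ℝ) :=
            Real.rpow_le_rpow_of_exponent_le (by (clear * - hB1 hN1; nlinarith only [hN1, hB1])) (by linarith only [hε])
        _ = _ := Real.rpow_one _
    have h4 : c * N ≤ 1 := by
      calc c * N ≤ Real.exp (-L₀) * N := mul_le_mul_of_nonneg_right hce hNpos.le
        _ = Real.exp (-L₀) * Real.exp (Real.log N) := by rw [Real.exp_log hNpos]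
        _ = Real.exp (Real.log N - L₀) := by
            rw [← Real.exp_add]
            congr 1
            ring
        _ ≤ Real.exp 0 := Real.exp_le_exp.2 (by linarith only [hL0])
        _ = 1 := Real.exp_zero
    calc c * (N * (B.card : ℝ)) ^ (1 - ε) ≤ c * (N * B.card) :=
          mul_le_mul_of_nonneg_left h3 hc0.le
      _ = c * N * B.card := by ring
      _ ≤ 1 * B.card := mul_le_mul_of_nonneg_right h4 (by linarith only [])
      _ = B.card := one_mul _
  push Not at hL0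
  have hL16 : 16 ≤ Real.log N := hL₀1.trans hL0.le
  have hL2 : 1 / c₁ + Lf / c₀ + Real.log (2 * d) ≤ Real.log N := hL₀2.trans hL0.le
  have hNexp : Real.exp 16 ≤ N := by rwa [← Real.le_log_iff_exp_le hNpos]
  obtain ⟨-, hLL1, -⟩ := half_log hNexp (M := N) (by (clear * - hN; linarith only [hN]))
  have hi1 : 0 < 1 / c₁ := by (clear * - hc₁; positivity)
  have hi0 : 0 ≤ Lf / c₀ := by (clear * - hc₁ hk0' hd; positivity)
  have hi2 : 0 ≤ Real.log (2 * d) := Real.log_nonneg (by linarith only [hdr])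
  set LL : ℝ := Real.log N * Real.log (Real.log N) with hLL
  have hLLL : Real.log N ≤ LL := by
    rw [hLL]
    (clear * - hLL1 hL16; nlinarith only [hL16, hLL1])
  have hLLc₁ : 1 ≤ c₁ * LL := by
    have h1 : 1 / c₁ ≤ LL := by linarith only [hL2, hi0, hi2, hLLL]
    rw [div_le_iff₀ hc₁] at h1
    linarith only [h1]
  have hLLc₀ : Lf ≤ c₀ * LL := by
    have h1 : Lf / c₀ ≤ LL := by linarith only [hL2, hi1, hi2, hLLL]
    rw [div_le_iff₀ hc₀0] at h1
    linarith only [h1]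
  have hLL0 : 0 < LL := by linarith only [hL16, hLLL]
  have hN2d : 2 * (d : ℝ) ≤ N := by
    rw [← Real.log_le_log_iff (by positivity) hNpos]
    linarith only [hL2, hi1, hi0]
  have hA2d : 2 * d ≤ A.card := by
    have h1 : (2 : ℝ) * d ≤ (A.card : ℝ) := hN2d
    exact_mod_cast h1
  set X' : ℝ := N ^ (c * Real.log (Real.log N)) with hX
  have hX1 : 1 ≤ X' := by
    apply Real.one_le_rpow hN1
    apply mul_nonneg hc0.le
    linarith only [hLL1]
  have hXpos : 0 < X' := by linarith only [hX1]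
  have hlogX : Real.log X' ≤ c₀ * LL := by
    rw [hX, Real.log_rpow hNpos]
    have h1 : c * Real.log (Real.log N) * Real.log N = c * LL := by rw [hLL]; ring
    rw [h1]
    exact mul_le_mul_of_nonneg_right hcc₀ hLL0.le
  set H : ℤ := ⌊X'⌋ with hH
  have hH1 : 1 ≤ H := Int.le_floor.2 (by exact_mod_cast hX1)
  have hHr1 : (1 : ℝ) ≤ H := by exact_mod_cast hH1
  have hHX : (H : ℝ) ≤ X' := Int.floor_le _
  have hlogH : Real.log (((2 * d).factorial : ℝ) * (H : ℝ) ^ (2 * d)) ≤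
      (2 * d + 1) * (c₀ * LL) := by
    rw [Real.log_mul (by positivity) (by (clear * - hH1; positivity)), Real.log_pow]
    have h1 : Real.log H ≤ c₀ * LL := (Real.log_le_log (by linarith only [hHr1]) hHX).trans hlogX
    have h2 : ((2 * d : ℕ) : ℝ) * Real.log H ≤ (2 * d) * (c₀ * LL) := by
      push_cast
      exact mul_le_mul_of_nonneg_left h1 (by positivity)
    linarith only [hLLc₀, h2]
  -- the exceptional zeros
  have hEl : ∀ l : Fin k, ∃ Z : Finset ℂ, Z.card ≤ ml l * d ∧ ∀ F, Gd d H F →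
      RelP A θ (κ l) (2 * C * k) (c₁ / k * LL) F F → ∃ z ∈ Z, aeval z F = 0 := by
    intro l
    refine exists_zeros hd hA2d (hκ l).1 (hκ l).2 hH1 hlogH (hml l)
      (by (clear * - hc₁ hk0' hL16 hLL1; positivity)) ?_
    calc (d : ℝ) * ((ml l : ℝ) + 1) * (((ml l : ℝ) + 2) ^ 2 * ((2 * d + 1) * (c₀ * LL)))
        ≤ (d : ℝ) * ((m : ℝ) + 1) * (((m : ℝ) + 2) ^ 2 * ((2 * d + 1) * (c₀ * LL))) := by
          have := hmlm l
          (clear * - this hd hc₁ hk0' hL16 hLL1; gcongr)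
      _ = ((d * ((m : ℝ) + 1) * (((m : ℝ) + 2) ^ 2 * (2 * d + 1))) * c₀) * LL := by ring
      _ = c₁ / k * LL := by
          congr 1
          rw [hc₀]
          (clear * - hd hk0' hc₁; field_simp)
  choose El hEl1 hEl2 using hEl
  refine ⟨univ.biUnion El, ?_, ?_⟩
  · refine card_biUnion_le.trans ?_
    have h1 := sum_le_sum fun l (_ : l ∈ univ) => hEl1 l
    (clear * - ε d₀ hm c A h1; omega)
  · intro F hF1 hF2 hFc hFz B hB h0
    -- the primitive part
    set P : ℤ[X] := F.primPart with hP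
    set g : ℤ := F.content with hg
    have hFne : F ≠ 0 := by
      intro h
      rw [h, natDegree_zero] at hF1
      omega
    have hg0 : g ≠ 0 := by
      rw [hg, Ne, content_eq_zero_iff]
      exact hFne
    have hFP : F = Polynomial.C g * P := F.eq_C_content_mul_primPart
    have hFPe : ∀ a, F.eval a = g * P.eval a := by
      intro a
      conv_lhs => rw [hFP]
      rw [eval_mul, eval_C]
    have hPdeg : P.natDegree = F.natDegree := natDegree_primPart F
    have hgood : Gd d H P := by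
      refine ⟨F.isPrimitive_primPart, by omega, by rw [hPdeg]; exact hF2.trans hd0,
        fun j => ?_⟩
      rw [hH]
      apply Int.le_floor.2
      have h1 : |F.coeff j| = |g| * |P.coeff j| := by
        conv_lhs => rw [hFP]
        rw [coeff_C_mul, abs_mul]
      have h2 : |P.coeff j| ≤ |F.coeff j| := by
        rw [h1]
        have h3 : 1 ≤ |g| := Int.one_le_abs hg0
        (clear * - h3; nlinarith only [abs_nonneg (P.coeff j), h3])
      have h3 := hFc j
      have h4 : (|P.coeff j| : ℝ) ≤ (|F.coeff j| : ℝ) := by exact_mod_cast h2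
      push_cast
      exact h4.trans h3
    have hPz : ∀ z ∈ univ.biUnion El, aeval z P ≠ 0 := by
      intro z hz h
      apply hFz z hz
      rw [hFP, map_mul, h, mul_zero]
    -- the values
    have hdd0 : (0 : ℝ) < 2 * d := by linarith only [hdr0]
    have hVc : N / (2 * d) ≤ ((fz A P).card : ℝ) := by
      have h1 := card_fz hgood.2.1 hgood.2.2.1 hA2d
      have h2 : N ≤ 2 * d * ((fz A P).card : ℝ) := by
        rw [hN]
        exact_mod_cast h1
      rw [div_le_iff₀ hdd0]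
      linarith only [h2]
    clear_value P g
    have hVne : (fz A P).Nonempty := by
      rw [← card_pos]
      have h2 : 0 < N / (2 * d) := div_pos hNpos hdd0
      have h3 : (0 : ℝ) < ((fz A P).card : ℝ) := by linarith only [hVc, h2]
      exact_mod_cast h3
    -- the `k`-fold product set is large
    have hlarge : c₁ * ((A.card : ℕ) : ℝ) ^ (-(1 : ℝ)) * ∏ _l : Fin k, ((fz A P).card : ℝ) ≤
        ((mixSet (fun _ : Fin k => fz A P)).card : ℝ) := by
      by_contra hlt
      push Not at hlt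
      obtain ⟨l, -, hl1, hl2⟩ := hnz A.card (fun _ : Fin k => fz A P) (fun _ => hVne)
        (fun _ => fz_zero A _) (fun _ => card_fz_le A _) hlt
      obtain ⟨z, hz, hz0⟩ := hEl2 l P hgood (rel_of_nz hk0 hC hLLc₁ hl1 hl2)
      exact hPz z (mem_biUnion.2 ⟨l, mem_univ _, hz⟩) hz0
    -- the conclusion
    have hS : c₁ / (2 * d) ^ k * N ^ ((k : ℝ) - 1) ≤ ((hProd k (cvals F A)).card : ℝ) :=
      hProd_large hNpos hdd0 hc₁ hg0 hFPe hVc hlarge
    have hne : ∃ s ∈ cvals F A, s ≠ 0 := by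
      obtain ⟨b, hb⟩ := hVne
      have hb0 : b ≠ 0 := ne_of_mem_erase hb
      obtain ⟨a, ha, hab⟩ := mem_image.1 (mem_of_mem_erase hb)
      refine ⟨((F.eval a : ℤ) : ℂ), ?_, ?_⟩
      · unfold cvals
        exact mem_image_of_mem _ ha
      · rw [hFPe a, hab]
        exact_mod_cast mul_ne_zero hg0 hb0
    have h1 := expand_erase k hk0' (cvals F A) hne (c₁ / (2 * d) ^ k) N ε
      (div_pos hc₁ (pow_pos hdd0 k)) hN1 hkε hS B h0 hB
    rw [valProd_eq]
    refine le_trans ?_ h1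
    rw [← hc₂]
    exact mul_le_mul_of_nonneg_right hcc₂
      (Real.rpow_nonneg (mul_nonneg hNpos.le (Nat.cast_nonneg _)) _)

end Pool.Agent.Helper99.TR
end

/- Helper24.TT.H99.RT.Main -/
section
/-!
# Project RT (MP_120218_co): the exceptional zeros for sums of reciprocals
-/

set_option autoImplicit false

open Finset Polynomial

namespace Pool.Agent.Helper99.RT

open Pool.Agent.Helper26.TR Pool.Agent.Helper88.NZ
open Pool.Agent.Helper99.TR (Gd log_nn W0_nonneg W0b_const)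
open Pool.Agent.Helper88.RT (W1a NRMix recSum)

/-- the numbers `1 / F(a)`, `a ∈ A`, `F(a) ≠ 0` -/
noncomputable def rvals (F : ℤ[X]) (A : Finset ℤ) : Finset ℂ := by
  classical
  exact (A.filter (fun a => F.eval a ≠ 0)).image (fun a : ℤ => (((F.eval a : ℤ) : ℂ))⁻¹)

theorem mem_rvals (F : ℤ[X]) (A : Finset ℤ) (y : ℂ) :
    y ∈ rvals F A ↔ ∃ a ∈ A, F.eval a ≠ 0 ∧ (((F.eval a : ℤ) : ℂ))⁻¹ = y := by
  classical
  unfold rvals
  simp only [mem_image, mem_filter]
  constructor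
  · rintro ⟨a, ⟨h1, h2⟩, h3⟩
    exact ⟨a, h1, h2, h3⟩
  · rintro ⟨a, h1, h2, h3⟩
    exact ⟨a, ⟨h1, h2⟩, h3⟩

/-- the theorem on exceptional zeros, for sums of reciprocals -/
def RTZ : Prop :=
  ∀ (ε : ℝ) (d : ℕ), 0 < ε → ∃ (m : ℕ) (c : ℝ), 0 < c ∧
    ∀ A : Finset ℤ, A.Nonempty → ∃ Z : Finset ℂ, Z.card ≤ m ∧
      ∀ F : ℤ[X], 1 ≤ F.natDegree → F.natDegree ≤ d →
        (∀ j, (|F.coeff j| : ℝ) ≤ (A.card : ℝ) ^ (c * Real.log (Real.log A.card))) →
        (∀ z ∈ Z, aeval z F ≠ 0) →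
        ∀ B : Finset ℂ, B.Nonempty →
          c * ((A.card : ℝ) * (B.card : ℝ)) ^ (1 - ε) ≤ ((smm (rvals F A) B).card : ℝ)

/-- the sums of the reciprocals of the values of the primitive part -/
theorem rec_le_hSum {F P : ℤ[X]} {g : ℤ} (hg : g ≠ 0) (hFP : ∀ a, F.eval a = g * P.eval a)
    (A : Finset ℤ) (h : ℕ) :
    (recSum (fun _ : Fin h => fz A P)).card ≤ (hSum h (rvals F A)).card := by
  classical
  have hg' : (g : ℂ) ≠ 0 := by exact_mod_cast hg
  refine card_le_card_of_injOn (fun y : ℚ => (g : ℂ)⁻¹ * (y : ℂ)) ?_ ?_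
  · intro y hy
    rw [mem_coe] at hy ⊢
    unfold recSum at hy
    rw [mem_image] at hy
    obtain ⟨f, hf, rfl⟩ := hy
    rw [Fintype.mem_piFinset] at hf
    rw [mem_hSum]
    refine ⟨fun i => (g : ℂ)⁻¹ * ((f i : ℤ) : ℂ)⁻¹, fun i => ?_, ?_⟩
    · have h1 := hf i
      unfold fz at h1
      have hne : f i ≠ 0 := ne_of_mem_erase h1
      obtain ⟨a, ha, hfa⟩ := mem_image.1 (mem_of_mem_erase h1)
      rw [mem_rvals]
      refine ⟨a, ha, ?_, ?_⟩
      · rw [hFP a, hfa]
        exact mul_ne_zero hg hne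
      · rw [hFP a, hfa]
        push_cast
        rw [mul_inv]
    · rw [← mul_sum]
      push_cast
      rfl
  · intro x _ y _ hxy
    have h1 := mul_left_cancel₀ (inv_ne_zero hg') hxy
    exact_mod_cast h1

theorem rel_of_nr {k : ℕ} (hk : (0 : ℝ) < k) {A : Finset ℤ} {θ κ C c₁ LL : ℝ} (hC : 0 < C)
    {P : ℤ[X]} {l : Fin k} (hLL : 1 ≤ c₁ * LL)
    (hl1 : ∀ (T : Finset ℕ) (e : ℕ → ℕ) (β : ℕ → ℤ), Pop (θ * κ) (fz A P) T e β →
      W1a T e β ≤ C * (W0b κ (fun _ : Fin k => fz A P) l + 1))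
    (hl2 : c₁ * LL ≤ W0b κ (fun _ : Fin k => fz A P) l) :
    RelR A θ κ (2 * C * k) (c₁ / k * LL) P := by
  have hWk := W0b_const κ (fz A P) l
  have hWb1 : 1 ≤ W0b κ (fun _ : Fin k => fz A P) l := hLL.trans hl2
  constructor
  · intro T e β hPop
    refine (hl1 T e β hPop).trans ?_
    calc C * (W0b κ (fun _ : Fin k => fz A P) l + 1)
        ≤ C * (2 * W0b κ (fun _ : Fin k => fz A P) l) := by
          apply mul_le_mul_of_nonneg_left _ hC.le
          (clear * - hWb1; linarith only [hWb1])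
      _ ≤ C * (2 * (k * W0 κ (fz A P))) := by
          apply mul_le_mul_of_nonneg_left _ hC.le
          linarith only [hWk]
      _ = 2 * C * k * W0 κ (fz A P) := by ring
  · have h1 : c₁ * LL ≤ k * W0 κ (fz A P) := hl2.trans hWk
    rw [div_mul_eq_mul_div, div_le_iff₀ hk, mul_comm _ (k : ℝ)]
    exact h1

theorem hSum_large {k : ℕ} {A : Finset ℤ} {N c₁ dd : ℝ} (hN : 0 < N) (hd : 0 < dd)
    (hc₁ : 0 < c₁) {F P : ℤ[X]} {g : ℤ} (hg : g ≠ 0) (hFP : ∀ a, F.eval a = g * P.eval a)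
    (hV : N / dd ≤ ((fz A P).card : ℝ))
    (hl : c₁ * N ^ (-(1 : ℝ)) * ∏ _l : Fin k, ((fz A P).card : ℝ) ≤
      ((recSum (fun _ : Fin k => fz A P)).card : ℝ)) :
    c₁ / dd ^ k * N ^ ((k : ℝ) - 1) ≤ ((hSum k (rvals F A)).card : ℝ) := by
  have h0 : 0 < N / dd := div_pos hN hd
  have hprod : (N / dd) ^ k ≤ ∏ _l : Fin k, ((fz A P).card : ℝ) := by
    rw [prod_const, card_univ, Fintype.card_fin]
    exact pow_le_pow_left₀ h0.le hV k
  calc c₁ / dd ^ k * N ^ ((k : ℝ) - 1)
      = c₁ * N ^ (-(1 : ℝ)) * (N / dd) ^ k := by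
        rw [show (k : ℝ) - 1 = -(1 : ℝ) + k by ring, Real.rpow_add hN, Real.rpow_natCast,
          div_pow]
        ring
    _ ≤ c₁ * N ^ (-(1 : ℝ)) * ∏ _l : Fin k, ((fz A P).card : ℝ) :=
        mul_le_mul_of_nonneg_left hprod (by positivity)
    _ ≤ ((recSum (fun _ : Fin k => fz A P)).card : ℝ) := hl
    _ ≤ _ := by exact_mod_cast rec_le_hSum hg hFP A k

theorem rtz (hNZ : NRMix) : RTZ := by
  classical
  intro ε d₀ hε
  set d : ℕ := max d₀ 1 with hdd
  have hd : 1 ≤ d := le_max_right _ _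
  have hd0 : d₀ ≤ d := le_max_left _ _
  clear_value d
  have hdr : (1 : ℝ) ≤ d := by exact_mod_cast hd
  have hdr0 : (0 : ℝ) < d := by (clear * - hdr; linarith only [hdr])
  -- the number of factors
  set k : ℕ := ⌈1 / ε⌉₊ with hk
  have hk1' : 1 / ε ≤ (k : ℝ) := Nat.le_ceil _
  have hk0' : 0 < k := by
    rw [hk, Nat.ceil_pos]
    (clear * - hε; positivity)
  have hk1 : (1 : ℝ) ≤ k := by exact_mod_cast hk0'
  have hk0 : (0 : ℝ) < k := by linarith only [hk1]
  have hkε : 1 / (k : ℝ) ≤ ε := by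
    rw [div_le_iff₀ hk0]
    rw [div_le_iff₀ hε] at hk1'
    linarith only [hk1']
  clear_value k
  set θ : ℝ := 1 / (2 * (d : ℝ) ^ 3) with hθ
  have hθ0 : 0 < θ := by positivity
  have hθ1 : θ ≤ 1 := by
    rw [hθ, div_le_one (by positivity)]
    have : (1 : ℝ) ≤ (d : ℝ) ^ 3 := one_le_pow₀ hdr
    linarith only [this]
  obtain ⟨κ, C, c₁, hκ, hC, hc₁, hnz⟩ := hNZ k 1 one_pos θ hθ0 hθ1
  -- the number of exceptions
  have hml : ∀ l : Fin k, ∃ m : ℕ, 2 + 2 * (d : ℝ) ^ 2 / κ l * (2 * C * k) ≤ m :=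
    fun l => exists_nat_ge _
  choose ml hml using hml
  set m : ℕ := 1 + ∑ l, ml l * d with hm
  have hmlm : ∀ l, (ml l : ℝ) ≤ m := by
    intro l
    have h1 : ml l * d ≤ ∑ l, ml l * d := single_le_sum (f := fun l => ml l * d)
      (fun _ _ => Nat.zero_le _) (mem_univ l)
    have h2 : ml l * 1 ≤ ml l * d := Nat.mul_le_mul_left _ hd
    have h3 : ml l ≤ m := by omega
    exact_mod_cast h3
  set c₀ : ℝ := c₁ / (k * (2 * (d * ((m : ℝ) + 1) * (((m : ℝ) + 2) ^ 2 * (2 * d + 1))))) with hc₀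
  have hc₀0 : 0 < c₀ := by (clear * - hc₁ hk0' hd; positivity)
  clear_value m
  set Lf : ℝ := Real.log ((2 * d).factorial : ℝ) with hLf
  have hLf0 : 0 ≤ Lf := by
    apply Real.log_nonneg
    exact_mod_cast Nat.one_le_iff_ne_zero.2 (Nat.factorial_ne_zero _)
  -- the threshold
  set L₀ : ℝ := max 16 (1 / c₁ + Lf / c₀ + Real.log (2 * d)) with hL₀
  have hL₀1 : 16 ≤ L₀ := le_max_left _ _
  have hL₀2 : 1 / c₁ + Lf / c₀ + Real.log (2 * d) ≤ L₀ := le_max_right _ _
  set c₂ : ℝ := (c₁ / (2 * d) ^ k) ^ (1 / (k : ℝ)) with hc₂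
  have hc₂0 : 0 < c₂ := by (clear * - hc₁ hd; positivity)
  set c : ℝ := min c₂ (min c₀ (Real.exp (-L₀))) with hc
  have hc0 : 0 < c := by
    rw [hc]
    apply lt_min hc₂0 (lt_min hc₀0 (Real.exp_pos _))
  have hcc₂ : c ≤ c₂ := min_le_left _ _
  have hcc₀ : c ≤ c₀ := (min_le_right _ _).trans (min_le_left _ _)
  have hce : c ≤ Real.exp (-L₀) := (min_le_right _ _).trans (min_le_right _ _)
  clear_value c c₂ L₀
  refine ⟨m, c, hc0, ?_⟩
  intro A hA
  have hN1 : (1 : ℝ) ≤ A.card := by exact_mod_cast card_pos.2 hA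
  have hNpos : (0 : ℝ) < A.card := by linarith only [hN1]
  set N : ℝ := (A.card : ℝ) with hN
  -- small `N`
  by_cases hL0 : Real.log N ≤ L₀
  · obtain ⟨a₀, ha₀⟩ := hA
    refine ⟨{(a₀ : ℂ)}, by rw [card_singleton]; omega, ?_⟩
    intro F _ _ _ hz B hB
    have hFa : F.eval a₀ ≠ 0 := by
      have h1 := hz (a₀ : ℂ) (mem_singleton_self _)
      intro h2
      apply h1
      have h3 : aeval (a₀ : ℂ) F = ((F.eval a₀ : ℤ) : ℂ) := by
        have h4 := aeval_algebraMap_apply ℂ a₀ F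
        simpa using h4
      rw [h3, h2]
      simp
    have hB1 : (1 : ℝ) ≤ B.card := by exact_mod_cast hB.card_pos
    have h2 : (B.card : ℝ) ≤ ((smm (rvals F A) B).card : ℝ) := by
      apply Nat.cast_le.2
      refine card_le_card_of_injOn (fun b : ℂ => (((F.eval a₀ : ℤ) : ℂ))⁻¹ + b) ?_ ?_
      · intro b hb
        rw [mem_coe, mem_smm]
        exact ⟨_, (mem_rvals _ _ _).2 ⟨a₀, ha₀, hFa, rfl⟩, b, hb, rfl⟩
      · intro x _ y _ hxy
        exact add_left_cancel hxy
    refine le_trans ?_ h2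
    have hL0' : 0 ≤ Real.log N := Real.log_nonneg hN1
    have h3 : (N * (B.card : ℝ)) ^ (1 - ε) ≤ N * B.card := by
      calc (N * (B.card : ℝ)) ^ (1 - ε) ≤ (N * (B.card : ℝ)) ^ (1 : ℝ) :=
            Real.rpow_le_rpow_of_exponent_le (by (clear * - hB1 hN1; nlinarith only [hN1, hB1])) (by linarith only [hε])
        _ = _ := Real.rpow_one _
    have h4 : c * N ≤ 1 := by
      calc c * N ≤ Real.exp (-L₀) * N := mul_le_mul_of_nonneg_right hce hNpos.le
        _ = Real.exp (-L₀) * Real.exp (Real.log N) := by rw [Real.exp_log hNpos]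
        _ = Real.exp (Real.log N - L₀) := by
            rw [← Real.exp_add]
            congr 1
            ring
        _ ≤ Real.exp 0 := Real.exp_le_exp.2 (by linarith only [hL0])
        _ = 1 := Real.exp_zero
    calc c * (N * (B.card : ℝ)) ^ (1 - ε) ≤ c * (N * B.card) :=
          mul_le_mul_of_nonneg_left h3 hc0.le
      _ = c * N * B.card := by ring
      _ ≤ 1 * B.card := mul_le_mul_of_nonneg_right h4 (by linarith only [])
      _ = B.card := one_mul _
  push Not at hL0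
  have hL16 : 16 ≤ Real.log N := hL₀1.trans hL0.le
  have hL2 : 1 / c₁ + Lf / c₀ + Real.log (2 * d) ≤ Real.log N := hL₀2.trans hL0.le
  have hNexp : Real.exp 16 ≤ N := by rwa [← Real.le_log_iff_exp_le hNpos]
  obtain ⟨-, hLL1, -⟩ := half_log hNexp (M := N) (by linarith only [hN])
  have hi1 : 0 < 1 / c₁ := by (clear * - hc₁; positivity)
  have hi0 : 0 ≤ Lf / c₀ := by (clear * - hc₁ hk0' hd; positivity)
  have hi2 : 0 ≤ Real.log (2 * d) := Real.log_nonneg (by linarith only [hdr])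
  set LL : ℝ := Real.log N * Real.log (Real.log N) with hLL
  have hLLL : Real.log N ≤ LL := by
    rw [hLL]
    (clear * - hLL1 hL16; nlinarith only [hL16, hLL1])
  have hLLc₁ : 1 ≤ c₁ * LL := by
    have h1 : 1 / c₁ ≤ LL := by linarith only [hL2, hi0, hi2, hLLL]
    rw [div_le_iff₀ hc₁] at h1
    linarith only [h1]
  have hLLc₀ : Lf ≤ c₀ * LL := by
    have h1 : Lf / c₀ ≤ LL := by linarith only [hL2, hi1, hi2, hLLL]
    rw [div_le_iff₀ hc₀0] at h1
    linarith only [h1]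
  have hLL0 : 0 < LL := by linarith only [hL16, hLLL]
  have hN2d : 2 * (d : ℝ) ≤ N := by
    rw [← Real.log_le_log_iff (by positivity) hNpos]
    linarith only [hL2, hi1, hi0]
  have hA2d : 2 * d ≤ A.card := by
    have h1 : (2 : ℝ) * d ≤ (A.card : ℝ) := hN2d
    exact_mod_cast h1
  set X' : ℝ := N ^ (c * Real.log (Real.log N)) with hX
  have hX1 : 1 ≤ X' := by
    apply Real.one_le_rpow hN1
    apply mul_nonneg hc0.le
    linarith only [hLL1]
  have hXpos : 0 < X' := by linarith only [hX1]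
  have hlogX : Real.log X' ≤ c₀ * LL := by
    rw [hX, Real.log_rpow hNpos]
    have h1 : c * Real.log (Real.log N) * Real.log N = c * LL := by rw [hLL]; ring
    rw [h1]
    exact mul_le_mul_of_nonneg_right hcc₀ hLL0.le
  set H : ℤ := ⌊X'⌋ with hH
  have hH1 : 1 ≤ H := Int.le_floor.2 (by exact_mod_cast hX1)
  have hHr1 : (1 : ℝ) ≤ H := by exact_mod_cast hH1
  have hHX : (H : ℝ) ≤ X' := Int.floor_le _
  have hlogH : Real.log (((2 * d).factorial : ℝ) * (H : ℝ) ^ (2 * d)) ≤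
      (2 * d + 1) * (c₀ * LL) := by
    rw [Real.log_mul (by positivity) (by (clear * - hH1; positivity)), Real.log_pow]
    have h1 : Real.log H ≤ c₀ * LL := (Real.log_le_log (by linarith only [hHr1]) hHX).trans hlogX
    have h2 : ((2 * d : ℕ) : ℝ) * Real.log H ≤ (2 * d) * (c₀ * LL) := by
      push_cast
      exact mul_le_mul_of_nonneg_left h1 (by positivity)
    linarith only [hLLc₀, h2]
  -- the exceptional zeros
  have hEl : ∀ l : Fin k, ∃ Z : Finset ℂ, Z.card ≤ ml l * d ∧ ∀ F, Gd d H F →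
      RelR A θ (κ l) (2 * C * k) (c₁ / k * LL) F → ∃ z ∈ Z, aeval z F = 0 := by
    intro l
    refine exists_zeros hd hA2d (hκ l).1 (hκ l).2 hH1 hlogH (hml l)
      (by (clear * - hc₁ hk0' hL16 hLL1; positivity)) ?_
    calc 2 * ((d : ℝ) * ((ml l : ℝ) + 1) * (((ml l : ℝ) + 2) ^ 2 * ((2 * d + 1) * (c₀ * LL))))
        ≤ 2 * ((d : ℝ) * ((m : ℝ) + 1) * (((m : ℝ) + 2) ^ 2 * ((2 * d + 1) * (c₀ * LL)))) := by
          have := hmlm l
          (clear * - this hd hc₁ hk0' hL16 hLL1; gcongr)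
      _ = ((2 * (d * ((m : ℝ) + 1) * (((m : ℝ) + 2) ^ 2 * (2 * d + 1)))) * c₀) * LL := by ring
      _ = c₁ / k * LL := by
          congr 1
          rw [hc₀]
          (clear * - hd hk0' hc₁; field_simp)
  choose El hEl1 hEl2 using hEl
  refine ⟨univ.biUnion El, ?_, ?_⟩
  · refine card_biUnion_le.trans ?_
    have h1 := sum_le_sum fun l (_ : l ∈ univ) => hEl1 l
    omega
  · intro F hF1 hF2 hFc hFz B hB
    -- the primitive part
    set P : ℤ[X] := F.primPart with hP
    set g : ℤ := F.content with hg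
    have hFne : F ≠ 0 := by
      intro h
      rw [h, natDegree_zero] at hF1
      omega
    have hg0 : g ≠ 0 := by
      rw [hg, Ne, content_eq_zero_iff]
      exact hFne
    have hFP : F = Polynomial.C g * P := F.eq_C_content_mul_primPart
    have hFPe : ∀ a, F.eval a = g * P.eval a := by
      intro a
      conv_lhs => rw [hFP]
      rw [eval_mul, eval_C]
    have hPdeg : P.natDegree = F.natDegree := natDegree_primPart F
    have hgood : Gd d H P := by
      refine ⟨F.isPrimitive_primPart, by omega, by rw [hPdeg]; exact hF2.trans hd0,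
        fun j => ?_⟩
      rw [hH]
      apply Int.le_floor.2
      have h1 : |F.coeff j| = |g| * |P.coeff j| := by
        conv_lhs => rw [hFP]
        rw [coeff_C_mul, abs_mul]
      have h2 : |P.coeff j| ≤ |F.coeff j| := by
        rw [h1]
        have h3 : 1 ≤ |g| := Int.one_le_abs hg0
        (clear * - h3; nlinarith only [abs_nonneg (P.coeff j), h3])
      have h3 := hFc j
      have h4 : (|P.coeff j| : ℝ) ≤ (|F.coeff j| : ℝ) := by exact_mod_cast h2
      push_cast
      exact h4.trans h3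
    have hPz : ∀ z ∈ univ.biUnion El, aeval z P ≠ 0 := by
      intro z hz h
      apply hFz z hz
      rw [hFP, map_mul, h, mul_zero]
    -- the values
    have hdd0 : (0 : ℝ) < 2 * d := by linarith only [hdr0]
    have hVc : N / (2 * d) ≤ ((fz A P).card : ℝ) := by
      have h1 := card_fz hgood.2.1 hgood.2.2.1 hA2d
      have h2 : N ≤ 2 * d * ((fz A P).card : ℝ) := by
        rw [hN]
        exact_mod_cast h1
      rw [div_le_iff₀ hdd0]
      linarith only [h2]
    clear_value P g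
    have hVne : (fz A P).Nonempty := by
      rw [← card_pos]
      have h2 : 0 < N / (2 * d) := div_pos hNpos hdd0
      have h3 : (0 : ℝ) < ((fz A P).card : ℝ) := by linarith only [hVc, h2]
      exact_mod_cast h3
    -- the `k`-fold sumset is large
    have hlarge : c₁ * ((A.card : ℕ) : ℝ) ^ (-(1 : ℝ)) * ∏ _l : Fin k, ((fz A P).card : ℝ) ≤
        ((recSum (fun _ : Fin k => fz A P)).card : ℝ) := by
      by_contra hlt
      push Not at hlt
      obtain ⟨l, -, hl1, hl2⟩ := hnz A.card (fun _ : Fin k => fz A P) (fun _ => hVne)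
        (fun _ => fz_zero A _) (fun _ => card_fz_le A _) hlt
      obtain ⟨z, hz, hz0⟩ := hEl2 l P hgood (rel_of_nr hk0 hC hLLc₁ hl1 hl2)
      exact hPz z (mem_biUnion.2 ⟨l, mem_univ _, hz⟩) hz0
    -- the conclusion
    have hS : c₁ / (2 * d) ^ k * N ^ ((k : ℝ) - 1) ≤ ((hSum k (rvals F A)).card : ℝ) :=
      hSum_large hNpos hdd0 hc₁ hg0 hFPe hVc hlarge
    have h1 := expandAdd k hk0' (rvals F A) (c₁ / (2 * d) ^ k) N ε
      (div_pos hc₁ (pow_pos hdd0 k)) hN1 hkε hS B hB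
    refine le_trans ?_ h1
    rw [← hc₂]
    exact mul_le_mul_of_nonneg_right hcc₂
      (Real.rpow_nonneg (mul_nonneg hNpos.le (Nat.cast_nonneg _)) _)

end Pool.Agent.Helper99.RT
end

/- Helper24.TT.H99.TR.ZerD -/
section
/-!
# Project TR (MP_120218_co): products of several polynomial values; sets with many polynomial maps
-/

set_option autoImplicit false

open Finset Polynomial

namespace Pool.Agent.Helper99.TR

open Pool.Agent.Helper26.TR Pool.Agent.Helper88.NZ

/-- the products `F₁(a₁) ⋯ F_k(a_k) b`, `a_i ∈ A`, `b ∈ B` -/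
noncomputable def polyProd {k : ℕ} (F : Fin k → ℤ[X]) (A : Finset ℤ) (B : Finset ℂ) :
    Finset ℂ := by
  classical
  exact ((Fintype.piFinset fun _ : Fin k => A) ×ˢ B).image
    (fun p => (∏ i, (((F i).eval (p.1 i) : ℤ) : ℂ)) * p.2)

theorem mem_polyProd {k : ℕ} (F : Fin k → ℤ[X]) (A : Finset ℤ) (B : Finset ℂ) (y : ℂ) :
    y ∈ polyProd F A B ↔ ∃ a : Fin k → ℤ, (∀ i, a i ∈ A) ∧ ∃ b ∈ B,
      (∏ i, (((F i).eval (a i) : ℤ) : ℂ)) * b = y := by
  classical
  unfold polyProd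
  rw [mem_image]
  constructor
  · rintro ⟨⟨a, b⟩, hp, rfl⟩
    rw [mem_product, Fintype.mem_piFinset] at hp
    exact ⟨a, hp.1, b, hp.2, rfl⟩
  · rintro ⟨a, ha, b, hb, rfl⟩
    exact ⟨(a, b), by rw [mem_product, Fintype.mem_piFinset]; exact ⟨ha, hb⟩, rfl⟩

theorem valProd_sub {k : ℕ} (F : Fin (k + 1) → ℤ[X]) (A : Finset ℤ) (B T : Finset ℂ)
    (hT : T ⊆ polyProd (Fin.tail F) A B) : valProd (F 0) A T ⊆ polyProd F A B := by
  classical
  intro y hy
  unfold valProd at hy
  rw [mem_image₂] at hy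
  obtain ⟨a, ha, t, ht, rfl⟩ := hy
  obtain ⟨a', ha', b, hb, rfl⟩ := (mem_polyProd _ _ _ _).1 (hT ht)
  rw [mem_polyProd]
  refine ⟨Fin.cons a a', ?_, b, hb, ?_⟩
  · intro i
    refine Fin.cases ?_ (fun j => ?_) i
    · exact ha
    · exact ha' j
  · rw [Fin.prod_univ_succ]
    simp only [Fin.cons_zero, Fin.cons_succ]
    rw [mul_assoc]
    rfl

/-- iterating the expansion -/
theorem iter {A : Finset ℤ} (hA : A.Nonempty) {c δ : ℝ} (hc : 0 < c) (hc1 : c ≤ 1)
    (hδ : 0 ≤ δ) (Q : ℤ[X] → Prop)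
    (hQ : ∀ F : ℤ[X], Q F → ∀ B : Finset ℂ, B.Nonempty → (0 : ℂ) ∉ B →
      c * ((A.card : ℝ) * (B.card : ℝ)) ^ (1 - δ) ≤ (((valProd F A B).erase 0).card : ℝ))
    (hδ1 : δ ≤ 1) :
    ∀ (n : ℕ) (F : Fin n → ℤ[X]), (∀ i, Q (F i)) → ∀ B : Finset ℂ, B.Nonempty → (0 : ℂ) ∉ B →
      c ^ n * ((A.card : ℝ) ^ ((n : ℝ) - δ * (n : ℝ) ^ 2) * (B.card : ℝ) ^ (1 - (n : ℝ) * δ)) ≤
        (((polyProd F A B).erase 0).card : ℝ) := by
  classical
  intro n
  induction n with
  | zero =>
    intro F _ B hB h0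
    have h1 : B ⊆ (polyProd F A B).erase 0 := by
      intro b hb
      rw [mem_erase, mem_polyProd]
      exact ⟨fun h => h0 (h ▸ hb), Fin.elim0, fun i => i.elim0, b, hb, by simp⟩
    have h2 : (B.card : ℝ) ≤ (((polyProd F A B).erase 0).card : ℝ) := by
      exact_mod_cast card_le_card h1
    refine le_trans (le_of_eq ?_) h2
    simp
  | succ n ih =>
    intro F hF B hB h0
    have hN1 : (1 : ℝ) ≤ A.card := by exact_mod_cast card_pos.2 hA
    have hB1 : (1 : ℝ) ≤ B.card := by exact_mod_cast card_pos.2 hB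
    have hN0 : (0 : ℝ) < A.card := by (clear * - hN1; linarith only [hN1])
    have hB0 : (0 : ℝ) < B.card := by (clear * - hB1; linarith only [hB1])
    set T : Finset ℂ := (polyProd (Fin.tail F) A B).erase 0 with hT
    have h1 := ih (Fin.tail F) (fun i => hF i.succ) B hB h0
    rw [← hT] at h1
    have hTpos : (0 : ℝ) < T.card := by
      refine lt_of_lt_of_le ?_ h1
      (clear * - hc hA hB; positivity)
    have hTne : T.Nonempty := by
      rw [← card_pos]
      exact_mod_cast hTpos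
    have h2 := hQ (F 0) (hF 0) T hTne (notMem_erase _ _)
    have h3 : (((valProd (F 0) A T).erase 0).card : ℝ) ≤
        (((polyProd F A B).erase 0).card : ℝ) := by
      exact_mod_cast card_le_card (erase_subset_erase _ (valProd_sub F A B T (erase_subset _ _)))
    refine le_trans ?_ (h2.trans h3)
    have h4 : (c ^ n * ((A.card : ℝ) ^ ((n : ℝ) - δ * (n : ℝ) ^ 2) *
        (B.card : ℝ) ^ (1 - (n : ℝ) * δ))) ^ (1 - δ) ≤ (T.card : ℝ) ^ (1 - δ) :=
      Real.rpow_le_rpow (by (clear * - hc hA hB; positivity)) h1 (by linarith only [hδ1])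
    rw [Real.mul_rpow hN0.le hTpos.le]
    have h5 : c ^ n ≤ (c ^ n) ^ (1 - δ) := by
      calc c ^ n = (c ^ n) ^ (1 : ℝ) := (Real.rpow_one _).symm
        _ ≤ (c ^ n) ^ (1 - δ) := Real.rpow_le_rpow_of_exponent_ge (by positivity)
            (pow_le_one₀ hc.le hc1) (by linarith only [hδ])
    have h6 : (c ^ n * ((A.card : ℝ) ^ ((n : ℝ) - δ * (n : ℝ) ^ 2) *
        (B.card : ℝ) ^ (1 - (n : ℝ) * δ))) ^ (1 - δ) =
        (c ^ n) ^ (1 - δ) * ((A.card : ℝ) ^ (((n : ℝ) - δ * (n : ℝ) ^ 2) * (1 - δ)) *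
        (B.card : ℝ) ^ ((1 - (n : ℝ) * δ) * (1 - δ))) := by
      rw [Real.mul_rpow (by positivity) (by (clear * - hA hB; positivity)),
        Real.mul_rpow (by (clear * - hA; positivity)) (by (clear * - hB; positivity)), ← Real.rpow_mul hN0.le,
        ← Real.rpow_mul hB0.le]
    rw [h6] at h4
    have hn0 : (0 : ℝ) ≤ n := Nat.cast_nonneg n
    calc c ^ (n + 1) * ((A.card : ℝ) ^ (((n + 1 : ℕ) : ℝ) - δ * ((n + 1 : ℕ) : ℝ) ^ 2) *
          (B.card : ℝ) ^ (1 - ((n + 1 : ℕ) : ℝ) * δ))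
        ≤ c * (c ^ n * (((A.card : ℝ) ^ (1 - δ) *
            (A.card : ℝ) ^ (((n : ℝ) - δ * (n : ℝ) ^ 2) * (1 - δ))) *
            (B.card : ℝ) ^ ((1 - (n : ℝ) * δ) * (1 - δ)))) := by
          rw [pow_succ, mul_comm (c ^ n) c, mul_assoc]
          apply mul_le_mul_of_nonneg_left _ hc.le
          apply mul_le_mul_of_nonneg_left _ (by positivity)
          apply mul_le_mul _ _ (by (clear * - hB; positivity)) (by (clear * - hA; positivity))
          · rw [← Real.rpow_add hN0]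
            apply Real.rpow_le_rpow_of_exponent_le hN1
            push_cast
            (clear * - hδ hn0; nlinarith only [mul_nonneg hδ hn0])
          · apply Real.rpow_le_rpow_of_exponent_le hB1
            push_cast
            linarith only [mul_nonneg (mul_nonneg hδ hδ) hn0]
      _ ≤ c * ((A.card : ℝ) ^ (1 - δ) * ((c ^ n) ^ (1 - δ) *
            ((A.card : ℝ) ^ (((n : ℝ) - δ * (n : ℝ) ^ 2) * (1 - δ)) *
            (B.card : ℝ) ^ ((1 - (n : ℝ) * δ) * (1 - δ))))) := by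
          apply mul_le_mul_of_nonneg_left _ hc.le
          have h7 : (A.card : ℝ) ^ (1 - δ) * ((c ^ n) ^ (1 - δ) *
              ((A.card : ℝ) ^ (((n : ℝ) - δ * (n : ℝ) ^ 2) * (1 - δ)) *
              (B.card : ℝ) ^ ((1 - (n : ℝ) * δ) * (1 - δ)))) =
              (c ^ n) ^ (1 - δ) * (((A.card : ℝ) ^ (1 - δ) *
              (A.card : ℝ) ^ (((n : ℝ) - δ * (n : ℝ) ^ 2) * (1 - δ))) *
              (B.card : ℝ) ^ ((1 - (n : ℝ) * δ) * (1 - δ))) := by ring
          rw [h7]
          exact mul_le_mul_of_nonneg_right h5 (by (clear * - hA hB; positivity))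
      _ ≤ c * ((A.card : ℝ) ^ (1 - δ) * (T.card : ℝ) ^ (1 - δ)) := by
          apply mul_le_mul_of_nonneg_left _ hc.le
          exact mul_le_mul_of_nonneg_left h4 (by (clear * - hA; positivity))

/-- admissible polynomials -/
def Adm (d : ℕ) (X : ℝ) (F : ℤ[X]) : Prop :=
  1 ≤ F.natDegree ∧ F.natDegree ≤ d ∧ ∀ j, (|F.coeff j| : ℝ) ≤ X

theorem adm_mono {d n : ℕ} (hn : 1 ≤ n) {c c₀ : ℝ} (hc : 0 < c) (hcc : c ≤ c₀) {F : ℤ[X]}
    (hF : Adm d ((n : ℝ) ^ (c * Real.log (Real.log n))) F) :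
    Adm d ((n : ℝ) ^ (c₀ * Real.log (Real.log n))) F := by
  obtain ⟨h1, h2, h3⟩ := hF
  refine ⟨h1, h2, fun j => (h3 j).trans ?_⟩
  have hn1 : (1 : ℝ) ≤ n := by exact_mod_cast hn
  rcases le_or_gt 0 (Real.log (Real.log n)) with h | h
  · exact Real.rpow_le_rpow_of_exponent_le hn1 (mul_le_mul_of_nonneg_right hcc h)
  · exfalso
    have hn2 : 1 < (n : ℝ) := by
      rcases eq_or_lt_of_le hn1 with h4 | h4
      · rw [← h4] at h
        simp at h
      · exact h4
    have h5 : (n : ℝ) ^ (c * Real.log (Real.log n)) < 1 :=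
      Real.rpow_lt_one_of_one_lt_of_neg hn2 (mul_neg_of_pos_of_neg hc h)
    have h6 : F.leadingCoeff = 0 := by
      have h7 := (h3 F.natDegree).trans_lt h5
      have h8 : |F.coeff F.natDegree| < 1 := by exact_mod_cast h7
      exact Int.abs_lt_one_iff.1 h8
    rw [leadingCoeff_eq_zero] at h6
    rw [h6, natDegree_zero] at h1
    omega

/-- the final theorem, first part -/
theorem exceptional_zeros (hT : TRZ) (k d : ℕ) (ε : ℝ) (hε : 0 < ε) :
    ∃ (m : ℕ) (c : ℝ), 0 < c ∧ ∀ A : Finset ℤ, A.Nonempty → ∃ Z : Finset ℂ, Z.card ≤ m ∧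
      ∀ F : Fin k → ℤ[X],
        (∀ i, Adm d ((A.card : ℝ) ^ (c * Real.log (Real.log A.card))) (F i)) →
        (∀ i, ∀ z ∈ Z, aeval z (F i) ≠ 0) →
        ∀ B : Finset ℂ, B.Nonempty → (0 : ℂ) ∉ B →
          c * ((A.card : ℝ) ^ ((k : ℝ) - ε) * (B.card : ℝ) ^ (1 - ε)) ≤
            (((polyProd F A B).erase 0).card : ℝ) := by
  set ε₁ : ℝ := min ε 1 with hε₁
  have hε₁0 : 0 < ε₁ := lt_min hε one_pos
  have hε₁1 : ε₁ ≤ 1 := min_le_right _ _
  have hε₁ε : ε₁ ≤ ε := min_le_left _ _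
  set δ : ℝ := ε₁ / ((k : ℝ) + 1) ^ 2 with hδ
  have hk0 : (0 : ℝ) ≤ k := Nat.cast_nonneg k
  have hk1 : (1 : ℝ) ≤ ((k : ℝ) + 1) ^ 2 := by (clear * - hk0; nlinarith only [hk0])
  have hδ0 : 0 < δ := by (clear * - hε; positivity)
  have hδε : δ * ((k : ℝ) + 1) ^ 2 = ε₁ := by
    rw [hδ]
    field_simp
  have hδ1 : δ ≤ 1 := by
    have : δ * 1 ≤ δ * ((k : ℝ) + 1) ^ 2 := mul_le_mul_of_nonneg_left hk1 hδ0.le
    (clear * - hε₁1 hδε this; linarith only [hε₁1, hδε, this])
  obtain ⟨m, c₀, hc₀, hm⟩ := hT δ d hδ0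
  set c₁ : ℝ := min c₀ 1 with hc₁
  have hc₁0 : 0 < c₁ := lt_min hc₀ one_pos
  have hc₁1 : c₁ ≤ 1 := min_le_right _ _
  have hc₁c₀ : c₁ ≤ c₀ := min_le_left _ _
  have hck0 : 0 < c₁ ^ k := by positivity
  have hcc : min c₁ (c₁ ^ k) ≤ c₀ := (min_le_left _ _).trans hc₁c₀
  have hcpos : 0 < min c₁ (c₁ ^ k) := lt_min hc₁0 hck0
  refine ⟨m, min c₁ (c₁ ^ k), hcpos, ?_⟩
  intro A hA
  obtain ⟨Z, hZ, hF⟩ := hm A hA
  refine ⟨Z, hZ, ?_⟩
  intro F hFa hFz B hB h0
  have hAc : 1 ≤ A.card := hA.card_pos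
  have h1 := iter hA hc₁0 hc₁1 hδ0.le
    (fun G => Adm d ((A.card : ℝ) ^ (c₀ * Real.log (Real.log A.card))) G ∧
      ∀ z ∈ Z, aeval z G ≠ 0)
    (fun G hG B' hB' h0' => by
      refine le_trans ?_ (hF G hG.1.1 hG.1.2.1 hG.1.2.2 hG.2 B' hB' h0')
      exact mul_le_mul_of_nonneg_right hc₁c₀ (by (clear * - hA hB'; positivity))) hδ1 k F
    (fun i => ⟨adm_mono hAc hcpos hcc (hFa i), hFz i⟩) B hB h0
  refine le_trans ?_ h1
  have hN1 : (1 : ℝ) ≤ A.card := by exact_mod_cast hAc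
  have hB1 : (1 : ℝ) ≤ B.card := by exact_mod_cast hB.card_pos
  apply mul_le_mul (min_le_right _ _) _ (by (clear * - hA hB; positivity)) hck0.le
  apply mul_le_mul _ _ (by (clear * - hB; positivity)) (by (clear * - hA; positivity))
  · apply Real.rpow_le_rpow_of_exponent_le hN1
    have : δ * (k : ℝ) ^ 2 ≤ δ * ((k : ℝ) + 1) ^ 2 :=
      mul_le_mul_of_nonneg_left (by linarith only [hk0]) hδ0.le
    linarith only [hε₁ε, hδε, this]
  · apply Real.rpow_le_rpow_of_exponent_le hB1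
    have : δ * (k : ℝ) ≤ δ * ((k : ℝ) + 1) ^ 2 :=
      mul_le_mul_of_nonneg_left (by (clear * -; nlinarith only [])) hδ0.le
    linarith only [hε₁ε, hδε, this]

/-- Q1 for the sets containing the images of a set `B` of comparable size under `m + 1`
polynomials without common zeros -/
theorem many_maps {k d m : ℕ} {ε c : ℝ} (hk : 1 ≤ k) (hε : 0 < ε) (hc : 0 < c) (hc1 : c ≤ 1)
    (h : ∀ A : Finset ℤ, A.Nonempty → ∃ Z : Finset ℂ, Z.card ≤ m ∧
      ∀ F : Fin k → ℤ[X],
        (∀ i, Adm d ((A.card : ℝ) ^ (c * Real.log (Real.log A.card))) (F i)) →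
        (∀ i, ∀ z ∈ Z, aeval z (F i) ≠ 0) →
        ∀ B : Finset ℂ, B.Nonempty → (0 : ℂ) ∉ B →
          c * ((A.card : ℝ) ^ ((k : ℝ) - ε / 2) * (B.card : ℝ) ^ (1 - ε / 2)) ≤
            (((polyProd F A B).erase 0).card : ℝ))
    (B A : Finset ℤ) (hB : B.Nonempty) (F : Fin (m + 1) → ℤ[X])
    (hF : ∀ i, Adm d ((B.card : ℝ) ^ (c * Real.log (Real.log B.card))) (F i))
    (hFF : ∀ i j, i ≠ j → ∀ z : ℂ, ¬ (aeval z (F i) = 0 ∧ aeval z (F j) = 0))
    (hFA : ∀ i, ∀ b ∈ B, (F i).eval b ∈ A)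
    (hAB : (A.card : ℝ) ≤ (B.card : ℝ) ^ (1 + ε / (2 * k))) :
    c * (A.card : ℝ) ^ ((k : ℝ) - ε) ≤ ((prodSet k A).card : ℝ) := by
  classical
  have hAne : A.Nonempty := by
    obtain ⟨b, hb⟩ := hB
    exact ⟨_, hFA 0 b hb⟩
  have hA1 : (1 : ℝ) ≤ A.card := by exact_mod_cast hAne.card_pos
  rcases lt_or_ge ((k : ℝ) - ε) 0 with hkε | hkε
  · have h1 : (A.card : ℝ) ^ ((k : ℝ) - ε) ≤ 1 :=
      Real.rpow_le_one_of_one_le_of_nonpos hA1 hkε.le
    have h2 : (1 : ℝ) ≤ ((prodSet k A).card : ℝ) := by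
      obtain ⟨a, ha⟩ := hAne
      have h3 : (prodSet k A).Nonempty := by
        refine ⟨∏ _i : Fin k, a, ?_⟩
        unfold prodSet
        exact mem_image_of_mem _ (by rw [Fintype.mem_piFinset]; exact fun _ => ha)
      exact_mod_cast h3.card_pos
    calc c * (A.card : ℝ) ^ ((k : ℝ) - ε) ≤ 1 * 1 :=
          mul_le_mul hc1 h1 (by (clear * - hAne; positivity)) one_pos.le
      _ ≤ _ := by linarith only [h2]
  obtain ⟨Z, hZ, hZF⟩ := h B hB
  -- one of the polynomials has no zero in `Z`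
  obtain ⟨i, hi⟩ : ∃ i, ∀ z ∈ Z, aeval z (F i) ≠ 0 := by
    by_contra hcon
    push Not at hcon
    choose z hz hz0 using hcon
    have hinj : Function.Injective z := by
      intro i j hij
      by_contra hne
      exact hFF i j hne (z i) ⟨hz0 i, by rw [hij]; exact hz0 j⟩
    have h1 : (univ.image z).card = m + 1 := by
      rw [card_image_of_injective _ hinj, card_univ, Fintype.card_fin]
    have h2 : univ.image z ⊆ Z := by
      intro w hw
      obtain ⟨i, -, rfl⟩ := mem_image.1 hw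
      exact hz i
    have h3 := card_le_card h2
    omega
  have h1 := hZF (fun _ => F i) (fun _ => hF i) (fun _ => hi) {1} (singleton_nonempty _)
    (by simp)
  have h2 : (((polyProd (fun _ : Fin k => F i) B {1}).erase 0).card : ℝ) ≤
      ((prodSet k A).card : ℝ) := by
    have hinj : Function.Injective (fun n : ℤ => (n : ℂ)) := Int.cast_injective
    have h3 : (polyProd (fun _ : Fin k => F i) B {1}).erase 0 ⊆
        (prodSet k A).image (fun n : ℤ => (n : ℂ)) := by
      intro y hy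
      obtain ⟨a, ha, b, hb, rfl⟩ := (mem_polyProd _ _ _ _).1 (mem_of_mem_erase hy)
      rw [mem_singleton] at hb
      rw [mem_image]
      refine ⟨∏ j, (F i).eval (a j), ?_, ?_⟩
      · unfold prodSet
        rw [mem_image]
        exact ⟨fun j => (F i).eval (a j), by
          rw [Fintype.mem_piFinset]
          exact fun j => hFA i _ (ha j), rfl⟩
      · rw [hb, mul_one]
        push_cast
        rfl
    have h4 := card_le_card h3
    rw [card_image_of_injective _ hinj] at h4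
    exact_mod_cast h4
  refine le_trans ?_ (h1.trans h2)
  rw [card_singleton, Nat.cast_one, Real.one_rpow, mul_one]
  apply mul_le_mul_of_nonneg_left _ hc.le
  have hB1 : (1 : ℝ) ≤ B.card := by exact_mod_cast hB.card_pos
  have hk1 : (1 : ℝ) ≤ k := by exact_mod_cast hk
  calc (A.card : ℝ) ^ ((k : ℝ) - ε)
      ≤ ((B.card : ℝ) ^ (1 + ε / (2 * k))) ^ ((k : ℝ) - ε) :=
        Real.rpow_le_rpow (by linarith only []) hAB hkε
    _ = (B.card : ℝ) ^ ((1 + ε / (2 * k)) * ((k : ℝ) - ε)) := by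
        rw [← Real.rpow_mul (by linarith only [])]
    _ ≤ (B.card : ℝ) ^ ((k : ℝ) - ε / 2) := by
        apply Real.rpow_le_rpow_of_exponent_le hB1
        have h5 : ε / (2 * k) * ((k : ℝ) - ε) ≤ ε / 2 := by
          rw [div_mul_eq_mul_div, div_le_iff₀ (by linarith only [hk1])]
          (clear * - hε; nlinarith only [hε])
        (clear * - h5; linarith only [h5])

/-- both parts together -/
theorem final (hT : TRZ) (k d : ℕ) (hk : 1 ≤ k) (ε : ℝ) (hε : 0 < ε) :
    ∃ (m : ℕ) (c : ℝ), 0 < c ∧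
      (∀ A : Finset ℤ, A.Nonempty → ∃ Z : Finset ℂ, Z.card ≤ m ∧
        ∀ F : Fin k → ℤ[X],
          (∀ i, Adm d ((A.card : ℝ) ^ (c * Real.log (Real.log A.card))) (F i)) →
          (∀ i, ∀ z ∈ Z, aeval z (F i) ≠ 0) →
          ∀ B : Finset ℂ, B.Nonempty → (0 : ℂ) ∉ B →
            c * (A.card : ℝ) ^ ((k : ℝ) - ε) * (B.card : ℝ) ^ (1 - ε) ≤
              ((polyProd F A B).card : ℝ)) ∧
      ∀ (B A : Finset ℤ), B.Nonempty → ∀ F : Fin (m + 1) → ℤ[X],
        (∀ i, Adm d ((B.card : ℝ) ^ (c * Real.log (Real.log B.card))) (F i)) →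
        (∀ i j, i ≠ j → ∀ z : ℂ, ¬ (aeval z (F i) = 0 ∧ aeval z (F j) = 0)) →
        (∀ i, ∀ b ∈ B, (F i).eval b ∈ A) →
        (A.card : ℝ) ≤ (B.card : ℝ) ^ (1 + c) →
        c * (A.card : ℝ) ^ ((k : ℝ) - ε) ≤ ((prodSet k A).card : ℝ) := by
  obtain ⟨m, c₀, hc₀, hm⟩ := exceptional_zeros hT k d (ε / 2) (by (clear * - hε; positivity))
  have hk1 : (1 : ℝ) ≤ k := by exact_mod_cast hk
  set c : ℝ := min (min c₀ 1) (ε / (2 * k)) with hc
  have hek : 0 < ε / (2 * k) := by (clear * - hε hk; positivity)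
  have hc0 : 0 < c := lt_min (lt_min hc₀ one_pos) hek
  have hcc₀ : c ≤ c₀ := (min_le_left _ _).trans (min_le_left _ _)
  have hc1 : c ≤ 1 := (min_le_left _ _).trans (min_le_right _ _)
  have hce : c ≤ ε / (2 * k) := min_le_right _ _
  have key : ∀ A : Finset ℤ, A.Nonempty → ∃ Z : Finset ℂ, Z.card ≤ m ∧
      ∀ F : Fin k → ℤ[X],
        (∀ i, Adm d ((A.card : ℝ) ^ (c * Real.log (Real.log A.card))) (F i)) →
        (∀ i, ∀ z ∈ Z, aeval z (F i) ≠ 0) →
        ∀ B : Finset ℂ, B.Nonempty → (0 : ℂ) ∉ B →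
          c * ((A.card : ℝ) ^ ((k : ℝ) - ε / 2) * (B.card : ℝ) ^ (1 - ε / 2)) ≤
            (((polyProd F A B).erase 0).card : ℝ) := by
    intro A hA
    obtain ⟨Z, hZ, h⟩ := hm A hA
    refine ⟨Z, hZ, fun F hF hFz B hB h0 => ?_⟩
    refine le_trans ?_ (h F (fun i => adm_mono hA.card_pos hc0 hcc₀ (hF i)) hFz B hB h0)
    exact mul_le_mul_of_nonneg_right hcc₀ (by (clear * - hA hB; positivity))
  refine ⟨m, c, hc0, ?_, ?_⟩
  · intro A hA
    obtain ⟨Z, hZ, h⟩ := key A hA
    refine ⟨Z, hZ, fun F hF hFz B hB h0 => ?_⟩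
    have hN1 : (1 : ℝ) ≤ A.card := by exact_mod_cast hA.card_pos
    have hB1 : (1 : ℝ) ≤ B.card := by exact_mod_cast hB.card_pos
    have h1 := h F hF hFz B hB h0
    have h2 : (((polyProd F A B).erase 0).card : ℝ) ≤ ((polyProd F A B).card : ℝ) := by
      exact_mod_cast card_le_card (erase_subset _ _)
    refine le_trans ?_ (h1.trans h2)
    rw [mul_assoc]
    apply mul_le_mul_of_nonneg_left _ hc0.le
    apply mul_le_mul _ _ (by (clear * - hB; positivity)) (by (clear * - hA; positivity))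
    · exact Real.rpow_le_rpow_of_exponent_le hN1 (by (clear * - hε; linarith only [hε]))
    · exact Real.rpow_le_rpow_of_exponent_le hB1 (by linarith only [hε])
  · intro B A hB F hF hFF hFA hAB
    refine many_maps hk hε hc0 hc1 key B A hB F hF hFF hFA (hAB.trans ?_)
    have hB1 : (1 : ℝ) ≤ B.card := by exact_mod_cast hB.card_pos
    exact Real.rpow_le_rpow_of_exponent_le hB1 (by linarith only [hce])

end Pool.Agent.Helper99.TR
end
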