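import Pool.Agent.Helper24.TG.G03
import Pool.Agent.Helper24.TG.G04
import Pool.Agent.Helper24.TG.G08
import Pool.Agent.Helper24.TG.G10
import Pool.Agent.Helper24.TG.G11

/- Helper24.TT.H34.TR.NZG -/
section
set_option autoImplicit false

/-!
MP_120218_co, project TR, general form: the structure theorem for `k + 1` sets.  The last set is
arbitrary; for it the alternative is that the number of `P`-free parts is small.
-/

open Finset

namespace Pool.Agent.Helper34.TR

open Pool.Agent.Helper26.TR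

/-- structure theorem for `k + 1` sets, with slack `θ`, the last set being arbitrary -/
def NZG : Prop :=
  ∀ k : ℕ, ∀ ε θ : ℝ, 0 < ε → 0 < θ → θ ≤ 1 → ∃ (κ : Fin (k + 1) → ℝ) (C c ζ : ℝ),
    (∀ l, 0 < κ l ∧ κ l ≤ 1) ∧ 0 < C ∧ 0 < c ∧ 0 < ζ ∧
    ∀ (N : ℕ) (A : Fin (k + 1) → Finset ℤ), (∀ l, (A l).Nonempty) → (∀ l, (0 : ℤ) ∉ A l) →
      (∀ l, (A l).card ≤ N) →
      ((mixSet A).card : ℝ) < c * (N : ℝ) ^ (-ε) * ∏ l, ((A l).card : ℝ) →
      (∃ l : Fin (k + 1), 0 < (l : ℕ) ∧ (l : ℕ) < k ∧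
        (∀ (T : Finset ℕ) (e : ℕ → ℕ) (β : ℕ → ℤ), Pop (θ * κ l) (A l) T e β →
          W1 T e β ≤ C * (W0b (κ l) A l + 1)) ∧
        c * (Real.log N * Real.log (Real.log N)) ≤ W0b (κ l) A l) ∨
      (∀ P : Finset ℕ, (∀ q ∈ P, q.Prime) →
        Wt (bd A) (fun q => if q ∈ P then 0 else lamS κ A (Fin.last k) q) <
          c * (Real.log N * Real.log (Real.log N)) →
        (((A (Fin.last k)).image (pf P)).card : ℝ) ≤
          (N : ℝ) ^ (-ζ) * ((A (Fin.last k)).card : ℝ))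

/-- one representative of every value -/
theorem exists_reps (s : Finset ℤ) (f : ℤ → ℤ) :
    ∃ u ⊆ s, Set.InjOn f u ∧ u.card = (s.image f).card := by
  classical
  obtain ⟨u, hu, hb⟩ := Set.exists_subset_bijOn (s : Set ℤ) f
  have hfin : u.Finite := (Finset.finite_toSet s).subset hu
  have hinj : Set.InjOn f (hfin.toFinset : Set ℤ) := by
    rw [Set.Finite.coe_toFinset]
    exact hb.injOn
  refine ⟨hfin.toFinset, ?_, hinj, ?_⟩
  · intro x hx
    rw [Set.Finite.mem_toFinset] at hx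
    exact hu hx
  · rw [← card_image_of_injOn hinj]
    congr 1
    apply Finset.coe_injective
    rw [coe_image, coe_image, Set.Finite.coe_toFinset]
    exact hb.image_eq

open Classical in
/-- the last stage: a set on which `pf P` is injective has small close classes for suitable
prices -/
theorem last_stage {K : ℕ} {τ L : ℝ} (hτ : 0 < τ) (hL : 0 < L) {n : ℕ} {lam : ℕ → ℕ}
    (hlam : ∀ q, n ≤ q → lam q = 0) {P : Finset ℕ} (hP : ∀ q ∈ P, q.Prime) {G Y : Finset ℤ}
    (hG0 : (0 : ℤ) ∉ G) (hYG : Y ⊆ G) (hinj : Set.InjOn (pf P) Y) {M : ℕ}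
    (hcount : ∀ z : ℤ, (((G.image (pf P)).filter (fun z' =>
      Close (Ures K (2 * τ) L (Wt n (fun q => if q ∈ P then 0 else lam q))
        (fun q => if q ∈ P then 0 else lam q)) z z')).card) ≤ M) :
    ∃ c : ℕ → ℝ, (∀ q : ℕ, q.Prime → 0 < c q) ∧ ∀ b ∈ Y, {b' : ℤ | b' ∈ Y ∧
      Pool.Agent.Helper84.TR.Close
        (Pool.Agent.Helper84.TR.UresC K τ L (WC n c lam) c lam) b b'}.ncard ≤ M := by
  classical
  set lamP : ℕ → ℕ := fun q => if q ∈ P then 0 else lam q with hlamP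
  set lamQ : ℕ → ℕ := fun q => if q ∈ P then lam q else 0 with hlamQ
  have hWt0 : ∀ f : ℕ → ℕ, 0 ≤ Wt n f := by
    intro f
    unfold Wt
    exact sum_nonneg fun q _ => mul_nonneg (Nat.cast_nonneg _) (Real.log_natCast_nonneg _)
  set G0 : ℝ := if Wt n lamP = 0 then 1 else Wt n lamP with hG0def
  set G1 : ℝ := if Wt n lamQ = 0 then 1 else Wt n lamQ with hG1def
  have hG0pos : 0 < G0 := by
    rw [hG0def]
    split_ifs with h
    · exact one_pos
    · exact lt_of_le_of_ne (hWt0 _) (Ne.symm h)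
  have hG1pos : 0 < G1 := by
    rw [hG1def]
    split_ifs with h
    · exact one_pos
    · exact lt_of_le_of_ne (hWt0 _) (Ne.symm h)
  have hG0' : Wt n lamP / G0 ≤ 1 := by
    rw [hG0def]
    split_ifs with h
    · rw [h]; norm_num
    · rw [div_self h]
  have hG1' : Wt n lamQ / G1 ≤ 1 := by
    rw [hG1def]
    split_ifs with h
    · rw [h]; norm_num
    · rw [div_self h]
  set c : ℕ → ℝ := fun q => if q ∈ P then Real.log q / G1 else Real.log q / G0 with hc
  have hcpos : ∀ q : ℕ, q.Prime → 0 < c q := by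
    intro q hq
    have hlog : 0 < Real.log (q : ℝ) := Real.log_pos (by exact_mod_cast hq.one_lt)
    rw [hc]
    simp only
    split_ifs
    · exact div_pos hlog hG1pos
    · exact div_pos hlog hG0pos
  have hWC : WC n c lam ≤ 2 := by
    have h1 : WC n c lam = Wt n lamQ / G1 + Wt n lamP / G0 := by
      unfold WC Wt
      rw [sum_div, sum_div, ← sum_add_distrib]
      apply sum_congr rfl
      intro q _
      simp only [hc, hlamP, hlamQ]
      by_cases hq : q ∈ P
      · simp only [if_pos hq]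
        push_cast
        ring
      · simp only [if_neg hq]
        push_cast
        ring
    rw [h1]
    (clear * - hG0' hG1'; linarith only [hG0', hG1'])
  refine ⟨c, hcpos, ?_⟩
  intro b hb
  have hb0 : b ≠ 0 := fun h => hG0 (h ▸ hYG hb)
  refine le_trans ?_ (hcount (pf P b))
  rw [← Set.ncard_coe_finset]
  apply Set.ncard_le_ncard_of_injOn (pf P)
  · rintro b' ⟨hb', hclose⟩
    have hb'0 : b' ≠ 0 := fun h => hG0 (h ▸ hYG hb')
    rw [mem_coe, mem_filter]
    refine ⟨mem_image_of_mem _ (hYG hb'), ?_⟩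
    intro q hq
    rw [val_pf hP hb0 hq, val_pf hP hb'0 hq]
    by_cases hqP : q ∈ P
    · simp only [if_pos hqP]
      have h0 : lamP q = 0 := by simp only [hlamP, if_pos hqP]
      unfold Ures
      rw [if_pos h0]
      norm_num
    · simp only [if_neg hqP]
      refine lt_of_lt_of_le (hclose q hq) ?_
      unfold Pool.Agent.Helper84.TR.UresC Ures
      simp only [hlamP, if_neg hqP]
      by_cases hl : lam q = 0
      · simp [hl]
      · rw [if_neg hl, if_neg hl]
        have hqn : q < n := by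
          by_contra h
          exact hl (hlam q (not_lt.1 h))
        have hlog : 0 < Real.log (q : ℝ) := Real.log_pos (by exact_mod_cast hq.one_lt)
        have hl1 : (1 : ℝ) ≤ lam q := by exact_mod_cast Nat.one_le_iff_ne_zero.2 hl
        have hterm : (lam q : ℝ) * Real.log q ≤ Wt n lamP := by
          unfold Wt
          have h3 : (lam q : ℝ) * Real.log q = (lamP q : ℝ) * Real.log q := by
            simp only [hlamP, if_neg hqP]
          rw [h3]
          exact single_le_sum (f := fun q : ℕ => (lamP q : ℝ) * Real.log q)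
            (fun i _ => mul_nonneg (Nat.cast_nonneg _) (Real.log_natCast_nonneg i))
            (mem_filter.2 ⟨mem_range.2 hqn, hq⟩)
        have hWpos : 0 < Wt n lamP := by (clear * - hlog hterm hl1; nlinarith only [hlog, hl1, hterm])
        have hG0eq : G0 = Wt n lamP := by
          rw [hG0def, if_neg hWpos.ne']
        have hcq : c q = Real.log q / Wt n lamP := by
          simp only [hc, if_neg hqP, hG0eq]
        have h4 : τ * WC n c lam / (L * c q) ≤
            2 * τ * Wt n (fun q => if q ∈ P then 0 else lam q) / (L * Real.log q) := by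
          rw [hcq]
          have h5 : τ * WC n c lam / (L * (Real.log q / Wt n lamP)) =
              (WC n c lam) * (τ * Wt n lamP / (L * Real.log q)) := by
            (clear * - hWpos hlog hL hτ; field_simp)
          rw [h5]
          have h6 : 2 * τ * Wt n (fun q => if q ∈ P then 0 else lam q) / (L * Real.log q) =
              2 * (τ * Wt n lamP / (L * Real.log q)) := by
            rw [hlamP]
            ring
          rw [h6]
          apply mul_le_mul_of_nonneg_right hWC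
          (clear * - hτ hWpos hL hlog; positivity)
        have h7 := Nat.ceil_mono h4
        push_cast
        have h8 : ((⌈τ * WC n c lam / (L * c q)⌉₊ : ℕ) : ℤ) ≤
            ((⌈2 * τ * Wt n (fun q => if q ∈ P then 0 else lam q) / (L * Real.log q)⌉₊ : ℕ) : ℤ) := by
          exact_mod_cast h7
        linarith only [h8]
  · intro x hx y hy hxy
    exact hinj hx.1 hy.1 hxy

theorem nzG : NZG := by
  classical
  intro k ε θ hε hθ hθ1
  set ζ : ℝ := ε / (8 * (k + 2)) with hζ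
  have hk2 : (0 : ℝ) < (k : ℝ) + 2 := by positivity
  have hζ0 : 0 < ζ := by (clear * - hε; positivity)
  obtain ⟨κ₀, K, τ, C, hκ₀, hκ₀1, hK, hτ, hC, hmain⟩ := corP (k + 1) ζ hζ0
  obtain ⟨δ, n₀, hδ, hcnt⟩ := countS K τ ζ hτ hζ0
  obtain ⟨δ', n₀', hδ', hcnt'⟩ := countS K (2 * τ) ζ (by positivity) hζ0
  set ρ : ℝ := θ * κ₀ / 2 with hρ
  have hρ0 : 0 < ρ := by positivity
  have hρ1 : ρ ≤ 1 := by
    have : θ * κ₀ ≤ 1 * 1 := mul_le_mul hθ1 hκ₀1 hκ₀.le zero_le_one
    rw [hρ]; linarith only [this]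
  have hρκ : ρ ≤ κ₀ := by
    have : θ * κ₀ ≤ 1 * κ₀ := mul_le_mul_of_nonneg_right hθ1 hκ₀.le
    rw [hρ]; (clear * - hκ₀ this; linarith)
  set κ : Fin (k + 1) → ℝ := fun l => ρ ^ ((l : ℕ) + 1) with hκ
  have hκpos : ∀ l, 0 < κ l := fun l => by simp only [hκ]; (clear * - hθ hκ₀; positivity)
  have hκle : ∀ l, κ l ≤ 1 := fun l => by
    simp only [hκ]
    exact pow_le_one₀ hρ0.le hρ1
  have hκle' : ∀ l, κ l ≤ κ₀ := fun l => by
    simp only [hκ]
    calc ρ ^ ((l : ℕ) + 1) ≤ ρ ^ 1 :=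
          pow_le_pow_of_le_one hρ0.le hρ1 (by omega)
      _ = ρ := pow_one _
      _ ≤ κ₀ := hρκ
  have hκstep : ∀ l l' : Fin (k + 1), l' < l → κ l ≤ κ₀ * (θ * κ l' / 2) := by
    intro l l' hl
    simp only [hκ]
    have h1 : κ₀ * (θ * ρ ^ ((l' : ℕ) + 1) / 2) = ρ ^ ((l' : ℕ) + 1 + 1) := by
      rw [pow_succ ρ ((l' : ℕ) + 1), hρ]; ring
    rw [h1]
    apply pow_le_pow_of_le_one hρ0.le hρ1
    have : (l' : ℕ) < l := hl
    omega
  set κm : ℝ := θ * ρ ^ (k + 2) with hκm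
  have hκm0 : 0 < κm := by (clear * - hθ hκ₀; positivity)
  have hκml : ∀ l, κm ≤ θ * κ l := fun l => by
    simp only [hκ, hκm]
    apply mul_le_mul_of_nonneg_left _ hθ.le
    exact pow_le_pow_of_le_one hρ0.le hρ1 (by have := l.2; omega)
  set B : ℝ := 8 / κm ^ 2 with hB
  have hB0 : 0 < B := by (clear * - hθ hκ₀; positivity)
  set C' : ℝ := 8 * (2 * C + 1) / κm ^ 2 with hC'
  have hC'0 : 0 < C' := by positivity
  -- a threshold for `N`
  obtain ⟨n₁, hn₁⟩ : ∃ n₁ : ℕ, ∀ N : ℕ, n₁ ≤ N → B ≤ (N : ℝ) ^ ζ := by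
    have ht : Filter.Tendsto (fun N : ℕ => (N : ℝ) ^ ζ) Filter.atTop Filter.atTop :=
      (tendsto_rpow_atTop hζ0).comp tendsto_natCast_atTop_atTop
    obtain ⟨n₁, hn₁⟩ := (Filter.tendsto_atTop.1 ht B).exists_forall_of_atTop
    exact ⟨n₁, hn₁⟩
  set n₂ : ℕ := max (max (max n₀ n₀') n₁) 16 with hn₂
  set D : ℝ := ∑ l, Real.log (θ * κ l / 2) - (k + 1) * (Real.log 2 + 1) with hD
  set c : ℝ := min (min (min δ δ') 1) (min (1 / (n₂ : ℝ) ^ (k + 1)) (Real.exp D)) with hc
  have hn₂0 : (0 : ℝ) < n₂ := by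
    have : 0 < n₂ := by omega
    exact_mod_cast this
  have hc0 : 0 < c := lt_min (lt_min (lt_min hδ hδ') one_pos)
    (lt_min (by (clear * -; positivity)) (Real.exp_pos _))
  have hcδ : c ≤ δ := (min_le_left _ _).trans ((min_le_left _ _).trans (min_le_left _ _))
  have hcδ' : c ≤ δ' := (min_le_left _ _).trans ((min_le_left _ _).trans (min_le_right _ _))
  have hc1 : c ≤ 1 := (min_le_left _ _).trans (min_le_right _ _)
  have hcn : c ≤ 1 / (n₂ : ℝ) ^ (k + 1) := (min_le_right _ _).trans (min_le_left _ _)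
  have hcD : c ≤ Real.exp D := (min_le_right _ _).trans (min_le_right _ _)
  clear_value c
  refine ⟨κ, C', c, ζ, fun l => ⟨hκpos l, hκle l⟩, hC'0, hc0, hζ0, ?_⟩
  intro N A hAne hA0 hAN hmix
  by_contra hcon
  rw [not_or] at hcon
  obtain ⟨hcon1, hcon2⟩ := hcon
  push Not at hcon1 hcon2
  obtain ⟨P, hP, hPW, hPcard⟩ := hcon2
  have hmixne : (mixSet A).Nonempty := by
    unfold mixSet
    apply Nonempty.image
    rw [Fintype.piFinset_nonempty]
    exact hAne
  have hmix1 : (1 : ℝ) ≤ ((mixSet A).card : ℝ) := by exact_mod_cast card_pos.2 hmixne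
  have hprodpos : (0 : ℝ) < ∏ l, ((A l).card : ℝ) :=
    prod_pos fun l _ => by exact_mod_cast card_pos.2 (hAne l)
  have hN1 : 1 ≤ N := by
    by_contra h
    have hN0 : N = 0 := by omega
    subst hN0
    rw [Nat.cast_zero, Real.zero_rpow (by linarith only [hε])] at hmix
    linarith only [hmix]
  have hNpos : (0 : ℝ) < N := by exact_mod_cast hN1
  have hNε : (N : ℝ) ^ (-ε) ≤ 1 := by
    apply Real.rpow_le_one_of_one_le_of_nonpos (by exact_mod_cast hN1) (by linarith only [hε])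
  rcases lt_or_ge N n₂ with hlt | hge
  · -- small `N`
    have h1 : ∏ l, ((A l).card : ℝ) ≤ (n₂ : ℝ) ^ (k + 1) := by
      calc ∏ l, ((A l).card : ℝ) ≤ ∏ _l : Fin (k + 1), (n₂ : ℝ) := by
            apply prod_le_prod
            · intro l _; (clear * - hAne hc hc0 hcδ hcδ' hc1 hcn hcD hmix hcon1 hPW; positivity)
            · intro l _
              have := hAN l
              exact_mod_cast this.trans hlt.le
        _ = (n₂ : ℝ) ^ (k + 1) := by rw [prod_const, card_univ, Fintype.card_fin]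
    have h2 : c * (N : ℝ) ^ (-ε) * ∏ l, ((A l).card : ℝ) ≤ 1 := by
      calc c * (N : ℝ) ^ (-ε) * ∏ l, ((A l).card : ℝ)
          ≤ (1 / (n₂ : ℝ) ^ (k + 1)) * 1 * (n₂ : ℝ) ^ (k + 1) := by
            apply mul_le_mul _ h1 hprodpos.le (by (clear * -; positivity))
            exact mul_le_mul hcn hNε (by (clear * - hN1; positivity)) (by (clear * -; positivity))
        _ = 1 := by (clear * - hn₂0; field_simp)
    linarith only [hmix, hmix1, h2]
  · have hNn₀ : n₀ ≤ N := by omega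
    have hNn₀' : n₀' ≤ N := by omega
    have hNn₁ : n₁ ≤ N := by omega
    have hN16 : 16 ≤ N := by omega
    set L : ℝ := Real.log N with hL
    have hL1 : 1 ≤ L := by
      rw [hL, Real.le_log_iff_exp_le hNpos]
      have h3 : Real.exp 1 < 2.7182818286 := Real.exp_one_lt_d9
      have h4 : (16 : ℝ) ≤ N := by exact_mod_cast hN16
      linarith only [h3, h4]
    have hLL : 0 ≤ L * Real.log L := mul_nonneg (by linarith only [hL1]) (Real.log_nonneg hL1)
    have hNζ : B ≤ (N : ℝ) ^ ζ := hn₁ N hNn₁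
    have hNζ1 : (1 : ℝ) ≤ (N : ℝ) ^ ζ := Real.one_le_rpow (by exact_mod_cast hN1) hζ0.le
    have hNζm1 : (N : ℝ) ^ (-ζ) ≤ 1 :=
      Real.rpow_le_one_of_one_le_of_nonpos (by exact_mod_cast hN1) (by linarith only [hζ0])
    have hNζm0 : (0 : ℝ) < (N : ℝ) ^ (-ζ) := Real.rpow_pos_of_pos hNpos _
    set M : ℕ := ⌈(N : ℝ) ^ ζ⌉₊ with hM
    have hMle : (N : ℝ) ^ ζ ≤ M := Nat.le_ceil _
    have hM1 : 1 ≤ M := by
      have : (1 : ℝ) ≤ M := hNζ1.trans hMle
      exact_mod_cast this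
    have hlogM : Real.log M ≤ ζ * L + Real.log 2 := by
      have h5 : (M : ℝ) ≤ 2 * (N : ℝ) ^ ζ := by
        have := Nat.ceil_lt_add_one (show 0 ≤ (N : ℝ) ^ ζ by (clear * - hN1; positivity))
        rw [← hM] at this
        linarith only [hNζ1, this]
      have h6 := Real.log_le_log (by exact_mod_cast hM1) h5
      rw [Real.log_mul (by norm_num) (by (clear * - hN1; positivity)), Real.log_rpow hNpos] at h6
      linarith only [h6]
    -- the dichotomy
    have hdich : ∀ l : Fin (k + 1), 0 < (l : ℕ) → (l : ℕ) < k →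
        (∃ (T : Finset ℕ) (e : ℕ → ℕ) (β : ℕ → ℤ), Pop (θ * κ l) (A l) T e β ∧
          C' * (W0b (κ l) A l + 1) < W1 T e β) ∨ W0b (κ l) A l < c * (L * Real.log L) := by
      intro l hl hlk
      by_contra h
      push Not at h
      exact absurd (hcon1 l hl hlk h.1) (not_lt.2 h.2)
    -- choose the sets
    have hchoice : ∀ l : Fin (k + 1), ∃ Z : Finset ℤ, Z ⊆ A l ∧
        ((l : ℕ) < k → θ * κ l / 2 * ((A l).card : ℝ) ≤ (Z.card : ℝ)) ∧
        (N : ℝ) ^ (-ζ) * (θ * κ l / 2) * ((A l).card : ℝ) ≤ (Z.card : ℝ) ∧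
        (0 < (l : ℕ) →
          (∀ b ∈ Z, {b' : ℤ | b' ∈ Z ∧ Pool.Agent.Helper84.TR.Close
            (Pool.Agent.Helper84.TR.Ures K τ L (Pool.Agent.Helper84.TR.W (bd A) (lamS κ A l))
              (lamS κ A l)) b b' ∧
            Pool.Agent.Helper84.TR.dst b b' ≤
              C * Pool.Agent.Helper84.TR.W (bd A) (lamS κ A l)}.ncard ≤ M) ∨
          (∃ c : ℕ → ℝ, (∀ q : ℕ, q.Prime → 0 < c q) ∧
            ∀ b ∈ Z, {b' : ℤ | b' ∈ Z ∧ Pool.Agent.Helper84.TR.Close
              (Pool.Agent.Helper84.TR.UresC K τ L (WC (bd A) c (lamS κ A l)) c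
                (lamS κ A l)) b b'}.ncard ≤ M)) := by
      intro l
      have hκpl := hκpos l
      have hθκ : θ * κ l / 2 ≤ 1 := by
        have : θ * κ l ≤ 1 * 1 := mul_le_mul hθ1 (hκle l) (hκpos l).le zero_le_one
        (clear * - this; linarith only [this])
      have hκA : θ * κ l / 2 * ((A l).card : ℝ) ≤ ((A l).card : ℝ) := by
        calc θ * κ l / 2 * ((A l).card : ℝ) ≤ 1 * ((A l).card : ℝ) :=
              mul_le_mul_of_nonneg_right hθκ (Nat.cast_nonneg _)
          _ = _ := one_mul _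
      have hweak : ∀ x : ℝ, θ * κ l / 2 * ((A l).card : ℝ) ≤ x →
          (N : ℝ) ^ (-ζ) * (θ * κ l / 2) * ((A l).card : ℝ) ≤ x := by
        intro x hx
        refine le_trans ?_ hx
        rw [mul_assoc]
        exact mul_le_of_le_one_left (by (clear * - hθ hκ₀ hAne hc hc0 hcδ hcδ' hc1 hcn hcD hmix hcon1 hPW hdich; positivity)) hNζm1
      rcases Nat.eq_zero_or_pos (l : ℕ) with hl | hl
      · exact ⟨A l, Subset.rfl, fun _ => hκA, hweak _ hκA, fun h => absurd h (by omega)⟩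
      by_cases hlk : (l : ℕ) < k
      · rcases hdich l hl hlk with ⟨T, e, β, hpop, hWlt⟩ | hsmall
        · have hWb := W0b_nonneg (κ l) A l
          have hW1 : 0 < W1 T e β := lt_of_le_of_lt (by (clear * - hC hθ hκ₀ hWb; positivity)) hWlt
          have hθκ0 : 0 < θ * κ l := mul_pos hθ hκpl
          have hcardZ := Zs_card hθκ0 hpop hW1
          refine ⟨Zs (θ * κ l) (A l) T e β, Zs_subset _ _ _ _ _, fun _ => hcardZ,
            hweak _ hcardZ, ?_⟩
          intro _
          left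
          intro b hb
          have hWeq : Pool.Agent.Helper84.TR.W (bd A) (lamS κ A l) = W0b (κ l) A l :=
            Wt_eq hA0 l
          rw [hWeq]
          set G := (Zs (θ * κ l) (A l) T e β).filter (fun b' =>
            Pool.Agent.Helper84.TR.Close
              (Pool.Agent.Helper84.TR.Ures K τ L (W0b (κ l) A l) (lamS κ A l)) b b' ∧
              Pool.Agent.Helper84.TR.dst b b' ≤ C * W0b (κ l) A l) with hG
          have hne0 : ∀ a ∈ Zs (θ * κ l) (A l) T e β, a ≠ 0 := by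
            intro a ha h0
            exact hA0 l (h0 ▸ Zs_subset _ _ _ _ _ ha)
          have hcell := cells hθκ0 (hA0 l) hpop (w := 2 * (C * W0b (κ l) A l)) (by
            have h8 : (θ * κ l) ^ 2 * C' / 8 ≥ 2 * C + 1 := by
              have h9 : κm ^ 2 ≤ (θ * κ l) ^ 2 := pow_le_pow_left₀ hκm0.le (hκml l) 2
              have h10 : κm ^ 2 * C' = 8 * (2 * C + 1) := by
                rw [hC']; (clear * - hκm0 hC; field_simp)
              have h11 : κm ^ 2 * C' ≤ (θ * κ l) ^ 2 * C' := mul_le_mul_of_nonneg_right h9 hC'0.le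
              linarith only [h10, h11]
            have hlog2 : Real.log 2 ≤ 1 := by
              have := Real.log_two_lt_d9
              linarith only [this]
            have h12 : (θ * κ l) ^ 2 * (C' * (W0b (κ l) A l + 1)) ≤ (θ * κ l) ^ 2 * W1 T e β :=
              mul_le_mul_of_nonneg_left hWlt.le (by positivity)
            have h13 : (2 * C + 1) * (W0b (κ l) A l + 1) ≤
                (θ * κ l) ^ 2 * C' / 8 * (W0b (κ l) A l + 1) :=
              mul_le_mul_of_nonneg_right h8 (by (clear * - hWb; positivity))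
            nlinarith only [hC, hWlt, hWb, h8, hlog2]) (by (clear * - hC hWb; positivity)) (G := G) (filter_subset _ _) (by
            intro a ha a' ha'
            rw [hG, mem_filter] at ha ha'
            have h14 := dst_triangle (c := a') (hne0 a ha.1) (hne0 b hb)
            rw [dst_comm a b] at h14
            have h14a : dst b a ≤ C * W0b (κ l) A l := ha.2.2
            have h14b : dst b a' ≤ C * W0b (κ l) A l := ha'.2.2
            linarith only [h14, h14a, h14b])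
          have h15 : (8 : ℝ) / (θ * κ l) ^ 2 ≤ B := by
            rw [hB]
            apply div_le_div_of_nonneg_left (by norm_num) (by positivity)
            exact pow_le_pow_left₀ hκm0.le (hκml l) 2
          have h16 : (G.card : ℝ) ≤ M := hcell.trans (h15.trans (hNζ.trans hMle))
          have h17 : {b' : ℤ | b' ∈ Zs (θ * κ l) (A l) T e β ∧ Pool.Agent.Helper84.TR.Close
            (Pool.Agent.Helper84.TR.Ures K τ L (W0b (κ l) A l) (lamS κ A l)) b b' ∧
              Pool.Agent.Helper84.TR.dst b b' ≤ C * W0b (κ l) A l} = (G : Set ℤ) := by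
            ext x
            rw [hG, mem_coe, mem_filter]
            rfl
          rw [h17, Set.ncard_coe_finset]
          exact_mod_cast h16
        · refine ⟨A l, Subset.rfl, fun _ => hκA, hweak _ hκA, ?_⟩
          intro _
          left
          intro b _
          have h17 : Wt (bd A) (lamS κ A l) < δ * (L * Real.log L) := by
            rw [Wt_eq hA0]
            exact lt_of_lt_of_le hsmall (mul_le_mul_of_nonneg_right hcδ hLL)
          have h18 := hcnt N (bd A) (lamS κ A l) hNn₀ (lamS_zero hA0 l) h17 (A l) b (hA0 l)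
          have h19 : {b' : ℤ | b' ∈ A l ∧ Pool.Agent.Helper84.TR.Close
            (Pool.Agent.Helper84.TR.Ures K τ L (Pool.Agent.Helper84.TR.W (bd A) (lamS κ A l))
              (lamS κ A l)) b b' ∧
            Pool.Agent.Helper84.TR.dst b b' ≤
              C * Pool.Agent.Helper84.TR.W (bd A) (lamS κ A l)}.ncard ≤
              ((A l).filter (fun b' =>
                Close (Ures K τ L (Wt (bd A) (lamS κ A l)) (lamS κ A l)) b b')).card := by
            rw [← Set.ncard_coe_finset]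
            apply Set.ncard_le_ncard _ (Finset.finite_toSet _)
            rintro x ⟨hx1, hx2, _⟩
            rw [mem_coe, mem_filter]
            exact ⟨hx1, hx2⟩
          have h20 : (((A l).filter (fun b' =>
                Close (Ures K τ L (Wt (bd A) (lamS κ A l)) (lamS κ A l)) b b')).card : ℝ) ≤ M :=
            h18.trans hMle
          exact h19.trans (by exact_mod_cast h20)
      · -- the last set
        have hlast : l = Fin.last k := by
          apply Fin.ext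
          rw [Fin.val_last]
          have := l.2
          omega
        -- one representative of every value
        obtain ⟨Z, hZY, hZinj, hZcard⟩ := exists_reps (A l) (pf P)
        refine ⟨Z, hZY, fun h => absurd h hlk, ?_, fun _ => Or.inr ?_⟩
        · rw [hZcard, hlast]
          refine le_trans ?_ hPcard.le
          have h21 : θ * κ (Fin.last k) / 2 ≤ 1 := by rw [← hlast]; exact hθκ
          calc (N : ℝ) ^ (-ζ) * (θ * κ (Fin.last k) / 2) * ((A (Fin.last k)).card : ℝ)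
              ≤ (N : ℝ) ^ (-ζ) * 1 * ((A (Fin.last k)).card : ℝ) := by
                apply mul_le_mul_of_nonneg_right _ (Nat.cast_nonneg _)
                exact mul_le_mul_of_nonneg_left h21 hNζm0.le
            _ = (N : ℝ) ^ (-ζ) * ((A (Fin.last k)).card : ℝ) := by rw [mul_one]
        · have h22 : ∀ z : ℤ, ((((A l).image (pf P)).filter (fun z' =>
              Close (Ures K (2 * τ) L (Wt (bd A) (fun q => if q ∈ P then 0 else lamS κ A l q))
                (fun q => if q ∈ P then 0 else lamS κ A l q)) z z')).card) ≤ M := by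
            intro z
            have h23 : Wt (bd A) (fun q => if q ∈ P then 0 else lamS κ A l q) <
                δ' * (L * Real.log L) := by
              rw [hlast]
              exact lt_of_lt_of_le hPW (mul_le_mul_of_nonneg_right hcδ' hLL)
            have h24 := hcnt' N (bd A) (fun q => if q ∈ P then 0 else lamS κ A l q) hNn₀'
              (fun q hq => by
                split_ifs
                · rfl
                · exact lamS_zero hA0 l q hq) h23 ((A l).image (pf P)) z (by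
                intro h
                obtain ⟨a, ha, ha0⟩ := mem_image.1 h
                exact pf_ne_zero hP (fun h0 => hA0 l (h0 ▸ ha)) ha0)
            exact_mod_cast h24.trans hMle
          exact last_stage hτ (by linarith only [hL1]) (lamS_zero hA0 l) hP (hA0 l) hZY hZinj h22
    choose Y hYA hYcard hYcard' hYcell using hchoice
    have hYne : ∀ l, (Y l).Nonempty := by
      intro l
      rw [← card_pos]
      have h21 : (0 : ℝ) < (Y l).card := by
        have h22 : (0 : ℝ) < (A l).card := by exact_mod_cast card_pos.2 (hAne l)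
        have h23 := hκpos l
        exact lt_of_lt_of_le (by (clear * - hN1 hθ hκ₀ hAne hc hc0 hcδ hcδ' hc1 hcn hcD hmix hcon1 hPW hdich; positivity)) (hYcard' l)
      exact_mod_cast h21
    have hYN : ∀ l, ((Y l).card : ℝ) ≤ Real.exp L := by
      intro l
      rw [hL, Real.exp_log hNpos]
      exact_mod_cast (card_le_card (hYA l)).trans (hAN l)
    have key := hmain Y L M (bd A) (lamS κ A) hL1 hM1 hYne (fun l h => hA0 l (hYA l h)) hYN
      (fun l q hq => lamS_zero hA0 l q hq) (by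
        intro l l' hl q hq
        have hlevle : lev (κ l) (A l') q ≤ lamS κ A l q := by
          unfold lamS
          exact single_le_sum (f := fun l' => lev (κ l) (A l') q) (fun _ _ => Nat.zero_le _)
            (mem_filter.2 ⟨mem_univ _, hl⟩)
        have h23 := cdiv_lt (hκpos l) (hAne l') (hA0 l') hq
          (l := lamS κ A l q + 1) (by omega)
        have h24 : (((Y l').filter (fun b => (q : ℤ) ^ (lamS κ A l q + 1) ∣ b)).card : ℝ) ≤
            (cdiv (A l') ((q : ℤ) ^ (lamS κ A l q + 1)) : ℝ) := by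
          unfold cdiv
          apply Nat.cast_le.2
          exact card_le_card (filter_subset_filter _ (hYA l'))
        refine h24.trans (h23.le.trans ?_)
        have hl'k : (l' : ℕ) < k := by
          have h1 : (l' : ℕ) < l := hl
          have h2 := l.2
          omega
        have h25 := hYcard l' hl'k
        have h26 := hκstep l l' hl
        calc κ l * ((A l').card : ℝ) ≤ κ₀ * (θ * κ l' / 2) * ((A l').card : ℝ) :=
              mul_le_mul_of_nonneg_right h26 (Nat.cast_nonneg _)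
          _ = κ₀ * (θ * κ l' / 2 * ((A l').card : ℝ)) := by ring
          _ ≤ κ₀ * (Y l').card := mul_le_mul_of_nonneg_left h25 hκ₀.le)
      (fun l hl => hYcell l hl)
    have hsub : (Fintype.piFinset Y).image (fun f : Fin (k + 1) → ℤ => ∏ i, f i) ⊆ mixSet A := by
      unfold mixSet
      apply image_subset_image
      intro f hf
      rw [Fintype.mem_piFinset] at hf ⊢
      exact fun l => hYA l (hf l)
    have hYprodne :
        ((Fintype.piFinset Y).image (fun f : Fin (k + 1) → ℤ => ∏ i, f i)).Nonempty := by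
      apply Nonempty.image
      rw [Fintype.piFinset_nonempty]
      exact hYne
    have h27 : Real.log (((Fintype.piFinset Y).image
        (fun f : Fin (k + 1) → ℤ => ∏ i, f i)).card) ≤ Real.log ((mixSet A).card : ℝ) := by
      apply Real.log_le_log
      · exact_mod_cast card_pos.2 hYprodne
      · exact_mod_cast card_le_card hsub
    have h28 : Real.log ((mixSet A).card : ℝ) <
        Real.log c + -ε * L + ∑ l, Real.log ((A l).card : ℝ) := by
      have h29 := Real.log_lt_log (by linarith only [hmix1]) hmix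
      rw [Real.log_mul (by (clear * - hc0 hN1; positivity)) hprodpos.ne', Real.log_mul hc0.ne' (by (clear * - hN1; positivity)),
        Real.log_rpow hNpos, Real.log_prod (fun l _ => by
          have := card_pos.2 (hAne l)
          (clear * - hAne hc hc0 hcδ hcδ' hc1 hcn hcD hmix hcon1 hPW hdich h29; positivity))] at h29
      exact h29
    have h30 : ∑ l, Real.log ((A l).card : ℝ) + ∑ l, Real.log (θ * κ l / 2) -
        ∑ _l : Fin (k + 1), ζ * L ≤ ∑ l, Real.log ((Y l).card : ℝ) := by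
      rw [← sum_add_distrib, ← sum_sub_distrib]
      apply sum_le_sum
      intro l _
      have hAp : (0 : ℝ) < (A l).card := by exact_mod_cast card_pos.2 (hAne l)
      have hκp := hκpos l
      have h31 := Real.log_le_log (by (clear * - hN1 hθ hκ₀ hAne hc hc0 hcδ hcδ' hc1 hcn hcD hmix hcon1 hPW hdich h28; positivity)) (hYcard' l)
      rw [Real.log_mul (by (clear * - hN1 hθ hκ₀; positivity)) hAp.ne', Real.log_mul hNζm0.ne' (by positivity),
        Real.log_rpow hNpos] at h31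
      linarith only [h31]
    rw [sum_const, card_univ, Fintype.card_fin, nsmul_eq_mul] at h30
    have h31 : Real.log c ≤ D := by
      rw [← Real.log_exp D]
      exact Real.log_le_log hc0 hcD
    push_cast at key h30
    have h32 : ((k : ℝ) + 1) * (ζ * L + Real.log M + 1) ≤
        ((k : ℝ) + 1) * (2 * ζ * L + Real.log 2 + 1) := by
      apply mul_le_mul_of_nonneg_left _ (by (clear * -; positivity))
      linarith only [hlogM]
    have h33 : ((k : ℝ) + 1) * (3 * ζ) ≤ ε := by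
      rw [hζ]
      have : ((k : ℝ) + 1) * (3 * (ε / (8 * (k + 2)))) = ε * (3 * (k + 1) / (8 * (k + 2))) := by
        (clear * - hε; field_simp)
      rw [this]
      have h34 : 3 * ((k : ℝ) + 1) / (8 * (k + 2)) ≤ 1 := by
        rw [div_le_one (by (clear * -; positivity))]
        have : (0 : ℝ) ≤ k := Nat.cast_nonneg _
        linarith only []
      calc ε * (3 * ((k : ℝ) + 1) / (8 * (k + 2))) ≤ ε * 1 := mul_le_mul_of_nonneg_left h34 hε.le
        _ = ε := mul_one _
    have h35 : ((k : ℝ) + 1) * (3 * ζ) * L ≤ ε * L := mul_le_mul_of_nonneg_right h33 (by linarith only [hL1])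
    rw [hD] at h31
    have h36 : ((k : ℝ) + 1) * (2 * ζ * L + Real.log 2 + 1) + ((k : ℝ) + 1) * (ζ * L) =
        ((k : ℝ) + 1) * (3 * ζ) * L + (k + 1) * (Real.log 2 + 1) := by ring
    linarith only [h27, h28, h31, key, h30, h32, h35]

end Pool.Agent.Helper34.TR
end

/- Helper24.TT.H34.TR.MixT -/
section
set_option autoImplicit false

/-!
MP_120218_co, project TR: the structure theorem for `k` sets with slack, from the general one.
-/

open Finset

namespace Pool.Agent.Helper34.TR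

open Pool.Agent.Helper26.TR Pool.Agent.Helper88.NZ

theorem mixSet_seq_one' {k : ℕ} (A : Fin k → Finset ℤ) :
    (mixSet (seq A id {1})).card = (mixSet A).card := by
  classical
  congr 1
  unfold mixSet
  ext z
  rw [mem_image, mem_image]
  constructor
  · rintro ⟨f, hf, rfl⟩
    rw [Fintype.mem_piFinset] at hf
    refine ⟨fun i => f i.castSucc, ?_, ?_⟩
    · rw [Fintype.mem_piFinset]
      intro i
      have := hf i.castSucc
      rwa [seq_cast] at this
    · have h1 := hf (Fin.last k)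
      rw [seq_last, mem_singleton] at h1
      rw [Fin.prod_univ_castSucc, h1, mul_one]
  · rintro ⟨f, hf, rfl⟩
    rw [Fintype.mem_piFinset] at hf
    refine ⟨Fin.snoc (α := fun _ => ℤ) f 1, ?_, ?_⟩
    · rw [Fintype.mem_piFinset]
      intro l
      induction l using Fin.lastCases with
      | last => rw [Fin.snoc_last, seq_last]; exact mem_singleton_self _
      | cast l => rw [Fin.snoc_castSucc, seq_cast]; exact hf l
    · rw [Fin.prod_univ_castSucc]
      simp

theorem W0b_seq {k : ℕ} (κ : ℝ) (A : Fin k → Finset ℤ) (G : Finset ℤ) (l : Fin k) :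
    W0b κ (seq A id G) l.castSucc = W0b κ A l := by
  classical
  unfold W0b
  have h1 : univ.filter (fun l' : Fin (k + 1) => l' < l.castSucc) =
      (univ.filter (fun l' : Fin k => l' < l)).map Fin.castSuccEmb := by
    ext z
    rw [mem_filter, mem_map]
    constructor
    · rintro ⟨_, hz⟩
      have hz' : (z : ℕ) < l := hz
      have hzk : (z : ℕ) < k := by have := l.2; omega
      exact ⟨⟨z, hzk⟩, mem_filter.2 ⟨mem_univ _, hz'⟩, rfl⟩
    · rintro ⟨y, hy, rfl⟩
      have hy' : (y : ℕ) < l := (mem_filter.1 hy).2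
      exact ⟨mem_univ _, hy'⟩
  rw [h1, sum_map]
  apply sum_congr rfl
  intro y _
  have : seq A id G (Fin.castSuccEmb y) = A y := seq_cast _ _ _ y
  rw [this]

theorem nzMixT : NZMixT := by
  classical
  intro k ε hε θ hθ hθ1
  obtain ⟨κ, C, c, ζ, hκ, hC, hc, hζ, H⟩ := nzG k ε θ hε hθ hθ1
  set c' : ℝ := min c (1 / 2 ^ k) with hc'
  have hc'0 : 0 < c' := lt_min hc (by (clear * -; positivity))
  refine ⟨fun l => κ l.castSucc, C, c', fun l => hκ _, hC, hc'0, ?_⟩
  intro N A hAne hA0 hAN hmix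
  have hmixne : (mixSet A).Nonempty := mixSet_nonempty hAne
  have hmix1 : (1 : ℝ) ≤ ((mixSet A).card : ℝ) := by exact_mod_cast card_pos.2 hmixne
  have hN1 : 1 ≤ N := by
    by_contra h
    have hN0 : N = 0 := by omega
    subst hN0
    rw [Nat.cast_zero, Real.zero_rpow (by (clear * - hε; linarith only [hε]))] at hmix
    linarith only [hmix]
  have hNpos : (0 : ℝ) < N := by exact_mod_cast hN1
  have hNε : (N : ℝ) ^ (-ε) ≤ 1 := by
    apply Real.rpow_le_one_of_one_le_of_nonpos (by exact_mod_cast hN1) (by linarith only [hε])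
  rcases lt_or_ge N 3 with hN3 | hN3
  · exfalso
    have h4 : ∏ i, ((A i).card : ℝ) ≤ 2 ^ k := by
      calc ∏ i, ((A i).card : ℝ) ≤ ∏ _i : Fin k, (2 : ℝ) := by
            apply prod_le_prod (fun _ _ => Nat.cast_nonneg _)
            intro i _
            have := hAN i
            exact_mod_cast (by omega : (A i).card ≤ 2)
        _ = 2 ^ k := by rw [prod_const, card_univ, Fintype.card_fin]
    have h5 : c' * (N : ℝ) ^ (-ε) * ∏ i, ((A i).card : ℝ) ≤ 1 := by
      calc c' * (N : ℝ) ^ (-ε) * ∏ i, ((A i).card : ℝ)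
          ≤ (1 / 2 ^ k) * 1 * 2 ^ k := by
            apply mul_le_mul _ h4 (prod_nonneg fun _ _ => Nat.cast_nonneg _) (by positivity)
            exact mul_le_mul (min_le_right _ _) hNε (by (clear * - hN1; positivity)) (by positivity)
        _ = 1 := by field_simp
    (clear * - hmix hmix1 h5; linarith only [hmix, hmix1, h5])
  have hLL : 0 < Real.log N * Real.log (Real.log N) := by
    have h4 : (1.09 : ℝ) ≤ Real.log N := by
      have h5 : Real.log 3 ≤ Real.log N := Real.log_le_log (by norm_num) (by exact_mod_cast hN3)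
      have h6 : (1.09 : ℝ) ≤ Real.log 3 := by
        rw [Real.le_log_iff_exp_le (by norm_num)]
        have h7 : Real.exp 1 < 2.7182818286 := Real.exp_one_lt_d9
        have h8 : Real.exp (0.09 : ℝ) ≤ 1 / (1 - 0.09) := by
          have h9 : 1 - (0.09 : ℝ) ≤ Real.exp (-(0.09 : ℝ)) := Real.one_sub_le_exp_neg _
          rw [Real.exp_neg] at h9
          rw [le_div_iff₀ (by norm_num), mul_comm, ← le_div_iff₀ (Real.exp_pos _), one_div]
          exact h9
        have h9 : Real.exp (1.09 : ℝ) = Real.exp 1 * Real.exp 0.09 := by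
          rw [← Real.exp_add]; norm_num
        rw [h9]
        calc Real.exp 1 * Real.exp 0.09 ≤ 2.7182818286 * (1 / (1 - 0.09)) :=
              mul_le_mul h7.le h8 (Real.exp_pos _).le (by norm_num)
          _ ≤ 3 := by norm_num
      linarith only [h5, h6]
    exact mul_pos (by (clear * - h4; linarith only [h4])) (Real.log_pos (by (clear * - h4; linarith only [h4])))
  set A' : Fin (k + 1) → Finset ℤ := seq A id {1} with hA'
  have hAcast : ∀ l : Fin k, A' l.castSucc = A l := fun l => seq_cast _ _ _ l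
  have hAlast : A' (Fin.last k) = {1} := seq_last _ _ _
  have hAprop : ∀ (Q : Finset ℤ → Prop), (∀ i, Q (A i)) → Q {1} → ∀ l, Q (A' l) := by
    intro Q hQ hQG l
    induction l using Fin.lastCases with
    | last => rw [hAlast]; exact hQG
    | cast l => rw [hAcast]; exact hQ _
  have hprod : ∏ l, ((A' l).card : ℝ) = ∏ i, ((A i).card : ℝ) := by
    rw [Fin.prod_univ_castSucc, hAlast, card_singleton, Nat.cast_one, mul_one,
      prod_congr rfl (fun l _ => by rw [hAcast l])]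
  have hmix' : ((mixSet A').card : ℝ) < c * (N : ℝ) ^ (-ε) * ∏ l, ((A' l).card : ℝ) := by
    rw [hA', mixSet_seq_one', ← hA', hprod]
    refine hmix.trans_le ?_
    apply mul_le_mul_of_nonneg_right _ (prod_nonneg fun _ _ => Nat.cast_nonneg _)
    exact mul_le_mul_of_nonneg_right (min_le_left _ _) (by (clear * - hN1; positivity))
  rcases H N A' (hAprop (fun s => s.Nonempty) hAne (singleton_nonempty _))
    (hAprop (fun s => (0 : ℤ) ∉ s) hA0 (by simp))
    (hAprop (fun s => s.card ≤ N) hAN (by rw [card_singleton]; exact hN1)) hmix' with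
    ⟨l, hl0, hlk, hl1, hl2⟩ | hG
  · set i : Fin k := ⟨l, hlk⟩ with hi
    have hil : l = i.castSucc := rfl
    refine ⟨i, hl0, ?_, ?_⟩
    · intro T e β hP
      have h1 := hl1 T e β (by rw [hil, hAcast]; exact hP)
      rw [hil, hA', W0b_seq] at h1
      exact h1
    · rw [hil, hA', W0b_seq] at hl2
      refine le_trans ?_ hl2
      exact mul_le_mul_of_nonneg_right (min_le_left _ _) hLL.le
  · exfalso
    have h1 := hG ((range (bd A')).filter Nat.Prime) (fun q hq => (mem_filter.1 hq).2) (by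
      have h2 : Wt (bd A') (fun q => if q ∈ (range (bd A')).filter Nat.Prime then 0
          else lamS κ A' (Fin.last k) q) = 0 := by
        unfold Wt
        apply sum_eq_zero
        intro q hq
        simp only [if_pos hq]
        rw [Nat.cast_zero, zero_mul]
      rw [h2]
      exact mul_pos hc hLL)
    rw [hAlast, image_singleton, card_singleton, card_singleton, Nat.cast_one, mul_one] at h1
    have h3 : (N : ℝ) ^ (-ζ) < 1 :=
      Real.rpow_lt_one_of_one_lt_of_neg (by exact_mod_cast (by omega : 1 < N)) (by linarith only [hζ])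
    linarith only [h1, h3]

end Pool.Agent.Helper34.TR
end

/- Helper24.TT.H99.FS.Pol -/
section
/-!
# Project FS (MP_120218_co), P4: sets without popular residue classes
-/

set_option autoImplicit false

open Finset Polynomial

namespace Pool.Agent.Helper99.FS

open Pool.Agent.Helper26.TR Pool.Agent.Helper88.NZ Pool.Agent.Helper99.TR
open Pool.Agent.Helper99.RT (rvals mem_rvals smm mem_smm hSum_large expandAdd hSum nrMix)
open Pool.Agent.Helper88.RT (W1a NRMix recSum)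
open Pool.Agent.Helper34.TR (nzMixT)

/-- no class modulo a prime power larger than `M` contains `κ |A|` elements of `A` -/
def NoPop (κ : ℝ) (M : ℕ) (A : Finset ℤ) : Prop :=
  ∀ (q t : ℕ) (r : ℤ), q.Prime → M < q ^ t →
    ((A.filter (fun a => (q : ℤ) ^ t ∣ a - r)).card : ℝ) < κ * A.card

theorem NoPop.mono {κ κ' : ℝ} (h : κ ≤ κ') {M : ℕ} {A : Finset ℤ} (hA : NoPop κ M A) :
    NoPop κ' M A := by
  intro q t r hq hM
  exact (hA q t r hq hM).trans_le (mul_le_mul_of_nonneg_right h (Nat.cast_nonneg _))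

/-- the popular divisors of the values of a primitive polynomial -/
theorem lev_bound {A : Finset ℤ} {d : ℕ} (hd : 1 ≤ d) (hA : 2 * d ≤ A.card) {κ : ℝ}
    (hκ0 : 0 < κ) (hκ1 : κ ≤ 1) {M : ℕ} (hM : 1 ≤ M) (hNP : NoPop (κ / (2 * (d : ℝ) ^ 2)) M A)
    {P : ℤ[X]} (hP : P.IsPrimitive) (hP1 : 1 ≤ P.natDegree) (hPd : P.natDegree ≤ d) {q : ℕ}
    (hq : q.Prime) :
    (lev κ (fz A P) q : ℝ) * Real.log q ≤ if q ≤ M then d * Real.log M else 0 := by
  classical
  have hAne : A.Nonempty := card_pos.1 (by omega)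
  have hA0 : (0 : ℝ) < A.card := by exact_mod_cast hAne.card_pos
  have hd0 : (0 : ℝ) < d := by exact_mod_cast hd
  set l := lev κ (fz A P) q with hl
  rcases Nat.eq_zero_or_pos l with h0 | hlpos
  · rw [h0, Nat.cast_zero, zero_mul]
    split_ifs
    · exact mul_nonneg hd0.le (Real.log_natCast_nonneg _)
    · exact le_rfl
  obtain ⟨t, ht0, ht1, ht2⟩ : ∃ t : ℕ, 1 ≤ t ∧ l ≤ d * t ∧ d * (t - 1) < l := by
    refine ⟨(l + (d - 1)) / d, ?_⟩
    have h1 := Nat.div_add_mod (l + (d - 1)) d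
    have h2 := Nat.mod_lt (l + (d - 1)) (by omega : d > 0)
    generalize (l + (d - 1)) / d = t at h1 ⊢
    generalize (l + (d - 1)) % d = u at h1 h2
    have ht0 : 1 ≤ t := by
      by_contra h
      have h0 : t = 0 := by omega
      rw [h0, Nat.mul_zero] at h1
      omega
    have h3 : d * (t - 1) = d * t - d := by rw [Nat.mul_sub, Nat.mul_one]
    have h4 : d ≤ d * t := Nat.le_mul_of_pos_right d ht0
    refine ⟨ht0, by omega, by omega⟩
  have hpts := pop_points hP1 hPd hA hκ0.le hκ1 (le_refl l)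
  set T : Finset ℤ := A.filter (fun a => (q : ℤ) ^ l ∣ P.eval a) with hT
  have hTne : T.Nonempty := by
    rw [nonempty_iff_ne_empty]
    intro h0
    rw [h0, card_empty, Nat.cast_zero, mul_zero] at hpts
    have : 0 < κ * A.card := by (clear * - hκ0 hAne; positivity)
    linarith only [hpts, this]
  obtain ⟨r, -, hrc⟩ := exists_class hP hPd hq (l := l) (t := t) ht2 hTne
    (fun a ha => (mem_filter.1 ha).2)
  have h1 : κ / (2 * (d : ℝ) ^ 2) * A.card ≤
      ((A.filter (fun a => (q : ℤ) ^ t ∣ a - r)).card : ℝ) := by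
    have h2 : (T.card : ℝ) ≤ d * ((T.filter (fun a => (q : ℤ) ^ t ∣ a - r)).card : ℝ) := by
      exact_mod_cast hrc
    have h3 : ((T.filter (fun a => (q : ℤ) ^ t ∣ a - r)).card : ℝ) ≤
        ((A.filter (fun a => (q : ℤ) ^ t ∣ a - r)).card : ℝ) := by
      exact_mod_cast card_le_card (filter_subset_filter _ (filter_subset _ _))
    rw [div_mul_eq_mul_div, div_le_iff₀ (by positivity)]
    calc κ * A.card ≤ 2 * d * T.card := hpts
      _ ≤ 2 * d * (d * ((A.filter (fun a => (q : ℤ) ^ t ∣ a - r)).card : ℝ)) := by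
          apply mul_le_mul_of_nonneg_left _ (by positivity)
          exact h2.trans (mul_le_mul_of_nonneg_left h3 hd0.le)
      _ = _ := by ring
  have hqt : q ^ t ≤ M := by
    by_contra h
    push Not at h
    exact absurd h1 (not_le.2 (hNP q t r hq h))
  have hqM : q ≤ M := by
    calc q = q ^ 1 := (pow_one q).symm
      _ ≤ q ^ t := Nat.pow_le_pow_right hq.pos ht0
      _ ≤ M := hqt
  rw [if_pos hqM]
  have hlogq : 0 ≤ Real.log q := Real.log_natCast_nonneg _
  have h2 : (t : ℝ) * Real.log q ≤ Real.log M := by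
    rw [← Real.log_pow]
    apply Real.log_le_log
    · have := hq.pos
      (clear * - this; positivity)
    · exact_mod_cast hqt
  calc (l : ℝ) * Real.log q ≤ ((d * t : ℕ) : ℝ) * Real.log q :=
        mul_le_mul_of_nonneg_right (by exact_mod_cast ht1) hlogq
    _ = d * (t * Real.log q) := by push_cast; ring
    _ ≤ d * Real.log M := mul_le_mul_of_nonneg_left h2 hd0.le

theorem W0_bound {A : Finset ℤ} {d : ℕ} (hd : 1 ≤ d) (hA : 2 * d ≤ A.card) {κ : ℝ}
    (hκ0 : 0 < κ) (hκ1 : κ ≤ 1) {M : ℕ} (hM : 1 ≤ M) (hNP : NoPop (κ / (2 * (d : ℝ) ^ 2)) M A)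
    {P : ℤ[X]} (hP : P.IsPrimitive) (hP1 : 1 ≤ P.natDegree) (hPd : P.natDegree ≤ d) :
    W0 κ (fz A P) ≤ (M + 1) * (d * Real.log M) := by
  classical
  have hdl : 0 ≤ (d : ℝ) * Real.log M := mul_nonneg (Nat.cast_nonneg _) (Real.log_natCast_nonneg _)
  have hprime : ∀ q ∈ prs (fz A P), q.Prime := by
    intro q hq
    unfold prs at hq
    rw [mem_biUnion] at hq
    obtain ⟨x, _, hx⟩ := hq
    exact Nat.prime_of_mem_primeFactors hx
  unfold W0
  calc ∑ q ∈ prs (fz A P), (lev κ (fz A P) q : ℝ) * Real.log q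
      ≤ ∑ q ∈ prs (fz A P), (if q ≤ M then d * Real.log M else 0) :=
        sum_le_sum fun q hq => lev_bound hd hA hκ0 hκ1 hM hNP hP hP1 hPd (hprime q hq)
    _ = (((prs (fz A P)).filter (fun q => q ≤ M)).card : ℝ) * (d * Real.log M) := by
        rw [← sum_filter, sum_const, nsmul_eq_mul]
    _ ≤ (M + 1) * (d * Real.log M) := by
        apply mul_le_mul_of_nonneg_right _ hdl
        have h1 : (prs (fz A P)).filter (fun q => q ≤ M) ⊆ range (M + 1) := by
          intro q hq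
          rw [mem_range]
          have := (mem_filter.1 hq).2
          omega
        have h2 := card_le_card h1
        rw [card_range] at h2
        exact_mod_cast h2

theorem exists_threshold (c V : ℝ) (hc : 0 < c) (n : ℕ) : ∃ n₀ : ℕ, n ≤ n₀ ∧
    ∀ N : ℕ, n₀ ≤ N → V < c * (Real.log N * Real.log (Real.log N)) := by
  have h1 : Filter.Tendsto (fun N : ℕ => Real.log (N : ℝ)) Filter.atTop Filter.atTop :=
    Real.tendsto_log_atTop.comp tendsto_natCast_atTop_atTop
  have h2 : Filter.Tendsto (fun N : ℕ => Real.log (Real.log (N : ℝ))) Filter.atTop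
      Filter.atTop := Real.tendsto_log_atTop.comp h1
  have h3 : Filter.Tendsto (fun N : ℕ => Real.log (N : ℝ) * Real.log (Real.log (N : ℝ)))
      Filter.atTop Filter.atTop := h1.atTop_mul_atTop₀ h2
  obtain ⟨n₁, hn₁⟩ := (Filter.tendsto_atTop.1 h3 (V / c + 1)).exists_forall_of_atTop
  refine ⟨max n n₁, le_max_left _ _, fun N hN => ?_⟩
  have h4 := hn₁ N ((le_max_right _ _).trans hN)
  have h5 : V / c < Real.log (N : ℝ) * Real.log (Real.log (N : ℝ)) := by (clear * - h4; linarith only [h4])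
  rw [div_lt_iff₀ hc] at h5
  linarith only [h5]

/-- the primitive part of a polynomial -/
theorem prim_facts {F : ℤ[X]} {d : ℕ} (hF1 : 1 ≤ F.natDegree) (hFd : F.natDegree ≤ d) :
    ∃ (P : ℤ[X]) (g : ℤ), g ≠ 0 ∧ P.IsPrimitive ∧ 1 ≤ P.natDegree ∧ P.natDegree ≤ d ∧
      ∀ a, F.eval a = g * P.eval a := by
  have hFne : F ≠ 0 := by
    intro h
    rw [h, natDegree_zero] at hF1
    omega
  refine ⟨F.primPart, F.content, ?_, F.isPrimitive_primPart, ?_, ?_, ?_⟩
  · rw [Ne, content_eq_zero_iff]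
    exact hFne
  · rw [natDegree_primPart]; exact hF1
  · rw [natDegree_primPart]; exact hFd
  · intro a
    conv_lhs => rw [F.eq_C_content_mul_primPart]
    rw [eval_mul, eval_C]

/-- **Products, sets without popular classes.** -/
theorem npProd (ε : ℝ) (d : ℕ) (hε : 0 < ε) (hd : 1 ≤ d) : ∃ κ : ℝ, 0 < κ ∧ κ ≤ 1 ∧
    ∀ M : ℕ, 1 ≤ M → ∃ (c : ℝ) (n₀ : ℕ), 0 < c ∧ ∀ A : Finset ℤ, n₀ ≤ A.card → NoPop κ M A →
      ∀ F : ℤ[X], 1 ≤ F.natDegree → F.natDegree ≤ d → ∀ B : Finset ℂ, B.Nonempty →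
        (0 : ℂ) ∉ B →
        c * ((A.card : ℝ) * (B.card : ℝ)) ^ (1 - ε) ≤ (((valProd F A B).erase 0).card : ℝ) := by
  classical
  have hdr : (1 : ℝ) ≤ d := by exact_mod_cast hd
  have hdr0 : (0 : ℝ) < d := by (clear * - hdr; linarith only [hdr])
  set k : ℕ := ⌈1 / ε⌉₊ with hk
  have hk1' : 1 / ε ≤ (k : ℝ) := Nat.le_ceil _
  have hk0' : 0 < k := by
    rw [hk, Nat.ceil_pos]
    (clear * - hε; positivity)
  have hk1 : (1 : ℝ) ≤ k := by exact_mod_cast hk0'
  have hk0 : (0 : ℝ) < k := by (clear * - hk1; linarith only [hk1])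
  have hkε : 1 / (k : ℝ) ≤ ε := by
    rw [div_le_iff₀ hk0]
    rw [div_le_iff₀ hε] at hk1'
    linarith only [hk1']
  clear_value k
  obtain ⟨κ, C, c₁, hκ, hC, hc₁, hnz⟩ := nzMixT k 1 one_pos 1 one_pos le_rfl
  obtain ⟨κ₀, hκ₀, hκ₀le⟩ : ∃ κ₀ : ℝ, 0 < κ₀ ∧ ∀ l, κ₀ ≤ κ l := by
    have : Nonempty (Fin k) := ⟨⟨0, hk0'⟩⟩
    obtain ⟨l₀, hl₀⟩ := Finite.exists_min κ
    exact ⟨κ l₀, (hκ l₀).1, hl₀⟩
  have hκ₀1 : κ₀ ≤ 1 := (hκ₀le ⟨0, hk0'⟩).trans (hκ _).2
  refine ⟨κ₀ / (2 * (d : ℝ) ^ 2), by positivity, ?_, ?_⟩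
  · rw [div_le_one (by positivity)]
    have : (1 : ℝ) ≤ (d : ℝ) ^ 2 := one_le_pow₀ hdr
    linarith only [hκ₀1, this]
  intro M hM
  obtain ⟨n₀, hn₀, hthr⟩ := exists_threshold c₁ (k * ((M + 1) * (d * Real.log M))) hc₁ (2 * d)
  refine ⟨(c₁ / (2 * d) ^ k / 2) ^ (1 / (k : ℝ)), n₀, by (clear * - hc₁ hd; positivity), ?_⟩
  intro A hA hNP F hF1 hFd B hB h0
  have hA2d : 2 * d ≤ A.card := hn₀.trans hA
  have hAne : A.Nonempty := card_pos.1 (by omega)
  have hN1 : (1 : ℝ) ≤ A.card := by exact_mod_cast card_pos.2 hAne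
  obtain ⟨P, g, hg0, hPp, hP1, hPd, hFP⟩ := prim_facts hF1 hFd
  have hdd0 : (0 : ℝ) < 2 * d := by linarith only [hdr0]
  have hVc : (A.card : ℝ) / (2 * d) ≤ ((fz A P).card : ℝ) := by
    have h1 := card_fz hP1 hPd hA2d
    have h2 : (A.card : ℝ) ≤ 2 * d * ((fz A P).card : ℝ) := by
      exact_mod_cast h1
    rw [div_le_iff₀ hdd0]
    (clear * - h2; linarith only [h2])
  have hVne : (fz A P).Nonempty := by
    rw [← card_pos]
    have h2 : 0 < (A.card : ℝ) / (2 * d) := div_pos (by (clear * - hN1; linarith only [hN1])) hdd0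
    have h3 : (0 : ℝ) < ((fz A P).card : ℝ) := by linarith only [hVc, h2]
    exact_mod_cast h3
  have hlarge : c₁ * ((A.card : ℕ) : ℝ) ^ (-(1 : ℝ)) * ∏ _l : Fin k, ((fz A P).card : ℝ) ≤
      ((mixSet (fun _ : Fin k => fz A P)).card : ℝ) := by
    by_contra hlt
    push Not at hlt
    obtain ⟨l, -, -, hl2⟩ := hnz A.card (fun _ : Fin k => fz A P) (fun _ => hVne)
      (fun _ => fz_zero A _) (fun _ => card_fz_le A _) hlt
    have h1 := W0b_const (κ l) (fz A P) l
    have h2 : NoPop (κ l / (2 * (d : ℝ) ^ 2)) M A := by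
      apply hNP.mono
      exact div_le_div_of_nonneg_right (hκ₀le l) (by positivity)
    have h3 := W0_bound hd hA2d (hκ l).1 (hκ l).2 hM h2 hPp hP1 hPd
    have h4 := hthr A.card hA
    have h5 : (k : ℝ) * W0 (κ l) (fz A P) ≤ k * ((M + 1) * (d * Real.log M)) :=
      mul_le_mul_of_nonneg_left h3 hk0.le
    linarith only [hl2, h1, h4, h5]
  have hS := hProd_large (by linarith only [hN1]) hdd0 hc₁ hg0 hFP hVc hlarge
  have hne : ∃ s ∈ cvals F A, s ≠ 0 := by
    obtain ⟨b, hb⟩ := hVne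
    have hb0 : b ≠ 0 := ne_of_mem_erase hb
    obtain ⟨a, ha, hab⟩ := mem_image.1 (mem_of_mem_erase hb)
    refine ⟨((F.eval a : ℤ) : ℂ), ?_, ?_⟩
    · unfold cvals
      exact mem_image_of_mem _ ha
    · rw [hFP a, hab]
      exact_mod_cast mul_ne_zero hg0 hb0
  have h1 := expand_erase k hk0' (cvals F A) hne (c₁ / (2 * d) ^ k) (A.card : ℝ) ε
    (div_pos hc₁ (pow_pos hdd0 k)) hN1 hkε hS B h0 hB
  rw [valProd_eq]
  exact h1

/-- **Sums of reciprocals, sets without popular classes.** -/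
theorem npSum (ε : ℝ) (d : ℕ) (hε : 0 < ε) (hd : 1 ≤ d) : ∃ κ : ℝ, 0 < κ ∧ κ ≤ 1 ∧
    ∀ M : ℕ, 1 ≤ M → ∃ (c : ℝ) (n₀ : ℕ), 0 < c ∧ ∀ A : Finset ℤ, n₀ ≤ A.card → NoPop κ M A →
      ∀ F : ℤ[X], 1 ≤ F.natDegree → F.natDegree ≤ d → ∀ B : Finset ℂ, B.Nonempty →
        c * ((A.card : ℝ) * (B.card : ℝ)) ^ (1 - ε) ≤ ((smm (rvals F A) B).card : ℝ) := by
  classical
  have hdr : (1 : ℝ) ≤ d := by exact_mod_cast hd
  have hdr0 : (0 : ℝ) < d := by (clear * - hdr; linarith only [hdr])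
  set k : ℕ := ⌈1 / ε⌉₊ with hk
  have hk1' : 1 / ε ≤ (k : ℝ) := Nat.le_ceil _
  have hk0' : 0 < k := by
    rw [hk, Nat.ceil_pos]
    (clear * - hε; positivity)
  have hk1 : (1 : ℝ) ≤ k := by exact_mod_cast hk0'
  have hk0 : (0 : ℝ) < k := by linarith only [hk1]
  have hkε : 1 / (k : ℝ) ≤ ε := by
    rw [div_le_iff₀ hk0]
    rw [div_le_iff₀ hε] at hk1'
    linarith only [hk1']
  clear_value k
  obtain ⟨κ, C, c₁, hκ, hC, hc₁, hnz⟩ := nrMix k 1 one_pos 1 one_pos le_rfl
  obtain ⟨κ₀, hκ₀, hκ₀le⟩ : ∃ κ₀ : ℝ, 0 < κ₀ ∧ ∀ l, κ₀ ≤ κ l := by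
    have : Nonempty (Fin k) := ⟨⟨0, hk0'⟩⟩
    obtain ⟨l₀, hl₀⟩ := Finite.exists_min κ
    exact ⟨κ l₀, (hκ l₀).1, hl₀⟩
  have hκ₀1 : κ₀ ≤ 1 := (hκ₀le ⟨0, hk0'⟩).trans (hκ _).2
  refine ⟨κ₀ / (2 * (d : ℝ) ^ 2), by (clear * - hκ₀ hd; positivity), ?_, ?_⟩
  · rw [div_le_one (by positivity)]
    have : (1 : ℝ) ≤ (d : ℝ) ^ 2 := one_le_pow₀ hdr
    linarith only [hκ₀1, this]
  intro M hM
  obtain ⟨n₀, hn₀, hthr⟩ := exists_threshold c₁ (k * ((M + 1) * (d * Real.log M))) hc₁ (2 * d)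
  refine ⟨(c₁ / (2 * d) ^ k) ^ (1 / (k : ℝ)), n₀, by (clear * - hc₁ hd; positivity), ?_⟩
  intro A hA hNP F hF1 hFd B hB
  have hA2d : 2 * d ≤ A.card := hn₀.trans hA
  have hAne : A.Nonempty := card_pos.1 (by omega)
  have hN1 : (1 : ℝ) ≤ A.card := by exact_mod_cast card_pos.2 hAne
  obtain ⟨P, g, hg0, hPp, hP1, hPd, hFP⟩ := prim_facts hF1 hFd
  have hdd0 : (0 : ℝ) < 2 * d := by linarith only [hdr0]
  have hVc : (A.card : ℝ) / (2 * d) ≤ ((fz A P).card : ℝ) := by
    have h1 := card_fz hP1 hPd hA2d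
    have h2 : (A.card : ℝ) ≤ 2 * d * ((fz A P).card : ℝ) := by
      exact_mod_cast h1
    rw [div_le_iff₀ hdd0]
    (clear * - h2; linarith only [h2])
  have hVne : (fz A P).Nonempty := by
    rw [← card_pos]
    have h2 : 0 < (A.card : ℝ) / (2 * d) := div_pos (by linarith only [hN1]) hdd0
    have h3 : (0 : ℝ) < ((fz A P).card : ℝ) := by linarith only [hVc, h2]
    exact_mod_cast h3
  have hlarge : c₁ * ((A.card : ℕ) : ℝ) ^ (-(1 : ℝ)) * ∏ _l : Fin k, ((fz A P).card : ℝ) ≤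
      ((recSum (fun _ : Fin k => fz A P)).card : ℝ) := by
    by_contra hlt
    push Not at hlt
    obtain ⟨l, -, -, hl2⟩ := hnz A.card (fun _ : Fin k => fz A P) (fun _ => hVne)
      (fun _ => fz_zero A _) (fun _ => card_fz_le A _) hlt
    have h1 := W0b_const (κ l) (fz A P) l
    have h2 : NoPop (κ l / (2 * (d : ℝ) ^ 2)) M A := by
      apply hNP.mono
      exact div_le_div_of_nonneg_right (hκ₀le l) (by positivity)
    have h3 := W0_bound hd hA2d (hκ l).1 (hκ l).2 hM h2 hPp hP1 hPd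
    have h4 := hthr A.card hA
    have h5 : (k : ℝ) * W0 (κ l) (fz A P) ≤ k * ((M + 1) * (d * Real.log M)) :=
      mul_le_mul_of_nonneg_left h3 hk0.le
    linarith only [hl2, h1, h4, h5]
  have hS := hSum_large (by linarith only [hN1]) hdd0 hc₁ hg0 hFP hVc hlarge
  exact expandAdd k hk0' (rvals F A) (c₁ / (2 * d) ^ k) (A.card : ℝ) ε
    (div_pos hc₁ (pow_pos hdd0 k)) hN1 hkε hS B hB

end Pool.Agent.Helper99.FS
end

/- Helper24.TT.H99.FS.Wt -/
section
/-!
# Project FS (MP_120218_co): sets whose popular residue classes have small weight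
-/

set_option autoImplicit false

open Finset Polynomial

namespace Pool.Agent.Helper99.FS

open Pool.Agent.Helper26.TR Pool.Agent.Helper88.NZ Pool.Agent.Helper99.TR
open Pool.Agent.Helper99.RT (rvals mem_rvals smm mem_smm hSum_large expandAdd hSum nrMix)
open Pool.Agent.Helper88.RT (W1a NRMix recSum)
open Pool.Agent.Helper34.TR (nzMixT)

/-- the popular residue classes modulo prime powers have weight at most `R` -/
def WtC (κ R : ℝ) (A : Finset ℤ) : Prop :=
  ∀ (S : Finset ℕ) (l : ℕ → ℕ) (r : ℕ → ℤ), (∀ p ∈ S, p.Prime) →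
    (∀ p ∈ S, κ * (A.card : ℝ) ≤ ((A.filter (fun a => (p : ℤ) ^ l p ∣ a - r p)).card : ℝ)) →
    ∑ p ∈ S, (l p : ℝ) * Real.log p ≤ R

theorem WtC.mono {κ κ' R R' : ℝ} (h : κ ≤ κ') (hR : R ≤ R') {A : Finset ℤ} (hA : WtC κ R A) :
    WtC κ' R' A := by
  intro S l r hS hpop
  refine (hA S l r hS fun p hp => le_trans ?_ (hpop p hp)).trans hR
  exact mul_le_mul_of_nonneg_right h (Nat.cast_nonneg _)

/-- a popular divisor of the values of a primitive polynomial gives a popular class -/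
theorem lev_class {A : Finset ℤ} {d : ℕ} (hd : 1 ≤ d) (hA : 2 * d ≤ A.card) {κ : ℝ}
    (hκ0 : 0 < κ) (hκ1 : κ ≤ 1) {P : ℤ[X]} (hP : P.IsPrimitive) (hP1 : 1 ≤ P.natDegree)
    (hPd : P.natDegree ≤ d) {q : ℕ} (hq : q.Prime) (hlpos : 0 < lev κ (fz A P) q) :
    ∃ (t : ℕ) (r : ℤ), lev κ (fz A P) q ≤ d * t ∧ κ / (2 * (d : ℝ) ^ 2) * A.card ≤
      ((A.filter (fun a => (q : ℤ) ^ t ∣ a - r)).card : ℝ) := by
  classical
  have hAne : A.Nonempty := card_pos.1 (by omega)
  have hA0 : (0 : ℝ) < A.card := by exact_mod_cast hAne.card_pos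
  have hd0 : (0 : ℝ) < d := by exact_mod_cast hd
  set l := lev κ (fz A P) q with hl
  obtain ⟨t, ht0, ht1, ht2⟩ : ∃ t : ℕ, 1 ≤ t ∧ l ≤ d * t ∧ d * (t - 1) < l := by
    refine ⟨(l + (d - 1)) / d, ?_⟩
    have h1 := Nat.div_add_mod (l + (d - 1)) d
    have h2 := Nat.mod_lt (l + (d - 1)) (by omega : d > 0)
    generalize (l + (d - 1)) / d = t at h1 ⊢
    generalize (l + (d - 1)) % d = u at h1 h2
    have ht0 : 1 ≤ t := by
      by_contra h
      have h0 : t = 0 := by omega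
      rw [h0, Nat.mul_zero] at h1
      omega
    have h3 : d * (t - 1) = d * t - d := by rw [Nat.mul_sub, Nat.mul_one]
    have h4 : d ≤ d * t := Nat.le_mul_of_pos_right d ht0
    refine ⟨ht0, by (clear * - hd h1 h2 h4; omega), by omega⟩
  have hpts := pop_points hP1 hPd hA hκ0.le hκ1 (le_refl l)
  set T : Finset ℤ := A.filter (fun a => (q : ℤ) ^ l ∣ P.eval a) with hT
  have hTne : T.Nonempty := by
    rw [nonempty_iff_ne_empty]
    intro h0
    rw [h0, card_empty, Nat.cast_zero, mul_zero] at hpts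
    have : 0 < κ * A.card := by (clear * - hκ0 hAne; positivity)
    linarith only [hpts, this]
  obtain ⟨r, -, hrc⟩ := exists_class hP hPd hq (l := l) (t := t) ht2 hTne
    (fun a ha => (mem_filter.1 ha).2)
  have h1 : κ / (2 * (d : ℝ) ^ 2) * A.card ≤
      ((A.filter (fun a => (q : ℤ) ^ t ∣ a - r)).card : ℝ) := by
    have h2 : (T.card : ℝ) ≤ d * ((T.filter (fun a => (q : ℤ) ^ t ∣ a - r)).card : ℝ) := by
      exact_mod_cast hrc
    have h3 : ((T.filter (fun a => (q : ℤ) ^ t ∣ a - r)).card : ℝ) ≤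
        ((A.filter (fun a => (q : ℤ) ^ t ∣ a - r)).card : ℝ) := by
      exact_mod_cast card_le_card (filter_subset_filter _ (filter_subset _ _))
    rw [div_mul_eq_mul_div, div_le_iff₀ (by positivity)]
    calc κ * A.card ≤ 2 * d * T.card := hpts
      _ ≤ 2 * d * (d * ((A.filter (fun a => (q : ℤ) ^ t ∣ a - r)).card : ℝ)) := by
          apply mul_le_mul_of_nonneg_left _ (by positivity)
          exact h2.trans (mul_le_mul_of_nonneg_left h3 hd0.le)
      _ = _ := by ring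
  exact ⟨t, r, ht1, h1⟩

theorem W0_le {A : Finset ℤ} {d : ℕ} (hd : 1 ≤ d) (hA : 2 * d ≤ A.card) {κ R : ℝ}
    (hκ0 : 0 < κ) (hκ1 : κ ≤ 1) (hW : WtC (κ / (2 * (d : ℝ) ^ 2)) R A)
    {P : ℤ[X]} (hP : P.IsPrimitive) (hP1 : 1 ≤ P.natDegree) (hPd : P.natDegree ≤ d) :
    W0 κ (fz A P) ≤ d * R := by
  classical
  have hprime : ∀ q ∈ prs (fz A P), q.Prime := by
    intro q hq
    unfold prs at hq
    rw [mem_biUnion] at hq
    obtain ⟨x, _, hx⟩ := hq
    exact Nat.prime_of_mem_primeFactors hx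
  have hex : ∀ q : ℕ, ∃ tr : ℕ × ℤ, q.Prime → 0 < lev κ (fz A P) q →
      lev κ (fz A P) q ≤ d * tr.1 ∧ κ / (2 * (d : ℝ) ^ 2) * A.card ≤
        ((A.filter (fun a => (q : ℤ) ^ tr.1 ∣ a - tr.2)).card : ℝ) := by
    intro q
    by_cases h : q.Prime ∧ 0 < lev κ (fz A P) q
    · obtain ⟨t, r, h1, h2⟩ := lev_class hd hA hκ0 hκ1 hP hP1 hPd h.1 h.2
      exact ⟨(t, r), fun _ _ => ⟨h1, h2⟩⟩
    · exact ⟨(0, 0), fun h1 h2 => absurd ⟨h1, h2⟩ h⟩
  choose tr htr using hex
  set S : Finset ℕ := (prs (fz A P)).filter (fun q => 0 < lev κ (fz A P) q) with hS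
  have h1 := hW S (fun q => (tr q).1) (fun q => (tr q).2)
    (fun q hq => hprime q (mem_filter.1 hq).1)
    (fun q hq => (htr q (hprime q (mem_filter.1 hq).1) (mem_filter.1 hq).2).2)
  have hd0 : (0 : ℝ) ≤ d := Nat.cast_nonneg _
  unfold W0
  calc ∑ q ∈ prs (fz A P), (lev κ (fz A P) q : ℝ) * Real.log q
      = ∑ q ∈ S, (lev κ (fz A P) q : ℝ) * Real.log q := by
        rw [hS, sum_filter]
        apply sum_congr rfl
        intro q _
        split_ifs with h
        · rfl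
        · have h0 : lev κ (fz A P) q = 0 := by omega
          rw [h0, Nat.cast_zero, zero_mul]
    _ ≤ ∑ q ∈ S, d * (((tr q).1 : ℝ) * Real.log q) := by
        apply sum_le_sum
        intro q hq
        have h2 := (htr q (hprime q (mem_filter.1 hq).1) (mem_filter.1 hq).2).1
        have h3 : (lev κ (fz A P) q : ℝ) ≤ d * ((tr q).1 : ℝ) := by exact_mod_cast h2
        calc (lev κ (fz A P) q : ℝ) * Real.log q ≤ (d * ((tr q).1 : ℝ)) * Real.log q :=
              mul_le_mul_of_nonneg_right h3 (Real.log_natCast_nonneg _)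
          _ = _ := by ring
    _ = d * ∑ q ∈ S, ((tr q).1 : ℝ) * Real.log q := by rw [mul_sum]
    _ ≤ d * R := mul_le_mul_of_nonneg_left h1 hd0

/-- **Products, sets whose popular classes have small weight.** -/
theorem wtProd (ε : ℝ) (d : ℕ) (hε : 0 < ε) (hd : 1 ≤ d) : ∃ (κ c : ℝ) (n₀ : ℕ),
    0 < κ ∧ κ ≤ 1 ∧ 0 < c ∧ ∀ A : Finset ℤ, n₀ ≤ A.card →
      WtC κ (c * (Real.log A.card * Real.log (Real.log A.card))) A →
      ∀ F : ℤ[X], 1 ≤ F.natDegree → F.natDegree ≤ d → ∀ B : Finset ℂ, B.Nonempty →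
        (0 : ℂ) ∉ B →
        c * ((A.card : ℝ) * (B.card : ℝ)) ^ (1 - ε) ≤ (((valProd F A B).erase 0).card : ℝ) := by
  classical
  have hdr : (1 : ℝ) ≤ d := by exact_mod_cast hd
  have hdr0 : (0 : ℝ) < d := by (clear * - hdr; linarith only [hdr])
  set k : ℕ := ⌈1 / ε⌉₊ with hk
  have hk1' : 1 / ε ≤ (k : ℝ) := Nat.le_ceil _
  have hk0' : 0 < k := by
    rw [hk, Nat.ceil_pos]
    (clear * - hε; positivity)
  have hk1 : (1 : ℝ) ≤ k := by exact_mod_cast hk0'
  have hk0 : (0 : ℝ) < k := by (clear * - hk1; linarith only [hk1])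
  have hkε : 1 / (k : ℝ) ≤ ε := by
    rw [div_le_iff₀ hk0]
    rw [div_le_iff₀ hε] at hk1'
    (clear * - hk1'; linarith only [hk1'])
  clear_value k
  obtain ⟨κ, C, c₁, hκ, hC, hc₁, hnz⟩ := nzMixT k 1 one_pos 1 one_pos le_rfl
  obtain ⟨κ₀, hκ₀, hκ₀le⟩ : ∃ κ₀ : ℝ, 0 < κ₀ ∧ ∀ l, κ₀ ≤ κ l := by
    have : Nonempty (Fin k) := ⟨⟨0, hk0'⟩⟩
    obtain ⟨l₀, hl₀⟩ := Finite.exists_min κ
    exact ⟨κ l₀, (hκ l₀).1, hl₀⟩
  have hκ₀1 : κ₀ ≤ 1 := (hκ₀le ⟨0, hk0'⟩).trans (hκ _).2
  have hkd0 : (0 : ℝ) < 2 * (k * d) := by (clear * - hk0' hd; positivity)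
  obtain ⟨n₀, hn₀, hthr⟩ := exists_threshold 1 0 one_pos (2 * d)
  set c₂ : ℝ := min (c₁ / (2 * (k * d))) ((c₁ / (2 * d) ^ k / 2) ^ (1 / (k : ℝ))) with hc₂def
  have hc₂ : 0 < c₂ := lt_min (by (clear * - hc₁ hk0' hd; positivity)) (by (clear * - hc₁ hd; positivity))
  refine ⟨κ₀ / (2 * (d : ℝ) ^ 2), c₂, n₀, by positivity, ?_, hc₂, ?_⟩
  · rw [div_le_one (by positivity)]
    have : (1 : ℝ) ≤ (d : ℝ) ^ 2 := one_le_pow₀ hdr
    linarith only [hκ₀1, this]
  intro A hA hW F hF1 hFd B hB h0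
  have hA2d : 2 * d ≤ A.card := hn₀.trans hA
  have hAne : A.Nonempty := card_pos.1 (by omega)
  have hN1 : (1 : ℝ) ≤ A.card := by exact_mod_cast card_pos.2 hAne
  obtain ⟨P, g, hg0, hPp, hP1, hPd, hFP⟩ := prim_facts hF1 hFd
  have hdd0 : (0 : ℝ) < 2 * d := by (clear * - hdr0; linarith only [hdr0])
  have hVc : (A.card : ℝ) / (2 * d) ≤ ((fz A P).card : ℝ) := by
    have h1 := card_fz hP1 hPd hA2d
    have h2 : (A.card : ℝ) ≤ 2 * d * ((fz A P).card : ℝ) := by
      exact_mod_cast h1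
    rw [div_le_iff₀ hdd0]
    linarith only [h2]
  have hVne : (fz A P).Nonempty := by
    rw [← card_pos]
    have h2 : 0 < (A.card : ℝ) / (2 * d) := div_pos (by linarith only [hN1]) hdd0
    have h3 : (0 : ℝ) < ((fz A P).card : ℝ) := by linarith only [hVc, h2]
    exact_mod_cast h3
  have hlarge : c₁ * ((A.card : ℕ) : ℝ) ^ (-(1 : ℝ)) * ∏ _l : Fin k, ((fz A P).card : ℝ) ≤
      ((mixSet (fun _ : Fin k => fz A P)).card : ℝ) := by
    by_contra hlt
    push Not at hlt
    obtain ⟨l, -, -, hl2⟩ := hnz A.card (fun _ : Fin k => fz A P) (fun _ => hVne)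
      (fun _ => fz_zero A _) (fun _ => card_fz_le A _) hlt
    have h1 := W0b_const (κ l) (fz A P) l
    have h2 : WtC (κ l / (2 * (d : ℝ) ^ 2))
        (c₂ * (Real.log A.card * Real.log (Real.log A.card))) A :=
      hW.mono (div_le_div_of_nonneg_right (hκ₀le l) (by positivity)) le_rfl
    have h3 := W0_le hd hA2d (hκ l).1 (hκ l).2 h2 hPp hP1 hPd
    have h4 := hthr A.card hA
    rw [one_mul] at h4
    have h5 : (k : ℝ) * W0 (κ l) (fz A P) ≤
        k * (d * (c₂ * (Real.log A.card * Real.log (Real.log A.card)))) :=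
      mul_le_mul_of_nonneg_left h3 hk0.le
    have h6 : c₂ * (2 * (k * d)) ≤ c₁ := by
      have h7 : c₂ ≤ c₁ / (2 * (k * d)) := min_le_left _ _
      rwa [le_div_iff₀ hkd0] at h7
    have h8 : k * (d * (c₂ * (Real.log A.card * Real.log (Real.log A.card)))) =
        (c₂ * (2 * (k * d))) * (Real.log A.card * Real.log (Real.log A.card)) / 2 := by ring
    have h9 : (c₂ * (2 * (k * d))) * (Real.log A.card * Real.log (Real.log A.card)) ≤
        c₁ * (Real.log A.card * Real.log (Real.log A.card)) :=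
      mul_le_mul_of_nonneg_right h6 h4.le
    have h10 : 0 < c₁ * (Real.log A.card * Real.log (Real.log A.card)) := mul_pos hc₁ h4
    linarith only [hl2, h1, h5, h9, h10]
  have hS := hProd_large (by linarith only [hN1]) hdd0 hc₁ hg0 hFP hVc hlarge
  have hne : ∃ s ∈ cvals F A, s ≠ 0 := by
    obtain ⟨b, hb⟩ := hVne
    have hb0 : b ≠ 0 := ne_of_mem_erase hb
    obtain ⟨a, ha, hab⟩ := mem_image.1 (mem_of_mem_erase hb)
    refine ⟨((F.eval a : ℤ) : ℂ), ?_, ?_⟩
    · unfold cvals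
      exact mem_image_of_mem _ ha
    · rw [hFP a, hab]
      exact_mod_cast mul_ne_zero hg0 hb0
  have h1 := expand_erase k hk0' (cvals F A) hne (c₁ / (2 * d) ^ k) (A.card : ℝ) ε
    (div_pos hc₁ (pow_pos hdd0 k)) hN1 hkε hS B h0 hB
  rw [valProd_eq]
  refine le_trans (mul_le_mul_of_nonneg_right (min_le_right _ _) (by (clear * - hAne hk hk1' hk0' hk1 hk0 hkε hκ hnz hκ₀le hkd0 hc₂def hc₂ hW hlarge hS h1 hB; positivity))) h1

/-- **Sums of reciprocals, sets whose popular classes have small weight.** -/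
theorem wtSum (ε : ℝ) (d : ℕ) (hε : 0 < ε) (hd : 1 ≤ d) : ∃ (κ c : ℝ) (n₀ : ℕ),
    0 < κ ∧ κ ≤ 1 ∧ 0 < c ∧ ∀ A : Finset ℤ, n₀ ≤ A.card →
      WtC κ (c * (Real.log A.card * Real.log (Real.log A.card))) A →
      ∀ F : ℤ[X], 1 ≤ F.natDegree → F.natDegree ≤ d → ∀ B : Finset ℂ, B.Nonempty →
        c * ((A.card : ℝ) * (B.card : ℝ)) ^ (1 - ε) ≤ ((smm (rvals F A) B).card : ℝ) := by
  classical
  have hdr : (1 : ℝ) ≤ d := by exact_mod_cast hd
  have hdr0 : (0 : ℝ) < d := by (clear * - hdr; linarith only [hdr])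
  set k : ℕ := ⌈1 / ε⌉₊ with hk
  have hk1' : 1 / ε ≤ (k : ℝ) := Nat.le_ceil _
  have hk0' : 0 < k := by
    rw [hk, Nat.ceil_pos]
    positivity
  have hk1 : (1 : ℝ) ≤ k := by exact_mod_cast hk0'
  have hk0 : (0 : ℝ) < k := by (clear * - hk1; linarith only [hk1])
  have hkε : 1 / (k : ℝ) ≤ ε := by
    rw [div_le_iff₀ hk0]
    rw [div_le_iff₀ hε] at hk1'
    linarith only [hk1']
  clear_value k
  obtain ⟨κ, C, c₁, hκ, hC, hc₁, hnz⟩ := nrMix k 1 one_pos 1 one_pos le_rfl
  obtain ⟨κ₀, hκ₀, hκ₀le⟩ : ∃ κ₀ : ℝ, 0 < κ₀ ∧ ∀ l, κ₀ ≤ κ l := by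
    have : Nonempty (Fin k) := ⟨⟨0, hk0'⟩⟩
    obtain ⟨l₀, hl₀⟩ := Finite.exists_min κ
    exact ⟨κ l₀, (hκ l₀).1, hl₀⟩
  have hκ₀1 : κ₀ ≤ 1 := (hκ₀le ⟨0, hk0'⟩).trans (hκ _).2
  have hkd0 : (0 : ℝ) < 2 * (k * d) := by positivity
  obtain ⟨n₀, hn₀, hthr⟩ := exists_threshold 1 0 one_pos (2 * d)
  set c₂ : ℝ := min (c₁ / (2 * (k * d))) ((c₁ / (2 * d) ^ k) ^ (1 / (k : ℝ))) with hc₂def
  have hc₂ : 0 < c₂ := lt_min (by positivity) (by (clear * - hc₁ hd; positivity))
  refine ⟨κ₀ / (2 * (d : ℝ) ^ 2), c₂, n₀, by positivity, ?_, hc₂, ?_⟩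
  · rw [div_le_one (by positivity)]
    have : (1 : ℝ) ≤ (d : ℝ) ^ 2 := one_le_pow₀ hdr
    linarith only [hκ₀1, this]
  intro A hA hW F hF1 hFd B hB
  have hA2d : 2 * d ≤ A.card := hn₀.trans hA
  have hAne : A.Nonempty := card_pos.1 (by omega)
  have hN1 : (1 : ℝ) ≤ A.card := by exact_mod_cast card_pos.2 hAne
  obtain ⟨P, g, hg0, hPp, hP1, hPd, hFP⟩ := prim_facts hF1 hFd
  have hdd0 : (0 : ℝ) < 2 * d := by linarith only [hdr0]
  have hVc : (A.card : ℝ) / (2 * d) ≤ ((fz A P).card : ℝ) := by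
    have h1 := card_fz hP1 hPd hA2d
    have h2 : (A.card : ℝ) ≤ 2 * d * ((fz A P).card : ℝ) := by
      exact_mod_cast h1
    rw [div_le_iff₀ hdd0]
    (clear * - h2; linarith only [h2])
  have hVne : (fz A P).Nonempty := by
    rw [← card_pos]
    have h2 : 0 < (A.card : ℝ) / (2 * d) := div_pos (by linarith only [hN1]) hdd0
    have h3 : (0 : ℝ) < ((fz A P).card : ℝ) := by linarith only [hVc, h2]
    exact_mod_cast h3
  have hlarge : c₁ * ((A.card : ℕ) : ℝ) ^ (-(1 : ℝ)) * ∏ _l : Fin k, ((fz A P).card : ℝ) ≤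
      ((recSum (fun _ : Fin k => fz A P)).card : ℝ) := by
    by_contra hlt
    push Not at hlt
    obtain ⟨l, -, -, hl2⟩ := hnz A.card (fun _ : Fin k => fz A P) (fun _ => hVne)
      (fun _ => fz_zero A _) (fun _ => card_fz_le A _) hlt
    have h1 := W0b_const (κ l) (fz A P) l
    have h2 : WtC (κ l / (2 * (d : ℝ) ^ 2))
        (c₂ * (Real.log A.card * Real.log (Real.log A.card))) A :=
      hW.mono (div_le_div_of_nonneg_right (hκ₀le l) (by positivity)) le_rfl
    have h3 := W0_le hd hA2d (hκ l).1 (hκ l).2 h2 hPp hP1 hPd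
    have h4 := hthr A.card hA
    rw [one_mul] at h4
    have h5 : (k : ℝ) * W0 (κ l) (fz A P) ≤
        k * (d * (c₂ * (Real.log A.card * Real.log (Real.log A.card)))) :=
      mul_le_mul_of_nonneg_left h3 hk0.le
    have h6 : c₂ * (2 * (k * d)) ≤ c₁ := by
      have h7 : c₂ ≤ c₁ / (2 * (k * d)) := min_le_left _ _
      rwa [le_div_iff₀ hkd0] at h7
    have h8 : k * (d * (c₂ * (Real.log A.card * Real.log (Real.log A.card)))) =
        (c₂ * (2 * (k * d))) * (Real.log A.card * Real.log (Real.log A.card)) / 2 := by ring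
    have h9 : (c₂ * (2 * (k * d))) * (Real.log A.card * Real.log (Real.log A.card)) ≤
        c₁ * (Real.log A.card * Real.log (Real.log A.card)) :=
      mul_le_mul_of_nonneg_right h6 h4.le
    have h10 : 0 < c₁ * (Real.log A.card * Real.log (Real.log A.card)) := mul_pos hc₁ h4
    linarith only [hl2, h1, h5, h9, h10]
  have hS := hSum_large (by linarith only [hN1]) hdd0 hc₁ hg0 hFP hVc hlarge
  refine le_trans (mul_le_mul_of_nonneg_right (min_le_right _ _) (by (clear * - hAne hk hk1' hk0' hk1 hk0 hkε hκ hnz hκ₀le hkd0 hc₂def hc₂ hW hlarge hS hB; positivity)))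
    (expandAdd k hk0' (rvals F A) (c₁ / (2 * d) ^ k) (A.card : ℝ) ε
      (div_pos hc₁ (pow_pos hdd0 k)) hN1 hkε hS B hB)

end Pool.Agent.Helper99.FS
end

/- Helper24.TT.H99.RT.Fold -/
section
/-!
# Projects TR and RT (MP_120218_co) together: products of polynomial values and sums of their
reciprocals, with one set of exceptional zeros
-/

set_option autoImplicit false

open Finset Polynomial

namespace Pool.Agent.Helper99.RT

open Pool.Agent.Helper26.TR Pool.Agent.Helper88.NZ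
open Pool.Agent.Helper99.TR (Adm adm_mono polyProd mem_polyProd TRZ exceptional_zeros)

/-- the sums `1/F₁(a₁) + ⋯ + 1/F_k(a_k) + b`, `a_i ∈ A`, `F_i(a_i) ≠ 0`, `b ∈ B` -/
noncomputable def polyRec {k : ℕ} (F : Fin k → ℤ[X]) (A : Finset ℤ) (B : Finset ℂ) :
    Finset ℂ := by
  classical
  exact ((Fintype.piFinset fun i : Fin k => A.filter (fun a => (F i).eval a ≠ 0)) ×ˢ B).image
    (fun p => (∑ i, (((F i).eval (p.1 i) : ℤ) : ℂ)⁻¹) + p.2)

theorem mem_polyRec {k : ℕ} (F : Fin k → ℤ[X]) (A : Finset ℤ) (B : Finset ℂ) (y : ℂ) :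
    y ∈ polyRec F A B ↔ ∃ a : Fin k → ℤ, (∀ i, a i ∈ A ∧ (F i).eval (a i) ≠ 0) ∧ ∃ b ∈ B,
      (∑ i, (((F i).eval (a i) : ℤ) : ℂ)⁻¹) + b = y := by
  classical
  unfold polyRec
  rw [mem_image]
  constructor
  · rintro ⟨⟨a, b⟩, hp, rfl⟩
    rw [mem_product, Fintype.mem_piFinset] at hp
    exact ⟨a, fun i => mem_filter.1 (hp.1 i), b, hp.2, rfl⟩
  · rintro ⟨a, ha, b, hb, rfl⟩
    refine ⟨(a, b), ?_, rfl⟩
    rw [mem_product, Fintype.mem_piFinset]
    exact ⟨fun i => mem_filter.2 (ha i), hb⟩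

theorem smm_sub {k : ℕ} (F : Fin (k + 1) → ℤ[X]) (A : Finset ℤ) (B : Finset ℂ) :
    smm (rvals (F 0) A) (polyRec (Fin.tail F) A B) ⊆ polyRec F A B := by
  classical
  intro y hy
  rw [mem_smm] at hy
  obtain ⟨s, hs, t, ht, rfl⟩ := hy
  obtain ⟨a, ha, hFa, rfl⟩ := (mem_rvals _ _ _).1 hs
  obtain ⟨a', ha', b, hb, rfl⟩ := (mem_polyRec _ _ _ _).1 ht
  rw [mem_polyRec]
  refine ⟨Fin.cons a a', ?_, b, hb, ?_⟩
  · intro i
    refine Fin.cases ?_ (fun j => ?_) i
    · exact ⟨ha, hFa⟩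
    · exact ha' j
  · rw [Fin.sum_univ_succ]
    simp only [Fin.cons_zero, Fin.cons_succ]
    rw [add_assoc]
    rfl

/-- iterating the expansion -/
theorem iterA {A : Finset ℤ} (hA : A.Nonempty) {c δ : ℝ} (hc : 0 < c) (hc1 : c ≤ 1)
    (hδ : 0 ≤ δ) (Q : ℤ[X] → Prop)
    (hQ : ∀ F : ℤ[X], Q F → ∀ B : Finset ℂ, B.Nonempty →
      c * ((A.card : ℝ) * (B.card : ℝ)) ^ (1 - δ) ≤ ((smm (rvals F A) B).card : ℝ))
    (hδ1 : δ ≤ 1) :
    ∀ (n : ℕ) (F : Fin n → ℤ[X]), (∀ i, Q (F i)) → ∀ B : Finset ℂ, B.Nonempty →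
      c ^ n * ((A.card : ℝ) ^ ((n : ℝ) - δ * (n : ℝ) ^ 2) * (B.card : ℝ) ^ (1 - (n : ℝ) * δ)) ≤
        ((polyRec F A B).card : ℝ) := by
  classical
  intro n
  induction n with
  | zero =>
    intro F _ B hB
    have h1 : B ⊆ polyRec F A B := by
      intro b hb
      rw [mem_polyRec]
      exact ⟨Fin.elim0, fun i => i.elim0, b, hb, by simp⟩
    have h2 : (B.card : ℝ) ≤ ((polyRec F A B).card : ℝ) := by
      exact_mod_cast card_le_card h1
    refine le_trans (le_of_eq ?_) h2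
    simp
  | succ n ih =>
    intro F hF B hB
    have hN1 : (1 : ℝ) ≤ A.card := by exact_mod_cast card_pos.2 hA
    have hB1 : (1 : ℝ) ≤ B.card := by exact_mod_cast card_pos.2 hB
    have hN0 : (0 : ℝ) < A.card := by linarith only [hN1]
    have hB0 : (0 : ℝ) < B.card := by (clear * - hB1; linarith only [hB1])
    set T : Finset ℂ := polyRec (Fin.tail F) A B with hT
    have h1 := ih (Fin.tail F) (fun i => hF i.succ) B hB
    rw [← hT] at h1
    have hTpos : (0 : ℝ) < T.card := by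
      refine lt_of_lt_of_le ?_ h1
      (clear * - hc hA hB; positivity)
    have hTne : T.Nonempty := by
      rw [← card_pos]
      exact_mod_cast hTpos
    have h2 := hQ (F 0) (hF 0) T hTne
    have h3 : ((smm (rvals (F 0) A) T).card : ℝ) ≤ ((polyRec F A B).card : ℝ) := by
      exact_mod_cast card_le_card (smm_sub F A B)
    refine le_trans ?_ (h2.trans h3)
    have h4 : (c ^ n * ((A.card : ℝ) ^ ((n : ℝ) - δ * (n : ℝ) ^ 2) *
        (B.card : ℝ) ^ (1 - (n : ℝ) * δ))) ^ (1 - δ) ≤ (T.card : ℝ) ^ (1 - δ) :=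
      Real.rpow_le_rpow (by (clear * - hc hA hB; positivity)) h1 (by linarith only [hδ1])
    rw [Real.mul_rpow hN0.le hTpos.le]
    have h5 : c ^ n ≤ (c ^ n) ^ (1 - δ) := by
      calc c ^ n = (c ^ n) ^ (1 : ℝ) := (Real.rpow_one _).symm
        _ ≤ (c ^ n) ^ (1 - δ) := Real.rpow_le_rpow_of_exponent_ge (by positivity)
            (pow_le_one₀ hc.le hc1) (by (clear * - hδ; linarith))
    have h6 : (c ^ n * ((A.card : ℝ) ^ ((n : ℝ) - δ * (n : ℝ) ^ 2) *
        (B.card : ℝ) ^ (1 - (n : ℝ) * δ))) ^ (1 - δ) =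
        (c ^ n) ^ (1 - δ) * ((A.card : ℝ) ^ (((n : ℝ) - δ * (n : ℝ) ^ 2) * (1 - δ)) *
        (B.card : ℝ) ^ ((1 - (n : ℝ) * δ) * (1 - δ))) := by
      rw [Real.mul_rpow (by positivity) (by (clear * - hA hB; positivity)),
        Real.mul_rpow (by (clear * - hA; positivity)) (by (clear * - hB; positivity)), ← Real.rpow_mul hN0.le,
        ← Real.rpow_mul hB0.le]
    rw [h6] at h4
    have hn0 : (0 : ℝ) ≤ n := Nat.cast_nonneg n
    calc c ^ (n + 1) * ((A.card : ℝ) ^ (((n + 1 : ℕ) : ℝ) - δ * ((n + 1 : ℕ) : ℝ) ^ 2) *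
          (B.card : ℝ) ^ (1 - ((n + 1 : ℕ) : ℝ) * δ))
        ≤ c * (c ^ n * (((A.card : ℝ) ^ (1 - δ) *
            (A.card : ℝ) ^ (((n : ℝ) - δ * (n : ℝ) ^ 2) * (1 - δ))) *
            (B.card : ℝ) ^ ((1 - (n : ℝ) * δ) * (1 - δ)))) := by
          rw [pow_succ, mul_comm (c ^ n) c, mul_assoc]
          apply mul_le_mul_of_nonneg_left _ hc.le
          apply mul_le_mul_of_nonneg_left _ (by positivity)
          apply mul_le_mul _ _ (by (clear * - hB; positivity)) (by (clear * - hA; positivity))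
          · rw [← Real.rpow_add hN0]
            apply Real.rpow_le_rpow_of_exponent_le hN1
            push_cast
            (clear * - hδ hn0; nlinarith only [mul_nonneg hδ hn0])
          · apply Real.rpow_le_rpow_of_exponent_le hB1
            push_cast
            linarith only [mul_nonneg (mul_nonneg hδ hδ) hn0]
      _ ≤ c * ((A.card : ℝ) ^ (1 - δ) * ((c ^ n) ^ (1 - δ) *
            ((A.card : ℝ) ^ (((n : ℝ) - δ * (n : ℝ) ^ 2) * (1 - δ)) *
            (B.card : ℝ) ^ ((1 - (n : ℝ) * δ) * (1 - δ))))) := by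
          apply mul_le_mul_of_nonneg_left _ hc.le
          have h7 : (A.card : ℝ) ^ (1 - δ) * ((c ^ n) ^ (1 - δ) *
              ((A.card : ℝ) ^ (((n : ℝ) - δ * (n : ℝ) ^ 2) * (1 - δ)) *
              (B.card : ℝ) ^ ((1 - (n : ℝ) * δ) * (1 - δ)))) =
              (c ^ n) ^ (1 - δ) * (((A.card : ℝ) ^ (1 - δ) *
              (A.card : ℝ) ^ (((n : ℝ) - δ * (n : ℝ) ^ 2) * (1 - δ))) *
              (B.card : ℝ) ^ ((1 - (n : ℝ) * δ) * (1 - δ))) := by ring
          rw [h7]
          exact mul_le_mul_of_nonneg_right h5 (by (clear * - hA hB; positivity))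
      _ ≤ c * ((A.card : ℝ) ^ (1 - δ) * (T.card : ℝ) ^ (1 - δ)) := by
          apply mul_le_mul_of_nonneg_left _ hc.le
          exact mul_le_mul_of_nonneg_left h4 (by (clear * - hA; positivity))

/-- the sums of reciprocals of values of several polynomials -/
theorem exceptional_poles (hT : RTZ) (k d : ℕ) (ε : ℝ) (hε : 0 < ε) :
    ∃ (m : ℕ) (c : ℝ), 0 < c ∧ ∀ A : Finset ℤ, A.Nonempty → ∃ Z : Finset ℂ, Z.card ≤ m ∧
      ∀ F : Fin k → ℤ[X],
        (∀ i, Adm d ((A.card : ℝ) ^ (c * Real.log (Real.log A.card))) (F i)) →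
        (∀ i, ∀ z ∈ Z, aeval z (F i) ≠ 0) →
        ∀ B : Finset ℂ, B.Nonempty →
          c * ((A.card : ℝ) ^ ((k : ℝ) - ε) * (B.card : ℝ) ^ (1 - ε)) ≤
            ((polyRec F A B).card : ℝ) := by
  set ε₁ : ℝ := min ε 1 with hε₁
  have hε₁0 : 0 < ε₁ := lt_min hε one_pos
  have hε₁1 : ε₁ ≤ 1 := min_le_right _ _
  have hε₁ε : ε₁ ≤ ε := min_le_left _ _
  set δ : ℝ := ε₁ / ((k : ℝ) + 1) ^ 2 with hδ
  have hk0 : (0 : ℝ) ≤ k := Nat.cast_nonneg k
  have hk1 : (1 : ℝ) ≤ ((k : ℝ) + 1) ^ 2 := by nlinarith only [hk0]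
  have hδ0 : 0 < δ := by (clear * - hε; positivity)
  have hδε : δ * ((k : ℝ) + 1) ^ 2 = ε₁ := by
    rw [hδ]
    field_simp
  have hδ1 : δ ≤ 1 := by
    have : δ * 1 ≤ δ * ((k : ℝ) + 1) ^ 2 := mul_le_mul_of_nonneg_left hk1 hδ0.le
    (clear * - hε₁1 hδε this; linarith only [hε₁1, hδε, this])
  obtain ⟨m, c₀, hc₀, hm⟩ := hT δ d hδ0
  set c₁ : ℝ := min c₀ 1 with hc₁
  have hc₁0 : 0 < c₁ := lt_min hc₀ one_pos
  have hc₁1 : c₁ ≤ 1 := min_le_right _ _
  have hc₁c₀ : c₁ ≤ c₀ := min_le_left _ _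
  have hck0 : 0 < c₁ ^ k := by (clear * - hc₀; positivity)
  have hcc : min c₁ (c₁ ^ k) ≤ c₀ := (min_le_left _ _).trans hc₁c₀
  have hcpos : 0 < min c₁ (c₁ ^ k) := lt_min hc₁0 hck0
  refine ⟨m, min c₁ (c₁ ^ k), hcpos, ?_⟩
  intro A hA
  obtain ⟨Z, hZ, hF⟩ := hm A hA
  refine ⟨Z, hZ, ?_⟩
  intro F hFa hFz B hB
  have hAc : 1 ≤ A.card := hA.card_pos
  have h1 := iterA hA hc₁0 hc₁1 hδ0.le
    (fun G => Adm d ((A.card : ℝ) ^ (c₀ * Real.log (Real.log A.card))) G ∧
      ∀ z ∈ Z, aeval z G ≠ 0)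
    (fun G hG B' hB' => by
      refine le_trans ?_ (hF G hG.1.1 hG.1.2.1 hG.1.2.2 hG.2 B' hB')
      exact mul_le_mul_of_nonneg_right hc₁c₀ (by (clear * - hA hB'; positivity))) hδ1 k F
    (fun i => ⟨adm_mono hAc hcpos hcc (hFa i), hFz i⟩) B hB
  refine le_trans ?_ h1
  have hN1 : (1 : ℝ) ≤ A.card := by exact_mod_cast hAc
  have hB1 : (1 : ℝ) ≤ B.card := by exact_mod_cast hB.card_pos
  apply mul_le_mul (min_le_right _ _) _ (by (clear * - hA hB; positivity)) hck0.le
  apply mul_le_mul _ _ (by (clear * - hB; positivity)) (by (clear * - hA; positivity))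
  · apply Real.rpow_le_rpow_of_exponent_le hN1
    have : δ * (k : ℝ) ^ 2 ≤ δ * ((k : ℝ) + 1) ^ 2 :=
      mul_le_mul_of_nonneg_left (by linarith only [hk0]) hδ0.le
    linarith only [hε₁ε, hδε, this]
  · apply Real.rpow_le_rpow_of_exponent_le hB1
    have : δ * (k : ℝ) ≤ δ * ((k : ℝ) + 1) ^ 2 :=
      mul_le_mul_of_nonneg_left (by (clear * -; nlinarith only [])) hδ0.le
    linarith only [hε₁ε, hδε, this]

/-- products and sums with one exceptional set -/
def Both (k d m : ℕ) (c ε : ℝ) : Prop :=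
  ∀ A : Finset ℤ, A.Nonempty → ∃ Z : Finset ℂ, Z.card ≤ m ∧
    ∀ F : Fin k → ℤ[X],
      (∀ i, Adm d ((A.card : ℝ) ^ (c * Real.log (Real.log A.card))) (F i)) →
      (∀ i, ∀ z ∈ Z, aeval z (F i) ≠ 0) →
      ∀ B : Finset ℂ, B.Nonempty →
        ((0 : ℂ) ∉ B → c * ((A.card : ℝ) ^ ((k : ℝ) - ε) * (B.card : ℝ) ^ (1 - ε)) ≤
          (((polyProd F A B).erase 0).card : ℝ)) ∧
        c * ((A.card : ℝ) ^ ((k : ℝ) - ε) * (B.card : ℝ) ^ (1 - ε)) ≤
          ((polyRec F A B).card : ℝ)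

theorem both (hP : TRZ) (hS : RTZ) (k d : ℕ) (ε : ℝ) (hε : 0 < ε) :
    ∃ (m : ℕ) (c₀ : ℝ), 0 < c₀ ∧ ∀ c : ℝ, 0 < c → c ≤ c₀ → Both k d m c ε := by
  classical
  obtain ⟨m₁, c₁, hc₁, h₁⟩ := exceptional_zeros hP k d ε hε
  obtain ⟨m₂, c₂, hc₂, h₂⟩ := exceptional_poles hS k d ε hε
  refine ⟨m₁ + m₂, min c₁ c₂, lt_min hc₁ hc₂, ?_⟩
  intro c hc hcc A hA
  have hcc₁ : c ≤ c₁ := hcc.trans (min_le_left _ _)
  have hcc₂ : c ≤ c₂ := hcc.trans (min_le_right _ _)
  obtain ⟨Z₁, hZ₁, hF₁⟩ := h₁ A hA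
  obtain ⟨Z₂, hZ₂, hF₂⟩ := h₂ A hA
  refine ⟨Z₁ ∪ Z₂, (card_union_le _ _).trans (by omega), ?_⟩
  intro F hF hFz B hB
  have hAc : 1 ≤ A.card := hA.card_pos
  constructor
  · intro h0
    refine le_trans ?_ (hF₁ F (fun i => adm_mono hAc hc hcc₁ (hF i))
      (fun i z hz => hFz i z (mem_union_left _ hz)) B hB h0)
    exact mul_le_mul_of_nonneg_right hcc₁ (by (clear * - hA hB; positivity))
  · refine le_trans ?_ (hF₂ F (fun i => adm_mono hAc hc hcc₂ (hF i))
      (fun i z hz => hFz i z (mem_union_right _ hz)) B hB)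
    exact mul_le_mul_of_nonneg_right hcc₂ (by (clear * - hA hB; positivity))

/-- the products of `k` elements -/
noncomputable def prodC (k : ℕ) (A : Finset ℂ) : Finset ℂ := by
  classical
  exact (Fintype.piFinset (fun _ : Fin k => A)).image (fun f : Fin k → ℂ => ∏ i, f i)

/-- the sums of `k` elements -/
noncomputable def sumC (k : ℕ) (A : Finset ℂ) : Finset ℂ := by
  classical
  exact (Fintype.piFinset (fun _ : Fin k => A)).image (fun f : Fin k → ℂ => ∑ i, f i)

theorem mem_prodC {k : ℕ} {A : Finset ℂ} {y : ℂ} :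
    y ∈ prodC k A ↔ ∃ f : Fin k → ℂ, (∀ i, f i ∈ A) ∧ ∏ i, f i = y := by
  classical
  unfold prodC
  simp [Fintype.mem_piFinset]

theorem mem_sumC {k : ℕ} {A : Finset ℂ} {y : ℂ} :
    y ∈ sumC k A ↔ ∃ f : Fin k → ℂ, (∀ i, f i ∈ A) ∧ ∑ i, f i = y := by
  classical
  unfold sumC
  simp [Fintype.mem_piFinset]

theorem mul_maps {k : ℕ} {G : ℤ[X]} {B : Finset ℤ} {A : Finset ℂ} {t : ℂ} (ht : t ≠ 0)
    (h : ∀ b ∈ B, t * ((G.eval b : ℤ) : ℂ) ∈ A) :
    ((polyProd (fun _ : Fin k => G) B {1}).erase 0).card ≤ (prodC k A).card := by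
  classical
  refine card_le_card_of_injOn (fun y : ℂ => t ^ k * y) ?_ ?_
  · intro y hy
    rw [mem_coe] at hy ⊢
    obtain ⟨a, ha, b, hb, rfl⟩ := (mem_polyProd _ _ _ _).1 (mem_of_mem_erase hy)
    rw [mem_singleton] at hb
    rw [mem_prodC]
    refine ⟨fun j => t * ((G.eval (a j) : ℤ) : ℂ), fun j => h _ (ha j), ?_⟩
    rw [prod_mul_distrib, prod_const, card_univ, Fintype.card_fin, hb, mul_one]
  · intro x _ y _ hxy
    exact mul_left_cancel₀ (pow_ne_zero k ht) hxy

theorem div_maps {k : ℕ} {G : ℤ[X]} {B : Finset ℤ} {A : Finset ℂ} {t : ℂ} (ht : t ≠ 0)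
    (h : ∀ b ∈ B, G.eval b ≠ 0 → t / ((G.eval b : ℤ) : ℂ) ∈ A) :
    ((polyProd (fun _ : Fin k => G) B {1}).erase 0).card ≤ (prodC k A).card := by
  classical
  refine card_le_card_of_injOn (fun y : ℂ => t ^ k * y⁻¹) ?_ ?_
  · intro y hy
    rw [mem_coe] at hy ⊢
    have hy0 := ne_of_mem_erase hy
    obtain ⟨a, ha, b, hb, rfl⟩ := (mem_polyProd _ _ _ _).1 (mem_of_mem_erase hy)
    rw [mem_singleton] at hb
    rw [hb, mul_one] at hy0 ⊢
    rw [mem_prodC]
    refine ⟨fun j => t / ((G.eval (a j) : ℤ) : ℂ), fun j => h _ (ha j) ?_, ?_⟩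
    · intro h0
      apply hy0
      apply prod_eq_zero (mem_univ j)
      rw [h0]
      simp
    · rw [prod_div_distrib, prod_const, card_univ, Fintype.card_fin, div_eq_mul_inv]
  · intro x _ y _ hxy
    exact inv_injective (mul_left_cancel₀ (pow_ne_zero k ht) hxy)

theorem rec_maps {k : ℕ} {G : ℤ[X]} {B : Finset ℤ} {A : Finset ℂ} {t : ℂ} (ht : t ≠ 0)
    (h : ∀ b ∈ B, G.eval b ≠ 0 → t / ((G.eval b : ℤ) : ℂ) ∈ A) :
    (polyRec (fun _ : Fin k => G) B {0}).card ≤ (sumC k A).card := by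
  classical
  refine card_le_card_of_injOn (fun y : ℂ => t * y) ?_ ?_
  · intro y hy
    rw [mem_coe] at hy ⊢
    obtain ⟨a, ha, b, hb, rfl⟩ := (mem_polyRec _ _ _ _).1 hy
    rw [mem_singleton] at hb
    rw [mem_sumC]
    refine ⟨fun j => t / ((G.eval (a j) : ℤ) : ℂ), fun j => h _ (ha j).1 (ha j).2, ?_⟩
    show ∑ j, t / ((G.eval (a j) : ℤ) : ℂ) = t * (∑ j, (((G.eval (a j) : ℤ) : ℂ))⁻¹ + b)
    rw [hb, add_zero, mul_sum]
    apply sum_congr rfl
    intro j _
    rw [div_eq_mul_inv]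
  · intro x _ y _ hxy
    exact mul_left_cancel₀ ht hxy

theorem size {k : ℕ} {ε a b : ℝ} (hk : 1 ≤ k) (hε : 0 < ε) (ha : 1 ≤ a) (hb : 1 ≤ b)
    (hab : a ≤ b ^ (1 + ε / (2 * k))) (hkε : 0 ≤ (k : ℝ) - ε) :
    a ^ ((k : ℝ) - ε) ≤ b ^ ((k : ℝ) - ε / 2) := by
  have hk1 : (1 : ℝ) ≤ k := by exact_mod_cast hk
  calc a ^ ((k : ℝ) - ε)
      ≤ (b ^ (1 + ε / (2 * k))) ^ ((k : ℝ) - ε) :=
        Real.rpow_le_rpow (by linarith only [ha]) hab hkε
    _ = b ^ ((1 + ε / (2 * k)) * ((k : ℝ) - ε)) := by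
        rw [← Real.rpow_mul (by linarith only [hb])]
    _ ≤ b ^ ((k : ℝ) - ε / 2) := by
        apply Real.rpow_le_rpow_of_exponent_le hb
        have h5 : ε / (2 * k) * ((k : ℝ) - ε) ≤ ε / 2 := by
          rw [div_mul_eq_mul_div, div_le_iff₀ (by (clear * - hε hkε; linarith))]
          (clear * - hε; nlinarith only [hε])
        linarith only [h5]

/-- sets which contain the images of a set `B` of comparable size under `m + 1` maps -/
theorem maps {k d m : ℕ} {ε c : ℝ} (hk : 1 ≤ k) (hε : 0 < ε) (hc : 0 < c) (hc1 : c ≤ 1)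
    (h : Both k d m c (ε / 2))
    (B : Finset ℤ) (A : Finset ℂ) (hB : B.Nonempty) (hA : A.Nonempty) (F : Fin (m + 1) → ℤ[X])
    (t : Fin (m + 1) → ℂ) (ht : ∀ i, t i ≠ 0)
    (hF : ∀ i, Adm d ((B.card : ℝ) ^ (c * Real.log (Real.log B.card))) (F i))
    (hFF : ∀ i j, i ≠ j → ∀ z : ℂ, ¬ (aeval z (F i) = 0 ∧ aeval z (F j) = 0))
    (hAB : (A.card : ℝ) ≤ (B.card : ℝ) ^ (1 + ε / (2 * k))) :
    ((∀ i, ∀ b ∈ B, t i * (((F i).eval b : ℤ) : ℂ) ∈ A) →
      c * (A.card : ℝ) ^ ((k : ℝ) - ε) ≤ ((prodC k A).card : ℝ)) ∧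
    ((∀ i, ∀ b ∈ B, (F i).eval b ≠ 0 → t i / (((F i).eval b : ℤ) : ℂ) ∈ A) →
      c * (A.card : ℝ) ^ ((k : ℝ) - ε) ≤ ((prodC k A).card : ℝ) ∧
      c * (A.card : ℝ) ^ ((k : ℝ) - ε) ≤ ((sumC k A).card : ℝ)) := by
  classical
  have hA1 : (1 : ℝ) ≤ A.card := by exact_mod_cast hA.card_pos
  have hB1 : (1 : ℝ) ≤ B.card := by exact_mod_cast hB.card_pos
  rcases lt_or_ge ((k : ℝ) - ε) 0 with hkε | hkε
  · have h1 : (A.card : ℝ) ^ ((k : ℝ) - ε) ≤ 1 :=
      Real.rpow_le_one_of_one_le_of_nonpos hA1 hkε.le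
    have h0 : c * (A.card : ℝ) ^ ((k : ℝ) - ε) ≤ 1 := by
      calc c * (A.card : ℝ) ^ ((k : ℝ) - ε) ≤ 1 * 1 :=
            mul_le_mul hc1 h1 (by (clear * - hA; positivity)) one_pos.le
        _ = 1 := one_mul _
    obtain ⟨a, ha⟩ := hA
    have h2 : (1 : ℝ) ≤ ((prodC k A).card : ℝ) := by
      have h3 : (prodC k A).Nonempty := ⟨_, mem_prodC.2 ⟨fun _ => a, fun _ => ha, rfl⟩⟩
      exact_mod_cast h3.card_pos
    have h3 : (1 : ℝ) ≤ ((sumC k A).card : ℝ) := by
      have h4 : (sumC k A).Nonempty := ⟨_, mem_sumC.2 ⟨fun _ => a, fun _ => ha, rfl⟩⟩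
      exact_mod_cast h4.card_pos
    exact ⟨fun _ => h0.trans h2, fun _ => ⟨h0.trans h2, h0.trans h3⟩⟩
  obtain ⟨Z, hZ, hZF⟩ := h B hB
  -- one of the polynomials has no zero in `Z`
  obtain ⟨i, hi⟩ : ∃ i, ∀ z ∈ Z, aeval z (F i) ≠ 0 := by
    by_contra hcon
    push Not at hcon
    choose z hz hz0 using hcon
    have hinj : Function.Injective z := by
      intro i j hij
      by_contra hne
      exact hFF i j hne (z i) ⟨hz0 i, by rw [hij]; exact hz0 j⟩
    have h1 : (univ.image z).card = m + 1 := by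
      rw [card_image_of_injective _ hinj, card_univ, Fintype.card_fin]
    have h2 : univ.image z ⊆ Z := by
      intro w hw
      obtain ⟨i, -, rfl⟩ := mem_image.1 hw
      exact hz i
    have h3 := card_le_card h2
    omega
  have hsz := mul_le_mul_of_nonneg_left (size hk hε hA1 hB1 hAB hkε) hc.le
  have h1 := (hZF (fun _ => F i) (fun _ => hF i) (fun _ => hi) {1} (singleton_nonempty _)).1
    (by simp)
  have h2 := (hZF (fun _ => F i) (fun _ => hF i) (fun _ => hi) {0} (singleton_nonempty _)).2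
  rw [card_singleton, Nat.cast_one, Real.one_rpow, mul_one] at h1 h2
  refine ⟨fun hm => ?_, fun hd => ⟨?_, ?_⟩⟩
  · refine hsz.trans (h1.trans ?_)
    exact_mod_cast mul_maps (ht i) (hm i)
  · refine hsz.trans (h1.trans ?_)
    exact_mod_cast div_maps (ht i) (hd i)
  · refine hsz.trans (h2.trans ?_)
    exact_mod_cast rec_maps (ht i) (hd i)

/-- everything together -/
theorem finalB (hP : TRZ) (hS : RTZ) (k d : ℕ) (hk : 1 ≤ k) (ε : ℝ) (hε : 0 < ε) :
    ∃ (m : ℕ) (c : ℝ), 0 < c ∧ Both k d m c ε ∧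
      ∀ (B : Finset ℤ) (A : Finset ℂ), B.Nonempty → A.Nonempty →
        (A.card : ℝ) ≤ (B.card : ℝ) ^ (1 + c) →
        ∀ (F : Fin (m + 1) → ℤ[X]) (t : Fin (m + 1) → ℂ), (∀ i, t i ≠ 0) →
        (∀ i, Adm d ((B.card : ℝ) ^ (c * Real.log (Real.log B.card))) (F i)) →
        (∀ i j, i ≠ j → ∀ z : ℂ, ¬ (aeval z (F i) = 0 ∧ aeval z (F j) = 0)) →
        ((∀ i, ∀ b ∈ B, t i * (((F i).eval b : ℤ) : ℂ) ∈ A) →
          c * (A.card : ℝ) ^ ((k : ℝ) - ε) ≤ ((prodC k A).card : ℝ)) ∧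
        ((∀ i, ∀ b ∈ B, (F i).eval b ≠ 0 → t i / (((F i).eval b : ℤ) : ℂ) ∈ A) →
          c * (A.card : ℝ) ^ ((k : ℝ) - ε) ≤ ((prodC k A).card : ℝ) ∧
          c * (A.card : ℝ) ^ ((k : ℝ) - ε) ≤ ((sumC k A).card : ℝ)) := by
  obtain ⟨m, c₀, hc₀, hm⟩ := both hP hS k d (ε / 2) (by (clear * - hε; positivity))
  have hk1 : (1 : ℝ) ≤ k := by exact_mod_cast hk
  set c : ℝ := min (min c₀ 1) (ε / (2 * k)) with hc
  have hek : 0 < ε / (2 * k) := by (clear * - hε hk; positivity)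
  have hc0 : 0 < c := lt_min (lt_min hc₀ one_pos) hek
  have hcc₀ : c ≤ c₀ := (min_le_left _ _).trans (min_le_left _ _)
  have hc1 : c ≤ 1 := (min_le_left _ _).trans (min_le_right _ _)
  have hce : c ≤ ε / (2 * k) := min_le_right _ _
  have key := hm c hc0 hcc₀
  refine ⟨m, c, hc0, ?_, ?_⟩
  · intro A hA
    obtain ⟨Z, hZ, h⟩ := key A hA
    refine ⟨Z, hZ, fun F hF hFz B hB => ?_⟩
    have hN1 : (1 : ℝ) ≤ A.card := by exact_mod_cast hA.card_pos
    have hB1 : (1 : ℝ) ≤ B.card := by exact_mod_cast hB.card_pos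
    have h1 := h F hF hFz B hB
    have h2 : c * ((A.card : ℝ) ^ ((k : ℝ) - ε) * (B.card : ℝ) ^ (1 - ε)) ≤
        c * ((A.card : ℝ) ^ ((k : ℝ) - ε / 2) * (B.card : ℝ) ^ (1 - ε / 2)) := by
      apply mul_le_mul_of_nonneg_left _ hc0.le
      apply mul_le_mul _ _ (by (clear * - hB; positivity)) (by (clear * - hA; positivity))
      · exact Real.rpow_le_rpow_of_exponent_le hN1 (by linarith only [hε])
      · exact Real.rpow_le_rpow_of_exponent_le hB1 (by (clear * - hε; linarith only [hε]))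
    exact ⟨fun h0 => h2.trans (h1.1 h0), h2.trans h1.2⟩
  · intro B A hB hA hAB F t ht hF hFF
    refine maps hk hε hc0 hc1 key B A hB hA F t ht hF hFF (hAB.trans ?_)
    have hB1 : (1 : ℝ) ≤ B.card := by exact_mod_cast hB.card_pos
    exact Real.rpow_le_rpow_of_exponent_le hB1 (by linarith only [hce])

end Pool.Agent.Helper99.RT
end

/- Helper24.TT.H99.FS.Defs2 -/
section
/-!
# Project FS (MP_120218_co): sets with few sums.  The two final statements.
-/

set_option autoImplicit false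

open Finset Polynomial

namespace Pool.Agent.Helper99.FS

open Pool.Agent.Helper99.TR (valProd polyProd)
open Pool.Agent.Helper99.RT (rvals smm polyRec)

/-- one polynomial: expansion for sets with few sums -/
def FSZ : Prop :=
  ∀ (ε : ℝ) (d : ℕ), 0 < ε → 1 ≤ d → ∃ c : ℝ, 0 < c ∧ ∀ A : Finset ℤ, A.Nonempty →
    ((image₂ (fun a b => a + b) A A).card : ℝ) ≤ (A.card : ℝ) ^ (1 + c) →
    ∀ F : ℤ[X], 1 ≤ F.natDegree → F.natDegree ≤ d → (∃ a ∈ A, F.eval a ≠ 0) →
    ∀ B : Finset ℂ, B.Nonempty →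
      ((0 : ℂ) ∉ B →
        c * ((A.card : ℝ) * (B.card : ℝ)) ^ (1 - ε) ≤ (((valProd F A B).erase 0).card : ℝ)) ∧
      c * ((A.card : ℝ) * (B.card : ℝ)) ^ (1 - ε) ≤ ((smm (rvals F A) B).card : ℝ)

/-- `k` polynomials -/
def FSK : Prop :=
  ∀ k d : ℕ, 1 ≤ k → ∀ ε : ℝ, 0 < ε → ∃ c : ℝ, 0 < c ∧ ∀ A : Finset ℤ, A.Nonempty →
    ((image₂ (fun a b => a + b) A A).card : ℝ) ≤ (A.card : ℝ) ^ (1 + c) →
    ∀ F : Fin k → ℤ[X],
      (∀ i, 1 ≤ (F i).natDegree ∧ (F i).natDegree ≤ d ∧ ∃ a ∈ A, (F i).eval a ≠ 0) →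
      ∀ B : Finset ℂ, B.Nonempty →
        ((0 : ℂ) ∉ B →
          c * ((A.card : ℝ) ^ ((k : ℝ) - ε) * (B.card : ℝ) ^ (1 - ε)) ≤
            (((polyProd F A B).erase 0).card : ℝ)) ∧
        c * ((A.card : ℝ) ^ ((k : ℝ) - ε) * (B.card : ℝ) ^ (1 - ε)) ≤
          ((polyRec F A B).card : ℝ)

end Pool.Agent.Helper99.FS
end
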