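import Pool.Agent.Helper24.TG.G09
import Pool.Agent.Helper24.TG.G12
import Pool.Agent.Helper24.TG.G13
import Pool.Agent.Helper24.TG.G14

/- Helper24.TT.H99.FS.Few -/
section
/-!
# Project FS (MP_120218_co), P5: expansion of polynomial values on sets with few sums
-/

set_option autoImplicit false

open Finset Polynomial

namespace Pool.Agent.Helper99.FS

open Pool.Agent.Helper99.TR (valProd)
open Pool.Agent.Helper99.RT (rvals mem_rvals smm mem_smm)

/-- the set `(A - r) / m` -/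
noncomputable def red (A : Finset ℤ) (r : ℤ) (m : ℕ) : Finset ℤ := A.image (fun a => (a - r) / m)

theorem red_spec {A : Finset ℤ} {r : ℤ} {m : ℕ} (hr : r ∈ A) (hm : 0 < m)
    (hA : ∀ a ∈ A, ∀ a' ∈ A, (m : ℤ) ∣ a - a') {x : ℤ} :
    x ∈ red A r m ↔ r + m * x ∈ A := by
  unfold red
  rw [mem_image]
  have hm' : (m : ℤ) ≠ 0 := by exact_mod_cast hm.ne'
  constructor
  · rintro ⟨a, ha, rfl⟩
    have h1 : (m : ℤ) * ((a - r) / m) = a - r := Int.mul_ediv_cancel' (hA a ha r hr)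
    rw [h1]
    have h2 : r + (a - r) = a := by ring
    rw [h2]
    exact ha
  · intro h
    refine ⟨_, h, ?_⟩
    have h2 : r + (m : ℤ) * x - r = m * x := by ring
    rw [h2]
    exact Int.mul_ediv_cancel_left x hm'

theorem red_card {A : Finset ℤ} {r : ℤ} {m : ℕ} (hr : r ∈ A) (hm : 0 < m)
    (hA : ∀ a ∈ A, ∀ a' ∈ A, (m : ℤ) ∣ a - a') : (red A r m).card = A.card := by
  unfold red
  apply card_image_of_injOn
  intro a ha a' ha' h
  have h1 : (m : ℤ) * ((a - r) / m) = a - r := Int.mul_ediv_cancel' (hA a ha r hr)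
  have h2 : (m : ℤ) * ((a' - r) / m) = a' - r := Int.mul_ediv_cancel' (hA a' ha' r hr)
  simp only at h
  rw [h, h2] at h1
  (clear * - h1; linarith only [h1])

/-- no popular classes after the reduction -/
theorem red_noPop {κ : ℝ} {M : ℕ} {τ : ℝ}
    (hZ : ∀ (A B : Finset ℤ) (m p l : ℕ) (r : ℤ), A.Nonempty → B.Nonempty → 0 < m → p.Prime →
      M < p ^ l → (∀ a ∈ A, ∀ a' ∈ A, (m : ℤ) ∣ a - a') → (∀ b ∈ B, ∀ b' ∈ B, (m : ℤ) ∣ b - b') →
      (∀ n : ℕ, 0 < n → m ∣ n → Star τ A B n) →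
      κ * (A.card : ℝ) ≤ ((A.filter (fun a => ((m * p ^ l : ℕ) : ℤ) ∣ a - r)).card : ℝ) →
      (∀ a ∈ A, ∀ a' ∈ A, ((m * p : ℕ) : ℤ) ∣ a - a') ∧
        (∀ b ∈ B, ∀ b' ∈ B, ((m * p : ℕ) : ℤ) ∣ b - b'))
    {A B : Finset ℤ} {m : ℕ} {r : ℤ} (hr : r ∈ A) (hB : B.Nonempty) (hm : 0 < m)
    (hA1 : ∀ a ∈ A, ∀ a' ∈ A, (m : ℤ) ∣ a - a') (hB1 : ∀ b ∈ B, ∀ b' ∈ B, (m : ℤ) ∣ b - b')
    (hS : ∀ n : ℕ, 0 < n → m ∣ n → Star τ A B n)
    (hp : ∀ p : ℕ, p.Prime → ¬ ((∀ a ∈ A, ∀ a' ∈ A, ((m * p : ℕ) : ℤ) ∣ a - a') ∧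
        (∀ b ∈ B, ∀ b' ∈ B, ((m * p : ℕ) : ℤ) ∣ b - b'))) :
    NoPop κ M (red A r m) := by
  intro q t r' hq hM
  by_contra hcon
  rw [not_lt] at hcon
  apply hp q hq
  refine hZ A B m q t (r + m * r') ⟨r, hr⟩ hB hm hq hM hA1 hB1 hS ?_
  rw [red_card hr hm hA1] at hcon
  refine hcon.trans ?_
  have hm' : (m : ℤ) ≠ 0 := by exact_mod_cast hm.ne'
  have h1 : ((red A r m).filter (fun a => (q : ℤ) ^ t ∣ a - r')).card ≤
      (A.filter (fun a => ((m * q ^ t : ℕ) : ℤ) ∣ a - (r + m * r'))).card := by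
    apply card_le_card_of_injOn (fun x => r + m * x)
    · intro x hx
      rw [mem_coe, mem_filter] at hx
      rw [mem_coe, mem_filter]
      refine ⟨(red_spec hr hm hA1).1 hx.1, ?_⟩
      obtain ⟨y, hy⟩ := hx.2
      refine ⟨y, ?_⟩
      push_cast
      linear_combination (m : ℤ) * hy
    · intro x _ y _ h
      simp only at h
      have h2 : (m : ℤ) * x = m * y := by (clear * - h; linarith only [h])
      exact mul_left_cancel₀ hm' h2
  exact_mod_cast h1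

theorem comp_facts {F : ℤ[X]} {m : ℕ} (hm : 0 < m) (r : ℤ) :
    (F.comp (C r + C (m : ℤ) * X)).natDegree = F.natDegree ∧
    ∀ x : ℤ, (F.comp (C r + C (m : ℤ) * X)).eval x = F.eval (r + m * x) := by
  have hm' : (m : ℤ) ≠ 0 := by exact_mod_cast hm.ne'
  constructor
  · rw [natDegree_comp]
    have h1 : (C r + C (m : ℤ) * X).natDegree = 1 := by
      rw [add_comm]
      exact natDegree_linear hm'
    rw [h1, mul_one]
  · intro x
    rw [eval_comp]
    congr 1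
    simp

theorem valProd_red {A₀ A : Finset ℤ} (hAA : A ⊆ A₀) {r : ℤ} {m : ℕ} (hr : r ∈ A) (hm : 0 < m)
    (hA : ∀ a ∈ A, ∀ a' ∈ A, (m : ℤ) ∣ a - a') (F : ℤ[X]) (B : Finset ℂ) :
    valProd (F.comp (C r + C (m : ℤ) * X)) (red A r m) B ⊆ valProd F A₀ B := by
  classical
  intro y hy
  unfold valProd at hy ⊢
  rw [mem_image₂] at hy ⊢
  obtain ⟨x, hx, b, hb, rfl⟩ := hy
  refine ⟨r + m * x, hAA ((red_spec hr hm hA).1 hx), b, hb, ?_⟩
  rw [(comp_facts hm r).2 x]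

theorem smm_red {A₀ A : Finset ℤ} (hAA : A ⊆ A₀) {r : ℤ} {m : ℕ} (hr : r ∈ A) (hm : 0 < m)
    (hA : ∀ a ∈ A, ∀ a' ∈ A, (m : ℤ) ∣ a - a') (F : ℤ[X]) (B : Finset ℂ) :
    smm (rvals (F.comp (C r + C (m : ℤ) * X)) (red A r m)) B ⊆ smm (rvals F A₀) B := by
  classical
  intro y hy
  rw [mem_smm] at hy ⊢
  obtain ⟨s, hs, b, hb, rfl⟩ := hy
  refine ⟨s, ?_, b, hb, rfl⟩
  rw [mem_rvals] at hs ⊢
  obtain ⟨x, hx, h0, rfl⟩ := hs
  rw [(comp_facts hm r).2 x] at h0 ⊢
  exact ⟨r + m * x, hAA ((red_spec hr hm hA).1 hx), h0, rfl⟩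

theorem rpow_chain {n a b c c₁ ε e : ℝ} (hc : 0 < c) (hcc : c ≤ c₁) (he0 : 0 < e) (he1 : e ≤ 1 / 2)
    (hε : 2 * e ≤ ε) (hn : 1 ≤ n) (hb : 1 ≤ b) (ha : n ^ (1 - e) ≤ a) :
    c * (n * b) ^ (1 - ε) ≤ c₁ * (a * b) ^ (1 - e) := by
  have hn0 : 0 < n := by linarith only [hn]
  have hb0 : 0 < b := by (clear * - hb; linarith only [hb])
  have ha0 : 0 ≤ a := le_trans (by (clear * - hn; positivity)) ha
  refine mul_le_mul hcc ?_ (by positivity) (by linarith only [hc, hcc])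
  rw [Real.mul_rpow hn0.le hb0.le, Real.mul_rpow ha0 hb0.le]
  apply mul_le_mul
  · calc n ^ (1 - ε) ≤ n ^ ((1 - e) * (1 - e)) :=
          Real.rpow_le_rpow_of_exponent_le hn (by (clear * - hε he0; nlinarith only [he0, hε]))
      _ = (n ^ (1 - e)) ^ (1 - e) := Real.rpow_mul hn0.le _ _
      _ ≤ a ^ (1 - e) := Real.rpow_le_rpow (by positivity) ha (by (clear * - he1; linarith only [he1]))
  · exact Real.rpow_le_rpow_of_exponent_le hb (by linarith only [he0, hε])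
  · positivity
  · positivity

theorem small_case {n b c ε T : ℝ} {N : ℕ} (hc0 : 0 < c) (hc : c * (N : ℝ) ≤ 1) (hε : 0 < ε)
    (hn : 1 ≤ n) (hnN : n ≤ N) (hb : 1 ≤ b) (hT : b ≤ T) :
    c * (n * b) ^ (1 - ε) ≤ T := by
  have hn0 : 0 < n := by (clear * - hn; linarith only [hn])
  have hb0 : 0 < b := by (clear * - hb; linarith only [hb])
  have h1 : 1 ≤ n * b := one_le_mul_of_one_le_of_one_le hn hb
  have h2 : (n * b) ^ (1 - ε) ≤ n * b := by
    calc (n * b) ^ (1 - ε) ≤ (n * b) ^ (1 : ℝ) :=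
          Real.rpow_le_rpow_of_exponent_le h1 (by (clear * - hε; linarith))
      _ = n * b := Real.rpow_one _
  calc c * (n * b) ^ (1 - ε) ≤ c * (N * b) :=
        mul_le_mul_of_nonneg_left (h2.trans (mul_le_mul_of_nonneg_right hnN hb0.le)) hc0.le
    _ = (c * N) * b := by ring
    _ ≤ 1 * b := mul_le_mul_of_nonneg_right hc hb0.le
    _ ≤ T := by rw [one_mul]; exact hT

/-- **Expansion of polynomial values on sets with few sums** -/
theorem fewZ (hz : AtomsZ) : FSZ := by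
  classical
  intro ε d hε hd
  set e : ℝ := min ε 1 / 2 with hedef
  have he0 : 0 < e := by
    rw [hedef]
    have : 0 < min ε 1 := lt_min hε one_pos
    (clear * - this; linarith only [this])
  have he1 : e ≤ 1 / 2 := by
    rw [hedef]
    have := min_le_right ε 1
    (clear * - this; linarith only [this])
  have heε : 2 * e ≤ ε := by
    rw [hedef]
    have := min_le_left ε 1
    linarith only [this]
  obtain ⟨κ₁, hκ₁0, hκ₁1, H1⟩ := npProd e d he0 hd
  obtain ⟨κ₂, hκ₂0, hκ₂1, H2⟩ := npSum e d he0 hd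
  have hκ0 : 0 < min κ₁ κ₂ := lt_min hκ₁0 hκ₂0
  have hκ1 : min κ₁ κ₂ ≤ 1 := (min_le_left _ _).trans hκ₁1
  obtain ⟨τ, M, hτ0, hτ1, hM, hZ⟩ := hz (min κ₁ κ₂) hκ0 hκ1
  obtain ⟨c₁, n₁, hc₁, H1⟩ := H1 M hM
  obtain ⟨c₂, n₂, hc₂, H2⟩ := H2 M hM
  obtain ⟨N, hN2, hN⟩ : ∃ N : ℕ, 2 ≤ N ∧ ∀ n : ℕ, N ≤ n →
      ((max n₁ n₂ : ℕ) : ℝ) ≤ (n : ℝ) ^ (1 - e) := by
    have h1 : Filter.Tendsto (fun n : ℕ => (n : ℝ) ^ (1 - e)) Filter.atTop Filter.atTop :=
      (tendsto_rpow_atTop (by linarith only [he1] : (0 : ℝ) < 1 - e)).comp tendsto_natCast_atTop_atTop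
    obtain ⟨N₁, hN₁⟩ := Filter.eventually_atTop.1
      (h1.eventually_ge_atTop ((max n₁ n₂ : ℕ) : ℝ))
    exact ⟨max N₁ 2, le_max_right _ _, fun n hn => hN₁ n ((le_max_left _ _).trans hn)⟩
  have hN0 : (0 : ℝ) < N := by
    have : 0 < N := by omega
    exact_mod_cast this
  set β : ℝ := 1 / τ with hβdef
  have hβ0 : 0 < β := by rw [hβdef]; positivity
  have hτβ : 1 / β = τ := by rw [hβdef]; field_simp
  set δ : ℝ := e * τ / 2 with hδdef
  have hδ0 : 0 < δ := by rw [hδdef]; (clear * - hε hτ0; positivity)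
  have hβδ : β * δ = e / 2 := by rw [hβdef, hδdef]; (clear * - hτ0 he0; field_simp)
  set c : ℝ := min (min δ (1 / N)) (min c₁ c₂) with hcdef
  have hc0 : 0 < c := lt_min (lt_min hδ0 (by positivity)) (lt_min hc₁ hc₂)
  have hcδ : c ≤ δ := (min_le_left _ _).trans (min_le_left _ _)
  have hcN : c * (N : ℝ) ≤ 1 := by
    have h1 : c ≤ 1 / N := (min_le_left _ _).trans (min_le_right _ _)
    rw [le_div_iff₀ hN0] at h1
    exact h1
  have hcc₁ : c ≤ c₁ := (min_le_right _ _).trans (min_le_left _ _)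
  have hcc₂ : c ≤ c₂ := (min_le_right _ _).trans (min_le_right _ _)
  refine ⟨c, hc0, fun A hA hAA F hF1 hFd hFA B hB => ?_⟩
  have hAc1 : (1 : ℝ) ≤ A.card := by exact_mod_cast hA.card_pos
  have hBc1 : (1 : ℝ) ≤ B.card := by exact_mod_cast hB.card_pos
  rcases lt_or_ge A.card N with hlt | hge
  · -- small sets
    obtain ⟨a₀, ha₀, hFa₀⟩ := hFA
    have hF0 : (((F.eval a₀ : ℤ) : ℂ)) ≠ 0 := by exact_mod_cast hFa₀
    have hAN : (A.card : ℝ) ≤ N := by exact_mod_cast hlt.le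
    constructor
    · intro h0
      refine small_case hc0 hcN hε hAc1 hAN hBc1 ?_
      have h1 : B.card ≤ ((valProd F A B).erase 0).card := by
        apply card_le_card_of_injOn (fun b => ((F.eval a₀ : ℤ) : ℂ) * b)
        · intro b hb
          rw [mem_coe] at hb
          rw [mem_coe, mem_erase]
          refine ⟨mul_ne_zero hF0 (fun h => h0 (h ▸ hb)), ?_⟩
          unfold valProd
          rw [mem_image₂]
          exact ⟨a₀, ha₀, b, hb, rfl⟩
        · intro x _ y _ h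
          exact mul_left_cancel₀ hF0 h
      exact_mod_cast h1
    · refine small_case hc0 hcN hε hAc1 hAN hBc1 ?_
      have h1 : B.card ≤ (smm (rvals F A) B).card := by
        apply card_le_card_of_injOn (fun b => (((F.eval a₀ : ℤ) : ℂ))⁻¹ + b)
        · intro b hb
          rw [mem_coe] at hb
          rw [mem_coe, mem_smm]
          exact ⟨_, (mem_rvals _ _ _).2 ⟨a₀, ha₀, hFa₀, rfl⟩, b, hb, rfl⟩
        · intro x _ y _ h
          exact add_left_cancel h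
      exact_mod_cast h1
  · -- large sets
    have hA2 : (2 : ℝ) ≤ A.card := by exact_mod_cast hN2.trans hge
    set L : ℝ := Real.log A.card with hLdef
    have hL0 : 0 < L := Real.log_pos (by linarith only [hA2])
    have hS : Real.log ((image₂ (fun a b => a + b) A A).card) ≤ (1 + δ) * L := by
      have hne : (image₂ (fun a b => a + b) A A).Nonempty := hA.image₂ hA
      have hpos : (0 : ℝ) < (image₂ (fun a b => a + b) A A).card := by
        exact_mod_cast hne.card_pos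
      calc Real.log ((image₂ (fun a b => a + b) A A).card)
          ≤ Real.log ((A.card : ℝ) ^ (1 + c)) := Real.log_le_log hpos hAA
        _ = (1 + c) * L := by rw [Real.log_rpow (by linarith only [hA2])]
        _ ≤ (1 + δ) * L := mul_le_mul_of_nonneg_right (by linarith only [hcδ]) hL0.le
    have hneg : FF β A A < 0 := by
      unfold FF
      have h1 : HS A A ≤ (1 + δ) * L := (HS_le hA hA).trans hS
      have h2 : β * HS A A ≤ β * ((1 + δ) * L) := mul_le_mul_of_nonneg_left h1 hβ0.le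
      have h3 : β * ((1 + δ) * L) = (β + e / 2) * L := by rw [← hβδ]; ring
      rw [← hLdef]
      have h4 : e / 2 * L < L := by (clear * - hL0 he1; nlinarith only [he1, hL0])
      linarith only [h2, h3, h4]
    obtain ⟨A₁, B₁, m, hAA₁, hBA₁, hA₁, hB₁, hm, hFF, hmA, hmB, hStar, hmax⟩ :=
      exists_extremal hβ0 hA hneg
    rw [hτβ] at hStar
    have hcard := extremal_card hβ0 hA hA₁ hB₁ hBA₁ hFF hLdef.symm hS
    have hcard2 : (A.card : ℝ) ^ (1 - e) ≤ A₁.card := by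
      have h1 : (1 - 2 * (β * δ)) * L = (1 - e) * L := by rw [hβδ]; ring
      rw [h1] at hcard
      have hA₁0 : (0 : ℝ) < A₁.card := by exact_mod_cast hA₁.card_pos
      rw [← Real.log_le_log_iff (by (clear * - hA; positivity)) hA₁0, Real.log_rpow (by linarith only [hA2])]
      exact hcard
    obtain ⟨r, hr⟩ := id hA₁
    have hNP := red_noPop hZ hr hB₁ hm hmA hmB hStar hmax
    have hn : max n₁ n₂ ≤ (red A₁ r m).card := by
      rw [red_card hr hm hmA]
      have h1 := (hN A.card hge).trans hcard2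
      exact_mod_cast h1
    have hdeg := (comp_facts (F := F) hm r).1
    set G : ℤ[X] := F.comp (C r + C (m : ℤ) * X) with hG
    constructor
    · intro h0
      have h1 := H1 (red A₁ r m) ((le_max_left _ _).trans hn) (hNP.mono (min_le_left _ _)) G
        (by rw [hdeg]; exact hF1) (by rw [hdeg]; exact hFd) B hB h0
      rw [red_card hr hm hmA] at h1
      refine (rpow_chain hc0 hcc₁ he0 he1 heε hAc1 hBc1 hcard2).trans (h1.trans ?_)
      exact_mod_cast card_le_card (erase_subset_erase _ (valProd_red hAA₁ hr hm hmA F B))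
    · have h1 := H2 (red A₁ r m) ((le_max_right _ _).trans hn) (hNP.mono (min_le_right _ _)) G
        (by rw [hdeg]; exact hF1) (by rw [hdeg]; exact hFd) B hB
      rw [red_card hr hm hmA] at h1
      refine (rpow_chain hc0 hcc₂ he0 he1 heε hAc1 hBc1 hcard2).trans (h1.trans ?_)
      exact_mod_cast card_le_card (smm_red hAA₁ hr hm hmA F B)

end Pool.Agent.Helper99.FS
end

/- Helper24.TT.H99.FS.Grp -/
section
/-!
# Project FS (MP_120218_co): sets with many disjoint groups of small diameter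
-/

set_option autoImplicit false

open Finset Polynomial

namespace Pool.Agent.Helper99.FS

open Pool.Agent.Helper99.TR (valProd)
open Pool.Agent.Helper99.RT (rvals mem_rvals smm mem_smm)

/-- the prime powers which divide a non-zero number -/
theorem dvd_weight {S : Finset ℕ} (hS : ∀ p ∈ S, p.Prime) (l : ℕ → ℕ) {z : ℤ} (hz : z ≠ 0)
    (hdvd : ∀ p ∈ S, (p : ℤ) ^ l p ∣ z) : ∑ p ∈ S, (l p : ℝ) * Real.log p ≤ Real.log |(z : ℝ)| := by
  classical
  have h1 : (∏ p ∈ S, (p : ℤ) ^ l p) ∣ z := by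
    apply Finset.prod_dvd_of_coprime
    · intro p hp q hq hpq
      apply IsCoprime.pow
      rw [Nat.isCoprime_iff_coprime]
      exact (Nat.coprime_primes (hS p hp) (hS q hq)).2 hpq
    · exact hdvd
  have h2 : (∏ p ∈ S, (p : ℤ) ^ l p) ≤ |z| := Int.le_of_dvd (abs_pos.2 hz) ((dvd_abs _ _).2 h1)
  have hpos : ∀ p ∈ S, (0 : ℝ) < (p : ℝ) ^ l p := fun p hp => by
    have := (hS p hp).pos
    (clear * - this; positivity)
  have h3 : ∑ p ∈ S, (l p : ℝ) * Real.log p = Real.log (∏ p ∈ S, (p : ℝ) ^ l p) := by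
    rw [Real.log_prod (fun p hp => (hpos p hp).ne')]
    apply sum_congr rfl
    intro p _
    rw [Real.log_pow]
  rw [h3]
  apply Real.log_le_log (prod_pos hpos)
  have h4 : ((∏ p ∈ S, (p : ℤ) ^ l p : ℤ) : ℝ) ≤ ((|z| : ℤ) : ℝ) := by exact_mod_cast h2
  push_cast at h4
  exact h4

/-- the size of a disjoint union of groups -/
theorem card_union {M : ℕ} {𝒢 : Finset (Finset ℤ)} (hcard : ∀ G ∈ 𝒢, G.card = M)
    (hdisj : ∀ G ∈ 𝒢, ∀ G' ∈ 𝒢, G ≠ G' → Disjoint G G') :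
    ((𝒢.biUnion id).card : ℝ) = M * 𝒢.card := by
  have h0 : (𝒢.biUnion id).card = ∑ u ∈ 𝒢, (id u).card := by
    apply card_biUnion
    intro G hG G' hG' h
    exact hdisj G hG G' hG' h
  have h1 : ∑ u ∈ 𝒢, (id u).card = ∑ u ∈ 𝒢, M := sum_congr rfl fun G hG => hcard G hG
  rw [h0, h1, sum_const, smul_eq_mul]
  push_cast
  ring

/-- groups of small diameter: the popular classes have small weight -/
theorem wtC_groups {κ H : ℝ} {M : ℕ} (hκ : 0 < κ) (hM : 2 / κ ≤ M) (hH : 1 ≤ H)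
    {𝒢 : Finset (Finset ℤ)} (hne : 𝒢.Nonempty) (hcard : ∀ G ∈ 𝒢, G.card = M)
    (hdiam : ∀ G ∈ 𝒢, ∀ a ∈ G, ∀ b ∈ G, |((a - b : ℤ) : ℝ)| ≤ H)
    (hdisj : ∀ G ∈ 𝒢, ∀ G' ∈ 𝒢, G ≠ G' → Disjoint G G') :
    WtC κ (2 * (M : ℝ) ^ 2 * Real.log H / κ) (𝒢.biUnion id) := by
  classical
  have hM0 : (0 : ℝ) < M := lt_of_lt_of_le (by positivity) hM
  have hg0 : (0 : ℝ) < 𝒢.card := by exact_mod_cast hne.card_pos
  have hlogH : 0 ≤ Real.log H := Real.log_nonneg hH
  intro S l r hS hpop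
  set cl : ℕ → ℤ → Prop := fun p a => (p : ℤ) ^ l p ∣ a - r p with hcl
  set big : Finset ℤ → ℕ → Prop := fun G p => 2 ≤ (G.filter (cl p)).card with hbig
  have hw : ∀ p, 0 ≤ (l p : ℝ) * Real.log p := fun p =>
    mul_nonneg (Nat.cast_nonneg _) (Real.log_natCast_nonneg _)
  -- the size of the union
  have hunion : ((𝒢.biUnion id).card : ℝ) = M * 𝒢.card := card_union hcard hdisj
  -- many groups contain two elements of the popular class
  have h1 : ∀ p ∈ S, κ / 2 * 𝒢.card ≤ ((𝒢.filter (fun G => big G p)).card : ℝ) := by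
    intro p hp
    have h2 := hpop p hp
    have h3 : (((𝒢.biUnion id).filter (cl p)).card : ℝ) ≤
        ∑ G ∈ 𝒢, ((G.filter (cl p)).card : ℝ) := by
      have h4 : (𝒢.biUnion id).filter (cl p) ⊆ 𝒢.biUnion (fun G => G.filter (cl p)) := by
        intro a ha
        rw [mem_filter, mem_biUnion] at ha
        obtain ⟨⟨G, hG, haG⟩, hc⟩ := ha
        rw [mem_biUnion]
        exact ⟨G, hG, mem_filter.2 ⟨haG, hc⟩⟩
      exact_mod_cast (card_le_card h4).trans card_biUnion_le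
    have h5 : ∀ G ∈ 𝒢, ((G.filter (cl p)).card : ℝ) ≤ 1 + if big G p then (M : ℝ) else 0 := by
      intro G hG
      split_ifs with h
      · have h6 : (G.filter (cl p)).card ≤ M := (card_filter_le _ _).trans (hcard G hG).le
        have h7 : ((G.filter (cl p)).card : ℝ) ≤ M := by exact_mod_cast h6
        linarith only [h7]
      · have h6 : (G.filter (cl p)).card ≤ 1 := by
          have h8 : ¬ 2 ≤ (G.filter (cl p)).card := h
          omega
        have h7 : ((G.filter (cl p)).card : ℝ) ≤ 1 := by exact_mod_cast h6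
        linarith only [h7]
    have h6 : ∑ G ∈ 𝒢, ((G.filter (cl p)).card : ℝ) ≤
        𝒢.card + M * ((𝒢.filter (fun G => big G p)).card : ℝ) := by
      calc ∑ G ∈ 𝒢, ((G.filter (cl p)).card : ℝ)
          ≤ ∑ G ∈ 𝒢, (1 + if big G p then (M : ℝ) else 0) := sum_le_sum h5
        _ = _ := by
          rw [sum_add_distrib, sum_const, nsmul_eq_mul, mul_one, ← sum_filter, sum_const,
            nsmul_eq_mul]
          ring
    have h7 : κ * (M * 𝒢.card) ≤
        𝒢.card + M * ((𝒢.filter (fun G => big G p)).card : ℝ) := by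
      rw [← hunion]
      exact h2.trans (h3.trans h6)
    have h8 : 1 ≤ κ / 2 * M := by
      rw [div_le_iff₀ hκ] at hM
      (clear * - hM; linarith only [hM])
    have h9 : (𝒢.card : ℝ) ≤ κ / 2 * M * 𝒢.card := le_mul_of_one_le_left hg0.le h8
    have h10 : M * (κ / 2 * 𝒢.card) ≤ M * ((𝒢.filter (fun G => big G p)).card : ℝ) := by
      have h11 : κ * (M * 𝒢.card) = M * (κ / 2 * 𝒢.card) + κ / 2 * M * 𝒢.card := by ring
      linarith only [h7, h9]
    exact le_of_mul_le_mul_left h10 hM0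
  -- the weights of one group
  have h2 : ∀ G ∈ 𝒢, ∑ p ∈ S, (if big G p then (l p : ℝ) * Real.log p else 0) ≤
      (M : ℝ) ^ 2 * Real.log H := by
    intro G hG
    calc ∑ p ∈ S, (if big G p then (l p : ℝ) * Real.log p else 0)
        ≤ ∑ p ∈ S, ∑ x ∈ G.offDiag,
            (if (p : ℤ) ^ l p ∣ x.1 - x.2 then (l p : ℝ) * Real.log p else 0) := by
          apply sum_le_sum
          intro p hp
          split_ifs with h
          · obtain ⟨a, b, ha, hb, hab⟩ := one_lt_card_iff.1 (lt_of_lt_of_le one_lt_two h)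
            rw [mem_filter] at ha hb
            have hd : (p : ℤ) ^ l p ∣ a - b := by
              have h3 := dvd_sub ha.2 hb.2
              have h4 : a - r p - (b - r p) = a - b := by ring
              rwa [h4] at h3
            have hm : (a, b) ∈ G.offDiag := mem_offDiag.2 ⟨ha.1, hb.1, hab⟩
            have h5 := single_le_sum (f := fun x : ℤ × ℤ =>
              (if (p : ℤ) ^ l p ∣ x.1 - x.2 then (l p : ℝ) * Real.log p else 0))
              (fun x _ => by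
                show 0 ≤ (if (p : ℤ) ^ l p ∣ x.1 - x.2 then (l p : ℝ) * Real.log p else 0)
                split_ifs
                · exact hw p
                · exact le_rfl) hm
            simp only [if_pos hd] at h5
            exact h5
          · apply sum_nonneg
            intro x _
            split_ifs
            · exact hw p
            · exact le_rfl
      _ = ∑ x ∈ G.offDiag, ∑ p ∈ S,
            (if (p : ℤ) ^ l p ∣ x.1 - x.2 then (l p : ℝ) * Real.log p else 0) := sum_comm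
      _ ≤ ∑ x ∈ G.offDiag, Real.log H := by
          apply sum_le_sum
          intro x hx
          rw [mem_offDiag] at hx
          rw [← sum_filter]
          have hz : x.1 - x.2 ≠ 0 := sub_ne_zero.2 hx.2.2
          refine (dvd_weight (fun p hp => hS p (mem_filter.1 hp).1) l hz
            (fun p hp => (mem_filter.1 hp).2)).trans ?_
          apply Real.log_le_log
          · rw [abs_pos]
            exact_mod_cast hz
          · exact hdiam G hG x.1 hx.1 x.2 hx.2.1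
      _ = (G.offDiag.card : ℝ) * Real.log H := by rw [sum_const, nsmul_eq_mul]
      _ ≤ (M : ℝ) ^ 2 * Real.log H := by
          apply mul_le_mul_of_nonneg_right _ hlogH
          rw [offDiag_card, hcard G hG]
          have h3 : M * M - M ≤ M ^ 2 := by
            rw [pow_two]
            exact Nat.sub_le _ _
          exact_mod_cast h3
  -- double counting
  have h3 : κ / 2 * 𝒢.card * ∑ p ∈ S, (l p : ℝ) * Real.log p ≤
      𝒢.card * ((M : ℝ) ^ 2 * Real.log H) := by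
    calc κ / 2 * 𝒢.card * ∑ p ∈ S, (l p : ℝ) * Real.log p
        = ∑ p ∈ S, κ / 2 * 𝒢.card * ((l p : ℝ) * Real.log p) := by rw [mul_sum]
      _ ≤ ∑ p ∈ S, ((𝒢.filter (fun G => big G p)).card : ℝ) * ((l p : ℝ) * Real.log p) :=
          sum_le_sum fun p hp => mul_le_mul_of_nonneg_right (h1 p hp) (hw p)
      _ = ∑ p ∈ S, ∑ G ∈ 𝒢, (if big G p then (l p : ℝ) * Real.log p else 0) := by
          apply sum_congr rfl
          intro p _
          rw [← sum_filter, sum_const, nsmul_eq_mul]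
      _ = ∑ G ∈ 𝒢, ∑ p ∈ S, (if big G p then (l p : ℝ) * Real.log p else 0) := sum_comm
      _ ≤ ∑ _G ∈ 𝒢, (M : ℝ) ^ 2 * Real.log H := sum_le_sum h2
      _ = 𝒢.card * ((M : ℝ) ^ 2 * Real.log H) := by rw [sum_const, nsmul_eq_mul]
  rw [le_div_iff₀ hκ]
  have h4 : 𝒢.card * (κ / 2 * ∑ p ∈ S, (l p : ℝ) * Real.log p) ≤
      𝒢.card * ((M : ℝ) ^ 2 * Real.log H) := by
    have h5 : 𝒢.card * (κ / 2 * ∑ p ∈ S, (l p : ℝ) * Real.log p) =
      κ / 2 * 𝒢.card * ∑ p ∈ S, (l p : ℝ) * Real.log p := by ring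
    rw [h5]
    exact h3
  have h5 := le_of_mul_le_mul_left h4 hg0
  (clear * - h5; linarith only [h5])

/-- `A` contains `|A| ^ (1 - c)` disjoint `M`-element sets of diameter at most
`|A| ^ (c log log |A|)` -/
def Grp (c : ℝ) (M : ℕ) (A : Finset ℤ) : Prop :=
  ∃ 𝒢 : Finset (Finset ℤ), (A.card : ℝ) ^ (1 - c) ≤ (𝒢.card : ℝ) ∧
    (∀ G ∈ 𝒢, G ⊆ A ∧ G.card = M ∧ ∀ a ∈ G, ∀ b ∈ G,
      |((a - b : ℤ) : ℝ)| ≤ (A.card : ℝ) ^ (c * Real.log (Real.log A.card))) ∧
    ∀ G ∈ 𝒢, ∀ G' ∈ 𝒢, G ≠ G' → Disjoint G G'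

theorem valProd_mono {A' A : Finset ℤ} (h : A' ⊆ A) (F : ℤ[X]) (B : Finset ℂ) :
    valProd F A' B ⊆ valProd F A B := by
  classical
  intro y hy
  unfold valProd at hy ⊢
  rw [mem_image₂] at hy ⊢
  obtain ⟨x, hx, b, hb, rfl⟩ := hy
  exact ⟨x, h hx, b, hb, rfl⟩

theorem smm_mono {A' A : Finset ℤ} (h : A' ⊆ A) (F : ℤ[X]) (B : Finset ℂ) :
    smm (rvals F A') B ⊆ smm (rvals F A) B := by
  classical
  intro y hy
  rw [mem_smm] at hy ⊢
  obtain ⟨s, hs, b, hb, rfl⟩ := hy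
  refine ⟨s, ?_, b, hb, rfl⟩
  rw [mem_rvals] at hs ⊢
  obtain ⟨x, hx, h0, rfl⟩ := hs
  exact ⟨x, h hx, h0, rfl⟩

/-- the trivial bounds -/
theorem triv_bounds {A : Finset ℤ} {F : ℤ[X]} (hFA : ∃ a ∈ A, F.eval a ≠ 0) (B : Finset ℂ) :
    ((0 : ℂ) ∉ B → (B.card : ℝ) ≤ (((valProd F A B).erase 0).card : ℝ)) ∧
      (B.card : ℝ) ≤ ((smm (rvals F A) B).card : ℝ) := by
  classical
  obtain ⟨a₀, ha₀, hFa₀⟩ := hFA
  have hF0 : (((F.eval a₀ : ℤ) : ℂ)) ≠ 0 := by exact_mod_cast hFa₀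
  constructor
  · intro h0
    have h1 : B.card ≤ ((valProd F A B).erase 0).card := by
      apply card_le_card_of_injOn (fun b => ((F.eval a₀ : ℤ) : ℂ) * b)
      · intro b hb
        rw [mem_coe] at hb
        rw [mem_coe, mem_erase]
        refine ⟨mul_ne_zero hF0 (fun h => h0 (h ▸ hb)), ?_⟩
        unfold valProd
        rw [mem_image₂]
        exact ⟨a₀, ha₀, b, hb, rfl⟩
      · intro x _ y _ h
        exact mul_left_cancel₀ hF0 h
    exact_mod_cast h1
  · have h1 : B.card ≤ (smm (rvals F A) B).card := by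
      apply card_le_card_of_injOn (fun b => (((F.eval a₀ : ℤ) : ℂ))⁻¹ + b)
      · intro b hb
        rw [mem_coe] at hb
        rw [mem_coe, mem_smm]
        exact ⟨_, (mem_rvals _ _ _).2 ⟨a₀, ha₀, hFa₀, rfl⟩, b, hb, rfl⟩
      · intro x _ y _ h
        exact add_left_cancel h
    exact_mod_cast h1

/-- **Expansion of polynomial values on sets with many groups of small diameter** -/
theorem grpZ (ε : ℝ) (d : ℕ) (hε : 0 < ε) (hd : 1 ≤ d) : ∃ M₀ : ℕ, ∀ M : ℕ, M₀ ≤ M →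
    ∃ c : ℝ, 0 < c ∧ ∀ A : Finset ℤ, A.Nonempty → Grp c M A →
    ∀ F : ℤ[X], 1 ≤ F.natDegree → F.natDegree ≤ d → (∃ a ∈ A, F.eval a ≠ 0) →
    ∀ B : Finset ℂ, B.Nonempty →
      ((0 : ℂ) ∉ B →
        c * ((A.card : ℝ) * (B.card : ℝ)) ^ (1 - ε) ≤ (((valProd F A B).erase 0).card : ℝ)) ∧
      c * ((A.card : ℝ) * (B.card : ℝ)) ^ (1 - ε) ≤ ((smm (rvals F A) B).card : ℝ) := by
  classical
  set e : ℝ := min ε 1 / 2 with hedef
  have he0 : 0 < e := by
    rw [hedef]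
    have : 0 < min ε 1 := lt_min hε one_pos
    (clear * - this; linarith only [this])
  have he1 : e ≤ 1 / 2 := by
    rw [hedef]
    have := min_le_right ε 1
    (clear * - this; linarith only [this])
  have heε : 2 * e ≤ ε := by
    rw [hedef]
    have := min_le_left ε 1
    linarith only [this]
  obtain ⟨κ₁, c₁, n₁, hκ₁0, hκ₁1, hc₁, H1⟩ := wtProd e d he0 hd
  obtain ⟨κ₂, c₂, n₂, hκ₂0, hκ₂1, hc₂, H2⟩ := wtSum e d he0 hd
  set κ : ℝ := min κ₁ κ₂ with hκdef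
  have hκ0 : 0 < κ := lt_min hκ₁0 hκ₂0
  refine ⟨⌈2 / κ⌉₊, fun M hM => ?_⟩
  have hMκ : 2 / κ ≤ (M : ℝ) := (Nat.le_ceil _).trans (by exact_mod_cast hM)
  have hM0 : (0 : ℝ) < M := lt_of_lt_of_le (by (clear * - hκ₁0 hκ₂0; positivity)) hMκ
  obtain ⟨N, hN2, hN⟩ : ∃ N : ℕ, 3 ≤ N ∧ ∀ n : ℕ, N ≤ n →
      ((max n₁ n₂ : ℕ) : ℝ) ≤ (n : ℝ) ^ (1 - e) ∧ 4 ≤ Real.log n := by
    have h1 : Filter.Tendsto (fun n : ℕ => (n : ℝ) ^ (1 - e)) Filter.atTop Filter.atTop :=
      (tendsto_rpow_atTop (by (clear * - he1; linarith only [he1]) : (0 : ℝ) < 1 - e)).comp tendsto_natCast_atTop_atTop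
    have h2 : Filter.Tendsto (fun n : ℕ => Real.log (n : ℝ)) Filter.atTop Filter.atTop :=
      Real.tendsto_log_atTop.comp tendsto_natCast_atTop_atTop
    obtain ⟨N₁, hN₁⟩ := Filter.eventually_atTop.1
      ((h1.eventually_ge_atTop ((max n₁ n₂ : ℕ) : ℝ)).and (h2.eventually_ge_atTop 4))
    exact ⟨max N₁ 3, le_max_right _ _, fun n hn => hN₁ n ((le_max_left _ _).trans hn)⟩
  have hN0 : (0 : ℝ) < N := by
    have : 0 < N := by omega
    exact_mod_cast this
  set c₃ : ℝ := κ * min c₁ c₂ / (8 * (M : ℝ) ^ 2) with hc₃def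
  have hc₃ : 0 < c₃ := by
    have : 0 < min c₁ c₂ := lt_min hc₁ hc₂
    (clear * - hκ₁0 hκ₂0 hc₁ hc₂ hM0; positivity)
  set c : ℝ := min (min e (1 / N)) (min (min c₁ c₂) c₃) with hcdef
  have hc0 : 0 < c :=
    lt_min (lt_min he0 (by positivity)) (lt_min (lt_min hc₁ hc₂) hc₃)
  have hce : c ≤ e := (min_le_left _ _).trans (min_le_left _ _)
  have hcN : c * (N : ℝ) ≤ 1 := by
    have h1 : c ≤ 1 / N := (min_le_left _ _).trans (min_le_right _ _)
    rw [le_div_iff₀ hN0] at h1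
    exact h1
  have hcc₁ : c ≤ c₁ := (min_le_right _ _).trans ((min_le_left _ _).trans (min_le_left _ _))
  have hcc₂ : c ≤ c₂ := (min_le_right _ _).trans ((min_le_left _ _).trans (min_le_right _ _))
  have hcc₃ : c ≤ c₃ := (min_le_right _ _).trans (min_le_right _ _)
  refine ⟨c, hc0, fun A hA hG F hF1 hFd hFA B hB => ?_⟩
  have hAc1 : (1 : ℝ) ≤ A.card := by exact_mod_cast hA.card_pos
  have hBc1 : (1 : ℝ) ≤ B.card := by exact_mod_cast hB.card_pos
  rcases lt_or_ge A.card N with hlt | hge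
  · have hAN : (A.card : ℝ) ≤ N := by exact_mod_cast hlt.le
    have ht := triv_bounds hFA B
    exact ⟨fun h0 => small_case hc0 hcN hε hAc1 hAN hBc1 (ht.1 h0),
      small_case hc0 hcN hε hAc1 hAN hBc1 ht.2⟩
  · obtain ⟨hn12, hL4⟩ := hN A.card hge
    obtain ⟨𝒢, hcard𝒢, hG, hdisj⟩ := hG
    set L : ℝ := Real.log A.card with hLdef
    have hL0 : 0 < L := by linarith only [hL4]
    have hlogL : 0 < Real.log L := Real.log_pos (by linarith only [hL4])
    have hg0 : (0 : ℝ) < 𝒢.card := lt_of_lt_of_le (by (clear * - hA; positivity)) hcard𝒢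
    have hgne : 𝒢.Nonempty := by
      rw [← card_pos]
      exact_mod_cast hg0
    set A' : Finset ℤ := 𝒢.biUnion id with hA'def
    have hA'A : A' ⊆ A := by
      intro a ha
      rw [hA'def, mem_biUnion] at ha
      obtain ⟨G, hG', haG⟩ := ha
      exact (hG G hG').1 haG
    have hunion : (A'.card : ℝ) = M * 𝒢.card := card_union (fun G hG' => (hG G hG').2.1) hdisj
    have hM1 : (1 : ℝ) ≤ M := by
      have : 0 < M := by exact_mod_cast hM0
      exact_mod_cast this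
    have hA'1 : (A.card : ℝ) ^ (1 - c) ≤ A'.card := by
      rw [hunion]
      exact hcard𝒢.trans (le_mul_of_one_le_left hg0.le hM1)
    have hA'e : (A.card : ℝ) ^ (1 - e) ≤ A'.card :=
      (Real.rpow_le_rpow_of_exponent_le hAc1 (by linarith only [hce])).trans hA'1
    have hn' : max n₁ n₂ ≤ A'.card := by exact_mod_cast hn12.trans hA'e
    have hA'0 : (0 : ℝ) < A'.card := lt_of_lt_of_le (by (clear * - hA; positivity)) hA'1
    have hL' : L / 2 ≤ Real.log A'.card := by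
      calc L / 2 ≤ (1 - c) * L := by (clear * - he1 hL0 hce; nlinarith only [he1, hce, hL0])
        _ = Real.log ((A.card : ℝ) ^ (1 - c)) := by rw [Real.log_rpow (by linarith only [hAc1])]
        _ ≤ Real.log A'.card := Real.log_le_log (by (clear * - hA; positivity)) hA'1
    have hLL' : Real.log L / 2 ≤ Real.log (Real.log A'.card) := by
      calc Real.log L / 2 ≤ Real.log (L / 2) := by
            rw [Real.log_div hL0.ne' two_ne_zero]
            have h1 : 2 * Real.log 2 ≤ Real.log L := by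
              have h2 : Real.log 4 ≤ Real.log L := Real.log_le_log (by norm_num) hL4
              have h3 : Real.log 4 = 2 * Real.log 2 := by
                rw [show (4 : ℝ) = 2 ^ 2 by norm_num, Real.log_pow]
                norm_num
              linarith only [h2, h3]
            linarith only [h1]
        _ ≤ Real.log (Real.log A'.card) := Real.log_le_log (by (clear * - hL4; positivity)) hL'
    set H : ℝ := (A.card : ℝ) ^ (c * Real.log (Real.log A.card)) with hHdef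
    have hH1 : 1 ≤ H := Real.one_le_rpow hAc1 (mul_nonneg hc0.le hlogL.le)
    have hlogH : Real.log H = c * Real.log L * L := by
      rw [hHdef, Real.log_rpow (by linarith only [hAc1])]
    have hW := wtC_groups hκ0 hMκ hH1 hgne (fun G hG' => (hG G hG').2.1)
      (fun G hG' => (hG G hG').2.2) hdisj
    have hR : 2 * (M : ℝ) ^ 2 * Real.log H / κ ≤
        min c₁ c₂ * (Real.log A'.card * Real.log (Real.log A'.card)) := by
      have h1 : Real.log L / 2 * (L / 2) ≤ Real.log A'.card * Real.log (Real.log A'.card) := by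
        rw [mul_comm (Real.log A'.card)]
        exact mul_le_mul hLL' hL' (by (clear * - hL4; positivity)) (le_trans (by (clear * - hlogL; positivity)) hLL')
      have h2 : 2 * (M : ℝ) ^ 2 * Real.log H / κ ≤ min c₁ c₂ * (Real.log L / 2 * (L / 2)) := by
        rw [hlogH, div_le_iff₀ hκ0]
        have h3 : c * (8 * (M : ℝ) ^ 2) ≤ κ * min c₁ c₂ := by
          rw [hc₃def, le_div_iff₀ (by (clear * - hM0; positivity))] at hcc₃
          exact hcc₃
        have h4 : 0 ≤ Real.log L * L := by (clear * - hlogL hL4; positivity)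
        nlinarith only [h3, h4]
      have h3 : 0 ≤ min c₁ c₂ := le_min hc₁.le hc₂.le
      exact h2.trans (mul_le_mul_of_nonneg_left h1 h3)
    have hpos' : 0 ≤ Real.log A'.card * Real.log (Real.log A'.card) :=
      mul_nonneg (le_trans (by (clear * - hL4; positivity)) hL') (le_trans (by (clear * - hlogL; positivity)) hLL')
    have hW1 : WtC κ₁ (c₁ * (Real.log A'.card * Real.log (Real.log A'.card))) A' :=
      hW.mono (min_le_left _ _)
        (hR.trans (mul_le_mul_of_nonneg_right (min_le_left _ _) hpos'))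
    have hW2 : WtC κ₂ (c₂ * (Real.log A'.card * Real.log (Real.log A'.card))) A' :=
      hW.mono (min_le_right _ _)
        (hR.trans (mul_le_mul_of_nonneg_right (min_le_right _ _) hpos'))
    constructor
    · intro h0
      have h1 := H1 A' ((le_max_left _ _).trans hn') hW1 F hF1 hFd B hB h0
      refine (rpow_chain hc0 hcc₁ he0 he1 heε hAc1 hBc1 hA'e).trans (h1.trans ?_)
      exact_mod_cast card_le_card (erase_subset_erase _ (valProd_mono hA'A F B))
    · have h1 := H2 A' ((le_max_right _ _).trans hn') hW2 F hF1 hFd B hB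
      refine (rpow_chain hc0 hcc₂ he0 he1 heε hAc1 hBc1 hA'e).trans (h1.trans ?_)
      exact_mod_cast card_le_card (smm_mono hA'A F B)

end Pool.Agent.Helper99.FS
end

/- Helper24.TT.H99.FS.FewU -/
section
set_option autoImplicit false

namespace Pool.Agent.Helper99.FS

/-- the theorem for one polynomial, unconditional -/
theorem fewZU : FSZ := fewZ (Pool.Agent.Helper78.FS.atomsZ Pool.Agent.Helper57.FS.atomLemma)

end Pool.Agent.Helper99.FS
end

/- Helper24.TT.H99.FS.Final2 -/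
section
/-!
# Projects TR, RT and FS (MP_120218_co) together, with groups of small diameter
-/

set_option autoImplicit false

open Finset Polynomial

namespace Pool.Agent.Helper99.FS

open Pool.Agent.Helper99.TR (Adm adm_mono polyProd mem_polyProd TRZ valProd iter)
open Pool.Agent.Helper99.RT (polyRec mem_polyRec RTZ both maps prodC sumC Both rvals smm iterA)

/-- `k` polynomials from one polynomial, for one set -/
theorem kfold {k d : ℕ} {ε δ c : ℝ} (hδ0 : 0 < δ) (hδ1 : δ ≤ 1)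
    (hδ2 : δ * (k : ℝ) ^ 2 ≤ ε) (hδ3 : (k : ℝ) * δ ≤ ε) (hc0 : 0 < c) (hc1 : c ≤ 1)
    {A : Finset ℤ} (hA : A.Nonempty)
    (hZ : ∀ F : ℤ[X], 1 ≤ F.natDegree → F.natDegree ≤ d → (∃ a ∈ A, F.eval a ≠ 0) →
      ∀ B : Finset ℂ, B.Nonempty →
      ((0 : ℂ) ∉ B →
        c * ((A.card : ℝ) * (B.card : ℝ)) ^ (1 - δ) ≤ (((valProd F A B).erase 0).card : ℝ)) ∧
      c * ((A.card : ℝ) * (B.card : ℝ)) ^ (1 - δ) ≤ ((smm (rvals F A) B).card : ℝ))
    (F : Fin k → ℤ[X])
    (hF : ∀ i, 1 ≤ (F i).natDegree ∧ (F i).natDegree ≤ d ∧ ∃ a ∈ A, (F i).eval a ≠ 0)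
    (B : Finset ℂ) (hB : B.Nonempty) :
    ((0 : ℂ) ∉ B →
      c ^ k * ((A.card : ℝ) ^ ((k : ℝ) - ε) * (B.card : ℝ) ^ (1 - ε)) ≤
        (((polyProd F A B).erase 0).card : ℝ)) ∧
    c ^ k * ((A.card : ℝ) ^ ((k : ℝ) - ε) * (B.card : ℝ) ^ (1 - ε)) ≤
      ((polyRec F A B).card : ℝ) := by
  have hck : 0 < c ^ k := pow_pos hc0 k
  have hN1 : (1 : ℝ) ≤ A.card := by exact_mod_cast hA.card_pos
  have hB1 : (1 : ℝ) ≤ B.card := by exact_mod_cast hB.card_pos
  have hle : c ^ k * ((A.card : ℝ) ^ ((k : ℝ) - ε) * (B.card : ℝ) ^ (1 - ε)) ≤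
      c ^ k * ((A.card : ℝ) ^ ((k : ℝ) - δ * (k : ℝ) ^ 2) * (B.card : ℝ) ^ (1 - (k : ℝ) * δ)) := by
    apply mul_le_mul_of_nonneg_left _ hck.le
    apply mul_le_mul _ _ (by (clear * - hB; positivity)) (by (clear * - hA; positivity))
    · exact Real.rpow_le_rpow_of_exponent_le hN1 (by linarith only [hδ2])
    · exact Real.rpow_le_rpow_of_exponent_le hB1 (by (clear * - hδ3; linarith only [hδ3]))
  constructor
  · intro h0
    refine hle.trans ?_
    exact iter hA hc0 hc1 hδ0.le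
      (fun G => 1 ≤ G.natDegree ∧ G.natDegree ≤ d ∧ ∃ a ∈ A, G.eval a ≠ 0)
      (fun G hG B' hB' h0' => (hZ G hG.1 hG.2.1 hG.2.2 B' hB').1 h0') hδ1 k F hF B hB h0
  · refine hle.trans ?_
    exact iterA hA hc0 hc1 hδ0.le
      (fun G => 1 ≤ G.natDegree ∧ G.natDegree ≤ d ∧ ∃ a ∈ A, G.eval a ≠ 0)
      (fun G hG B' hB' => (hZ G hG.1 hG.2.1 hG.2.2 B' hB').2) hδ1 k F hF B hB

theorem Grp.mono {c c₀ : ℝ} (hc : 0 < c) (hcc : c ≤ c₀) {M : ℕ} {A : Finset ℤ} (hA : A.Nonempty)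
    (h : Grp c M A) : Grp c₀ M A := by
  obtain ⟨𝒢, h1, h2, h3⟩ := h
  have hN1 : (1 : ℝ) ≤ A.card := by exact_mod_cast hA.card_pos
  refine ⟨𝒢, (Real.rpow_le_rpow_of_exponent_le hN1 (by (clear * - hcc; linarith only [hcc]))).trans h1, ?_, h3⟩
  intro G hG
  obtain ⟨h4, h5, h6⟩ := h2 G hG
  refine ⟨h4, h5, fun a ha b hb => ?_⟩
  have h7 := h6 a ha b hb
  rcases le_or_gt 0 (Real.log (Real.log (A.card : ℝ))) with h | h
  · exact h7.trans (Real.rpow_le_rpow_of_exponent_le hN1 (mul_le_mul_of_nonneg_right hcc h))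
  · have hn2 : 1 < (A.card : ℝ) := by
      rcases eq_or_lt_of_le hN1 with h8 | h8
      · rw [← h8] at h
        simp at h
      · exact h8
    have h8 : (A.card : ℝ) ^ (c * Real.log (Real.log A.card)) < 1 :=
      Real.rpow_lt_one_of_one_lt_of_neg hn2 (mul_neg_of_pos_of_neg hc h)
    have h9 : |((a - b : ℤ) : ℝ)| < 1 := h7.trans_lt h8
    have h10 : |a - b| < 1 := by exact_mod_cast h9
    have h11 : a - b = 0 := Int.abs_lt_one_iff.1 h10
    rw [h11, Int.cast_zero, abs_zero]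
    (clear * - hA h5 h2; positivity)

theorem Both.mono {k d m m' : ℕ} {c ε : ℝ} (hm : m ≤ m') (h : Both k d m c ε) :
    Both k d m' c ε := by
  intro A hA
  obtain ⟨Z, hZ, h1⟩ := h A hA
  exact ⟨Z, hZ.trans hm, h1⟩

/-- everything together -/
theorem finalG (hP : TRZ) (hS : RTZ) (hF1 : FSZ) (k d : ℕ) (hk : 1 ≤ k) (ε : ℝ) (hε : 0 < ε) :
    ∃ (m : ℕ) (c : ℝ), 0 < c ∧
      (∀ A : Finset ℤ, A.Nonempty → ∃ Z : Finset ℂ, Z.card ≤ m ∧
        ∀ F : Fin k → ℤ[X], (∀ i, 1 ≤ (F i).natDegree ∧ (F i).natDegree ≤ d) →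
          ((∀ i, (∀ j, |((F i).coeff j : ℝ)| ≤ (A.card : ℝ) ^ (c * Real.log (Real.log A.card))) ∧
              ∀ z ∈ Z, aeval z (F i) ≠ 0) ∨
            ((((image₂ (fun a b => a + b) A A).card : ℝ) ≤ (A.card : ℝ) ^ (1 + c) ∨ Grp c m A) ∧
              ∀ i, ∃ a ∈ A, (F i).eval a ≠ 0)) →
          ∀ B : Finset ℂ, B.Nonempty →
            ((0 : ℂ) ∉ B →
              c * ((A.card : ℝ) ^ ((k : ℝ) - ε) * (B.card : ℝ) ^ (1 - ε)) ≤
                (((polyProd F A B).erase 0).card : ℝ)) ∧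
            c * ((A.card : ℝ) ^ ((k : ℝ) - ε) * (B.card : ℝ) ^ (1 - ε)) ≤
              ((polyRec F A B).card : ℝ)) ∧
      ∀ (B : Finset ℤ) (A : Finset ℂ), B.Nonempty → A.Nonempty →
        (A.card : ℝ) ≤ (B.card : ℝ) ^ (1 + c) →
        ∀ (F : Fin (m + 1) → ℤ[X]) (t : Fin (m + 1) → ℂ), (∀ i, t i ≠ 0) →
        (∀ i, Adm d ((B.card : ℝ) ^ (c * Real.log (Real.log B.card))) (F i)) →
        (∀ i j, i ≠ j → ∀ z : ℂ, ¬ (aeval z (F i) = 0 ∧ aeval z (F j) = 0)) →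
        ((∀ i, ∀ b ∈ B, t i * (((F i).eval b : ℤ) : ℂ) ∈ A) →
          c * (A.card : ℝ) ^ ((k : ℝ) - ε) ≤ ((prodC k A).card : ℝ)) ∧
        ((∀ i, ∀ b ∈ B, (F i).eval b ≠ 0 → t i / (((F i).eval b : ℤ) : ℂ) ∈ A) →
          c * (A.card : ℝ) ^ ((k : ℝ) - ε) ≤ ((prodC k A).card : ℝ) ∧
          c * (A.card : ℝ) ^ ((k : ℝ) - ε) ≤ ((sumC k A).card : ℝ)) := by
  obtain ⟨m₀, c₀, hc₀, hm⟩ := both hP hS k d (ε / 2) (by (clear * - hε; positivity))
  have hk1 : (1 : ℝ) ≤ k := by exact_mod_cast hk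
  have hk2 : (k : ℝ) ≤ (k : ℝ) ^ 2 := by (clear * - hk1; nlinarith only [hk1])
  have hk0 : (0 : ℝ) < (k : ℝ) ^ 2 := by positivity
  set δ : ℝ := min 1 (ε / (k : ℝ) ^ 2) with hδdef
  have hδ0 : 0 < δ := lt_min one_pos (by (clear * - hε hk; positivity))
  have hδ1 : δ ≤ 1 := min_le_left _ _
  have hδ2 : δ * (k : ℝ) ^ 2 ≤ ε := by
    have h1 : δ ≤ ε / (k : ℝ) ^ 2 := min_le_right _ _
    rw [le_div_iff₀ hk0] at h1
    exact h1
  have hδ3 : (k : ℝ) * δ ≤ ε := by (clear * - hδ2 hk2 hδ0; nlinarith only [hk2, hδ0, hδ2])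
  obtain ⟨c₁, hc₁, hfew⟩ := hF1 δ (max d 1) hδ0 (le_max_right _ _)
  obtain ⟨M₀, hgrp⟩ := grpZ δ (max d 1) hδ0 (le_max_right _ _)
  set m : ℕ := max m₀ M₀ with hmdef
  obtain ⟨c₂, hc₂, hgrp⟩ := hgrp m (le_max_right _ _)
  have hek : 0 < ε / (2 * k) := by positivity
  set c' : ℝ := min (min c₁ c₂) 1 with hc'def
  have hc'0 : 0 < c' := lt_min (lt_min hc₁ hc₂) one_pos
  have hc'1 : c' ≤ 1 := min_le_right _ _
  have hc'c₁ : c' ≤ c₁ := (min_le_left _ _).trans (min_le_left _ _)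
  have hc'c₂ : c' ≤ c₂ := (min_le_left _ _).trans (min_le_right _ _)
  have hck : 0 < c' ^ k := pow_pos hc'0 k
  have hck1 : c' ^ k ≤ c' := pow_le_of_le_one hc'0.le hc'1 (by omega)
  set c : ℝ := min (min (min c₀ (c' ^ k)) 1) (ε / (2 * k)) with hc
  have hc0 : 0 < c := lt_min (lt_min (lt_min hc₀ hck) one_pos) hek
  have hcc₀ : c ≤ c₀ := ((min_le_left _ _).trans (min_le_left _ _)).trans (min_le_left _ _)
  have hcck : c ≤ c' ^ k := ((min_le_left _ _).trans (min_le_left _ _)).trans (min_le_right _ _)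
  have hc1 : c ≤ 1 := (min_le_left _ _).trans (min_le_right _ _)
  have hce : c ≤ ε / (2 * k) := min_le_right _ _
  have hcc₁ : c ≤ c₁ := (hcck.trans hck1).trans hc'c₁
  have hcc₂ : c ≤ c₂ := (hcck.trans hck1).trans hc'c₂
  have key : Both k d m c (ε / 2) := Both.mono (le_max_left _ _) (hm c hc0 hcc₀)
  refine ⟨m, c, hc0, ?_, ?_⟩
  · intro A hA
    obtain ⟨Z, hZ, h⟩ := key A hA
    refine ⟨Z, hZ, fun F hd hF B hB => ?_⟩
    have hN1 : (1 : ℝ) ≤ A.card := by exact_mod_cast hA.card_pos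
    have hB1 : (1 : ℝ) ≤ B.card := by exact_mod_cast hB.card_pos
    rcases hF with hF | ⟨hAA, hF⟩
    · have h1 := h F (fun i => ⟨(hd i).1, (hd i).2, (hF i).1⟩) (fun i => (hF i).2) B hB
      have h2 : c * ((A.card : ℝ) ^ ((k : ℝ) - ε) * (B.card : ℝ) ^ (1 - ε)) ≤
          c * ((A.card : ℝ) ^ ((k : ℝ) - ε / 2) * (B.card : ℝ) ^ (1 - ε / 2)) := by
        apply mul_le_mul_of_nonneg_left _ hc0.le
        apply mul_le_mul _ _ (by (clear * - hB; positivity)) (by (clear * - hA; positivity))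
        · exact Real.rpow_le_rpow_of_exponent_le hN1 (by linarith only [hε])
        · exact Real.rpow_le_rpow_of_exponent_le hB1 (by linarith only [hε])
      exact ⟨fun h0 => h2.trans (h1.1 h0), h2.trans h1.2⟩
    · have hmono : ∀ (c₃ : ℝ), c' ≤ c₃ → ∀ B' : Finset ℂ,
          c' * ((A.card : ℝ) * (B'.card : ℝ)) ^ (1 - δ) ≤
          c₃ * ((A.card : ℝ) * (B'.card : ℝ)) ^ (1 - δ) := fun c₃ h3 B' =>
        mul_le_mul_of_nonneg_right h3 (by (clear * - hA; positivity))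
      have hone : ∀ G : ℤ[X], 1 ≤ G.natDegree → G.natDegree ≤ d → (∃ a ∈ A, G.eval a ≠ 0) →
          ∀ B : Finset ℂ, B.Nonempty →
          ((0 : ℂ) ∉ B → c' * ((A.card : ℝ) * (B.card : ℝ)) ^ (1 - δ) ≤
            (((valProd G A B).erase 0).card : ℝ)) ∧
          c' * ((A.card : ℝ) * (B.card : ℝ)) ^ (1 - δ) ≤ ((smm (rvals G A) B).card : ℝ) := by
        intro G hG1 hGd hGA B' hB'
        rcases hAA with hAA | hAA
        · have h1 := hfew A hA
            (hAA.trans (Real.rpow_le_rpow_of_exponent_le hN1 (by linarith only [hcc₁]))) G hG1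
            (hGd.trans (le_max_left _ _)) hGA B' hB'
          exact ⟨fun h0 => (hmono c₁ hc'c₁ B').trans (h1.1 h0), (hmono c₁ hc'c₁ B').trans h1.2⟩
        · have h1 := hgrp A hA (hAA.mono hc0 hcc₂ hA) G hG1
            (hGd.trans (le_max_left _ _)) hGA B' hB'
          exact ⟨fun h0 => (hmono c₂ hc'c₂ B').trans (h1.1 h0), (hmono c₂ hc'c₂ B').trans h1.2⟩
      have h1 := kfold hδ0 hδ1 hδ2 hδ3 hc'0 hc'1 hA hone F
        (fun i => ⟨(hd i).1, (hd i).2, hF i⟩) B hB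
      have h2 : c * ((A.card : ℝ) ^ ((k : ℝ) - ε) * (B.card : ℝ) ^ (1 - ε)) ≤
          c' ^ k * ((A.card : ℝ) ^ ((k : ℝ) - ε) * (B.card : ℝ) ^ (1 - ε)) :=
        mul_le_mul_of_nonneg_right hcck (by (clear * - hA hB; positivity))
      exact ⟨fun h0 => h2.trans (h1.1 h0), h2.trans h1.2⟩
  · intro B A hB hA hAB F t ht hF hFF
    refine maps hk hε hc0 hc1 key B A hB hA F t ht hF hFF (hAB.trans ?_)
    have hB1 : (1 : ℝ) ≤ B.card := by exact_mod_cast hB.card_pos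
    exact Real.rpow_le_rpow_of_exponent_le hB1 (by linarith only [hce])

end Pool.Agent.Helper99.FS
end

/- Helper24.TT.H99.FS.ResultH2 -/
section
set_option autoImplicit false

namespace Pool.Agent.Helper99.FS

open Finset Polynomial

/-- the final theorem from its ingredients -/
theorem result_of2 (hP : Pool.Agent.Helper99.TR.TRZ) (hS : Pool.Agent.Helper99.RT.RTZ) (hK : FSZ) :
    ∀ k d : ℕ, 1 ≤ k → ∀ ε : ℝ, 0 < ε → ∃ (m : ℕ) (c : ℝ), 0 < c ∧
      (∀ A : Finset ℤ, A.Nonempty → ∃ Z : Finset ℂ, Z.card ≤ m ∧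
        ∀ F : Fin k → ℤ[X], (∀ i, 1 ≤ (F i).natDegree ∧ (F i).natDegree ≤ d) →
          ((∀ i, (∀ j, |((F i).coeff j : ℝ)| ≤ (A.card : ℝ) ^ (c * Real.log (Real.log A.card))) ∧
              ∀ z ∈ Z, aeval z (F i) ≠ 0) ∨
            ((({s : ℤ | ∃ a ∈ A, ∃ b ∈ A, s = a + b}.ncard : ℝ) ≤ (A.card : ℝ) ^ (1 + c) ∨
              ∃ S : Finset (Finset ℤ), (A.card : ℝ) ^ (1 - c) ≤ (S.card : ℝ) ∧
                (∀ G ∈ S, G ⊆ A ∧ G.card = m ∧ ∀ a ∈ G, ∀ b ∈ G,
                  |((a - b : ℤ) : ℝ)| ≤ (A.card : ℝ) ^ (c * Real.log (Real.log A.card))) ∧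
                ∀ G ∈ S, ∀ G' ∈ S, G ≠ G' → Disjoint G G') ∧
              ∀ i, ∃ a ∈ A, (F i).eval a ≠ 0)) →
          ∀ B : Finset ℂ, B.Nonempty →
            ((0 : ℂ) ∉ B →
              c * (A.card : ℝ) ^ ((k : ℝ) - ε) * (B.card : ℝ) ^ (1 - ε) ≤
                ({y : ℂ | ∃ a : Fin k → ℤ, (∀ i, a i ∈ A) ∧ ∃ b ∈ B,
                  y = (∏ i, (((F i).eval (a i) : ℤ) : ℂ)) * b}.ncard : ℝ)) ∧
            c * (A.card : ℝ) ^ ((k : ℝ) - ε) * (B.card : ℝ) ^ (1 - ε) ≤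
              ({y : ℂ | ∃ a : Fin k → ℤ, (∀ i, a i ∈ A ∧ (F i).eval (a i) ≠ 0) ∧ ∃ b ∈ B,
                y = (∑ i, 1 / (((F i).eval (a i) : ℤ) : ℂ)) + b}.ncard : ℝ)) ∧
      ∀ (B : Finset ℤ) (A : Finset ℂ), B.Nonempty → A.Nonempty →
        (A.card : ℝ) ≤ (B.card : ℝ) ^ (1 + c) →
        ∀ (F : Fin (m + 1) → ℤ[X]) (t : Fin (m + 1) → ℂ),
          (∀ i, 1 ≤ (F i).natDegree ∧ (F i).natDegree ≤ d ∧
            (∀ j, |((F i).coeff j : ℝ)| ≤ (B.card : ℝ) ^ (c * Real.log (Real.log B.card))) ∧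
            t i ≠ 0) →
          (∀ i j, i ≠ j → ∀ z : ℂ, ¬ (aeval z (F i) = 0 ∧ aeval z (F j) = 0)) →
          ((∀ i, ∀ b ∈ B, t i * (((F i).eval b : ℤ) : ℂ) ∈ A) →
            c * (A.card : ℝ) ^ ((k : ℝ) - ε) ≤
              ({y : ℂ | ∃ f : Fin k → ℂ, (∀ i, f i ∈ A) ∧ y = ∏ i, f i}.ncard : ℝ)) ∧
          ((∀ i, ∀ b ∈ B, (F i).eval b ≠ 0 → t i / (((F i).eval b : ℤ) : ℂ) ∈ A) →
            c * (A.card : ℝ) ^ ((k : ℝ) - ε) ≤
              ({y : ℂ | ∃ f : Fin k → ℂ, (∀ i, f i ∈ A) ∧ y = ∏ i, f i}.ncard : ℝ) ∧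
            c * (A.card : ℝ) ^ ((k : ℝ) - ε) ≤
              ({y : ℂ | ∃ f : Fin k → ℂ, (∀ i, f i ∈ A) ∧ y = ∑ i, f i}.ncard : ℝ)) := by
  intro k d hk ε hε
  obtain ⟨m, c, hc, h1, h2⟩ := finalG hP hS hK k d hk ε hε
  have hprod : ∀ A : Finset ℂ, {y : ℂ | ∃ f : Fin k → ℂ, (∀ i, f i ∈ A) ∧ y = ∏ i, f i} =
      (Pool.Agent.Helper99.RT.prodC k A : Set ℂ) := by
    intro A
    ext y
    constructor
    · rintro ⟨f, hf, rfl⟩
      exact mem_coe.2 (Pool.Agent.Helper99.RT.mem_prodC.2 ⟨f, hf, rfl⟩)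
    · intro hy
      obtain ⟨f, hf, hy2⟩ := Pool.Agent.Helper99.RT.mem_prodC.1 (mem_coe.1 hy)
      exact ⟨f, hf, hy2.symm⟩
  have hsum : ∀ A : Finset ℂ, {y : ℂ | ∃ f : Fin k → ℂ, (∀ i, f i ∈ A) ∧ y = ∑ i, f i} =
      (Pool.Agent.Helper99.RT.sumC k A : Set ℂ) := by
    intro A
    ext y
    constructor
    · rintro ⟨f, hf, rfl⟩
      exact mem_coe.2 (Pool.Agent.Helper99.RT.mem_sumC.2 ⟨f, hf, rfl⟩)
    · intro hy
      obtain ⟨f, hf, hy2⟩ := Pool.Agent.Helper99.RT.mem_sumC.1 (mem_coe.1 hy)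
      exact ⟨f, hf, hy2.symm⟩
  have himg : ∀ A : Finset ℤ, {s : ℤ | ∃ a ∈ A, ∃ b ∈ A, s = a + b} =
      ((image₂ (fun a b => a + b) A A : Finset ℤ) : Set ℤ) := by
    intro A
    ext y
    simp only [Set.mem_ofPred_eq, mem_coe, mem_image₂]
    constructor
    · rintro ⟨a, ha, b, hb, rfl⟩
      exact ⟨a, ha, b, hb, rfl⟩
    · rintro ⟨a, ha, b, hb, h⟩
      exact ⟨a, ha, b, hb, h.symm⟩
  refine ⟨m, c, hc, ?_, ?_⟩
  · intro A hA
    obtain ⟨Z, hZ, h⟩ := h1 A hA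
    refine ⟨Z, hZ, fun F hd hF B hB => ?_⟩
    rw [himg, Set.ncard_coe_finset] at hF
    have h3 := h F hd hF B hB
    have h4 : {y : ℂ | ∃ a : Fin k → ℤ, (∀ i, a i ∈ A) ∧ ∃ b ∈ B,
        y = (∏ i, (((F i).eval (a i) : ℤ) : ℂ)) * b} =
        (Pool.Agent.Helper99.TR.polyProd F A B : Set ℂ) := by
      ext y
      constructor
      · rintro ⟨a, ha, b, hb, rfl⟩
        exact mem_coe.2 ((Pool.Agent.Helper99.TR.mem_polyProd _ _ _ _).2 ⟨a, ha, b, hb, rfl⟩)
      · intro hy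
        obtain ⟨a, ha, b, hb, hy2⟩ :=
          (Pool.Agent.Helper99.TR.mem_polyProd _ _ _ _).1 (mem_coe.1 hy)
        exact ⟨a, ha, b, hb, hy2.symm⟩
    have h5 : {y : ℂ | ∃ a : Fin k → ℤ, (∀ i, a i ∈ A ∧ (F i).eval (a i) ≠ 0) ∧ ∃ b ∈ B,
        y = (∑ i, 1 / (((F i).eval (a i) : ℤ) : ℂ)) + b} =
        (Pool.Agent.Helper99.RT.polyRec F A B : Set ℂ) := by
      ext y
      constructor
      · rintro ⟨a, ha, b, hb, rfl⟩
        refine mem_coe.2 ((Pool.Agent.Helper99.RT.mem_polyRec _ _ _ _).2 ⟨a, ha, b, hb, ?_⟩)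
        simp only [one_div]
      · intro hy
        obtain ⟨a, ha, b, hb, hy2⟩ :=
          (Pool.Agent.Helper99.RT.mem_polyRec _ _ _ _).1 (mem_coe.1 hy)
        refine ⟨a, ha, b, hb, ?_⟩
        simp only [one_div]
        exact hy2.symm
    constructor
    · intro h0
      rw [h4, Set.ncard_coe_finset, mul_assoc]
      refine (h3.1 h0).trans ?_
      exact_mod_cast card_le_card (erase_subset _ _)
    · rw [h5, Set.ncard_coe_finset, mul_assoc]
      exact h3.2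
  · intro B A hB hA hAB F t hF hFF
    have h3 := h2 B A hB hA hAB F t (fun i => (hF i).2.2.2)
      (fun i => ⟨(hF i).1, (hF i).2.1, (hF i).2.2.1⟩) hFF
    rw [hprod A, hsum A, Set.ncard_coe_finset, Set.ncard_coe_finset]
    exact h3

end Pool.Agent.Helper99.FS
end
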